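import Pool.Agent.Lib.MP_b7d179_gt.M.Fact

/-! Access arcs across the strips of the faces, and lollipops carried down one level. -/

namespace Pool.Agent.Lib.MP_b7d179_gt.M

open Set

variable {n : ℕ} {f : V} {E E₀ E' : Set X} {acc l : X → Set X} {r : X → X} {e : X}

theorem acc_mk {O c : Set X} (hf : IsFace f) (hs : E ⊆ Og n f) (h : Sys O c E acc id r)
    (h1 : O \ c ⊆ IS n f) (h2 : O ⊆ Bx n f) (h3 : ∀ e ∈ E, r e ∈ Flat n ∩ One (n + 1)) :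
    Acs n E acc r :=
  ⟨fun e he => (h.cc e he).arc, fun e he g hg eg => by
    rw [face_uniq hg hf eg (hs he).1.1.1 (hs he).2]
    exact ⟨fun x hx => h1 ⟨(h.cc e he).sub hx.1, fun k => hx.2 ((h.cc e he).inter.le ⟨hx.1, k⟩)⟩,
      h2 ((h.cc e he).sub (h.cc e he).arc.right)⟩, h3, h.disj⟩

theorem access1 (hf : IsFace f) (hE : E.Finite) (hs : E ⊆ Og n f) (h0 : (E₀ ∩ E).Subsingleton) :
    ∃ acc r, Acs n E acc r ∧ ∀ e ∈ E, r e ∈ Bx (n + 1) (mid f) ↔ e ∈ E₀ := by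
  obtain rfl | hn := E.eq_empty_or_nonempty
  · exact ⟨fun _ => ∅, id, ⟨by simp, by simp, by simp, by simp⟩, by simp⟩
  obtain ⟨O, c, g, l, g₀, r, gm, gp, m, m', k, k', a1, a2, a3, a4, a5, a6, a7, a8, a9, b1, b2⟩ :=
    strip_fact hf (hn.mono hs)
  obtain h | ⟨e₀, h⟩ := (E₀ ∩ E).eq_empty_or_nonempty
  · obtain ⟨a, q, c1, c2⟩ := fan (t := (∅ : Set Unit)) (W := fun _ => ∅) (w := fun _ => ∅) a1
      ⟨finite_empty, by simp, by simp, by simp⟩ a3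
      (fun x hx => a2.union.le (.inl (.inl (.inr (a5 hx))))) hE
      (fun x hx => a2.union.le (.inl (.inl (.inl (a7 (hs hx)).1))))
      (disjoint_left.2 fun x hx k => (a7 (hs hx)).2 (.inl (a5 k)))
    exact ⟨a, q, acc_mk hf hs c1 a8 a9 fun e he => (b2 (.inl (c2 e he).1)).1, fun e he =>
      iff_of_false (b2 (.inl (c2 e he).1)).2 fun k => h.le ⟨k, he⟩⟩
  · obtain ⟨a, q, c1, c2, c3⟩ := access3 a1 a2 a3 a4 a5 a6 hE (hs.trans a7) h.2
    refine ⟨a, q, acc_mk hf hs c1 a8 a9 fun e he => ?_, fun e he => ?_⟩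
    · obtain rfl | k := eq_or_ne e e₀
      exacts [(b1 c2).1, (b2 (c3 e he k)).1]
    · obtain rfl | k := eq_or_ne e e₀
      · exact iff_of_true (b1 c2).2 h.1
      · exact iff_of_false (b2 (c3 e he k)).2 fun j => k (h0 ⟨j, he⟩ h)

theorem acc_cases (h : Acs n E acc r) (he : e ∈ E) (hf : IsFace f) (ef : e ∈ Bx n f) {x : X}
    (hx : x ∈ acc e) : x = e ∨ x = r e ∨ x ∈ IS n f := by
  by_cases k : x ∈ ({e, r e} : Set X)
  · exact k.imp_right .inl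
  · exact .inr (.inr ((h.sub e he f hf ef).1 ⟨hx, k⟩))

theorem Acs.vo (h : Acs n E acc r) (hs : E ⊆ Vo n) (he : e ∈ E) :
    r e ∈ Vo (n + 1) ∩ AnyH n ∧ acc e ∩ N (n + 1) = {r e} ∧ acc e ∩ Mm n = {e} ∧
      Disjoint (acc e) K ∧ ∀ f, IsFace f → e ∈ Bx n f → acc e ⊆ Ph n f ∩ Mb n ∩ One n := by
  obtain ⟨⟨⟨e1, e2⟩, e3⟩, e4⟩ := hs he
  obtain ⟨g, hg, eg⟩ := exists_face e3 e4
  obtain ⟨⟨⟨r1, r2⟩, r3⟩, r4⟩ := h.fl e he
  have r5 := Bx_any hg n (h.sub e he g hg eg).2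
  have k : acc e ∩ N (n + 1) = {r e} := by
    refine subset_antisymm (fun x hx => ?_) (singleton_subset_iff.2 ⟨(h.arc e he).right, r3⟩)
    obtain rfl | k | k := acc_cases h he hg eg hx.1
    exacts [((N_succ n hx.2).2 e2).elim, k, (k.1.2 (N_Nb n hx.2)).elim]
  refine ⟨⟨⟨⟨⟨r3, Mb_Mm n r2⟩, AnyH_succ n r5⟩, r4⟩, r5⟩, k, ?_, ?_, fun f hf ef x hx => ?_⟩
  · refine subset_antisymm (fun x hx => ?_) (singleton_subset_iff.2 ⟨(h.arc e he).left, e2⟩)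
    obtain k | rfl | k := acc_cases h he hg eg hx.1
    exacts [k, ((N_succ n r3).2 hx.2).elim, (k.1.1.2 hx.2).elim]
  · refine disjoint_left.2 fun x hx j => ?_
    obtain rfl : x = r e := k.le ⟨hx, K_sub_N _ j⟩
    exact disjoint_left.1 (K_M (n + 1)) j (Mb_Mm n r2)
  · obtain rfl | rfl | k := acc_cases h he hf ef hx
    · exact ⟨⟨⟨ef, e1⟩, Mm_Mb n e2⟩, e4⟩
    · exact ⟨⟨⟨(h.sub e he f hf ef).2, Nb_N n r1⟩, r2⟩, One_succ n r4⟩
    · exact ⟨⟨k.1.1.1, (Nb_or_Mb n x).resolve_left k.1.2⟩, k.2⟩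

theorem access (hE : E.Finite) (hs : E ⊆ Vo n)
    (h0 : ∀ f, IsFace f → (E₀ ∩ Bx n f).Subsingleton) :
    ∃ acc r, Acs n E acc r ∧
      ∀ e ∈ E, ∀ f, IsFace f → e ∈ Bx n f → (r e ∈ Bx (n + 1) (mid f) ↔ e ∈ E₀) := by
  have k (f : V) : ∃ (acc : X → Set X) (r : X → X), IsFace f → Acs n (E ∩ Bx n f) acc r ∧
      ∀ e ∈ E ∩ Bx n f, r e ∈ Bx (n + 1) (mid f) ↔ e ∈ E₀ := by
    by_cases hf : IsFace f
    · obtain ⟨a, q, h⟩ := access1 (E := E ∩ Bx n f) (E₀ := E₀) (n := n) hf (hE.inter_of_left _)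
        ((Og_Vo hf).symm ▸ inter_subset_inter_left _ hs)
        ((h0 f hf).anti (inter_subset_inter_right _ inter_subset_right))
      exact ⟨a, q, fun _ => h⟩
    · exact ⟨fun _ => ∅, id, fun a => (hf a).elim⟩
  choose a q k using k
  have j (e : X) : ∃ f, e ∈ E → IsFace f ∧ e ∈ Bx n f := by
    by_cases he : e ∈ E
    · exact (exists_face (hs he).1.2 (hs he).2).imp fun _ b _ => b
    · exact ⟨0, fun b => (he b).elim⟩
  choose F j using j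
  have u (e) (he : e ∈ E) := (k (F e) (j e he).1).1
  have v (e) (he : e ∈ E) : a (F e) e ⊆ Ph n (F e) ∩ Mb n ∩ One n :=
    ((u e he).vo (inter_subset_left.trans hs) ⟨he, (j e he).2⟩).2.2.2.2 _ (j e he).1 (j e he).2
  refine ⟨fun e => a (F e) e, fun e => q (F e) e, ⟨fun e he => (u e he).arc e ⟨he, (j e he).2⟩,
    fun e he => (u e he).sub e ⟨he, (j e he).2⟩, fun e he => (u e he).fl e ⟨he, (j e he).2⟩,
    fun e he e' he' ne => ?_⟩, fun e he f hf ef => ?_⟩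
  · refine disjoint_left.2 fun x hx hx' => ?_
    have w : F e' = F e :=
      face_uniq (j e' he').1 (j e he).1 (v e' he' hx').1.1.1 (v e he hx).1.1.1 (v e he hx).2
    exact disjoint_left.1 ((u e he).dj ⟨he, (j e he).2⟩ ⟨he', w ▸ (j e' he').2⟩ ne) hx (w ▸ hx')
  · rw [face_uniq hf (j e he).1 ef (j e he).2 (hs he).2]
    exact (k (F e) (j e he).1).2 e ⟨he, (j e he).2⟩

theorem Acs.inj (h : Acs n E acc r) : InjOn r E := fun e he e' he' k => by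
  by_contra ne
  exact disjoint_left.1 (h.dj he he' ne) (h.arc e he).right (k ▸ (h.arc e' he').right)

theorem Acs.face (h : Acs n E acc r) (hs : E ⊆ Vo n) (he : e ∈ E) (hf : IsFace f) :
    r e ∈ Bx n f ↔ e ∈ Bx n f := by
  refine ⟨fun k => ?_, fun k => (h.sub e he f hf k).2⟩
  obtain ⟨g, hg, eg⟩ := exists_face (hs he).1.2 (hs he).2
  rwa [face_uniq hf hg k (h.sub e he g hg eg).2 (One_succ n (h.fl e he).2)]

theorem Acs.in_cube (h : Acs n E acc r) (hs : E ⊆ Vo n) (he : e ∈ E) (p : V) :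
    r e ∈ cube n p ↔ e ∈ cube n p := by
  obtain ⟨g, hg, eg⟩ := exists_face (hs he).1.2 (hs he).2
  have rg := (h.sub e he g hg eg).2
  exact ⟨fun k => (adj_of_mem hg rg k (One_succ n (h.fl e he).2)).sub n eg,
    fun k => (adj_of_mem hg eg k (hs he).2).sub n rg⟩

theorem acc_int {g : V} : IPh n g ⊆ Ph n g \ (Ph n g \ IPh n g) :=
  fun _ k => ⟨k.1.1, fun j => j.2 k⟩

theorem lo_down (h : Acs n E acc r) (hs : E ⊆ Vo n) (hr : r '' E ⊆ E') (hl : Lo (n + 1) E' l) :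
    Lo n E (fun e => acc e ∪ l (r e)) ∧
      (Left n (⋃ e ∈ E', l e) → Left n (⋃ e ∈ E, acc e ∪ l (r e))) := by
  have m (e) (he : e ∈ E) : r e ∈ E' := hr (mem_image_of_mem r he)
  have k (e) (he : e ∈ E) : ∃ g, IsFace g ∧ r e ∈ Bx (n + 1) g :=
    exists_face (h.vo hs he).1.1.1.2 (h.vo hs he).1.1.2
  have u (e) (he : e ∈ E) : l (r e) ⊆ N (n + 1) ∧ r e ∈ l (r e) := by
    obtain ⟨g, hg, rg⟩ := k e he
    have := (hl.pop _ (m e he) g hg rg).facts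
    exact ⟨fun x hx => (this.1 hx).2, (this.2.1.ge rfl).1⟩
  have v (e) (he : e ∈ E) (e') (he' : e' ∈ E) (ne : e ≠ e') : Disjoint (l (r e)) (l (r e')) :=
    hl.dj (m e he) (m e' he') fun j => ne (h.inj he he' j)
  have w (e) (he : e ∈ E) (e') (he' : e' ∈ E) (ne : e ≠ e') : Disjoint (acc e) (l (r e')) :=
    disjoint_left.2 fun x hx j => by
      obtain rfl : x = r e := (h.vo hs he).2.1.le ⟨hx, (u e' he').1 j⟩
      exact disjoint_left.1 (v e he e' he' ne) (u e he).2 j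
  refine ⟨⟨fun e he f hf ef => ?_, fun e he e' he' ne => ?_⟩, fun hL f hf hn => ?_⟩
  · obtain ⟨g, hg, rg⟩ := k e he
    obtain ⟨a1, a2, a3, a4, a5⟩ := h.vo hs he
    have b : e ∈ Ph n f \ IPh n f := ⟨⟨ef, (hs he).1.1.1⟩, fun j => j.1.2 (hs he).1.1.2⟩
    refine (hl.pop _ (m e he) g hg rg).extend
      ((Ph_IPh (face_face hf hg rg a1.1.2 (h.sub e he f hf ef).2)).trans acc_int) b (h.arc e he)
      (fun x hx => (a5 f hf ef hx).1.1) ?_ ?_ a4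
    · refine subset_antisymm (fun x hx => a3.le ⟨hx.1, ?_⟩)
        (singleton_subset_iff.2 ⟨(h.arc e he).left, b⟩)
      by_contra j
      exact hx.2.2 ⟨⟨hx.2.1, j⟩, (a5 f hf ef hx.1).2⟩
    · exact subset_antisymm (fun x hx => a2.le ⟨hx.1, hx.2.2⟩)
        (singleton_subset_iff.2 ⟨(h.arc e he).right, rg, a1.1.1.1.1⟩)
  · exact disjoint_union_left.2 ⟨disjoint_union_right.2 ⟨h.dj he he' ne, w e he e' he' ne⟩,
      disjoint_union_right.2 ⟨(w e' he' e he ne.symm).symm, v e he e' he' ne⟩⟩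
  · obtain ⟨x, hx, nx⟩ := hL f hf hn
    refine ⟨x, hx, fun j => ?_⟩
    obtain ⟨e, he, j | j⟩ := mem_iUnion₂.1 j
    · exact disjoint_left.1 (h.vo hs he).2.2.2.1 j hx.1
    · exact nx (mem_iUnion₂.2 ⟨_, m e he, j⟩)

/-- the last lollipops swallow the whole middle subfoot -/
theorem stick (hf : IsFace f) (he : e ∈ Og n f) :
    ∃ Λ, Pop K (Ph n f) (Ph n f \ IPh n f) e Λ ∧ K ∩ Bx n f ⊆ Λ := by
  have hn : (Ph n f).Nonempty := ⟨e, he.1.1⟩
  have d := disc_Ps hf hn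
  have s : Ps n f ⊆ Ph n f \ (Ph n f \ IPh n f) := (Ps_sub hf).trans acc_int
  have b : e ∈ Ph n f \ IPh n f := ⟨he.1.1, fun j => j.1.2 he.1.2⟩
  obtain ⟨x, hx, ne⟩ := d.exists_rim (finite_singleton e)
  obtain ⟨a, a1, a2⟩ := hole_arc (t := ({()} : Set Unit)) (W := fun _ => Ps n f)
    (w := fun _ => PsC n f) (disc_Ph hf hn) ⟨finite_singleton _, fun _ _ => d, fun _ _ => s,
      pairwiseDisjoint_singleton _ _⟩ (p := e) (q := x) (.inl b) (.inr (by simpa using hx))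
    (Ne.symm ne)
  have c (y) (hy : y ∈ a) : y = e ∨ y = x ∨ y ∈ (Ph n f \ (Ph n f \ IPh n f)) \ Ps n f := by
    by_cases k : y ∈ ({e, x} : Set X)
    · exact k.imp_right .inl
    · exact .inr (.inr ⟨(a2 ⟨hy, k⟩).1, fun j => (a2 ⟨hy, k⟩).2 (by simpa using j)⟩)
  have i : a ∩ Ps n f = {x} := by
    refine subset_antisymm (fun y hy => ?_) (singleton_subset_iff.2 ⟨a1.right, hx.1⟩)
    obtain rfl | k | k := c y hy.1
    exacts [((s hy.2).2 b).elim, k, (k.2 hy.2).elim]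
  have sub : a ⊆ Ph n f := fun y hy => by
    obtain rfl | rfl | k := c y hy
    exacts [b.1, (s hx.1).1, k.1.1]
  refine ⟨_, ⟨b, a, Ps n f, PsC n f, x, ⟨a1, d, i, hx⟩,
    ⟨d, disjoint_left.2 fun y hy j => disjoint_left.1 (K_M (n + 1)) j hy.2,
      (K_Ph hf hn).imp fun y hy => ⟨hy.1, (K_Ps ⟨hy.1, hy.2.1⟩).1⟩⟩, s,
    disjoint_left.2 fun y hy j => ?_, sub, ?_, rfl⟩, fun y hy => .inl (K_Ps hy).1⟩
  · have k := K_Ps (n := n) (f := f) ⟨j, (sub hy).1⟩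
    obtain rfl : y = x := i.le ⟨hy, k.1⟩
    exact k.2 hx
  · refine subset_antisymm (fun y hy => ?_) (singleton_subset_iff.2 ⟨a1.left, b⟩)
    obtain k | rfl | k := c y hy.1
    exacts [k, ((s hx.1).2 hy.2).elim, (k.1.2 hy.2).elim]

end Pool.Agent.Lib.MP_b7d179_gt.M
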