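import Pool.Agent.Lib.MP_b7d179_gt.M.Defs
import Pool.Agent.Lib.MP_b7d179_gt.Stmt

/-! Arithmetic of the retained cubes of the Menger sponge. -/

namespace Pool.Agent.Lib.MP_b7d179_gt.M

open Set

variable {n : ℕ} {p q f g : V} {x : X}

theorem o_cases (n : ℕ) (p : ℤ) : o n p = 1 ∨ o n p = -1 := by
  induction n generalizing p with
  | zero => rw [o]; split_ifs <;> simp
  | succ n ih =>
    rw [o]
    split_ifs
    · exact Or.inl rfl
    · exact Or.inr rfl
    · exact ih _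

theorem o_mul3 (n : ℕ) (p : ℤ) : o (n + 1) (3 * p) = o n p := by
  rw [o, if_neg (by omega), if_neg (by omega), Int.mul_ediv_cancel_left _ (by norm_num)]

theorem arith_oR (n : ℕ) (p : ℤ) : (o n p = 1 ∧ (o n p : ℝ) = 1) ∨ (o n p = -1 ∧ (o n p : ℝ) = -1) := by
  rcases o_cases n p with h | h <;> rw [h] <;> simp

/-- the cell `t` is `s` or the neighbour of `s` on the good side of their common end -/
def ArithGd (n : ℕ) (s t : ℤ) : Prop := t = s ∨ (o n s = 1 ∧ t = s - 1) ∨ (o n (s + 1) = -1 ∧ t = s + 1)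

theorem arith_gd {s t : ℤ} (h : ArithGd (n + 1) s t) : ArithGd n (s / 3) (t / 3) ∧ (t % 3 = 1 → s % 3 = 1) := by
  rcases h with h | ⟨h, e⟩ | ⟨h, e⟩
  · subst h; exact ⟨Or.inl rfl, id⟩
  · rw [o] at h
    split_ifs at h with h1 h2
    · exact ⟨Or.inl (by omega), fun _ => h1⟩
    · exact ⟨Or.inr (Or.inl ⟨h, by omega⟩), by omega⟩
  · rw [o] at h
    split_ifs at h with h1 h2
    · exact ⟨Or.inl (by omega), by omega⟩
    · refine ⟨Or.inr (Or.inr ⟨?_, by omega⟩), by omega⟩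
      rw [← h]; congr 1; omega

theorem arith_ret {a b : V} (h : Ret n a) (hb : ∀ i, ArithGd n (a i) (b i)) : Ret n b := by
  induction n generalizing a b with
  | zero =>
    obtain rfl : a = 0 := h
    funext i
    rcases hb i with e | ⟨e, -⟩ | ⟨e, -⟩
    · exact e
    · simp [o] at e
    · simp [o] at e
  | succ n ih =>
    exact ⟨ih h.1 fun i => (arith_gd (hb i)).1,
      fun i j hi hj => h.2 i j ((arith_gd (hb i)).2 hi) ((arith_gd (hb j)).2 hj)⟩

theorem arith_sum (c : ℕ → Prop) [DecidablePred c] (k : ℕ) :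
    (∑ S ∈ Finset.range k, if c S then 2 ^ S else 0) < 2 ^ k ∧
      ∀ S < k, ((∑ S ∈ Finset.range k, if c S then 2 ^ S else 0).testBit S = true ↔ c S) := by
  induction k with
  | zero => simp
  | succ k ih =>
    obtain ⟨h1, h2⟩ := ih
    rw [Finset.sum_range_succ]
    generalize (∑ S ∈ Finset.range k, if c S then 2 ^ S else 0) = T at h1 h2 ⊢
    split_ifs with hc
    · refine ⟨by omega, fun S hS => ?_⟩
      rw [add_comm]
      rcases Nat.lt_succ_iff_lt_or_eq.1 hS with h | rfl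
      · rw [Nat.testBit_two_pow_add_gt h]; exact h2 S h
      · rw [Nat.testBit_two_pow_add_eq, Nat.testBit_lt_two_pow h1]; simpa using hc
    · refine ⟨by omega, fun S hS => ?_⟩
      rw [add_zero]
      rcases Nat.lt_succ_iff_lt_or_eq.1 hS with h | rfl
      · exact h2 S h
      · rw [Nat.testBit_lt_two_pow h1]; simpa using hc

open Classical in
theorem ty_bit (n : ℕ) (p : V) {S : ℕ} (hS : S < 8) :
    (ty n p).testBit S = true ↔ Ret n (oct n p S) :=
  (arith_sum (fun S => Ret n (oct n p S)) 8).2 S hS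

theorem arith_be_le {s : ℤ} {t : ℝ} : be n s ≤ t ↔ (s : ℝ) + (o n s : ℝ) / 12 ≤ 3 ^ n * t := by
  rw [be, div_le_iff₀ (by positivity), mul_comm]

theorem arith_le_be {s : ℤ} {t : ℝ} : t ≤ be n s ↔ 3 ^ n * t ≤ (s : ℝ) + (o n s : ℝ) / 12 := by
  rw [be, le_div_iff₀ (by positivity), mul_comm]

theorem arith_in {s : ℤ} {t : ℝ} (h : be n s ≤ t ∧ t ≤ be n (s + 1)) :
    (s : ℝ) - 1 / 12 ≤ 3 ^ n * t ∧ 3 ^ n * t ≤ s + 1 + 1 / 12 := by
  obtain ⟨h1, h2⟩ := h
  rw [arith_be_le] at h1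
  rw [arith_le_be] at h2
  push_cast at h2
  rcases arith_oR n s with ⟨-, e⟩ | ⟨-, e⟩ <;> rcases arith_oR n (s + 1) with ⟨-, e'⟩ | ⟨-, e'⟩ <;>
    constructor <;> linarith

theorem arith_lt {s t : ℤ} (h : (s : ℝ) < t + 1) : s ≤ t := by
  have : s < t + 1 := by exact_mod_cast h
  omega

theorem arith_cube : x ∈ cube n p ↔ ∀ i, |2 * 3 ^ n * x i - 2 * (p i : ℝ)| ≤ 1 := by
  refine forall_congr' fun i => ?_
  rw [if_pos (show 2 * p i % 2 = 0 by omega)]
  push_cast
  rfl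

theorem arith_near {s r : ℤ} {y : ℝ} (h : (s : ℝ) - 1 / 12 ≤ y ∧ y ≤ s + 1 + 1 / 12)
    (h' : |2 * y - 2 * r| ≤ 1) : s = r ∨ s = r - 1 := by
  rw [abs_le] at h'
  have h1 : s ≤ r := arith_lt (by linarith [h.1, h'.2])
  have h2 : r ≤ s + 1 := arith_lt (by push_cast; linarith [h.2, h'.1])
  omega

theorem arith_be (n : ℕ) (s : ℤ) : 3 ^ n * be n s = (s : ℝ) + (o n s : ℝ) / 12 := by
  rw [be]; field_simp

theorem body_iff : (body n p).Nonempty ↔ ∃ a, Ret n a ∧ ∀ i, a i = p i ∨ a i = p i - 1 := by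
  constructor
  · rintro ⟨x, hx, a, ha, h⟩
    exact ⟨a, ha, fun i => arith_near (arith_in (h i)) (by rw [← mul_assoc]; exact arith_cube.1 hx i)⟩
  · rintro ⟨a, ha, h⟩
    refine ⟨fun i => be n (p i), arith_cube.2 fun i => ?_, a, ha, fun i => ?_⟩
    · rw [mul_assoc, arith_be, abs_le]
      rcases arith_oR n (p i) with ⟨-, e⟩ | ⟨-, e⟩ <;> constructor <;> linarith
    · rcases h i with e | e
      · rw [e]
        refine ⟨le_rfl, ?_⟩
        rw [arith_le_be, arith_be]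
        push_cast
        rcases arith_oR n (p i) with ⟨-, e⟩ | ⟨-, e⟩ <;>
          rcases arith_oR n (p i + 1) with ⟨-, e'⟩ | ⟨-, e'⟩ <;> linarith
      · rw [e, sub_add_cancel]
        refine ⟨?_, le_rfl⟩
        rw [arith_be_le, arith_be]
        push_cast
        rcases arith_oR n (p i) with ⟨-, e⟩ | ⟨-, e⟩ <;>
          rcases arith_oR n (p i - 1) with ⟨-, e'⟩ | ⟨-, e'⟩ <;> linarith

theorem arith_downs : ∀ T : Fin 256, T.1.testBit 0 = true →
    (∀ S S' : Fin 8, (∀ i : Fin 3, S'.1.testBit i = true → S.1.testBit i = true) →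
      T.1.testBit S = true → T.1.testBit S' = true) → T.1 ∈ downs := by decide +kernel

/-- the good cell at a lattice point -/
theorem arith_good {s r : ℤ} (h : s = r ∨ s = r - 1) : ArithGd n s (if o n r = 1 then r - 1 else r) := by
  split_ifs with e
  · rcases h with rfl | rfl
    · exact Or.inr (Or.inl ⟨e, rfl⟩)
    · exact Or.inl rfl
  · rcases h with rfl | rfl
    · exact Or.inl rfl
    · refine Or.inr (Or.inr ⟨?_, by ring⟩)
      rw [sub_add_cancel]
      exact (o_cases n r).resolve_left e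

open Classical in
theorem ty_mem (h : (body n p).Nonempty) : ty n p ∈ downs := by
  obtain ⟨a, ha, h⟩ := body_iff.1 h
  refine arith_downs ⟨ty n p, (arith_sum (fun S => Ret n (oct n p S)) 8).1⟩ ?_
    fun ⟨S, hS⟩ ⟨S', hS'⟩ hi => ?_
  · dsimp only
    rw [ty_bit n p (by norm_num)]
    refine arith_ret ha fun i => ?_
    have := arith_good (n := n) (h i)
    simpa [oct] using this
  · dsimp only at hi ⊢
    rw [ty_bit n p hS, ty_bit n p hS']
    refine fun h => arith_ret h fun i => ?_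
    by_cases b' : S'.testBit i = true
    · exact Or.inl (by simp only [oct, b', hi i b'])
    · have h1 : oct n p S i = p i ∨ oct n p S i = p i - 1 := by
        unfold oct; split_ifs <;> simp
      have := arith_good (n := n) h1
      simpa [oct, b'] using this

theorem arith_mid (n : ℕ) (t : ℝ) : Mid n t ↔ Stmt.Mid n t := by
  refine exists_congr fun a => ?_
  rw [div_lt_iff₀ (by positivity), lt_div_iff₀ (by positivity), mul_comm t]

theorem K_eq : K = Stmt.sponge := by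
  ext x
  simp only [K, Stmt.sponge, Stmt.carpet, mem_ofPred_eq, mem_Icc, ← arith_mid]
  constructor
  · rintro ⟨h1, h2⟩
    exact ⟨⟨h1 1, h1 2, fun n h => absurd (h2 n 1 2 h.1 h.2) (by decide)⟩,
      ⟨h1 0, h1 2, fun n h => absurd (h2 n 0 2 h.1 h.2) (by decide)⟩,
      ⟨h1 0, h1 1, fun n h => absurd (h2 n 0 1 h.1 h.2) (by decide)⟩⟩
  · rintro ⟨⟨a1, a2, a⟩, ⟨b0, -, b⟩, -, -, c⟩
    refine ⟨fun i => ?_, fun n i j hi hj => ?_⟩
    · fin_cases i
      exacts [b0, a1, a2]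
    · fin_cases i <;> fin_cases j
      exacts [rfl, (c n ⟨hi, hj⟩).elim, (b n ⟨hi, hj⟩).elim, (c n ⟨hj, hi⟩).elim, rfl,
        (a n ⟨hi, hj⟩).elim, (b n ⟨hj, hi⟩).elim, (a n ⟨hj, hi⟩).elim, rfl]

theorem arith_open (n : ℕ) (i : Fin 3) : IsOpen {x : X | Mid n (x i)} := by
  simp only [Mid, ofPred_exists]
  refine isOpen_iUnion fun a => IsOpen.and (isOpen_lt ?_ ?_) (isOpen_lt ?_ ?_) <;> fun_prop

theorem K_closed : IsClosed K := by
  refine IsClosed.inter (s₁ := {x : X | ∀ i, 0 ≤ x i ∧ x i ≤ 1}) ?_ ?_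
  · simp only [ofPred_forall]
    refine isClosed_iInter fun i => IsClosed.and (isClosed_le ?_ ?_) (isClosed_le ?_ ?_) <;> fun_prop
  · change IsClosed {x : X | ∀ n i j, Mid n (x i) → Mid n (x j) → i = j}
    simp only [ofPred_forall (p := fun (n : ℕ) (x : X) => ∀ i j, Mid n (x i) → Mid n (x j) → i = j),
      ofPred_forall (p := fun (i : Fin 3) (x : X) => ∀ j, Mid _ (x i) → Mid _ (x j) → i = j),
      ofPred_forall (p := fun (j : Fin 3) (x : X) => Mid _ (x _) → Mid _ (x j) → _ = j)]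
    exact isClosed_iInter fun n => isClosed_iInter fun i => isClosed_iInter fun j =>
      isClosed_imp (arith_open n i) (isClosed_imp (arith_open n j) isClosed_const)

/-- a point of the sponge lies in a closed retained cube -/
theorem arith_cl (hx : x ∈ K) (n : ℕ) :
    ∃ a, Ret n a ∧ ∀ i, (a i : ℝ) ≤ 3 ^ n * x i ∧ 3 ^ n * x i ≤ a i + 1 := by
  induction n with
  | zero => exact ⟨0, rfl, fun i => by simpa using hx.1 i⟩
  | succ n ih =>
    obtain ⟨a, ha, h⟩ := ih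
    have : ∀ i, ∃ s : ℤ, s / 3 = a i ∧ (s % 3 = 1 → Mid n (x i)) ∧
        (s : ℝ) ≤ 3 ^ (n + 1) * x i ∧ 3 ^ (n + 1) * x i ≤ s + 1 := fun i => by
      have e : (3 : ℝ) ^ (n + 1) * x i = 3 * (3 ^ n * x i) := by ring
      obtain ⟨h1, h2⟩ := h i
      rcases le_or_gt (3 ^ (n + 1) * x i) (3 * (a i : ℝ) + 1) with c | c
      · exact ⟨3 * a i, by omega, by omega, by push_cast; linarith, by push_cast; linarith⟩
      rcases lt_or_ge (3 ^ (n + 1) * x i) (3 * (a i : ℝ) + 2) with d | d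
      · exact ⟨3 * a i + 1, by omega, fun _ => ⟨a i, c, d⟩, by push_cast; linarith,
          by push_cast; linarith⟩
      · exact ⟨3 * a i + 2, by omega, by omega, by push_cast; linarith, by push_cast; linarith⟩
    choose s h1 h2 h3 using this
    refine ⟨s, ⟨?_, fun i j hi hj => hx.2 n i j (h2 i hi) (h2 j hj)⟩, h3⟩
    rwa [show (fun i => s i / 3) = a from funext h1]

theorem arith_pick {s : ℤ} {t : ℝ} (h : (s : ℝ) ≤ 3 ^ n * t ∧ 3 ^ n * t ≤ s + 1) :
    ∃ b, ArithGd n s b ∧ be n b ≤ t ∧ t ≤ be n (b + 1) := by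
  obtain ⟨h1, h2⟩ := h
  simp only [arith_be_le, arith_le_be]
  rcases lt_or_ge (3 ^ n * t) ((s : ℝ) + (o n s : ℝ) / 12) with c | c
  · rcases arith_oR n s with ⟨e, e'⟩ | ⟨e, e'⟩
    · refine ⟨s - 1, Or.inr (Or.inl ⟨e, rfl⟩), ?_, by rw [sub_add_cancel]; exact c.le⟩
      push_cast
      rcases arith_oR n (s - 1) with ⟨-, u⟩ | ⟨-, u⟩ <;> linarith
    · linarith
  rcases le_or_gt (3 ^ n * t) (((s + 1 : ℤ) : ℝ) + (o n (s + 1) : ℝ) / 12) with d | d
  · exact ⟨s, Or.inl rfl, c, d⟩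
  rcases arith_oR n (s + 1) with ⟨e, e'⟩ | ⟨e, e'⟩
  · push_cast at d; linarith
  · refine ⟨s + 1, Or.inr (Or.inr ⟨e, rfl⟩), d.le, ?_⟩
    push_cast
    rcases arith_oR n (s + 1 + 1) with ⟨-, u⟩ | ⟨-, u⟩ <;> linarith

theorem K_sub_N (n : ℕ) : K ⊆ N n := fun x hx => by
  obtain ⟨a, ha, h⟩ := arith_cl hx n
  choose b h1 h2 using fun i => arith_pick (h i)
  exact ⟨b, arith_ret ha h1, h2⟩

/-- the cells of a level cover the space -/
theorem arith_cover (n : ℕ) (x : X) : ∃ b : V, ∀ i, be n (b i) ≤ x i ∧ x i ≤ be n (b i + 1) := by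
  choose b _ h2 using fun i => arith_pick (n := n) (t := x i)
    ⟨Int.floor_le (3 ^ n * x i), (Int.lt_floor_add_one _).le⟩
  exact ⟨b, h2⟩

theorem arith_par {s b : ℤ} {t : ℝ} (h : be (n + 1) s ≤ t ∧ t ≤ be (n + 1) (s + 1))
    (hb : be n b ≤ t ∧ t ≤ be n (b + 1)) : ArithGd n (s / 3) b := by
  obtain ⟨h1, h2⟩ := arith_in h
  obtain ⟨h3, h4⟩ := arith_in hb
  obtain ⟨h5, h6⟩ := hb
  rw [arith_be_le] at h5
  rw [arith_le_be] at h6
  have e : (3 : ℝ) ^ (n + 1) * t = 3 * (3 ^ n * t) := by ring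
  have a1 : (3 * (s / 3 : ℤ) : ℝ) ≤ s := by exact_mod_cast (by omega : 3 * (s / 3) ≤ s)
  have a2 : (s : ℝ) ≤ 3 * (s / 3 : ℤ) + 2 := by exact_mod_cast (by omega : s ≤ 3 * (s / 3) + 2)
  generalize s / 3 = a at a1 a2 ⊢
  have b1 : b ≤ a + 1 := arith_lt (by push_cast; linarith)
  have b2 : a ≤ b + 1 := arith_lt (by push_cast; linarith)
  obtain c | c | c : b = a ∨ a = b + 1 ∨ b = a + 1 := by omega
  · exact Or.inl c
  · subst c
    rcases arith_oR n (b + 1) with ⟨u, -⟩ | ⟨-, u⟩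
    · exact Or.inr (Or.inl ⟨u, by ring⟩)
    · linarith
  · subst c
    rcases arith_oR n (a + 1) with ⟨-, u⟩ | ⟨u, -⟩
    · push_cast at h5; linarith
    · exact Or.inr (Or.inr ⟨u, rfl⟩)

theorem N_succ (n : ℕ) : N (n + 1) ⊆ N n \ Mm n := by
  rintro x ⟨a, ha, h⟩
  have : ∀ b : V, (∀ i, be n (b i) ≤ x i ∧ x i ≤ be n (b i + 1)) → Ret n b := fun b hb =>
    arith_ret ha.1 fun i => arith_par (h i) (hb i)
  obtain ⟨b, hb⟩ := arith_cover n x
  exact ⟨⟨b, this b hb, hb⟩, fun ⟨c, hc, h⟩ => hc (this c h)⟩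

theorem arith_half {s m : ℤ} {y : ℝ} (h : (s : ℝ) - 1 / 12 ≤ y ∧ y ≤ s + 1 + 1 / 12) (hm : m % 2 = 1)
    (e : 2 * y = m) : m = 2 * s + 1 := by
  have h1 : 2 * s ≤ m := arith_lt (by push_cast; linarith [h.1])
  have h2 : m ≤ 2 * s + 2 := arith_lt (by push_cast; linarith [h.2])
  omega

theorem N_One (n : ℕ) : N (n + 1) ⊆ One n := by
  rintro x ⟨a, ha, h⟩
  have : ∀ i, Hp n (x i) → a i % 3 = 1 := fun i ⟨m, hm, e⟩ => by
    have := arith_half (m := 3 * m) (arith_in (h i)) (by omega) (by push_cast; rw [← e]; ring)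
    omega
  exact fun i j hi hj => ha.2 i j (this i hi) (this j hj)

theorem K_M (n : ℕ) : Disjoint K (Mm n) :=
  disjoint_left.2 fun _ hx => (N_succ n (K_sub_N _ hx)).2

theorem K_One (n : ℕ) : K ⊆ One n := (K_sub_N _).trans (N_One n)

theorem arith_anc {a : V} (ha : Ret n a) (h : ∀ i, (a i : ℝ) ≤ 3 ^ n * x i ∧ 3 ^ n * x i ≤ a i + 1) :
    (∀ i, 0 ≤ x i ∧ x i ≤ 1) ∧ ∀ m < n, ∀ i j, Mid m (x i) → Mid m (x j) → i = j := by
  induction n generalizing a with
  | zero =>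
    obtain rfl : a = 0 := ha
    exact ⟨fun i => by simpa using h i, by simp⟩
  | succ n ih =>
    obtain ⟨h1, h2⟩ := ih ha.1 fun i => by
      have e : (3 : ℝ) ^ (n + 1) * x i = 3 * (3 ^ n * x i) := by ring
      have a1 : (3 * (a i / 3 : ℤ) : ℝ) ≤ a i := by exact_mod_cast (by omega : 3 * (a i / 3) ≤ a i)
      have a2 : (a i : ℝ) ≤ 3 * (a i / 3 : ℤ) + 2 := by
        exact_mod_cast (by omega : a i ≤ 3 * (a i / 3) + 2)
      constructor <;> linarith [(h i).1, (h i).2]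
    refine ⟨h1, fun m hm => ?_⟩
    rcases Nat.lt_succ_iff_lt_or_eq.1 hm with c | rfl
    · exact h2 m c
    have : ∀ i, Mid m (x i) → a i % 3 = 1 := fun i ⟨c, c1, c2⟩ => by
      have b1 : a i ≤ 3 * c + 1 := arith_lt (by push_cast; linarith [(h i).1])
      have b2 : 3 * c + 1 ≤ a i := arith_lt (by push_cast; linarith [(h i).2])
      omega
    exact fun i j hi hj => ha.2 i j (this i hi) (this j hj)

/-- the edges of a retained cube lie in the sponge -/
theorem arith_K {a : V} (ha : Ret n a) (h : ∀ i, (a i : ℝ) ≤ 3 ^ n * x i ∧ 3 ^ n * x i ≤ a i + 1)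
    (i : Fin 3) (hi : ∀ j, j ≠ i → ∃ z : ℤ, 3 ^ n * x j = z) : x ∈ K := by
  obtain ⟨h1, h2⟩ := arith_anc ha h
  refine ⟨h1, fun m => ?_⟩
  rcases lt_or_ge m n with c | c
  · exact h2 m c
  obtain ⟨d, rfl⟩ := Nat.exists_eq_add_of_le c
  have : ∀ j, Mid (n + d) (x j) → j = i := fun j ⟨c, c1, c2⟩ => by
    by_contra hj
    obtain ⟨z, hz⟩ := hi j hj
    have e : (3 : ℝ) ^ (n + d + 1) * x j = ((3 ^ (d + 1) * z : ℤ) : ℝ) := by
      push_cast; rw [← hz]; ring
    rw [e] at c1 c2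
    have b1 : 3 * c + 1 < 3 ^ (d + 1) * z := by exact_mod_cast c1
    have b2 : 3 ^ (d + 1) * z < 3 * c + 2 := by exact_mod_cast c2
    omega
  exact fun j k hj hk => (this j hj).trans (this k hk).symm

/-- an edge of a retained cube gives a foot -/
theorem ret_edge {a : V} {i : Fin 3} (h : Ret n a) (hf : ∀ j, j ≠ i → f j = 2 * a j ∨ f j = 2 * a j + 2)
    (hi : f i = 2 * a i + 1) : (K ∩ Ph n f).Nonempty := by
  have e : ∀ j, (3 : ℝ) ^ n * ((f j : ℝ) / (2 * 3 ^ n)) = f j / 2 := fun j => by field_simp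
  have hK : (fun j => (f j : ℝ) / (2 * 3 ^ n)) ∈ K := by
    refine arith_K h (fun j => ?_) i fun j hj => ?_
    · have : 2 * a j ≤ f j ∧ f j ≤ 2 * a j + 2 := by
        by_cases c : j = i
        · subst c; omega
        · have := hf j c; omega
      have b1 : 2 * (a j : ℝ) ≤ f j := by exact_mod_cast this.1
      have b2 : (f j : ℝ) ≤ 2 * a j + 2 := by exact_mod_cast this.2
      rw [e]
      constructor <;> linarith
    · rw [e]
      rcases hf j hj with c | c <;> rw [c]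
      · exact ⟨a j, by push_cast; ring⟩
      · exact ⟨a j + 1, by push_cast; ring⟩
  refine ⟨_, hK, fun j => ?_, K_sub_N n hK⟩
  rw [mul_assoc, e, mul_div_cancel₀ _ two_ne_zero, sub_self, abs_zero]
  split_ifs <;> norm_num

end Pool.Agent.Lib.MP_b7d179_gt.M
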