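import Pool.Agent.Lib.MP_b7d179_gt.M.Defs
import Pool.Agent.Lib.MP_b7d179_gt.Stmt
import Pool.Agent.Lib.MP_b7d179_gt.M.Arith1

/-! Feet of the dual faces of the Menger sponge. -/

namespace Pool.Agent.Lib.MP_b7d179_gt.M

open Set

variable {n : ℕ} {p q f g : V} {x : X}

/-- a nonempty foot comes from an edge of a retained cube -/
theorem arith_Ph {i : Fin 3} (hi : f i % 2 = 1) (hj : ∀ j, j ≠ i → f j % 2 = 0)
    (h : (Ph n f).Nonempty) : ∃ a, Ret n a ∧ f i = 2 * a i + 1 ∧
      ∀ j, j ≠ i → a j = f j / 2 ∨ a j = f j / 2 - 1 := by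
  obtain ⟨x, hx, a, ha, h⟩ := h
  refine ⟨a, ha, ?_, fun j c => ?_⟩
  · have := hx i
    rw [if_neg (by omega), abs_nonpos_iff, sub_eq_zero, mul_assoc] at this
    exact arith_half (arith_in (h i)) hi this
  · have := hx j
    rw [if_pos (hj j c), mul_assoc] at this
    refine arith_near (arith_in (h j)) ?_
    have e : (f j : ℝ) = 2 * (f j / 2 : ℤ) := by
      exact_mod_cast (by have := hj j c; omega : f j = 2 * (f j / 2))
    rwa [← e]

theorem K_Ph (hf : IsFace f) (h : (Ph n f).Nonempty) : (K ∩ Ph n f).Nonempty := by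
  obtain ⟨i, hi, hj⟩ := hf
  obtain ⟨a, ha, h1, h2⟩ := arith_Ph hi hj h
  exact ret_edge ha (fun j c => by have := hj j c; have := h2 j c; omega) h1

theorem K_core (h : (body n p).Nonempty) : ∃ x ∈ K ∩ cube n p, x ∉ AnyH n := by
  obtain ⟨a, ha, h⟩ := body_iff.1 h
  have e : ∀ j, (3 : ℝ) ^ n * ((p j : ℝ) / 3 ^ n) = p j := fun j => by field_simp
  refine ⟨fun j => (p j : ℝ) / 3 ^ n, ⟨arith_K ha (fun j => ?_) 0 fun j _ => ⟨p j, e j⟩,
    arith_cube.2 fun j => ?_⟩, ?_⟩
  · rw [e]
    rcases h j with c | c <;> rw [c] <;> push_cast <;> constructor <;> linarith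
  · rw [mul_assoc, e, sub_self, abs_zero]
    exact zero_le_one
  · rintro ⟨j, m, hm, c⟩
    rw [mul_assoc, e] at c
    have : 2 * p j = m := by exact_mod_cast c
    omega

theorem arith_kid {a b : V} {i : Fin 3} (ha : Ret n a) (h : ∀ j, b j / 3 = a j)
    (h' : ∀ j, j ≠ i → b j % 3 ≠ 1) : Ret (n + 1) b := by
  refine ⟨by rwa [show (fun j => b j / 3) = a from funext h], fun j k hj hk => ?_⟩
  rw [not_not.1 fun c => h' j c hj, not_not.1 fun c => h' k c hk]

theorem arith_Bx (h : ∀ j, (f j % 2 = 1 ∧ g j = 3 * f j) ∨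
    (f j % 2 = 0 ∧ g j % 2 = 0 ∧ 3 * f j - 2 ≤ g j ∧ g j ≤ 3 * f j + 2)) :
    Bx (n + 1) g ⊆ Bx n f := fun x hx j => by
  have h0 := hx j
  have e : 2 * (3 : ℝ) ^ (n + 1) * x j = 3 * (2 * 3 ^ n * x j) := by ring
  rw [e] at h0
  rcases h j with ⟨h1, h2⟩ | ⟨h1, h2, h3, h4⟩
  · rw [if_neg (by omega), abs_nonpos_iff, h2] at h0
    rw [if_neg (by omega), abs_nonpos_iff]
    push_cast at h0
    linarith
  · rw [if_pos h2, abs_le] at h0
    rw [if_pos h1, abs_le]
    have b1 : 3 * (f j : ℝ) - 2 ≤ g j := by exact_mod_cast h3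
    have b2 : (g j : ℝ) ≤ 3 * f j + 2 := by exact_mod_cast h4
    constructor <;> linarith [h0.1, h0.2]

/-- two different subfaces of a face carry points of the sponge -/
theorem K_Ph2 (hf : IsFace f) (h : (Ph n f).Nonempty) :
    (Ph (n + 1) (mid f)).Nonempty ∧ (Ph (n + 1) (land n f)).Nonempty ∧ mid f ≠ land n f ∧
      IsFace (mid f) ∧ IsFace (land n f) ∧ Bx (n + 1) (mid f) ⊆ Bx n f ∧
      Bx (n + 1) (land n f) ⊆ Bx n f := by
  obtain ⟨i, hi, hj⟩ := hf
  obtain ⟨a, ha, h1, h2⟩ := arith_Ph hi hj h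
  have li : land n f i = 3 * f i := if_pos hi
  have lj : ∀ j, j ≠ i → land n f j = 3 * f j - 2 * o n (f j / 2) := fun j c =>
    if_neg (by have := hj j c; omega)
  refine ⟨?_, ?_, fun e => ?_, ⟨i, by unfold mid; omega, fun j c => ?_⟩,
    ⟨i, by omega, fun j c => ?_⟩, arith_Bx fun j => ?_, arith_Bx fun j => ?_⟩
  · refine (ret_edge (i := i) (a := fun j => if j = i then 3 * a j + 1 else
      if a j = f j / 2 then 3 * a j else 3 * a j + 2) (arith_kid (i := i) ha (fun j => ?_)
        fun j c => ?_) (fun j c => ?_) ?_).mono inter_subset_right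
    · split_ifs <;> omega
    · rw [if_neg c]; split_ifs <;> omega
    · have := hj j c
      have := h2 j c
      unfold mid
      rw [if_neg c]; split_ifs <;> omega
    · unfold mid
      rw [if_pos rfl]; omega
  · have hb : Ret n fun j => if j = i then a j else
        if o n (f j / 2) = 1 then f j / 2 - 1 else f j / 2 := arith_ret ha fun j => by
      by_cases c : j = i
      · rw [if_pos c]; exact Or.inl rfl
      · rw [if_neg c]; exact arith_good (h2 j c)
    refine (ret_edge (i := i) (a := fun j => if j = i then 3 * a j + 1 else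
      if o n (f j / 2) = 1 then 3 * (f j / 2) - 1 else 3 * (f j / 2)) (arith_kid (i := i) hb
        (fun j => ?_) fun j c => ?_) (fun j c => ?_) ?_).mono inter_subset_right
    · split_ifs <;> omega
    · rw [if_neg c]; split_ifs <;> omega
    · have := hj j c
      have := o_cases n (f j / 2)
      rw [lj j c, if_neg c]; split_ifs <;> omega
    · rw [li, if_pos rfl]; omega
  · obtain ⟨j, c⟩ := exists_ne i
    have := congrFun e j
    have := o_cases n (f j / 2)
    have := lj j c
    unfold mid at *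
    omega
  · have := hj j c
    unfold mid
    omega
  · have := hj j c
    have := lj j c
    omega
  · unfold mid
    omega
  · by_cases c : j = i
    · subst c; exact Or.inl ⟨hi, li⟩
    · have := hj j c
      have := lj j c
      have := o_cases n (f j / 2)
      omega

theorem arith_upd {a : V} {i : Fin 3} {s : ℤ} (ha : Ret (n + 1) a) (h : s / 3 = a i / 3)
    (h' : s % 3 ≠ 1) (hq : ∀ j, a j = q j ∨ a j = q j - 1) :
    (K ∩ Ph (n + 1) fun j => if j = i then 2 * s + 1 else 2 * q j).Nonempty := by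
  refine ret_edge (i := i) (a := fun j => if j = i then s else a j) ⟨?_, fun j k hj hk => ?_⟩
    (fun j c => ?_) (by simp)
  · convert ha.1 using 2 with j
    dsimp only
    split_ifs with c
    · rw [c, h]
    · rfl
  · dsimp only at hj hk
    refine ha.2 j k ?_ ?_
    · split_ifs at hj
      · exact absurd hj h'
      · exact hj
    · split_ifs at hk
      · exact absurd hk h'
      · exact hk
  · have := hq j
    rw [if_neg c, if_neg c]
    omega

/-- two nonempty children on the two sides of a plane: a foot crosses the plane between them -/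
theorem kid_cross {q' : V} {i : Fin 3} {s : ℤ} (h : Kid p q) (h' : Kid p q')
    (b : (body (n + 1) q).Nonempty) (b' : (body (n + 1) q').Nonempty) (l : q i ≤ s) (u : s < q' i) :
    ∃ f : V, f i = 2 * s + 1 ∧ (∀ j, j ≠ i → f j = 2 * q j ∨ f j = 2 * q' j) ∧
      (K ∩ Ph (n + 1) f).Nonempty := by
  obtain ⟨a, ha, e⟩ := body_iff.1 b
  obtain ⟨a', ha', e'⟩ := body_iff.1 b'
  have h1 := abs_le.1 (h i)
  have h2 := abs_le.1 (h' i)
  have e1 := e i
  have e2 := e' i
  by_cases c : s = 3 * p i
  · exact ⟨_, if_pos rfl, fun j c => Or.inr (if_neg c), arith_upd ha' (by omega) (by omega) e'⟩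
  · exact ⟨_, if_pos rfl, fun j c => Or.inl (if_neg c), arith_upd ha (by omega) (by omega) e⟩

end Pool.Agent.Lib.MP_b7d179_gt.M
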