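import Pool.Agent.Lib.MP_b7d179_gt.M.Win
import Pool.Agent.Lib.MP_b7d179_gt.U.Defs

/-! Boxes are balls, discs or arcs; the atoms of a window are correct. -/

namespace Pool.Agent.Lib.MP_b7d179_gt.M

open Set C

theorem Box_frontier {ι : Type} [Fintype ι] (l u : ι → ℝ) :
    frontier (Icc l u) = {x | x ∈ Icc l u ∧ ∃ i, x i = l i ∨ x i = u i} := by
  rw [isClosed_Icc.frontier_eq, ← pi_univ_Icc, interior_pi_set finite_univ]
  ext x
  simp only [interior_Icc, mem_sdiff, mem_pi, mem_univ, true_imp_iff, mem_ofPred_eq, not_forall,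
    mem_Icc, mem_Ioo]
  refine and_congr_right fun h => exists_congr fun i => ⟨fun k => ?_, fun k k' => ?_⟩
  · by_contra c
    rw [not_or] at c
    exact k ⟨lt_of_le_of_ne (h i).1 (Ne.symm c.1), lt_of_le_of_ne (h i).2 c.2⟩
  · rcases k with k | k
    · exact k'.1.ne' k
    · exact k'.2.ne k

theorem Box_homeo (E : Type) [NormedAddCommGroup E] [NormedSpace ℝ E] [FiniteDimensional ℝ E]
    {ι : Type} [Fintype ι] (hd : Module.finrank ℝ E = Fintype.card ι) {l u : ι → ℝ}
    (h : ∀ i, l i < u i) : ∃ f : E ≃ₜ (ι → ℝ), f '' Metric.closedBall 0 1 = Icc l u ∧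
      f '' Metric.sphere 0 1 = {x | x ∈ Icc l u ∧ ∃ i, x i = l i ∨ x i = u i} := by
  let L : E ≃L[ℝ] (ι → ℝ) := ContinuousLinearEquiv.ofFinrankEq (by simpa using hd)
  have hc : Convex ℝ (L.symm '' Icc l u) :=
    (convex_Icc l u).is_linear_image L.symm.toLinearEquiv.toLinearMap.isLinear
  have hk : IsCompact (L.symm '' Icc l u) := isCompact_Icc.image L.symm.continuous
  have hi : (interior (L.symm '' Icc l u)).Nonempty := by
    have e := L.symm.toHomeomorph.image_interior (Icc l u)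
    have e' : interior (L.symm '' Icc l u) = L.symm '' interior (Icc l u) := e.symm
    rw [e', ← pi_univ_Icc, interior_pi_set finite_univ]
    refine Nonempty.image _ (univ_pi_nonempty_iff.2 fun i => ?_)
    rw [interior_Icc]
    exact nonempty_Ioo.2 (h i)
  obtain ⟨g, -, g1, g2⟩ :=
    exists_homeomorph_image_interior_closure_frontier_eq_unitBall hc hi hk.isBounded
  have key : ∀ s : Set (ι → ℝ), (g.symm.trans L.toHomeomorph) '' (g '' (L.symm '' s)) = s := by
    intro s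
    simp [image_image]
  refine ⟨g.symm.trans L.toHomeomorph, ?_, ?_⟩
  · rw [← g1, hk.isClosed.closure_eq, key]
  · have e := L.symm.toHomeomorph.image_frontier (Icc l u)
    have e' : frontier (L.symm '' Icc l u) = L.symm '' frontier (Icc l u) := e.symm
    rw [← g2, e', key, Box_frontier]

theorem ball_Icc {l u : X} (h : ∀ i, l i < u i) :
    Ball (Icc l u) {x | x ∈ Icc l u ∧ ∃ i, x i = l i ∨ x i = u i} := by
  obtain ⟨f, h1, h2⟩ := Box_homeo (ℂ × ℝ) (by simp) h
  exact ⟨f, ⟨f.continuous.continuousOn, f.injective.injOn⟩, h1, h2⟩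

theorem disc_Icc {l u : X} {k : Fin 3} (hk : l k = u k) (h : ∀ i, i ≠ k → l i < u i) :
    Disc (Icc l u) {x | x ∈ Icc l u ∧ ∃ i, i ≠ k ∧ (x i = l i ∨ x i = u i)} := by
  obtain ⟨f, h1, h2⟩ := Box_homeo ℂ (ι := {i // i ≠ k}) (by simp)
    (l := fun i => l i) (u := fun i => u i) fun i => h i i.2
  let j : ({i // i ≠ k} → ℝ) → X := fun y i => if e : i = k then l k else y ⟨i, e⟩
  have j1 : ∀ y (i : {i // i ≠ k}), j y i = y i := fun y i => dif_neg i.2
  have j2 : ∀ y, j y k = l k := fun y => dif_pos rfl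
  have jc : Continuous j := continuous_pi fun i => by
    by_cases e : i = k
    · simp only [j, dif_pos e]
      exact continuous_const
    · simp only [j, dif_neg e]
      exact continuous_apply _
  have ji : Function.Injective j := fun y z e => funext fun i => by rw [← j1 y, ← j1 z, e]
  have jm : ∀ y, j y ∈ Icc l u ↔ y ∈ Icc (fun i : {i // i ≠ k} => l i) fun i => u i := by
    intro y
    refine ⟨fun m => ⟨fun i => j1 y i ▸ m.1 i, fun i => j1 y i ▸ m.2 i⟩, fun m => ⟨fun i => ?_,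
      fun i => ?_⟩⟩
    · by_cases e : i = k
      · rw [e, j2]
      · exact (j1 y ⟨i, e⟩).symm ▸ m.1 ⟨i, e⟩
    · by_cases e : i = k
      · rw [e, j2, hk]
      · exact (j1 y ⟨i, e⟩).symm ▸ m.2 ⟨i, e⟩
  have js : ∀ x ∈ Icc l u, j (fun i => x i) = x := fun x hx => funext fun i => by
    by_cases e : i = k
    · rw [e]
      exact (j2 fun i => x i).trans (le_antisymm (hx.1 k) (hk ▸ hx.2 k))
    · exact j1 (fun i => x i) ⟨i, e⟩
  refine ⟨j ∘ f, ⟨(jc.comp f.continuous).continuousOn, (ji.comp f.injective).injOn⟩, ?_, ?_⟩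
  · rw [image_comp, h1]
    ext x
    constructor
    · rintro ⟨y, hy, rfl⟩
      exact (jm y).2 hy
    · exact fun hx => ⟨fun i => x i, (jm _).1 ((js x hx).symm ▸ hx), js x hx⟩
  · rw [image_comp, h2]
    ext x
    constructor
    · rintro ⟨y, ⟨hy, i, hi⟩, rfl⟩
      exact ⟨(jm y).2 hy, i, i.2, (j1 y i).symm ▸ hi⟩
    · rintro ⟨hx, i, hi, e⟩
      exact ⟨fun i => x i, ⟨(jm _).1 ((js x hx).symm ▸ hx), ⟨i, hi⟩, e⟩, js x hx⟩

theorem arc_Icc {l u : X} {k : Fin 3} (hk : l k < u k) (h : ∀ i, i ≠ k → l i = u i) :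
    Arc (Icc l u) l u := by
  have hp : 0 < u k - l k := sub_pos.2 hk
  have hle : ∀ i, 0 ≤ u i - l i := fun i => by
    by_cases e : i = k
    · rw [e]
      exact hp.le
    · rw [h i e, sub_self]
  refine ⟨fun t i => l i + t * (u i - l i), ⟨by fun_prop, fun s _ t _ e => ?_⟩, ?_, by simp,
    by simp⟩
  · have := congrFun e k
    exact mul_right_cancel₀ hp.ne' (add_left_cancel this)
  · ext x
    constructor
    · rintro ⟨t, ht, rfl⟩
      refine ⟨fun i => ?_, fun i => ?_⟩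
      · have := mul_nonneg ht.1 (hle i)
        simp only
        linarith
      · have := mul_le_of_le_one_left (hle i) ht.2
        simp only
        linarith
    · intro hx
      refine ⟨(x k - l k) / (u k - l k), ⟨div_nonneg (sub_nonneg.2 (hx.1 k)) hp.le,
        (div_le_one hp).2 (sub_le_sub_right (hx.2 k) _)⟩, funext fun i => ?_⟩
      by_cases e : i = k
      · rw [e]
        simp only
        rw [div_mul_cancel₀ _ hp.ne']
        ring
      · have h1 := hx.1 i
        have h2 := hx.2 i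
        have h3 := h i e
        simp only
        rw [h3, sub_self, mul_zero, add_zero]
        linarith

theorem Box_o (n : ℕ) (p : ℤ) : (o n p : ℝ) * o n p = 1 := by
  induction n generalizing p with
  | zero =>
    unfold o
    split_ifs <;> norm_num
  | succ n ih =>
    unfold o
    split_ifs
    · norm_num
    · norm_num
    · exact ih _

/-- inverse of the window coordinates -/
noncomputable def BoxA (n : ℕ) (p : V) (s : X) : X := fun i =>
  ((o n (p i) : ℝ) * s i / 12 + 3 * p i) / 3 ^ (n + 1)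

/-- the breakpoints with a code -/
noncomputable def BoxT (P : ℕ) : X := fun i => tb (dg P i)

theorem Box_sc_A (n : ℕ) (p : V) (s : X) : sc n p (BoxA n p s) = s := funext fun i => by
  have h := Box_o n (p i)
  unfold sc BoxA
  rw [mul_div_cancel₀ _ (by positivity)]
  linear_combination s i * h

theorem Box_A_sc (n : ℕ) (p : V) (x : X) : BoxA n p (sc n p x) = x := funext fun i => by
  have h := Box_o n (p i)
  unfold sc BoxA
  rw [div_eq_iff (by positivity)]
  linear_combination (3 ^ (n + 1) * x i - 3 * p i) * h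

theorem Box_emb (n : ℕ) (p : V) : Emb (BoxA n p) univ :=
  ⟨by unfold BoxA; fun_prop, fun s _ t _ e => by rw [← Box_sc_A n p s, e, Box_sc_A]⟩

theorem Box_mem (n : ℕ) (p : V) (S : Set X) (x : X) : x ∈ BoxA n p '' S ↔ sc n p x ∈ S :=
  ⟨by rintro ⟨s, hs, rfl⟩; rwa [Box_sc_A], fun h => ⟨_, h, Box_A_sc n p x⟩⟩

theorem Box_bm (n : ℕ) (p : V) {P R : ℕ} (h : ∀ i, dg P i ≤ dg R i) (x : X) :
    x ∈ W n p (bm P R) ↔ sc n p x ∈ Icc (BoxT P) (BoxT R) := by
  rw [mem_bm n p h]
  exact ⟨fun k => ⟨fun i => (k i).1, fun i => (k i).2⟩, fun k i => ⟨k.1 i, k.2 i⟩⟩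

theorem Box_bm' (n : ℕ) (p : V) {P R : ℕ} (h : ∀ i, dg P i ≤ dg R i) :
    W n p (bm P R) = BoxA n p '' Icc (BoxT P) (BoxT R) :=
  Set.ext fun x => by rw [Box_bm n p h, Box_mem]

theorem Box_tb {a b : ℕ} (h : a < b) (hb : b < 8) : tb a < tb b := by
  interval_cases b <;> interval_cases a <;> norm_num [tb]

theorem Box_T_lt {P R : ℕ} {i : Fin 3} (h : dg P i < dg R i) : BoxT P i < BoxT R i :=
  Box_tb h (Nat.mod_lt _ (by norm_num))

theorem Box_T_le {P R : ℕ} {i : Fin 3} (h : dg P i ≤ dg R i) : BoxT P i ≤ BoxT R i := by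
  rcases h.eq_or_lt with e | e
  · unfold BoxT
    rw [e]
  · exact (Box_T_lt e).le

theorem Box_face (n : ℕ) (p : V) {P R P' R' : ℕ} (h : ∀ i, dg P i ≤ dg R i) (k : Fin 3)
    (a1 : dg P' k = dg R k) (a2 : ∀ i, i ≠ k → dg P' i = dg P i)
    (b1 : dg R' k = dg P k) (b2 : ∀ i, i ≠ k → dg R' i = dg R i) (x : X) :
    x ∈ W n p (Nat.lor (bm P R') (bm P' R)) ↔ sc n p x ∈ Icc (BoxT P) (BoxT R) ∧
      (sc n p x k = BoxT P k ∨ sc n p x k = BoxT R k) := by
  have h1 : ∀ i, dg P i ≤ dg R' i := fun i => by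
    by_cases e : i = k
    · rw [e, b1]
    · rw [b2 i e]
      exact h i
  have h2 : ∀ i, dg P' i ≤ dg R i := fun i => by
    by_cases e : i = k
    · rw [e, a1]
    · rw [a2 i e]
      exact h i
  have a1' : BoxT P' k = BoxT R k := congrArg tb a1
  have b1' : BoxT R' k = BoxT P k := congrArg tb b1
  have a2' : ∀ i, i ≠ k → BoxT P' i = BoxT P i := fun i e => congrArg tb (a2 i e)
  have b2' : ∀ i, i ≠ k → BoxT R' i = BoxT R i := fun i e => congrArg tb (b2 i e)
  have hk := Box_T_le (h k)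
  rw [(W_rl n p).or, mem_union, Box_bm n p h1, Box_bm n p h2]
  constructor
  · rintro (m | m)
    · refine ⟨⟨m.1, fun i => ?_⟩, Or.inl (le_antisymm (b1' ▸ m.2 k) (m.1 k))⟩
      by_cases e : i = k
      · rw [e]
        exact (b1' ▸ m.2 k).trans hk
      · exact b2' i e ▸ m.2 i
    · refine ⟨⟨fun i => ?_, m.2⟩, Or.inr (le_antisymm (m.2 k) (a1' ▸ m.1 k))⟩
      by_cases e : i = k
      · rw [e]
        exact hk.trans (a1' ▸ m.1 k)
      · exact a2' i e ▸ m.1 i
  · rintro ⟨m, e' | e'⟩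
    · refine Or.inl ⟨m.1, fun i => ?_⟩
      by_cases e : i = k
      · rw [e, b1', e']
      · exact (b2' i e).symm ▸ m.2 i
    · refine Or.inr ⟨fun i => ?_, m.2⟩
      by_cases e : i = k
      · rw [e, a1', e']
      · exact (a2' i e).symm ▸ m.1 i

theorem Box_dg0 (c : ℕ) : dg c 0 = c / 64 % 8 := rfl
theorem Box_dg1 (c : ℕ) : dg c 1 = c / 8 % 8 := rfl
theorem Box_dg2 (c : ℕ) : dg c 2 = c / 1 % 8 := rfl

theorem Box_rim1 (n : ℕ) (p : V) {P R : ℕ} (h : ∀ i, dg P i ≤ dg R i) (k : Fin 3) (x : X) :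
    x ∈ W n p (rim1 P R (8 ^ (2 - (k : ℕ)))) ↔ sc n p x ∈ Icc (BoxT P) (BoxT R) ∧
      dg P k < dg R k ∧ (sc n p x k = BoxT P k ∨ sc n p x k = BoxT R k) := by
  by_cases e : dg P k < dg R k
  · have e1 : rim1 P R (8 ^ (2 - (k : ℕ))) =
        Nat.lor (bm P (R - (dg R k - dg P k) * 8 ^ (2 - (k : ℕ))))
          (bm (P + (dg R k - dg P k) * 8 ^ (2 - (k : ℕ))) R) := if_pos e
    rw [e1, Box_face n p h k, and_iff_right e]
    · fin_cases k <;> simp [dg] at e ⊢ <;> omega
    · intro i hi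
      fin_cases k <;> fin_cases i <;> simp [dg] at e hi ⊢ <;> omega
    · fin_cases k <;> simp [dg] at e ⊢ <;> omega
    · intro i hi
      fin_cases k <;> fin_cases i <;> simp [dg] at e hi ⊢ <;> omega
  · have e1 : rim1 P R (8 ^ (2 - (k : ℕ))) = 0 := if_neg e
    rw [e1, (W_rl n p).zero]
    simp [e]

theorem Box_rim (n : ℕ) (p : V) {P R : ℕ} (h : ∀ i, dg P i ≤ dg R i) :
    W n p (rimB P R) = BoxA n p '' {s | s ∈ Icc (BoxT P) (BoxT R) ∧
      ∃ k, dg P k < dg R k ∧ (s k = BoxT P k ∨ s k = BoxT R k)} := by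
  ext x
  have h0 : x ∈ W n p (rim1 P R 64) ↔ _ := Box_rim1 n p h 0 x
  have h1 : x ∈ W n p (rim1 P R 8) ↔ _ := Box_rim1 n p h 1 x
  have h2 : x ∈ W n p (rim1 P R 1) ↔ _ := Box_rim1 n p h 2 x
  rw [Box_mem, rimB, (W_rl n p).or, (W_rl n p).or, mem_union, mem_union, h0, h1, h2,
    mem_ofPred_eq, Fin.exists_fin_succ, Fin.exists_fin_two, ← and_or_left, ← and_or_left]
  rfl

theorem Box_ok {P R d : ℕ} (h : okB P R d = true) : (∀ i, dg P i ≤ dg R i) ∧
    (if dg P 0 < dg R 0 then 1 else 0) + (if dg P 1 < dg R 1 then 1 else 0) +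
      (if dg P 2 < dg R 2 then 1 else 0) = d := by
  simp only [okB, Bool.and_eq_true, Nat.ble_eq, Nat.beq_eq] at h
  refine ⟨fun i => ?_, ?_⟩
  · fin_cases i
    · exact h.1.1.1
    · exact h.1.1.2
    · simpa [dg] using h.1.2
  · have h3 := h.2
    have := Box_dg0 P
    have := Box_dg0 R
    have := Box_dg1 P
    have := Box_dg1 R
    have := Box_dg2 P
    have := Box_dg2 R
    simp only [nd] at h3
    split_ifs at h3 ⊢ <;> omega

theorem Box_arc (n : ℕ) (p : V) {P R : ℕ} (h : okB P R 1 = true) :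
    Arc (W n p (bm P R)) (pnt n p P) (pnt n p R) := by
  obtain ⟨h1, h2⟩ := Box_ok h
  have a0 := h1 0
  have a1 := h1 1
  have a2 := h1 2
  obtain ⟨k, k1, k2⟩ : ∃ k, dg P k < dg R k ∧ ∀ i, i ≠ k → dg P i = dg R i := by
    simp only [Fin.exists_fin_succ, Fin.forall_fin_succ]
    simp
    split_ifs at h2 <;> omega
  rw [Box_bm' n p h1]
  exact (arc_Icc (Box_T_lt k1) fun i e => congrArg tb (k2 i e)).image (Box_emb n p) (subset_univ _)

theorem Box_disc (n : ℕ) (p : V) {P R : ℕ} (h : okB P R 2 = true) :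
    Disc (W n p (bm P R)) (W n p (rimB P R)) := by
  obtain ⟨h1, h2⟩ := Box_ok h
  have a0 := h1 0
  have a1 := h1 1
  have a2 := h1 2
  obtain ⟨k, k1, k2⟩ : ∃ k, dg P k = dg R k ∧ ∀ i, i ≠ k → dg P i < dg R i := by
    simp only [Fin.exists_fin_succ, Fin.forall_fin_succ]
    simp
    split_ifs at h2 <;> omega
  have k3 : ∀ i, dg P i < dg R i ↔ i ≠ k := fun i =>
    ⟨fun m e => m.ne (e ▸ k1), k2 i⟩
  rw [Box_bm' n p h1, Box_rim n p h1]
  simp only [k3]
  exact (disc_Icc (congrArg tb k1) fun i e => Box_T_lt (k2 i e)).image (Box_emb n p)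
    (subset_univ _)

theorem Box_ball (n : ℕ) (p : V) {P R : ℕ} (h : okB P R 3 = true) :
    Ball (W n p (bm P R)) (W n p (rimB P R)) := by
  obtain ⟨h1, h2⟩ := Box_ok h
  have k3 : ∀ i, dg P i < dg R i := by
    simp only [Fin.forall_fin_succ]
    simp
    split_ifs at h2 <;> omega
  rw [Box_bm' n p h1, Box_rim n p h1]
  simp only [k3, true_and]
  obtain ⟨f, f1, f2, f3⟩ := ball_Icc (l := BoxT P) (u := BoxT R) fun i => Box_T_lt (k3 i)
  exact ⟨BoxA n p ∘ f, (Box_emb n p).comp f1 (subset_univ _), by rw [image_comp, f2],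
    by rw [image_comp, f3]⟩

theorem atoms_ok (n : ℕ) (p : V) : atoms.Ok (W n p) Ball := by
  refine ⟨W_rl n p, fun t m u v e => ?_, fun t m r e => ?_, fun t m r e => ?_⟩
  · simp only [atoms] at e
    split_ifs at e with k
    simp only [Option.some.injEq, Prod.mk.injEq] at e
    obtain ⟨rfl, rfl, rfl⟩ := e
    have ha := Box_arc n p (Bool.and_eq_true_iff.1 k).1
    refine ⟨_, _, ?_, W_pt n p _, W_pt n p _⟩
    rcases le_total (t / 512) (t % 512) with c | c
    · rwa [min_eq_left c, max_eq_right c] at ha ⊢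
    · rw [min_eq_right c, max_eq_left c] at ha ⊢
      exact ha.symm
  · simp only [atoms] at e
    split_ifs at e with k
    simp only [Option.some.injEq, Prod.mk.injEq] at e
    obtain ⟨rfl, rfl⟩ := e
    exact Box_disc n p (Bool.and_eq_true_iff.1 k).1
  · simp only [atoms] at e
    split_ifs at e with k
    simp only [Option.some.injEq, Prod.mk.injEq] at e
    obtain ⟨rfl, rfl⟩ := e
    exact Box_ball n p (Bool.and_eq_true_iff.1 k).1

end Pool.Agent.Lib.MP_b7d179_gt.M
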