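import Pool.Agent.Lib.MP_b7d179_gt.M.BoxL2

/-! The box lemma and its uses. -/

namespace Pool.Agent.Lib.MP_b7d179_gt.M

open Set

section
variable {n k : ℕ} {l u p q w w' a : V} {i : Fin 3} {s : ℤ}

theorem emp_not (h : ¬ Emp n l u) : ∃ w : V, (∀ j, l j ≤ w j ∧ w j ≤ u j) ∧ (body n w).Nonempty := by
  by_contra c
  exact h fun w hw b => c ⟨w, hw, b⟩

theorem Good.pb (h : Good k l u) (hw : ∀ j, l j ≤ w j ∧ w j ≤ u j)
    (b : (body (2 * k) w).Nonempty) : PB k l u := (h.resolve_left fun e => e w hw b).2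

theorem cross_kid (h : Kid q w) (h' : Kid q w') (b : (body (n + 1) w).Nonempty)
    (b' : (body (n + 1) w').Nonempty) (hl : w i ≤ s) (hu : s < w' i) :
    ∃ f : V, IsFace f ∧ f i = 2 * s + 1 ∧ (∀ j, j ≠ i → f j = 2 * w j ∨ f j = 2 * w' j) ∧
      (Ph (n + 1) f).Nonempty := by
  obtain ⟨f, a, c, x, hx⟩ := kid_cross h h' b b' hl hu
  exact ⟨f, ⟨i, by omega, fun j e => by have := c j e; omega⟩, a, c, x, hx.2⟩

theorem cross_leg (h : Ret (n + 1) a) (hw : ∀ j, a j = w j ∨ a j = w j - 1)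
    (hs : s = 3 * (a i / 3) + 1) :
    ∃ f : V, IsFace f ∧ f i = 2 * s + 1 ∧ (∀ j, j ≠ i → f j = 2 * w j) ∧
      (Ph (n + 1) f).Nonempty := by
  let b : V := fun j => if j = i then s else
    if w j - 3 * (a j / 3) ≤ 1 then 3 * (a j / 3) else 3 * (a j / 3) + 2
  have hb : Ret (n + 1) b := by
    refine ⟨?_, ?_⟩
    · convert h.1 using 2 with j
      simp only [b]
      split_ifs with e
      · subst e; omega
      · omega
      · omega
    · have : ∀ j, b j % 3 = 1 → j = i := fun j t => by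
        by_contra e
        simp only [b, if_neg e] at t
        split_ifs at t <;> omega
      exact fun j j' t t' => (this j t).trans (this j' t').symm
  obtain ⟨x, hx⟩ := ret_edge (f := fun j => if j = i then 2 * s + 1 else 2 * w j) (i := i) hb
    (fun j e => by
      have := hw j
      simp only [b, if_neg e]
      split_ifs <;> omega) (by simp [b])
  exact ⟨_, ⟨i, by simp only [if_true]; omega, fun j e => by simp only [if_neg e]; omega⟩,
    by simp, fun j e => by simp [e], x, hx.2⟩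

theorem bxl_kid (w : V) : Kid (fun j => (w j + 1) / 3) w := fun j => abs_le.2 (by
  beta_reduce; omega)

theorem body_up (h : Kid q w) (b : (body (n + 1) w).Nonempty) : (body n q).Nonempty :=
  b.mono fun _ hx => ⟨h.sub n hx.1, (N_succ n hx.2).1⟩

theorem body_center (b : (body n p).Nonempty) : (body (n + 1) fun j => 3 * p j).Nonempty := by
  obtain ⟨a, h, ha⟩ := body_iff.1 b
  refine body_iff.2 ⟨fun j => if a j = p j then 3 * p j else 3 * p j - 1, ⟨?_, fun j _ t => ?_⟩,
    fun j => ?_⟩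
  · convert h using 2 with j
    have := ha j
    beta_reduce
    split_ifs <;> omega
  · beta_reduce at t
    split_ifs at t <;> omega
  · beta_reduce
    split_ifs <;> simp

theorem bxl_axis (le : ∀ j, l j ≤ u j) (ne : l ≠ u) : ∃ i, l i < u i := by
  by_contra c
  exact ne (funext fun j => le_antisymm (le j) (not_lt.1 fun t => c ⟨j, t⟩))

theorem good_kid (k : ℕ) (q : V) (hI : ∀ j, 3 * q j - 1 ≤ l j ∧ u j ≤ 3 * q j + 1)
    (le : ∀ j, l j ≤ u j) : Good (k + 1) l u := by
  refine good_ind _ (fun l u => ∀ j, 3 * q j - 1 ≤ l j ∧ u j ≤ 3 * q j + 1)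
    (fun l u hI le ne => Or.inr ?_) l u hI le
  obtain ⟨i, hi⟩ := bxl_axis le ne
  refine ⟨i, l i, le_rfl, hi, fun u1 l2 h => ?_⟩
  have t1 := fun j => (h.box_iff u1).2 (Or.inl fun j => ⟨h.le1 j, le_rfl⟩) j
  have t2 := fun j => (h.box_iff l2).2 (Or.inr fun j => ⟨le_rfl, h.le2 j⟩) j
  refine ⟨fun j => ⟨(hI j).1, (t1 j).2.trans (hI j).2⟩,
    fun j => ⟨(hI j).1.trans (t2 j).1, (hI j).2⟩, fun n1 n2 => ?_⟩
  obtain ⟨w, hw, b⟩ := emp_not n1
  obtain ⟨w', hw', b'⟩ := emp_not n2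
  have v := (h.box_iff w).2 (Or.inl hw)
  have v' := (h.box_iff w').2 (Or.inr hw')
  obtain ⟨f, hf, a, c, d⟩ := cross_kid (n := 2 * k + 1) (q := q) (i := i) (s := l i)
    (fun j => abs_le.2 (by have := v j; have := hI j; omega))
    (fun j => abs_le.2 (by have := v' j; have := hI j; omega)) b b'
    (h.c ▸ (hw i).2) (by have := (hw' i).1; have := h.d; omega)
  exact ⟨f, hf, a, fun j e => by have := c j e; have := v j; have := v' j; omega, d⟩

theorem good_blk (k : ℕ) (I : V → V → Prop)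
    (H : ∀ l u u1 l2 i s, I l u → Spl l u u1 l2 i s → s % 3 = 1 → I l u1 ∧ I l2 u ∧
      (¬ Emp (2 * (k + 1)) l u1 → ¬ Emp (2 * (k + 1)) l2 u → Cross (2 * (k + 1)) l u i s))
    (hI : I l u) (le : ∀ j, l j ≤ u j) : Good (k + 1) l u := by
  refine good_ind _ I (fun l u hI le _ => ?_) l u hI le
  by_cases c : ∃ i, (l i + 1) / 3 < (u i + 1) / 3
  · obtain ⟨i, hi⟩ := c
    exact Or.inr ⟨i, 3 * ((l i + 1) / 3) + 1, by omega, by omega,
      fun u1 l2 h => H _ _ _ _ _ _ hI h (by omega)⟩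
  · refine Or.inl (good_kid k (fun j => (l j + 1) / 3) (fun j => ?_) le)
    have := not_lt.1 fun t => c ⟨j, t⟩
    omega

theorem good_nine (k : ℕ) (p : V)
    (hI : ∀ j, 9 * p j - 4 ≤ l j ∧ u j ≤ 9 * p j + 4 ∧ l j % 3 ≠ 1 ∧ u j % 3 ≠ 2)
    (le : ∀ j, l j ≤ u j) : Good (k + 1) l u := by
  refine good_blk k
    (fun l u => ∀ j, 9 * p j - 4 ≤ l j ∧ u j ≤ 9 * p j + 4 ∧ l j % 3 ≠ 1 ∧ u j % 3 ≠ 2)
    (fun l u u1 l2 i s hI h hs => ?_) hI le
  have a := h.a; have b := h.b; have c := h.c; have d := h.d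
  refine ⟨fun j => ?_, fun j => ?_, fun n1 n2 => ?_⟩
  · have := hI j
    by_cases e : j = i
    · subst e; omega
    · rwa [h.e j e]
  · have := hI j
    by_cases e : j = i
    · subst e; omega
    · rwa [h.g j e]
  obtain ⟨w, hw, b⟩ := emp_not n1
  obtain ⟨w', hw', b'⟩ := emp_not n2
  have v := (h.box_iff w).2 (Or.inl hw)
  have v' := (h.box_iff w').2 (Or.inr hw')
  obtain ⟨f, hf, e1, e2, e3⟩ := cross_kid (n := 2 * k) (q := p) (i := i) (s := s / 3)
    (w := fun j => (w j + 1) / 3) (w' := fun j => (w' j + 1) / 3)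
    (fun j => abs_le.2 (by have := v j; have := hI j; beta_reduce; omega))
    (fun j => abs_le.2 (by have := v' j; have := hI j; beta_reduce; omega))
    (body_up (bxl_kid w) b) (body_up (bxl_kid w') b')
    (by have := hw i; omega) (by have := hw' i; omega)
  obtain ⟨m1, -, -, m2, -⟩ := K_Ph2 hf e3
  refine ⟨mid f, m2, by simp only [mid]; omega, fun j e => ?_, m1⟩
  have := e2 j e; have := v j; have := v' j; have := hI j
  simp only [mid]
  beta_reduce at *
  omega

theorem good_layer (k : ℕ) (p : V) {t : Fin 3} {r : ℤ} (hr : r = 1 ∨ r = -1)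
    (hI : l t = 9 * p t + 4 * r ∧ u t = 9 * p t + 4 * r ∧
      ∀ j, 9 * p j - 4 ≤ l j ∧ u j ≤ 9 * p j + 4)
    (le : ∀ j, l j ≤ u j) : Good (k + 1) l u := by
  refine good_blk k (fun l u => l t = 9 * p t + 4 * r ∧ u t = 9 * p t + 4 * r ∧
      ∀ j, 9 * p j - 4 ≤ l j ∧ u j ≤ 9 * p j + 4)
    (fun l u u1 l2 i s hI h hs => ?_) hI le
  obtain ⟨i1, i2, i3⟩ := hI
  have a := h.a; have b := h.b; have c := h.c; have d := h.d
  have ti : t ≠ i := by rintro rfl; omega
  have t1 := fun j => (h.box_iff u1).2 (Or.inl fun j => ⟨h.le1 j, le_rfl⟩) j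
  have t2 := fun j => (h.box_iff l2).2 (Or.inr fun j => ⟨le_rfl, h.le2 j⟩) j
  refine ⟨⟨i1, (h.e t ti).trans i2, fun j => ⟨(i3 j).1, (t1 j).2.trans (i3 j).2⟩⟩,
    ⟨(h.g t ti).trans i1, i2, fun j => ⟨(i3 j).1.trans (t2 j).1, (i3 j).2⟩⟩, fun n1 n2 => ?_⟩
  have key : ∀ w : V, (∀ j, l j ≤ w j ∧ w j ≤ u j) → (body (2 * (k + 1)) w).Nonempty →
      (s = 9 * p i - 2 ∧ w i ≤ s ∨ s = 9 * p i + 1 ∧ s < w i) → Cross (2 * (k + 1)) l u i s :=
    fun w hw b hs => by
      obtain ⟨a, ha, ea⟩ := body_iff.1 b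
      have ne : a i / 3 % 3 ≠ 1 := fun e => ti (ha.1.2 t i
        (by have := ea t; have := hw t; beta_reduce; omega) e)
      obtain ⟨f, hf, e1, e2, e3⟩ := cross_leg (n := 2 * k + 1) (i := i) (s := s) ha ea
        (by have := ea i; have := hw i; have := i3 i; omega)
      exact ⟨f, hf, e1, fun j e => by have := e2 j e; have := hw j; omega, e3⟩
  obtain ⟨w, hw, b⟩ := emp_not n1
  obtain ⟨w', hw', b'⟩ := emp_not n2
  have := i3 i
  rcases (by omega : s = 9 * p i - 2 ∨ s = 9 * p i + 1) with e | e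
  · exact key w ((h.box_iff w).2 (Or.inl hw)) b (Or.inl ⟨e, c ▸ (hw i).2⟩)
  · exact key w' ((h.box_iff w').2 (Or.inr hw')) b' (Or.inr ⟨e, by have := hw' i; omega⟩)

theorem cube_nine (n : ℕ) (p : V) :
    cube n p = Box (n + 2) (fun j => 9 * p j - 4) (fun j => 9 * p j + 4) ∧
      cubeS n p = BoxS (n + 2) (fun j => 9 * p j - 4) (fun j => 9 * p j + 4) := by
  rw [cube_Box, cubeS_Box, Box_succ, Box_succ, BoxS_succ, BoxS_succ]
  constructor <;> congr 1 <;> funext j <;> ring

theorem bxl_center (n : ℕ) (g : V) : (fun j => (g j : ℝ) / (2 * 3 ^ n)) ∈ Bx n g := fun j => by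
  rw [mul_div_cancel₀ _ (bxl_pos n).ne', sub_self, abs_zero]
  split_ifs <;> norm_num

theorem sub_nine {f g : V} (hg : IsFace g) (h : Adj p f) (s : Bx (n + 2) g ⊆ Bx n f) :
    Bd (fun j => 9 * p j - 4) (fun j => 9 * p j + 4) g := by
  have c := s (bxl_center _ g)
  have e : ∀ j, 2 * 3 ^ n * ((g j : ℝ) / (2 * 3 ^ (n + 2))) = g j / 9 := fun j => by
    field_simp; ring
  obtain ⟨i, hi, hj⟩ := h
  have a := bxl_odd c (i := i) (by omega)
  rw [e] at a
  have a' : g i = 9 * f i := by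
    have : (g i : ℝ) = 9 * f i := by linarith
    exact_mod_cast this
  refine ⟨i, by beta_reduce; omega, fun j ne => ?_⟩
  have b := bxl_near c j
  rw [e] at b
  have b1 : 9 * f j - 9 ≤ g j := by
    have : 9 * (f j : ℝ) - 9 ≤ g j := by linarith [b.1]
    exact_mod_cast this
  have b2 : g j ≤ 9 * f j + 9 := by
    have : (g j : ℝ) ≤ 9 * f j + 9 := by linarith [b.2]
    exact_mod_cast this
  have := bxl_even hg (i := i) (by omega) ne
  have := hj j ne
  beta_reduce
  omega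

theorem nine_sub {g : V} (h : Bd (fun j => 9 * p j - 4) (fun j => 9 * p j + 4) g) :
    ∃ f, Adj p f ∧ Bx (n + 2) g ⊆ Bx n f := by
  obtain ⟨i, hi, hj⟩ := h
  beta_reduce at hi hj
  refine ⟨fun j => if j = i then g j / 9 else 2 * p j, ⟨i, by simp only [if_true]; omega,
    fun j e => if_neg e⟩, fun x hx j => ?_⟩
  have e3 : (3 : ℝ) ^ (n + 2) = 9 * 3 ^ n := by ring
  by_cases e : j = i
  · subst e
    have a := bxl_odd hx (i := j) (by omega)
    have b : (g j : ℝ) = 9 * ((g j / 9 : ℤ) : ℝ) := by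
      exact_mod_cast (by omega : g j = 9 * (g j / 9))
    simp only [if_true]
    rw [if_neg (by omega), abs_nonpos_iff]
    rw [e3] at a
    linarith
  · have a := bxl_near hx j
    have b1 : 18 * (p j : ℝ) - 8 ≤ g j := by
      exact_mod_cast (by have := hj j e; omega : 18 * p j - 8 ≤ g j)
    have b2 : (g j : ℝ) ≤ 18 * p j + 8 := by
      exact_mod_cast (by have := hj j e; omega : g j ≤ 18 * p j + 8)
    simp only [if_neg e]
    rw [if_pos (by omega), abs_le]
    rw [e3] at a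
    push_cast
    exact ⟨by linarith [a.1], by linarith [a.2]⟩

end

theorem sg_s2 : ∀ v, Tree sg false (sg.B v) (sg.S v) (⋃ f ∈ sg.F v, sg.sub f) (sg.ch v) := by
  rintro ⟨⟨m, p⟩, h⟩
  have t := ((good_nine m p (l := fun j => 9 * p j - 4) (u := fun j => 9 * p j + 4)
    (fun j => by omega) (fun j => by omega)).pb
    (w := fun j => 3 * (3 * p j)) (fun j => by omega)
    (body_center (body_center h))).1
  convert t using 1
  · exact (cube_nine _ p).1
  · exact (cube_nine _ p).2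
  · ext g
    simp only [mem_iUnion]
    refine ⟨fun ⟨f, hf, hg⟩ => ?_, fun hg => ?_⟩
    · have e : g.1.1 = m + 1 := hg.1.trans (congrArg (· + 1) hf.1)
      refine ⟨e, sub_nine (n := 2 * m) g.2.1 hf.2 ?_⟩
      have := hg.2
      rwa [e, hf.1] at this
    · obtain ⟨f, hf, s⟩ := nine_sub (n := 2 * m) hg.2
      have ne := g.2.2
      rw [hg.1] at ne
      refine ⟨⟨(m, f), hf.face, ne.mono fun x hx =>
        ⟨s hx.1, (N_succ _ (N_succ _ hx.2).1).1⟩⟩, ⟨rfl, hf⟩, hg.1, ?_⟩
      rw [hg.1]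
      exact s
  · ext w
    refine and_congr Iff.rfl ⟨fun ⟨q, a, b⟩ j => ?_, fun a => ⟨_, fun j => ?_, bxl_kid _⟩⟩
    · have := abs_le.1 (show |q j - 3 * p j| ≤ 1 from a j); have := abs_le.1 (b j)
      beta_reduce
      omega
    · have := a j
      change |(w.1.2 j + 1) / 3 - 3 * p j| ≤ 1
      beta_reduce at this
      exact abs_le.2 (by omega)

theorem G_cube {n : ℕ} {p : V} (h : (body n p).Nonempty) : G sg (cube n p) (cubeS n p) := by
  obtain ⟨k, rfl | rfl⟩ := Nat.even_or_odd' n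
  · exact G.leaf (σ := sg) ⟨(k, p), h⟩
  · rw [cube_Box, cubeS_Box, Box_succ, BoxS_succ]
    exact ((good_kid k p (fun j => ⟨le_rfl, le_rfl⟩) fun j => by omega).pb
      (w := fun j => 3 * p j) (fun j => by omega) (body_center h)).2

/-- the big cube -/
theorem G_big : G sg (Box 0 0 1) (BoxS 0 0 1) := by
  refine ((good_ind 0 (fun l u => ∀ j, 0 ≤ l j ∧ u j ≤ 1) (fun l u hI le ne => Or.inr ?_) 0 1
    (fun j => ⟨le_rfl, le_rfl⟩) fun j => zero_le_one).pb (w := 0) (fun j => ⟨le_rfl, zero_le_one⟩)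
    (body_iff.2 ⟨0, rfl, fun j => Or.inl rfl⟩)).2
  obtain ⟨i, hi⟩ := bxl_axis le ne
  refine ⟨i, l i, le_rfl, hi, fun u1 l2 h => ?_⟩
  have t1 := fun j => (h.box_iff u1).2 (Or.inl fun j => ⟨h.le1 j, le_rfl⟩) j
  have t2 := fun j => (h.box_iff l2).2 (Or.inr fun j => ⟨le_rfl, h.le2 j⟩) j
  refine ⟨fun j => ⟨(hI j).1, (t1 j).2.trans (hI j).2⟩,
    fun j => ⟨(hI j).1.trans (t2 j).1, (hI j).2⟩, fun _ _ => ?_⟩
  obtain ⟨x, hx⟩ := ret_edge (n := 0) (a := 0) (i := i)
    (f := fun j => if j = i then 2 * l i + 1 else 2 * l j) rfl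
    (fun j e => by
      have := hI j; have := le j
      simp only [if_neg e, Pi.zero_apply]; omega)
    (by have := hI i; simp only [if_true, Pi.zero_apply]; omega)
  exact ⟨_, ⟨i, by simp only [if_true]; omega, fun j e => by simp only [if_neg e]; omega⟩,
    by simp, fun j e => by have := le j; simp only [if_neg e]; omega, x, hx.2⟩

/-- the outer layer two levels down and the rest -/
theorem G_cap {m : ℕ} {p f : V} {i : Fin 3} {s : ℤ} (hs : s = 1 ∨ s = -1) (hi : f i = 2 * p i + s)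
    (hf : ∀ j, j ≠ i → f j = 2 * p j) (h : (Ph (2 * m) f).Nonempty) :
    G sg (Box (2 * m + 2) (fun j => if j = i then 9 * p j + 4 * s else 9 * p j - 4)
        (fun j => if j = i then 9 * p j + 4 * s else 9 * p j + 4))
      (BoxS (2 * m + 2) (fun j => if j = i then 9 * p j + 4 * s else 9 * p j - 4)
        (fun j => if j = i then 9 * p j + 4 * s else 9 * p j + 4)) ∧
    G sg (Box (2 * m + 2) (fun j => if j = i ∧ s = -1 then 9 * p j - 3 else 9 * p j - 4)
        (fun j => if j = i ∧ s = 1 then 9 * p j + 3 else 9 * p j + 4))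
      (BoxS (2 * m + 2) (fun j => if j = i ∧ s = -1 then 9 * p j - 3 else 9 * p j - 4)
        (fun j => if j = i ∧ s = 1 then 9 * p j + 3 else 9 * p j + 4)) := by
  have ad : Adj p f := ⟨i, by omega, hf⟩
  obtain ⟨x, xk, xf⟩ := K_Ph ad.face h
  have xc := ad.sub _ xf.1
  constructor
  · have le : ∀ j, (if j = i then 9 * p j + 4 * s else 9 * p j - 4) ≤
        if j = i then 9 * p j + 4 * s else 9 * p j + 4 := fun j => by split_ifs <;> omega
    obtain ⟨w, hw, c⟩ := box_cover (n := 2 * m + 2) (x := x) le fun j => by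
      have a := ((cube_nine _ p).1 ▸ xc :) j
      by_cases e : j = i
      · subst e
        have b := bxl_odd xf.1 (i := j) (by omega)
        have e3 : (3 : ℝ) ^ (2 * m + 2) = 9 * 3 ^ (2 * m) := by ring
        simp only [if_true]
        rw [hi] at b
        rw [e3]
        rcases hs with rfl | rfl <;> push_cast at b ⊢ <;> constructor <;> linarith
      · simpa only [if_neg e] using a
    exact ((good_layer m p (t := i) hs ⟨by simp, by simp, fun j => by
      split_ifs <;> omega⟩ le).pb hw ⟨x, c, K_sub_N _ xk⟩).2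
  · exact ((good_nine m p (fun j => by split_ifs <;> omega)
      fun j => by split_ifs <;> omega).pb (w := fun j => 3 * (3 * p j))
      (fun j => by split_ifs <;> omega)
      (body_center (body_center ⟨x, xc, xf.2⟩))).2

end Pool.Agent.Lib.MP_b7d179_gt.M
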