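import Pool.Agent.Lib.MP_b7d179_gt.M.Sys

/-! Integer boxes of dual cubes: geometry of one cut. -/

namespace Pool.Agent.Lib.MP_b7d179_gt.M

open Set

variable {n : ℕ} {l u u1 l2 p f : V} {i : Fin 3} {s : ℤ} {x : X}

theorem bxl_pos (n : ℕ) : (0 : ℝ) < 2 * 3 ^ n := by positivity

theorem bxl_Icc (n : ℕ) (a b : Fin 3 → ℝ) (x : X) :
    x ∈ Icc (fun i => a i / (2 * 3 ^ n)) (fun i => b i / (2 * 3 ^ n)) ↔
      ∀ i, a i ≤ 2 * 3 ^ n * x i ∧ 2 * 3 ^ n * x i ≤ b i := by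
  simp only [mem_Icc, Pi.le_def, div_le_iff₀' (bxl_pos n), le_div_iff₀' (bxl_pos n), forall_and]

theorem bxl_eq (n : ℕ) (a t : ℝ) : t = a / (2 * 3 ^ n) ↔ 2 * 3 ^ n * t = a := by
  rw [eq_div_iff (bxl_pos n).ne', mul_comm]

theorem ball_Box (n : ℕ) (h : ∀ i, l i ≤ u i) : Ball (Box n l u) (BoxS n l u) := by
  have := ball_Icc (l := fun i => (2 * (l i : ℝ) - 1) / (2 * 3 ^ n))
    (u := fun i => (2 * (u i : ℝ) + 1) / (2 * 3 ^ n)) fun i => by
      have : (l i : ℝ) ≤ u i := by exact_mod_cast h i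
      exact div_lt_div_of_pos_right (by linarith) (bxl_pos n)
  convert this using 1
  · ext x; rw [bxl_Icc]; rfl
  · ext x; simp only [mem_ofPred_eq, bxl_Icc, bxl_eq]; rfl

/-- the box `l..u` is cut into `l..u1` and `l2..u` -/
structure Spl (l u u1 l2 : V) (i : Fin 3) (s : ℤ) : Prop where
  le : ∀ j, l j ≤ u j
  a : l i ≤ s
  b : s < u i
  c : u1 i = s
  d : l2 i = s + 1
  e : ∀ j, j ≠ i → u1 j = u j
  g : ∀ j, j ≠ i → l2 j = l j

/-- the cut and its rim -/
def CutD (n : ℕ) (l u : V) (i : Fin 3) (s : ℤ) : Set X :=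
  {x | x ∈ Box n l u ∧ 2 * 3 ^ n * x i = 2 * (s : ℝ) + 1}
def CutC (n : ℕ) (l u : V) (i : Fin 3) (s : ℤ) : Set X :=
  {x | x ∈ CutD n l u i s ∧ ∃ j, j ≠ i ∧
    (2 * 3 ^ n * x j = 2 * (l j : ℝ) - 1 ∨ 2 * 3 ^ n * x j = 2 * (u j : ℝ) + 1)}

namespace Spl
variable (h : Spl l u u1 l2 i s)
include h

theorem le1 (j : Fin 3) : l j ≤ u1 j := by
  by_cases e : j = i
  · rw [e, h.c]; exact h.a
  · rw [h.e j e]; exact h.le j

theorem le2 (j : Fin 3) : l2 j ≤ u j := by
  by_cases e : j = i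
  · rw [e, h.d]; exact h.b
  · rw [h.g j e]; exact h.le j

theorem ra : (l i : ℝ) ≤ s := by exact_mod_cast h.a
theorem rb : (s : ℝ) + 1 ≤ u i := by exact_mod_cast h.b

theorem mem1 : x ∈ Box n l u1 ↔ x ∈ Box n l u ∧ 2 * 3 ^ n * x i ≤ 2 * (s : ℝ) + 1 := by
  refine ⟨fun k => ⟨fun j => ?_, h.c ▸ (k i).2⟩, fun k j => ?_⟩
  · by_cases e : j = i
    · subst e; have := k j; rw [h.c] at this; exact ⟨this.1, by linarith [this.2, h.rb]⟩
    · rw [← h.e j e]; exact k j
  · by_cases e : j = i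
    · subst e; rw [h.c]; exact ⟨(k.1 j).1, k.2⟩
    · rw [h.e j e]; exact k.1 j

theorem mem2 : x ∈ Box n l2 u ↔ x ∈ Box n l u ∧ 2 * (s : ℝ) + 1 ≤ 2 * 3 ^ n * x i := by
  refine ⟨fun k => ⟨fun j => ?_, ?_⟩, fun k j => ?_⟩
  · by_cases e : j = i
    · subst e; have := k j; rw [h.d] at this; push_cast at this
      exact ⟨by linarith [this.1, h.ra], this.2⟩
    · rw [← h.g j e]; exact k j
  · have := (k i).1; rw [h.d] at this; push_cast at this; linarith
  · by_cases e : j = i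
    · subst e; rw [h.d]; push_cast; exact ⟨by linarith [k.2], (k.1 j).2⟩
    · rw [h.g j e]; exact k.1 j

theorem disc (n : ℕ) : Disc (CutD n l u i s) (CutC n l u i s) := by
  have key : ∀ x : X, x ∈ Icc
      (fun j => (if j = i then 2 * (s : ℝ) + 1 else 2 * (l j : ℝ) - 1) / (2 * 3 ^ n))
      (fun j => (if j = i then 2 * (s : ℝ) + 1 else 2 * (u j : ℝ) + 1) / (2 * 3 ^ n)) ↔
      x ∈ CutD n l u i s := fun x => by
    rw [bxl_Icc]
    refine ⟨fun k => ?_, fun k j => ?_⟩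
    · have ki := k i
      simp only [if_true] at ki
      refine ⟨fun j => ?_, le_antisymm ki.2 ki.1⟩
      by_cases e : j = i
      · subst e; exact ⟨by linarith [ki.1, h.ra], by linarith [ki.2, h.rb]⟩
      · simpa only [if_neg e] using k j
    · by_cases e : j = i
      · subst e; simp only [if_true]; exact ⟨k.2.ge, k.2.le⟩
      · simp only [if_neg e]; exact k.1 j
  have := disc_Icc (k := i)
    (l := fun j => (if j = i then 2 * (s : ℝ) + 1 else 2 * (l j : ℝ) - 1) / (2 * 3 ^ n))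
    (u := fun j => (if j = i then 2 * (s : ℝ) + 1 else 2 * (u j : ℝ) + 1) / (2 * 3 ^ n))
    (by simp) fun j e => by
      have : (l j : ℝ) ≤ u j := by exact_mod_cast h.le j
      simp only [if_neg e]
      exact div_lt_div_of_pos_right (by linarith) (bxl_pos n)
  convert this using 1
  · ext x; rw [key]
  · ext x
    simp only [mem_ofPred_eq, key, bxl_eq, CutC]
    refine and_congr_right fun _ => exists_congr fun j => and_congr_right fun e => ?_
    simp only [if_neg e]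

theorem gl (n : ℕ) : Gl (Box n l u) (BoxS n l u) (Box n l u1) (BoxS n l u1) (Box n l2 u)
    (BoxS n l2 u) (CutD n l u i s) (CutC n l u i s) where
  d := h.disc n
  i := by
    ext x
    rw [mem_inter_iff, h.mem1, h.mem2]
    exact ⟨fun k => ⟨k.1.1, le_antisymm k.1.2 k.2.2⟩, fun k => ⟨⟨k.1, k.2.le⟩, k.1, k.2.ge⟩⟩
  s1 x k := ⟨h.mem1.2 ⟨k.1, k.2.le⟩, i, Or.inr (h.c ▸ k.2)⟩
  s2 x k := ⟨h.mem2.2 ⟨k.1, k.2.ge⟩, i, Or.inl (by rw [h.d, k.2]; push_cast; ring)⟩
  u := by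
    ext x
    rw [mem_union, h.mem1, h.mem2, ← and_or_left]
    exact ⟨fun k => ⟨k, le_total _ _⟩, And.left⟩
  r := by
    ext x
    constructor
    · rintro ⟨k, j, hj⟩
      by_cases e : j = i
      · subst e
        rcases hj with hj | hj
        · exact ⟨Or.inl ⟨h.mem1.2 ⟨k, by linarith [h.ra]⟩, j, Or.inl hj⟩,
            fun d => by linarith [d.1.2, h.ra]⟩
        · exact ⟨Or.inr ⟨h.mem2.2 ⟨k, by linarith [h.rb]⟩, j, Or.inr hj⟩,
            fun d => by linarith [d.1.2, h.rb]⟩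
      · refine ⟨?_, fun d => d.2 ⟨d.1, j, e, hj⟩⟩
        rcases le_total (2 * 3 ^ n * x i) (2 * (s : ℝ) + 1) with t | t
        · exact Or.inl ⟨h.mem1.2 ⟨k, t⟩, j, (h.e j e).symm ▸ hj⟩
        · exact Or.inr ⟨h.mem2.2 ⟨k, t⟩, j, (h.g j e).symm ▸ hj⟩
    · rintro ⟨k, d⟩
      have fin : x ∈ CutD n l u i s → x ∈ BoxS n l u := fun c => by
        obtain ⟨-, j, -, hj⟩ : x ∈ CutC n l u i s := by_contra fun t => d ⟨c, t⟩
        exact ⟨c.1, j, hj⟩
      rcases k with ⟨k, j, hj⟩ | ⟨k, j, hj⟩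
      · have k' := (h.mem1.1 k).1
        by_cases e : j = i
        · subst e
          rcases hj with hj | hj
          · exact ⟨k', j, Or.inl hj⟩
          · exact fin ⟨k', h.c ▸ hj⟩
        · exact ⟨k', j, h.e j e ▸ hj⟩
      · have k' := (h.mem2.1 k).1
        by_cases e : j = i
        · subst e
          rcases hj with hj | hj
          · exact fin ⟨k', by rw [hj, h.d]; push_cast; ring⟩
          · exact ⟨k', j, Or.inr hj⟩
        · exact ⟨k', j, h.g j e ▸ hj⟩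

end Spl

theorem bxl_symm {B S B1 S1 B2 S2 D C : Set X} (h : Gl B S B1 S1 B2 S2 D C) :
    Gl B S B2 S2 B1 S1 D C :=
  ⟨h.d, inter_comm B1 B2 ▸ h.i, h.s2, h.s1, union_comm B1 B2 ▸ h.u, union_comm S1 S2 ▸ h.r⟩

theorem bxl_hp {t : ℝ} {m : ℤ} (hm : m % 2 = 1) (h : 2 * 3 ^ n * t = m) : Hp n t := ⟨m, hm, h⟩

theorem bxl_odd (hx : x ∈ Bx n f) (hi : f i % 2 = 1) : 2 * 3 ^ n * x i = f i := by
  have := hx i
  rw [if_neg (by omega)] at this
  exact sub_eq_zero.1 (abs_nonpos_iff.1 this)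

theorem bxl_near (hx : x ∈ Bx n f) (j : Fin 3) :
    (f j : ℝ) - 1 ≤ 2 * 3 ^ n * x j ∧ 2 * 3 ^ n * x j ≤ f j + 1 := by
  have : |2 * 3 ^ n * x j - (f j : ℝ)| ≤ 1 := (hx j).trans (by split_ifs <;> norm_num)
  have := abs_le.1 this
  exact ⟨by linarith [this.1], by linarith [this.2]⟩

/-- a foot that meets the plane lies in the plane -/
theorem bxl_plane (hf : IsFace f) (hx : x ∈ Ps n f) (e : 2 * 3 ^ n * x i = 2 * (s : ℝ) + 1) :
    f i = 2 * s + 1 := by
  obtain ⟨j, hj, -⟩ := hf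
  have h1 := bxl_odd hx.1 hj
  obtain rfl : i = j := N_One n hx.2 i j
    (bxl_hp (m := 2 * s + 1) (by omega) (by rw [e]; push_cast; ring)) (bxl_hp hj h1)
  rw [e] at h1
  exact_mod_cast h1.symm

theorem Spl.inside (h : Spl l u u1 l2 i s) (hi : f i = 2 * s + 1)
    (hj : ∀ j, j ≠ i → 2 * l j ≤ f j ∧ f j ≤ 2 * u j) : Bx n f ⊆ CutD n l u i s := fun x hx => by
  have h1 := bxl_odd hx (i := i) (by omega)
  rw [hi] at h1; push_cast at h1
  refine ⟨fun j => ?_, h1⟩
  by_cases e : j = i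
  · subst e; exact ⟨by linarith [h.ra], by linarith [h.rb]⟩
  · have a : 2 * (l j : ℝ) ≤ f j := by exact_mod_cast (hj j e).1
    have b : (f j : ℝ) ≤ 2 * u j := by exact_mod_cast (hj j e).2
    have := bxl_near hx j
    exact ⟨by linarith [this.1], by linarith [this.2]⟩

theorem bxl_rim (hx : x ∈ CutC n l u i s) : x ∉ One n := fun o => by
  obtain ⟨c, j, e, hj⟩ := hx
  refine e (o j i ?_ (bxl_hp (m := 2 * s + 1) (by omega) (by rw [c.2]; push_cast; ring)))
  rcases hj with hj | hj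
  · exact bxl_hp (m := 2 * l j - 1) (by omega) (by rw [hj]; push_cast; ring)
  · exact bxl_hp (m := 2 * u j + 1) (by omega) (by rw [hj]; push_cast; ring)

theorem mem_cube : x ∈ cube n p ↔ x ∈ Box n p p := by
  refine forall_congr' fun j => ?_
  beta_reduce
  rw [if_pos (by omega), abs_le]
  push_cast
  exact ⟨fun k => ⟨by linarith [k.1], by linarith [k.2]⟩,
    fun k => ⟨by linarith [k.1], by linarith [k.2]⟩⟩

theorem cube_Box (n : ℕ) (p : V) : cube n p = Box n p p := Set.ext fun _ => mem_cube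

theorem cubeS_Box (n : ℕ) (p : V) : cubeS n p = BoxS n p p := by
  ext x
  refine ⟨fun ⟨k, j, m, hm, e⟩ => ⟨mem_cube.1 k, j, ?_⟩, fun ⟨k, j, hj⟩ => ⟨mem_cube.2 k, j, ?_⟩⟩
  · have := mem_cube.1 k j
    rw [e] at this ⊢
    have a : 2 * p j - 1 ≤ m := by exact_mod_cast this.1
    have b : m ≤ 2 * p j + 1 := by exact_mod_cast this.2
    have : m = 2 * p j - 1 ∨ m = 2 * p j + 1 := by omega
    exact_mod_cast this
  · rcases hj with hj | hj
    · exact bxl_hp (m := 2 * p j - 1) (by omega) (by rw [hj]; push_cast; ring)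
    · exact bxl_hp (m := 2 * p j + 1) (by omega) (by rw [hj]; push_cast; ring)

theorem Box_succ (n : ℕ) (l u : V) :
    Box n l u = Box (n + 1) (fun j => 3 * l j - 1) (fun j => 3 * u j + 1) := by
  ext x
  refine forall_congr' fun j => ?_
  push_cast
  rw [pow_succ]
  exact ⟨fun k => ⟨by linarith [k.1], by linarith [k.2]⟩,
    fun k => ⟨by linarith [k.1], by linarith [k.2]⟩⟩

theorem BoxS_succ (n : ℕ) (l u : V) :
    BoxS n l u = BoxS (n + 1) (fun j => 3 * l j - 1) (fun j => 3 * u j + 1) := by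
  ext x
  refine and_congr (by rw [Box_succ]) (exists_congr fun j => ?_)
  push_cast
  rw [pow_succ]
  exact or_congr ⟨fun k => by linarith, fun k => by linarith⟩
    ⟨fun k => by linarith, fun k => by linarith⟩

theorem box_cover (h : ∀ j, l j ≤ u j) (hx : x ∈ Box n l u) :
    ∃ w : V, (∀ j, l j ≤ w j ∧ w j ≤ u j) ∧ x ∈ cube n w := by
  obtain ⟨w, hw⟩ := cube_cover n x
  refine ⟨fun j => max (l j) (min (w j) (u j)), fun j => ⟨le_max_left _ _,
    max_le (h j) (min_le_right _ _)⟩, mem_cube.2 fun j => ?_⟩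
  have a := mem_cube.1 hw j
  have b := hx j
  have c : (l j : ℝ) ≤ u j := by exact_mod_cast h j
  push_cast
  rcases le_total (w j : ℝ) (u j) with t | t
  · rw [min_eq_left t]
    rcases le_total (l j : ℝ) (w j) with t' | t'
    · rw [max_eq_right t']; exact a
    · rw [max_eq_left t']; exact ⟨b.1, by linarith [a.2]⟩
  · rw [min_eq_right t, max_eq_right c]; exact ⟨by linarith [a.1], b.2⟩

end Pool.Agent.Lib.MP_b7d179_gt.M
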