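import Pool.Agent.Lib.MP_b7d179_gt.M.BoxL1

/-! Integer boxes of dual cubes: gluing trees. -/

namespace Pool.Agent.Lib.MP_b7d179_gt.M

open Set Function

variable {n k : ℕ} {l u u1 l2 p f : V} {i : Fin 3} {s : ℤ} {x : X}

/-- `f` is a boundary face of the box -/
def Bd (l u f : V) : Prop :=
  ∃ i, (f i = 2 * u i + 1 ∨ f i = 2 * l i - 1) ∧ ∀ j, j ≠ i → 2 * l j ≤ f j ∧ f j ≤ 2 * u j
def Fb (k : ℕ) (l u : V) : Set sg.φ := {f | f.1.1 = k ∧ Bd l u f.1.2}
def Vb (k : ℕ) (l u : V) : Set sg.β := {v | v.1.1 = k ∧ ∀ j, l j ≤ v.1.2 j ∧ v.1.2 j ≤ u j}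
def Emp (n : ℕ) (l u : V) : Prop := ∀ w : V, (∀ j, l j ≤ w j ∧ w j ≤ u j) → ¬ (body n w).Nonempty
def PB (k : ℕ) (l u : V) : Prop :=
  Tree sg false (Box (2 * k) l u) (BoxS (2 * k) l u) (Fb k l u) (Vb k l u) ∧
    G sg (Box (2 * k) l u) (BoxS (2 * k) l u)
def Good (k : ℕ) (l u : V) : Prop := Emp (2 * k) l u ∨ (¬ Emp (2 * k) l u ∧ PB k l u)
/-- a foot crosses the plane inside the box -/
def Cross (n : ℕ) (l u : V) (i : Fin 3) (s : ℤ) : Prop :=
  ∃ f : V, IsFace f ∧ f i = 2 * s + 1 ∧ (∀ j, j ≠ i → 2 * l j ≤ f j ∧ f j ≤ 2 * u j) ∧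
    (Ph n f).Nonempty

theorem bxl_even (hf : IsFace f) (hi : f i % 2 = 1) {j : Fin 3} (e : j ≠ i) : f j % 2 = 0 := by
  obtain ⟨t, -, ht⟩ := hf
  by_cases c : i = t
  · exact ht j (c ▸ e)
  · have := ht i c; omega

theorem Emp.disj (h : Emp n l u) (le : ∀ j, l j ≤ u j) : Disjoint (Box n l u) K :=
  disjoint_left.2 fun x hx hk => by
    obtain ⟨w, hw, c⟩ := box_cover le hx
    exact h w hw ⟨x, c, K_sub_N n hk⟩

theorem Emp.bd (h : Emp n l u) (le : ∀ j, l j ≤ u j) (hf : IsFace f) (ne : (Ph n f).Nonempty) :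
    ¬ Bd l u f := by
  rintro ⟨i, hi, hj⟩
  have ev := fun j => bxl_even (j := j) hf (i := i) (by omega)
  obtain ⟨x, hx⟩ := ne
  have key : ∀ w : V, (f i = 2 * w i + 1 ∨ f i = 2 * w i - 1) → (l i ≤ w i ∧ w i ≤ u i) →
      (∀ j, j ≠ i → w j = f j / 2) → False := fun w a b c => by
    refine h w (fun j => ?_) ⟨x, Adj.sub ⟨i, a, fun j e => ?_⟩ n hx.1, hx.2⟩
    · by_cases e : j = i
      · exact e ▸ b
      · have := hj j e; have := ev j e; have := c j e; omega
    · have := ev j e; have := c j e; omega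
  rcases hi with hi | hi
  · exact key (update (fun j => f j / 2) i (u i)) (by simp [hi]) (by simp [le i])
      fun j e => by simp [e]
  · exact key (update (fun j => f j / 2) i (l i)) (by simp [hi]) (by simp [le i])
      fun j e => by simp [e]

theorem good_pt (k : ℕ) (p : V) : Good k p p := by
  by_cases h : (body (2 * k) p).Nonempty
  · refine Or.inr ⟨fun e => e p (fun j => ⟨le_rfl, le_rfl⟩) h, ?_⟩
    let v : sg.β := ⟨(k, p), h⟩
    have e1 : Fb k p p = sg.F v := by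
      ext f
      refine and_congr Iff.rfl (exists_congr fun i => and_congr Iff.rfl (forall₂_congr fun j _ => ?_))
      exact ⟨fun t => le_antisymm t.2 t.1, fun t => ⟨t.ge, t.le⟩⟩
    have e2 : Vb k p p = {v} := by
      ext w
      refine ⟨fun t => Subtype.ext (Prod.ext t.1 (funext fun j => le_antisymm (t.2 j).2 (t.2 j).1)),
        ?_⟩
      rintro rfl
      exact ⟨rfl, fun j => ⟨le_rfl, le_rfl⟩⟩
    rw [PB, e1, e2, ← cube_Box, ← cubeS_Box]
    exact ⟨Tree.leaf v, G.leaf v⟩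
  · refine Or.inl fun w hw => ?_
    obtain rfl : w = p := funext fun j => le_antisymm (hw j).2 (hw j).1
    exact h

namespace Spl
variable (h : Spl l u u1 l2 i s)
include h

theorem box_iff (w : V) : (∀ j, l j ≤ w j ∧ w j ≤ u j) ↔
    (∀ j, l j ≤ w j ∧ w j ≤ u1 j) ∨ ∀ j, l2 j ≤ w j ∧ w j ≤ u j := by
  have a := h.a; have b := h.b; have c := h.c; have d := h.d
  refine ⟨fun t => ?_, fun t j => ?_⟩
  · rcases le_or_gt (w i) s with q | q
    · refine Or.inl fun j => ?_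
      by_cases e : j = i
      · subst e; have := t j; omega
      · rw [h.e j e]; exact t j
    · refine Or.inr fun j => ?_
      by_cases e : j = i
      · subst e; have := t j; omega
      · rw [h.g j e]; exact t j
  · by_cases e : j = i
    · subst e; rcases t with t | t <;> have := t j <;> omega
    · have := h.e j e; have := h.g j e
      rcases t with t | t <;> have := t j <;> omega

theorem bd_mid (hi : f i = 2 * s + 1) :
    (Bd l u1 f ↔ ∀ j, j ≠ i → 2 * l j ≤ f j ∧ f j ≤ 2 * u j) ∧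
      (Bd l2 u f ↔ ∀ j, j ≠ i → 2 * l j ≤ f j ∧ f j ≤ 2 * u j) := by
  have c := h.c; have d := h.d
  refine ⟨⟨fun ⟨t, _, b⟩ j e => ?_, fun b => ⟨i, Or.inl (by omega), fun j e => ?_⟩⟩,
    fun ⟨t, _, b⟩ j e => ?_, fun b => ⟨i, Or.inr (by omega), fun j e => ?_⟩⟩
  · obtain rfl : i = t := by_contra fun q => by have := b i q; omega
    rw [← h.e j e]; exact b j e
  · rw [h.e j e]; exact b j e
  · obtain rfl : i = t := by_contra fun q => by have := b i q; omega
    rw [← h.g j e]; exact b j e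
  · rw [h.g j e]; exact b j e

theorem bd_iff (hf : IsFace f) : Bd l u f ↔ (Bd l u1 f ∨ Bd l2 u f) ∧ f i ≠ 2 * s + 1 := by
  have a := h.a; have b := h.b; have c := h.c; have d := h.d
  constructor
  · rintro ⟨t, ht, hj⟩
    by_cases e : i = t
    · subst e
      refine ⟨?_, by omega⟩
      rcases ht with ht | ht
      · exact Or.inr ⟨i, Or.inl ht, fun j e => (h.g j e).symm ▸ hj j e⟩
      · exact Or.inl ⟨i, Or.inr ht, fun j e => (h.e j e).symm ▸ hj j e⟩
    · have ev := bxl_even hf (i := t) (by omega) e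
      have hi := hj i e
      refine ⟨?_, by omega⟩
      rcases le_or_gt (f i) (2 * s) with q | q
      · refine Or.inl ⟨t, (h.e t (Ne.symm e)).symm ▸ ht, fun j e' => ?_⟩
        by_cases r : j = i
        · subst r; omega
        · rw [h.e j r]; exact hj j e'
      · refine Or.inr ⟨t, (h.g t (Ne.symm e)).symm ▸ ht, fun j e' => ?_⟩
        by_cases r : j = i
        · subst r; omega
        · rw [h.g j r]; exact hj j e'
  · rintro ⟨⟨t, ht, hj⟩ | ⟨t, ht, hj⟩, ne⟩
    · refine ⟨t, ?_, fun j e => ?_⟩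
      · by_cases e : t = i
        · subst e; omega
        · rwa [h.e t e] at ht
      · have := hj j e
        by_cases r : j = i
        · subst r; omega
        · rwa [h.e j r] at this
    · refine ⟨t, ?_, fun j e => ?_⟩
      · by_cases e : t = i
        · subst e; omega
        · rwa [h.g t e] at ht
      · have := hj j e
        by_cases r : j = i
        · subst r; omega
        · rwa [h.g j r] at this

omit h in
theorem off {g : sg.φ} (hk : g.1.1 = k) :
    Disjoint (sg.A g) (CutD (2 * k) l u i s) ∨ g.1.2 i = 2 * s + 1 := by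
  subst hk
  exact or_iff_not_imp_right.2 fun ne => disjoint_left.2 fun x hx c => ne (bxl_plane g.2.1 hx c.2)

omit h in
theorem foot_ne (g : sg.φ) : (sg.A g).Nonempty := by
  obtain ⟨x, a, b⟩ := K_Ph g.2.1 g.2.2
  exact ⟨x, (K_Ps ⟨a, b.1⟩).1⟩

theorem dj_iff {g : sg.φ} (hk : g.1.1 = k) (hg : Bd l u1 g.1.2 ∨ Bd l2 u g.1.2) :
    Disjoint (sg.A g) (CutD (2 * k) l u i s) ↔ g.1.2 i ≠ 2 * s + 1 := by
  refine ⟨fun d e => ?_, fun ne => (off hk).resolve_right ne⟩
  obtain ⟨x, hx⟩ := foot_ne g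
  subst hk
  exact disjoint_left.1 d hx (h.inside e (hg.elim (h.bd_mid e).1.1 (h.bd_mid e).2.1) hx.1)

theorem good (g1 : Good k l u1) (g2 : Good k l2 u)
    (cr : ¬ Emp (2 * k) l u1 → ¬ Emp (2 * k) l2 u → Cross (2 * k) l u i s) : Good k l u := by
  have ne1 : ¬ Emp (2 * k) l u1 → ¬ Emp (2 * k) l u := fun t e =>
    t fun w hw => e w ((h.box_iff w).2 (Or.inl hw))
  have ne2 : ¬ Emp (2 * k) l2 u → ¬ Emp (2 * k) l u := fun t e =>
    t fun w hw => e w ((h.box_iff w).2 (Or.inr hw))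
  have hV : Vb k l u = Vb k l u1 ∪ Vb k l2 u := Set.ext fun v => by
    simp only [Vb, mem_union, mem_ofPred_eq, h.box_iff, and_or_left]
  rcases g1 with e1 | ⟨n1, t1, c1⟩ <;> rcases g2 with e2 | ⟨n2, t2, c2⟩
  · exact Or.inl fun w hw => ((h.box_iff w).1 hw).elim (e1 w) (e2 w)
  · have no : ∀ g : sg.φ, g.1.1 = k → ¬ Bd l u1 g.1.2 := fun g hk =>
      e1.bd h.le1 g.2.1 (hk ▸ g.2.2)
    have nm : ∀ g ∈ Fb k l2 u, g.1.2 i ≠ 2 * s + 1 := fun g hg e =>
      no g hg.1 ((h.bd_mid e).1.2 ((h.bd_mid e).2.1 hg.2))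
    have eF : Fb k l u = Fb k l2 u := Set.ext fun g => ⟨fun t => ⟨t.1,
      ((h.bd_iff g.2.1).1 t.2).1.resolve_left (no g t.1)⟩,
      fun t => ⟨t.1, (h.bd_iff g.2.1).2 ⟨Or.inr t.2, nm g t⟩⟩⟩
    have eV : Vb k l u = Vb k l2 u := by
      rw [hV, union_eq_right]
      exact fun v hv => (e1 _ hv.2 (hv.1 ▸ v.2)).elim
    refine Or.inr ⟨ne2 n2, ?_, G.glue0 c2 (ball_Box _ h.le1) (e1.disj h.le1) (bxl_symm (h.gl _))⟩
    rw [eF, eV]
    exact Tree.glue0 t2 (ball_Box _ h.le1) (e1.disj h.le1) (bxl_symm (h.gl _))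
      fun g hg => (off hg.1).resolve_right (nm g hg)
  · have no : ∀ g : sg.φ, g.1.1 = k → ¬ Bd l2 u g.1.2 := fun g hk =>
      e2.bd h.le2 g.2.1 (hk ▸ g.2.2)
    have nm : ∀ g ∈ Fb k l u1, g.1.2 i ≠ 2 * s + 1 := fun g hg e =>
      no g hg.1 ((h.bd_mid e).2.2 ((h.bd_mid e).1.1 hg.2))
    have eF : Fb k l u = Fb k l u1 := Set.ext fun g => ⟨fun t => ⟨t.1,
      ((h.bd_iff g.2.1).1 t.2).1.resolve_right (no g t.1)⟩,
      fun t => ⟨t.1, (h.bd_iff g.2.1).2 ⟨Or.inl t.2, nm g t⟩⟩⟩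
    have eV : Vb k l u = Vb k l u1 := by
      rw [hV, union_eq_left]
      exact fun v hv => (e2 _ hv.2 (hv.1 ▸ v.2)).elim
    refine Or.inr ⟨ne1 n1, ?_, G.glue0 c1 (ball_Box _ h.le2) (e2.disj h.le2) (h.gl _)⟩
    rw [eF, eV]
    exact Tree.glue0 t1 (ball_Box _ h.le2) (e2.disj h.le2) (h.gl _)
      fun g hg => (off hg.1).resolve_right (nm g hg)
  · obtain ⟨f, hf, hi, hj, ne⟩ := cr n1 n2
    refine Or.inr ⟨ne1 n1, ?_, G.glue1 c1 c2 (h.gl _) ⟨h.disc _,
      disjoint_left.2 fun x c hk => bxl_rim c (K_One _ hk), ?_⟩⟩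
    · rw [hV]
      refine Tree.glue1 t1 t2 (h.gl _) (fun g hg => ?_) (fun g hg => ?_)
        ⟨⟨(k, f), hf, ne⟩, ⟨rfl, (h.bd_mid hi).1.2 hj⟩, fun x hx => h.inside hi hj hx.1⟩
        (disjoint_left.2 fun v a b => ?_) fun g => ?_
      · have hk : g.1.1 = k := hg.elim And.left And.left
        refine ((off hk).symm.imp_left fun e x hx => ?_)
        subst hk
        exact ⟨h.inside e (hg.elim (fun t => (h.bd_mid e).1.1 t.2) fun t => (h.bd_mid e).2.1 t.2)
          hx.1, fun c => bxl_rim c (N_One _ hx.2)⟩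
      · refine and_congr_right fun hk => ?_
        obtain ⟨x, hx⟩ := foot_ne g
        have e := (off (l := l) (u := u) (i := i) (s := s) hk).resolve_left
          fun d => disjoint_left.1 d hx (hg hx)
        exact (h.bd_mid e).1.trans (h.bd_mid e).2.symm
      · have := (a.2 i).2; have := (b.2 i).1; have := h.c; have := h.d; omega
      · refine ⟨fun t => ?_, fun t => ?_⟩
        · obtain ⟨a, b⟩ := (h.bd_iff g.2.1).1 t.2
          exact ⟨a.imp (fun q => ⟨t.1, q⟩) fun q => ⟨t.1, q⟩, (h.dj_iff t.1 a).2 b⟩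
        · have hk : g.1.1 = k := t.1.elim And.left And.left
          have a := t.1.imp And.right And.right
          exact ⟨hk, (h.bd_iff g.2.1).2 ⟨a, (h.dj_iff hk a).1 t.2⟩⟩
    · obtain ⟨x, a, b⟩ := K_Ph hf ne
      exact ⟨x, a, h.inside hi hj b.1⟩

end Spl

theorem spl_update (le : ∀ j, l j ≤ u j) (a : l i ≤ s) (b : s < u i) :
    Spl l u (update u i s) (update l i (s + 1)) i s :=
  ⟨le, a, b, by simp, by simp, fun j e => by simp [e], fun j e => by simp [e]⟩

/-- induction by cutting -/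
theorem good_ind (k : ℕ) (I : V → V → Prop)
    (H : ∀ l u, I l u → (∀ j, l j ≤ u j) → l ≠ u → Good k l u ∨ ∃ i s, l i ≤ s ∧ s < u i ∧
      ∀ u1 l2, Spl l u u1 l2 i s → I l u1 ∧ I l2 u ∧
        (¬ Emp (2 * k) l u1 → ¬ Emp (2 * k) l2 u → Cross (2 * k) l u i s))
    (l u : V) (hI : I l u) (le : ∀ j, l j ≤ u j) : Good k l u := by
  induction hN : (∑ j, (u j - l j)).toNat using Nat.strong_induction_on generalizing l u with
  | _ N ih =>
    by_cases e : l = u
    · exact e ▸ good_pt k l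
    rcases H l u hI le e with g | ⟨i, s, a, b, c⟩
    · exact g
    have h := spl_update le a b
    obtain ⟨i1, i2, cr⟩ := c _ _ h
    have pos : ∀ l' u' : V, (∀ j, l' j ≤ u' j) → (∀ j, u' j - l' j ≤ u j - l j) →
        u' i - l' i < u i - l i → (∑ j, (u' j - l' j)).toNat < N := fun l' u' q1 q2 q3 => by
      have t1 : ∑ j, (u' j - l' j) < ∑ j, (u j - l j) :=
        Finset.sum_lt_sum (fun j _ => q2 j) ⟨i, Finset.mem_univ _, q3⟩
      have t2 : 0 ≤ ∑ j, (u' j - l' j) := Finset.sum_nonneg fun j _ => sub_nonneg.2 (q1 j)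
      omega
    refine h.good (ih _ (pos _ _ h.le1 (fun j => ?_) (by simp; omega)) _ _ i1 h.le1 rfl)
      (ih _ (pos _ _ h.le2 (fun j => ?_) (by simp; omega)) _ _ i2 h.le2 rfl) cr
    · by_cases e : j = i
      · subst e; simp; omega
      · simp [e]
    · by_cases e : j = i
      · subst e; simp; omega
      · simp [e]

end Pool.Agent.Lib.MP_b7d179_gt.M
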