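import Pool.Agent.Lib.MP_b7d179_gt.M.Defs

namespace Pool.Agent.Lib.MP_b7d179_gt.M

open Set

variable {n : ℕ} {p q f g : V} {x : X}

theorem lat_cube : x ∈ cube n p ↔
    ∀ i, 2 * (p i : ℝ) - 1 ≤ 2 * 3 ^ n * x i ∧ 2 * 3 ^ n * x i ≤ 2 * (p i : ℝ) + 1 := by
  refine forall_congr' fun i => ?_
  rw [if_pos (Int.mul_emod_right 2 (p i)), abs_le]
  push_cast
  constructor <;> rintro ⟨a, b⟩ <;> constructor <;> linarith

theorem lat_odd (h : x ∈ Bx n f) {i : Fin 3} (hi : f i % 2 = 1) : 2 * 3 ^ n * x i = (f i : ℝ) := by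
  have := h i
  rw [if_neg (by omega), abs_nonpos_iff] at this
  linarith

theorem lat_le (h : x ∈ Bx n f) (i : Fin 3) :
    (f i : ℝ) - 1 ≤ 2 * 3 ^ n * x i ∧ 2 * 3 ^ n * x i ≤ (f i : ℝ) + 1 := by
  have := h i
  rw [abs_le] at this
  split_ifs at this <;> constructor <;> linarith [this.1, this.2]

theorem lat_bx (h : ∀ i, (f i : ℝ) - 1 ≤ 2 * 3 ^ n * x i ∧ 2 * 3 ^ n * x i ≤ (f i : ℝ) + 1)
    (h' : ∀ i, f i % 2 = 1 → 2 * 3 ^ n * x i = (f i : ℝ)) : x ∈ Bx n f := by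
  intro i
  split_ifs with c
  · rw [abs_le]; constructor <;> linarith [(h i).1, (h i).2]
  · rw [h' i (by omega)]; simp

theorem lat_two {a b : ℤ} {t : ℝ} (h : a ≠ b) (ha : 2 * (a : ℝ) - 1 ≤ t ∧ t ≤ 2 * (a : ℝ) + 1)
    (hb : 2 * (b : ℝ) - 1 ≤ t ∧ t ≤ 2 * (b : ℝ) + 1) :
    t = ((a + b : ℤ) : ℝ) ∧ (b = a + 1 ∨ b = a - 1) := by
  have h1 : (b : ℝ) ≤ a + 1 := by linarith [ha.2, hb.1]
  have h2 : (a : ℝ) ≤ b + 1 := by linarith [ha.1, hb.2]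
  have h3 : b ≤ a + 1 := by exact_mod_cast h1
  have h4 : a ≤ b + 1 := by exact_mod_cast h2
  have h5 : b = a + 1 ∨ b = a - 1 := by omega
  refine ⟨?_, h5⟩
  rcases h5 with rfl | rfl <;> push_cast at * <;> linarith [ha.1, ha.2, hb.1, hb.2]

theorem lat_in {a m : ℤ} {t : ℝ} (hm : m % 2 = 1) (ht : t = m)
    (ha : 2 * (a : ℝ) - 1 ≤ t ∧ t ≤ 2 * (a : ℝ) + 1) : m = 2 * a + 1 ∨ m = 2 * a - 1 := by
  rw [ht] at ha
  have h1 : 2 * a - 1 ≤ m := by exact_mod_cast ha.1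
  have h2 : m ≤ 2 * a + 1 := by exact_mod_cast ha.2
  omega

theorem lat_mk (hp : x ∈ cube n p) (i : Fin 3) {m : ℤ} (hm : m = 2 * p i + 1 ∨ m = 2 * p i - 1)
    (ht : 2 * 3 ^ n * x i = (m : ℝ)) : Adj p (fun j => if j = i then m else 2 * p j) ∧
      x ∈ Bx n fun j => if j = i then m else 2 * p j := by
  refine ⟨⟨i, by simpa using hm, fun j hj => if_neg hj⟩, lat_bx (fun j => ?_) fun j hj => ?_⟩
  · by_cases c : j = i
    · subst c; simp only [if_true, ht]; constructor <;> linarith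
    · simp only [if_neg c]; push_cast; exact lat_cube.1 hp j
  · by_cases c : j = i
    · subst c; simp only [if_true, ht]
    · simp only [if_neg c] at hj; omega

theorem lat_s (n : ℕ) (t : ℝ) : 2 * 3 ^ (n + 1) * t = 3 * (2 * 3 ^ n * t) := by ring

theorem lat_o (n : ℕ) (a : ℤ) : o n a = 1 ∨ o n a = -1 := by
  induction n generalizing a with
  | zero => unfold o; split_ifs <;> simp
  | succ n ih => unfold o; split_ifs; exacts [Or.inl rfl, Or.inr rfl, ih _]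

theorem lat_kid {a : ℤ} {t : ℝ} (h : 2 * (a : ℝ) - 1 ≤ t ∧ t ≤ 2 * (a : ℝ) + 1) :
    ∃ b : ℤ, |b - 3 * a| ≤ 1 ∧ 2 * (b : ℝ) - 1 ≤ 3 * t ∧ 3 * t ≤ 2 * (b : ℝ) + 1 := by
  rcases le_total (3 * t) (6 * a - 1) with c | c
  · exact ⟨3 * a - 1, by simp, by push_cast; linarith [h.1], by push_cast; linarith⟩
  rcases le_total (3 * t) (6 * a + 1) with d | d
  · exact ⟨3 * a, by simp, by push_cast; linarith, by push_cast; linarith⟩
  · exact ⟨3 * a + 1, by simp, by push_cast; linarith, by push_cast; linarith [h.2]⟩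

theorem lat_dg : ∀ c ∈ codes 3, (∀ i, dg c i ≤ 2) ∧ c = enc (dg c 0) (dg c 1) (dg c 2) := by
  decide +kernel

theorem lat_enc : ∀ a < 3, ∀ b < 3, ∀ c < 3, enc a b c ∈ codes 3 ∧ dg (enc a b c) 0 = a ∧
    dg (enc a b c) 1 = b ∧ dg (enc a b c) 2 = c := by
  decide +kernel

theorem lat_inj {c d : ℕ} (hc : c ∈ codes 3) (hd : d ∈ codes 3) (h : ∀ i, dg c i = dg d i) :
    c = d := by
  rw [(lat_dg c hc).2, (lat_dg d hd).2, h, h, h]

end Pool.Agent.Lib.MP_b7d179_gt.M
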