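import Pool.Agent.Lib.MP_b7d179_gt.M.Defs
import Pool.Agent.Lib.MP_b7d179_gt.M.Lat1

namespace Pool.Agent.Lib.MP_b7d179_gt.M

open Set

variable {n : ℕ} {p q f g : V} {x : X}

theorem Hp_succ {t : ℝ} (h : Hp n t) : Hp (n + 1) t := by
  obtain ⟨m, hm, h⟩ := h
  exact ⟨3 * m, by omega, by rw [lat_s, h]; push_cast; ring⟩

theorem One_succ (n : ℕ) : One (n + 1) ⊆ One n := fun _ h i j a b =>
  h i j (Hp_succ a) (Hp_succ b)

theorem AnyH_succ (n : ℕ) : AnyH n ⊆ AnyH (n + 1) := fun _ ⟨i, h⟩ => ⟨i, Hp_succ h⟩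

theorem cube_cover (n : ℕ) (x : X) : ∃ p, x ∈ cube n p := by
  refine ⟨fun i => ⌊3 ^ n * x i + 1 / 2⌋, lat_cube.2 fun i => ?_⟩
  have a := Int.floor_le (3 ^ n * x i + 1 / 2)
  have b := Int.lt_floor_add_one (3 ^ n * x i + 1 / 2)
  constructor <;> linarith

theorem Adj.face (h : Adj p f) : IsFace f := by
  obtain ⟨i, h, h'⟩ := h
  exact ⟨i, by omega, fun j hj => by have := h' j hj; omega⟩

theorem Adj.sub (h : Adj p f) (n : ℕ) : Bx n f ⊆ cube n p := by
  obtain ⟨i, h, h'⟩ := h
  refine fun x hx => lat_cube.2 fun j => ?_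
  by_cases c : j = i
  · subst c
    rw [lat_odd hx (by omega)]
    rcases h with h | h <;> rw [h] <;> push_cast <;> constructor <;> linarith
  · have := lat_le hx j
    rw [h' j c] at this
    push_cast at this
    exact this

theorem adj_finite (p : V) : {f | Adj p f}.Finite := by
  refine (Set.finite_Icc (fun i => 2 * p i - 1) fun i => 2 * p i + 1).subset ?_
  rintro f ⟨i, h, h'⟩
  refine ⟨fun j => ?_, fun j => ?_⟩ <;> by_cases c : j = i
  · subst c; dsimp only; omega
  · have := h' j c; dsimp only; omega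
  · subst c; dsimp only; omega
  · have := h' j c; dsimp only; omega

theorem face_adj (hf : IsFace f) :
    ∃ p q, p ≠ q ∧ Adj p f ∧ Adj q f ∧ ∀ r, Adj r f → r = p ∨ r = q := by
  obtain ⟨i, h, h'⟩ := hf
  refine ⟨fun j => if j = i then (f j - 1) / 2 else f j / 2,
    fun j => if j = i then (f j + 1) / 2 else f j / 2, fun e => ?_,
    ⟨i, by simp only [if_true]; omega, fun j c => ?_⟩,
    ⟨i, by simp only [if_true]; omega, fun j c => ?_⟩, ?_⟩
  · have := congrFun e i
    simp only [if_true] at this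
    omega
  · have := h' j c; simp only [if_neg c]; omega
  · have := h' j c; simp only [if_neg c]; omega
  · rintro r ⟨k, a, b⟩
    obtain rfl : k = i := by
      by_contra c
      have := h' k c
      omega
    refine a.imp (fun a => funext fun j => ?_) fun a => funext fun j => ?_ <;> by_cases c : j = k
    · subst c; simp only [if_true]; omega
    · have := b j c; simp only [if_neg c]; omega
    · subst c; simp only [if_true]; omega
    · have := b j c; simp only [if_neg c]; omega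

theorem Bx_any (hf : IsFace f) (n : ℕ) : Bx n f ⊆ AnyH n := fun _ hx =>
  let ⟨i, h, _⟩ := hf
  ⟨i, f i, h, lat_odd hx h⟩

theorem two_cubes (hp : x ∈ cube n p) (hq : x ∈ cube n q) (h : p ≠ q) (h1 : x ∈ One n) :
    ∃ f, Adj p f ∧ Adj q f ∧ x ∈ Bx n f := by
  obtain ⟨i, hi⟩ := Function.ne_iff.1 h
  obtain ⟨a, b⟩ := lat_two hi (lat_cube.1 hp i) (lat_cube.1 hq i)
  obtain ⟨c, d⟩ := lat_mk hp i (m := p i + q i) (by omega) a
  refine ⟨_, c, ⟨i, by simp only [if_true]; omega, fun j hj => ?_⟩, d⟩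
  simp only [if_neg hj]
  by_contra e
  obtain ⟨a', b'⟩ := lat_two (a := p j) (b := q j) (by omega) (lat_cube.1 hp j) (lat_cube.1 hq j)
  exact hj (h1 j i ⟨_, by omega, a'⟩ ⟨_, by omega, a⟩)

theorem face_of_any (hp : x ∈ cube n p) (h : x ∈ AnyH n) (h1 : x ∈ One n) :
    ∃ f, Adj p f ∧ x ∈ Bx n f := by
  obtain ⟨i, m, hm, ht⟩ := h
  exact ⟨_, lat_mk hp i (lat_in hm ht (lat_cube.1 hp i)) ht⟩

theorem face_uniq (hf : IsFace f) (hg : IsFace g) (xf : x ∈ Bx n f) (xg : x ∈ Bx n g)
    (h1 : x ∈ One n) : f = g := by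
  obtain ⟨i, a, a'⟩ := hf
  obtain ⟨k, b, b'⟩ := hg
  have hi : Hp n (x i) := ⟨_, a, lat_odd xf a⟩
  obtain rfl : k = i := h1 k i ⟨_, b, lat_odd xg b⟩ hi
  funext j
  by_cases c : j = k
  · subst c
    exact_mod_cast (lat_odd xf a).symm.trans (lat_odd xg b)
  · by_contra e
    have u := a' j c
    have v := b' j c
    have u1 := lat_le xf j
    have v1 := lat_le xg j
    rw [show f j = 2 * (f j / 2) by omega] at u1
    rw [show g j = 2 * (g j / 2) by omega] at v1
    rw [Int.cast_mul, Int.cast_ofNat] at u1 v1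
    obtain ⟨w, w'⟩ := lat_two (by omega) u1 v1
    exact c (h1 j k ⟨_, by omega, w⟩ hi)

theorem adj_of_mem (hf : IsFace f) (xf : x ∈ Bx n f) (hp : x ∈ cube n p) (h1 : x ∈ One n) :
    Adj p f := by
  obtain ⟨g, a, b⟩ := face_of_any hp (Bx_any hf n xf) h1
  rwa [face_uniq hf a.face xf b h1]

theorem any_other (hp : x ∈ cube n p) (h : x ∈ AnyH n) : ∃ q, q ≠ p ∧ x ∈ cube n q := by
  obtain ⟨i, m, hm, ht⟩ := h
  have a := lat_in hm ht (lat_cube.1 hp i)
  refine ⟨fun j => if j = i then m - p i else p j, fun e => ?_, lat_cube.2 fun j => ?_⟩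
  · have := congrFun e i
    simp only [if_true] at this
    omega
  · by_cases c : j = i
    · subst c
      simp only [if_true, ht]
      rcases a with rfl | rfl <;> push_cast <;> constructor <;> linarith
    · simp only [if_neg c]; exact lat_cube.1 hp j

theorem other_any (hp : x ∈ cube n p) (hq : x ∈ cube n q) (h : p ≠ q) : x ∈ AnyH n := by
  obtain ⟨i, hi⟩ := Function.ne_iff.1 h
  obtain ⟨a, b⟩ := lat_two hi (lat_cube.1 hp i) (lat_cube.1 hq i)
  exact ⟨i, _, by omega, a⟩

theorem Kid.sub (h : Kid p q) (n : ℕ) : cube (n + 1) q ⊆ cube n p := by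
  refine fun x hx => lat_cube.2 fun i => ?_
  have a := lat_cube.1 hx i
  obtain ⟨b, c⟩ := abs_le.1 (h i)
  have b' : (-1 : ℝ) ≤ q i - 3 * p i := by exact_mod_cast b
  have c' : (q i : ℝ) - 3 * p i ≤ 1 := by exact_mod_cast c
  rw [lat_s] at a
  constructor <;> linarith [a.1, a.2]

theorem Kid.uniq {p' : V} (h : Kid p q) (h' : Kid p' q) : p = p' := funext fun i => by
  have a := abs_le.1 (h i)
  have b := abs_le.1 (h' i)
  omega

theorem kid_finite (p : V) : {q | Kid p q}.Finite := by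
  refine (Set.finite_Icc (fun i => 3 * p i - 1) fun i => 3 * p i + 1).subset fun q h => ?_
  refine ⟨fun j => ?_, fun j => ?_⟩ <;> have := abs_le.1 (h j) <;> dsimp only <;> omega

theorem kid_cover (hp : x ∈ cube n p) : ∃ q, Kid p q ∧ x ∈ cube (n + 1) q := by
  choose q a b using fun i => lat_kid (lat_cube.1 hp i)
  exact ⟨q, a, lat_cube.2 fun i => by rw [lat_s]; exact b i⟩

/-- a point of the cube of `p` in a small cube that is not a child lies on the rim -/
theorem not_kid (hp : x ∈ cube n p) (hq : x ∈ cube (n + 1) q) (h : ¬ Kid p q) : x ∈ AnyH n := by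
  obtain ⟨i, hi⟩ := not_forall.1 h
  have a := lat_cube.1 hp i
  have b := lat_cube.1 hq i
  rw [lat_s] at b
  rw [abs_le] at hi
  rcases (show 3 * p i + 2 ≤ q i ∨ q i + 2 ≤ 3 * p i by omega) with c | c
  · have c' : 3 * (p i : ℝ) + 2 ≤ q i := by exact_mod_cast c
    exact ⟨i, 2 * p i + 1, by omega, by push_cast; linarith [a.2, b.1]⟩
  · have c' : (q i : ℝ) + 2 ≤ 3 * p i := by exact_mod_cast c
    exact ⟨i, 2 * p i - 1, by omega, by push_cast; linarith [a.1, b.2]⟩

theorem any_not_kid (hp : x ∈ cube n p) (h : x ∈ AnyH n) :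
    ∃ q, ¬ Kid p q ∧ x ∈ cube (n + 1) q := by
  obtain ⟨i, m, hm, ht⟩ := h
  have a := lat_in hm ht (lat_cube.1 hp i)
  obtain ⟨q, -, hq⟩ := kid_cover hp
  refine ⟨fun j => if j = i then 2 * m - p i else q j, fun e => ?_, lat_cube.2 fun j => ?_⟩
  · have := abs_le.1 (e i)
    simp only [if_true] at this
    omega
  · by_cases c : j = i
    · subst c
      simp only [if_true, lat_s, ht]
      rcases a with rfl | rfl <;> push_cast <;> constructor <;> linarith
    · simp only [if_neg c]; exact lat_cube.1 hq j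

/-- a face of a child is shared with another child or lies in a face of the parent -/
theorem kid_face (h : Kid p q) (hg : Adj q g) (n : ℕ) :
    (∃ q', q' ≠ q ∧ Kid p q' ∧ Adj q' g ∧ Disjoint (Bx (n + 1) g ∩ One (n + 1)) (AnyH n)) ∨
      ∃ f, Adj p f ∧ Bx (n + 1) g ⊆ Bx n f ∧ ∀ q', Adj q' g → q' ≠ q → ∀ p', Kid p' q' →
        p' ≠ p ∧ Adj p' f := by
  obtain ⟨i, a, b⟩ := hg
  have k := abs_le.1 (h i)
  by_cases c : g i = 6 * p i + 1 ∨ g i = 6 * p i - 1
  · refine Or.inl ⟨fun j => if j = i then g i - q i else q j, fun e => ?_, fun j => ?_,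
      ⟨i, by simp only [if_true]; omega, fun j hj => by simp only [if_neg hj]; exact b j hj⟩,
      Set.disjoint_left.2 ?_⟩
    · have := congrFun e i
      simp only [if_true] at this
      omega
    · by_cases d : j = i
      · subst d; simp only [if_true, abs_le]; omega
      · simp only [if_neg d]; exact h j
    · rintro x ⟨hx, h1⟩ ⟨j, hj⟩
      have u := lat_odd hx (i := i) (by omega)
      obtain rfl : j = i := h1 j i (Hp_succ hj) ⟨_, by omega, u⟩
      obtain ⟨m, -, hm⟩ := hj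
      rw [lat_s, hm] at u
      have : 3 * m = g j := by exact_mod_cast u
      omega
  · have c' : g i = 6 * p i + 3 ∨ g i = 6 * p i - 3 := by omega
    refine Or.inr ⟨fun j => if j = i then g i / 3 else 2 * p j,
      ⟨i, by simp only [if_true]; omega, fun j hj => if_neg hj⟩, fun x hx => ?_, ?_⟩
    · have u := lat_odd hx (i := i) (by omega)
      rw [lat_s, show g i = 3 * (g i / 3) by omega, Int.cast_mul, Int.cast_ofNat] at u
      exact (lat_mk (h.sub n (Adj.sub ⟨i, a, b⟩ _ hx)) i (by omega) (by linarith)).2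
    · rintro q' ⟨l, a', b'⟩ hne p' h'
      obtain rfl : l = i := by
        by_contra d
        have := b l d
        omega
      have same : ∀ j, j ≠ l → q' j = q j := fun j hj => by
        have := b j hj
        have := b' j hj
        omega
      have ne : q' l ≠ q l := fun e => hne (funext fun j => by
        by_cases d : j = l
        · rw [d, e]
        · exact same j d)
      have k' := abs_le.1 (h' l)
      refine ⟨fun e => ?_, l, by simp only [if_true]; omega, fun j hj => ?_⟩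
      · rw [e] at k'; omega
      · have := same j hj
        have := abs_le.1 (h j)
        have := abs_le.1 (h' j)
        simp only [if_neg hj]
        omega

theorem cube_diam (hx : x ∈ cube n p) {y : X} (hy : y ∈ cube n p) : dist x y ≤ 1 / 3 ^ n := by
  have h3 : (0 : ℝ) < 3 ^ n := by positivity
  refine (dist_pi_le_iff (by positivity)).2 fun i => ?_
  have a := lat_cube.1 hx i
  have b := lat_cube.1 hy i
  rw [Real.dist_eq, le_div_iff₀ h3, ← abs_of_pos h3, ← abs_mul, abs_le]
  constructor <;> linarith [a.1, a.2, b.1, b.2]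

theorem ch_kid (n : ℕ) (p : V) {c : ℕ} (hc : c ∈ codes 3) : Kid p (ch n p c) := fun i => by
  have a := (lat_dg c hc).1 i
  rcases lat_o n (p i) with e | e <;> simp only [ch, e, abs_le] <;> omega

theorem kid_ch (h : Kid p q) (n : ℕ) : ∃ c ∈ codes 3, q = ch n p c := by
  have key : ∀ i, ∃ d : ℕ, d < 3 ∧ q i = 3 * p i + o n (p i) * ((d : ℤ) - 1) := fun i => by
    have a := abs_le.1 (h i)
    rcases lat_o n (p i) with e | e <;> rw [e]
    · exact ⟨(q i - 3 * p i + 1).toNat, by omega, by omega⟩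
    · exact ⟨(3 * p i - q i + 1).toNat, by omega, by omega⟩
  choose d a b using key
  obtain ⟨u, u0, u1, u2⟩ := lat_enc _ (a 0) _ (a 1) _ (a 2)
  refine ⟨_, u, funext fun i => (b i).trans ?_⟩
  have : dg (enc (d 0) (d 1) (d 2)) i = d i := by fin_cases i; exacts [u0, u1, u2]
  simp only [ch, this]

theorem ch_inj {c d : ℕ} (hc : c ∈ codes 3) (hd : d ∈ codes 3) (h : ch n p c = ch n p d) : c = d :=
  lat_inj hc hd fun i => by
    have a := congrFun h i
    rcases lat_o n (p i) with e | e <;> simp only [ch, e] at a <;> omega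

/-- codes of the six faces -/
def dirs : List ℕ := [9, 137, 65, 81, 72, 74]
theorem lat_dirs : ∀ c ∈ dirs, c ∈ codes 3 ∧ (∀ i, dg (3 * c) i = 3 * dg c i) ∧
    ∃ i, (dg c i = 0 ∨ dg c i = 2) ∧ ∀ j, j ≠ i → dg c j = 1 := by
  decide +kernel

theorem lat_dirs' : ∀ i, ∀ s ∈ [0, 2], ∃ c ∈ dirs, dg c i = s ∧ ∀ j, j ≠ i → dg c j = 1 := by
  decide +kernel

theorem adj_fc (n : ℕ) (p : V) {c : ℕ} (hc : c ∈ dirs) : Adj p (fc n p c) := by
  obtain ⟨-, -, i, a, b⟩ := lat_dirs c hc
  refine ⟨i, ?_, fun j hj => by simp [fc, b j hj]⟩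
  rcases lat_o n (p i) with e | e <;> simp only [fc, e] <;> omega

theorem fc_adj (h : Adj p f) (n : ℕ) : ∃ c ∈ dirs, f = fc n p c := by
  obtain ⟨i, a, b⟩ := h
  obtain ⟨s, hs, e⟩ : ∃ s : ℕ, s ∈ [0, 2] ∧ f i = 2 * p i + o n (p i) * ((s : ℤ) - 1) := by
    rcases lat_o n (p i) with e | e <;> rw [e] <;> rcases a with a | a
    exacts [⟨2, by simp, by omega⟩, ⟨0, by simp, by omega⟩, ⟨0, by simp, by omega⟩,
      ⟨2, by simp, by omega⟩]
  obtain ⟨c, hc, u, v⟩ := lat_dirs' i s hs
  refine ⟨c, hc, funext fun j => ?_⟩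
  by_cases d : j = i
  · subst d; simp only [fc, u, e]
  · simp [fc, v j d, b j d]

theorem fc_inj {c d : ℕ} (hc : c ∈ dirs) (hd : d ∈ dirs) (h : fc n p c = fc n p d) : c = d :=
  lat_inj (lat_dirs c hc).1 (lat_dirs d hd).1 fun i => by
    have a := congrFun h i
    rcases lat_o n (p i) with e | e <;> simp only [fc, e] at a <;> omega

theorem mid_fc (n : ℕ) (p : V) {c : ℕ} (hc : c ∈ dirs) : mid (fc n p c) = sb n p (3 * c) :=
  funext fun i => by
    simp only [mid, fc, sb, (lat_dirs c hc).2.1 i]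
    push_cast
    ring

/-- code of the landing subface -/
def lndC (c : ℕ) : ℕ := lk [9, 393, 65, 113, 72, 78] (dirs.idxOf c)
theorem lat_lnd : ∀ c ∈ dirs, ∀ i, (dg c i = 1 ∧ dg (lndC c) i = 1) ∨
    ((dg c i = 0 ∨ dg c i = 2) ∧ dg (lndC c) i = 3 * dg c i) := by
  decide +kernel

theorem land_fc (n : ℕ) (p : V) {c : ℕ} (hc : c ∈ dirs) : land n (fc n p c) = sb n p (lndC c) :=
  funext fun i => by
    rcases lat_lnd c hc i with ⟨a, b⟩ | ⟨a, b⟩
    · have e : fc n p c i = 2 * p i := by simp [fc, a]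
      simp only [land, sb, e, b]
      rw [if_neg (by omega), show 2 * p i / 2 = p i by omega]
      push_cast
      ring
    · have e : fc n p c i % 2 = 1 := by
        rcases lat_o n (p i) with e | e <;> simp only [fc, e] <;> omega
      simp only [land, if_pos e]
      simp only [fc, sb, b]
      push_cast
      ring

/-- the subface with code `e` is a face of the child with code `c` -/
def adjC (c e : ℕ) : Bool := (dirs.map fun d => 2 * c + d).elem e
theorem lat_adjC : ∀ c ∈ codes 3, ∀ d ∈ dirs, 2 * c + d ∈ codes 7 ∧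
    ∀ i, dg (2 * c + d) i = 2 * dg c i + dg d i := by
  decide +kernel

theorem adjC_ok (n : ℕ) (p : V) {c e : ℕ} (hc : c ∈ codes 3) (h : adjC c e = true) :
    e ∈ codes 7 ∧ Adj (ch n p c) (sb n p e) := by
  obtain ⟨d, hd, rfl⟩ := List.mem_map.1 (List.mem_of_elem_eq_true h)
  obtain ⟨a, b⟩ := lat_adjC c hc d hd
  obtain ⟨-, -, i, u, v⟩ := lat_dirs d hd
  refine ⟨a, i, ?_, fun j hj => ?_⟩
  · rcases lat_o n (p i) with e | e <;> simp only [ch, sb, e, b] <;> omega
  · simp only [ch, sb, b, v j hj]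
    push_cast
    ring

end Pool.Agent.Lib.MP_b7d179_gt.M
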