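import Pool.Agent.Lib.MP_b7d179_gt.M.Brid1
import Pool.Agent.Lib.MP_b7d179_gt.M.Lat

/-! Masks of planes, boxes and unions of children in a window. -/

namespace Pool.Agent.Lib.MP_b7d179_gt.M

open Set C

variable (n : ℕ) (p : V)

theorem br_pd : ∀ k < 8, ∀ i j : Fin 3, dg (k * 8 ^ (2 - (i : ℕ))) j = (if j = i then k else 0) ∧
    dg (511 - (7 - k) * 8 ^ (2 - (i : ℕ))) j = if j = i then k else 7 := by decide

theorem br_tb : ∀ k < 8, -18 ≤ tb k ∧ tb k ≤ 18 := fun k h => by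
  interval_cases k <;> simp only [tb] <;> norm_num

theorem br_pl {l : List ℕ} (hl : ∀ k ∈ l, k < 8) {m : ℕ}
    (h : ∀ p t, -18 ≤ brS n p t ∧ brS n p t ≤ 18 → (Hp m t ↔ ∃ k ∈ l, brS n p t = tb k)) (i : Fin 3) :
    W n p (mPl l (8 ^ (2 - (i : ℕ)))) = cube n p ∩ {x | Hp m (x i)} := by
  have key : ∀ k ∈ l, ∀ x, x ∈ W n p (bm (k * 8 ^ (2 - (i : ℕ))) (511 - (7 - k) * 8 ^ (2 - (i : ℕ)))) ↔
      x ∈ cube n p ∧ brS n (p i) (x i) = tb k := fun k hk x => by
    have e := br_pd k (hl k hk) i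
    have b := br_tb k (hl k hk)
    rw [mem_bm n p fun j => by rw [(e j).1, (e j).2]; split_ifs <;> omega, br_cube]
    simp only [br_sc, (e _).1, (e _).2]
    refine ⟨fun a => ⟨fun j => ?_, ?_⟩, fun a j => ?_⟩
    · have := a j
      split_ifs at this
      · exact ⟨b.1.trans this.1, this.2.trans b.2⟩
      · simpa [tb] using this
    · have := a i
      rw [if_pos rfl, if_pos rfl] at this
      exact this.2.antisymm this.1
    · split_ifs with e
      · rw [e, a.2]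
        exact ⟨le_rfl, le_rfl⟩
      · simpa [tb] using a.1 j
  ext x
  rw [mPl, (W_rl n p).orL]
  simp only [mem_ofPred_eq, List.mem_map, mem_inter_iff]
  constructor
  · rintro ⟨_, ⟨k, hk, rfl⟩, hx⟩
    obtain ⟨a, b⟩ := (key k hk x).1 hx
    exact ⟨a, (h _ _ ((br_cube n p x).1 a i)).2 ⟨k, hk, b⟩⟩
  · rintro ⟨a, b⟩
    obtain ⟨k, hk, e⟩ := (h _ _ ((br_cube n p x).1 a i)).1 b
    exact ⟨_, ⟨k, hk, rfl⟩, (key k hk x).2 ⟨a, e⟩⟩

theorem br_any {l : List ℕ} {m : ℕ}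
    (h : ∀ i : Fin 3, W n p (mPl l (8 ^ (2 - (i : ℕ)))) = cube n p ∩ {x | Hp m (x i)}) :
    W n p (mAny l) = cube n p ∩ AnyH m ∧ W n p (mOne l) = cube n p ∩ One m := by
  have r := W_rl n p
  have h0 : W n p (mPl l 64) = _ := h 0
  have h1 : W n p (mPl l 8) = _ := h 1
  have h2 : W n p (mPl l 1) = _ := h 2
  constructor
  · rw [mAny, r.or, r.or, h0, h1, h2]
    ext x
    simp only [AnyH, mem_union, mem_inter_iff, mem_ofPred_eq, Fin.exists_fin_succ, Fin.succ_zero_eq_one,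
      Fin.succ_one_eq_two, IsEmpty.exists_iff]
    tauto
  · rw [mOne, r.df, r.or, r.or, r.and, r.and, r.and, h0, h1, h2, W_all]
    ext x
    simp only [One, mem_sdiff, mem_union, mem_inter_iff, mem_ofPred_eq, Fin.forall_fin_succ,
      Fin.succ_zero_eq_one, Fin.succ_one_eq_two, IsEmpty.forall_iff]
    by_cases a : Hp m (x 0) <;> by_cases b : Hp m (x 1) <;> by_cases c : Hp m (x 2) <;> simp [a, b, c]

theorem br_H0 (p : ℤ) (t : ℝ) (h : -18 ≤ brS n p t ∧ brS n p t ≤ 18) :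
    Hp n t ↔ ∃ k ∈ h0, brS n p t = tb k := by
  have e : ∀ m : ℤ, 2 * 3 ^ n * t = m ↔ brS n p t = 18 * (o n p : ℝ) * (m - 2 * p) := fun m => by
    rcases o_cases n p with e | e <;> simp only [brS, e] <;> push_cast <;>
      exact ⟨fun k => by linarith, fun k => by linarith⟩
  simp only [Hp, e, h0, tb]
  norm_num
  constructor
  · rintro ⟨m, a, b⟩
    rw [b] at h ⊢
    rcases o_cases n p with e | e <;> simp only [e] at h ⊢ <;> norm_cast at h ⊢ <;> omega
  · rcases o_cases n p with e | e <;> rintro (b | b) <;> rw [b, e]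
    exacts [⟨2 * p - 1, by omega, by push_cast; ring⟩, ⟨2 * p + 1, by omega, by push_cast; ring⟩,
      ⟨2 * p + 1, by omega, by push_cast; ring⟩, ⟨2 * p - 1, by omega, by push_cast; ring⟩]

theorem br_H1 (p : ℤ) (t : ℝ) (h : -18 ≤ brS n p t ∧ brS n p t ≤ 18) :
    Hp (n + 1) t ↔ ∃ k ∈ h1, brS n p t = tb k := by
  have e : ∀ m : ℤ, 2 * 3 ^ (n + 1) * t = m ↔ brS n p t = 6 * (o n p : ℝ) * (m - 6 * p) := fun m => by
    rcases o_cases n p with e | e <;> simp only [brS, e, pow_succ] <;> push_cast <;>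
      exact ⟨fun k => by linarith, fun k => by linarith⟩
  simp only [Hp, e, h1, tb]
  norm_num
  constructor
  · rintro ⟨m, a, b⟩
    rw [b] at h ⊢
    rcases o_cases n p with e | e <;> simp only [e] at h ⊢ <;> norm_cast at h ⊢ <;> omega
  · rcases o_cases n p with e | e <;> rintro (b | b | b | b) <;> rw [b, e]
    exacts [⟨6 * p - 3, by omega, by push_cast; ring⟩, ⟨6 * p - 1, by omega, by push_cast; ring⟩,
      ⟨6 * p + 1, by omega, by push_cast; ring⟩, ⟨6 * p + 3, by omega, by push_cast; ring⟩,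
      ⟨6 * p + 3, by omega, by push_cast; ring⟩, ⟨6 * p + 1, by omega, by push_cast; ring⟩,
      ⟨6 * p - 1, by omega, by push_cast; ring⟩, ⟨6 * p - 3, by omega, by push_cast; ring⟩]

theorem W_any0 : W n p (mAny h0) = cube n p ∩ AnyH n := (br_any n p (br_pl n p (by decide) (br_H0 n))).1
theorem W_any1 : W n p (mAny h1) = cube n p ∩ AnyH (n + 1) :=
  (br_any n p (br_pl n p (by decide) (br_H1 n))).1
theorem W_one0 : W n p (mOne h0) = cube n p ∩ One n := (br_any n p (br_pl n p (by decide) (br_H0 n))).2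
theorem W_one1 : W n p (mOne h1) = cube n p ∩ One (n + 1) :=
  (br_any n p (br_pl n p (by decide) (br_H1 n))).2

theorem W_sb {c : ℕ} (hc : c ∈ codes 7) : W n p (mSb c) = Bx (n + 1) (sb n p c) := by
  ext x
  rw [mSb, br_tbx n p (by decide)]
  refine forall_congr' fun i => ?_
  have h := br_dlt (by norm_num) hc i
  have v : sb n p c i % 2 = 0 ↔ dg c i % 2 = 1 := by
    rw [sb]
    rcases o_cases n (p i) with e | e <;> rw [e] <;> omega
  simp only [v]
  simp only [sb, brS, abs_le, pow_succ]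
  generalize dg c i = d at h
  rcases o_cases n (p i) with e | e <;> rw [e] <;> interval_cases d <;> simp only [tb, lk] <;> norm_num <;>
    exact ⟨fun k => ⟨by linarith [k.1, k.2], by linarith [k.1, k.2]⟩,
      fun k => ⟨by linarith [k.1, k.2], by linarith [k.1, k.2]⟩⟩

theorem W_ch {c : ℕ} (hc : c ∈ codes 3) : W n p (mCh c) = cube (n + 1) (ch n p c) := by
  ext x
  rw [mCh, br_tbx n p (by decide)]
  refine forall_congr' fun i => ?_
  have h := br_dlt (by norm_num) hc i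
  rw [if_pos (show 2 * ch n p c i % 2 = 0 by omega)]
  simp only [ch, brS, abs_le, pow_succ]
  generalize dg c i = d at h
  rcases o_cases n (p i) with e | e <;> rw [e] <;> interval_cases d <;> simp only [tb, lk] <;> norm_num <;>
    exact ⟨fun k => ⟨by linarith [k.1, k.2], by linarith [k.1, k.2]⟩,
      fun k => ⟨by linarith [k.1, k.2], by linarith [k.1, k.2]⟩⟩

theorem W_fc {c : ℕ} (hc : c ∈ codes 3) : W n p (mFc c) = Bx n (fc n p c) := by
  ext x
  rw [mFc, br_tbx n p (by decide)]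
  refine forall_congr' fun i => ?_
  have h := br_dlt (by norm_num) hc i
  have v : fc n p c i % 2 = 0 ↔ dg c i % 2 = 1 := by
    rw [fc]
    rcases o_cases n (p i) with e | e <;> rw [e] <;> omega
  simp only [v]
  simp only [fc, brS, abs_le]
  generalize dg c i = d at h
  rcases o_cases n (p i) with e | e <;> rw [e] <;> interval_cases d <;> simp only [tb, lk] <;> norm_num <;>
    exact ⟨fun k => ⟨by linarith [k.1, k.2], by linarith [k.1, k.2]⟩,
      fun k => ⟨by linarith [k.1, k.2], by linarith [k.1, k.2]⟩⟩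

theorem W_top : W n p (mTop (ty n p)) = Top n p := by
  rw [mTop, (W_rl n p).and, (W_rl n p).and, W_Nb, W_Mb, W_N1]
  ext x
  simp only [Top, Flat, mem_inter_iff]
  tauto

theorem K_mK : K ∩ cube n p ⊆ W n p (mK (ty n p)) := by
  rw [mK, (W_rl n p).and, (W_rl n p).df, W_N1, W_M1, W_one1]
  exact fun x ⟨a, b⟩ => ⟨⟨⟨b, K_sub_N _ a⟩, fun k => disjoint_left.1 (K_M _) a k.2⟩, b, K_One _ a⟩

theorem br_U {A : List ℕ} (hA : ∀ c ∈ A, c ∈ codes 3) (x : X) :
    x ∈ W n p (mU A) ↔ ∃ c ∈ A, x ∈ cube (n + 1) (ch n p c) := by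
  rw [mU, (W_rl n p).orL]
  simp only [mem_ofPred_eq, List.mem_map]
  exact ⟨fun ⟨_, ⟨c, a, rfl⟩, b⟩ => ⟨c, a, W_ch n p (hA c a) ▸ b⟩,
    fun ⟨c, a, b⟩ => ⟨_, ⟨c, a, rfl⟩, (W_ch n p (hA c a)).symm ▸ b⟩⟩

theorem W_BA {A : List ℕ} (hA : ∀ c ∈ A, c ∈ codes 3) :
    W n p (mBA (mN1 (ty n p)) A) = BA (n + 1) (chS n p A) := by
  rw [mBA, (W_rl n p).and, W_N1]
  ext x
  rw [mem_inter_iff, br_U n p hA]
  exact ⟨fun ⟨a, c, b, e⟩ => ⟨a.2, _, ⟨c, b, rfl⟩, e⟩,
    fun ⟨a, _, ⟨c, b, rfl⟩, e⟩ => ⟨⟨(ch_kid n p (hA c b)).sub n e, a⟩, c, b, e⟩⟩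

theorem W_SA {A : List ℕ} (hA : ∀ c ∈ A, c ∈ codes 3) :
    W n p (mSA (mN1 (ty n p)) (mM1 (ty n p)) A) = SA (n + 1) (chS n p A) := by
  have r := W_rl n p
  ext x
  rw [mSA, r.and, r.or, r.or, W_M1, W_any0, SA, mem_ofPred_eq, ← W_BA n p hA, mem_inter_iff]
  refine and_congr_right fun hx => ?_
  have hp := W_cube n p _ hx
  rw [mem_union, mem_union, br_U n p fun c a => (List.mem_filter.1 a).1]
  refine or_congr (and_iff_right hp) ⟨?_, fun ⟨q, a, b⟩ => ?_⟩
  · rintro (k | ⟨c, a, b⟩)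
    · obtain ⟨q, a, b⟩ := any_not_kid hp k.2
      exact ⟨q, fun ⟨c, e, e'⟩ => a (e' ▸ ch_kid n p (hA c e)), b⟩
    · obtain ⟨a1, a2⟩ := List.mem_filter.1 a
      refine ⟨_, fun ⟨d, e, e'⟩ => ?_, b⟩
      rw [ch_inj a1 (hA d e) e'] at a2
      simp [e] at a2
  · by_cases k : Kid p q
    · obtain ⟨c, e, rfl⟩ := kid_ch k n
      exact .inr ⟨c, List.mem_filter.2 ⟨e, by simpa using fun k => a ⟨c, k, rfl⟩⟩, b⟩
    · exact .inl ⟨hp, not_kid hp b k⟩

end Pool.Agent.Lib.MP_b7d179_gt.M
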