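import Pool.Agent.Lib.MP_b7d179_gt.M.Win
import Pool.Agent.Lib.MP_b7d179_gt.M.Arith

/-! Masks of the retained and removed cubes in a window. -/

namespace Pool.Agent.Lib.MP_b7d179_gt.M

open Set C

/-- the scaled coordinate -/
noncomputable def brS (n : ℕ) (p : ℤ) (t : ℝ) : ℝ := 12 * (o n p : ℝ) * (3 * (3 ^ n * t) - 3 * p)

theorem br_sc (n : ℕ) (p : V) (x : X) (i : Fin 3) : sc n p x i = brS n (p i) (x i) := by
  rw [sc, brS, pow_succ]; ring

theorem br_dg (c : ℕ) : c / 64 % 8 = dg c 0 ∧ c / 8 % 8 = dg c 1 ∧ c % 8 = dg c 2 := by simp [dg]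

theorem br_lt (c : ℕ) (i : Fin 3) : dg c i < 8 := Nat.mod_lt _ (by norm_num)

theorem br_enc {d : Fin 3 → ℕ} (h : ∀ i, d i < 8) (i : Fin 3) : dg (enc (d 0) (d 1) (d 2)) i = d i := by
  have h0 := h 0
  have h1 := h 1
  have h2 := h 2
  fin_cases i <;> simp [dg, enc] <;> omega

theorem br_codes {k c : ℕ} : c ∈ codes k ↔ ∃ d : Fin 3 → ℕ, (∀ i, d i < k) ∧ c = enc (d 0) (d 1) (d 2) := by
  simp only [codes, List.mem_flatMap, List.mem_map, List.mem_range]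
  exact ⟨fun ⟨a, ha, b, hb, e, he, k⟩ => ⟨![a, b, e], fun i => by fin_cases i <;> assumption, k.symm⟩,
    fun ⟨d, h, k⟩ => ⟨_, h 0, _, h 1, _, h 2, k.symm⟩⟩

theorem br_dlt {k c : ℕ} (hk : k ≤ 8) (hc : c ∈ codes k) (i : Fin 3) : dg c i < k := by
  obtain ⟨d, h, rfl⟩ := br_codes.1 hc
  rw [br_enc fun i => (h i).trans_le hk]
  exact h i

theorem br_be {n : ℕ} {a : ℤ} {t : ℝ} : (be n a ≤ t ↔ (a : ℝ) + (o n a : ℝ) / 12 ≤ 3 ^ n * t) ∧
    (t ≤ be n a ↔ 3 ^ n * t ≤ (a : ℝ) + (o n a : ℝ) / 12) := by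
  rw [be, div_le_iff₀' (by positivity), le_div_iff₀' (by positivity)]
  exact ⟨Iff.rfl, Iff.rfl⟩

theorem br_o (n : ℕ) (a : ℤ) : (-1 : ℝ) ≤ o n a ∧ (o n a : ℝ) ≤ 1 := by
  rcases o_cases n a with h | h <;> simp [h]

variable (n : ℕ) (p : V)

theorem br_cube (x : X) : x ∈ cube n p ↔ ∀ i, -18 ≤ brS n (p i) (x i) ∧ brS n (p i) (x i) ≤ 18 := by
  rw [← W_all, mAll, mem_bm n p (by decide)]
  refine forall_congr' fun i => ?_
  rw [br_sc, show dg 0 i = 0 by revert i; decide, show dg 511 i = 7 by revert i; decide]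
  simp [tb]

theorem br_tbx {lo hi : List ℕ} (h : ∀ d < 8, lk lo d ≤ lk hi d ∧ lk hi d < 8) (c : ℕ) (x : X) :
    x ∈ W n p (tbx lo hi c) ↔
      ∀ i, tb (lk lo (dg c i)) ≤ brS n (p i) (x i) ∧ brS n (p i) (x i) ≤ tb (lk hi (dg c i)) := by
  have e1 := br_enc (d := fun i => lk lo (dg c i)) fun i => (h _ (br_lt c i)).1.trans_lt (h _ (br_lt c i)).2
  have e2 := br_enc (d := fun i => lk hi (dg c i)) fun i => (h _ (br_lt c i)).2
  rw [tbx, (br_dg c).1, (br_dg c).2.1, (br_dg c).2.2, mem_bm n p fun i => by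
    rw [e1, e2]; exact (h _ (br_lt c i)).1]
  simp only [e1, e2, br_sc]

theorem br_cells {lo hi : List ℕ} (h : ∀ d < 8, lk lo d ≤ lk hi d ∧ lk hi d < 8) {k : ℕ} (hk : k ≤ 8)
    {I : ℤ → ℝ → Prop} {g : ℤ → ℕ → ℤ}
    (h1 : ∀ p t, ∀ d < k, tb (lk lo d) ≤ brS n p t ∧ brS n p t ≤ tb (lk hi d) ↔
      (-18 ≤ brS n p t ∧ brS n p t ≤ 18) ∧ I (g p d) t)
    (h2 : ∀ p t a, -18 ≤ brS n p t ∧ brS n p t ≤ 18 → I a t → ∃ d < k, a = g p d)
    {R : V → Prop} {r : ℕ → Bool} (h3 : ∀ c ∈ codes k, r c = true ↔ R fun i => g (p i) (dg c i)) :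
    W n p (orL (((codes k).filter r).map (tbx lo hi))) =
      cube n p ∩ {x | ∃ a, R a ∧ ∀ i, I (a i) (x i)} := by
  ext x
  rw [(W_rl n p).orL]
  simp only [mem_ofPred_eq, List.mem_map, List.mem_filter, mem_inter_iff, br_cube]
  constructor
  · rintro ⟨_, ⟨c, ⟨hc, hr⟩, rfl⟩, hx⟩
    have := fun i => (h1 _ _ _ (br_dlt hk hc i)).1 ((br_tbx n p h c x).1 hx i)
    exact ⟨fun i => (this i).1, _, (h3 c hc).1 hr, fun i => (this i).2⟩
  · rintro ⟨hx, a, ha, hI⟩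
    choose d hd e using fun i => h2 _ _ _ (hx i) (hI i)
    have hc := br_codes.2 ⟨d, hd, rfl⟩
    have e1 := br_enc fun i => (hd i).trans_le hk
    refine ⟨_, ⟨_, ⟨hc, (h3 _ hc).2 ?_⟩, rfl⟩, (br_tbx n p h _ x).2 fun i => ?_⟩
    · simpa only [e1, ← e] using ha
    · rw [e1]
      exact (h1 _ _ _ (hd i)).2 ⟨hx i, e i ▸ hI i⟩

/-- the small cube with a given digit -/
def brG (n : ℕ) (p : ℤ) (d : ℕ) : ℤ := if o n p = 1 then 3 * p + d - 2 else 3 * p + 1 - d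

/-- the big cube with a given digit -/
def brF (n : ℕ) (p : ℤ) (d : ℕ) : ℤ := if o n p = 1 then p + d - 1 else p - d

theorem br_o1 (p : ℤ) : o (n + 1) (3 * p - 2) = 1 ∧ o (n + 1) (3 * p - 1) = -1 ∧
    o (n + 1) (3 * p + 1) = 1 ∧ o (n + 1) (3 * p + 2) = -1 := by
  refine ⟨if_pos (by omega), ?_, if_pos (by omega), ?_⟩ <;>
    exact (if_neg (by omega)).trans (if_pos (by omega))

theorem br_int {a b : ℤ} (h : (a : ℝ) < b + 1) : a ≤ b := by
  have : a < b + 1 := by exact_mod_cast h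
  omega

theorem br_G1 (p : ℤ) (t : ℝ) (d : ℕ) (hd : d < 4) :
    tb (lk [0, 1, 3, 6] d) ≤ brS n p t ∧ brS n p t ≤ tb (lk [1, 3, 6, 7] d) ↔
      (-18 ≤ brS n p t ∧ brS n p t ≤ 18) ∧
        be (n + 1) (brG n p d) ≤ t ∧ t ≤ be (n + 1) (brG n p d + 1) := by
  obtain ⟨a1, a2, a3, a4⟩ := br_o1 n p
  have a0 := o_mul3 n p
  have key : ∀ a b : ℤ, b = a + 1 → (be (n + 1) a ≤ t ∧ t ≤ be (n + 1) (a + 1) ↔
      (a : ℝ) + (o (n + 1) a : ℝ) / 12 ≤ 3 * (3 ^ n * t) ∧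
        3 * (3 ^ n * t) ≤ (b : ℝ) + (o (n + 1) b : ℝ) / 12) := fun a b e => by
    rw [br_be.1, br_be.2, e, pow_succ, mul_right_comm, mul_comm _ (3 : ℝ)]
  have k0 := key (3 * p - 2) (3 * p - 1) (by ring)
  have k1 := key (3 * p - 1) (3 * p) (by ring)
  have k2 := key (3 * p) (3 * p + 1) (by ring)
  have k3 := key (3 * p + 1) (3 * p + 2) (by ring)
  rw [a1, a2] at k0
  rw [a2, a0] at k1
  rw [a0, a3] at k2
  rw [a3, a4] at k3
  have v : brG n p d = if o n p = 1 then 3 * p + d - 2 else 3 * p + 1 - d := rfl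
  rcases o_cases n p with h | h <;> interval_cases d <;> simp only [h] at v k1 k2 <;> norm_num at v
  all_goals first
    | rw [show brG n p _ = 3 * p - 2 by omega, k0]
    | rw [show brG n p _ = 3 * p - 1 by omega, k1]
    | rw [show brG n p _ = 3 * p by omega, k2]
    | rw [show brG n p _ = 3 * p + 1 by omega, k3]
  all_goals
    simp only [brS, h, tb, lk]
    norm_num
    exact ⟨fun k => ⟨⟨by linarith [k.1, k.2], by linarith [k.1, k.2]⟩, by linarith [k.1, k.2], by linarith [k.1, k.2]⟩,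
      fun k => ⟨by linarith [k.1.1, k.1.2, k.2.1, k.2.2], by linarith [k.1.1, k.1.2, k.2.1, k.2.2]⟩⟩

theorem br_G2 (p : ℤ) (t : ℝ) (a : ℤ) (h : -18 ≤ brS n p t ∧ brS n p t ≤ 18)
    (k : be (n + 1) a ≤ t ∧ t ≤ be (n + 1) (a + 1)) : ∃ d < 4, a = brG n p d := by
  rw [br_be.1, br_be.2, pow_succ, mul_right_comm, mul_comm _ (3 : ℝ)] at k
  have b1 := br_o (n + 1) a
  have b2 := br_o (n + 1) (a + 1)
  have b3 : -3 / 2 ≤ 3 * (3 ^ n * t) - 3 * p ∧ 3 * (3 ^ n * t) - 3 * p ≤ 3 / 2 := by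
    rcases o_cases n p with e | e <;> simp only [brS, e] at h <;> push_cast at h <;>
      constructor <;> linarith [h.1, h.2]
  push_cast at k
  have c1 : a ≤ 3 * p + 1 := br_int (by push_cast; linarith [k.1, b1.1, b3.2])
  have c2 : 3 * p - 2 ≤ a := br_int (by push_cast; linarith [k.2, b2.2, b3.1])
  rcases o_cases n p with e | e
  · exact ⟨(a - (3 * p - 2)).toNat, by omega, by rw [brG, if_pos e]; omega⟩
  · exact ⟨(3 * p + 1 - a).toNat, by omega, by rw [brG, if_neg (by omega)]; omega⟩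

theorem br_oc : ∀ a < 2, ∀ b < 2, ∀ c < 2, oc a b c < 8 ∧ ∀ i : Fin 3,
    ((oc a b c).testBit i = true ↔ ![a, b, c] i = 1) := by decide

theorem br_oct {d : Fin 3 → ℕ} (h : ∀ i, d i < 2) :
    (ty n p).testBit (oc (d 0) (d 1) (d 2)) = true ↔ Ret n fun i => brF n (p i) (d i) := by
  have k := br_oc _ (h 0) _ (h 1) _ (h 2)
  rw [ty_bit n p k.1]
  refine iff_of_eq (congrArg _ (funext fun i => ?_))
  have e : ![d 0, d 1, d 2] i = d i := by fin_cases i <;> rfl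
  have := h i
  rw [oct, brF]
  simp only [k.2 i, e]
  split_ifs <;> omega

theorem br_G3 (c : ℕ) (hc : c ∈ codes 4) :
    ret1 (ty n p) c = true ↔ Ret (n + 1) fun i => brG n (p i) (dg c i) := by
  have h := br_dlt (by norm_num) hc
  have e1 : (fun i => brG n (p i) (dg c i) / 3) = fun i => brF n (p i) (dg c i / 2) := funext fun i => by
    have := h i
    rw [brG, brF]
    split_ifs <;> omega
  have e2 : ∀ i, lk [1, 0, 0, 1] (dg c i) = if brG n (p i) (dg c i) % 3 = 1 then 1 else 0 := fun i => by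
    have := h i
    rw [brG]
    generalize dg c i = d at this
    interval_cases d <;> simp only [lk] <;> split_ifs <;> first | rfl | omega
  rw [ret1, Ret, (br_dg c).1, (br_dg c).2.1, (br_dg c).2.2, Bool.and_eq_true,
    br_oct n p (d := fun i => dg c i / 2) fun i => by have := h i; omega, e1, Nat.ble_eq, e2, e2, e2]
  refine and_congr_right fun _ => ?_
  simp only [Fin.forall_fin_succ, Fin.succ_zero_eq_one, Fin.succ_one_eq_two, IsEmpty.forall_iff]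
  split_ifs <;> simp [*]

theorem br_not {r : Bool} {P : Prop} (h : r = true ↔ P) : (!r) = true ↔ ¬P := by
  rw [← h]; simp

theorem W_N1 : W n p (mN1 (ty n p)) = cube n p ∩ N (n + 1) :=
  br_cells n p (by decide) (by norm_num) (I := fun a t => be (n + 1) a ≤ t ∧ t ≤ be (n + 1) (a + 1))
    (br_G1 n) (br_G2 n) (br_G3 n p)

theorem W_M1 : W n p (mM1 (ty n p)) = cube n p ∩ Mm (n + 1) :=
  br_cells n p (by decide) (by norm_num) (I := fun a t => be (n + 1) a ≤ t ∧ t ≤ be (n + 1) (a + 1))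
    (br_G1 n) (br_G2 n) (R := fun a => ¬Ret (n + 1) a) fun c hc => br_not (br_G3 n p c hc)

theorem br_F3 (c : ℕ) (hc : c ∈ codes 2) :
    ret0 (ty n p) c = true ↔ Ret n fun i => brF n (p i) (dg c i) := by
  rw [ret0, (br_dg c).1, (br_dg c).2.1, (br_dg c).2.2, br_oct n p (br_dlt (by norm_num) hc)]

/-- intervals of level `n` whose ends are moved by `o / q` -/
def brI (q : ℝ) (n : ℕ) (a : ℤ) (t : ℝ) : Prop :=
  (a : ℝ) + (o n a : ℝ) / q ≤ 3 ^ n * t ∧ 3 ^ n * t ≤ (a + 1 : ℤ) + (o n (a + 1) : ℝ) / q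

theorem br_F1 {q : ℝ} {k : ℕ} (hq : q = 12 ∧ k = 4 ∨ q = 36 ∧ k = 3) (p : ℤ) (t : ℝ) (d : ℕ)
    (hd : d < 2) : tb (lk [0, k] d) ≤ brS n p t ∧ brS n p t ≤ tb (lk [k, 7] d) ↔
      (-18 ≤ brS n p t ∧ brS n p t ≤ 18) ∧ brI q n (brF n p d) t := by
  have b1 := br_o n (p - 1)
  have b2 := br_o n (p + 1)
  have v : brF n p d = if o n p = 1 then p + d - 1 else p - d := rfl
  rcases o_cases n p with h | h <;> interval_cases d <;> simp only [h] at v <;> norm_num at v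
  all_goals
    rw [v]
    rcases hq with ⟨rfl, rfl⟩ | ⟨rfl, rfl⟩ <;> simp only [brS, brI, sub_add_cancel, h, tb, lk] <;> norm_num <;>
      exact ⟨fun k => ⟨⟨by linarith [k.1, k.2], by linarith [k.1, k.2]⟩,
        by linarith [k.1, k.2, b1.1, b1.2], by linarith [k.1, k.2, b2.1, b2.2]⟩,
        fun k => ⟨by linarith [k.1.1, k.1.2, k.2.1, k.2.2], by linarith [k.1.1, k.1.2, k.2.1, k.2.2]⟩⟩

theorem br_F2 {q : ℝ} (hq : q = 12 ∨ q = 36) (p : ℤ) (t : ℝ) (a : ℤ)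
    (h : -18 ≤ brS n p t ∧ brS n p t ≤ 18) (k : brI q n a t) : ∃ d < 2, a = brF n p d := by
  have b1 := br_o n a
  have b2 := br_o n (a + 1)
  have b3 : -1 / 2 ≤ 3 ^ n * t - p ∧ 3 ^ n * t - p ≤ 1 / 2 := by
    rcases o_cases n p with e | e <;> simp only [brS, e] at h <;> push_cast at h <;>
      constructor <;> linarith [h.1, h.2]
  rw [brI] at k
  push_cast at k
  have c1 : a ≤ p := br_int (by rcases hq with rfl | rfl <;> linarith [k.1, b1.1, b3.2])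
  have c2 : p - 1 ≤ a := br_int (by push_cast; rcases hq with rfl | rfl <;> linarith [k.2, b2.2, b3.1])
  rcases o_cases n p with e | e
  · exact ⟨(a - (p - 1)).toNat, by omega, by rw [brF, if_pos e]; omega⟩
  · exact ⟨(p - a).toNat, by omega, by rw [brF, if_neg (by omega)]; omega⟩

theorem br_I0 (a : ℤ) (t : ℝ) : be n a ≤ t ∧ t ≤ be n (a + 1) ↔ brI 12 n a t := by
  rw [br_be.1, br_be.2, brI]

theorem br_Ib (a : ℤ) (t : ℝ) : be (n + 1) (3 * a) ≤ t ∧ t ≤ be (n + 1) (3 * (a + 1)) ↔ brI 36 n a t := by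
  rw [br_be.1, br_be.2, brI, o_mul3, o_mul3, pow_succ, mul_right_comm]
  push_cast
  exact ⟨fun k => ⟨by linarith [k.1], by linarith [k.2]⟩, fun k => ⟨by linarith [k.1], by linarith [k.2]⟩⟩

theorem W_N0 : W n p (mN 4 (ty n p)) = cube n p ∩ N n := by
  simp only [N, br_I0]
  exact br_cells n p (by decide) (by norm_num) (br_F1 n (.inl ⟨rfl, rfl⟩)) (br_F2 n (.inl rfl)) (br_F3 n p)

theorem W_M0 : W n p (mM 4 (ty n p)) = cube n p ∩ Mm n := by
  simp only [Mm, br_I0]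
  exact br_cells n p (by decide) (by norm_num) (br_F1 n (.inl ⟨rfl, rfl⟩)) (br_F2 n (.inl rfl))
    (R := fun a => ¬Ret n a) fun c hc => br_not (br_F3 n p c hc)

theorem W_Nb : W n p (mN 3 (ty n p)) = cube n p ∩ Nb n := by
  simp only [Nb, br_Ib]
  exact br_cells n p (by decide) (by norm_num) (br_F1 n (.inr ⟨rfl, rfl⟩)) (br_F2 n (.inr rfl)) (br_F3 n p)

theorem W_Mb : W n p (mM 3 (ty n p)) = cube n p ∩ Mb n := by
  simp only [Mb, br_Ib]
  exact br_cells n p (by decide) (by norm_num) (br_F1 n (.inr ⟨rfl, rfl⟩)) (br_F2 n (.inr rfl))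
    (R := fun a => ¬Ret n a) fun c hc => br_not (br_F3 n p c hc)

end Pool.Agent.Lib.MP_b7d179_gt.M
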