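import Pool.Agent.Lib.MP_b7d179_gt.M.GB

/-! The cap over a foot. -/

namespace Pool.Agent.Lib.MP_b7d179_gt.M

open Set

section
variable {n : ℕ} {p f u1 l2 : V} {i : Fin 3} {s t : ℤ}

theorem cap_kd (hs : s = 1 ∧ t = 9 * p i + 3 ∨ s = -1 ∧ t = 9 * p i - 4) (hi : f i = 2 * p i + s)
    (hf : ∀ j, j ≠ i → f j = 2 * p j) (h : (Ph n f).Nonempty)
    (sp : Spl (fun j => 9 * p j - 4) (fun j => 9 * p j + 4) u1 l2 i t) :
    KD K (CutD (n + 2) (fun j => 9 * p j - 4) (fun j => 9 * p j + 4) i t)
      (CutC (n + 2) (fun j => 9 * p j - 4) (fun j => 9 * p j + 4) i t) := by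
  refine ⟨sp.disc _, disjoint_left.2 fun x hx k => bxl_rim hx (K_One _ k), ?_⟩
  obtain ⟨a, ha, a1, a2⟩ := arith_Ph (i := i) (by omega) (fun j e => by have := hf j e; omega) h
  let b : V := fun j => if j = i then t else if a j = p j then 9 * p j else 9 * p j - 1
  have b1 : b i = t := if_pos rfl
  have b2 : ∀ j, j ≠ i → a j = p j ∧ b j = 9 * p j ∨ a j = p j - 1 ∧ b j = 9 * p j - 1 :=
    fun j e => by
      have := a2 j e
      have := hf j e
      simp only [b, if_neg e]
      split_ifs <;> omega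
  have hc : Ret (n + 1) fun j => b j / 3 := arith_kid (i := i) ha (fun j => by
    by_cases e : j = i
    · subst e; omega
    · have := b2 j e; omega) fun j e => by have := b2 j e; omega
  have hb : Ret (n + 2) b := arith_kid (i := i) hc (fun _ => rfl) fun j e => by
    have := b2 j e; omega
  obtain ⟨x, k, hx⟩ := ret_edge (f := fun j => if j = i then 2 * t + 1 else 18 * p j) (i := i) hb
    (fun j e => by have := b2 j e; simp only [if_neg e]; omega) (by simp [b1])
  exact ⟨x, k, sp.inside (by simp) (fun j e => by simp only [if_neg e]; omega) hx.1⟩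

theorem cap_spine {L C : Set X} (hs : s = 1 ∨ s = -1) (hi : f i = 2 * p i + s)
    (hf : ∀ j, j ≠ i → f j = 2 * p j) (h : (Ph n f).Nonempty)
    (hL : L = Box (n + 2) (fun j => if j = i then 9 * p j + 4 * s else 9 * p j - 4)
      fun j => if j = i then 9 * p j + 4 * s else 9 * p j + 4)
    (so : Sol sg (cube n p) (cubeS n p) {(cubeS n p ∩ L, C)}) :
    SolU sg (cube n p) (cubeS n p) (Ps n f) := by
  have ad : Adj p f := ⟨i, by omega, hf⟩
  have e3 : (3 : ℝ) ^ (n + 2) = 9 * 3 ^ n := by ring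
  have e2 : (3 : ℝ) ^ (n + 1) = 3 * 3 ^ n := by ring
  have ri : (f i : ℝ) = 2 * p i + s := by exact_mod_cast hi
  have sub : Ps n f ⊆ cubeS n p ∩ L := fun x hx => by
    have xc := ad.sub n hx.1
    refine ⟨⟨xc, Bx_any ad.face n hx.1⟩, hL ▸ fun j => ?_⟩
    by_cases e : j = i
    · subst e
      have b := bxl_odd hx.1 (i := j) (by omega)
      simp only [if_true]
      rw [e3]
      rcases hs with rfl | rfl <;> push_cast at ri ⊢ <;> constructor <;> linarith
    · simpa only [if_neg e] using ((cube_nine _ p).1 ▸ xc :) j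
  refine so.spine sg_ok0 (by simpa using sub) ?_
  rintro _ rfl
  refine ⟨by rw [inter_eq_left.2 sub]; exact rq_conn (disc_Ps ad.face h), ?_⟩
  rintro x ⟨k, ⟨xc, j, m, hm, e⟩, xl⟩
  have a := (hL ▸ xl :) i
  simp only [if_true] at a
  rw [e3] at a
  have rm : (m : ℝ) = 2 * ((m / 2 : ℤ) : ℝ) + 1 := by
    exact_mod_cast (by omega : m = 2 * (m / 2) + 1)
  obtain rfl : i = j := sys_deep (K_sub_N (n + 1) k) (c := if s = 1 then p i else p i - 1)
    (d := m / 2) (by
      rw [e2]
      rcases hs with rfl | rfl <;> push_cast at a ⊢ <;> norm_num <;> constructor <;>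
        linarith [a.1, a.2]) (by rw [e2]; constructor <;> linarith)
  have c := lat_cube.1 xc
  have m1 := lat_in hm e (c i)
  have m2 : m = f i := by
    have h1 : 18 * p i + 8 * s - 1 ≤ 9 * m := by
      have : (18 * p i + 8 * s - 1 : ℝ) ≤ 9 * m := by push_cast at a; linarith [a.1]
      exact_mod_cast this
    have h2 : 9 * m ≤ 18 * p i + 8 * s + 1 := by
      have : (9 * m : ℝ) ≤ 18 * p i + 8 * s + 1 := by push_cast at a; linarith [a.2]
      exact_mod_cast this
    omega
  refine (K_Ps ⟨k, lat_bx (fun j => ?_) fun j hj => ?_⟩).1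
  · by_cases e' : j = i
    · subst e'
      rw [e, m2]
      constructor <;> linarith
    · rw [hf j e']
      push_cast
      exact c j
  · by_cases e' : j = i
    · rw [e', e, m2]
    · have := hf j e'
      omega

end

theorem sg_cap' (w : sg.β) (g : sg.φ) (hg : g ∈ sg.F w) : SolU sg (sg.B w) (sg.S w) (sg.A g) := by
  obtain ⟨⟨m, p⟩, hw⟩ := w
  obtain ⟨⟨m', f⟩, h0, h⟩ := g
  obtain ⟨rfl, i, hi, hf⟩ : m' = m ∧ Adj p f := hg
  change SolU sg (cube (2 * m') p) (cubeS (2 * m') p) (Ps (2 * m') f)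
  rcases hi with hi | hi
  · obtain ⟨gl, gr⟩ := G_cap (.inl rfl) hi hf h
    have sp : Spl (fun j => 9 * p j - 4) (fun j => 9 * p j + 4)
        (fun j => if j = i ∧ (1 : ℤ) = 1 then 9 * p j + 3 else 9 * p j + 4)
        (fun j => if j = i then 9 * p j + 4 * 1 else 9 * p j - 4) i (9 * p i + 3) :=
      ⟨fun j => by omega, by omega, by omega, by simp, by simp only [if_true]; omega,
        fun j e => by simp [e], fun j e => by simp [e]⟩
    have e1 : (fun j => if j = i then 9 * p j + 4 * 1 else 9 * p j + 4) = fun j => 9 * p j + 4 :=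
      funext fun j => by split_ifs <;> omega
    have e2 : (fun j => if j = i ∧ (1 : ℤ) = -1 then 9 * p j - 3 else 9 * p j - 4) =
        fun j => 9 * p j - 4 := funext fun j => if_neg (by omega)
    rw [e2] at gr
    refine cap_spine (.inl rfl) hi hf h rfl (C := CutC (2 * m' + 2) (fun j => 9 * p j - 4)
      (fun j => 9 * p j + 4) i (9 * p i + 3)) ?_
    rw [e1] at gl ⊢
    rw [(cube_nine _ p).1, (cube_nine _ p).2]
    exact sol_of_gl sg_ok0 (sp.gl _) gr gl (cap_kd (.inl ⟨rfl, rfl⟩) hi hf h sp)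
  · replace hi : f i = 2 * p i + -1 := by omega
    obtain ⟨gl, gr⟩ := G_cap (.inr rfl) hi hf h
    have sp : Spl (fun j => 9 * p j - 4) (fun j => 9 * p j + 4)
        (fun j => if j = i then 9 * p j + 4 * -1 else 9 * p j + 4)
        (fun j => if j = i ∧ (-1 : ℤ) = -1 then 9 * p j - 3 else 9 * p j - 4) i (9 * p i - 4) :=
      ⟨fun j => by omega, by omega, by omega, by simp only [if_true]; omega,
        by simp only [and_self, if_true]; omega, fun j e => by simp [e], fun j e => by simp [e]⟩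
    have e1 : (fun j => if j = i then 9 * p j + 4 * -1 else 9 * p j - 4) = fun j => 9 * p j - 4 :=
      funext fun j => by split_ifs <;> omega
    have e2 : (fun j => if j = i ∧ (-1 : ℤ) = 1 then 9 * p j + 3 else 9 * p j + 4) =
        fun j => 9 * p j + 4 := funext fun j => if_neg (by omega)
    rw [e2] at gr
    refine cap_spine (.inr rfl) hi hf h rfl (C := CutC (2 * m' + 2) (fun j => 9 * p j - 4)
      (fun j => 9 * p j + 4) i (9 * p i - 4)) ?_
    rw [e1] at gl ⊢
    rw [(cube_nine _ p).1, (cube_nine _ p).2]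
    exact sol_of_gl sg_ok0 (sp.gl _).symm gr gl (cap_kd (.inr ⟨rfl, rfl⟩) hi hf h sp)

end Pool.Agent.Lib.MP_b7d179_gt.M
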