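import Pool.Agent.Lib.MP_b7d179_gt.M.Cert3c

/-! Generated certificates. -/

namespace Pool.Agent.Lib.MP_b7d179_gt.M

open C

def ctri_85_65_81 : TE × TE × TE × TA × TA × TQ :=
    (((64,(99026,[(102609,[103121])])),[(72,(106730,[]),[106706]),(80,(119026,[(123642,[123634])]),
    [119018])]),((65,(99541,[])),[(73,(107757,[]),[107733]),(81,(120061,[]),[120045])]),((66,
    (101078,[(105687,[105686])])),[(74,(109295,[]),[109271]),(82,(121591,[(125694,[125686])]),
    [121583])]),[101117],[99578],([101058],[99521,99017,103112,102640,123121,123641,127738],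
    [128253],[129790,130294,126199,126671,106190,105670,101573]))
theorem ctri_85_65_81_ok : chkTri 85 65 81 ctri_85_65_81 = true := by decide +kernel
def ctri_85_65_72 : TE × TE × TE × TA × TA × TQ :=
    (((66,(101078,[(105687,[105686])])),[(74,(109295,[]),[109271]),(82,(121591,[(125694,
    [125686])]),[121583]),(81,(120061,[]),[121597]),(80,(119026,[(123642,[123634])]),[120058])]),
    ((65,(99541,[])),[(73,(107757,[]),[107733]),(72,(106730,[]),[107754])]),((64,(99026,[(102609,
    [103121])])),[]),[99538,107728],[101101,121576],([99525],[101062,101582,105679,106231,126710,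
    126206,130297,127729,123632,123112],[118992],[106696,102601,103105,99010]))
theorem ctri_85_65_72_ok : chkTri 85 65 72 ctri_85_65_72 = true := by decide +kernel
def ctri_85_65_74 : TE × TE × TE × TA × TA × TQ :=
    (((64,(99026,[(102609,[103121])])),[(72,(106730,[]),[106706]),(80,(119026,[(123642,[123634])]),
    [119018]),(81,(120061,[]),[120058]),(82,(121591,[(125694,[125686])]),[121597])]),((65,(99541,
    [])),[(73,(107757,[]),[107733]),(74,(109295,[]),[109293])]),((66,(101078,[(105687,[105686])])),
    []),[101077,109271],[99562,120047],([101058],[99521,99017,103112,102640,123121,123641,127742,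
    130294,126199,126703],[122583],[110287,106190,105670,101573]))
theorem ctri_85_65_74_ok : chkTri 85 65 74 ctri_85_65_74 = true := by decide +kernel
def ctri_85_81_72 : TE × TE × TE × TA × TA × TQ :=
    (((64,(99026,[(102609,[103121])])),[(65,(99541,[]),[99538]),(66,(101078,[(105687,[105686])]),
    [101077]),(74,(109295,[]),[109271]),(82,(121591,[(125694,[125686])]),[121583])]),((81,(120061,
    [])),[(73,(107757,[]),[120045]),(72,(106730,[]),[107754])]),((80,(119026,[(123642,[123634])])),
    []),[119018,120058],[106709,109309],([128253],[129790,130294,126199,126671,106190,105670,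
    101569,99017,103112,102608],[106728],[119024,123121,123641,127738]))
theorem ctri_85_81_72_ok : chkTri 85 81 72 ctri_85_81_72 = true := by decide +kernel
def ctri_85_81_74 : TE × TE × TE × TA × TA × TQ :=
    (((64,(99026,[(102609,[103121])])),[(65,(99541,[]),[99538]),(66,(101078,[(105687,[105686])]),
    [101077]),(72,(106730,[]),[106706]),(80,(119026,[(123642,[123634])]),[119018])]),((81,(120061,
    [])),[(73,(107757,[]),[120045]),(74,(109295,[]),[109293])]),((82,(121591,[(125694,[125686])])),
    []),[122605,121597],[110290,107770],([129786],[128249,127729,123632,123080,102601,103105,99014,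
    101582,105679,106199],[110319],[122615,126710,126206,130301]))
theorem ctri_85_81_74_ok : chkTri 85 81 74 ctri_85_81_74 = true := by decide +kernel
def ctri_85_72_74 : TE × TE × TE × TA × TA × TQ :=
    (((64,(99026,[(102609,[103121])])),[(65,(99541,[]),[99538]),(66,(101078,[(105687,[105686])]),
    [101077])]),((72,(106730,[])),[(73,(107757,[]),[107754]),(74,(109295,[]),[109293])]),((80,
    (119026,[(123642,[123634])])),[(81,(120061,[]),[120058]),(82,(121591,[(125694,[125686])]),
    [121597])]),[119023],[106711],([118992],[106696,102601,103105,99014,101582,105679,106199],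
    [110319],[122615,126710,126206,130297,127729,123632,123112]))
theorem ctri_85_72_74_ok : chkTri 85 72 74 ctri_85_72_74 = true := by decide +kernel
def ctri_87_137_65 : TE × TE × TE × TA × TA × TQ :=
    (((66,(101078,[(105687,[105686])])),[(74,(109295,[]),[109271]),(82,(121591,[(125694,
    [125686])]),[121583]),(81,(120061,[]),[121597]),(80,(119026,[(123642,[123634])]),[120058]),(72,
    (110826,[(110938,[110810])]),[119018]),(136,(176538,[(209882,[209818])]),[176474])]),((137,
    (174043,[(177627,[178139])])),[(73,(108269,[(111851,[112363]),(108379,[108251]),(111963,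
    [111835,112475])]),[173915,178010]),(65,(100053,[(100179,[100051])]),[109267,108371])]),((129,
    (165779,[(202707,[202643])])),[]),[165715,174035],[101101,121578,120026,112090],([239579,
    243674],[243161,242585,209816,209112,110832,123121,123641,127742,130294,126199,126671,106190,
    105670,101573],[101059,100163],[165763,198539,202699,235475]))
theorem ctri_87_137_65_ok : chkTri 87 137 65 ctri_87_137_65 = true := by decide +kernel
def ctri_87_137_81 : TE × TE × TE × TA × TA × TQ :=
    (((72,(110826,[(110938,[110810])])),[(80,(119026,[(123642,[123634])]),[119018]),(136,(176538,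
    [(209882,[209818])]),[176474])]),((137,(174043,[(177627,[178139])])),[(73,(108269,[(111851,
    [112363]),(108379,[108251]),(111963,[111835,112475])]),[173915,178010]),(81,(120061,[]),
    [120045])]),((65,(100053,[(100179,[100051])])),[(66,(101078,[(105687,[105686])]),[101077]),(74,
    (109295,[]),[109271]),(82,(121591,[(125694,[125686])]),[121583]),(129,(165779,[(202707,
    [202643])]),[165715])]),[129749,109267,108499],[128218,112090],([239579,243674],[243161,242585,
    209816,209112,110832,123121,123641,127738],[128253],[129790,130294,126199,126671,106190,105670,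
    101571,100227,198539,202699,235475]))
theorem ctri_87_137_81_ok : chkTri 87 137 81 ctri_87_137_81 = true := by decide +kernel
def ctri_87_137_72 : TE × TE × TE × TA × TA × TQ :=
    (((65,(100053,[(100179,[100051])])),[(66,(101078,[(105687,[105686])]),[101077]),(74,(109295,
    []),[109271]),(82,(121591,[(125694,[125686])]),[121583]),(81,(120061,[]),[121597]),(80,(119026,
    [(123642,[123634])]),[120058]),(129,(165779,[(202707,[202643])]),[165715])]),((137,(174043,
    [(177627,[178139])])),[(73,(108269,[(111851,[112363]),(108379,[108251]),(111963,[111835,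
    112475])]),[173915,178010]),(72,(110826,[(110938,[110810])]),[120026,111962])]),((136,(176538,
    [(209882,[209818])])),[]),[176474,177626],[119021,121557,109267,108499],([243163,243667],
    [239563,235403,202627,198339,100038,101582,105679,106231,126710,126206,130297,127729,123632,
    123112],[119000,110936],[176536,209305,209881,242650]))
theorem ctri_87_137_72_ok : chkTri 87 137 72 ctri_87_137_72 = true := by decide +kernel
def ctri_87_137_74 : TE × TE × TE × TA × TA × TQ :=
    (((72,(110826,[(110938,[110810])])),[(80,(119026,[(123642,[123634])]),[119018]),(81,(120061,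
    []),[120058]),(82,(121591,[(125694,[125686])]),[121597]),(136,(176538,[(209882,[209818])]),
    [176474])]),((137,(174043,[(177627,[178139])])),[(73,(108269,[(111851,[112363]),(108379,
    [108251]),(111963,[111835,112475])]),[173915,178010]),(74,(109295,[]),[109293])]),((65,(100053,
    [(100179,[100051])])),[(66,(101078,[(105687,[105686])]),[101077]),(129,(165779,[(202707,
    [202643])]),[165715])]),[110291,108499],[122602,120026,112090],([239579,243674],[243161,242585,
    209816,209112,110832,123121,123641,127742,130294,126199,126703],[122583],[110287,106190,105670,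
    101571,100227,198539,202699,235475]))
theorem ctri_87_137_74_ok : chkTri 87 137 74 ctri_87_137_74 = true := by decide +kernel
def ctri_87_65_81 : TE × TE × TE × TA × TA × TQ :=
    (((72,(110826,[(110938,[110810])])),[(80,(119026,[(123642,[123634])]),[119018]),(136,(176538,
    [(209882,[209818])]),[176474]),(137,(174043,[(177627,[178139])]),[177626]),(129,(165779,
    [(202707,[202643])]),[174035])]),((65,(100053,[(100179,[100051])])),[(73,(108269,[(111851,
    [112363]),(108379,[108251]),(111963,[111835,112475])]),[109267,108371]),(81,(120061,[]),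
    [120045])]),((66,(101078,[(105687,[105686])])),[(74,(109295,[]),[109271]),(82,(121591,[(125694,
    [125686])]),[121583])]),[101117],[128218,111962,177499,177987],([101059,100163],[165763,198539,
    202699,235483,243673,242585,209816,209112,110832,123121,123641,127738],[128253],[129790,130294,
    126199,126671,106190,105670,101573]))
theorem ctri_87_65_81_ok : chkTri 87 65 81 ctri_87_65_81 = true := by decide +kernel
def ctri_87_65_72 : TE × TE × TE × TA × TA × TQ :=
    (((66,(101078,[(105687,[105686])])),[(74,(109295,[]),[109271]),(82,(121591,[(125694,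
    [125686])]),[121583]),(81,(120061,[]),[121597]),(80,(119026,[(123642,[123634])]),[120058])]),
    ((65,(100053,[(100179,[100051])])),[(73,(108269,[(111851,[112363]),(108379,[108251]),(111963,
    [111835,112475])]),[109267,108371]),(72,(110826,[(110938,[110810])]),[120026,111962])]),((129,
    (165779,[(202707,[202643])])),[(137,(174043,[(177627,[178139])]),[174035]),(136,(176538,
    [(209882,[209818])]),[177626])]),[165723,178008],[101101,121576],([165571,100037],[101062,
    101582,105679,106231,126710,126206,130297,127729,123632,123112],[119000,110936],[176536,209305,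
    209881,242651,243659,235403,202627,198467]))
theorem ctri_87_65_72_ok : chkTri 87 65 72 ctri_87_65_72 = true := by decide +kernel
def ctri_87_65_74 : TE × TE × TE × TA × TA × TQ :=
    (((72,(110826,[(110938,[110810])])),[(80,(119026,[(123642,[123634])]),[119018]),(81,(120061,
    []),[120058]),(82,(121591,[(125694,[125686])]),[121597]),(136,(176538,[(209882,[209818])]),
    [176474]),(137,(174043,[(177627,[178139])]),[177626]),(129,(165779,[(202707,[202643])]),
    [174035])]),((65,(100053,[(100179,[100051])])),[(73,(108269,[(111851,[112363]),(108379,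
    [108251]),(111963,[111835,112475])]),[109267,108371]),(74,(109295,[]),[109293])]),((66,(101078,
    [(105687,[105686])])),[]),[101077,109271],[122602,120026,111962,177499,177987],([101059,
    100163],[165763,198539,202699,235483,243673,242585,209816,209112,110832,123121,123641,127742,
    130294,126199,126703],[122583],[110287,106190,105670,101573]))
theorem ctri_87_65_74_ok : chkTri 87 65 74 ctri_87_65_74 = true := by decide +kernel
def ctri_87_81_72 : TE × TE × TE × TA × TA × TQ :=
    (((65,(100053,[(100179,[100051])])),[(66,(101078,[(105687,[105686])]),[101077]),(74,(109295,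
    []),[109271]),(82,(121591,[(125694,[125686])]),[121583]),(129,(165779,[(202707,[202643])]),
    [165715]),(137,(174043,[(177627,[178139])]),[174035]),(136,(176538,[(209882,[209818])]),
    [177626])]),((81,(120061,[])),[(73,(108269,[(111851,[112363]),(108379,[108251]),(111963,
    [111835,112475])]),[120045]),(72,(110826,[(110938,[110810])]),[120026,111962])]),((80,(119026,
    [(123642,[123634])])),[]),[119018,120058],[129749,109267,108371,173915,178008],([128253],
    [129790,130294,126199,126671,106190,105670,101571,100227,198539,202699,235483,243673,242585,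
    209816,209240],[176344,110824],[119024,123121,123641,127738]))
theorem ctri_87_81_72_ok : chkTri 87 81 72 ctri_87_81_72 = true := by decide +kernel
def ctri_87_81_74 : TE × TE × TE × TA × TA × TQ :=
    (((65,(100053,[(100179,[100051])])),[(66,(101078,[(105687,[105686])]),[101077]),(129,(165779,
    [(202707,[202643])]),[165715]),(137,(174043,[(177627,[178139])]),[174035]),(136,(176538,
    [(209882,[209818])]),[177626]),(72,(110826,[(110938,[110810])]),[176474]),(80,(119026,[(123642,
    [123634])]),[119018])]),((81,(120061,[])),[(73,(108269,[(111851,[112363]),(108379,[108251]),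
    (111963,[111835,112475])]),[120045]),(74,(109295,[]),[109293])]),((82,(121591,[(125694,
    [125686])])),[]),[122605,121597],[110291,108371,173915,178010,177370,111866],([129786],[128249,
    127729,123632,123096,111000,209305,209881,242651,243659,235403,202627,198339,100038,101582,
    105679,106199],[110319],[122615,126710,126206,130301]))
theorem ctri_87_81_74_ok : chkTri 87 81 74 ctri_87_81_74 = true := by decide +kernel
def ctri_87_72_74 : TE × TE × TE × TA × TA × TQ :=
    (((65,(100053,[(100179,[100051])])),[(66,(101078,[(105687,[105686])]),[101077]),(129,(165779,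
    [(202707,[202643])]),[165715]),(137,(174043,[(177627,[178139])]),[174035]),(136,(176538,
    [(209882,[209818])]),[177626])]),((72,(110826,[(110938,[110810])])),[(73,(108269,[(111851,
    [112363]),(108379,[108251]),(111963,[111835,112475])]),[120026,111962]),(74,(109295,[]),
    [109293])]),((80,(119026,[(123642,[123634])])),[(81,(120061,[]),[120058]),(82,(121591,[(125694,
    [125686])]),[121597])]),[119023],[110291,108371,173915,178008],([119000,110936],[176536,209305,
    209881,242651,243659,235403,202627,198339,100038,101582,105679,106199],[110319],[122615,126710,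
    126206,130297,127729,123632,123112]))
theorem ctri_87_72_74_ok : chkTri 87 72 74 ctri_87_72_74 = true := by decide +kernel
def ctri_95_137_65 : TE × TE × TE × TA × TA × TQ :=
    (((66,(101078,[(105687,[105686])])),[(74,(109295,[]),[109271]),(82,(121591,[(125694,
    [125686])]),[121583]),(81,(120573,[(120699,[120571])]),[121597]),(145,(186299,[(219123,
    [219059])]),[186235])]),((137,(174059,[])),[(73,(108269,[(108395,[108267])]),[173931]),(65,
    (100053,[(100179,[100051])]),[109267,108371])]),((129,(165779,[(202707,[202643])])),[]),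
    [165715,174035],[101101,121579,120811],([239595],[251891,255923,223163,227067,128766,130294,
    126199,126671,106190,105670,101573],[101059,100163],[165763,198539,202699,235475]))
theorem ctri_95_137_65_ok : chkTri 95 137 65 ctri_95_137_65 = true := by decide +kernel
def ctri_95_137_81 : TE × TE × TE × TA × TA × TQ :=
    (((65,(100053,[(100179,[100051])])),[(66,(101078,[(105687,[105686])]),[101077]),(74,(109295,
    []),[109271]),(82,(121591,[(125694,[125686])]),[121583]),(129,(165779,[(202707,[202643])]),
    [165715])]),((137,(174059,[])),[(73,(108269,[(108395,[108267])]),[173931]),(81,(120573,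
    [(120699,[120571])]),[121579,120683])]),((145,(186299,[(219123,[219059])])),[]),[194411,
    186347],[129749,109267,108499],([251859],[239563,235403,202627,198339,100038,101582,105679,
    106231,126710,126206,130301],[129787,128891],[194491,227251,223219,255979]))
theorem ctri_95_137_81_ok : chkTri 95 137 81 ctri_95_137_81 = true := by decide +kernel
def ctri_95_137_74 : TE × TE × TE × TA × TA × TQ :=
    (((81,(120573,[(120699,[120571])])),[(82,(121591,[(125694,[125686])]),[121597]),(145,(186299,
    [(219123,[219059])]),[186235])]),((137,(174059,[])),[(73,(108269,[(108395,[108267])]),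
    [173931]),(74,(109295,[]),[109293])]),((65,(100053,[(100179,[100051])])),[(66,(101078,[(105687,
    [105686])]),[101077]),(129,(165779,[(202707,[202643])]),[165715])]),[110291,108499],[122603,
    120811],([239595],[251891,255923,223163,227067,128766,130294,126199,126703],[122583],[110287,
    106190,105670,101571,100227,198539,202699,235475]))
theorem ctri_95_137_74_ok : chkTri 95 137 74 ctri_95_137_74 = true := by decide +kernel
def ctri_95_65_81 : TE × TE × TE × TA × TA × TQ :=
    (((66,(101078,[(105687,[105686])])),[(74,(109295,[]),[109271]),(82,(121591,[(125694,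
    [125686])]),[121583])]),((65,(100053,[(100179,[100051])])),[(73,(108269,[(108395,[108267])]),
    [109267,108371]),(81,(120573,[(120699,[120571])]),[121579,120683])]),((129,(165779,[(202707,
    [202643])])),[(137,(174059,[]),[174035]),(145,(186299,[(219123,[219059])]),[186347])]),
    [165755],[101117],([165571,100037],[101062,101582,105679,106231,126710,126206,130301],[129787,
    128891],[194491,227251,223219,255947,235403,202627,198467]))
theorem ctri_95_65_81_ok : chkTri 95 65 81 ctri_95_65_81 = true := by decide +kernel
def ctri_95_65_74 : TE × TE × TE × TA × TA × TQ :=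
    (((81,(120573,[(120699,[120571])])),[(82,(121591,[(125694,[125686])]),[121597]),(145,(186299,
    [(219123,[219059])]),[186235]),(137,(174059,[]),[186347]),(129,(165779,[(202707,[202643])]),
    [174035])]),((65,(100053,[(100179,[100051])])),[(73,(108269,[(108395,[108267])]),[109267,
    108371]),(74,(109295,[]),[109293])]),((66,(101078,[(105687,[105686])])),[]),[101077,109271],
    [122603,120683,186179],([101059,100163],[165763,198539,202699,235507,255923,223163,227067,
    128766,130294,126199,126703],[122583],[110287,106190,105670,101573]))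
theorem ctri_95_65_74_ok : chkTri 95 65 74 ctri_95_65_74 = true := by decide +kernel
def ctri_95_81_74 : TE × TE × TE × TA × TA × TQ :=
    (((65,(100053,[(100179,[100051])])),[(66,(101078,[(105687,[105686])]),[101077]),(129,(165779,
    [(202707,[202643])]),[165715]),(137,(174059,[]),[174035]),(145,(186299,[(219123,[219059])]),
    [186347])]),((81,(120573,[(120699,[120571])])),[(73,(108269,[(108395,[108267])]),[121579,
    120683]),(74,(109295,[]),[109293])]),((82,(121591,[(125694,[125686])])),[]),[122605,121597],
    [110291,108371,173947],([129787,128891],[194491,227251,223219,255947,235403,202627,198339,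
    100038,101582,105679,106199],[110319],[122615,126710,126206,130301]))
theorem ctri_95_81_74_ok : chkTri 95 81 74 ctri_95_81_74 = true := by decide +kernel
def ctri_119_137_81 : TE × TE × TE × TA × TA × TQ :=
    (((72,(110826,[(110938,[110810])])),[(80,(119026,[(123642,[123634])]),[119018]),(136,(176538,
    [(209882,[209818])]),[176474])]),((137,(177629,[])),[(73,(111853,[(111965,[111837])]),
    [177501]),(81,(120061,[]),[120045])]),((74,(113391,[(113503,[113375])])),[(82,(121591,[(125694,
    [125686])]),[121583]),(138,(179103,[(211934,[211870])]),[179039])]),[129757,113629],[128218,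
    112090],([244698],[243161,242585,209816,209112,110832,123121,123641,127738],[128253],[129790,
    130294,126199,126687,114591,212894,212446,245213]))
theorem ctri_119_137_81_ok : chkTri 119 137 81 ctri_119_137_81 = true := by decide +kernel
def ctri_119_137_72 : TE × TE × TE × TA × TA × TQ :=
    (((74,(113391,[(113503,[113375])])),[(82,(121591,[(125694,[125686])]),[121583]),(81,(120061,
    []),[121597]),(80,(119026,[(123642,[123634])]),[120058]),(138,(179103,[(211934,[211870])]),
    [179039])]),((137,(177629,[])),[(73,(111853,[(111965,[111837])]),[177501]),(72,(110826,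
    [(110938,[110810])]),[120026,111962])]),((136,(176538,[(209882,[209818])])),[]),[176474,
    177626],[119021,121565,113629],([243165],[244702,245150,212383,212703,114423,126710,126206,
    130297,127729,123632,123112],[119000,110936],[176536,209305,209881,242650]))
theorem ctri_119_137_72_ok : chkTri 119 137 72 ctri_119_137_72 = true := by decide +kernel
def ctri_119_137_74 : TE × TE × TE × TA × TA × TQ :=
    (((72,(110826,[(110938,[110810])])),[(80,(119026,[(123642,[123634])]),[119018]),(81,(120061,
    []),[120058]),(82,(121591,[(125694,[125686])]),[121597]),(136,(176538,[(209882,[209818])]),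
    [176474])]),((137,(177629,[])),[(73,(111853,[(111965,[111837])]),[177501]),(74,(113391,
    [(113503,[113375])]),[121565,113501])]),((138,(179103,[(211934,[211870])])),[]),[180061,
    179165],[122602,120026,112090],([244698],[243161,242585,209816,209112,110832,123121,123641,
    127742,130294,126199,126703],[122591,114527],[180127,212894,212446,245213]))
theorem ctri_119_137_74_ok : chkTri 119 137 74 ctri_119_137_74 = true := by decide +kernel
def ctri_119_81_72 : TE × TE × TE × TA × TA × TQ :=
    (((74,(113391,[(113503,[113375])])),[(82,(121591,[(125694,[125686])]),[121583]),(138,(179103,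
    [(211934,[211870])]),[179039]),(137,(177629,[]),[179165]),(136,(176538,[(209882,[209818])]),
    [177626])]),((81,(120061,[])),[(73,(111853,[(111965,[111837])]),[120045]),(72,(110826,[(110938,
    [110810])]),[120026,111962])]),((80,(119026,[(123642,[123634])])),[]),[119018,120058],[129757,
    113501,179032],([128253],[129790,130294,126199,126687,114591,212894,212446,245209,242585,
    209816,209240],[176344,110824],[119024,123121,123641,127738]))
theorem ctri_119_81_72_ok : chkTri 119 81 72 ctri_119_81_72 = true := by decide +kernel
def ctri_119_81_74 : TE × TE × TE × TA × TA × TQ :=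
    (((72,(110826,[(110938,[110810])])),[(80,(119026,[(123642,[123634])]),[119018]),(136,(176538,
    [(209882,[209818])]),[176474]),(137,(177629,[]),[177626]),(138,(179103,[(211934,[211870])]),
    [179165])]),((81,(120061,[])),[(73,(111853,[(111965,[111837])]),[120045]),(74,(113391,[(113503,
    [113375])]),[121565,113501])]),((82,(121591,[(125694,[125686])])),[]),[122605,121597],[128218,
    111962,177503],([129786],[128249,127729,123632,123096,111000,209305,209881,242654,245150,
    212383,212831],[179935,114415],[122615,126710,126206,130301]))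
theorem ctri_119_81_74_ok : chkTri 119 81 74 ctri_119_81_74 = true := by decide +kernel
def ctri_119_72_74 : TE × TE × TE × TA × TA × TQ :=
    (((136,(176538,[(209882,[209818])])),[(137,(177629,[]),[177626]),(138,(179103,[(211934,
    [211870])]),[179165])]),((72,(110826,[(110938,[110810])])),[(73,(111853,[(111965,[111837])]),
    [120026,111962]),(74,(113391,[(113503,[113375])]),[121565,113501])]),((80,(119026,[(123642,
    [123634])])),[(81,(120061,[]),[120058]),(82,(121591,[(125694,[125686])]),[121597])]),[119023],
    [176479],([119000,110936],[176536,209305,209881,242654,245150,212383,212831],[179935,114415],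
    [122615,126710,126206,130297,127729,123632,123112]))
theorem ctri_119_72_74_ok : chkTri 119 72 74 ctri_119_72_74 = true := by decide +kernel
def ctri_127_137_81 : TE × TE × TE × TA × TA × TQ :=
    (((74,(113391,[(113503,[113375])])),[(82,(121591,[(125694,[125686])]),[121583]),(138,(179103,
    [(211934,[211870])]),[179039])]),((137,(178141,[(178155,[178139])])),[(73,(112365,[(112477,
    [112349]),(112491,[120539,112475])]),[179035,178027]),(81,(120573,[(120699,[120571])]),[121579,
    120683])]),((145,(186299,[(219123,[219059])])),[]),[194411,186347],[129757,113629],([251867,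
    243677],[244702,245150,212383,212703,114423,126710,126206,130301],[129787,128891],[194491,
    227251,223219,255979]))
theorem ctri_127_137_81_ok : chkTri 127 137 81 ctri_127_137_81 = true := by decide +kernel
def ctri_127_137_74 : TE × TE × TE × TA × TA × TQ :=
    (((81,(120573,[(120699,[120571])])),[(82,(121591,[(125694,[125686])]),[121597]),(145,(186299,
    [(219123,[219059])]),[186235])]),((137,(178141,[(178155,[178139])])),[(73,(112365,[(112477,
    [112349]),(112491,[120539,112475])]),[179035,178027]),(74,(113391,[(113503,[113375])]),[121565,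
    113501])]),((138,(179103,[(211934,[211870])])),[]),[180061,179165],[122603,120811],([244699,
    243691],[251891,255923,223163,227067,128766,130294,126199,126703],[122591,114527],[180127,
    212894,212446,245213]))
theorem ctri_127_137_74_ok : chkTri 127 137 74 ctri_127_137_74 = true := by decide +kernel
def ctri_127_81_74 : TE × TE × TE × TA × TA × TQ :=
    (((137,(178141,[(178155,[178139])])),[(138,(179103,[(211934,[211870])]),[179165]),(145,(186299,
    [(219123,[219059])]),[186347])]),((81,(120573,[(120699,[120571])])),[(73,(112365,[(112477,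
    [112349]),(112491,[120539,112475])]),[121579,120683]),(74,(113391,[(113503,[113375])]),[121565,
    113501])]),((82,(121591,[(125694,[125686])])),[]),[122605,121597],[180059,178043],([129787,
    128891],[194491,227251,223219,255963,243678,245150,212383,212831],[179935,114415],[122615,
    126710,126206,130301]))
theorem ctri_127_81_74_ok : chkTri 127 81 74 ctri_127_81_74 = true := by decide +kernel
def clane_85_65_81 : TD × TU :=
    ((99581,[]),((65,[(73,(74965,[])),(81,(87277,[]))]),(0,[(1,(5266,[(33930,[38026])])),(2,(6805,
    [(35469,[39565])])),(8,(8850,[(41105,[41617])])),(9,(9365,[(9386,[9362])])),(10,(10902,[(10925,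
    [10901]),(44183,[44182])])),(16,(21162,[(53417,[53929])])),(17,(21677,[(21682,[21674]),(58554,
    [58546])])),(18,(23214,[(23221,[23213]),(56495,[56494]),(60093,[60085])])),(64,(66194,[(69777,
    [70289])])),(66,(68246,[(72855,[72854])])),(72,(73898,[(73938,[73874])])),(74,(76463,[(76503,
    [76439])])),(80,(86194,[(90810,[90802]),(86250,[86186])])),(82,(88759,[(92862,[92854]),(88815,
    [88751])]))]),(66757,[(99581,[99525]),(95485,[128253])]),(66749,[(66810,[66746]),(68349,
    [68285])])))
theorem clane_85_65_81_ok : chkLane 85 65 81 clane_85_65_81 = true := by decide +kernel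
def clane_85_65_72 : TD × TU :=
    ((99565,[(106730,[107754])]),((65,[(73,(74965,[])),(72,(74986,[]))]),(0,[(1,(5266,[(33930,
    [38026])])),(2,(6805,[(35469,[39565])])),(8,(8850,[(41105,[41617])])),(9,(9365,[(9386,
    [9362])])),(10,(10902,[(10925,[10901]),(44183,[44182])])),(16,(21162,[(53417,[53929])])),(17,
    (21677,[(21682,[21674]),(58554,[58546])])),(18,(23214,[(23221,[23213]),(56495,[56494]),(60093,
    [60085])])),(64,(66194,[(69777,[70289])])),(66,(68246,[(72855,[72854])])),(74,(76463,[(76503,
    [76439])])),(80,(86194,[(90810,[90802])])),(82,(88759,[(92862,[92854]),(88815,[88751])])),(81,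
    (87229,[(87290,[87226]),(88829,[88765])]))]),(66757,[(99565,[99525]),(106730,[107754]),(73960,
    [106728])]),(66733,[(73898,[74922]),(66770,[66706]),(68333,[68269]),(73938,[73874,74962]),
    (86253,[86189,88813])])))
theorem clane_85_65_72_ok : chkLane 85 65 72 clane_85_65_72 = true := by decide +kernel
def clane_85_65_74 : TD × TU :=
    ((99565,[(109295,[109293])]),((65,[(73,(74965,[])),(74,(76525,[]))]),(0,[(1,(5266,[(33930,
    [38026])])),(2,(6805,[(35469,[39565])])),(8,(8850,[(41105,[41617])])),(9,(9365,[(9386,
    [9362])])),(10,(10902,[(10925,[10901]),(44183,[44182])])),(16,(21162,[(53417,[53929])])),(17,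
    (21677,[(21682,[21674]),(58554,[58546])])),(18,(23214,[(23221,[23213]),(56495,[56494]),(60093,
    [60085])])),(64,(66194,[(69777,[70289])])),(66,(68246,[(72855,[72854])])),(72,(73898,[(73938,
    [73874])])),(80,(86194,[(90810,[90802]),(86250,[86186])])),(81,(87229,[(87290,[87226])])),(82,
    (88759,[(92862,[92854]),(88829,[88765])]))]),(66757,[(99565,[99525]),(109295,[109293]),(77551,
    [110319])]),(66733,[(76463,[76461]),(66794,[66730]),(68309,[68245]),(76503,[77461,76501]),
    (87279,[89770,87274])])))
theorem clane_85_65_74_ok : chkLane 85 65 74 clane_85_65_74 = true := by decide +kernel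
def clane_85_81_72 : TD × TU :=
    ((106733,[(120061,[120045])]),((81,[(73,(87277,[])),(72,(74986,[]))]),(0,[(1,(5266,[(33930,
    [38026])])),(2,(6805,[(35469,[39565])])),(8,(8850,[(41105,[41617])])),(9,(9365,[(9386,
    [9362])])),(10,(10902,[(10925,[10901]),(44183,[44182])])),(16,(21162,[(53417,[53929])])),(17,
    (21677,[(21682,[21674]),(58554,[58546])])),(18,(23214,[(23221,[23213]),(56495,[56494]),(60093,
    [60085])])),(64,(66194,[(69777,[70289])])),(65,(66709,[(66770,[66706])])),(66,(68246,[(72855,
    [72854]),(68309,[68245])])),(74,(76463,[(76503,[76439])])),(80,(86194,[(90810,[90802])])),(82,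
    (88759,[(92862,[92854]),(88815,[88751])]))]),(73960,[(106733,[106728]),(120061,[120045]),
    (95485,[128253])]),(73901,[(87229,[87213]),(73941,[73877]),(76541,[96917,76501]),(86250,
    [86186]),(87290,[95402,87274])])))
theorem clane_85_81_72_ok : chkLane 85 81 72 clane_85_81_72 = true := by decide +kernel
def clane_85_81_74 : TD × TU :=
    ((107759,[(120061,[120045])]),((81,[(73,(87277,[])),(74,(76525,[]))]),(0,[(1,(5266,[(33930,
    [38026])])),(2,(6805,[(35469,[39565])])),(8,(8850,[(41105,[41617])])),(9,(9365,[(9386,
    [9362])])),(10,(10902,[(10925,[10901]),(44183,[44182])])),(16,(21162,[(53417,[53929])])),(17,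
    (21677,[(21682,[21674]),(58554,[58546])])),(18,(23214,[(23221,[23213]),(56495,[56494]),(60093,
    [60085])])),(64,(66194,[(69777,[70289])])),(65,(66709,[(66770,[66706])])),(66,(68246,[(72855,
    [72854]),(68309,[68245])])),(72,(73898,[(73938,[73874])])),(80,(86194,[(90810,[90802]),(86250,
    [86186])])),(82,(88759,[(92862,[92854])]))]),(77551,[(107759,[110319]),(120061,[120045]),
    (95485,[128253])]),(74927,[(87229,[87213]),(74967,[74903]),(75002,[95378,74962]),(88815,
    [88751]),(88829,[96941,88813])])))
theorem clane_85_81_74_ok : chkLane 85 81 74 clane_85_81_74 = true := by decide +kernel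
def clane_85_72_74 : TD × TU :=
    ((106735,[]),((72,[(73,(74986,[])),(74,(76525,[]))]),(0,[(1,(5266,[(33930,[38026])])),(2,(6805,
    [(35469,[39565])])),(8,(8850,[(41105,[41617])])),(9,(9365,[(9386,[9362])])),(10,(10902,[(10925,
    [10901]),(44183,[44182])])),(16,(21162,[(53417,[53929])])),(17,(21677,[(21682,[21674]),(58554,
    [58546])])),(18,(23214,[(23221,[23213]),(56495,[56494]),(60093,[60085])])),(64,(66194,[(69777,
    [70289])])),(65,(66709,[(66770,[66706])])),(66,(68246,[(72855,[72854]),(68309,[68245])])),(80,
    (86194,[(90810,[90802])])),(81,(87229,[(87290,[87226])])),(82,(88759,[(92862,[92854]),(88829,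
    [88765])]))]),(73960,[(106735,[106728]),(77551,[110319])]),(73903,[(73943,[73879]),(86255,
    [86191])])))
theorem clane_85_72_74_ok : chkLane 85 72 74 clane_85_72_74 = true := by decide +kernel
def clane_87_137_65 : TD × TU :=
    ((100077,[(111851,[112363]),(100187,[100059]),(112091,[111835,112475]),(174043,[173915,
    178139])]),((137,[(73,(173403,[])),(65,(74965,[(107859,[107731])]))]),(0,[(1,(5266,[(33930,
    [38026])])),(2,(6805,[(35469,[39565])])),(8,(8850,[(41105,[41617])])),(9,(9365,[(9386,
    [9362])])),(10,(10902,[(10925,[10901]),(44183,[44182])])),(16,(21162,[(53417,[53929])])),(17,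
    (21677,[(21682,[21674]),(58554,[58546])])),(18,(23214,[(23221,[23213]),(56495,[56494]),(60093,
    [60085])])),(64,(66194,[(69777,[70289])])),(66,(68246,[(72855,[72854])])),(72,(73898,[(74066,
    [73874])])),(74,(76463,[(76503,[76439])])),(80,(86194,[(90810,[90802]),(86250,[86186])])),(82,
    (88759,[(92862,[92854]),(88815,[88751])])),(81,(87229,[(87290,[87226]),(88829,[88765])])),(128,
    (164690,[(168273,[168785])])),(129,(165266,[(202194,[202130])])),(136,(172378,[(172434,
    [172370]),(205778,[205714])]))]),(66757,[(100077,[100037]),(111851,[112363]),(99651,[99523]),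
    (100187,[112323,100163]),(112091,[111835,112475]),(174043,[173915,178139]),(239067,[239579,
    243674])]),(66733,[(66794,[66730]),(68333,[68269]),(87277,[119978,87213,88813]),(99674,
    [99546]),(165203,[165202]),(173523,[173395]),(173530,[177490,173522])])))
theorem clane_87_137_65_ok : chkLane 87 137 65 clane_87_137_65 = true := by decide +kernel
def clane_87_137_81 : TD × TU :=
    ((108285,[(111867,[112379]),(108507,[108251]),(112091,[111835,112603])]),((137,[(73,(173403,
    [])),(81,(87277,[]))]),(0,[(1,(5266,[(33930,[38026])])),(2,(6805,[(35469,[39565])])),(8,(8850,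
    [(41105,[41617])])),(9,(9365,[(9386,[9362])])),(10,(10902,[(10925,[10901]),(44183,[44182])])),
    (16,(21162,[(53417,[53929])])),(17,(21677,[(21682,[21674]),(58554,[58546])])),(18,(23214,
    [(23221,[23213]),(56495,[56494]),(60093,[60085])])),(64,(66194,[(69777,[70289])])),(65,(66709,
    [(66898,[66706])])),(66,(68246,[(72855,[72854]),(68309,[68245])])),(72,(73898,[(74066,
    [73874])])),(74,(76463,[(76503,[76439])])),(80,(86194,[(90810,[90802]),(86250,[86186])])),(82,
    (88759,[(92862,[92854]),(88815,[88751])])),(128,(164690,[(168273,[168785])])),(129,(165203,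
    [(165266,[165202]),(202194,[202130])])),(136,(172378,[(172434,[172370]),(205778,[205714])]))]),
    (95485,[(108285,[128765]),(111867,[112379,128762]),(108507,[108251]),(112091,[111835,112603]),
    (239067,[239579,243674])]),(74941,[(74965,[74901]),(75002,[95378,74962]),(76541,[96917,76501]),
    (107987,[107731]),(107994,[111826,107986])])))
theorem clane_87_137_81_ok : chkLane 87 137 81 clane_87_137_81 = true := by decide +kernel
def clane_87_137_72 : TD × TU :=
    ((108269,[(110827,[112363]),(108507,[108251]),(110939,[110811,112475]),(177627,[177499,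
    178139])]),((137,[(73,(173403,[])),(72,(74986,[(107866,[107738])]))]),(0,[(1,(5266,[(33930,
    [38026])])),(2,(6805,[(35469,[39565])])),(8,(8850,[(41105,[41617])])),(9,(9365,[(9386,
    [9362])])),(10,(10902,[(10925,[10901]),(44183,[44182])])),(16,(21162,[(53417,[53929])])),(17,
    (21677,[(21682,[21674]),(58554,[58546])])),(18,(23214,[(23221,[23213]),(56495,[56494]),(60093,
    [60085])])),(64,(66194,[(69777,[70289])])),(65,(66709,[(66898,[66706])])),(66,(68246,[(72855,
    [72854]),(68309,[68245])])),(74,(76463,[(76503,[76439])])),(80,(86194,[(90810,[90802])])),(82,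
    (88759,[(92862,[92854]),(88815,[88751])])),(81,(87229,[(87290,[87226]),(88829,[88765])])),(128,
    (164690,[(168273,[168785])])),(129,(165203,[(165266,[165202]),(202194,[202130])])),(136,
    (172434,[(205778,[205714])]))]),(73960,[(110827,[110824]),(108269,[112363]),(106840,[106712]),
    (108507,[108251]),(110939,[176344,110811,112475]),(177627,[177499,178139]),(239067,[239579,
    243674])]),(73901,[(73941,[73877]),(76525,[88725,76501]),(86253,[86189,88813]),(106835,
    [106707]),(172378,[172370]),(173523,[173395]),(173530,[177490,173522])])))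
theorem clane_87_137_72_ok : chkLane 87 137 72 clane_87_137_72 = true := by decide +kernel
def clane_87_137_74 : TD × TU :=
    ((108271,[(111851,[112363]),(108507,[108251]),(112091,[111835,112603])]),((137,[(73,(173403,
    [])),(74,(76525,[]))]),(0,[(1,(5266,[(33930,[38026])])),(2,(6805,[(35469,[39565])])),(8,(8850,
    [(41105,[41617])])),(9,(9365,[(9386,[9362])])),(10,(10902,[(10925,[10901]),(44183,[44182])])),
    (16,(21162,[(53417,[53929])])),(17,(21677,[(21682,[21674]),(58554,[58546])])),(18,(23214,
    [(23221,[23213]),(56495,[56494]),(60093,[60085])])),(64,(66194,[(69777,[70289])])),(65,(66709,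
    [(66898,[66706])])),(66,(68246,[(72855,[72854]),(68309,[68245])])),(72,(73898,[(74066,
    [73874])])),(80,(86194,[(90810,[90802]),(86250,[86186])])),(81,(87229,[(87290,[87226])])),(82,
    (88759,[(92862,[92854]),(88829,[88765])])),(128,(164690,[(168273,[168785])])),(129,(165203,
    [(165266,[165202]),(202194,[202130])])),(136,(172378,[(172434,[172370]),(205778,[205714])]))]),
    (77551,[(108271,[110319]),(111851,[112363]),(108507,[108251]),(112091,[111835,112603]),(239067,
    [239579,243674])]),(74927,[(74967,[74903]),(74986,[87186,74962]),(87279,[89770,87274]),(107987,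
    [107731]),(107994,[111826,107986])])))
theorem clane_87_137_74_ok : chkLane 87 137 74 clane_87_137_74 = true := by decide +kernel
def clane_87_65_81 : TD × TU :=
    ((100093,[(111867,[112379]),(100187,[100059]),(111963,[111835,112475])]),((65,[(73,(74965,
    [(107859,[107731])])),(81,(87277,[]))]),(0,[(1,(5266,[(33930,[38026])])),(2,(6805,[(35469,
    [39565])])),(8,(8850,[(41105,[41617])])),(9,(9365,[(9386,[9362])])),(10,(10902,[(10925,
    [10901]),(44183,[44182])])),(16,(21162,[(53417,[53929])])),(17,(21677,[(21682,[21674]),(58554,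
    [58546])])),(18,(23214,[(23221,[23213]),(56495,[56494]),(60093,[60085])])),(64,(66194,[(69777,
    [70289])])),(66,(68246,[(72855,[72854])])),(72,(73898,[(74066,[73874])])),(74,(76463,[(76503,
    [76439])])),(80,(86194,[(90810,[90802]),(86250,[86186])])),(82,(88759,[(92862,[92854]),(88815,
    [88751])])),(128,(164690,[(168273,[168785])])),(129,(165266,[(202194,[202130])])),(136,(172378,
    [(172434,[172370]),(205778,[205714])])),(137,(173523,[(173530,[173522])]))]),(66757,[(100093,
    [100037]),(95485,[128765]),(111867,[112379,128762]),(99651,[99523]),(100187,[112323,100163]),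
    (111963,[111835,112475])]),(66749,[(66810,[66746]),(68349,[68285]),(99674,[99546]),(165211,
    [165210])])))
theorem clane_87_65_81_ok : chkLane 87 65 81 clane_87_65_81 = true := by decide +kernel
def clane_87_65_72 : TD × TU :=
    ((100077,[(110827,[112363]),(100187,[100059]),(110939,[110811,112475])]),((65,[(73,(74965,
    [(107859,[107731])])),(72,(74986,[(107866,[107738])]))]),(0,[(1,(5266,[(33930,[38026])])),(2,
    (6805,[(35469,[39565])])),(8,(8850,[(41105,[41617])])),(9,(9365,[(9386,[9362])])),(10,(10902,
    [(10925,[10901]),(44183,[44182])])),(16,(21162,[(53417,[53929])])),(17,(21677,[(21682,[21674]),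
    (58554,[58546])])),(18,(23214,[(23221,[23213]),(56495,[56494]),(60093,[60085])])),(64,(66194,
    [(69777,[70289])])),(66,(68246,[(72855,[72854])])),(74,(76463,[(76503,[76439])])),(80,(86194,
    [(90810,[90802])])),(82,(88759,[(92862,[92854]),(88815,[88751])])),(81,(87229,[(87290,[87226]),
    (88829,[88765])])),(128,(164690,[(168273,[168785])])),(129,(165266,[(202194,[202130])])),(136,
    (172434,[(205778,[205714])])),(137,(173523,[(173530,[173522])]))]),(66757,[(100077,[100037]),
    (110827,[112363]),(73960,[110824]),(99651,[99523]),(100187,[112323,100163]),(106840,[106712]),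
    (110939,[176344,110811,112475])]),(66733,[(73898,[74922]),(66898,[66706]),(68333,[68269]),
    (74066,[73874,75090]),(86253,[86189,88813]),(165211,[165202]),(172378,[172370,173402])])))
theorem clane_87_65_72_ok : chkLane 87 65 72 clane_87_65_72 = true := by decide +kernel
def clane_87_65_74 : TD × TU :=
    ((100077,[(109295,[109293]),(111851,[112363]),(100187,[100059]),(111963,[111835,112475])]),
    ((65,[(73,(74965,[(107859,[107731])])),(74,(76525,[]))]),(0,[(1,(5266,[(33930,[38026])])),(2,
    (6805,[(35469,[39565])])),(8,(8850,[(41105,[41617])])),(9,(9365,[(9386,[9362])])),(10,(10902,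
    [(10925,[10901]),(44183,[44182])])),(16,(21162,[(53417,[53929])])),(17,(21677,[(21682,[21674]),
    (58554,[58546])])),(18,(23214,[(23221,[23213]),(56495,[56494]),(60093,[60085])])),(64,(66194,
    [(69777,[70289])])),(66,(68246,[(72855,[72854])])),(72,(73898,[(74066,[73874])])),(80,(86194,
    [(90810,[90802]),(86250,[86186])])),(81,(87229,[(87290,[87226])])),(82,(88759,[(92862,[92854]),
    (88829,[88765])])),(128,(164690,[(168273,[168785])])),(129,(165266,[(202194,[202130])])),(136,
    (172378,[(172434,[172370]),(205778,[205714])])),(137,(173523,[(173530,[173522])]))]),(66757,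
    [(100077,[100037]),(109295,[109293]),(77551,[110319]),(111851,[112363]),(99651,[99523]),
    (100187,[112323,100163]),(111963,[111835,112475])]),(66733,[(76463,[76461]),(66794,[66730]),
    (68309,[68245]),(76503,[77461,76501]),(87279,[89770,87274]),(99674,[99546]),(165211,
    [165210])])))
theorem clane_87_65_74_ok : chkLane 87 65 74 clane_87_65_74 = true := by decide +kernel
def clane_87_81_72 : TD × TU :=
    ((108285,[(110827,[112363]),(120059,[120043,120571]),(108379,[108251]),(110939,[110811,
    112475])]),((81,[(73,(87277,[])),(72,(74986,[(107866,[107738])]))]),(0,[(1,(5266,[(33930,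
    [38026])])),(2,(6805,[(35469,[39565])])),(8,(8850,[(41105,[41617])])),(9,(9365,[(9386,
    [9362])])),(10,(10902,[(10925,[10901]),(44183,[44182])])),(16,(21162,[(53417,[53929])])),(17,
    (21677,[(21682,[21674]),(58554,[58546])])),(18,(23214,[(23221,[23213]),(56495,[56494]),(60093,
    [60085])])),(64,(66194,[(69777,[70289])])),(65,(66709,[(66898,[66706])])),(66,(68246,[(72855,
    [72854]),(68309,[68245])])),(74,(76463,[(76503,[76439])])),(80,(86194,[(90810,[90802])])),(82,
    (88759,[(92862,[92854]),(88815,[88751])])),(128,(164690,[(168273,[168785])])),(129,(165203,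
    [(165266,[165202]),(202194,[202130])])),(136,(172434,[(205778,[205714])])),(137,(173523,
    [(173530,[173522])]))]),(73960,[(110827,[110824]),(108285,[112363]),(95485,[128765]),(120059,
    [120043,120571,128762]),(106840,[106712]),(108379,[108251]),(110939,[176344,110811,112475])]),
    (73901,[(87229,[87213]),(73941,[73877]),(76541,[96917,76501]),(86250,[86186]),(87290,[95402,
    87274]),(106835,[106707]),(172379,[172371])])))
theorem clane_87_81_72_ok : chkLane 87 81 72 clane_87_81_72 = true := by decide +kernel
def clane_87_81_74 : TD × TU :=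
    ((108271,[(111867,[112363]),(120573,[121579,120571]),(108379,[108251]),(111963,[111835,
    112475])]),((81,[(73,(87277,[])),(74,(76525,[]))]),(0,[(1,(5266,[(33930,[38026])])),(2,(6805,
    [(35469,[39565])])),(8,(8850,[(41105,[41617])])),(9,(9365,[(9386,[9362])])),(10,(10902,[(10925,
    [10901]),(44183,[44182])])),(16,(21162,[(53417,[53929])])),(17,(21677,[(21682,[21674]),(58554,
    [58546])])),(18,(23214,[(23221,[23213]),(56495,[56494]),(60093,[60085])])),(64,(66194,[(69777,
    [70289])])),(65,(66709,[(66898,[66706])])),(66,(68246,[(72855,[72854]),(68309,[68245])])),(72,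
    (73898,[(74066,[73874])])),(80,(86194,[(90810,[90802]),(86250,[86186])])),(82,(88759,[(92862,
    [92854])])),(128,(164690,[(168273,[168785])])),(129,(165203,[(165266,[165202]),(202194,
    [202130])])),(136,(172378,[(172434,[172370]),(205778,[205714])])),(137,(173523,[(173530,
    [173522])]))]),(77551,[(108271,[110319]),(111867,[112363]),(95485,[128251]),(120573,[121579,
    120571,128765]),(108379,[108251]),(111963,[111835,112475])]),(74927,[(87229,[87213]),(74967,
    [74903]),(75002,[95378,74962]),(88815,[88751]),(88829,[96941,88813]),(107859,[107731]),(107866,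
    [111826,107858]),(173403,[173906,173402])])))
theorem clane_87_81_74_ok : chkLane 87 81 74 clane_87_81_74 = true := by decide +kernel
def clane_87_72_74 : TD × TU :=
    ((108271,[(110827,[112363]),(108379,[108251]),(110939,[110811,112475])]),((72,[(73,(74986,
    [(107866,[107738])])),(74,(76525,[]))]),(0,[(1,(5266,[(33930,[38026])])),(2,(6805,[(35469,
    [39565])])),(8,(8850,[(41105,[41617])])),(9,(9365,[(9386,[9362])])),(10,(10902,[(10925,
    [10901]),(44183,[44182])])),(16,(21162,[(53417,[53929])])),(17,(21677,[(21682,[21674]),(58554,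
    [58546])])),(18,(23214,[(23221,[23213]),(56495,[56494]),(60093,[60085])])),(64,(66194,[(69777,
    [70289])])),(65,(66709,[(66898,[66706])])),(66,(68246,[(72855,[72854]),(68309,[68245])])),(80,
    (86194,[(90810,[90802])])),(81,(87229,[(87290,[87226])])),(82,(88759,[(92862,[92854]),(88829,
    [88765])])),(128,(164690,[(168273,[168785])])),(129,(165203,[(165266,[165202]),(202194,
    [202130])])),(136,(172434,[(205778,[205714])])),(137,(173523,[(173530,[173522])]))]),(73960,
    [(110827,[110824]),(108271,[112363]),(77551,[110319]),(106840,[106712]),(108379,[108251]),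
    (110939,[176344,110811,112475])]),(73903,[(73943,[73879]),(86255,[86191]),(106835,[106707]),
    (172379,[172371])])))
theorem clane_87_72_74_ok : chkLane 87 72 74 clane_87_72_74 = true := by decide +kernel
def clane_95_137_65 : TD × TU :=
    ((100077,[(100203,[100075]),(174059,[173931])]),((137,[(73,(173419,[])),(65,(74965,[(107859,
    [107731])]))]),(0,[(1,(5266,[(33930,[38026])])),(2,(6805,[(35469,[39565])])),(8,(8850,[(41105,
    [41617])])),(9,(9365,[(9386,[9362])])),(10,(10902,[(10925,[10901]),(44183,[44182])])),(16,
    (21162,[(53417,[53929])])),(17,(21677,[(21682,[21674]),(58554,[58546])])),(18,(23214,[(23221,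
    [23213]),(56495,[56494]),(60093,[60085])])),(64,(66194,[(69777,[70289])])),(66,(68246,[(72855,
    [72854])])),(72,(73898,[(74066,[73874])])),(74,(76463,[(76503,[76439])])),(80,(86194,[(90810,
    [90802]),(86378,[86186])])),(82,(88759,[(92862,[92854]),(88815,[88751])])),(81,(87229,[(87418,
    [87226]),(88829,[88765])])),(128,(164690,[(168273,[168785])])),(129,(165266,[(202194,
    [202130])])),(136,(172394,[(172434,[172370]),(205778,[205714])])),(144,(184690,[(189306,
    [189298]),(184746,[184682]),(218090,[218026])])),(145,(185723,[(185786,[185722]),(218610,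
    [218546])]))]),(66757,[(100077,[100037]),(99651,[99523]),(100203,[120515,100163]),(174059,
    [173931]),(239083,[239595])]),(66733,[(66922,[66730]),(68333,[68269]),(87277,[119978,87213,
    88813]),(120299,[120554,120170]),(165203,[165202]),(173523,[173395]),(173546,[238930,173418,
    185834])])))
theorem clane_95_137_65_ok : chkLane 95 137 65 clane_95_137_65 = true := by decide +kernel
def clane_95_137_81 : TD × TU :=
    ((108285,[(108411,[108283]),(174059,[173931])]),((137,[(73,(173419,[])),(81,(87277,[(120171,
    [120043])]))]),(0,[(1,(5266,[(33930,[38026])])),(2,(6805,[(35469,[39565])])),(8,(8850,[(41105,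
    [41617])])),(9,(9365,[(9386,[9362])])),(10,(10902,[(10925,[10901]),(44183,[44182])])),(16,
    (21162,[(53417,[53929])])),(17,(21677,[(21682,[21674]),(58554,[58546])])),(18,(23214,[(23221,
    [23213]),(56495,[56494]),(60093,[60085])])),(64,(66194,[(69777,[70289])])),(65,(66709,[(66898,
    [66706])])),(66,(68246,[(72855,[72854]),(68309,[68245])])),(72,(73898,[(74066,[73874])])),(74,
    (76463,[(76503,[76439])])),(80,(86194,[(90810,[90802]),(86378,[86186])])),(82,(88759,[(92862,
    [92854]),(88815,[88751])])),(128,(164690,[(168273,[168785])])),(129,(165203,[(165266,[165202]),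
    (202194,[202130])])),(136,(172394,[(172434,[172370]),(205778,[205714])])),(144,(184690,
    [(189306,[189298]),(184746,[184682]),(218090,[218026])])),(145,(185786,[(218610,[218546])]))]),
    (95485,[(108285,[128765]),(108411,[108283]),(128379,[128251,128891]),(174059,[173931]),(239083,
    [239595])]),(74941,[(74965,[74901]),(75130,[95378,74962]),(76541,[96917,76501]),(107987,
    [108242,107858]),(185723,[185722]),(173546,[185682,173522]),(185835,[186218,185834])])))
theorem clane_95_137_81_ok : chkLane 95 137 81 clane_95_137_81 = true := by decide +kernel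
def clane_95_137_74 : TD × TU :=
    ((108271,[(108523,[108267])]),((137,[(73,(173419,[])),(74,(76525,[]))]),(0,[(1,(5266,[(33930,
    [38026])])),(2,(6805,[(35469,[39565])])),(8,(8850,[(41105,[41617])])),(9,(9365,[(9386,
    [9362])])),(10,(10902,[(10925,[10901]),(44183,[44182])])),(16,(21162,[(53417,[53929])])),(17,
    (21677,[(21682,[21674]),(58554,[58546])])),(18,(23214,[(23221,[23213]),(56495,[56494]),(60093,
    [60085])])),(64,(66194,[(69777,[70289])])),(65,(66709,[(66898,[66706])])),(66,(68246,[(72855,
    [72854]),(68309,[68245])])),(72,(73898,[(74066,[73874])])),(80,(86194,[(90810,[90802]),(86378,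
    [86186])])),(81,(87229,[(87418,[87226])])),(82,(88759,[(92862,[92854]),(88829,[88765])])),(128,
    (164690,[(168273,[168785])])),(129,(165203,[(165266,[165202]),(202194,[202130])])),(136,
    (172394,[(172434,[172370]),(205778,[205714])])),(144,(184690,[(189306,[189298]),(184746,
    [184682]),(218090,[218026])])),(145,(185723,[(185786,[185722]),(218610,[218546])]))]),(77551,
    [(108271,[110319]),(108523,[108267]),(239083,[239595])]),(74927,[(74967,[74903]),(75242,[87186,
    74962]),(87279,[89770,87274]),(107987,[108242,107986]),(120299,[120554,120298])])))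
theorem clane_95_137_74_ok : chkLane 95 137 74 clane_95_137_74 = true := by decide +kernel
def clane_95_65_81 : TD × TU :=
    ((100093,[(100219,[100091])]),((65,[(73,(74965,[(107859,[107731])])),(81,(87277,[(120171,
    [120043])]))]),(0,[(1,(5266,[(33930,[38026])])),(2,(6805,[(35469,[39565])])),(8,(8850,[(41105,
    [41617])])),(9,(9365,[(9386,[9362])])),(10,(10902,[(10925,[10901]),(44183,[44182])])),(16,
    (21162,[(53417,[53929])])),(17,(21677,[(21682,[21674]),(58554,[58546])])),(18,(23214,[(23221,
    [23213]),(56495,[56494]),(60093,[60085])])),(64,(66194,[(69777,[70289])])),(66,(68246,[(72855,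
    [72854])])),(72,(73898,[(74066,[73874])])),(74,(76463,[(76503,[76439])])),(80,(86194,[(90810,
    [90802]),(86378,[86186])])),(82,(88759,[(92862,[92854]),(88815,[88751])])),(128,(164690,
    [(168273,[168785])])),(129,(165266,[(202194,[202130])])),(136,(172394,[(172434,[172370]),
    (205778,[205714])])),(137,(173523,[(173546,[173522])])),(144,(184690,[(189306,[189298]),
    (184746,[184682]),(218090,[218026])])),(145,(185835,[(185786,[185770]),(218610,[222634,
    218602])]))]),(66757,[(100093,[100037]),(95485,[128765]),(99651,[99523]),(100219,[128707,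
    100163]),(128379,[128251,128891])]),(66749,[(66938,[66746]),(68349,[68285]),(165243,
    [165242])])))
theorem clane_95_65_81_ok : chkLane 95 65 81 clane_95_65_81 = true := by decide +kernel
def clane_95_65_74 : TD × TU :=
    ((100077,[(109295,[109293]),(100203,[100075])]),((65,[(73,(74965,[(107859,[107731])])),(74,
    (76525,[]))]),(0,[(1,(5266,[(33930,[38026])])),(2,(6805,[(35469,[39565])])),(8,(8850,[(41105,
    [41617])])),(9,(9365,[(9386,[9362])])),(10,(10902,[(10925,[10901]),(44183,[44182])])),(16,
    (21162,[(53417,[53929])])),(17,(21677,[(21682,[21674]),(58554,[58546])])),(18,(23214,[(23221,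
    [23213]),(56495,[56494]),(60093,[60085])])),(64,(66194,[(69777,[70289])])),(66,(68246,[(72855,
    [72854])])),(72,(73898,[(74066,[73874])])),(80,(86194,[(90810,[90802]),(86378,[86186])])),(81,
    (87229,[(87418,[87226])])),(82,(88759,[(92862,[92854]),(88829,[88765])])),(128,(164690,
    [(168273,[168785])])),(129,(165266,[(202194,[202130])])),(136,(172394,[(172434,[172370]),
    (205778,[205714])])),(144,(184690,[(189306,[189298]),(184746,[184682]),(218090,[218026])])),
    (145,(185723,[(185786,[185722]),(218610,[218546])])),(137,(173523,[(173546,[173522]),(185835,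
    [185834])]))]),(66757,[(100077,[100037]),(109295,[109293]),(77551,[110319]),(99651,[99523]),
    (100203,[120515,100163])]),(66733,[(76463,[76461]),(66922,[66730]),(68309,[68245]),(76503,
    [77461,76501]),(87279,[89770,87274]),(120171,[120554,120170]),(165227,[165226,185707])])))
theorem clane_95_65_74_ok : chkLane 95 65 74 clane_95_65_74 = true := by decide +kernel
def clane_95_81_74 : TD × TU :=
    ((108271,[(120573,[120557]),(108411,[108283])]),((81,[(73,(87277,[(120171,[120043])])),(74,
    (76525,[]))]),(0,[(1,(5266,[(33930,[38026])])),(2,(6805,[(35469,[39565])])),(8,(8850,[(41105,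
    [41617])])),(9,(9365,[(9386,[9362])])),(10,(10902,[(10925,[10901]),(44183,[44182])])),(16,
    (21162,[(53417,[53929])])),(17,(21677,[(21682,[21674]),(58554,[58546])])),(18,(23214,[(23221,
    [23213]),(56495,[56494]),(60093,[60085])])),(64,(66194,[(69777,[70289])])),(65,(66709,[(66898,
    [66706])])),(66,(68246,[(72855,[72854]),(68309,[68245])])),(72,(73898,[(74066,[73874])])),(80,
    (86194,[(90810,[90802]),(86378,[86186])])),(82,(88759,[(92862,[92854])])),(128,(164690,
    [(168273,[168785])])),(129,(165203,[(165266,[165202]),(202194,[202130])])),(136,(172394,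
    [(172434,[172370]),(205778,[205714])])),(137,(173523,[(173546,[173522])])),(144,(184690,
    [(189306,[189298]),(184746,[184682]),(218090,[218026])])),(145,(185835,[(185786,[185770]),
    (218610,[222634,218602])]))]),(77551,[(108271,[110319]),(120573,[120557]),(95485,[128765]),
    (108411,[108283]),(128379,[128251,128891])]),(74927,[(87229,[87213]),(74967,[74903]),(75130,
    [95378,74962]),(88815,[88751]),(88829,[96941,88813]),(107859,[108242,107858]),(173435,[173906,
    173434])])))
theorem clane_95_81_74_ok : chkLane 95 81 74 clane_95_81_74 = true := by decide +kernel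
def clane_119_137_81 : TD × TU :=
    ((111869,[(112093,[111837])]),((137,[(73,(173405,[])),(81,(87277,[]))]),(0,[(1,(5266,[(33930,
    [38026])])),(2,(6805,[(35469,[39565])])),(8,(8850,[(41105,[41617])])),(9,(9365,[(9386,
    [9362])])),(10,(10902,[(10925,[10901]),(44183,[44182])])),(16,(21162,[(53417,[53929])])),(17,
    (21677,[(21682,[21674]),(58554,[58546])])),(18,(23214,[(23221,[23213]),(56495,[56494]),(60093,
    [60085])])),(64,(66194,[(69777,[70289])])),(65,(66709,[(66898,[66706])])),(66,(68246,[(72855,
    [72854]),(68437,[68245])])),(72,(73898,[(74066,[73874])])),(74,(76463,[(76631,[76439])])),(80,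
    (86194,[(90810,[90802]),(86250,[86186])])),(82,(88759,[(92862,[92854]),(88815,[88751])])),(128,
    (164690,[(168273,[168785])])),(129,(165205,[(165266,[165202]),(202194,[202130])])),(130,
    (166742,[(171351,[171350]),(166805,[166741]),(203733,[203669])])),(136,(172378,[(172434,
    [172370]),(205778,[205714])])),(138,(174943,[(174999,[174935]),(207830,[207766])]))]),(95485,
    [(111869,[128253]),(112093,[111837]),(239069,[243165])]),(74941,[(75221,[74901]),(75002,[95378,
    74962]),(76541,[96917,76501]),(107994,[111826,107986]),(109533,[113365,109525])])))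
theorem clane_119_137_81_ok : chkLane 119 137 81 clane_119_137_81 = true := by decide +kernel
def clane_119_137_72 : TD × TU :=
    ((110829,[(110941,[110813]),(177629,[177501])]),((137,[(73,(173405,[])),(72,(74986,[(107866,
    [107738])]))]),(0,[(1,(5266,[(33930,[38026])])),(2,(6805,[(35469,[39565])])),(8,(8850,[(41105,
    [41617])])),(9,(9365,[(9386,[9362])])),(10,(10902,[(10925,[10901]),(44183,[44182])])),(16,
    (21162,[(53417,[53929])])),(17,(21677,[(21682,[21674]),(58554,[58546])])),(18,(23214,[(23221,
    [23213]),(56495,[56494]),(60093,[60085])])),(64,(66194,[(69777,[70289])])),(65,(66709,[(66898,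
    [66706])])),(66,(68246,[(72855,[72854]),(68437,[68245])])),(74,(76463,[(76631,[76439])])),(80,
    (86194,[(90810,[90802])])),(82,(88759,[(92862,[92854]),(88815,[88751])])),(81,(87229,[(87290,
    [87226]),(88829,[88765])])),(128,(164690,[(168273,[168785])])),(129,(165205,[(165266,[165202]),
    (202194,[202130])])),(130,(166742,[(171351,[171350]),(166805,[166741]),(203733,[203669])])),
    (136,(172434,[(205778,[205714])])),(138,(174943,[(174999,[174935]),(207830,[207766])]))]),
    (73960,[(110829,[110824]),(106840,[106712]),(110941,[113368,110936]),(177629,[177501]),(239069,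
    [243165])]),(73901,[(74069,[73877]),(76525,[88725,76501]),(86253,[86189,88813]),(109533,
    [113365,109397]),(172378,[172370]),(173525,[173397,175061]),(173530,[177490,173522])])))
theorem clane_119_137_72_ok : chkLane 119 137 72 clane_119_137_72 = true := by decide +kernel
def clane_119_137_74 : TD × TU :=
    ((111855,[(111967,[111839]),(177629,[177501])]),((137,[(73,(173405,[])),(74,(76525,[(109405,
    [109277])]))]),(0,[(1,(5266,[(33930,[38026])])),(2,(6805,[(35469,[39565])])),(8,(8850,[(41105,
    [41617])])),(9,(9365,[(9386,[9362])])),(10,(10902,[(10925,[10901]),(44183,[44182])])),(16,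
    (21162,[(53417,[53929])])),(17,(21677,[(21682,[21674]),(58554,[58546])])),(18,(23214,[(23221,
    [23213]),(56495,[56494]),(60093,[60085])])),(64,(66194,[(69777,[70289])])),(65,(66709,[(66898,
    [66706])])),(66,(68246,[(72855,[72854]),(68437,[68245])])),(72,(73898,[(74066,[73874])])),(80,
    (86194,[(90810,[90802]),(86250,[86186])])),(81,(87229,[(87290,[87226])])),(82,(88759,[(92862,
    [92854]),(88829,[88765])])),(128,(164690,[(168273,[168785])])),(129,(165205,[(165266,[165202]),
    (202194,[202130])])),(130,(166742,[(171351,[171350]),(166805,[166741]),(203733,[203669])])),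
    (136,(172378,[(172434,[172370]),(205778,[205714])])),(138,(174999,[(207830,[207766])]))]),
    (77551,[(111855,[114415]),(110431,[110303]),(111967,[111839,114527]),(177629,[177501]),(239069,
    [243165])]),(74927,[(75095,[74903]),(74986,[87186,74962]),(87279,[89770,87274]),(107994,
    [111826,107858]),(174943,[174935]),(173525,[174930,173522]),(175069,[179029,175061])])))
theorem clane_119_137_74_ok : chkLane 119 137 74 clane_119_137_74 = true := by decide +kernel
def clane_119_81_72 : TD × TU :=
    ((110829,[(120061,[120045]),(110941,[110813])]),((81,[(73,(87277,[])),(72,(74986,[(107866,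
    [107738])]))]),(0,[(1,(5266,[(33930,[38026])])),(2,(6805,[(35469,[39565])])),(8,(8850,[(41105,
    [41617])])),(9,(9365,[(9386,[9362])])),(10,(10902,[(10925,[10901]),(44183,[44182])])),(16,
    (21162,[(53417,[53929])])),(17,(21677,[(21682,[21674]),(58554,[58546])])),(18,(23214,[(23221,
    [23213]),(56495,[56494]),(60093,[60085])])),(64,(66194,[(69777,[70289])])),(65,(66709,[(66898,
    [66706])])),(66,(68246,[(72855,[72854]),(68437,[68245])])),(74,(76463,[(76631,[76439])])),(80,
    (86194,[(90810,[90802])])),(82,(88759,[(92862,[92854]),(88815,[88751])])),(128,(164690,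
    [(168273,[168785])])),(129,(165205,[(165266,[165202]),(202194,[202130])])),(130,(166742,
    [(171351,[171350]),(166805,[166741]),(203733,[203669])])),(136,(172434,[(205778,[205714])])),
    (138,(174943,[(174999,[174935]),(207830,[207766])])),(137,(173525,[(173530,[173522]),(175069,
    [175061])]))]),(73960,[(110829,[110824]),(120061,[120045]),(95485,[128253]),(106840,[106712]),
    (110941,[113368,110936])]),(73901,[(87229,[87213]),(74069,[73877]),(76541,[96917,76501]),
    (86250,[86186]),(87290,[95402,87274]),(109405,[113365,109397]),(172381,[172373,174941])])))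
theorem clane_119_81_72_ok : chkLane 119 81 72 clane_119_81_72 = true := by decide +kernel
def clane_119_81_74 : TD × TU :=
    ((111855,[(120061,[120045]),(111967,[111839])]),((81,[(73,(87277,[])),(74,(76525,[(109405,
    [109277])]))]),(0,[(1,(5266,[(33930,[38026])])),(2,(6805,[(35469,[39565])])),(8,(8850,[(41105,
    [41617])])),(9,(9365,[(9386,[9362])])),(10,(10902,[(10925,[10901]),(44183,[44182])])),(16,
    (21162,[(53417,[53929])])),(17,(21677,[(21682,[21674]),(58554,[58546])])),(18,(23214,[(23221,
    [23213]),(56495,[56494]),(60093,[60085])])),(64,(66194,[(69777,[70289])])),(65,(66709,[(66898,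
    [66706])])),(66,(68246,[(72855,[72854]),(68437,[68245])])),(72,(73898,[(74066,[73874])])),(80,
    (86194,[(90810,[90802]),(86250,[86186])])),(82,(88759,[(92862,[92854])])),(128,(164690,
    [(168273,[168785])])),(129,(165205,[(165266,[165202]),(202194,[202130])])),(130,(166742,
    [(171351,[171350]),(166805,[166741]),(203733,[203669])])),(136,(172378,[(172434,[172370]),
    (205778,[205714])])),(137,(173525,[(173530,[173522])])),(138,(174999,[(175069,[174997]),
    (207830,[208277,207829])]))]),(77551,[(111855,[114415]),(120061,[120045]),(95485,[128253]),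
    (110431,[110303]),(111967,[111839,114527])]),(74927,[(87229,[87213]),(75095,[74903]),(75002,
    [95378,74962]),(88815,[88751]),(88829,[96941,88813]),(107866,[111826,107858]),(173407,[175954,
    173402])])))
theorem clane_119_81_74_ok : chkLane 119 81 74 clane_119_81_74 = true := by decide +kernel
def clane_119_72_74 : TD × TU :=
    ((110831,[(110943,[110815])]),((72,[(73,(74986,[(107866,[107738])])),(74,(76525,[(109405,
    [109277])]))]),(0,[(1,(5266,[(33930,[38026])])),(2,(6805,[(35469,[39565])])),(8,(8850,[(41105,
    [41617])])),(9,(9365,[(9386,[9362])])),(10,(10902,[(10925,[10901]),(44183,[44182])])),(16,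
    (21162,[(53417,[53929])])),(17,(21677,[(21682,[21674]),(58554,[58546])])),(18,(23214,[(23221,
    [23213]),(56495,[56494]),(60093,[60085])])),(64,(66194,[(69777,[70289])])),(65,(66709,[(66898,
    [66706])])),(66,(68246,[(72855,[72854]),(68437,[68245])])),(80,(86194,[(90810,[90802])])),(81,
    (87229,[(87290,[87226])])),(82,(88759,[(92862,[92854]),(88829,[88765])])),(128,(164690,
    [(168273,[168785])])),(129,(165205,[(165266,[165202]),(202194,[202130])])),(130,(166742,
    [(171351,[171350]),(166805,[166741]),(203733,[203669])])),(136,(172434,[(205778,[205714])])),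
    (137,(173525,[(173530,[173522])])),(138,(174999,[(175069,[174997]),(207830,[208277,
    207829])]))]),(73960,[(110831,[110824]),(77551,[114415]),(106840,[106712]),(110431,[110303]),
    (110943,[176344,110815,114527])]),(73903,[(74071,[73879]),(86255,[86191]),(172383,
    [172375])])))
theorem clane_119_72_74_ok : chkLane 119 72 74 clane_119_72_74 = true := by decide +kernel
def clane_127_137_81 : TD × TU :=
    ((112381,[(112605,[112349]),(112507,[128731,112475]),(178155,[186203,178139])]),((137,[(73,
    (173405,[(177515,[177499])])),(81,(87277,[(120171,[120043])]))]),(0,[(1,(5266,[(33930,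
    [38026])])),(2,(6805,[(35469,[39565])])),(8,(8850,[(41105,[41617])])),(9,(9365,[(9386,
    [9362])])),(10,(10902,[(10925,[10901]),(44183,[44182])])),(16,(21162,[(53417,[53929])])),(17,
    (21677,[(21682,[21674]),(58554,[58546])])),(18,(23214,[(23221,[23213]),(56495,[56494]),(60093,
    [60085])])),(64,(66194,[(69777,[70289])])),(65,(66709,[(66898,[66706])])),(66,(68246,[(72855,
    [72854]),(68437,[68245])])),(72,(73898,[(74066,[73874])])),(74,(76463,[(76631,[76439])])),(80,
    (86194,[(90810,[90802]),(86378,[86186])])),(82,(88759,[(92862,[92854]),(88815,[88751])])),(128,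
    (164690,[(168273,[168785])])),(129,(165205,[(165266,[165202]),(202194,[202130])])),(130,
    (166742,[(171351,[171350]),(166805,[166741]),(203733,[203669])])),(136,(172394,[(172434,
    [172370]),(205778,[205714])])),(138,(174943,[(174999,[174935]),(207830,[207766])])),(144,
    (184690,[(189306,[189298]),(184746,[184682]),(218090,[218026])])),(145,(185786,[(218610,
    [218546])]))]),(95485,[(112381,[128765]),(112605,[112349]),(112507,[128731,112475]),(128379,
    [128251,128891]),(178155,[186203,178139]),(239069,[243677]),(243179,[243163,243691])]),(74941,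
    [(75221,[74901]),(75130,[95378,75090]),(76541,[96917,76501]),(109533,[113365,109525]),(185723,
    [185722]),(173546,[185682,173522]),(185835,[186218,185834])])))
theorem clane_127_137_81_ok : chkLane 127 137 81 clane_127_137_81 = true := by decide +kernel
def clane_127_137_74 : TD × TU :=
    ((112367,[(112479,[112351]),(112619,[120539,112475]),(178141,[179035,178139])]),((137,[(73,
    (173405,[(177515,[177499])])),(74,(76525,[(109405,[109277])]))]),(0,[(1,(5266,[(33930,
    [38026])])),(2,(6805,[(35469,[39565])])),(8,(8850,[(41105,[41617])])),(9,(9365,[(9386,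
    [9362])])),(10,(10902,[(10925,[10901]),(44183,[44182])])),(16,(21162,[(53417,[53929])])),(17,
    (21677,[(21682,[21674]),(58554,[58546])])),(18,(23214,[(23221,[23213]),(56495,[56494]),(60093,
    [60085])])),(64,(66194,[(69777,[70289])])),(65,(66709,[(66898,[66706])])),(66,(68246,[(72855,
    [72854]),(68437,[68245])])),(72,(73898,[(74066,[73874])])),(80,(86194,[(90810,[90802]),(86378,
    [86186])])),(81,(87229,[(87418,[87226])])),(82,(88759,[(92862,[92854]),(88829,[88765])])),(128,
    (164690,[(168273,[168785])])),(129,(165205,[(165266,[165202]),(202194,[202130])])),(130,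
    (166742,[(171351,[171350]),(166805,[166741]),(203733,[203669])])),(136,(172394,[(172434,
    [172370]),(205778,[205714])])),(138,(174999,[(207830,[207766])])),(144,(184690,[(189306,
    [189298]),(184746,[184682]),(218090,[218026])])),(145,(185723,[(185786,[185722]),(218610,
    [218546])]))]),(77551,[(112367,[114415]),(110431,[110303]),(112479,[112351,114527]),(112619,
    [120539,112475]),(178141,[179035,178139]),(239069,[243677]),(243179,[243163,243691])]),(74927,
    [(75095,[74903]),(75242,[87186,75090]),(87279,[89770,87274]),(120299,[120554,120298]),(174943,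
    [174935]),(173525,[174930,173522]),(175069,[179029,175061])])))
theorem clane_127_137_74_ok : chkLane 127 137 74 clane_127_137_74 = true := by decide +kernel
def clane_127_81_74 : TD × TU :=
    ((112367,[(120573,[120557]),(112479,[112351]),(112507,[128731,112475])]),((81,[(73,(87277,
    [(120171,[120043])])),(74,(76525,[(109405,[109277])]))]),(0,[(1,(5266,[(33930,[38026])])),(2,
    (6805,[(35469,[39565])])),(8,(8850,[(41105,[41617])])),(9,(9365,[(9386,[9362])])),(10,(10902,
    [(10925,[10901]),(44183,[44182])])),(16,(21162,[(53417,[53929])])),(17,(21677,[(21682,[21674]),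
    (58554,[58546])])),(18,(23214,[(23221,[23213]),(56495,[56494]),(60093,[60085])])),(64,(66194,
    [(69777,[70289])])),(65,(66709,[(66898,[66706])])),(66,(68246,[(72855,[72854]),(68437,
    [68245])])),(72,(73898,[(74066,[73874])])),(80,(86194,[(90810,[90802]),(86378,[86186])])),(82,
    (88759,[(92862,[92854])])),(128,(164690,[(168273,[168785])])),(129,(165205,[(165266,[165202]),
    (202194,[202130])])),(130,(166742,[(171351,[171350]),(166805,[166741]),(203733,[203669])])),
    (136,(172394,[(172434,[172370]),(205778,[205714])])),(137,(173525,[(173546,[173522])])),(138,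
    (174999,[(175069,[174997]),(207830,[208277,207829])])),(144,(184690,[(189306,[189298]),(184746,
    [184682]),(218090,[218026])])),(145,(185835,[(185786,[185770]),(218610,[222634,218602])]))]),
    (77551,[(112367,[114415]),(120573,[120557]),(95485,[128765]),(110431,[110303]),(112479,[112351,
    114527]),(112507,[128731,112475]),(128379,[128251,128891])]),(74927,[(87229,[87213]),(75095,
    [74903]),(75130,[95378,75090]),(88815,[88751]),(88829,[96941,88813]),(173407,[175954,173402]),
    (177531,[178010,177530])])))
theorem clane_127_81_74_ok : chkLane 127 81 74 clane_127_81_74 = true := by decide +kernel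
theorem cert_pair_85 : ∀ c ∈ dirs, ∀ d ∈ dirs, c ≠ d → port 85 c = true → port 85 d = true → PairOk 85 c d ∨ PairOk 85 d c := by
  intro c hc d hd
  simp only [dirs, List.mem_cons, List.not_mem_nil, or_false] at hc hd
  rcases hc with rfl | rfl | rfl | rfl | rfl | rfl <;> rcases hd with rfl | rfl | rfl | rfl | rfl | rfl
  · exact fun h => absurd rfl h
  · exact fun _ h _ => absurd h (by decide +kernel)
  · exact fun _ h _ => absurd h (by decide +kernel)
  · exact fun _ h _ => absurd h (by decide +kernel)
  · exact fun _ h _ => absurd h (by decide +kernel)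
  · exact fun _ h _ => absurd h (by decide +kernel)
  · exact fun _ h _ => absurd h (by decide +kernel)
  · exact fun h => absurd rfl h
  · exact fun _ h _ => absurd h (by decide +kernel)
  · exact fun _ h _ => absurd h (by decide +kernel)
  · exact fun _ h _ => absurd h (by decide +kernel)
  · exact fun _ h _ => absurd h (by decide +kernel)
  · exact fun _ _ h => absurd h (by decide +kernel)
  · exact fun _ _ h => absurd h (by decide +kernel)
  · exact fun h => absurd rfl h
  · exact fun _ _ _ => Or.inl ⟨⟨_, ctri_85_65_81_ok⟩, _, clane_85_65_81_ok⟩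
  · exact fun _ _ _ => Or.inl ⟨⟨_, ctri_85_65_72_ok⟩, _, clane_85_65_72_ok⟩
  · exact fun _ _ _ => Or.inl ⟨⟨_, ctri_85_65_74_ok⟩, _, clane_85_65_74_ok⟩
  · exact fun _ _ h => absurd h (by decide +kernel)
  · exact fun _ _ h => absurd h (by decide +kernel)
  · exact fun _ _ _ => Or.inr ⟨⟨_, ctri_85_65_81_ok⟩, _, clane_85_65_81_ok⟩
  · exact fun h => absurd rfl h
  · exact fun _ _ _ => Or.inl ⟨⟨_, ctri_85_81_72_ok⟩, _, clane_85_81_72_ok⟩
  · exact fun _ _ _ => Or.inl ⟨⟨_, ctri_85_81_74_ok⟩, _, clane_85_81_74_ok⟩
  · exact fun _ _ h => absurd h (by decide +kernel)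
  · exact fun _ _ h => absurd h (by decide +kernel)
  · exact fun _ _ _ => Or.inr ⟨⟨_, ctri_85_65_72_ok⟩, _, clane_85_65_72_ok⟩
  · exact fun _ _ _ => Or.inr ⟨⟨_, ctri_85_81_72_ok⟩, _, clane_85_81_72_ok⟩
  · exact fun h => absurd rfl h
  · exact fun _ _ _ => Or.inl ⟨⟨_, ctri_85_72_74_ok⟩, _, clane_85_72_74_ok⟩
  · exact fun _ _ h => absurd h (by decide +kernel)
  · exact fun _ _ h => absurd h (by decide +kernel)
  · exact fun _ _ _ => Or.inr ⟨⟨_, ctri_85_65_74_ok⟩, _, clane_85_65_74_ok⟩
  · exact fun _ _ _ => Or.inr ⟨⟨_, ctri_85_81_74_ok⟩, _, clane_85_81_74_ok⟩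
  · exact fun _ _ _ => Or.inr ⟨⟨_, ctri_85_72_74_ok⟩, _, clane_85_72_74_ok⟩
  · exact fun h => absurd rfl h
theorem cert_pair_87 : ∀ c ∈ dirs, ∀ d ∈ dirs, c ≠ d → port 87 c = true → port 87 d = true → PairOk 87 c d ∨ PairOk 87 d c := by
  intro c hc d hd
  simp only [dirs, List.mem_cons, List.not_mem_nil, or_false] at hc hd
  rcases hc with rfl | rfl | rfl | rfl | rfl | rfl <;> rcases hd with rfl | rfl | rfl | rfl | rfl | rfl
  · exact fun h => absurd rfl h
  · exact fun _ h _ => absurd h (by decide +kernel)
  · exact fun _ h _ => absurd h (by decide +kernel)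
  · exact fun _ h _ => absurd h (by decide +kernel)
  · exact fun _ h _ => absurd h (by decide +kernel)
  · exact fun _ h _ => absurd h (by decide +kernel)
  · exact fun _ _ h => absurd h (by decide +kernel)
  · exact fun h => absurd rfl h
  · exact fun _ _ _ => Or.inl ⟨⟨_, ctri_87_137_65_ok⟩, _, clane_87_137_65_ok⟩
  · exact fun _ _ _ => Or.inl ⟨⟨_, ctri_87_137_81_ok⟩, _, clane_87_137_81_ok⟩
  · exact fun _ _ _ => Or.inl ⟨⟨_, ctri_87_137_72_ok⟩, _, clane_87_137_72_ok⟩
  · exact fun _ _ _ => Or.inl ⟨⟨_, ctri_87_137_74_ok⟩, _, clane_87_137_74_ok⟩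
  · exact fun _ _ h => absurd h (by decide +kernel)
  · exact fun _ _ _ => Or.inr ⟨⟨_, ctri_87_137_65_ok⟩, _, clane_87_137_65_ok⟩
  · exact fun h => absurd rfl h
  · exact fun _ _ _ => Or.inl ⟨⟨_, ctri_87_65_81_ok⟩, _, clane_87_65_81_ok⟩
  · exact fun _ _ _ => Or.inl ⟨⟨_, ctri_87_65_72_ok⟩, _, clane_87_65_72_ok⟩
  · exact fun _ _ _ => Or.inl ⟨⟨_, ctri_87_65_74_ok⟩, _, clane_87_65_74_ok⟩
  · exact fun _ _ h => absurd h (by decide +kernel)
  · exact fun _ _ _ => Or.inr ⟨⟨_, ctri_87_137_81_ok⟩, _, clane_87_137_81_ok⟩
  · exact fun _ _ _ => Or.inr ⟨⟨_, ctri_87_65_81_ok⟩, _, clane_87_65_81_ok⟩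
  · exact fun h => absurd rfl h
  · exact fun _ _ _ => Or.inl ⟨⟨_, ctri_87_81_72_ok⟩, _, clane_87_81_72_ok⟩
  · exact fun _ _ _ => Or.inl ⟨⟨_, ctri_87_81_74_ok⟩, _, clane_87_81_74_ok⟩
  · exact fun _ _ h => absurd h (by decide +kernel)
  · exact fun _ _ _ => Or.inr ⟨⟨_, ctri_87_137_72_ok⟩, _, clane_87_137_72_ok⟩
  · exact fun _ _ _ => Or.inr ⟨⟨_, ctri_87_65_72_ok⟩, _, clane_87_65_72_ok⟩
  · exact fun _ _ _ => Or.inr ⟨⟨_, ctri_87_81_72_ok⟩, _, clane_87_81_72_ok⟩
  · exact fun h => absurd rfl h
  · exact fun _ _ _ => Or.inl ⟨⟨_, ctri_87_72_74_ok⟩, _, clane_87_72_74_ok⟩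
  · exact fun _ _ h => absurd h (by decide +kernel)
  · exact fun _ _ _ => Or.inr ⟨⟨_, ctri_87_137_74_ok⟩, _, clane_87_137_74_ok⟩
  · exact fun _ _ _ => Or.inr ⟨⟨_, ctri_87_65_74_ok⟩, _, clane_87_65_74_ok⟩
  · exact fun _ _ _ => Or.inr ⟨⟨_, ctri_87_81_74_ok⟩, _, clane_87_81_74_ok⟩
  · exact fun _ _ _ => Or.inr ⟨⟨_, ctri_87_72_74_ok⟩, _, clane_87_72_74_ok⟩
  · exact fun h => absurd rfl h
theorem cert_pair_95 : ∀ c ∈ dirs, ∀ d ∈ dirs, c ≠ d → port 95 c = true → port 95 d = true → PairOk 95 c d ∨ PairOk 95 d c := by
  intro c hc d hd
  simp only [dirs, List.mem_cons, List.not_mem_nil, or_false] at hc hd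
  rcases hc with rfl | rfl | rfl | rfl | rfl | rfl <;> rcases hd with rfl | rfl | rfl | rfl | rfl | rfl
  · exact fun h => absurd rfl h
  · exact fun _ h _ => absurd h (by decide +kernel)
  · exact fun _ h _ => absurd h (by decide +kernel)
  · exact fun _ h _ => absurd h (by decide +kernel)
  · exact fun _ h _ => absurd h (by decide +kernel)
  · exact fun _ h _ => absurd h (by decide +kernel)
  · exact fun _ _ h => absurd h (by decide +kernel)
  · exact fun h => absurd rfl h
  · exact fun _ _ _ => Or.inl ⟨⟨_, ctri_95_137_65_ok⟩, _, clane_95_137_65_ok⟩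
  · exact fun _ _ _ => Or.inl ⟨⟨_, ctri_95_137_81_ok⟩, _, clane_95_137_81_ok⟩
  · exact fun _ _ h => absurd h (by decide +kernel)
  · exact fun _ _ _ => Or.inl ⟨⟨_, ctri_95_137_74_ok⟩, _, clane_95_137_74_ok⟩
  · exact fun _ _ h => absurd h (by decide +kernel)
  · exact fun _ _ _ => Or.inr ⟨⟨_, ctri_95_137_65_ok⟩, _, clane_95_137_65_ok⟩
  · exact fun h => absurd rfl h
  · exact fun _ _ _ => Or.inl ⟨⟨_, ctri_95_65_81_ok⟩, _, clane_95_65_81_ok⟩
  · exact fun _ _ h => absurd h (by decide +kernel)
  · exact fun _ _ _ => Or.inl ⟨⟨_, ctri_95_65_74_ok⟩, _, clane_95_65_74_ok⟩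
  · exact fun _ _ h => absurd h (by decide +kernel)
  · exact fun _ _ _ => Or.inr ⟨⟨_, ctri_95_137_81_ok⟩, _, clane_95_137_81_ok⟩
  · exact fun _ _ _ => Or.inr ⟨⟨_, ctri_95_65_81_ok⟩, _, clane_95_65_81_ok⟩
  · exact fun h => absurd rfl h
  · exact fun _ _ h => absurd h (by decide +kernel)
  · exact fun _ _ _ => Or.inl ⟨⟨_, ctri_95_81_74_ok⟩, _, clane_95_81_74_ok⟩
  · exact fun _ h _ => absurd h (by decide +kernel)
  · exact fun _ h _ => absurd h (by decide +kernel)
  · exact fun _ h _ => absurd h (by decide +kernel)
  · exact fun _ h _ => absurd h (by decide +kernel)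
  · exact fun h => absurd rfl h
  · exact fun _ h _ => absurd h (by decide +kernel)
  · exact fun _ _ h => absurd h (by decide +kernel)
  · exact fun _ _ _ => Or.inr ⟨⟨_, ctri_95_137_74_ok⟩, _, clane_95_137_74_ok⟩
  · exact fun _ _ _ => Or.inr ⟨⟨_, ctri_95_65_74_ok⟩, _, clane_95_65_74_ok⟩
  · exact fun _ _ _ => Or.inr ⟨⟨_, ctri_95_81_74_ok⟩, _, clane_95_81_74_ok⟩
  · exact fun _ _ h => absurd h (by decide +kernel)
  · exact fun h => absurd rfl h
theorem cert_pair_119 : ∀ c ∈ dirs, ∀ d ∈ dirs, c ≠ d → port 119 c = true → port 119 d = true → PairOk 119 c d ∨ PairOk 119 d c := by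
  intro c hc d hd
  simp only [dirs, List.mem_cons, List.not_mem_nil, or_false] at hc hd
  rcases hc with rfl | rfl | rfl | rfl | rfl | rfl <;> rcases hd with rfl | rfl | rfl | rfl | rfl | rfl
  · exact fun h => absurd rfl h
  · exact fun _ h _ => absurd h (by decide +kernel)
  · exact fun _ h _ => absurd h (by decide +kernel)
  · exact fun _ h _ => absurd h (by decide +kernel)
  · exact fun _ h _ => absurd h (by decide +kernel)
  · exact fun _ h _ => absurd h (by decide +kernel)
  · exact fun _ _ h => absurd h (by decide +kernel)
  · exact fun h => absurd rfl h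
  · exact fun _ _ h => absurd h (by decide +kernel)
  · exact fun _ _ _ => Or.inl ⟨⟨_, ctri_119_137_81_ok⟩, _, clane_119_137_81_ok⟩
  · exact fun _ _ _ => Or.inl ⟨⟨_, ctri_119_137_72_ok⟩, _, clane_119_137_72_ok⟩
  · exact fun _ _ _ => Or.inl ⟨⟨_, ctri_119_137_74_ok⟩, _, clane_119_137_74_ok⟩
  · exact fun _ h _ => absurd h (by decide +kernel)
  · exact fun _ h _ => absurd h (by decide +kernel)
  · exact fun h => absurd rfl h
  · exact fun _ h _ => absurd h (by decide +kernel)
  · exact fun _ h _ => absurd h (by decide +kernel)
  · exact fun _ h _ => absurd h (by decide +kernel)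
  · exact fun _ _ h => absurd h (by decide +kernel)
  · exact fun _ _ _ => Or.inr ⟨⟨_, ctri_119_137_81_ok⟩, _, clane_119_137_81_ok⟩
  · exact fun _ _ h => absurd h (by decide +kernel)
  · exact fun h => absurd rfl h
  · exact fun _ _ _ => Or.inl ⟨⟨_, ctri_119_81_72_ok⟩, _, clane_119_81_72_ok⟩
  · exact fun _ _ _ => Or.inl ⟨⟨_, ctri_119_81_74_ok⟩, _, clane_119_81_74_ok⟩
  · exact fun _ _ h => absurd h (by decide +kernel)
  · exact fun _ _ _ => Or.inr ⟨⟨_, ctri_119_137_72_ok⟩, _, clane_119_137_72_ok⟩
  · exact fun _ _ h => absurd h (by decide +kernel)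
  · exact fun _ _ _ => Or.inr ⟨⟨_, ctri_119_81_72_ok⟩, _, clane_119_81_72_ok⟩
  · exact fun h => absurd rfl h
  · exact fun _ _ _ => Or.inl ⟨⟨_, ctri_119_72_74_ok⟩, _, clane_119_72_74_ok⟩
  · exact fun _ _ h => absurd h (by decide +kernel)
  · exact fun _ _ _ => Or.inr ⟨⟨_, ctri_119_137_74_ok⟩, _, clane_119_137_74_ok⟩
  · exact fun _ _ h => absurd h (by decide +kernel)
  · exact fun _ _ _ => Or.inr ⟨⟨_, ctri_119_81_74_ok⟩, _, clane_119_81_74_ok⟩
  · exact fun _ _ _ => Or.inr ⟨⟨_, ctri_119_72_74_ok⟩, _, clane_119_72_74_ok⟩
  · exact fun h => absurd rfl h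
theorem cert_pair_127 : ∀ c ∈ dirs, ∀ d ∈ dirs, c ≠ d → port 127 c = true → port 127 d = true → PairOk 127 c d ∨ PairOk 127 d c := by
  intro c hc d hd
  simp only [dirs, List.mem_cons, List.not_mem_nil, or_false] at hc hd
  rcases hc with rfl | rfl | rfl | rfl | rfl | rfl <;> rcases hd with rfl | rfl | rfl | rfl | rfl | rfl
  · exact fun h => absurd rfl h
  · exact fun _ h _ => absurd h (by decide +kernel)
  · exact fun _ h _ => absurd h (by decide +kernel)
  · exact fun _ h _ => absurd h (by decide +kernel)
  · exact fun _ h _ => absurd h (by decide +kernel)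
  · exact fun _ h _ => absurd h (by decide +kernel)
  · exact fun _ _ h => absurd h (by decide +kernel)
  · exact fun h => absurd rfl h
  · exact fun _ _ h => absurd h (by decide +kernel)
  · exact fun _ _ _ => Or.inl ⟨⟨_, ctri_127_137_81_ok⟩, _, clane_127_137_81_ok⟩
  · exact fun _ _ h => absurd h (by decide +kernel)
  · exact fun _ _ _ => Or.inl ⟨⟨_, ctri_127_137_74_ok⟩, _, clane_127_137_74_ok⟩
  · exact fun _ h _ => absurd h (by decide +kernel)
  · exact fun _ h _ => absurd h (by decide +kernel)
  · exact fun h => absurd rfl h
  · exact fun _ h _ => absurd h (by decide +kernel)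
  · exact fun _ h _ => absurd h (by decide +kernel)
  · exact fun _ h _ => absurd h (by decide +kernel)
  · exact fun _ _ h => absurd h (by decide +kernel)
  · exact fun _ _ _ => Or.inr ⟨⟨_, ctri_127_137_81_ok⟩, _, clane_127_137_81_ok⟩
  · exact fun _ _ h => absurd h (by decide +kernel)
  · exact fun h => absurd rfl h
  · exact fun _ _ h => absurd h (by decide +kernel)
  · exact fun _ _ _ => Or.inl ⟨⟨_, ctri_127_81_74_ok⟩, _, clane_127_81_74_ok⟩
  · exact fun _ h _ => absurd h (by decide +kernel)
  · exact fun _ h _ => absurd h (by decide +kernel)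
  · exact fun _ h _ => absurd h (by decide +kernel)
  · exact fun _ h _ => absurd h (by decide +kernel)
  · exact fun h => absurd rfl h
  · exact fun _ h _ => absurd h (by decide +kernel)
  · exact fun _ _ h => absurd h (by decide +kernel)
  · exact fun _ _ _ => Or.inr ⟨⟨_, ctri_127_137_74_ok⟩, _, clane_127_137_74_ok⟩
  · exact fun _ _ h => absurd h (by decide +kernel)
  · exact fun _ _ _ => Or.inr ⟨⟨_, ctri_127_81_74_ok⟩, _, clane_127_81_74_ok⟩
  · exact fun _ _ h => absurd h (by decide +kernel)
  · exact fun h => absurd rfl h

end Pool.Agent.Lib.MP_b7d179_gt.M
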