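import Pool.Agent.Lib.MP_b7d179_gt.M.Cert3b
import Pool.Agent.Lib.MP_b7d179_gt.M.Cert3d

namespace Pool.Agent.Lib.MP_b7d179_gt.M

open C

theorem cert_pair : ∀ T ∈ downs, T ≠ 255 → ∀ c ∈ dirs, ∀ d ∈ dirs, c ≠ d → port T c = true →
    port T d = true → PairOk T c d ∨ PairOk T d c := by
  intro T hT
  simp only [downs, List.mem_cons, List.not_mem_nil, or_false] at hT
  rcases hT with rfl | rfl | rfl | rfl | rfl | rfl | rfl | rfl | rfl | rfl | rfl | rfl | rfl | rfl | rfl | rfl | rfl | rfl | rfl
  · exact fun _ => cert_pair_1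
  · exact fun _ => cert_pair_3
  · exact fun _ => cert_pair_5
  · exact fun _ => cert_pair_7
  · exact fun _ => cert_pair_15
  · exact fun _ => cert_pair_17
  · exact fun _ => cert_pair_19
  · exact fun _ => cert_pair_21
  · exact fun _ => cert_pair_23
  · exact fun _ => cert_pair_31
  · exact fun _ => cert_pair_51
  · exact fun _ => cert_pair_55
  · exact fun _ => cert_pair_63
  · exact fun _ => cert_pair_85
  · exact fun _ => cert_pair_87
  · exact fun _ => cert_pair_95
  · exact fun _ => cert_pair_119
  · exact fun _ => cert_pair_127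
  · exact fun h => absurd rfl h

end Pool.Agent.Lib.MP_b7d179_gt.M
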