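import Pool.Agent.Lib.MP_b7d179_gt.M.Chk

/-! Generated certificates. -/

namespace Pool.Agent.Lib.MP_b7d179_gt.M

open C

def cface_1_9 : TD × TD × TA :=
    ((36,[]),(4635,[]),[5129,4625])
theorem cface_1_9_ok : chkFace 1 9 cface_1_9 = true := by decide +kernel
def cface_1_65 : TD × TD × TA :=
    ((260,[]),(33475,[]),[33857,33409])
theorem cface_1_65_ok : chkFace 1 65 cface_1_65 = true := by decide +kernel
def cface_1_72 : TD × TD × TA :=
    ((288,[]),(37080,[]),[41032,37000])
theorem cface_1_72_ok : chkFace 1 72 cface_1_72 = true := by decide +kernel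
def cface_3_9 : TD × TD × TA :=
    ((36,[]),(4635,[]),[5129,4625])
theorem cface_3_9_ok : chkFace 3 9 cface_3_9 = true := by decide +kernel
def cface_3_137 : TD × TD × TA :=
    ((229860,[]),(234459,[]),[234953,234449])
theorem cface_3_137_ok : chkFace 3 137 cface_3_137 = true := by decide +kernel
def cface_3_65 : TD × TD × TA :=
    ((452,[]),(33667,[]),[33857,33409])
theorem cface_3_65_ok : chkFace 3 65 cface_3_65 = true := by decide +kernel
def cface_3_72 : TD × TD × TA :=
    ((480,[]),(37272,[]),[41032,37000])
theorem cface_3_72_ok : chkFace 3 72 cface_3_72 = true := by decide +kernel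
def cface_5_9 : TD × TD × TA :=
    ((60,[]),(4659,[]),[5129,4625])
theorem cface_5_9_ok : chkFace 5 9 cface_5_9 = true := by decide +kernel
def cface_5_65 : TD × TD × TA :=
    ((260,[]),(33475,[]),[33857,33409])
theorem cface_5_65_ok : chkFace 5 65 cface_5_65 = true := by decide +kernel
def cface_5_81 : TD × TD × TA :=
    ((28988,[]),(62203,[]),[62585,62137])
theorem cface_5_81_ok : chkFace 5 81 cface_5_81 = true := by decide +kernel
def cface_5_72 : TD × TD × TA :=
    ((312,[]),(37104,[]),[41032,37000])
theorem cface_5_72_ok : chkFace 5 72 cface_5_72 = true := by decide +kernel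
def cface_7_9 : TD × TD × TA :=
    ((60,[]),(4659,[]),[5129,4625])
theorem cface_7_9_ok : chkFace 7 9 cface_7_9 = true := by decide +kernel
def cface_7_137 : TD × TD × TA :=
    ((229860,[]),(234459,[]),[234953,234449])
theorem cface_7_137_ok : chkFace 7 137 cface_7_137 = true := by decide +kernel
def cface_7_65 : TD × TD × TA :=
    ((452,[]),(33667,[]),[33857,33409])
theorem cface_7_65_ok : chkFace 7 65 cface_7_65 = true := by decide +kernel
def cface_7_81 : TD × TD × TA :=
    ((28988,[]),(62203,[]),[62585,62137])
theorem cface_7_81_ok : chkFace 7 81 cface_7_81 = true := by decide +kernel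
def cface_7_72 : TD × TD × TA :=
    ((312,[(131552,[131360])]),(37104,[(102808,[102616])]),[41032,37000])
theorem cface_7_72_ok : chkFace 7 72 cface_7_72 = true := by decide +kernel
def cface_15_9 : TD × TD × TA :=
    ((60,[]),(4659,[]),[5129,4625])
theorem cface_15_9_ok : chkFace 15 9 cface_15_9 = true := by decide +kernel
def cface_15_137 : TD × TD × TA :=
    ((229884,[]),(234483,[]),[234953,234449])
theorem cface_15_137_ok : chkFace 15 137 cface_15_137 = true := by decide +kernel
def cface_15_65 : TD × TD × TA :=
    ((452,[]),(33667,[]),[33857,33409])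
theorem cface_15_65_ok : chkFace 15 65 cface_15_65 = true := by decide +kernel
def cface_15_81 : TD × TD × TA :=
    ((29180,[]),(62395,[]),[62585,62137])
theorem cface_15_81_ok : chkFace 15 81 cface_15_81 = true := by decide +kernel
def cface_15_72 : TD × TD × TA :=
    ((504,[]),(37296,[]),[41032,37000])
theorem cface_15_72_ok : chkFace 15 72 cface_15_72 = true := by decide +kernel
def cface_17_9 : TD × TD × TA :=
    ((39,[]),(4638,[]),[5129,4625])
theorem cface_17_9_ok : chkFace 17 9 cface_17_9 = true := by decide +kernel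
def cface_17_65 : TD × TD × TA :=
    ((263,[]),(33478,[]),[33857,33409])
theorem cface_17_65_ok : chkFace 17 65 cface_17_65 = true := by decide +kernel
def cface_17_72 : TD × TD × TA :=
    ((288,[]),(37080,[]),[41032,37000])
theorem cface_17_72_ok : chkFace 17 72 cface_17_72 = true := by decide +kernel
def cface_17_74 : TD × TD × TA :=
    ((3879,[]),(40671,[]),[44623,40591])
theorem cface_17_74_ok : chkFace 17 74 cface_17_74 = true := by decide +kernel
def cface_19_9 : TD × TD × TA :=
    ((39,[]),(4638,[]),[5129,4625])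
theorem cface_19_9_ok : chkFace 19 9 cface_19_9 = true := by decide +kernel
def cface_19_137 : TD × TD × TA :=
    ((229860,[]),(234459,[]),[234953,234449])
theorem cface_19_137_ok : chkFace 19 137 cface_19_137 = true := by decide +kernel
def cface_19_65 : TD × TD × TA :=
    ((263,[(131524,[131332])]),(33478,[(99203,[99011])]),[33857,33409])
theorem cface_19_65_ok : chkFace 19 65 cface_19_65 = true := by decide +kernel
def cface_19_72 : TD × TD × TA :=
    ((480,[]),(37272,[]),[41032,37000])
theorem cface_19_72_ok : chkFace 19 72 cface_19_72 = true := by decide +kernel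
def cface_19_74 : TD × TD × TA :=
    ((3879,[]),(40671,[]),[44623,40591])
theorem cface_19_74_ok : chkFace 19 74 cface_19_74 = true := by decide +kernel
def cface_21_9 : TD × TD × TA :=
    ((39,[(16444,[16420])]),(4638,[(12851,[12827])]),[5129,4625])
theorem cface_21_9_ok : chkFace 21 9 cface_21_9 = true := by decide +kernel
def cface_21_65 : TD × TD × TA :=
    ((263,[]),(33478,[]),[33857,33409])
theorem cface_21_65_ok : chkFace 21 65 cface_21_65 = true := by decide +kernel
def cface_21_81 : TD × TD × TA :=
    ((28988,[]),(62203,[]),[62585,62137])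
theorem cface_21_81_ok : chkFace 21 81 cface_21_81 = true := by decide +kernel
def cface_21_72 : TD × TD × TA :=
    ((312,[]),(37104,[]),[41032,37000])
theorem cface_21_72_ok : chkFace 21 72 cface_21_72 = true := by decide +kernel
def cface_21_74 : TD × TD × TA :=
    ((3879,[]),(40671,[]),[44623,40591])
theorem cface_21_74_ok : chkFace 21 74 cface_21_74 = true := by decide +kernel
def cface_23_9 : TD × TD × TA :=
    ((39,[(16444,[16420])]),(4638,[(12851,[12827])]),[5129,4625])
theorem cface_23_9_ok : chkFace 23 9 cface_23_9 = true := by decide +kernel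
def cface_23_137 : TD × TD × TA :=
    ((229860,[]),(234459,[]),[234953,234449])
theorem cface_23_137_ok : chkFace 23 137 cface_23_137 = true := by decide +kernel
def cface_23_65 : TD × TD × TA :=
    ((263,[(131524,[131332])]),(33478,[(99203,[99011])]),[33857,33409])
theorem cface_23_65_ok : chkFace 23 65 cface_23_65 = true := by decide +kernel
def cface_23_81 : TD × TD × TA :=
    ((28988,[]),(62203,[]),[62585,62137])
theorem cface_23_81_ok : chkFace 23 81 cface_23_81 = true := by decide +kernel
def cface_23_72 : TD × TD × TA :=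
    ((312,[(131552,[131360])]),(37104,[(102808,[102616])]),[41032,37000])
theorem cface_23_72_ok : chkFace 23 72 cface_23_72 = true := by decide +kernel
def cface_23_74 : TD × TD × TA :=
    ((3879,[]),(40671,[]),[44623,40591])
theorem cface_23_74_ok : chkFace 23 74 cface_23_74 = true := by decide +kernel
def cface_31_9 : TD × TD × TA :=
    ((39,[(16444,[16420])]),(4638,[(12851,[12827])]),[5129,4625])
theorem cface_31_9_ok : chkFace 31 9 cface_31_9 = true := by decide +kernel
def cface_31_137 : TD × TD × TA :=
    ((229884,[]),(234483,[]),[234953,234449])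
theorem cface_31_137_ok : chkFace 31 137 cface_31_137 = true := by decide +kernel
def cface_31_65 : TD × TD × TA :=
    ((263,[(131524,[131332])]),(33478,[(99203,[99011])]),[33857,33409])
theorem cface_31_65_ok : chkFace 31 65 cface_31_65 = true := by decide +kernel
def cface_31_81 : TD × TD × TA :=
    ((29180,[]),(62395,[]),[62585,62137])
theorem cface_31_81_ok : chkFace 31 81 cface_31_81 = true := by decide +kernel
def cface_31_72 : TD × TD × TA :=
    ((504,[]),(37296,[]),[41032,37000])
theorem cface_31_72_ok : chkFace 31 72 cface_31_72 = true := by decide +kernel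
def cface_31_74 : TD × TD × TA :=
    ((3879,[]),(40671,[]),[44623,40591])
theorem cface_31_74_ok : chkFace 31 74 cface_31_74 = true := by decide +kernel
def cface_51_9 : TD × TD × TA :=
    ((39,[]),(4638,[]),[5129,4625])
theorem cface_51_9_ok : chkFace 51 9 cface_51_9 = true := by decide +kernel
def cface_51_137 : TD × TD × TA :=
    ((229863,[]),(234462,[]),[234953,234449])
theorem cface_51_137_ok : chkFace 51 137 cface_51_137 = true := by decide +kernel
def cface_51_65 : TD × TD × TA :=
    ((455,[]),(33670,[]),[33857,33409])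
theorem cface_51_65_ok : chkFace 51 65 cface_51_65 = true := by decide +kernel
def cface_51_72 : TD × TD × TA :=
    ((480,[]),(37272,[]),[41032,37000])
theorem cface_51_72_ok : chkFace 51 72 cface_51_72 = true := by decide +kernel
def cface_51_74 : TD × TD × TA :=
    ((4071,[]),(40863,[]),[44623,40591])
theorem cface_51_74_ok : chkFace 51 74 cface_51_74 = true := by decide +kernel
def cface_55_9 : TD × TD × TA :=
    ((39,[(16444,[16420])]),(4638,[(12851,[12827])]),[5129,4625])
theorem cface_55_9_ok : chkFace 55 9 cface_55_9 = true := by decide +kernel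
def cface_55_137 : TD × TD × TA :=
    ((229863,[]),(234462,[]),[234953,234449])
theorem cface_55_137_ok : chkFace 55 137 cface_55_137 = true := by decide +kernel
def cface_55_65 : TD × TD × TA :=
    ((455,[]),(33670,[]),[33857,33409])
theorem cface_55_65_ok : chkFace 55 65 cface_55_65 = true := by decide +kernel
def cface_55_81 : TD × TD × TA :=
    ((28988,[]),(62203,[]),[62585,62137])
theorem cface_55_81_ok : chkFace 55 81 cface_55_81 = true := by decide +kernel
def cface_55_72 : TD × TD × TA :=
    ((312,[(131552,[131360])]),(37104,[(102808,[102616])]),[41032,37000])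
theorem cface_55_72_ok : chkFace 55 72 cface_55_72 = true := by decide +kernel
def cface_55_74 : TD × TD × TA :=
    ((4071,[]),(40863,[]),[44623,40591])
theorem cface_55_74_ok : chkFace 55 74 cface_55_74 = true := by decide +kernel
def cface_63_9 : TD × TD × TA :=
    ((39,[(16444,[16420])]),(4638,[(12851,[12827])]),[5129,4625])
theorem cface_63_9_ok : chkFace 63 9 cface_63_9 = true := by decide +kernel
def cface_63_137 : TD × TD × TA :=
    ((229863,[(246268,[246244])]),(234462,[(242675,[242651])]),[234953,234449])
theorem cface_63_137_ok : chkFace 63 137 cface_63_137 = true := by decide +kernel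
def cface_63_65 : TD × TD × TA :=
    ((455,[]),(33670,[]),[33857,33409])
theorem cface_63_65_ok : chkFace 63 65 cface_63_65 = true := by decide +kernel
def cface_63_81 : TD × TD × TA :=
    ((29180,[]),(62395,[]),[62585,62137])
theorem cface_63_81_ok : chkFace 63 81 cface_63_81 = true := by decide +kernel
def cface_63_72 : TD × TD × TA :=
    ((504,[]),(37296,[]),[41032,37000])
theorem cface_63_72_ok : chkFace 63 72 cface_63_72 = true := by decide +kernel
def cface_63_74 : TD × TD × TA :=
    ((4071,[]),(40863,[]),[44623,40591])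
theorem cface_63_74_ok : chkFace 63 74 cface_63_74 = true := by decide +kernel
def cface_85_9 : TD × TD × TA :=
    ((63,[]),(4662,[]),[5129,4625])
theorem cface_85_9_ok : chkFace 85 9 cface_85_9 = true := by decide +kernel
def cface_85_65 : TD × TD × TA :=
    ((263,[]),(33478,[]),[33857,33409])
theorem cface_85_65_ok : chkFace 85 65 cface_85_65 = true := by decide +kernel
def cface_85_81 : TD × TD × TA :=
    ((28991,[]),(62206,[]),[62585,62137])
theorem cface_85_81_ok : chkFace 85 81 cface_85_81 = true := by decide +kernel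
def cface_85_72 : TD × TD × TA :=
    ((312,[]),(37104,[]),[41032,37000])
theorem cface_85_72_ok : chkFace 85 72 cface_85_72 = true := by decide +kernel
def cface_85_74 : TD × TD × TA :=
    ((3903,[]),(40695,[]),[44623,40591])
theorem cface_85_74_ok : chkFace 85 74 cface_85_74 = true := by decide +kernel
def cface_87_9 : TD × TD × TA :=
    ((63,[]),(4662,[]),[5129,4625])
theorem cface_87_9_ok : chkFace 87 9 cface_87_9 = true := by decide +kernel
def cface_87_137 : TD × TD × TA :=
    ((229860,[]),(234459,[]),[234953,234449])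
theorem cface_87_137_ok : chkFace 87 137 cface_87_137 = true := by decide +kernel
def cface_87_65 : TD × TD × TA :=
    ((263,[(131524,[131332])]),(33478,[(99203,[99011])]),[33857,33409])
theorem cface_87_65_ok : chkFace 87 65 cface_87_65 = true := by decide +kernel
def cface_87_81 : TD × TD × TA :=
    ((28991,[]),(62206,[]),[62585,62137])
theorem cface_87_81_ok : chkFace 87 81 cface_87_81 = true := by decide +kernel
def cface_87_72 : TD × TD × TA :=
    ((312,[(131552,[131360])]),(37104,[(102808,[102616])]),[41032,37000])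
theorem cface_87_72_ok : chkFace 87 72 cface_87_72 = true := by decide +kernel
def cface_87_74 : TD × TD × TA :=
    ((3903,[]),(40695,[]),[44623,40591])
theorem cface_87_74_ok : chkFace 87 74 cface_87_74 = true := by decide +kernel
def cface_95_9 : TD × TD × TA :=
    ((63,[]),(4662,[]),[5129,4625])
theorem cface_95_9_ok : chkFace 95 9 cface_95_9 = true := by decide +kernel
def cface_95_137 : TD × TD × TA :=
    ((229884,[]),(234483,[]),[234953,234449])
theorem cface_95_137_ok : chkFace 95 137 cface_95_137 = true := by decide +kernel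
def cface_95_65 : TD × TD × TA :=
    ((263,[(131524,[131332])]),(33478,[(99203,[99011])]),[33857,33409])
theorem cface_95_65_ok : chkFace 95 65 cface_95_65 = true := by decide +kernel
def cface_95_81 : TD × TD × TA :=
    ((28991,[(160252,[160060])]),(62206,[(127931,[127739])]),[62585,62137])
theorem cface_95_81_ok : chkFace 95 81 cface_95_81 = true := by decide +kernel
def cface_95_72 : TD × TD × TA :=
    ((504,[]),(37296,[]),[41032,37000])
theorem cface_95_72_ok : chkFace 95 72 cface_95_72 = true := by decide +kernel
def cface_95_74 : TD × TD × TA :=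
    ((3903,[]),(40695,[]),[44623,40591])
theorem cface_95_74_ok : chkFace 95 74 cface_95_74 = true := by decide +kernel
def cface_119_9 : TD × TD × TA :=
    ((63,[]),(4662,[]),[5129,4625])
theorem cface_119_9_ok : chkFace 119 9 cface_119_9 = true := by decide +kernel
def cface_119_137 : TD × TD × TA :=
    ((229863,[]),(234462,[]),[234953,234449])
theorem cface_119_137_ok : chkFace 119 137 cface_119_137 = true := by decide +kernel
def cface_119_65 : TD × TD × TA :=
    ((455,[]),(33670,[]),[33857,33409])
theorem cface_119_65_ok : chkFace 119 65 cface_119_65 = true := by decide +kernel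
def cface_119_81 : TD × TD × TA :=
    ((28991,[]),(62206,[]),[62585,62137])
theorem cface_119_81_ok : chkFace 119 81 cface_119_81 = true := by decide +kernel
def cface_119_72 : TD × TD × TA :=
    ((312,[(131552,[131360])]),(37104,[(102808,[102616])]),[41032,37000])
theorem cface_119_72_ok : chkFace 119 72 cface_119_72 = true := by decide +kernel
def cface_119_74 : TD × TD × TA :=
    ((3903,[(135143,[134951])]),(40695,[(106399,[106207])]),[44623,40591])
theorem cface_119_74_ok : chkFace 119 74 cface_119_74 = true := by decide +kernel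
def cface_127_9 : TD × TD × TA :=
    ((63,[]),(4662,[]),[5129,4625])
theorem cface_127_9_ok : chkFace 127 9 cface_127_9 = true := by decide +kernel
def cface_127_137 : TD × TD × TA :=
    ((229863,[(246268,[246244])]),(234462,[(242675,[242651])]),[234953,234449])
theorem cface_127_137_ok : chkFace 127 137 cface_127_137 = true := by decide +kernel
def cface_127_65 : TD × TD × TA :=
    ((455,[]),(33670,[]),[33857,33409])
theorem cface_127_65_ok : chkFace 127 65 cface_127_65 = true := by decide +kernel
def cface_127_81 : TD × TD × TA :=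
    ((28991,[(160252,[160060])]),(62206,[(127931,[127739])]),[62585,62137])
theorem cface_127_81_ok : chkFace 127 81 cface_127_81 = true := by decide +kernel
def cface_127_72 : TD × TD × TA :=
    ((504,[]),(37296,[]),[41032,37000])
theorem cface_127_72_ok : chkFace 127 72 cface_127_72 = true := by decide +kernel
def cface_127_74 : TD × TD × TA :=
    ((3903,[(135143,[134951])]),(40695,[(106399,[106207])]),[44623,40591])
theorem cface_127_74_ok : chkFace 127 74 cface_127_74 = true := by decide +kernel
def cface_255_9 : TD × TD × TA :=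
    ((63,[]),(4662,[]),[5129,4625])
theorem cface_255_9_ok : chkFace 255 9 cface_255_9 = true := by decide +kernel
def cface_255_137 : TD × TD × TA :=
    ((229887,[]),(234486,[]),[234953,234449])
theorem cface_255_137_ok : chkFace 255 137 cface_255_137 = true := by decide +kernel
def cface_255_65 : TD × TD × TA :=
    ((455,[]),(33670,[]),[33857,33409])
theorem cface_255_65_ok : chkFace 255 65 cface_255_65 = true := by decide +kernel
def cface_255_81 : TD × TD × TA :=
    ((29183,[]),(62398,[]),[62585,62137])
theorem cface_255_81_ok : chkFace 255 81 cface_255_81 = true := by decide +kernel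
def cface_255_72 : TD × TD × TA :=
    ((504,[]),(37296,[]),[41032,37000])
theorem cface_255_72_ok : chkFace 255 72 cface_255_72 = true := by decide +kernel
def cface_255_74 : TD × TD × TA :=
    ((4095,[]),(40887,[]),[44623,40591])
theorem cface_255_74_ok : chkFace 255 74 cface_255_74 = true := by decide +kernel
theorem cert_face : ∀ T ∈ downs, ∀ c ∈ dirs, dis (mFc c) (mN 4 T) = false → ∃ t, chkFace T c t = true := by
  intro T hT c hc
  simp only [downs, dirs, List.mem_cons, List.not_mem_nil, or_false] at hT hc
  rcases hT with rfl | rfl | rfl | rfl | rfl | rfl | rfl | rfl | rfl | rfl | rfl | rfl | rfl | rfl | rfl | rfl | rfl | rfl | rfl <;> rcases hc with rfl | rfl | rfl | rfl | rfl | rfl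
  · exact fun _ => ⟨_, cface_1_9_ok⟩
  · exact fun h => absurd h (by decide +kernel)
  · exact fun _ => ⟨_, cface_1_65_ok⟩
  · exact fun h => absurd h (by decide +kernel)
  · exact fun _ => ⟨_, cface_1_72_ok⟩
  · exact fun h => absurd h (by decide +kernel)
  · exact fun _ => ⟨_, cface_3_9_ok⟩
  · exact fun _ => ⟨_, cface_3_137_ok⟩
  · exact fun _ => ⟨_, cface_3_65_ok⟩
  · exact fun h => absurd h (by decide +kernel)
  · exact fun _ => ⟨_, cface_3_72_ok⟩
  · exact fun h => absurd h (by decide +kernel)
  · exact fun _ => ⟨_, cface_5_9_ok⟩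
  · exact fun h => absurd h (by decide +kernel)
  · exact fun _ => ⟨_, cface_5_65_ok⟩
  · exact fun _ => ⟨_, cface_5_81_ok⟩
  · exact fun _ => ⟨_, cface_5_72_ok⟩
  · exact fun h => absurd h (by decide +kernel)
  · exact fun _ => ⟨_, cface_7_9_ok⟩
  · exact fun _ => ⟨_, cface_7_137_ok⟩
  · exact fun _ => ⟨_, cface_7_65_ok⟩
  · exact fun _ => ⟨_, cface_7_81_ok⟩
  · exact fun _ => ⟨_, cface_7_72_ok⟩
  · exact fun h => absurd h (by decide +kernel)
  · exact fun _ => ⟨_, cface_15_9_ok⟩
  · exact fun _ => ⟨_, cface_15_137_ok⟩
  · exact fun _ => ⟨_, cface_15_65_ok⟩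
  · exact fun _ => ⟨_, cface_15_81_ok⟩
  · exact fun _ => ⟨_, cface_15_72_ok⟩
  · exact fun h => absurd h (by decide +kernel)
  · exact fun _ => ⟨_, cface_17_9_ok⟩
  · exact fun h => absurd h (by decide +kernel)
  · exact fun _ => ⟨_, cface_17_65_ok⟩
  · exact fun h => absurd h (by decide +kernel)
  · exact fun _ => ⟨_, cface_17_72_ok⟩
  · exact fun _ => ⟨_, cface_17_74_ok⟩
  · exact fun _ => ⟨_, cface_19_9_ok⟩
  · exact fun _ => ⟨_, cface_19_137_ok⟩
  · exact fun _ => ⟨_, cface_19_65_ok⟩
  · exact fun h => absurd h (by decide +kernel)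
  · exact fun _ => ⟨_, cface_19_72_ok⟩
  · exact fun _ => ⟨_, cface_19_74_ok⟩
  · exact fun _ => ⟨_, cface_21_9_ok⟩
  · exact fun h => absurd h (by decide +kernel)
  · exact fun _ => ⟨_, cface_21_65_ok⟩
  · exact fun _ => ⟨_, cface_21_81_ok⟩
  · exact fun _ => ⟨_, cface_21_72_ok⟩
  · exact fun _ => ⟨_, cface_21_74_ok⟩
  · exact fun _ => ⟨_, cface_23_9_ok⟩
  · exact fun _ => ⟨_, cface_23_137_ok⟩
  · exact fun _ => ⟨_, cface_23_65_ok⟩
  · exact fun _ => ⟨_, cface_23_81_ok⟩
  · exact fun _ => ⟨_, cface_23_72_ok⟩
  · exact fun _ => ⟨_, cface_23_74_ok⟩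
  · exact fun _ => ⟨_, cface_31_9_ok⟩
  · exact fun _ => ⟨_, cface_31_137_ok⟩
  · exact fun _ => ⟨_, cface_31_65_ok⟩
  · exact fun _ => ⟨_, cface_31_81_ok⟩
  · exact fun _ => ⟨_, cface_31_72_ok⟩
  · exact fun _ => ⟨_, cface_31_74_ok⟩
  · exact fun _ => ⟨_, cface_51_9_ok⟩
  · exact fun _ => ⟨_, cface_51_137_ok⟩
  · exact fun _ => ⟨_, cface_51_65_ok⟩
  · exact fun h => absurd h (by decide +kernel)
  · exact fun _ => ⟨_, cface_51_72_ok⟩
  · exact fun _ => ⟨_, cface_51_74_ok⟩
  · exact fun _ => ⟨_, cface_55_9_ok⟩
  · exact fun _ => ⟨_, cface_55_137_ok⟩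
  · exact fun _ => ⟨_, cface_55_65_ok⟩
  · exact fun _ => ⟨_, cface_55_81_ok⟩
  · exact fun _ => ⟨_, cface_55_72_ok⟩
  · exact fun _ => ⟨_, cface_55_74_ok⟩
  · exact fun _ => ⟨_, cface_63_9_ok⟩
  · exact fun _ => ⟨_, cface_63_137_ok⟩
  · exact fun _ => ⟨_, cface_63_65_ok⟩
  · exact fun _ => ⟨_, cface_63_81_ok⟩
  · exact fun _ => ⟨_, cface_63_72_ok⟩
  · exact fun _ => ⟨_, cface_63_74_ok⟩
  · exact fun _ => ⟨_, cface_85_9_ok⟩
  · exact fun h => absurd h (by decide +kernel)
  · exact fun _ => ⟨_, cface_85_65_ok⟩
  · exact fun _ => ⟨_, cface_85_81_ok⟩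
  · exact fun _ => ⟨_, cface_85_72_ok⟩
  · exact fun _ => ⟨_, cface_85_74_ok⟩
  · exact fun _ => ⟨_, cface_87_9_ok⟩
  · exact fun _ => ⟨_, cface_87_137_ok⟩
  · exact fun _ => ⟨_, cface_87_65_ok⟩
  · exact fun _ => ⟨_, cface_87_81_ok⟩
  · exact fun _ => ⟨_, cface_87_72_ok⟩
  · exact fun _ => ⟨_, cface_87_74_ok⟩
  · exact fun _ => ⟨_, cface_95_9_ok⟩
  · exact fun _ => ⟨_, cface_95_137_ok⟩
  · exact fun _ => ⟨_, cface_95_65_ok⟩
  · exact fun _ => ⟨_, cface_95_81_ok⟩
  · exact fun _ => ⟨_, cface_95_72_ok⟩
  · exact fun _ => ⟨_, cface_95_74_ok⟩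
  · exact fun _ => ⟨_, cface_119_9_ok⟩
  · exact fun _ => ⟨_, cface_119_137_ok⟩
  · exact fun _ => ⟨_, cface_119_65_ok⟩
  · exact fun _ => ⟨_, cface_119_81_ok⟩
  · exact fun _ => ⟨_, cface_119_72_ok⟩
  · exact fun _ => ⟨_, cface_119_74_ok⟩
  · exact fun _ => ⟨_, cface_127_9_ok⟩
  · exact fun _ => ⟨_, cface_127_137_ok⟩
  · exact fun _ => ⟨_, cface_127_65_ok⟩
  · exact fun _ => ⟨_, cface_127_81_ok⟩
  · exact fun _ => ⟨_, cface_127_72_ok⟩
  · exact fun _ => ⟨_, cface_127_74_ok⟩
  · exact fun _ => ⟨_, cface_255_9_ok⟩
  · exact fun _ => ⟨_, cface_255_137_ok⟩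
  · exact fun _ => ⟨_, cface_255_65_ok⟩
  · exact fun _ => ⟨_, cface_255_81_ok⟩
  · exact fun _ => ⟨_, cface_255_72_ok⟩
  · exact fun _ => ⟨_, cface_255_74_ok⟩
def cstrip_1_9 : TD × TQ × TA × TA :=
    ((1572,[(12323,[13859])]),([16420,18436],[2051,1555],[9755,13850],[13336,12320]),[5651],
    [12826])
theorem cstrip_1_9_ok : chkStrip 1 9 cstrip_1_9 = true := by decide +kernel
def cstrip_1_65 : TD × TQ × TA × TA :=
    ((1796,[(98563,[100099])]),([131332,133124],[2051,1667],[67267,100034],[99520,98560]),[34435],
    [99010])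
theorem cstrip_1_65_ok : chkStrip 1 65 cstrip_1_65 = true := by decide +kernel
def cstrip_1_72 : TD × TQ × TA × TA :=
    ((12576,[(98584,[110872])]),([16672,147712],[131264,98512],[106712,110744],[77848,12320]),
    [102608],[45208])
theorem cstrip_1_72_ok : chkStrip 1 72 cstrip_1_72 = true := by decide +kernel
def cstrip_3_9 : TD × TQ × TA × TA :=
    ((1572,[(12323,[13859])]),([16420,18436],[2051,1555],[9755,13850],[13336,12320]),[5651],
    [12826])
theorem cstrip_3_9_ok : chkStrip 3 9 cstrip_3_9 = true := by decide +kernel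
def cstrip_3_137 : TD × TQ × TA × TA :=
    ((231396,[(242147,[243683])]),([246244,248260],[231875,231379],[239579,243674],[243160,
    242144]),[235475],[242650])
theorem cstrip_3_137_ok : chkStrip 3 137 cstrip_3_137 = true := by decide +kernel
def cstrip_3_65 : TD × TQ × TA × TA :=
    ((1988,[]),([231428],[2051,1667],[67395],[165827,231364]),[34435],[165763])
theorem cstrip_3_65_ok : chkStrip 3 65 cstrip_3_65 = true := by decide +kernel
def cstrip_3_72 : TD × TQ × TA × TA :=
    ((12768,[]),([245792],[16408,12440],[78168],[176600,242144]),[45208],[176536])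
theorem cstrip_3_72_ok : chkStrip 3 72 cstrip_3_72 = true := by decide +kernel
def cstrip_5_9 : TD × TQ × TA × TA :=
    ((1596,[]),([30724],[2051,1555],[9771],[22075,30268]),[5651],[22067])
theorem cstrip_5_9_ok : chkStrip 5 9 cstrip_5_9 = true := by decide +kernel
def cstrip_5_65 : TD × TQ × TA × TA :=
    ((1796,[(98563,[100099])]),([131332,133124],[2051,1667],[67267,100034],[99520,98560]),[34435],
    [99010])
theorem cstrip_5_65_ok : chkStrip 5 65 cstrip_5_65 = true := by decide +kernel
def cstrip_5_81 : TD × TQ × TA × TA :=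
    ((30524,[(127291,[128827])]),([31036,162104],[159992,127226],[128251,128699],[95803,30268]),
    [127738],[63163])
theorem cstrip_5_81_ok : chkStrip 5 81 cstrip_5_81 = true := by decide +kernel
def cstrip_5_72 : TD × TQ × TA × TA :=
    ((98616,[]),([160000],[131264,98512],[106728],[119032,127288]),[102608],[119024])
theorem cstrip_5_72_ok : chkStrip 5 72 cstrip_5_72 = true := by decide +kernel
def cstrip_7_9 : TD × TQ × TA × TA :=
    ((1596,[]),([30724],[2051,1555],[9771],[22075,30268]),[5651],[22067])
theorem cstrip_7_9_ok : chkStrip 7 9 cstrip_7_9 = true := by decide +kernel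
def cstrip_7_137 : TD × TQ × TA × TA :=
    ((231396,[(242147,[243683])]),([246244,248260],[231875,231379],[239579,243674],[243160,
    242144]),[235475],[242650])
theorem cstrip_7_137_ok : chkStrip 7 137 cstrip_7_137 = true := by decide +kernel
def cstrip_7_65 : TD × TQ × TA × TA :=
    ((1988,[]),([231428],[2051,1667],[67395],[165827,231364]),[34435],[165763])
theorem cstrip_7_65_ok : chkStrip 7 65 cstrip_7_65 = true := by decide +kernel
def cstrip_7_81 : TD × TQ × TA × TA :=
    ((30524,[(127291,[128827])]),([31036,162104],[159992,127226],[128251,128699],[95803,30268]),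
    [127738],[63163])
theorem cstrip_7_81_ok : chkStrip 7 81 cstrip_7_81 = true := by decide +kernel
def cstrip_7_72 : TD × TQ × TA × TA :=
    ((110904,[(143840,[143648])]),([246048,147768],[159992,127208],[119000,110936],[176600,
    242144]),[119024],[176536])
theorem cstrip_7_72_ok : chkStrip 7 72 cstrip_7_72 = true := by decide +kernel
def cstrip_15_9 : TD × TQ × TA × TA :=
    ((1596,[]),([30724],[2051,1555],[9771],[22075,30268]),[5651],[22067])
theorem cstrip_15_9_ok : chkStrip 15 9 cstrip_15_9 = true := by decide +kernel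
def cstrip_15_137 : TD × TQ × TA × TA :=
    ((231420,[]),([260548],[231875,231379],[239595],[251899,260092]),[235475],[251891])
theorem cstrip_15_137_ok : chkStrip 15 137 cstrip_15_137 = true := by decide +kernel
def cstrip_15_65 : TD × TQ × TA × TA :=
    ((1988,[]),([231428],[2051,1667],[67395],[165827,231364]),[34435],[165763])
theorem cstrip_15_65_ok : chkStrip 15 65 cstrip_15_65 = true := by decide +kernel
def cstrip_15_81 : TD × TQ × TA × TA :=
    ((30716,[]),([260156],[30779,30395],[96123],[194555,260092]),[63163],[194491])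
theorem cstrip_15_81_ok : chkStrip 15 81 cstrip_15_81 = true := by decide +kernel
def cstrip_17_9 : TD × TQ × TA × TA :=
    ((12327,[]),([16423],[19999,15901],[14874],[13336,12320]),[14878],[12826])
theorem cstrip_17_9_ok : chkStrip 17 9 cstrip_17_9 = true := by decide +kernel
def cstrip_17_65 : TD × TQ × TA × TA :=
    ((98567,[]),([131335],[134855,102085],[101058],[99520,98560]),[101062],[99010])
theorem cstrip_17_65_ok : chkStrip 17 65 cstrip_17_65 = true := by decide +kernel
def cstrip_17_72 : TD × TQ × TA × TA :=
    ((12576,[(98584,[110872])]),([16672,147712],[131264,98512],[106712,110744],[77848,12320]),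
    [102608],[45208])
theorem cstrip_17_72_ok : chkStrip 17 72 cstrip_17_72 = true := by decide +kernel
def cstrip_17_74 : TD × TQ × TA × TA :=
    ((16167,[(102175,[114463])]),([20263,151303],[134855,102103],[110303,114335],[81439,15911]),
    [106199],[48799])
theorem cstrip_17_74_ok : chkStrip 17 74 cstrip_17_74 = true := by decide +kernel
def cstrip_19_9 : TD × TQ × TA × TA :=
    ((12327,[]),([16423],[19999,15901],[14874],[13336,12320]),[14878],[12826])
theorem cstrip_19_9_ok : chkStrip 19 9 cstrip_19_9 = true := by decide +kernel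
def cstrip_19_137 : TD × TQ × TA × TA :=
    ((231396,[(242147,[243683])]),([246244,248260],[231875,231379],[239579,243674],[243160,
    242144]),[235475],[242650])
theorem cstrip_19_137_ok : chkStrip 19 137 cstrip_19_137 = true := by decide +kernel
def cstrip_19_65 : TD × TQ × TA × TA :=
    ((100103,[(133060,[132868])]),([231684,133383],[134855,102085],[101059,100163],[165827,
    231364]),[101062],[165763])
theorem cstrip_19_65_ok : chkStrip 19 65 cstrip_19_65 = true := by decide +kernel
def cstrip_19_72 : TD × TQ × TA × TA :=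
    ((12768,[]),([245792],[16408,12440],[78168],[176600,242144]),[45208],[176536])
theorem cstrip_19_72_ok : chkStrip 19 72 cstrip_19_72 = true := by decide +kernel
def cstrip_19_74 : TD × TQ × TA × TA :=
    ((16167,[(102175,[114463])]),([20263,151303],[134855,102103],[110303,114335],[81439,15911]),
    [106199],[48799])
theorem cstrip_19_74_ok : chkStrip 19 74 cstrip_19_74 = true := by decide +kernel
def cstrip_21_9 : TD × TQ × TA × TA :=
    ((13863,[(17980,[17956])]),([20004,18492],[30779,30251],[22043,13853],[14879,15911]),[22067],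
    [14878])
theorem cstrip_21_9_ok : chkStrip 21 9 cstrip_21_9 = true := by decide +kernel
def cstrip_21_65 : TD × TQ × TA × TA :=
    ((98567,[]),([131335],[134855,102085],[101058],[99520,98560]),[101062],[99010])
theorem cstrip_21_65_ok : chkStrip 21 65 cstrip_21_65 = true := by decide +kernel
def cstrip_21_81 : TD × TQ × TA × TA :=
    ((30524,[(127291,[128827])]),([31036,162104],[159992,127226],[128251,128699],[95803,30268]),
    [127738],[63163])
theorem cstrip_21_81_ok : chkStrip 21 81 cstrip_21_81 = true := by decide +kernel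
def cstrip_21_72 : TD × TQ × TA × TA :=
    ((98616,[]),([160000],[131264,98512],[106728],[119032,127288]),[102608],[119024])
theorem cstrip_21_72_ok : chkStrip 21 72 cstrip_21_72 = true := by decide +kernel
def cstrip_21_74 : TD × TQ × TA × TA :=
    ((16167,[(102175,[114463])]),([20263,151303],[134855,102103],[110303,114335],[81439,15911]),
    [106199],[48799])
theorem cstrip_21_74_ok : chkStrip 21 74 cstrip_21_74 = true := by decide +kernel
def cstrip_23_9 : TD × TQ × TA × TA :=
    ((13863,[(17980,[17956])]),([20004,18492],[30779,30251],[22043,13853],[14879,15911]),[22067],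
    [14878])
theorem cstrip_23_9_ok : chkStrip 23 9 cstrip_23_9 = true := by decide +kernel
def cstrip_23_137 : TD × TQ × TA × TA :=
    ((231396,[(242147,[243683])]),([246244,248260],[231875,231379],[239579,243674],[243160,
    242144]),[235475],[242650])
theorem cstrip_23_137_ok : chkStrip 23 137 cstrip_23_137 = true := by decide +kernel
def cstrip_23_65 : TD × TQ × TA × TA :=
    ((100103,[(133060,[132868])]),([231684,133383],[134855,102085],[101059,100163],[165827,
    231364]),[101062],[165763])
theorem cstrip_23_65_ok : chkStrip 23 65 cstrip_23_65 = true := by decide +kernel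
def cstrip_23_81 : TD × TQ × TA × TA :=
    ((30524,[(127291,[128827])]),([31036,162104],[159992,127226],[128251,128699],[95803,30268]),
    [127738],[63163])
theorem cstrip_23_81_ok : chkStrip 23 81 cstrip_23_81 = true := by decide +kernel
def cstrip_23_72 : TD × TQ × TA × TA :=
    ((110904,[(143840,[143648])]),([246048,147768],[159992,127208],[119000,110936],[176600,
    242144]),[119024],[176536])
theorem cstrip_23_72_ok : chkStrip 23 72 cstrip_23_72 = true := by decide +kernel
def cstrip_23_74 : TD × TQ × TA × TA :=
    ((16167,[(102175,[114463])]),([20263,151303],[134855,102103],[110303,114335],[81439,15911]),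
    [106199],[48799])
theorem cstrip_23_74_ok : chkStrip 23 74 cstrip_23_74 = true := by decide +kernel
def cstrip_31_9 : TD × TQ × TA × TA :=
    ((13863,[(17980,[17956])]),([20004,18492],[30779,30251],[22043,13853],[14879,15911]),[22067],
    [14878])
theorem cstrip_31_9_ok : chkStrip 31 9 cstrip_31_9 = true := by decide +kernel
def cstrip_31_137 : TD × TQ × TA × TA :=
    ((231420,[]),([260548],[231875,231379],[239595],[251899,260092]),[235475],[251891])
theorem cstrip_31_137_ok : chkStrip 31 137 cstrip_31_137 = true := by decide +kernel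
def cstrip_31_65 : TD × TQ × TA × TA :=
    ((100103,[(133060,[132868])]),([231684,133383],[134855,102085],[101059,100163],[165827,
    231364]),[101062],[165763])
theorem cstrip_31_65_ok : chkStrip 31 65 cstrip_31_65 = true := by decide +kernel
def cstrip_31_81 : TD × TQ × TA × TA :=
    ((30716,[]),([260156],[30779,30395],[96123],[194555,260092]),[63163],[194491])
theorem cstrip_31_81_ok : chkStrip 31 81 cstrip_31_81 = true := by decide +kernel
def cstrip_31_74 : TD × TQ × TA × TA :=
    ((16167,[(102175,[114463])]),([20263,151303],[134855,102103],[110303,114335],[81439,15911]),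
    [106199],[48799])
theorem cstrip_31_74_ok : chkStrip 31 74 cstrip_31_74 = true := by decide +kernel
def cstrip_51_9 : TD × TQ × TA × TA :=
    ((12327,[]),([16423],[19999,15901],[14874],[13336,12320]),[14878],[12826])
theorem cstrip_51_9_ok : chkStrip 51 9 cstrip_51_9 = true := by decide +kernel
def cstrip_51_137 : TD × TQ × TA × TA :=
    ((242151,[]),([246247],[249823,245725],[244698],[243160,242144]),[244702],[242650])
theorem cstrip_51_137_ok : chkStrip 51 137 cstrip_51_137 = true := by decide +kernel
def cstrip_51_72 : TD × TQ × TA × TA :=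
    ((12768,[]),([245792],[16408,12440],[78168],[176600,242144]),[45208],[176536])
theorem cstrip_51_72_ok : chkStrip 51 72 cstrip_51_72 = true := by decide +kernel
def cstrip_51_74 : TD × TQ × TA × TA :=
    ((16359,[]),([249383],[19999,16031],[81759],[180191,245735]),[48799],[180127])
theorem cstrip_51_74_ok : chkStrip 51 74 cstrip_51_74 = true := by decide +kernel
def cstrip_55_9 : TD × TQ × TA × TA :=
    ((13863,[(17980,[17956])]),([20004,18492],[30779,30251],[22043,13853],[14879,15911]),[22067],
    [14878])
theorem cstrip_55_9_ok : chkStrip 55 9 cstrip_55_9 = true := by decide +kernel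
def cstrip_55_137 : TD × TQ × TA × TA :=
    ((242151,[]),([246247],[249823,245725],[244698],[243160,242144]),[244702],[242650])
theorem cstrip_55_137_ok : chkStrip 55 137 cstrip_55_137 = true := by decide +kernel
def cstrip_55_81 : TD × TQ × TA × TA :=
    ((30524,[(127291,[128827])]),([31036,162104],[159992,127226],[128251,128699],[95803,30268]),
    [127738],[63163])
theorem cstrip_55_81_ok : chkStrip 55 81 cstrip_55_81 = true := by decide +kernel
def cstrip_55_72 : TD × TQ × TA × TA :=
    ((110904,[(143840,[143648])]),([246048,147768],[159992,127208],[119000,110936],[176600,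
    242144]),[119024],[176536])
theorem cstrip_55_72_ok : chkStrip 55 72 cstrip_55_72 = true := by decide +kernel
def cstrip_55_74 : TD × TQ × TA × TA :=
    ((16359,[]),([249383],[19999,16031],[81759],[180191,245735]),[48799],[180127])
theorem cstrip_55_74_ok : chkStrip 55 74 cstrip_55_74 = true := by decide +kernel
def cstrip_63_9 : TD × TQ × TA × TA :=
    ((13863,[(17980,[17956])]),([20004,18492],[30779,30251],[22043,13853],[14879,15911]),[22067],
    [14878])
theorem cstrip_63_9_ok : chkStrip 63 9 cstrip_63_9 = true := by decide +kernel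
def cstrip_63_137 : TD × TQ × TA × TA :=
    ((243687,[(247804,[247780])]),([260580,248295],[249823,245725],[244699,243691],[251899,
    260092]),[244702],[251891])
theorem cstrip_63_137_ok : chkStrip 63 137 cstrip_63_137 = true := by decide +kernel
def cstrip_63_81 : TD × TQ × TA × TA :=
    ((30716,[]),([260156],[30779,30395],[96123],[194555,260092]),[63163],[194491])
theorem cstrip_63_81_ok : chkStrip 63 81 cstrip_63_81 = true := by decide +kernel
def cstrip_63_74 : TD × TQ × TA × TA :=
    ((16359,[]),([249383],[19999,16031],[81759],[180191,245735]),[48799],[180127])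
theorem cstrip_63_74_ok : chkStrip 63 74 cstrip_63_74 = true := by decide +kernel
def cstrip_85_65 : TD × TQ × TA × TA :=
    ((98567,[]),([131335],[134855,102085],[101058],[99520,98560]),[101062],[99010])
theorem cstrip_85_65_ok : chkStrip 85 65 cstrip_85_65 = true := by decide +kernel
def cstrip_85_81 : TD × TQ × TA × TA :=
    ((127295,[]),([163640],[159992,127226],[128253],[129791,130879]),[127738],[129790])
theorem cstrip_85_81_ok : chkStrip 85 81 cstrip_85_81 = true := by decide +kernel
def cstrip_85_72 : TD × TQ × TA × TA :=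
    ((98616,[]),([160000],[131264,98512],[106728],[119032,127288]),[102608],[119024])
theorem cstrip_85_72_ok : chkStrip 85 72 cstrip_85_72 = true := by decide +kernel
def cstrip_85_74 : TD × TQ × TA × TA :=
    ((102207,[]),([163591],[134855,102103],[110319],[122623,130879]),[106199],[122615])
theorem cstrip_85_74_ok : chkStrip 85 74 cstrip_85_74 = true := by decide +kernel
def cstrip_87_137 : TD × TQ × TA × TA :=
    ((231396,[(242147,[243683])]),([246244,248260],[231875,231379],[239579,243674],[243160,
    242144]),[235475],[242650])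
theorem cstrip_87_137_ok : chkStrip 87 137 cstrip_87_137 = true := by decide +kernel
def cstrip_87_65 : TD × TQ × TA × TA :=
    ((100103,[(133060,[132868])]),([231684,133383],[134855,102085],[101059,100163],[165827,
    231364]),[101062],[165763])
theorem cstrip_87_65_ok : chkStrip 87 65 cstrip_87_65 = true := by decide +kernel
def cstrip_87_81 : TD × TQ × TA × TA :=
    ((127295,[]),([163640],[159992,127226],[128253],[129791,130879]),[127738],[129790])
theorem cstrip_87_81_ok : chkStrip 87 81 cstrip_87_81 = true := by decide +kernel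
def cstrip_87_72 : TD × TQ × TA × TA :=
    ((110904,[(143840,[143648])]),([246048,147768],[159992,127208],[119000,110936],[176600,
    242144]),[119024],[176536])
theorem cstrip_87_72_ok : chkStrip 87 72 cstrip_87_72 = true := by decide +kernel
def cstrip_87_74 : TD × TQ × TA × TA :=
    ((102207,[]),([163591],[134855,102103],[110319],[122623,130879]),[106199],[122615])
theorem cstrip_87_74_ok : chkStrip 87 74 cstrip_87_74 = true := by decide +kernel
def cstrip_95_137 : TD × TQ × TA × TA :=
    ((231420,[]),([260548],[231875,231379],[239595],[251899,260092]),[235475],[251891])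
theorem cstrip_95_137_ok : chkStrip 95 137 cstrip_95_137 = true := by decide +kernel
def cstrip_95_65 : TD × TQ × TA × TA :=
    ((100103,[(133060,[132868])]),([231684,133383],[134855,102085],[101059,100163],[165827,
    231364]),[101062],[165763])
theorem cstrip_95_65_ok : chkStrip 95 65 cstrip_95_65 = true := by decide +kernel
def cstrip_95_81 : TD × TQ × TA × TA :=
    ((128831,[(161788,[161596])]),([163644,162300],[260603,259963],[194299,128765],[129791,
    130879]),[194491],[129790])
theorem cstrip_95_81_ok : chkStrip 95 81 cstrip_95_81 = true := by decide +kernel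
def cstrip_95_74 : TD × TQ × TA × TA :=
    ((102207,[]),([163591],[134855,102103],[110319],[122623,130879]),[106199],[122615])
theorem cstrip_95_74_ok : chkStrip 95 74 cstrip_95_74 = true := by decide +kernel
def cstrip_119_137 : TD × TQ × TA × TA :=
    ((242151,[]),([246247],[249823,245725],[244698],[243160,242144]),[244702],[242650])
theorem cstrip_119_137_ok : chkStrip 119 137 cstrip_119_137 = true := by decide +kernel
def cstrip_119_81 : TD × TQ × TA × TA :=
    ((127295,[]),([163640],[159992,127226],[128253],[129791,130879]),[127738],[129790])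
theorem cstrip_119_81_ok : chkStrip 119 81 cstrip_119_81 = true := by decide +kernel
def cstrip_119_72 : TD × TQ × TA × TA :=
    ((110904,[(143840,[143648])]),([246048,147768],[159992,127208],[119000,110936],[176600,
    242144]),[119024],[176536])
theorem cstrip_119_72_ok : chkStrip 119 72 cstrip_119_72 = true := by decide +kernel
def cstrip_119_74 : TD × TQ × TA × TA :=
    ((114495,[(147431,[147239])]),([163623,151527],[249823,245599],[179935,114415],[122623,
    130879]),[180127],[122615])
theorem cstrip_119_74_ok : chkStrip 119 74 cstrip_119_74 = true := by decide +kernel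
def cstrip_127_137 : TD × TQ × TA × TA :=
    ((243687,[(247804,[247780])]),([260580,248295],[249823,245725],[244699,243691],[251899,
    260092]),[244702],[251891])
theorem cstrip_127_137_ok : chkStrip 127 137 cstrip_127_137 = true := by decide +kernel
def cstrip_127_81 : TD × TQ × TA × TA :=
    ((128831,[(161788,[161596])]),([163644,162300],[260603,259963],[194299,128765],[129791,
    130879]),[194491],[129790])
theorem cstrip_127_81_ok : chkStrip 127 81 cstrip_127_81 = true := by decide +kernel
def cstrip_127_74 : TD × TQ × TA × TA :=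
    ((114495,[(147431,[147239])]),([163623,151527],[249823,245599],[179935,114415],[122623,
    130879]),[180127],[122615])
theorem cstrip_127_74_ok : chkStrip 127 74 cstrip_127_74 = true := by decide +kernel
theorem cert_strip : ∀ T ∈ downs, ∀ c ∈ dirs, dis (mOg T c) mAll = false → ∃ t, chkStrip T c t = true := by
  intro T hT c hc
  simp only [downs, dirs, List.mem_cons, List.not_mem_nil, or_false] at hT hc
  rcases hT with rfl | rfl | rfl | rfl | rfl | rfl | rfl | rfl | rfl | rfl | rfl | rfl | rfl | rfl | rfl | rfl | rfl | rfl | rfl <;> rcases hc with rfl | rfl | rfl | rfl | rfl | rfl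
  · exact fun _ => ⟨_, cstrip_1_9_ok⟩
  · exact fun h => absurd h (by decide +kernel)
  · exact fun _ => ⟨_, cstrip_1_65_ok⟩
  · exact fun h => absurd h (by decide +kernel)
  · exact fun _ => ⟨_, cstrip_1_72_ok⟩
  · exact fun h => absurd h (by decide +kernel)
  · exact fun _ => ⟨_, cstrip_3_9_ok⟩
  · exact fun _ => ⟨_, cstrip_3_137_ok⟩
  · exact fun _ => ⟨_, cstrip_3_65_ok⟩
  · exact fun h => absurd h (by decide +kernel)
  · exact fun _ => ⟨_, cstrip_3_72_ok⟩
  · exact fun h => absurd h (by decide +kernel)
  · exact fun _ => ⟨_, cstrip_5_9_ok⟩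
  · exact fun h => absurd h (by decide +kernel)
  · exact fun _ => ⟨_, cstrip_5_65_ok⟩
  · exact fun _ => ⟨_, cstrip_5_81_ok⟩
  · exact fun _ => ⟨_, cstrip_5_72_ok⟩
  · exact fun h => absurd h (by decide +kernel)
  · exact fun _ => ⟨_, cstrip_7_9_ok⟩
  · exact fun _ => ⟨_, cstrip_7_137_ok⟩
  · exact fun _ => ⟨_, cstrip_7_65_ok⟩
  · exact fun _ => ⟨_, cstrip_7_81_ok⟩
  · exact fun _ => ⟨_, cstrip_7_72_ok⟩
  · exact fun h => absurd h (by decide +kernel)
  · exact fun _ => ⟨_, cstrip_15_9_ok⟩
  · exact fun _ => ⟨_, cstrip_15_137_ok⟩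
  · exact fun _ => ⟨_, cstrip_15_65_ok⟩
  · exact fun _ => ⟨_, cstrip_15_81_ok⟩
  · exact fun h => absurd h (by decide +kernel)
  · exact fun h => absurd h (by decide +kernel)
  · exact fun _ => ⟨_, cstrip_17_9_ok⟩
  · exact fun h => absurd h (by decide +kernel)
  · exact fun _ => ⟨_, cstrip_17_65_ok⟩
  · exact fun h => absurd h (by decide +kernel)
  · exact fun _ => ⟨_, cstrip_17_72_ok⟩
  · exact fun _ => ⟨_, cstrip_17_74_ok⟩
  · exact fun _ => ⟨_, cstrip_19_9_ok⟩
  · exact fun _ => ⟨_, cstrip_19_137_ok⟩
  · exact fun _ => ⟨_, cstrip_19_65_ok⟩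
  · exact fun h => absurd h (by decide +kernel)
  · exact fun _ => ⟨_, cstrip_19_72_ok⟩
  · exact fun _ => ⟨_, cstrip_19_74_ok⟩
  · exact fun _ => ⟨_, cstrip_21_9_ok⟩
  · exact fun h => absurd h (by decide +kernel)
  · exact fun _ => ⟨_, cstrip_21_65_ok⟩
  · exact fun _ => ⟨_, cstrip_21_81_ok⟩
  · exact fun _ => ⟨_, cstrip_21_72_ok⟩
  · exact fun _ => ⟨_, cstrip_21_74_ok⟩
  · exact fun _ => ⟨_, cstrip_23_9_ok⟩
  · exact fun _ => ⟨_, cstrip_23_137_ok⟩
  · exact fun _ => ⟨_, cstrip_23_65_ok⟩
  · exact fun _ => ⟨_, cstrip_23_81_ok⟩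
  · exact fun _ => ⟨_, cstrip_23_72_ok⟩
  · exact fun _ => ⟨_, cstrip_23_74_ok⟩
  · exact fun _ => ⟨_, cstrip_31_9_ok⟩
  · exact fun _ => ⟨_, cstrip_31_137_ok⟩
  · exact fun _ => ⟨_, cstrip_31_65_ok⟩
  · exact fun _ => ⟨_, cstrip_31_81_ok⟩
  · exact fun h => absurd h (by decide +kernel)
  · exact fun _ => ⟨_, cstrip_31_74_ok⟩
  · exact fun _ => ⟨_, cstrip_51_9_ok⟩
  · exact fun _ => ⟨_, cstrip_51_137_ok⟩
  · exact fun h => absurd h (by decide +kernel)
  · exact fun h => absurd h (by decide +kernel)
  · exact fun _ => ⟨_, cstrip_51_72_ok⟩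
  · exact fun _ => ⟨_, cstrip_51_74_ok⟩
  · exact fun _ => ⟨_, cstrip_55_9_ok⟩
  · exact fun _ => ⟨_, cstrip_55_137_ok⟩
  · exact fun h => absurd h (by decide +kernel)
  · exact fun _ => ⟨_, cstrip_55_81_ok⟩
  · exact fun _ => ⟨_, cstrip_55_72_ok⟩
  · exact fun _ => ⟨_, cstrip_55_74_ok⟩
  · exact fun _ => ⟨_, cstrip_63_9_ok⟩
  · exact fun _ => ⟨_, cstrip_63_137_ok⟩
  · exact fun h => absurd h (by decide +kernel)
  · exact fun _ => ⟨_, cstrip_63_81_ok⟩
  · exact fun h => absurd h (by decide +kernel)
  · exact fun _ => ⟨_, cstrip_63_74_ok⟩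
  · exact fun h => absurd h (by decide +kernel)
  · exact fun h => absurd h (by decide +kernel)
  · exact fun _ => ⟨_, cstrip_85_65_ok⟩
  · exact fun _ => ⟨_, cstrip_85_81_ok⟩
  · exact fun _ => ⟨_, cstrip_85_72_ok⟩
  · exact fun _ => ⟨_, cstrip_85_74_ok⟩
  · exact fun h => absurd h (by decide +kernel)
  · exact fun _ => ⟨_, cstrip_87_137_ok⟩
  · exact fun _ => ⟨_, cstrip_87_65_ok⟩
  · exact fun _ => ⟨_, cstrip_87_81_ok⟩
  · exact fun _ => ⟨_, cstrip_87_72_ok⟩
  · exact fun _ => ⟨_, cstrip_87_74_ok⟩
  · exact fun h => absurd h (by decide +kernel)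
  · exact fun _ => ⟨_, cstrip_95_137_ok⟩
  · exact fun _ => ⟨_, cstrip_95_65_ok⟩
  · exact fun _ => ⟨_, cstrip_95_81_ok⟩
  · exact fun h => absurd h (by decide +kernel)
  · exact fun _ => ⟨_, cstrip_95_74_ok⟩
  · exact fun h => absurd h (by decide +kernel)
  · exact fun _ => ⟨_, cstrip_119_137_ok⟩
  · exact fun h => absurd h (by decide +kernel)
  · exact fun _ => ⟨_, cstrip_119_81_ok⟩
  · exact fun _ => ⟨_, cstrip_119_72_ok⟩
  · exact fun _ => ⟨_, cstrip_119_74_ok⟩
  · exact fun h => absurd h (by decide +kernel)
  · exact fun _ => ⟨_, cstrip_127_137_ok⟩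
  · exact fun h => absurd h (by decide +kernel)
  · exact fun _ => ⟨_, cstrip_127_81_ok⟩
  · exact fun h => absurd h (by decide +kernel)
  · exact fun _ => ⟨_, cstrip_127_74_ok⟩
  · exact fun h => absurd h (by decide +kernel)
  · exact fun h => absurd h (by decide +kernel)
  · exact fun h => absurd h (by decide +kernel)
  · exact fun h => absurd h (by decide +kernel)
  · exact fun h => absurd h (by decide +kernel)
  · exact fun h => absurd h (by decide +kernel)
theorem cert_full : mN 4 255 = mN 3 255 ∧ mBS 255 = mPS 255 ∧ mQ 255 = 0 ∧ mTop 255 = 0 := by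
  decide +kernel
theorem cert_vis : ∀ T ∈ downs, nz (an (mCh 0) (mV1 T)) = true ∧ (T ≠ 255 → nz (mQ T) = true) := by
  decide +kernel

end Pool.Agent.Lib.MP_b7d179_gt.M
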