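import Pool.Agent.Lib.MP_b7d179_gt.M.Cert1

/-! Generated certificates. -/

namespace Pool.Agent.Lib.MP_b7d179_gt.M

open C

def ctri_1_9_65 : TE × TE × TE × TA × TA × TQ :=
    (((8,(12954,[(45209,[45721])])),[(72,(78042,[(106714,[110810])]),[77978]),(64,(99026,[(102609,
    [103121])]),[106706])]),((9,(9883,[(13467,[13979])])),[(73,(75483,[(79067,[79579]),(107739,
    [108251,112346])]),[75419,79514]),(65,(67283,[(99539,[100051])]),[75475,108242])]),((1,(5779,
    [(34443,[38539])])),[]),[9875,75395],[13530,111810],([9755,13850],[13337,12889,45656,45272,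
    110792,102601,103105,99010],[99523,99971],[67139,34379,38411,5651]))
theorem ctri_1_9_65_ok : chkTri 1 9 65 ctri_1_9_65 = true := by decide +kernel
def ctri_1_9_72 : TE × TE × TE × TA × TA × TQ :=
    (((1,(5779,[(34443,[38539])])),[(65,(67283,[(99539,[100051])]),[67219]),(64,(99026,[(102609,
    [103121])]),[99538])]),((9,(9883,[(13467,[13979])])),[(73,(75483,[(79067,[79579]),(107739,
    [108251,112346])]),[75419,79514]),(72,(78042,[(106714,[110810])]),[79066,111826])]),((8,(12954,
    [(45209,[45721])])),[]),[13466,79000],[9939,108240],([13339,13843],[9739,5707,38467,34499,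
    100033,99017,103112,102608],[106712,110744],[77912,45145,45593,12826]))
theorem ctri_1_9_72_ok : chkTri 1 9 72 ctri_1_9_72 = true := by decide +kernel
def ctri_1_65_72 : TE × TE × TE × TA × TA × TQ :=
    (((1,(5779,[(34443,[38539])])),[(9,(9883,[(13467,[13979])]),[9875]),(8,(12954,[(45209,
    [45721])]),[13466])]),((65,(67283,[(99539,[100051])])),[(73,(75483,[(79067,[79579]),(107739,
    [108251,112346])]),[75475,108242]),(72,(78042,[(106714,[110810])]),[79066,111826])]),((64,
    (99026,[(102609,[103121])])),[]),[99538,107728],[67227,79512],([99523,99971],[67139,34379,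
    38411,5659,13849,12889,45656,45208],[78040,110800],[106696,102601,103105,99010]))
theorem ctri_1_65_72_ok : chkTri 1 65 72 ctri_1_65_72 = true := by decide +kernel
def ctri_3_9_137 : TE × TE × TE × TA × TA × TQ :=
    (((1,(5779,[(34443,[38539])])),[(65,(67411,[]),[67219]),(129,(165779,[(202707,[202643])]),
    [165715])]),((9,(9883,[(13467,[13979])])),[(73,(75611,[(79195,[79707])]),[75419,79514]),(137,
    (174043,[(177627,[178139])]),[173915,178010])]),((8,(12954,[(45209,[45721])])),[(72,(78170,[]),
    [77978]),(136,(176538,[(209882,[209818])]),[176474])]),[13786],[10195],([13339,13843],[9739,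
    5707,38467,34691,198539,202699,235475],[239579,243674],[243161,242585,209816,208984,45145,
    45593,12826]))
theorem ctri_3_9_137_ok : chkTri 3 9 137 ctri_3_9_137 = true := by decide +kernel
def ctri_3_9_65 : TE × TE × TE × TA × TA × TQ :=
    (((8,(12954,[(45209,[45721])])),[(72,(78170,[]),[77978]),(136,(176538,[(209882,[209818])]),
    [176474]),(137,(174043,[(177627,[178139])]),[177626]),(129,(165779,[(202707,[202643])]),
    [174035])]),((9,(9883,[(13467,[13979])])),[(73,(75611,[(79195,[79707])]),[75419,79514]),(65,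
    (67411,[]),[75603])]),((1,(5779,[(34443,[38539])])),[]),[9875,75395],[13658,177499,177987],
    ([9755,13850],[13337,12889,45656,45464,209305,209881,242651,243659,235403,202627,198467],
    [165507],[67139,34379,38411,5651]))
theorem ctri_3_9_65_ok : chkTri 3 9 65 ctri_3_9_65 = true := by decide +kernel
def ctri_3_9_72 : TE × TE × TE × TA × TA × TQ :=
    (((1,(5779,[(34443,[38539])])),[(65,(67411,[]),[67219]),(129,(165779,[(202707,[202643])]),
    [165715]),(137,(174043,[(177627,[178139])]),[174035]),(136,(176538,[(209882,[209818])]),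
    [177626])]),((9,(9883,[(13467,[13979])])),[(73,(75611,[(79195,[79707])]),[75419,79514]),(72,
    (78170,[]),[79194])]),((8,(12954,[(45209,[45721])])),[]),[13466,79000],[10067,173915,178008],
    ([13339,13843],[9739,5707,38467,34691,198539,202699,235483,243673,242585,209816,209240],
    [176280],[77912,45145,45593,12826]))
theorem ctri_3_9_72_ok : chkTri 3 9 72 ctri_3_9_72 = true := by decide +kernel
def ctri_3_137_65 : TE × TE × TE × TA × TA × TQ :=
    (((1,(5779,[(34443,[38539])])),[(9,(9883,[(13467,[13979])]),[9875]),(8,(12954,[(45209,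
    [45721])]),[13466]),(72,(78170,[]),[77978]),(136,(176538,[(209882,[209818])]),[176474])]),
    ((137,(174043,[(177627,[178139])])),[(73,(75611,[(79195,[79707])]),[173915,178010]),(65,(67411,
    []),[75603])]),((129,(165779,[(202707,[202643])])),[]),[165715,174035],[67227,79514,79322],
    ([239579,243674],[243161,242585,209816,208984,45145,45593,12827,13835,5707,38467,34435],
    [67395],[165763,198539,202699,235475]))
theorem ctri_3_137_65_ok : chkTri 3 137 65 ctri_3_137_65 = true := by decide +kernel
def ctri_3_137_72 : TE × TE × TE × TA × TA × TQ :=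
    (((1,(5779,[(34443,[38539])])),[(9,(9883,[(13467,[13979])]),[9875]),(8,(12954,[(45209,
    [45721])]),[13466]),(65,(67411,[]),[67219]),(129,(165779,[(202707,[202643])]),[165715])]),
    ((137,(174043,[(177627,[178139])])),[(73,(75611,[(79195,[79707])]),[173915,178010]),(72,(78170,
    []),[79194])]),((136,(176538,[(209882,[209818])])),[]),[176474,177626],[77979,79507,75731],
    ([243163,243667],[239563,235403,202627,198211,34379,38411,5659,13849,12889,45656,45208],
    [78168],[176536,209305,209881,242650]))
theorem ctri_3_137_72_ok : chkTri 3 137 72 ctri_3_137_72 = true := by decide +kernel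
def ctri_3_65_72 : TE × TE × TE × TA × TA × TQ :=
    (((1,(5779,[(34443,[38539])])),[(9,(9883,[(13467,[13979])]),[9875]),(8,(12954,[(45209,
    [45721])]),[13466])]),((65,(67411,[])),[(73,(75611,[(79195,[79707])]),[75603]),(72,(78170,[]),
    [79194])]),((129,(165779,[(202707,[202643])])),[(137,(174043,[(177627,[178139])]),[174035]),
    (136,(176538,[(209882,[209818])]),[177626])]),[165723,178008],[67227,79512],([165507],[67139,
    34379,38411,5659,13849,12889,45656,45208],[78168],[176536,209305,209881,242651,243659,235403,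
    202627,198467]))
theorem ctri_3_65_72_ok : chkTri 3 65 72 ctri_3_65_72 = true := by decide +kernel
def ctri_5_9_65 : TE × TE × TE × TA × TA × TQ :=
    (((17,(22195,[(59067,[59059])])),[(81,(87803,[(120059,[120571])]),[87739]),(80,(119026,
    [(123642,[123634])]),[120058]),(72,(106730,[]),[119018]),(64,(99026,[(102609,[103121])]),
    [106706])]),((9,(9899,[])),[(73,(75499,[(107755,[108267])]),[75435]),(65,(67283,[(99539,
    [100051])]),[75475,108242])]),((1,(5779,[(34443,[38539])])),[]),[9875,75395],[22251,120554,
    120002],([9771],[22067,26227,59003,63227,128761,127729,123632,123080,102601,103105,99010],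
    [99523,99971],[67139,34379,38411,5651]))
theorem ctri_5_9_65_ok : chkTri 5 9 65 ctri_5_9_65 = true := by decide +kernel
def ctri_5_9_81 : TE × TE × TE × TA × TA × TQ :=
    (((1,(5779,[(34443,[38539])])),[(65,(67283,[(99539,[100051])]),[67219]),(64,(99026,[(102609,
    [103121])]),[99538]),(72,(106730,[]),[106706]),(80,(119026,[(123642,[123634])]),[119018])]),
    ((9,(9899,[])),[(73,(75499,[(107755,[108267])]),[75435]),(81,(87803,[(120059,[120571])]),
    [87787,120554])]),((17,(22195,[(59067,[59059])])),[]),[22187,87739],[9939,108242,107770],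
    ([22035],[9739,5707,38467,34499,100033,99017,103112,102640,123121,123641,127738],[128251,
    128699],[95867,63091,58931,26155]))
theorem ctri_5_9_81_ok : chkTri 5 9 81 ctri_5_9_81 = true := by decide +kernel
def ctri_5_9_72 : TE × TE × TE × TA × TA × TQ :=
    (((1,(5779,[(34443,[38539])])),[(65,(67283,[(99539,[100051])]),[67219]),(64,(99026,[(102609,
    [103121])]),[99538])]),((9,(9899,[])),[(73,(75499,[(107755,[108267])]),[75435]),(72,(106730,
    []),[107754])]),((17,(22195,[(59067,[59059])])),[(81,(87803,[(120059,[120571])]),[87739]),(80,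
    (119026,[(123642,[123634])]),[120058])]),[22251,120552],[9939,108240],([22035],[9739,5707,
    38467,34499,100033,99017,103112,102608],[106728],[119024,123121,123641,127739,128635,63091,
    58931,26155]))
theorem ctri_5_9_72_ok : chkTri 5 9 72 ctri_5_9_72 = true := by decide +kernel
def ctri_5_65_81 : TE × TE × TE × TA × TA × TQ :=
    (((64,(99026,[(102609,[103121])])),[(72,(106730,[]),[106706]),(80,(119026,[(123642,[123634])]),
    [119018])]),((65,(67283,[(99539,[100051])])),[(73,(75499,[(107755,[108267])]),[75475,108242]),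
    (81,(87803,[(120059,[120571])]),[87787,120554])]),((1,(5779,[(34443,[38539])])),[(9,(9899,[]),
    [9875]),(17,(22195,[(59067,[59059])]),[22187])]),[67259],[99578],([67267,100034],[99521,99017,
    103112,102640,123121,123641,127738],[128251,128699],[95867,63091,58931,26123,5707,38467,
    34435]))
theorem ctri_5_65_81_ok : chkTri 5 65 81 ctri_5_65_81 = true := by decide +kernel
def ctri_5_65_72 : TE × TE × TE × TA × TA × TQ :=
    (((1,(5779,[(34443,[38539])])),[(9,(9899,[]),[9875]),(17,(22195,[(59067,[59059])]),[22187]),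
    (81,(87803,[(120059,[120571])]),[87739]),(80,(119026,[(123642,[123634])]),[120058])]),((65,
    (67283,[(99539,[100051])])),[(73,(75499,[(107755,[108267])]),[75475,108242]),(72,(106730,[]),
    [107754])]),((64,(99026,[(102609,[103121])])),[]),[99538,107728],[67243,87787,120552],([99523,
    99971],[67139,34379,38411,5683,26227,59003,63227,128761,127729,123632,123112],[118992],[106696,
    102601,103105,99010]))
theorem ctri_5_65_72_ok : chkTri 5 65 72 ctri_5_65_72 = true := by decide +kernel
def ctri_5_81_72 : TE × TE × TE × TA × TA × TQ :=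
    (((1,(5779,[(34443,[38539])])),[(9,(9899,[]),[9875]),(17,(22195,[(59067,[59059])]),[22187]),
    (65,(67283,[(99539,[100051])]),[67219]),(64,(99026,[(102609,[103121])]),[99538])]),((81,(87803,
    [(120059,[120571])])),[(73,(75499,[(107755,[108267])]),[87787,120554]),(72,(106730,[]),
    [107754])]),((80,(119026,[(123642,[123634])])),[]),[119018,120058],[95891,75475,108240],
    ([128251,128699],[95867,63091,58931,26123,5707,38467,34499,100033,99017,103112,102608],
    [106728],[119024,123121,123641,127738]))
theorem ctri_5_81_72_ok : chkTri 5 81 72 ctri_5_81_72 = true := by decide +kernel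
def ctri_7_9_137 : TE × TE × TE × TA × TA × TQ :=
    (((1,(5779,[(34443,[38539])])),[(65,(67411,[]),[67219]),(129,(165779,[(202707,[202643])]),
    [165715])]),((9,(9899,[])),[(73,(75499,[(111851,[112363]),(108379,[108251]),(111963,[111835,
    112475])]),[75435]),(137,(174043,[(177627,[178139])]),[173915,178010])]),((17,(22195,[(59067,
    [59059])])),[(81,(87803,[(120059,[120571])]),[87739]),(80,(119026,[(123642,[123634])]),
    [120058]),(72,(110826,[(110938,[110810])]),[119018]),(136,(176538,[(209882,[209818])]),
    [176474])]),[22251,120554,120026,112090],[10195],([22035],[9739,5707,38467,34691,198539,202699,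
    235475],[239579,243674],[243161,242585,209816,209112,110832,123121,123641,127739,128635,63091,
    58931,26155]))
theorem ctri_7_9_137_ok : chkTri 7 9 137 ctri_7_9_137 = true := by decide +kernel
def ctri_7_9_65 : TE × TE × TE × TA × TA × TQ :=
    (((17,(22195,[(59067,[59059])])),[(81,(87803,[(120059,[120571])]),[87739]),(80,(119026,
    [(123642,[123634])]),[120058]),(72,(110826,[(110938,[110810])]),[119018]),(136,(176538,
    [(209882,[209818])]),[176474]),(137,(174043,[(177627,[178139])]),[177626]),(129,(165779,
    [(202707,[202643])]),[174035])]),((9,(9899,[])),[(73,(75499,[(111851,[112363]),(108379,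
    [108251]),(111963,[111835,112475])]),[75435]),(65,(67411,[]),[75603])]),((1,(5779,[(34443,
    [38539])])),[]),[9875,75395],[22251,120554,120026,111962,177499,177987],([9771],[22067,26227,
    59003,63227,128761,127729,123632,123096,111000,209305,209881,242651,243659,235403,202627,
    198467],[165507],[67139,34379,38411,5651]))
theorem ctri_7_9_65_ok : chkTri 7 9 65 ctri_7_9_65 = true := by decide +kernel
def ctri_7_9_81 : TE × TE × TE × TA × TA × TQ :=
    (((1,(5779,[(34443,[38539])])),[(65,(67411,[]),[67219]),(129,(165779,[(202707,[202643])]),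
    [165715]),(137,(174043,[(177627,[178139])]),[174035]),(136,(176538,[(209882,[209818])]),
    [177626]),(72,(110826,[(110938,[110810])]),[176474]),(80,(119026,[(123642,[123634])]),
    [119018])]),((9,(9899,[])),[(73,(75499,[(111851,[112363]),(108379,[108251]),(111963,[111835,
    112475])]),[75435]),(81,(87803,[(120059,[120571])]),[87787,120554])]),((17,(22195,[(59067,
    [59059])])),[]),[22187,87739],[10067,173915,178010,177370,111866],([22035],[9739,5707,38467,
    34691,198539,202699,235483,243673,242585,209816,209112,110832,123121,123641,127738],[128251,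
    128699],[95867,63091,58931,26155]))
theorem ctri_7_9_81_ok : chkTri 7 9 81 ctri_7_9_81 = true := by decide +kernel
def ctri_7_9_72 : TE × TE × TE × TA × TA × TQ :=
    (((1,(5779,[(34443,[38539])])),[(65,(67411,[]),[67219]),(129,(165779,[(202707,[202643])]),
    [165715]),(137,(174043,[(177627,[178139])]),[174035]),(136,(176538,[(209882,[209818])]),
    [177626])]),((9,(9899,[])),[(73,(75499,[(111851,[112363]),(108379,[108251]),(111963,[111835,
    112475])]),[75435]),(72,(110826,[(110938,[110810])]),[120026,111962])]),((17,(22195,[(59067,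
    [59059])])),[(81,(87803,[(120059,[120571])]),[87739]),(80,(119026,[(123642,[123634])]),
    [120058])]),[22251,120552],[10067,173915,178008],([22035],[9739,5707,38467,34691,198539,202699,
    235483,243673,242585,209816,209240],[176344,110824],[119024,123121,123641,127739,128635,63091,
    58931,26155]))
theorem ctri_7_9_72_ok : chkTri 7 9 72 ctri_7_9_72 = true := by decide +kernel
def ctri_7_137_65 : TE × TE × TE × TA × TA × TQ :=
    (((1,(5779,[(34443,[38539])])),[(9,(9899,[]),[9875]),(17,(22195,[(59067,[59059])]),[22187]),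
    (81,(87803,[(120059,[120571])]),[87739]),(80,(119026,[(123642,[123634])]),[120058]),(72,
    (110826,[(110938,[110810])]),[119018]),(136,(176538,[(209882,[209818])]),[176474])]),((137,
    (174043,[(177627,[178139])])),[(73,(75499,[(111851,[112363]),(108379,[108251]),(111963,[111835,
    112475])]),[173915,178010]),(65,(67411,[]),[75603])]),((129,(165779,[(202707,[202643])])),[]),
    [165715,174035],[67243,87787,120554,120026,112090],([239579,243674],[243161,242585,209816,
    209112,110832,123121,123641,127739,128635,63091,58931,26123,5707,38467,34435],[67395],[165763,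
    198539,202699,235475]))
theorem ctri_7_137_65_ok : chkTri 7 137 65 ctri_7_137_65 = true := by decide +kernel
def ctri_7_137_81 : TE × TE × TE × TA × TA × TQ :=
    (((1,(5779,[(34443,[38539])])),[(9,(9899,[]),[9875]),(17,(22195,[(59067,[59059])]),[22187]),
    (65,(67411,[]),[67219]),(129,(165779,[(202707,[202643])]),[165715])]),((137,(174043,[(177627,
    [178139])])),[(73,(75499,[(111851,[112363]),(108379,[108251]),(111963,[111835,112475])]),
    [173915,178010]),(81,(87803,[(120059,[120571])]),[87787,120554])]),((72,(110826,[(110938,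
    [110810])])),[(80,(119026,[(123642,[123634])]),[119018]),(136,(176538,[(209882,[209818])]),
    [176474])]),[128218,112090],[95891,75731],([243163,243667],[239563,235403,202627,198211,34379,
    38411,5683,26227,59003,63163],[95995,128762],[128249,127729,123632,123096,111000,209305,209881,
    242650]))
theorem ctri_7_137_81_ok : chkTri 7 137 81 ctri_7_137_81 = true := by decide +kernel
def ctri_7_137_72 : TE × TE × TE × TA × TA × TQ :=
    (((1,(5779,[(34443,[38539])])),[(9,(9899,[]),[9875]),(17,(22195,[(59067,[59059])]),[22187]),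
    (65,(67411,[]),[67219]),(81,(87803,[(120059,[120571])]),[87739]),(80,(119026,[(123642,
    [123634])]),[120058]),(129,(165779,[(202707,[202643])]),[165715])]),((137,(174043,[(177627,
    [178139])])),[(73,(75499,[(111851,[112363]),(108379,[108251]),(111963,[111835,112475])]),
    [173915,178010]),(72,(110826,[(110938,[110810])]),[120026,111962])]),((136,(176538,[(209882,
    [209818])])),[]),[176474,177626],[119019,120491,87699,75731],([243163,243667],[239563,235403,
    202627,198211,34379,38411,5683,26227,59003,63227,128761,127729,123632,123112],[119000,110936],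
    [176536,209305,209881,242650]))
theorem ctri_7_137_72_ok : chkTri 7 137 72 ctri_7_137_72 = true := by decide +kernel
def ctri_7_65_81 : TE × TE × TE × TA × TA × TQ :=
    (((72,(110826,[(110938,[110810])])),[(80,(119026,[(123642,[123634])]),[119018]),(136,(176538,
    [(209882,[209818])]),[176474]),(137,(174043,[(177627,[178139])]),[177626]),(129,(165779,
    [(202707,[202643])]),[174035])]),((65,(67411,[])),[(73,(75499,[(111851,[112363]),(108379,
    [108251]),(111963,[111835,112475])]),[75603]),(81,(87803,[(120059,[120571])]),[87787,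
    120554])]),((1,(5779,[(34443,[38539])])),[(9,(9899,[]),[9875]),(17,(22195,[(59067,[59059])]),
    [22187])]),[67259],[128218,111962,177499,177987],([67395],[165763,198539,202699,235483,243673,
    242585,209816,209112,110832,123121,123641,127738],[128251,128699],[95867,63091,58931,26123,
    5707,38467,34435]))
theorem ctri_7_65_81_ok : chkTri 7 65 81 ctri_7_65_81 = true := by decide +kernel
def ctri_7_65_72 : TE × TE × TE × TA × TA × TQ :=
    (((1,(5779,[(34443,[38539])])),[(9,(9899,[]),[9875]),(17,(22195,[(59067,[59059])]),[22187]),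
    (81,(87803,[(120059,[120571])]),[87739]),(80,(119026,[(123642,[123634])]),[120058])]),((65,
    (67411,[])),[(73,(75499,[(111851,[112363]),(108379,[108251]),(111963,[111835,112475])]),
    [75603]),(72,(110826,[(110938,[110810])]),[120026,111962])]),((129,(165779,[(202707,
    [202643])])),[(137,(174043,[(177627,[178139])]),[174035]),(136,(176538,[(209882,[209818])]),
    [177626])]),[165723,178008],[67243,87787,120552],([165507],[67139,34379,38411,5683,26227,59003,
    63227,128761,127729,123632,123112],[119000,110936],[176536,209305,209881,242651,243659,235403,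
    202627,198467]))
theorem ctri_7_65_72_ok : chkTri 7 65 72 ctri_7_65_72 = true := by decide +kernel
def ctri_7_81_72 : TE × TE × TE × TA × TA × TQ :=
    (((1,(5779,[(34443,[38539])])),[(9,(9899,[]),[9875]),(17,(22195,[(59067,[59059])]),[22187]),
    (65,(67411,[]),[67219]),(129,(165779,[(202707,[202643])]),[165715]),(137,(174043,[(177627,
    [178139])]),[174035]),(136,(176538,[(209882,[209818])]),[177626])]),((81,(87803,[(120059,
    [120571])])),[(73,(75499,[(111851,[112363]),(108379,[108251]),(111963,[111835,112475])]),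
    [87787,120554]),(72,(110826,[(110938,[110810])]),[120026,111962])]),((80,(119026,[(123642,
    [123634])])),[]),[119018,120058],[95891,75603,173915,178008],([128251,128699],[95867,63091,
    58931,26123,5707,38467,34691,198539,202699,235483,243673,242585,209816,209240],[176344,110824],
    [119024,123121,123641,127738]))
theorem ctri_7_81_72_ok : chkTri 7 81 72 ctri_7_81_72 = true := by decide +kernel
def ctri_15_9_137 : TE × TE × TE × TA × TA × TQ :=
    (((1,(5779,[(34443,[38539])])),[(65,(67411,[]),[67219]),(129,(165779,[(202707,[202643])]),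
    [165715])]),((9,(9899,[])),[(73,(75627,[]),[75435]),(137,(174059,[]),[173931])]),((17,(22195,
    [(59067,[59059])])),[(81,(87931,[]),[87739]),(145,(186299,[(219123,[219059])]),[186235])]),
    [22507],[10195],([22035],[9739,5707,38467,34691,198539,202699,235475],[239595],[251891,255923,
    223163,226939,63091,58931,26155]))
theorem ctri_15_9_137_ok : chkTri 15 9 137 ctri_15_9_137 = true := by decide +kernel
def ctri_15_9_65 : TE × TE × TE × TA × TA × TQ :=
    (((17,(22195,[(59067,[59059])])),[(81,(87931,[]),[87739]),(145,(186299,[(219123,[219059])]),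
    [186235]),(137,(174059,[]),[186347]),(129,(165779,[(202707,[202643])]),[174035])]),((9,(9899,
    [])),[(73,(75627,[]),[75435]),(65,(67411,[]),[75603])]),((1,(5779,[(34443,[38539])])),[]),
    [9875,75395],[22379,186179],([9771],[22067,26227,59003,63419,227251,223219,255947,235403,
    202627,198467],[165507],[67139,34379,38411,5651]))
theorem ctri_15_9_65_ok : chkTri 15 9 65 ctri_15_9_65 = true := by decide +kernel
def ctri_15_9_81 : TE × TE × TE × TA × TA × TQ :=
    (((1,(5779,[(34443,[38539])])),[(65,(67411,[]),[67219]),(129,(165779,[(202707,[202643])]),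
    [165715]),(137,(174059,[]),[174035]),(145,(186299,[(219123,[219059])]),[186347])]),((9,(9899,
    [])),[(73,(75627,[]),[75435]),(81,(87931,[]),[87915])]),((17,(22195,[(59067,[59059])])),[]),
    [22187,87739],[10067,173947],([22035],[9739,5707,38467,34691,198539,202699,235507,255923,
    223163,227195],[194235],[95867,63091,58931,26155]))
theorem ctri_15_9_81_ok : chkTri 15 9 81 ctri_15_9_81 = true := by decide +kernel
def ctri_15_137_65 : TE × TE × TE × TA × TA × TQ :=
    (((1,(5779,[(34443,[38539])])),[(9,(9899,[]),[9875]),(17,(22195,[(59067,[59059])]),[22187]),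
    (81,(87931,[]),[87739]),(145,(186299,[(219123,[219059])]),[186235])]),((137,(174059,[])),[(73,
    (75627,[]),[173931]),(65,(67411,[]),[75603])]),((129,(165779,[(202707,[202643])])),[]),[165715,
    174035],[67243,88043],([239595],[251891,255923,223163,226939,63091,58931,26123,5707,38467,
    34435],[67395],[165763,198539,202699,235475]))
theorem ctri_15_137_65_ok : chkTri 15 137 65 ctri_15_137_65 = true := by decide +kernel
def ctri_15_137_81 : TE × TE × TE × TA × TA × TQ :=
    (((1,(5779,[(34443,[38539])])),[(9,(9899,[]),[9875]),(17,(22195,[(59067,[59059])]),[22187]),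
    (65,(67411,[]),[67219]),(129,(165779,[(202707,[202643])]),[165715])]),((137,(174059,[])),[(73,
    (75627,[]),[173931]),(81,(87931,[]),[87915])]),((145,(186299,[(219123,[219059])])),[]),[194411,
    186347],[95891,75731],([251859],[239563,235403,202627,198211,34379,38411,5683,26227,59003,
    63163],[96123],[194491,227251,223219,255979]))
theorem ctri_15_137_81_ok : chkTri 15 137 81 ctri_15_137_81 = true := by decide +kernel
def ctri_15_65_81 : TE × TE × TE × TA × TA × TQ :=
    (((1,(5779,[(34443,[38539])])),[(9,(9899,[]),[9875]),(17,(22195,[(59067,[59059])]),[22187])]),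
    ((65,(67411,[])),[(73,(75627,[]),[75603]),(81,(87931,[]),[87915])]),((129,(165779,[(202707,
    [202643])])),[(137,(174059,[]),[174035]),(145,(186299,[(219123,[219059])]),[186347])]),
    [165755],[67259],([165507],[67139,34379,38411,5683,26227,59003,63163],[96123],[194491,227251,
    223219,255947,235403,202627,198467]))
theorem ctri_15_65_81_ok : chkTri 15 65 81 ctri_15_65_81 = true := by decide +kernel
def ctri_17_9_65 : TE × TE × TE × TA × TA × TQ :=
    (((10,(15006,[(48287,[48286])])),[(74,(80607,[(109279,[113375])]),[80543]),(66,(101078,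
    [(105687,[105686])]),[109271])]),((9,(13469,[])),[(73,(79069,[(107741,[111837])]),[79005]),(65,
    (99541,[]),[107733])]),((8,(12954,[(45209,[45721])])),[(72,(78042,[(106714,[110810])]),
    [77978]),(64,(99026,[(102609,[103121])]),[106706])]),[13530,111810],[15069,113349],([13341],
    [14878,15454,48223,48863,114383,106190,105670,101573],[101058],[99521,99017,103112,102616,
    110680,45145,45593,12826]))
theorem ctri_17_9_65_ok : chkTri 17 9 65 ctri_17_9_65 = true := by decide +kernel
def ctri_17_9_72 : TE × TE × TE × TA × TA × TQ :=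
    (((10,(15006,[(48287,[48286])])),[(74,(80607,[(109279,[113375])]),[80543]),(66,(101078,
    [(105687,[105686])]),[109271]),(65,(99541,[]),[101077]),(64,(99026,[(102609,[103121])]),
    [99538])]),((9,(13469,[])),[(73,(79069,[(107741,[111837])]),[79005]),(72,(78042,[(106714,
    [110810])]),[79066,111826])]),((8,(12954,[(45209,[45721])])),[]),[13466,79000],[15069,113365,
    109264],([13341],[14878,15454,48223,48863,114383,106190,105670,101569,99017,103112,102608],
    [106712,110744],[77912,45145,45593,12826]))
theorem ctri_17_9_72_ok : chkTri 17 9 72 ctri_17_9_72 = true := by decide +kernel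
def ctri_17_9_74 : TE × TE × TE × TA × TA × TQ :=
    (((10,(15006,[(48287,[48286])])),[]),((9,(13469,[])),[(73,(79069,[(107741,[111837])]),[79005]),
    (74,(80607,[(109279,[113375])]),[80605,113365])]),((8,(12954,[(45209,[45721])])),[(72,(78042,
    [(106714,[110810])]),[77978]),(64,(99026,[(102609,[103121])]),[106706]),(65,(99541,[]),
    [99538]),(66,(101078,[(105687,[105686])]),[101077])]),[13530,111826,107735],[15005,80543],
    ([13341],[14878,15454,48223,48799],[81631,114391],[110287,106190,105670,101569,99017,103112,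
    102616,110680,45145,45593,12826]))
theorem ctri_17_9_74_ok : chkTri 17 9 74 ctri_17_9_74 = true := by decide +kernel
def ctri_17_65_72 : TE × TE × TE × TA × TA × TQ :=
    (((8,(12954,[(45209,[45721])])),[(9,(13469,[]),[13466]),(10,(15006,[(48287,[48286])]),[15005]),
    (74,(80607,[(109279,[113375])]),[80543]),(66,(101078,[(105687,[105686])]),[109271])]),((65,
    (99541,[])),[(73,(79069,[(107741,[111837])]),[107733]),(72,(78042,[(106714,[110810])]),[79066,
    111826])]),((64,(99026,[(102609,[103121])])),[]),[99538,107728],[77981,80605,113349],([99525],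
    [101062,101582,105679,106207,114271,48734,48158,15385,12889,45656,45208],[78040,110800],
    [106696,102601,103105,99010]))
theorem ctri_17_65_72_ok : chkTri 17 65 72 ctri_17_65_72 = true := by decide +kernel
def ctri_17_65_74 : TE × TE × TE × TA × TA × TQ :=
    (((8,(12954,[(45209,[45721])])),[(9,(13469,[]),[13466]),(10,(15006,[(48287,[48286])]),[15005]),
    (72,(78042,[(106714,[110810])]),[77978]),(64,(99026,[(102609,[103121])]),[106706])]),((65,
    (99541,[])),[(73,(79069,[(107741,[111837])]),[107733]),(74,(80607,[(109279,[113375])]),[80605,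
    113365])]),((66,(101078,[(105687,[105686])])),[]),[101077,109271],[81562,79066,111810],
    ([101058],[99521,99017,103112,102616,110680,45145,45593,12830,15454,48223,48799],[81631,
    114391],[110287,106190,105670,101573]))
theorem ctri_17_65_74_ok : chkTri 17 65 74 ctri_17_65_74 = true := by decide +kernel
def ctri_17_72_74 : TE × TE × TE × TA × TA × TQ :=
    (((8,(12954,[(45209,[45721])])),[(9,(13469,[]),[13466]),(10,(15006,[(48287,[48286])]),
    [15005])]),((72,(78042,[(106714,[110810])])),[(73,(79069,[(107741,[111837])]),[79066,111826]),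
    (74,(80607,[(109279,[113375])]),[80605,113365])]),((64,(99026,[(102609,[103121])])),[(65,
    (99541,[]),[99538]),(66,(101078,[(105687,[105686])]),[101077])]),[106711],[77983],([106712,
    110744],[77912,45145,45593,12830,15454,48223,48799],[81631,114391],[110287,106190,105670,
    101569,99017,103112,102608]))
theorem ctri_17_72_74_ok : chkTri 17 72 74 ctri_17_72_74 = true := by decide +kernel
def clane_1_9_65 : TD × TU :=
    ((9947,[(13531,[14043]),(67283,[75475]),(99547,[100059,112346])]),((9,[(73,(74907,[])),(65,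
    (74963,[]))]),(0,[(1,(5266,[(33930,[38026])])),(8,(8850,[(41105,[41617])])),(64,(66194,[(69777,
    [70289])])),(72,(73882,[(73938,[73874])]))]),(9243,[(9947,[9755]),(13531,[13339,14043]),(67283,
    [75475]),(66755,[67267]),(99547,[99523,100059,112346])]),(9363,[(9434,[9362]),(66707,[74899]),
    (66770,[66706,74962])])))
theorem clane_1_9_65_ok : chkLane 1 9 65 clane_1_9_65 = true := by decide +kernel
def clane_1_9_72 : TD × TU :=
    ((9947,[(13531,[14043]),(78042,[79066]),(106715,[108251,112344])]),((9,[(73,(74907,[])),(72,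
    (74970,[]))]),(0,[(1,(5266,[(33930,[38026])])),(8,(8850,[(41105,[41617])])),(64,(66194,[(69777,
    [70289])])),(65,(66707,[(66770,[66706])]))]),(9243,[(9947,[9755]),(13531,[13339,14043]),(78042,
    [79066]),(73944,[78040]),(106715,[106712,110811,112339])]),(9427,[(9370,[9362]),(73882,
    [74906]),(73938,[73874,74962])])))
theorem clane_1_9_72_ok : chkLane 1 9 72 clane_1_9_72 = true := by decide +kernel
def clane_1_65_72 : TD × TU :=
    ((67291,[(78043,[79579]),(99547,[100059,112346]),(106714,[107738,111832])]),((65,[(73,(74963,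
    [])),(72,(74970,[]))]),(0,[(1,(5266,[(33930,[38026])])),(8,(8850,[(41105,[41617])])),(9,(9363,
    [(9370,[9362])])),(64,(66194,[(69777,[70289])]))]),(66755,[(67291,[67267]),(78043,[79579]),
    (73944,[78040]),(99547,[99523,100059,112346]),(106714,[106712,110810,111826])]),(66715,[(73882,
    [74906]),(66770,[66706]),(73938,[73874,74962])])))
theorem clane_1_65_72_ok : chkLane 1 65 72 clane_1_65_72 = true := by decide +kernel
def clane_3_9_137 : TD × TU :=
    ((10203,[(13787,[14299])]),((9,[(73,(74907,[])),(137,(173403,[]))]),(0,[(1,(5266,[(33930,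
    [38026])])),(8,(8850,[(41105,[41617])])),(64,(66194,[(69777,[70289])])),(65,(66707,[(66898,
    [66706])])),(72,(73882,[(74066,[73874])])),(128,(164690,[(168273,[168785])])),(129,(165203,
    [(165266,[165202]),(202194,[202130])])),(136,(172378,[(172434,[172370]),(205778,[205714])]))]),
    (9243,[(10203,[9755]),(13787,[13339,14299]),(239067,[239579,243674])]),(9683,[(9690,
    [9682])])))
theorem clane_3_9_137_ok : chkLane 3 9 137 clane_3_9_137 = true := by decide +kernel
def clane_3_9_65 : TD × TU :=
    ((10075,[(13659,[14171]),(67411,[75603])]),((9,[(73,(74907,[])),(65,(75091,[]))]),(0,[(1,(5266,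
    [(33930,[38026])])),(8,(8850,[(41105,[41617])])),(64,(66194,[(69777,[70289])])),(72,(73882,
    [(74066,[73874])])),(128,(164690,[(168273,[168785])])),(129,(165266,[(202194,[202130])])),(136,
    (172378,[(172434,[172370]),(205778,[205714])])),(137,(173523,[(173530,[173522])]))]),(9243,
    [(10075,[9755]),(13659,[13339,14171]),(67411,[75603]),(66883,[67395])]),(9363,[(9562,[9362]),
    (66707,[74899]),(66898,[66706,75090]),(165211,[165210])])))
theorem clane_3_9_65_ok : chkLane 3 9 65 clane_3_9_65 = true := by decide +kernel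
def clane_3_9_72 : TD × TU :=
    ((10075,[(13659,[14171]),(78170,[79194])]),((9,[(73,(74907,[])),(72,(75098,[]))]),(0,[(1,(5266,
    [(33930,[38026])])),(8,(8850,[(41105,[41617])])),(64,(66194,[(69777,[70289])])),(65,(66707,
    [(66898,[66706])])),(128,(164690,[(168273,[168785])])),(129,(165203,[(165266,[165202]),(202194,
    [202130])])),(136,(172434,[(205778,[205714])])),(137,(173523,[(173530,[173522])]))]),(9243,
    [(10075,[9755]),(13659,[13339,14171]),(78170,[79194]),(74072,[78168])]),(9555,[(9370,[9362]),
    (73882,[74906]),(74066,[73874,75090]),(172379,[172371])])))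
theorem clane_3_9_72_ok : chkLane 3 9 72 clane_3_9_72 = true := by decide +kernel
def clane_3_137_65 : TD × TU :=
    ((67419,[(79323,[79707]),(174043,[173915,178139])]),((137,[(73,(173403,[])),(65,(75091,[]))]),
    (0,[(1,(5266,[(33930,[38026])])),(8,(8850,[(41105,[41617])])),(9,(9363,[(9370,[9362])])),(64,
    (66194,[(69777,[70289])])),(72,(73882,[(74066,[73874])])),(128,(164690,[(168273,[168785])])),
    (129,(165266,[(202194,[202130])])),(136,(172378,[(172434,[172370]),(205778,[205714])]))]),
    (66883,[(67419,[67395]),(79323,[79707]),(174043,[173915,178139]),(239067,[239579,243674])]),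
    (66715,[(66906,[66714]),(165203,[165202]),(173523,[173395]),(173530,[177490,173522])])))
theorem clane_3_137_65_ok : chkLane 3 137 65 clane_3_137_65 = true := by decide +kernel
def clane_3_137_72 : TD × TU :=
    ((75739,[(78171,[79707]),(177627,[177499,178139])]),((137,[(73,(173403,[])),(72,(75098,[]))]),
    (0,[(1,(5266,[(33930,[38026])])),(8,(8850,[(41105,[41617])])),(9,(9363,[(9370,[9362])])),(64,
    (66194,[(69777,[70289])])),(65,(66707,[(66898,[66706])])),(128,(164690,[(168273,[168785])])),
    (129,(165203,[(165266,[165202]),(202194,[202130])])),(136,(172434,[(205778,[205714])]))]),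
    (74072,[(78171,[78168]),(75739,[79707]),(177627,[177499,178139]),(239067,[239579,243674])]),
    (73883,[(74067,[73875]),(172378,[172370]),(173523,[173395]),(173530,[177490,173522])])))
theorem clane_3_137_72_ok : chkLane 3 137 72 clane_3_137_72 = true := by decide +kernel
def clane_3_65_72 : TD × TU :=
    ((67419,[(78171,[79707])]),((65,[(73,(75091,[])),(72,(75098,[]))]),(0,[(1,(5266,[(33930,
    [38026])])),(8,(8850,[(41105,[41617])])),(9,(9363,[(9370,[9362])])),(64,(66194,[(69777,
    [70289])])),(128,(164690,[(168273,[168785])])),(129,(165266,[(202194,[202130])])),(136,(172434,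
    [(205778,[205714])])),(137,(173523,[(173530,[173522])]))]),(66883,[(67419,[67395]),(78171,
    [79707]),(74072,[78168])]),(66715,[(73882,[74906]),(66898,[66706]),(74066,[73874,75090]),
    (165211,[165202]),(172378,[172370,173402])])))
theorem clane_3_65_72_ok : chkLane 3 65 72 clane_3_65_72 = true := by decide +kernel
def clane_5_9_65 : TD × TU :=
    ((9963,[(67283,[75475]),(99563,[100075])]),((9,[(73,(74923,[])),(65,(74963,[]))]),(0,[(1,(5266,
    [(33930,[38026])])),(8,(8850,[(41105,[41617])])),(16,(21162,[(53417,[53929])])),(17,(21682,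
    [(58554,[58546])])),(64,(66194,[(69777,[70289])])),(72,(73898,[(73938,[73874])])),(80,(86194,
    [(90810,[90802]),(86250,[86186])])),(81,(87227,[(87290,[87226])]))]),(9259,[(9963,[9771]),
    (67283,[75475]),(66755,[67267]),(99563,[99523,100075])]),(9363,[(9450,[9362]),(21739,[21738]),
    (66707,[74899]),(66770,[66706,74962])])))
theorem clane_5_9_65_ok : chkLane 5 9 65 clane_5_9_65 = true := by decide +kernel
def clane_5_9_81 : TD × TU :=
    ((9963,[(87803,[87787]),(107771,[108283])]),((9,[(73,(74923,[])),(81,(87275,[]))]),(0,[(1,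
    (5266,[(33930,[38026])])),(8,(8850,[(41105,[41617])])),(16,(21162,[(53417,[53929])])),(17,
    (21682,[(58554,[58546])])),(64,(66194,[(69777,[70289])])),(65,(66707,[(66770,[66706])])),(72,
    (73898,[(73938,[73874])])),(80,(86194,[(90810,[90802]),(86250,[86186])]))]),(9259,[(9963,
    [9771]),(87803,[87787]),(95483,[95995]),(107771,[108283,128762])]),(9427,[(9450,[9426]),(21675,
    [21674]),(87227,[87211]),(87290,[95402,87274])])))
theorem clane_5_9_81_ok : chkLane 5 9 81 clane_5_9_81 = true := by decide +kernel
def clane_5_9_72 : TD × TU :=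
    ((9963,[(106731,[108267])]),((9,[(73,(74923,[])),(72,(74986,[]))]),(0,[(1,(5266,[(33930,
    [38026])])),(8,(8850,[(41105,[41617])])),(16,(21162,[(53417,[53929])])),(17,(21682,[(58554,
    [58546])])),(64,(66194,[(69777,[70289])])),(65,(66707,[(66770,[66706])])),(80,(86194,[(90810,
    [90802])])),(81,(87227,[(87290,[87226])]))]),(9259,[(9963,[9771]),(106731,[108267]),(73960,
    [106728])]),(9427,[(9386,[9362]),(21739,[21674]),(73898,[74922]),(73938,[73874,74962]),(86250,
    [86186,87274])])))
theorem clane_5_9_72_ok : chkLane 5 9 72 clane_5_9_72 = true := by decide +kernel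
def clane_5_65_81 : TD × TU :=
    ((67323,[(99579,[100091])]),((65,[(73,(74963,[])),(81,(87275,[]))]),(0,[(1,(5266,[(33930,
    [38026])])),(8,(8850,[(41105,[41617])])),(9,(9363,[(9386,[9362])])),(16,(21162,[(53417,
    [53929])])),(17,(21675,[(21682,[21674]),(58554,[58546])])),(64,(66194,[(69777,[70289])])),(72,
    (73898,[(73938,[73874])])),(80,(86194,[(90810,[90802]),(86250,[86186])]))]),(66755,[(67323,
    [67267]),(95483,[95995]),(99579,[99523,100091,128762])]),(66747,[(66810,[66746])])))
theorem clane_5_65_81_ok : chkLane 5 65 81 clane_5_65_81 = true := by decide +kernel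
def clane_5_65_72 : TD × TU :=
    ((67307,[(99563,[100075]),(106730,[107754])]),((65,[(73,(74963,[])),(72,(74986,[]))]),(0,[(1,
    (5266,[(33930,[38026])])),(8,(8850,[(41105,[41617])])),(9,(9363,[(9386,[9362])])),(16,(21162,
    [(53417,[53929])])),(17,(21675,[(21682,[21674]),(58554,[58546])])),(64,(66194,[(69777,
    [70289])])),(80,(86194,[(90810,[90802])])),(81,(87227,[(87290,[87226])]))]),(66755,[(67307,
    [67267]),(99563,[99523,100075]),(106730,[107754]),(73960,[106728])]),(66731,[(73898,[74922]),
    (66770,[66706]),(73938,[73874,74962]),(86251,[86187])])))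
theorem clane_5_65_72_ok : chkLane 5 65 72 clane_5_65_72 = true := by decide +kernel
def clane_5_81_72 : TD × TU :=
    ((75515,[(106731,[108267]),(120059,[120043,120571])]),((81,[(73,(87275,[])),(72,(74986,[]))]),
    (0,[(1,(5266,[(33930,[38026])])),(8,(8850,[(41105,[41617])])),(9,(9363,[(9386,[9362])])),(16,
    (21162,[(53417,[53929])])),(17,(21675,[(21682,[21674]),(58554,[58546])])),(64,(66194,[(69777,
    [70289])])),(65,(66707,[(66770,[66706])])),(80,(86194,[(90810,[90802])]))]),(73960,[(106731,
    [106728]),(75515,[108267]),(95483,[95995]),(120059,[120043,120571,128762])]),(73899,[(87227,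
    [87211]),(73939,[73875]),(86250,[86186]),(87290,[95402,87274])])))
theorem clane_5_81_72_ok : chkLane 5 81 72 clane_5_81_72 = true := by decide +kernel
def clane_7_9_137 : TD × TU :=
    ((9963,[(111851,[112363]),(108507,[108251]),(112091,[111835,112603])]),((9,[(73,(74923,[])),
    (137,(173403,[]))]),(0,[(1,(5266,[(33930,[38026])])),(8,(8850,[(41105,[41617])])),(16,(21162,
    [(53417,[53929])])),(17,(21682,[(58554,[58546])])),(64,(66194,[(69777,[70289])])),(65,(66707,
    [(66898,[66706])])),(72,(73898,[(74066,[73874])])),(80,(86194,[(90810,[90802]),(86250,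
    [86186])])),(81,(87227,[(87290,[87226])])),(128,(164690,[(168273,[168785])])),(129,(165203,
    [(165266,[165202]),(202194,[202130])])),(136,(172378,[(172434,[172370]),(205778,[205714])]))]),
    (9259,[(9963,[9771]),(111851,[112363]),(108507,[108251]),(112091,[111835,112603]),(239067,
    [239579,243674])]),(9683,[(9450,[9426]),(21739,[21738]),(107994,[111826,107986])])))
theorem clane_7_9_137_ok : chkLane 7 9 137 clane_7_9_137 = true := by decide +kernel
def clane_7_9_65 : TD × TU :=
    ((9963,[(67411,[75475]),(111851,[112363]),(108379,[112339,108371]),(111963,[111835,112475])]),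
    ((9,[(73,(74923,[])),(65,(75091,[]))]),(0,[(1,(5266,[(33930,[38026])])),(8,(8850,[(41105,
    [41617])])),(16,(21162,[(53417,[53929])])),(17,(21682,[(58554,[58546])])),(64,(66194,[(69777,
    [70289])])),(72,(73898,[(74066,[73874])])),(80,(86194,[(90810,[90802]),(86250,[86186])])),(81,
    (87227,[(87290,[87226])])),(128,(164690,[(168273,[168785])])),(129,(165266,[(202194,
    [202130])])),(136,(172378,[(172434,[172370]),(205778,[205714])])),(137,(173523,[(173530,
    [173522])]))]),(9259,[(9963,[9771]),(67411,[75475]),(66883,[67395]),(111851,[112363]),(108379,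
    [112339,108371]),(111963,[111835,112475])]),(9363,[(9450,[9362]),(21739,[21738]),(66707,
    [74899]),(66898,[66706,74962]),(107866,[111826,107858]),(165211,[165210])])))
theorem clane_7_9_65_ok : chkLane 7 9 65 clane_7_9_65 = true := by decide +kernel
def clane_7_9_81 : TD × TU :=
    ((9963,[(87803,[87787]),(111867,[112379]),(108379,[108251]),(111963,[111835,112475])]),((9,
    [(73,(74923,[])),(81,(87275,[]))]),(0,[(1,(5266,[(33930,[38026])])),(8,(8850,[(41105,
    [41617])])),(16,(21162,[(53417,[53929])])),(17,(21682,[(58554,[58546])])),(64,(66194,[(69777,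
    [70289])])),(65,(66707,[(66898,[66706])])),(72,(73898,[(74066,[73874])])),(80,(86194,[(90810,
    [90802]),(86250,[86186])])),(128,(164690,[(168273,[168785])])),(129,(165203,[(165266,[165202]),
    (202194,[202130])])),(136,(172378,[(172434,[172370]),(205778,[205714])])),(137,(173523,
    [(173530,[173522])]))]),(9259,[(9963,[9771]),(87803,[87787]),(95483,[95995]),(111867,[112379,
    128762]),(108379,[108251]),(111963,[111835,112475])]),(9555,[(9450,[9426]),(21675,[21674]),
    (87227,[87211]),(87290,[95402,87274]),(107866,[111826,107858]),(173403,[173906,173402])])))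
theorem clane_7_9_81_ok : chkLane 7 9 81 clane_7_9_81 = true := by decide +kernel
def clane_7_9_72 : TD × TU :=
    ((9963,[(110827,[112363]),(108379,[108251]),(110939,[110811,112475])]),((9,[(73,(74923,[])),
    (72,(74986,[(107866,[107738])]))]),(0,[(1,(5266,[(33930,[38026])])),(8,(8850,[(41105,
    [41617])])),(16,(21162,[(53417,[53929])])),(17,(21682,[(58554,[58546])])),(64,(66194,[(69777,
    [70289])])),(65,(66707,[(66898,[66706])])),(80,(86194,[(90810,[90802])])),(81,(87227,[(87290,
    [87226])])),(128,(164690,[(168273,[168785])])),(129,(165203,[(165266,[165202]),(202194,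
    [202130])])),(136,(172434,[(205778,[205714])])),(137,(173523,[(173530,[173522])]))]),(9259,
    [(9963,[9771]),(110827,[112363]),(73960,[110824]),(106840,[106712]),(108379,[108251]),(110939,
    [176344,110811,112475])]),(9555,[(9386,[9362]),(21739,[21674]),(73898,[74922]),(74066,[73874,
    75090]),(86250,[86186,87274]),(172379,[172371])])))
theorem clane_7_9_72_ok : chkLane 7 9 72 clane_7_9_72 = true := by decide +kernel
def clane_7_137_65 : TD × TU :=
    ((67307,[(111851,[112363]),(100187,[100059]),(112091,[111835,112475]),(174043,[173915,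
    178139])]),((137,[(73,(173403,[])),(65,(75091,[]))]),(0,[(1,(5266,[(33930,[38026])])),(8,(8850,
    [(41105,[41617])])),(9,(9363,[(9386,[9362])])),(16,(21162,[(53417,[53929])])),(17,(21675,
    [(21682,[21674]),(58554,[58546])])),(64,(66194,[(69777,[70289])])),(72,(73898,[(74066,
    [73874])])),(80,(86194,[(90810,[90802]),(86250,[86186])])),(81,(87227,[(87290,[87226])])),(128,
    (164690,[(168273,[168785])])),(129,(165266,[(202194,[202130])])),(136,(172378,[(172434,
    [172370]),(205778,[205714])]))]),(66883,[(67307,[67267]),(111851,[112363]),(100187,[112323,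
    100163]),(112091,[111835,112475]),(174043,[173915,178139]),(239067,[239579,243674])]),(66731,
    [(66794,[66730]),(87275,[87722,87274]),(99674,[99546]),(165203,[165202]),(173523,[173395]),
    (173530,[177490,173522])])))
theorem clane_7_137_65_ok : chkLane 7 137 65 clane_7_137_65 = true := by decide +kernel
def clane_7_137_81 : TD × TU :=
    ((75515,[(111867,[112379]),(108507,[108251]),(112091,[111835,112603])]),((137,[(73,(173403,
    [])),(81,(87275,[]))]),(0,[(1,(5266,[(33930,[38026])])),(8,(8850,[(41105,[41617])])),(9,(9363,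
    [(9386,[9362])])),(16,(21162,[(53417,[53929])])),(17,(21675,[(21682,[21674]),(58554,
    [58546])])),(64,(66194,[(69777,[70289])])),(65,(66707,[(66898,[66706])])),(72,(73898,[(74066,
    [73874])])),(80,(86194,[(90810,[90802]),(86250,[86186])])),(128,(164690,[(168273,[168785])])),
    (129,(165203,[(165266,[165202]),(202194,[202130])])),(136,(172378,[(172434,[172370]),(205778,
    [205714])]))]),(75515,[(95483,[95995]),(111867,[112379,128762]),(108507,[108251]),(112091,
    [111835,112603]),(239067,[239579,243674])]),(74939,[(75219,[74899]),(75002,[95378,74962]),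
    (107994,[111826,107986])])))
theorem clane_7_137_81_ok : chkLane 7 137 81 clane_7_137_81 = true := by decide +kernel
def clane_7_137_72 : TD × TU :=
    ((75499,[(110827,[112363]),(108507,[108251]),(110939,[110811,112475]),(177627,[177499,
    178139])]),((137,[(73,(173403,[])),(72,(74986,[(107866,[107738])]))]),(0,[(1,(5266,[(33930,
    [38026])])),(8,(8850,[(41105,[41617])])),(9,(9363,[(9386,[9362])])),(16,(21162,[(53417,
    [53929])])),(17,(21675,[(21682,[21674]),(58554,[58546])])),(64,(66194,[(69777,[70289])])),(65,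
    (66707,[(66898,[66706])])),(80,(86194,[(90810,[90802])])),(81,(87227,[(87290,[87226])])),(128,
    (164690,[(168273,[168785])])),(129,(165203,[(165266,[165202]),(202194,[202130])])),(136,
    (172434,[(205778,[205714])]))]),(73960,[(110827,[110824]),(75499,[112363]),(106840,[106712]),
    (108507,[108251]),(110939,[176344,110811,112475]),(177627,[177499,178139]),(239067,[239579,
    243674])]),(73899,[(74067,[73875]),(86251,[86187]),(172378,[172370]),(173523,[173395]),(173530,
    [177490,173522])])))
theorem clane_7_137_72_ok : chkLane 7 137 72 clane_7_137_72 = true := by decide +kernel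
def clane_7_65_81 : TD × TU :=
    ((67323,[(111867,[112379]),(100187,[100059]),(111963,[111835,112475])]),((65,[(73,(75091,[])),
    (81,(87275,[]))]),(0,[(1,(5266,[(33930,[38026])])),(8,(8850,[(41105,[41617])])),(9,(9363,
    [(9386,[9362])])),(16,(21162,[(53417,[53929])])),(17,(21675,[(21682,[21674]),(58554,
    [58546])])),(64,(66194,[(69777,[70289])])),(72,(73898,[(74066,[73874])])),(80,(86194,[(90810,
    [90802]),(86250,[86186])])),(128,(164690,[(168273,[168785])])),(129,(165266,[(202194,
    [202130])])),(136,(172378,[(172434,[172370]),(205778,[205714])])),(137,(173523,[(173530,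
    [173522])]))]),(66883,[(67323,[67267]),(95483,[95995]),(111867,[112379,128762]),(100187,
    [112323,100163]),(111963,[111835,112475])]),(66747,[(66810,[66746]),(99674,[99546]),(165211,
    [165210])])))
theorem clane_7_65_81_ok : chkLane 7 65 81 clane_7_65_81 = true := by decide +kernel
def clane_7_65_72 : TD × TU :=
    ((67307,[(110827,[112363]),(100187,[100059]),(110939,[110811,112475])]),((65,[(73,(75091,[])),
    (72,(74986,[(107866,[107738])]))]),(0,[(1,(5266,[(33930,[38026])])),(8,(8850,[(41105,
    [41617])])),(9,(9363,[(9386,[9362])])),(16,(21162,[(53417,[53929])])),(17,(21675,[(21682,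
    [21674]),(58554,[58546])])),(64,(66194,[(69777,[70289])])),(80,(86194,[(90810,[90802])])),(81,
    (87227,[(87290,[87226])])),(128,(164690,[(168273,[168785])])),(129,(165266,[(202194,
    [202130])])),(136,(172434,[(205778,[205714])])),(137,(173523,[(173530,[173522])]))]),(66883,
    [(67307,[67267]),(110827,[112363]),(73960,[110824]),(100187,[112323,100163]),(106840,[106712]),
    (110939,[176344,110811,112475])]),(66731,[(73898,[74922]),(66898,[66706]),(74066,[73874,
    75090]),(86251,[86187]),(165211,[165202]),(172378,[172370,173402])])))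
theorem clane_7_65_72_ok : chkLane 7 65 72 clane_7_65_72 = true := by decide +kernel
def clane_7_81_72 : TD × TU :=
    ((75515,[(110827,[112363]),(120059,[120043,120571]),(108379,[108251]),(110939,[110811,
    112475])]),((81,[(73,(87275,[])),(72,(74986,[(107866,[107738])]))]),(0,[(1,(5266,[(33930,
    [38026])])),(8,(8850,[(41105,[41617])])),(9,(9363,[(9386,[9362])])),(16,(21162,[(53417,
    [53929])])),(17,(21675,[(21682,[21674]),(58554,[58546])])),(64,(66194,[(69777,[70289])])),(65,
    (66707,[(66898,[66706])])),(80,(86194,[(90810,[90802])])),(128,(164690,[(168273,[168785])])),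
    (129,(165203,[(165266,[165202]),(202194,[202130])])),(136,(172434,[(205778,[205714])])),(137,
    (173523,[(173530,[173522])]))]),(73960,[(110827,[110824]),(75515,[112363]),(95483,[95995]),
    (120059,[120043,120571,128762]),(106840,[106712]),(108379,[108251]),(110939,[176344,110811,
    112475])]),(73899,[(87227,[87211]),(74067,[73875]),(86250,[86186]),(87290,[95402,87274]),
    (172379,[172371])])))
theorem clane_7_81_72_ok : chkLane 7 81 72 clane_7_81_72 = true := by decide +kernel
def clane_15_9_137 : TD × TU :=
    ((10219,[]),((9,[(73,(74923,[])),(137,(173419,[]))]),(0,[(1,(5266,[(33930,[38026])])),(8,(8850,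
    [(41105,[41617])])),(16,(21162,[(53417,[53929])])),(17,(21682,[(58554,[58546])])),(64,(66194,
    [(69777,[70289])])),(65,(66707,[(66898,[66706])])),(72,(73898,[(74066,[73874])])),(80,(86194,
    [(90810,[90802]),(86378,[86186])])),(81,(87227,[(87418,[87226])])),(128,(164690,[(168273,
    [168785])])),(129,(165203,[(165266,[165202]),(202194,[202130])])),(136,(172394,[(172434,
    [172370]),(205778,[205714])])),(144,(184690,[(189306,[189298]),(184746,[184682]),(218090,
    [218026])])),(145,(185723,[(185786,[185722]),(218610,[218546])]))]),(9259,[(10219,[9771]),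
    (239083,[239595])]),(9683,[(9706,[9682]),(21995,[21994])])))
theorem clane_15_9_137_ok : chkLane 15 9 137 clane_15_9_137 = true := by decide +kernel
def clane_15_9_65 : TD × TU :=
    ((10091,[(67411,[75603])]),((9,[(73,(74923,[])),(65,(75091,[]))]),(0,[(1,(5266,[(33930,
    [38026])])),(8,(8850,[(41105,[41617])])),(16,(21162,[(53417,[53929])])),(17,(21682,[(58554,
    [58546])])),(64,(66194,[(69777,[70289])])),(72,(73898,[(74066,[73874])])),(80,(86194,[(90810,
    [90802]),(86378,[86186])])),(81,(87227,[(87418,[87226])])),(128,(164690,[(168273,[168785])])),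
    (129,(165266,[(202194,[202130])])),(136,(172394,[(172434,[172370]),(205778,[205714])])),(144,
    (184690,[(189306,[189298]),(184746,[184682]),(218090,[218026])])),(145,(185723,[(185786,
    [185722]),(218610,[218546])])),(137,(173523,[(173546,[173522]),(185835,[185834])]))]),(9259,
    [(10091,[9771]),(67411,[75603]),(66883,[67395])]),(9363,[(9578,[9362]),(21867,[21866]),(66707,
    [74899]),(66898,[66706,75090]),(165227,[165226,185707])])))
theorem clane_15_9_65_ok : chkLane 15 9 65 clane_15_9_65 = true := by decide +kernel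
def clane_15_9_81 : TD × TU :=
    ((10091,[(87931,[87915])]),((9,[(73,(74923,[])),(81,(87403,[]))]),(0,[(1,(5266,[(33930,
    [38026])])),(8,(8850,[(41105,[41617])])),(16,(21162,[(53417,[53929])])),(17,(21682,[(58554,
    [58546])])),(64,(66194,[(69777,[70289])])),(65,(66707,[(66898,[66706])])),(72,(73898,[(74066,
    [73874])])),(80,(86194,[(90810,[90802]),(86378,[86186])])),(128,(164690,[(168273,[168785])])),
    (129,(165203,[(165266,[165202]),(202194,[202130])])),(136,(172394,[(172434,[172370]),(205778,
    [205714])])),(137,(173523,[(173546,[173522])])),(144,(184690,[(189306,[189298]),(184746,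
    [184682]),(218090,[218026])])),(145,(185835,[(185786,[185770]),(218610,[222634,218602])]))]),
    (9259,[(10091,[9771]),(87931,[87915]),(95611,[96123])]),(9555,[(9578,[9554]),(21675,[21674]),
    (87227,[87211]),(87418,[95402,87402]),(173435,[173906,173434])])))
theorem clane_15_9_81_ok : chkLane 15 9 81 clane_15_9_81 = true := by decide +kernel
def clane_15_137_65 : TD × TU :=
    ((67435,[(174059,[173931])]),((137,[(73,(173419,[])),(65,(75091,[]))]),(0,[(1,(5266,[(33930,
    [38026])])),(8,(8850,[(41105,[41617])])),(9,(9363,[(9386,[9362])])),(16,(21162,[(53417,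
    [53929])])),(17,(21675,[(21682,[21674]),(58554,[58546])])),(64,(66194,[(69777,[70289])])),(72,
    (73898,[(74066,[73874])])),(80,(86194,[(90810,[90802]),(86378,[86186])])),(81,(87227,[(87418,
    [87226])])),(128,(164690,[(168273,[168785])])),(129,(165266,[(202194,[202130])])),(136,(172394,
    [(172434,[172370]),(205778,[205714])])),(144,(184690,[(189306,[189298]),(184746,[184682]),
    (218090,[218026])])),(145,(185723,[(185786,[185722]),(218610,[218546])]))]),(66883,[(67435,
    [67395]),(174059,[173931]),(239083,[239595])]),(66731,[(66922,[66730]),(87531,[87722,87402]),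
    (165203,[165202]),(173523,[173395]),(173546,[238930,173418,185834])])))
theorem clane_15_137_65_ok : chkLane 15 137 65 clane_15_137_65 = true := by decide +kernel
def clane_15_137_81 : TD × TU :=
    ((75643,[(174059,[173931])]),((137,[(73,(173419,[])),(81,(87403,[]))]),(0,[(1,(5266,[(33930,
    [38026])])),(8,(8850,[(41105,[41617])])),(9,(9363,[(9386,[9362])])),(16,(21162,[(53417,
    [53929])])),(17,(21675,[(21682,[21674]),(58554,[58546])])),(64,(66194,[(69777,[70289])])),(65,
    (66707,[(66898,[66706])])),(72,(73898,[(74066,[73874])])),(80,(86194,[(90810,[90802]),(86378,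
    [86186])])),(128,(164690,[(168273,[168785])])),(129,(165203,[(165266,[165202]),(202194,
    [202130])])),(136,(172394,[(172434,[172370]),(205778,[205714])])),(144,(184690,[(189306,
    [189298]),(184746,[184682]),(218090,[218026])])),(145,(185786,[(218610,[218546])]))]),(75643,
    [(95611,[96123]),(174059,[173931]),(239083,[239595])]),(74939,[(75219,[74899]),(75130,[95378,
    75090]),(185723,[185722]),(173546,[185682,173522]),(185835,[186218,185834])])))
theorem clane_15_137_81_ok : chkLane 15 137 81 clane_15_137_81 = true := by decide +kernel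
def clane_15_65_81 : TD × TU :=
    ((67451,[]),((65,[(73,(75091,[])),(81,(87403,[]))]),(0,[(1,(5266,[(33930,[38026])])),(8,(8850,
    [(41105,[41617])])),(9,(9363,[(9386,[9362])])),(16,(21162,[(53417,[53929])])),(17,(21675,
    [(21682,[21674]),(58554,[58546])])),(64,(66194,[(69777,[70289])])),(72,(73898,[(74066,
    [73874])])),(80,(86194,[(90810,[90802]),(86378,[86186])])),(128,(164690,[(168273,[168785])])),
    (129,(165266,[(202194,[202130])])),(136,(172394,[(172434,[172370]),(205778,[205714])])),(137,
    (173523,[(173546,[173522])])),(144,(184690,[(189306,[189298]),(184746,[184682]),(218090,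
    [218026])])),(145,(185835,[(185786,[185770]),(218610,[222634,218602])]))]),(66883,[(67451,
    [67395]),(95611,[96123])]),(66747,[(66938,[66746]),(165243,[165242])])))
theorem clane_15_65_81_ok : chkLane 15 65 81 clane_15_65_81 = true := by decide +kernel
def clane_17_9_65 : TD × TU :=
    ((13533,[(99549,[111837])]),((9,[(73,(74909,[])),(65,(74965,[]))]),(0,[(1,(5266,[(33930,
    [38026])])),(2,(6805,[(35469,[39565])])),(8,(8850,[(41105,[41617])])),(10,(10902,[(44183,
    [44182])])),(64,(66194,[(69777,[70289])])),(66,(68246,[(72855,[72854])])),(72,(73882,[(73938,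
    [73874])])),(74,(76447,[(76503,[76439])]))]),(9245,[(13533,[13341]),(99549,[111837]),(66757,
    [99525])]),(9365,[(9434,[9362]),(10973,[10901]),(66709,[74901]),(66770,[66706,74962]),(68309,
    [68245,76501])])))
theorem clane_17_9_65_ok : chkLane 17 9 65 clane_17_9_65 = true := by decide +kernel
def clane_17_9_72 : TD × TU :=
    ((13533,[(78042,[79066]),(106717,[110813])]),((9,[(73,(74909,[])),(72,(74970,[]))]),(0,[(1,
    (5266,[(33930,[38026])])),(2,(6805,[(35469,[39565])])),(8,(8850,[(41105,[41617])])),(10,(10902,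
    [(44183,[44182])])),(64,(66194,[(69777,[70289])])),(65,(66709,[(66770,[66706])])),(66,(68246,
    [(72855,[72854]),(68309,[68245])])),(74,(76447,[(76503,[76439])]))]),(9245,[(13533,[13341]),
    (78042,[79066]),(73944,[78040]),(106717,[106712,110813])]),(9429,[(9370,[9362]),(10973,
    [10965]),(73882,[74906]),(73938,[73874,74962])])))
theorem clane_17_9_72_ok : chkLane 17 9 72 clane_17_9_72 = true := by decide +kernel
def clane_17_9_74 : TD × TU :=
    ((13533,[(80607,[80605]),(107743,[111839])]),((9,[(73,(74909,[])),(74,(76509,[]))]),(0,[(1,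
    (5266,[(33930,[38026])])),(2,(6805,[(35469,[39565])])),(8,(8850,[(41105,[41617])])),(10,(10902,
    [(44183,[44182])])),(64,(66194,[(69777,[70289])])),(65,(66709,[(66770,[66706])])),(66,(68246,
    [(72855,[72854]),(68309,[68245])])),(72,(73882,[(73938,[73874])]))]),(9245,[(13533,[13341]),
    (80607,[80605]),(77535,[81631]),(107743,[110303,114394])]),(9429,[(9434,[9426]),(10909,
    [10901]),(76447,[76445]),(76503,[77461,76501])])))
theorem clane_17_9_74_ok : chkLane 17 9 74 clane_17_9_74 = true := by decide +kernel
def clane_17_65_72 : TD × TU :=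
    ((78045,[(99549,[111837]),(106714,[107738,111832])]),((65,[(73,(74965,[])),(72,(74970,[]))]),
    (0,[(1,(5266,[(33930,[38026])])),(2,(6805,[(35469,[39565])])),(8,(8850,[(41105,[41617])])),(9,
    (9365,[(9370,[9362])])),(10,(10902,[(10909,[10901]),(44183,[44182])])),(64,(66194,[(69777,
    [70289])])),(66,(68246,[(72855,[72854])])),(74,(76447,[(76503,[76439])]))]),(66757,[(99549,
    [99525]),(78045,[111837]),(73944,[78040]),(106714,[106712,110810,111826])]),(66717,[(73882,
    [74906]),(66770,[66706]),(68317,[68253]),(73938,[73874,74962])])))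
theorem clane_17_65_72_ok : chkLane 17 65 72 clane_17_65_72 = true := by decide +kernel
def clane_17_65_74 : TD × TU :=
    ((79071,[(99549,[111837]),(109279,[109277,113375])]),((65,[(73,(74965,[])),(74,(76509,[]))]),
    (0,[(1,(5266,[(33930,[38026])])),(2,(6805,[(35469,[39565])])),(8,(8850,[(41105,[41617])])),(9,
    (9365,[(9370,[9362])])),(10,(10902,[(10909,[10901]),(44183,[44182])])),(64,(66194,[(69777,
    [70289])])),(66,(68246,[(72855,[72854])])),(72,(73882,[(73938,[73874])]))]),(66757,[(99549,
    [99525]),(79071,[111837]),(77535,[81631]),(109279,[109277,113375,114391])]),(66717,[(76447,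
    [76445]),(66778,[66714]),(68309,[68245]),(76503,[77461,76501])])))
theorem clane_17_65_74_ok : chkLane 17 65 74 clane_17_65_74 = true := by decide +kernel
def clane_17_72_74 : TD × TU :=
    ((78047,[(106719,[110815])]),((72,[(73,(74970,[])),(74,(76509,[]))]),(0,[(1,(5266,[(33930,
    [38026])])),(2,(6805,[(35469,[39565])])),(8,(8850,[(41105,[41617])])),(9,(9365,[(9370,
    [9362])])),(10,(10902,[(10909,[10901]),(44183,[44182])])),(64,(66194,[(69777,[70289])])),(65,
    (66709,[(66770,[66706])])),(66,(68246,[(72855,[72854]),(68309,[68245])]))]),(73944,[(78047,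
    [78040]),(77535,[81631]),(106719,[106712,110815,114391])]),(73887,[(73943,[73879])])))
theorem clane_17_72_74_ok : chkLane 17 72 74 clane_17_72_74 = true := by decide +kernel
theorem cert_pair_1 : ∀ c ∈ dirs, ∀ d ∈ dirs, c ≠ d → port 1 c = true → port 1 d = true → PairOk 1 c d ∨ PairOk 1 d c := by
  intro c hc d hd
  simp only [dirs, List.mem_cons, List.not_mem_nil, or_false] at hc hd
  rcases hc with rfl | rfl | rfl | rfl | rfl | rfl <;> rcases hd with rfl | rfl | rfl | rfl | rfl | rfl
  · exact fun h => absurd rfl h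
  · exact fun _ _ h => absurd h (by decide +kernel)
  · exact fun _ _ _ => Or.inl ⟨⟨_, ctri_1_9_65_ok⟩, _, clane_1_9_65_ok⟩
  · exact fun _ _ h => absurd h (by decide +kernel)
  · exact fun _ _ _ => Or.inl ⟨⟨_, ctri_1_9_72_ok⟩, _, clane_1_9_72_ok⟩
  · exact fun _ _ h => absurd h (by decide +kernel)
  · exact fun _ h _ => absurd h (by decide +kernel)
  · exact fun h => absurd rfl h
  · exact fun _ h _ => absurd h (by decide +kernel)
  · exact fun _ h _ => absurd h (by decide +kernel)
  · exact fun _ h _ => absurd h (by decide +kernel)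
  · exact fun _ h _ => absurd h (by decide +kernel)
  · exact fun _ _ _ => Or.inr ⟨⟨_, ctri_1_9_65_ok⟩, _, clane_1_9_65_ok⟩
  · exact fun _ _ h => absurd h (by decide +kernel)
  · exact fun h => absurd rfl h
  · exact fun _ _ h => absurd h (by decide +kernel)
  · exact fun _ _ _ => Or.inl ⟨⟨_, ctri_1_65_72_ok⟩, _, clane_1_65_72_ok⟩
  · exact fun _ _ h => absurd h (by decide +kernel)
  · exact fun _ h _ => absurd h (by decide +kernel)
  · exact fun _ h _ => absurd h (by decide +kernel)
  · exact fun _ h _ => absurd h (by decide +kernel)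
  · exact fun h => absurd rfl h
  · exact fun _ h _ => absurd h (by decide +kernel)
  · exact fun _ h _ => absurd h (by decide +kernel)
  · exact fun _ _ _ => Or.inr ⟨⟨_, ctri_1_9_72_ok⟩, _, clane_1_9_72_ok⟩
  · exact fun _ _ h => absurd h (by decide +kernel)
  · exact fun _ _ _ => Or.inr ⟨⟨_, ctri_1_65_72_ok⟩, _, clane_1_65_72_ok⟩
  · exact fun _ _ h => absurd h (by decide +kernel)
  · exact fun h => absurd rfl h
  · exact fun _ _ h => absurd h (by decide +kernel)
  · exact fun _ h _ => absurd h (by decide +kernel)
  · exact fun _ h _ => absurd h (by decide +kernel)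
  · exact fun _ h _ => absurd h (by decide +kernel)
  · exact fun _ h _ => absurd h (by decide +kernel)
  · exact fun _ h _ => absurd h (by decide +kernel)
  · exact fun h => absurd rfl h
theorem cert_pair_3 : ∀ c ∈ dirs, ∀ d ∈ dirs, c ≠ d → port 3 c = true → port 3 d = true → PairOk 3 c d ∨ PairOk 3 d c := by
  intro c hc d hd
  simp only [dirs, List.mem_cons, List.not_mem_nil, or_false] at hc hd
  rcases hc with rfl | rfl | rfl | rfl | rfl | rfl <;> rcases hd with rfl | rfl | rfl | rfl | rfl | rfl
  · exact fun h => absurd rfl h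
  · exact fun _ _ _ => Or.inl ⟨⟨_, ctri_3_9_137_ok⟩, _, clane_3_9_137_ok⟩
  · exact fun _ _ _ => Or.inl ⟨⟨_, ctri_3_9_65_ok⟩, _, clane_3_9_65_ok⟩
  · exact fun _ _ h => absurd h (by decide +kernel)
  · exact fun _ _ _ => Or.inl ⟨⟨_, ctri_3_9_72_ok⟩, _, clane_3_9_72_ok⟩
  · exact fun _ _ h => absurd h (by decide +kernel)
  · exact fun _ _ _ => Or.inr ⟨⟨_, ctri_3_9_137_ok⟩, _, clane_3_9_137_ok⟩
  · exact fun h => absurd rfl h
  · exact fun _ _ _ => Or.inl ⟨⟨_, ctri_3_137_65_ok⟩, _, clane_3_137_65_ok⟩
  · exact fun _ _ h => absurd h (by decide +kernel)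
  · exact fun _ _ _ => Or.inl ⟨⟨_, ctri_3_137_72_ok⟩, _, clane_3_137_72_ok⟩
  · exact fun _ _ h => absurd h (by decide +kernel)
  · exact fun _ _ _ => Or.inr ⟨⟨_, ctri_3_9_65_ok⟩, _, clane_3_9_65_ok⟩
  · exact fun _ _ _ => Or.inr ⟨⟨_, ctri_3_137_65_ok⟩, _, clane_3_137_65_ok⟩
  · exact fun h => absurd rfl h
  · exact fun _ _ h => absurd h (by decide +kernel)
  · exact fun _ _ _ => Or.inl ⟨⟨_, ctri_3_65_72_ok⟩, _, clane_3_65_72_ok⟩
  · exact fun _ _ h => absurd h (by decide +kernel)
  · exact fun _ h _ => absurd h (by decide +kernel)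
  · exact fun _ h _ => absurd h (by decide +kernel)
  · exact fun _ h _ => absurd h (by decide +kernel)
  · exact fun h => absurd rfl h
  · exact fun _ h _ => absurd h (by decide +kernel)
  · exact fun _ h _ => absurd h (by decide +kernel)
  · exact fun _ _ _ => Or.inr ⟨⟨_, ctri_3_9_72_ok⟩, _, clane_3_9_72_ok⟩
  · exact fun _ _ _ => Or.inr ⟨⟨_, ctri_3_137_72_ok⟩, _, clane_3_137_72_ok⟩
  · exact fun _ _ _ => Or.inr ⟨⟨_, ctri_3_65_72_ok⟩, _, clane_3_65_72_ok⟩
  · exact fun _ _ h => absurd h (by decide +kernel)
  · exact fun h => absurd rfl h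
  · exact fun _ _ h => absurd h (by decide +kernel)
  · exact fun _ h _ => absurd h (by decide +kernel)
  · exact fun _ h _ => absurd h (by decide +kernel)
  · exact fun _ h _ => absurd h (by decide +kernel)
  · exact fun _ h _ => absurd h (by decide +kernel)
  · exact fun _ h _ => absurd h (by decide +kernel)
  · exact fun h => absurd rfl h
theorem cert_pair_5 : ∀ c ∈ dirs, ∀ d ∈ dirs, c ≠ d → port 5 c = true → port 5 d = true → PairOk 5 c d ∨ PairOk 5 d c := by
  intro c hc d hd
  simp only [dirs, List.mem_cons, List.not_mem_nil, or_false] at hc hd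
  rcases hc with rfl | rfl | rfl | rfl | rfl | rfl <;> rcases hd with rfl | rfl | rfl | rfl | rfl | rfl
  · exact fun h => absurd rfl h
  · exact fun _ _ h => absurd h (by decide +kernel)
  · exact fun _ _ _ => Or.inl ⟨⟨_, ctri_5_9_65_ok⟩, _, clane_5_9_65_ok⟩
  · exact fun _ _ _ => Or.inl ⟨⟨_, ctri_5_9_81_ok⟩, _, clane_5_9_81_ok⟩
  · exact fun _ _ _ => Or.inl ⟨⟨_, ctri_5_9_72_ok⟩, _, clane_5_9_72_ok⟩
  · exact fun _ _ h => absurd h (by decide +kernel)
  · exact fun _ h _ => absurd h (by decide +kernel)
  · exact fun h => absurd rfl h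
  · exact fun _ h _ => absurd h (by decide +kernel)
  · exact fun _ h _ => absurd h (by decide +kernel)
  · exact fun _ h _ => absurd h (by decide +kernel)
  · exact fun _ h _ => absurd h (by decide +kernel)
  · exact fun _ _ _ => Or.inr ⟨⟨_, ctri_5_9_65_ok⟩, _, clane_5_9_65_ok⟩
  · exact fun _ _ h => absurd h (by decide +kernel)
  · exact fun h => absurd rfl h
  · exact fun _ _ _ => Or.inl ⟨⟨_, ctri_5_65_81_ok⟩, _, clane_5_65_81_ok⟩
  · exact fun _ _ _ => Or.inl ⟨⟨_, ctri_5_65_72_ok⟩, _, clane_5_65_72_ok⟩
  · exact fun _ _ h => absurd h (by decide +kernel)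
  · exact fun _ _ _ => Or.inr ⟨⟨_, ctri_5_9_81_ok⟩, _, clane_5_9_81_ok⟩
  · exact fun _ _ h => absurd h (by decide +kernel)
  · exact fun _ _ _ => Or.inr ⟨⟨_, ctri_5_65_81_ok⟩, _, clane_5_65_81_ok⟩
  · exact fun h => absurd rfl h
  · exact fun _ _ _ => Or.inl ⟨⟨_, ctri_5_81_72_ok⟩, _, clane_5_81_72_ok⟩
  · exact fun _ _ h => absurd h (by decide +kernel)
  · exact fun _ _ _ => Or.inr ⟨⟨_, ctri_5_9_72_ok⟩, _, clane_5_9_72_ok⟩
  · exact fun _ _ h => absurd h (by decide +kernel)
  · exact fun _ _ _ => Or.inr ⟨⟨_, ctri_5_65_72_ok⟩, _, clane_5_65_72_ok⟩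
  · exact fun _ _ _ => Or.inr ⟨⟨_, ctri_5_81_72_ok⟩, _, clane_5_81_72_ok⟩
  · exact fun h => absurd rfl h
  · exact fun _ _ h => absurd h (by decide +kernel)
  · exact fun _ h _ => absurd h (by decide +kernel)
  · exact fun _ h _ => absurd h (by decide +kernel)
  · exact fun _ h _ => absurd h (by decide +kernel)
  · exact fun _ h _ => absurd h (by decide +kernel)
  · exact fun _ h _ => absurd h (by decide +kernel)
  · exact fun h => absurd rfl h
theorem cert_pair_7 : ∀ c ∈ dirs, ∀ d ∈ dirs, c ≠ d → port 7 c = true → port 7 d = true → PairOk 7 c d ∨ PairOk 7 d c := by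
  intro c hc d hd
  simp only [dirs, List.mem_cons, List.not_mem_nil, or_false] at hc hd
  rcases hc with rfl | rfl | rfl | rfl | rfl | rfl <;> rcases hd with rfl | rfl | rfl | rfl | rfl | rfl
  · exact fun h => absurd rfl h
  · exact fun _ _ _ => Or.inl ⟨⟨_, ctri_7_9_137_ok⟩, _, clane_7_9_137_ok⟩
  · exact fun _ _ _ => Or.inl ⟨⟨_, ctri_7_9_65_ok⟩, _, clane_7_9_65_ok⟩
  · exact fun _ _ _ => Or.inl ⟨⟨_, ctri_7_9_81_ok⟩, _, clane_7_9_81_ok⟩
  · exact fun _ _ _ => Or.inl ⟨⟨_, ctri_7_9_72_ok⟩, _, clane_7_9_72_ok⟩
  · exact fun _ _ h => absurd h (by decide +kernel)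
  · exact fun _ _ _ => Or.inr ⟨⟨_, ctri_7_9_137_ok⟩, _, clane_7_9_137_ok⟩
  · exact fun h => absurd rfl h
  · exact fun _ _ _ => Or.inl ⟨⟨_, ctri_7_137_65_ok⟩, _, clane_7_137_65_ok⟩
  · exact fun _ _ _ => Or.inl ⟨⟨_, ctri_7_137_81_ok⟩, _, clane_7_137_81_ok⟩
  · exact fun _ _ _ => Or.inl ⟨⟨_, ctri_7_137_72_ok⟩, _, clane_7_137_72_ok⟩
  · exact fun _ _ h => absurd h (by decide +kernel)
  · exact fun _ _ _ => Or.inr ⟨⟨_, ctri_7_9_65_ok⟩, _, clane_7_9_65_ok⟩
  · exact fun _ _ _ => Or.inr ⟨⟨_, ctri_7_137_65_ok⟩, _, clane_7_137_65_ok⟩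
  · exact fun h => absurd rfl h
  · exact fun _ _ _ => Or.inl ⟨⟨_, ctri_7_65_81_ok⟩, _, clane_7_65_81_ok⟩
  · exact fun _ _ _ => Or.inl ⟨⟨_, ctri_7_65_72_ok⟩, _, clane_7_65_72_ok⟩
  · exact fun _ _ h => absurd h (by decide +kernel)
  · exact fun _ _ _ => Or.inr ⟨⟨_, ctri_7_9_81_ok⟩, _, clane_7_9_81_ok⟩
  · exact fun _ _ _ => Or.inr ⟨⟨_, ctri_7_137_81_ok⟩, _, clane_7_137_81_ok⟩
  · exact fun _ _ _ => Or.inr ⟨⟨_, ctri_7_65_81_ok⟩, _, clane_7_65_81_ok⟩
  · exact fun h => absurd rfl h
  · exact fun _ _ _ => Or.inl ⟨⟨_, ctri_7_81_72_ok⟩, _, clane_7_81_72_ok⟩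
  · exact fun _ _ h => absurd h (by decide +kernel)
  · exact fun _ _ _ => Or.inr ⟨⟨_, ctri_7_9_72_ok⟩, _, clane_7_9_72_ok⟩
  · exact fun _ _ _ => Or.inr ⟨⟨_, ctri_7_137_72_ok⟩, _, clane_7_137_72_ok⟩
  · exact fun _ _ _ => Or.inr ⟨⟨_, ctri_7_65_72_ok⟩, _, clane_7_65_72_ok⟩
  · exact fun _ _ _ => Or.inr ⟨⟨_, ctri_7_81_72_ok⟩, _, clane_7_81_72_ok⟩
  · exact fun h => absurd rfl h
  · exact fun _ _ h => absurd h (by decide +kernel)
  · exact fun _ h _ => absurd h (by decide +kernel)
  · exact fun _ h _ => absurd h (by decide +kernel)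
  · exact fun _ h _ => absurd h (by decide +kernel)
  · exact fun _ h _ => absurd h (by decide +kernel)
  · exact fun _ h _ => absurd h (by decide +kernel)
  · exact fun h => absurd rfl h
theorem cert_pair_15 : ∀ c ∈ dirs, ∀ d ∈ dirs, c ≠ d → port 15 c = true → port 15 d = true → PairOk 15 c d ∨ PairOk 15 d c := by
  intro c hc d hd
  simp only [dirs, List.mem_cons, List.not_mem_nil, or_false] at hc hd
  rcases hc with rfl | rfl | rfl | rfl | rfl | rfl <;> rcases hd with rfl | rfl | rfl | rfl | rfl | rfl
  · exact fun h => absurd rfl h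
  · exact fun _ _ _ => Or.inl ⟨⟨_, ctri_15_9_137_ok⟩, _, clane_15_9_137_ok⟩
  · exact fun _ _ _ => Or.inl ⟨⟨_, ctri_15_9_65_ok⟩, _, clane_15_9_65_ok⟩
  · exact fun _ _ _ => Or.inl ⟨⟨_, ctri_15_9_81_ok⟩, _, clane_15_9_81_ok⟩
  · exact fun _ _ h => absurd h (by decide +kernel)
  · exact fun _ _ h => absurd h (by decide +kernel)
  · exact fun _ _ _ => Or.inr ⟨⟨_, ctri_15_9_137_ok⟩, _, clane_15_9_137_ok⟩
  · exact fun h => absurd rfl h
  · exact fun _ _ _ => Or.inl ⟨⟨_, ctri_15_137_65_ok⟩, _, clane_15_137_65_ok⟩
  · exact fun _ _ _ => Or.inl ⟨⟨_, ctri_15_137_81_ok⟩, _, clane_15_137_81_ok⟩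
  · exact fun _ _ h => absurd h (by decide +kernel)
  · exact fun _ _ h => absurd h (by decide +kernel)
  · exact fun _ _ _ => Or.inr ⟨⟨_, ctri_15_9_65_ok⟩, _, clane_15_9_65_ok⟩
  · exact fun _ _ _ => Or.inr ⟨⟨_, ctri_15_137_65_ok⟩, _, clane_15_137_65_ok⟩
  · exact fun h => absurd rfl h
  · exact fun _ _ _ => Or.inl ⟨⟨_, ctri_15_65_81_ok⟩, _, clane_15_65_81_ok⟩
  · exact fun _ _ h => absurd h (by decide +kernel)
  · exact fun _ _ h => absurd h (by decide +kernel)
  · exact fun _ _ _ => Or.inr ⟨⟨_, ctri_15_9_81_ok⟩, _, clane_15_9_81_ok⟩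
  · exact fun _ _ _ => Or.inr ⟨⟨_, ctri_15_137_81_ok⟩, _, clane_15_137_81_ok⟩
  · exact fun _ _ _ => Or.inr ⟨⟨_, ctri_15_65_81_ok⟩, _, clane_15_65_81_ok⟩
  · exact fun h => absurd rfl h
  · exact fun _ _ h => absurd h (by decide +kernel)
  · exact fun _ _ h => absurd h (by decide +kernel)
  · exact fun _ h _ => absurd h (by decide +kernel)
  · exact fun _ h _ => absurd h (by decide +kernel)
  · exact fun _ h _ => absurd h (by decide +kernel)
  · exact fun _ h _ => absurd h (by decide +kernel)
  · exact fun h => absurd rfl h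
  · exact fun _ h _ => absurd h (by decide +kernel)
  · exact fun _ h _ => absurd h (by decide +kernel)
  · exact fun _ h _ => absurd h (by decide +kernel)
  · exact fun _ h _ => absurd h (by decide +kernel)
  · exact fun _ h _ => absurd h (by decide +kernel)
  · exact fun _ h _ => absurd h (by decide +kernel)
  · exact fun h => absurd rfl h
theorem cert_pair_17 : ∀ c ∈ dirs, ∀ d ∈ dirs, c ≠ d → port 17 c = true → port 17 d = true → PairOk 17 c d ∨ PairOk 17 d c := by
  intro c hc d hd
  simp only [dirs, List.mem_cons, List.not_mem_nil, or_false] at hc hd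
  rcases hc with rfl | rfl | rfl | rfl | rfl | rfl <;> rcases hd with rfl | rfl | rfl | rfl | rfl | rfl
  · exact fun h => absurd rfl h
  · exact fun _ _ h => absurd h (by decide +kernel)
  · exact fun _ _ _ => Or.inl ⟨⟨_, ctri_17_9_65_ok⟩, _, clane_17_9_65_ok⟩
  · exact fun _ _ h => absurd h (by decide +kernel)
  · exact fun _ _ _ => Or.inl ⟨⟨_, ctri_17_9_72_ok⟩, _, clane_17_9_72_ok⟩
  · exact fun _ _ _ => Or.inl ⟨⟨_, ctri_17_9_74_ok⟩, _, clane_17_9_74_ok⟩
  · exact fun _ h _ => absurd h (by decide +kernel)
  · exact fun h => absurd rfl h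
  · exact fun _ h _ => absurd h (by decide +kernel)
  · exact fun _ h _ => absurd h (by decide +kernel)
  · exact fun _ h _ => absurd h (by decide +kernel)
  · exact fun _ h _ => absurd h (by decide +kernel)
  · exact fun _ _ _ => Or.inr ⟨⟨_, ctri_17_9_65_ok⟩, _, clane_17_9_65_ok⟩
  · exact fun _ _ h => absurd h (by decide +kernel)
  · exact fun h => absurd rfl h
  · exact fun _ _ h => absurd h (by decide +kernel)
  · exact fun _ _ _ => Or.inl ⟨⟨_, ctri_17_65_72_ok⟩, _, clane_17_65_72_ok⟩
  · exact fun _ _ _ => Or.inl ⟨⟨_, ctri_17_65_74_ok⟩, _, clane_17_65_74_ok⟩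
  · exact fun _ h _ => absurd h (by decide +kernel)
  · exact fun _ h _ => absurd h (by decide +kernel)
  · exact fun _ h _ => absurd h (by decide +kernel)
  · exact fun h => absurd rfl h
  · exact fun _ h _ => absurd h (by decide +kernel)
  · exact fun _ h _ => absurd h (by decide +kernel)
  · exact fun _ _ _ => Or.inr ⟨⟨_, ctri_17_9_72_ok⟩, _, clane_17_9_72_ok⟩
  · exact fun _ _ h => absurd h (by decide +kernel)
  · exact fun _ _ _ => Or.inr ⟨⟨_, ctri_17_65_72_ok⟩, _, clane_17_65_72_ok⟩
  · exact fun _ _ h => absurd h (by decide +kernel)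
  · exact fun h => absurd rfl h
  · exact fun _ _ _ => Or.inl ⟨⟨_, ctri_17_72_74_ok⟩, _, clane_17_72_74_ok⟩
  · exact fun _ _ _ => Or.inr ⟨⟨_, ctri_17_9_74_ok⟩, _, clane_17_9_74_ok⟩
  · exact fun _ _ h => absurd h (by decide +kernel)
  · exact fun _ _ _ => Or.inr ⟨⟨_, ctri_17_65_74_ok⟩, _, clane_17_65_74_ok⟩
  · exact fun _ _ h => absurd h (by decide +kernel)
  · exact fun _ _ _ => Or.inr ⟨⟨_, ctri_17_72_74_ok⟩, _, clane_17_72_74_ok⟩
  · exact fun h => absurd rfl h

end Pool.Agent.Lib.MP_b7d179_gt.M
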