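import Pool.Agent.Lib.MP_b7d179_gt.M.Cert2

/-! Generated certificates. -/

namespace Pool.Agent.Lib.MP_b7d179_gt.M

open C

def ctri_31_9_137 : TE × TE × TE × TA × TA × TQ :=
    (((17,(22195,[(59067,[59059])])),[(81,(87931,[]),[87739]),(145,(186299,[(219123,[219059])]),
    [186235])]),((9,(13981,[(13995,[13979])])),[(73,(79581,[(79723,[79579]),(108253,[112349]),
    (108379,[108251,112475])]),[80539,79531]),(137,(174059,[]),[173931])]),((10,(15006,[(48287,
    [48286])])),[(74,(80607,[(109279,[113375])]),[80543]),(66,(101078,[(105687,[105686])]),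
    [109271]),(65,(100053,[(100179,[100051])]),[101077]),(129,(165779,[(202707,[202643])]),
    [165715])]),[15069,113365,109267,108499],[22507],([14875,13867],[22067,26227,59003,63419,
    227251,223219,255979],[251859],[239563,235403,202627,198339,100038,101582,105679,106207,114271,
    48734,48158,15389]))
theorem ctri_31_9_137_ok : chkTri 31 9 137 ctri_31_9_137 = true := by decide +kernel
def ctri_31_9_65 : TE × TE × TE × TA × TA × TQ :=
    (((17,(22195,[(59067,[59059])])),[(81,(87931,[]),[87739]),(145,(186299,[(219123,[219059])]),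
    [186235]),(137,(174059,[]),[186347]),(129,(165779,[(202707,[202643])]),[174035])]),((9,(13981,
    [(13995,[13979])])),[(73,(79581,[(79723,[79579]),(108253,[112349]),(108379,[108251,112475])]),
    [80539,79531]),(65,(100053,[(100179,[100051])]),[109267,108371])]),((10,(15006,[(48287,
    [48286])])),[(74,(80607,[(109279,[113375])]),[80543]),(66,(101078,[(105687,[105686])]),
    [109271])]),[15069,113349],[22379,186179],([14875,13867],[22067,26227,59003,63419,227251,
    223219,255947,235403,202627,198467],[165571,100037],[101062,101582,105679,106207,114271,48734,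
    48158,15389]))
theorem ctri_31_9_65_ok : chkTri 31 9 65 ctri_31_9_65 = true := by decide +kernel
def ctri_31_9_81 : TE × TE × TE × TA × TA × TQ :=
    (((10,(15006,[(48287,[48286])])),[(74,(80607,[(109279,[113375])]),[80543]),(66,(101078,
    [(105687,[105686])]),[109271]),(65,(100053,[(100179,[100051])]),[101077]),(129,(165779,
    [(202707,[202643])]),[165715]),(137,(174059,[]),[174035]),(145,(186299,[(219123,[219059])]),
    [186347])]),((9,(13981,[(13995,[13979])])),[(73,(79581,[(79723,[79579]),(108253,[112349]),
    (108379,[108251,112475])]),[80539,79531]),(81,(87931,[]),[87915])]),((17,(22195,[(59067,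
    [59059])])),[]),[22187,87739],[15069,113365,109267,108371,173947],([22043,13853],[14878,15454,
    48223,48863,114383,106190,105670,101571,100227,198539,202699,235507,255923,223163,227195],
    [194235],[95867,63091,58931,26155]))
theorem ctri_31_9_81_ok : chkTri 31 9 81 ctri_31_9_81 = true := by decide +kernel
def ctri_31_9_74 : TE × TE × TE × TA × TA × TQ :=
    (((17,(22195,[(59067,[59059])])),[(81,(87931,[]),[87739]),(145,(186299,[(219123,[219059])]),
    [186235]),(137,(174059,[]),[186347]),(129,(165779,[(202707,[202643])]),[174035]),(65,(100053,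
    [(100179,[100051])]),[165715]),(66,(101078,[(105687,[105686])]),[101077])]),((9,(13981,[(13995,
    [13979])])),[(73,(79581,[(79723,[79579]),(108253,[112349]),(108379,[108251,112475])]),[80539,
    79531]),(74,(80607,[(109279,[113375])]),[80605,113365])]),((10,(15006,[(48287,[48286])])),[]),
    [15005,80543],[22379,186195,173779,108247],([14875,13867],[22067,26227,59003,63419,227251,
    223219,255947,235403,202627,198339,100038,101582,105679,106199],[110303,114335],[81503,48734,
    48158,15389]))
theorem ctri_31_9_74_ok : chkTri 31 9 74 ctri_31_9_74 = true := by decide +kernel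
def ctri_31_137_65 : TE × TE × TE × TA × TA × TQ :=
    (((9,(13981,[(13995,[13979])])),[(10,(15006,[(48287,[48286])]),[15005]),(17,(22195,[(59067,
    [59059])]),[22187]),(74,(80607,[(109279,[113375])]),[80543]),(66,(101078,[(105687,[105686])]),
    [109271]),(81,(87931,[]),[87739]),(145,(186299,[(219123,[219059])]),[186235])]),((137,(174059,
    [])),[(73,(79581,[(79723,[79579]),(108253,[112349]),(108379,[108251,112475])]),[173931]),(65,
    (100053,[(100179,[100051])]),[109267,108371])]),((129,(165779,[(202707,[202643])])),[]),
    [165715,174035],[101085,113309,80539,79531,88043],([239595],[251891,255923,223163,226939,63091,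
    58931,26139,13854,15454,48223,48863,114383,106190,105670,101573],[101059,100163],[165763,
    198539,202699,235475]))
theorem ctri_31_137_65_ok : chkTri 31 137 65 ctri_31_137_65 = true := by decide +kernel
def ctri_31_137_81 : TE × TE × TE × TA × TA × TQ :=
    (((9,(13981,[(13995,[13979])])),[(10,(15006,[(48287,[48286])]),[15005]),(17,(22195,[(59067,
    [59059])]),[22187]),(74,(80607,[(109279,[113375])]),[80543]),(66,(101078,[(105687,[105686])]),
    [109271]),(65,(100053,[(100179,[100051])]),[101077]),(129,(165779,[(202707,[202643])]),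
    [165715])]),((137,(174059,[])),[(73,(79581,[(79723,[79579]),(108253,[112349]),(108379,[108251,
    112475])]),[173931]),(81,(87931,[]),[87915])]),((145,(186299,[(219123,[219059])])),[]),[194411,
    186347],[95899,79517,80605,113365,109267,108499],([251859],[239563,235403,202627,198339,100038,
    101582,105679,106207,114271,48734,48158,15387,13875,26227,59003,63163],[96123],[194491,227251,
    223219,255979]))
theorem ctri_31_137_81_ok : chkTri 31 137 81 ctri_31_137_81 = true := by decide +kernel
def ctri_31_137_74 : TE × TE × TE × TA × TA × TQ :=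
    (((9,(13981,[(13995,[13979])])),[(10,(15006,[(48287,[48286])]),[15005]),(17,(22195,[(59067,
    [59059])]),[22187]),(81,(87931,[]),[87739]),(145,(186299,[(219123,[219059])]),[186235])]),
    ((137,(174059,[])),[(73,(79581,[(79723,[79579]),(108253,[112349]),(108379,[108251,112475])]),
    [173931]),(74,(80607,[(109279,[113375])]),[80605,113365])]),((65,(100053,[(100179,[100051])])),
    [(66,(101078,[(105687,[105686])]),[101077]),(129,(165779,[(202707,[202643])]),[165715])]),
    [110291,108499],[81563,79531,88043],([239595],[251891,255923,223163,226939,63091,58931,26139,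
    13854,15454,48223,48799],[81631,114391],[110287,106190,105670,101571,100227,198539,202699,
    235475]))
theorem ctri_31_137_74_ok : chkTri 31 137 74 ctri_31_137_74 = true := by decide +kernel
def ctri_31_65_81 : TE × TE × TE × TA × TA × TQ :=
    (((9,(13981,[(13995,[13979])])),[(10,(15006,[(48287,[48286])]),[15005]),(17,(22195,[(59067,
    [59059])]),[22187]),(74,(80607,[(109279,[113375])]),[80543]),(66,(101078,[(105687,[105686])]),
    [109271])]),((65,(100053,[(100179,[100051])])),[(73,(79581,[(79723,[79579]),(108253,[112349]),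
    (108379,[108251,112475])]),[109267,108371]),(81,(87931,[]),[87915])]),((129,(165779,[(202707,
    [202643])])),[(137,(174059,[]),[174035]),(145,(186299,[(219123,[219059])]),[186347])]),
    [165755],[95899,79517,80605,113349],([165571,100037],[101062,101582,105679,106207,114271,48734,
    48158,15387,13875,26227,59003,63163],[96123],[194491,227251,223219,255947,235403,202627,
    198467]))
theorem ctri_31_65_81_ok : chkTri 31 65 81 ctri_31_65_81 = true := by decide +kernel
def ctri_31_65_74 : TE × TE × TE × TA × TA × TQ :=
    (((9,(13981,[(13995,[13979])])),[(10,(15006,[(48287,[48286])]),[15005]),(17,(22195,[(59067,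
    [59059])]),[22187]),(81,(87931,[]),[87739]),(145,(186299,[(219123,[219059])]),[186235]),(137,
    (174059,[]),[186347]),(129,(165779,[(202707,[202643])]),[174035])]),((65,(100053,[(100179,
    [100051])])),[(73,(79581,[(79723,[79579]),(108253,[112349]),(108379,[108251,112475])]),[109267,
    108371]),(74,(80607,[(109279,[113375])]),[80605,113365])]),((66,(101078,[(105687,[105686])])),
    []),[101077,109271],[81563,79531,87915,186179],([101059,100163],[165763,198539,202699,235507,
    255923,223163,226939,63091,58931,26139,13854,15454,48223,48799],[81631,114391],[110287,106190,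
    105670,101573]))
theorem ctri_31_65_74_ok : chkTri 31 65 74 ctri_31_65_74 = true := by decide +kernel
def ctri_31_81_74 : TE × TE × TE × TA × TA × TQ :=
    (((9,(13981,[(13995,[13979])])),[(10,(15006,[(48287,[48286])]),[15005]),(17,(22195,[(59067,
    [59059])]),[22187])]),((81,(87931,[])),[(73,(79581,[(79723,[79579]),(108253,[112349]),(108379,
    [108251,112475])]),[87915]),(74,(80607,[(109279,[113375])]),[80605,113365])]),((65,(100053,
    [(100179,[100051])])),[(66,(101078,[(105687,[105686])]),[101077]),(129,(165779,[(202707,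
    [202643])]),[165715]),(137,(174059,[]),[174035]),(145,(186299,[(219123,[219059])]),[186347])]),
    [110291,108371,173947],[81563,79547],([194235],[95867,63091,58931,26139,13854,15454,48223,
    48799],[81631,114391],[110287,106190,105670,101571,100227,198539,202699,235507,255923,223163,
    227195]))
theorem ctri_31_81_74_ok : chkTri 31 81 74 ctri_31_81_74 = true := by decide +kernel
def ctri_51_9_137 : TE × TE × TE × TA × TA × TQ :=
    (((8,(12954,[(45209,[45721])])),[(72,(78170,[]),[77978]),(136,(176538,[(209882,[209818])]),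
    [176474])]),((9,(13469,[])),[(73,(79197,[]),[79005]),(137,(177629,[]),[177501])]),((10,(15006,
    [(48287,[48286])])),[(74,(80735,[]),[80543]),(138,(179103,[(211934,[211870])]),[179039])]),
    [15325],[13786],([14874],[13337,12889,45656,45464,209305,209881,242650],[243165],[244702,
    245150,212383,212575,48734,48158,15389]))
theorem ctri_51_9_137_ok : chkTri 51 9 137 ctri_51_9_137 = true := by decide +kernel
def ctri_51_9_72 : TE × TE × TE × TA × TA × TQ :=
    (((10,(15006,[(48287,[48286])])),[(74,(80735,[]),[80543]),(138,(179103,[(211934,[211870])]),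
    [179039]),(137,(177629,[]),[179165]),(136,(176538,[(209882,[209818])]),[177626])]),((9,(13469,
    [])),[(73,(79197,[]),[79005]),(72,(78170,[]),[79194])]),((8,(12954,[(45209,[45721])])),[]),
    [13466,79000],[15197,179032],([13341],[14878,15454,48223,49055,212894,212446,245209,242585,
    209816,209240],[176280],[77912,45145,45593,12826]))
theorem ctri_51_9_72_ok : chkTri 51 9 72 ctri_51_9_72 = true := by decide +kernel
def ctri_51_9_74 : TE × TE × TE × TA × TA × TQ :=
    (((8,(12954,[(45209,[45721])])),[(72,(78170,[]),[77978]),(136,(176538,[(209882,[209818])]),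
    [176474]),(137,(177629,[]),[177626]),(138,(179103,[(211934,[211870])]),[179165])]),((9,(13469,
    [])),[(73,(79197,[]),[79005]),(74,(80735,[]),[80733])]),((10,(15006,[(48287,[48286])])),[]),
    [15005,80543],[13658,177503],([14874],[13337,12889,45656,45464,209305,209881,242654,245150,
    212383,212831],[179871],[81503,48734,48158,15389]))
theorem ctri_51_9_74_ok : chkTri 51 9 74 ctri_51_9_74 = true := by decide +kernel
def ctri_51_137_72 : TE × TE × TE × TA × TA × TQ :=
    (((8,(12954,[(45209,[45721])])),[(9,(13469,[]),[13466]),(10,(15006,[(48287,[48286])]),[15005]),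
    (74,(80735,[]),[80543]),(138,(179103,[(211934,[211870])]),[179039])]),((137,(177629,[])),[(73,
    (79197,[]),[177501]),(72,(78170,[]),[79194])]),((136,(176538,[(209882,[209818])])),[]),[176474,
    177626],[77981,80861],([243165],[244702,245150,212383,212575,48734,48158,15385,12889,45656,
    45208],[78168],[176536,209305,209881,242650]))
theorem ctri_51_137_72_ok : chkTri 51 137 72 ctri_51_137_72 = true := by decide +kernel
def ctri_51_137_74 : TE × TE × TE × TA × TA × TQ :=
    (((8,(12954,[(45209,[45721])])),[(9,(13469,[]),[13466]),(10,(15006,[(48287,[48286])]),[15005]),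
    (72,(78170,[]),[77978]),(136,(176538,[(209882,[209818])]),[176474])]),((137,(177629,[])),[(73,
    (79197,[]),[177501]),(74,(80735,[]),[80733])]),((138,(179103,[(211934,[211870])])),[]),[180061,
    179165],[81562,79322],([244698],[243161,242585,209816,208984,45145,45593,12830,15454,48223,
    48799],[81759],[180127,212894,212446,245213]))
theorem ctri_51_137_74_ok : chkTri 51 137 74 ctri_51_137_74 = true := by decide +kernel
def ctri_51_72_74 : TE × TE × TE × TA × TA × TQ :=
    (((8,(12954,[(45209,[45721])])),[(9,(13469,[]),[13466]),(10,(15006,[(48287,[48286])]),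
    [15005])]),((72,(78170,[])),[(73,(79197,[]),[79194]),(74,(80735,[]),[80733])]),((136,(176538,
    [(209882,[209818])])),[(137,(177629,[]),[177626]),(138,(179103,[(211934,[211870])]),
    [179165])]),[176479],[77983],([176280],[77912,45145,45593,12830,15454,48223,48799],[81759],
    [180127,212894,212446,245209,242585,209816,209240]))
theorem ctri_51_72_74_ok : chkTri 51 72 74 ctri_51_72_74 = true := by decide +kernel
def ctri_55_9_137 : TE × TE × TE × TA × TA × TQ :=
    (((17,(22195,[(59067,[59059])])),[(81,(87803,[(120059,[120571])]),[87739]),(80,(119026,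
    [(123642,[123634])]),[120058]),(72,(110826,[(110938,[110810])]),[119018]),(136,(176538,
    [(209882,[209818])]),[176474])]),((9,(13981,[(13995,[13979])])),[(73,(79709,[(79595,[79579]),
    (111851,[112363]),(111963,[111835,112475])]),[80539,79531]),(137,(177629,[]),[177501])]),((10,
    (15006,[(48287,[48286])])),[(74,(80735,[]),[80543]),(138,(179103,[(211934,[211870])]),
    [179039])]),[15325],[22251,120554,120026,112090],([14875,13867],[22067,26227,59003,63227,
    128761,127729,123632,123096,111000,209305,209881,242650],[243165],[244702,245150,212383,212575,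
    48734,48158,15389]))
theorem ctri_55_9_137_ok : chkTri 55 9 137 ctri_55_9_137 = true := by decide +kernel
def ctri_55_9_81 : TE × TE × TE × TA × TA × TQ :=
    (((10,(15006,[(48287,[48286])])),[(74,(80735,[]),[80543]),(138,(179103,[(211934,[211870])]),
    [179039]),(137,(177629,[]),[179165]),(136,(176538,[(209882,[209818])]),[177626]),(72,(110826,
    [(110938,[110810])]),[176474]),(80,(119026,[(123642,[123634])]),[119018])]),((9,(13981,[(13995,
    [13979])])),[(73,(79709,[(79595,[79579]),(111851,[112363]),(111963,[111835,112475])]),[80539,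
    79531]),(81,(87803,[(120059,[120571])]),[87787,120554])]),((17,(22195,[(59067,[59059])])),[]),
    [22187,87739],[15197,179034,177370,111866],([22043,13853],[14878,15454,48223,49055,212894,
    212446,245209,242585,209816,209112,110832,123121,123641,127738],[128251,128699],[95867,63091,
    58931,26155]))
theorem ctri_55_9_81_ok : chkTri 55 9 81 ctri_55_9_81 = true := by decide +kernel
def ctri_55_9_72 : TE × TE × TE × TA × TA × TQ :=
    (((17,(22195,[(59067,[59059])])),[(81,(87803,[(120059,[120571])]),[87739]),(80,(119026,
    [(123642,[123634])]),[120058])]),((9,(13981,[(13995,[13979])])),[(73,(79709,[(79595,[79579]),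
    (111851,[112363]),(111963,[111835,112475])]),[80539,79531]),(72,(110826,[(110938,[110810])]),
    [120026,111962])]),((10,(15006,[(48287,[48286])])),[(74,(80735,[]),[80543]),(138,(179103,
    [(211934,[211870])]),[179039]),(137,(177629,[]),[179165]),(136,(176538,[(209882,[209818])]),
    [177626])]),[15197,179032],[22251,120552],([14875,13867],[22067,26227,59003,63227,128761,
    127729,123632,123112],[119000,110936],[176536,209305,209881,242654,245150,212383,212575,48734,
    48158,15389]))
theorem ctri_55_9_72_ok : chkTri 55 9 72 ctri_55_9_72 = true := by decide +kernel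
def ctri_55_9_74 : TE × TE × TE × TA × TA × TQ :=
    (((17,(22195,[(59067,[59059])])),[(81,(87803,[(120059,[120571])]),[87739]),(80,(119026,
    [(123642,[123634])]),[120058]),(72,(110826,[(110938,[110810])]),[119018]),(136,(176538,
    [(209882,[209818])]),[176474]),(137,(177629,[]),[177626]),(138,(179103,[(211934,[211870])]),
    [179165])]),((9,(13981,[(13995,[13979])])),[(73,(79709,[(79595,[79579]),(111851,[112363]),
    (111963,[111835,112475])]),[80539,79531]),(74,(80735,[]),[80733])]),((10,(15006,[(48287,
    [48286])])),[]),[15005,80543],[22251,120554,120026,111962,177503],([14875,13867],[22067,26227,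
    59003,63227,128761,127729,123632,123096,111000,209305,209881,242654,245150,212383,212831],
    [179871],[81503,48734,48158,15389]))
theorem ctri_55_9_74_ok : chkTri 55 9 74 ctri_55_9_74 = true := by decide +kernel
def ctri_55_137_81 : TE × TE × TE × TA × TA × TQ :=
    (((72,(110826,[(110938,[110810])])),[(80,(119026,[(123642,[123634])]),[119018]),(136,(176538,
    [(209882,[209818])]),[176474])]),((137,(177629,[])),[(73,(79709,[(79595,[79579]),(111851,
    [112363]),(111963,[111835,112475])]),[177501]),(81,(87803,[(120059,[120571])]),[87787,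
    120554])]),((9,(13981,[(13995,[13979])])),[(10,(15006,[(48287,[48286])]),[15005]),(17,(22195,
    [(59067,[59059])]),[22187]),(74,(80735,[]),[80543]),(138,(179103,[(211934,[211870])]),
    [179039])]),[95899,79517,80861],[128218,112090],([244698],[243161,242585,209816,209112,110832,
    123121,123641,127738],[128251,128699],[95867,63091,58931,26139,13854,15454,48223,49055,212894,
    212446,245213]))
theorem ctri_55_137_81_ok : chkTri 55 137 81 ctri_55_137_81 = true := by decide +kernel
def ctri_55_137_72 : TE × TE × TE × TA × TA × TQ :=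
    (((9,(13981,[(13995,[13979])])),[(10,(15006,[(48287,[48286])]),[15005]),(17,(22195,[(59067,
    [59059])]),[22187]),(74,(80735,[]),[80543]),(81,(87803,[(120059,[120571])]),[87739]),(80,
    (119026,[(123642,[123634])]),[120058]),(138,(179103,[(211934,[211870])]),[179039])]),((137,
    (177629,[])),[(73,(79709,[(79595,[79579]),(111851,[112363]),(111963,[111835,112475])]),
    [177501]),(72,(110826,[(110938,[110810])]),[120026,111962])]),((136,(176538,[(209882,
    [209818])])),[]),[176474,177626],[119019,120491,87707,79517,80861],([243165],[244702,245150,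
    212383,212575,48734,48158,15387,13875,26227,59003,63227,128761,127729,123632,123112],[119000,
    110936],[176536,209305,209881,242650]))
theorem ctri_55_137_72_ok : chkTri 55 137 72 ctri_55_137_72 = true := by decide +kernel
def ctri_55_137_74 : TE × TE × TE × TA × TA × TQ :=
    (((9,(13981,[(13995,[13979])])),[(10,(15006,[(48287,[48286])]),[15005]),(17,(22195,[(59067,
    [59059])]),[22187]),(81,(87803,[(120059,[120571])]),[87739]),(80,(119026,[(123642,[123634])]),
    [120058]),(72,(110826,[(110938,[110810])]),[119018]),(136,(176538,[(209882,[209818])]),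
    [176474])]),((137,(177629,[])),[(73,(79709,[(79595,[79579]),(111851,[112363]),(111963,[111835,
    112475])]),[177501]),(74,(80735,[]),[80733])]),((138,(179103,[(211934,[211870])])),[]),[180061,
    179165],[81563,79531,87787,120554,120026,112090],([244698],[243161,242585,209816,209112,110832,
    123121,123641,127739,128635,63091,58931,26139,13854,15454,48223,48799],[81759],[180127,212894,
    212446,245213]))
theorem ctri_55_137_74_ok : chkTri 55 137 74 ctri_55_137_74 = true := by decide +kernel
def ctri_55_81_72 : TE × TE × TE × TA × TA × TQ :=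
    (((9,(13981,[(13995,[13979])])),[(10,(15006,[(48287,[48286])]),[15005]),(17,(22195,[(59067,
    [59059])]),[22187]),(74,(80735,[]),[80543]),(138,(179103,[(211934,[211870])]),[179039]),(137,
    (177629,[]),[179165]),(136,(176538,[(209882,[209818])]),[177626])]),((81,(87803,[(120059,
    [120571])])),[(73,(79709,[(79595,[79579]),(111851,[112363]),(111963,[111835,112475])]),[87787,
    120554]),(72,(110826,[(110938,[110810])]),[120026,111962])]),((80,(119026,[(123642,
    [123634])])),[]),[119018,120058],[95899,79517,80733,179032],([128251,128699],[95867,63091,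
    58931,26139,13854,15454,48223,49055,212894,212446,245209,242585,209816,209240],[176344,110824],
    [119024,123121,123641,127738]))
theorem ctri_55_81_72_ok : chkTri 55 81 72 ctri_55_81_72 = true := by decide +kernel
def ctri_55_81_74 : TE × TE × TE × TA × TA × TQ :=
    (((72,(110826,[(110938,[110810])])),[(80,(119026,[(123642,[123634])]),[119018]),(136,(176538,
    [(209882,[209818])]),[176474]),(137,(177629,[]),[177626]),(138,(179103,[(211934,[211870])]),
    [179165])]),((81,(87803,[(120059,[120571])])),[(73,(79709,[(79595,[79579]),(111851,[112363]),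
    (111963,[111835,112475])]),[87787,120554]),(74,(80735,[]),[80733])]),((9,(13981,[(13995,
    [13979])])),[(10,(15006,[(48287,[48286])]),[15005]),(17,(22195,[(59067,[59059])]),[22187])]),
    [81563,79547],[128218,111962,177503],([95995,128762],[128249,127729,123632,123096,111000,
    209305,209881,242654,245150,212383,212831],[179871],[81503,48734,48158,15387,13875,26227,59003,
    63163]))
theorem ctri_55_81_74_ok : chkTri 55 81 74 ctri_55_81_74 = true := by decide +kernel
def ctri_55_72_74 : TE × TE × TE × TA × TA × TQ :=
    (((9,(13981,[(13995,[13979])])),[(10,(15006,[(48287,[48286])]),[15005]),(17,(22195,[(59067,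
    [59059])]),[22187]),(81,(87803,[(120059,[120571])]),[87739]),(80,(119026,[(123642,[123634])]),
    [120058])]),((72,(110826,[(110938,[110810])])),[(73,(79709,[(79595,[79579]),(111851,[112363]),
    (111963,[111835,112475])]),[120026,111962]),(74,(80735,[]),[80733])]),((136,(176538,[(209882,
    [209818])])),[(137,(177629,[]),[177626]),(138,(179103,[(211934,[211870])]),[179165])]),
    [176479],[81563,79531,87787,120552],([176344,110824],[119024,123121,123641,127739,128635,63091,
    58931,26139,13854,15454,48223,48799],[81759],[180127,212894,212446,245209,242585,209816,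
    209240]))
theorem ctri_55_72_74_ok : chkTri 55 72 74 ctri_55_72_74 = true := by decide +kernel
def ctri_63_9_137 : TE × TE × TE × TA × TA × TQ :=
    (((17,(22195,[(59067,[59059])])),[(81,(87931,[]),[87739]),(145,(186299,[(219123,[219059])]),
    [186235])]),((9,(13981,[(13995,[13979])])),[(73,(79709,[(79723,[79707])]),[80539,79531]),(137,
    (178141,[(178155,[178139])]),[179035,178027])]),((10,(15006,[(48287,[48286])])),[(74,(80735,
    []),[80543]),(138,(179103,[(211934,[211870])]),[179039])]),[15325],[22507],([14875,13867],
    [22067,26227,59003,63419,227251,223219,255979],[251867,243677],[244702,245150,212383,212575,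
    48734,48158,15389]))
theorem ctri_63_9_137_ok : chkTri 63 9 137 ctri_63_9_137 = true := by decide +kernel
def ctri_63_9_81 : TE × TE × TE × TA × TA × TQ :=
    (((10,(15006,[(48287,[48286])])),[(74,(80735,[]),[80543]),(138,(179103,[(211934,[211870])]),
    [179039]),(137,(178141,[(178155,[178139])]),[179165]),(145,(186299,[(219123,[219059])]),
    [186347])]),((9,(13981,[(13995,[13979])])),[(73,(79709,[(79723,[79707])]),[80539,79531]),(81,
    (87931,[]),[87915])]),((17,(22195,[(59067,[59059])])),[]),[22187,87739],[15197,179035,178043],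
    ([22043,13853],[14878,15454,48223,49055,212894,212446,245211,243699,255923,223163,227195],
    [194235],[95867,63091,58931,26155]))
theorem ctri_63_9_81_ok : chkTri 63 9 81 ctri_63_9_81 = true := by decide +kernel
def ctri_63_9_74 : TE × TE × TE × TA × TA × TQ :=
    (((17,(22195,[(59067,[59059])])),[(81,(87931,[]),[87739]),(145,(186299,[(219123,[219059])]),
    [186235]),(137,(178141,[(178155,[178139])]),[186347]),(138,(179103,[(211934,[211870])]),
    [179165])]),((9,(13981,[(13995,[13979])])),[(73,(79709,[(79723,[79707])]),[80539,79531]),(74,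
    (80735,[]),[80733])]),((10,(15006,[(48287,[48286])])),[]),[15005,80543],[22379,186203,178015],
    ([14875,13867],[22067,26227,59003,63419,227251,223219,255963,243678,245150,212383,212831],
    [179871],[81503,48734,48158,15389]))
theorem ctri_63_9_74_ok : chkTri 63 9 74 ctri_63_9_74 = true := by decide +kernel
def ctri_63_137_81 : TE × TE × TE × TA × TA × TQ :=
    (((9,(13981,[(13995,[13979])])),[(10,(15006,[(48287,[48286])]),[15005]),(17,(22195,[(59067,
    [59059])]),[22187]),(74,(80735,[]),[80543]),(138,(179103,[(211934,[211870])]),[179039])]),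
    ((137,(178141,[(178155,[178139])])),[(73,(79709,[(79723,[79707])]),[179035,178027]),(81,(87931,
    []),[87915])]),((145,(186299,[(219123,[219059])])),[]),[194411,186347],[95899,79517,80861],
    ([251867,243677],[244702,245150,212383,212575,48734,48158,15387,13875,26227,59003,63163],
    [96123],[194491,227251,223219,255979]))
theorem ctri_63_137_81_ok : chkTri 63 137 81 ctri_63_137_81 = true := by decide +kernel
def ctri_63_137_74 : TE × TE × TE × TA × TA × TQ :=
    (((9,(13981,[(13995,[13979])])),[(10,(15006,[(48287,[48286])]),[15005]),(17,(22195,[(59067,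
    [59059])]),[22187]),(81,(87931,[]),[87739]),(145,(186299,[(219123,[219059])]),[186235])]),
    ((137,(178141,[(178155,[178139])])),[(73,(79709,[(79723,[79707])]),[179035,178027]),(74,(80735,
    []),[80733])]),((138,(179103,[(211934,[211870])])),[]),[180061,179165],[81563,79531,88043],
    ([244699,243691],[251891,255923,223163,226939,63091,58931,26139,13854,15454,48223,48799],
    [81759],[180127,212894,212446,245213]))
theorem ctri_63_137_74_ok : chkTri 63 137 74 ctri_63_137_74 = true := by decide +kernel
def ctri_63_81_74 : TE × TE × TE × TA × TA × TQ :=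
    (((9,(13981,[(13995,[13979])])),[(10,(15006,[(48287,[48286])]),[15005]),(17,(22195,[(59067,
    [59059])]),[22187])]),((81,(87931,[])),[(73,(79709,[(79723,[79707])]),[87915]),(74,(80735,[]),
    [80733])]),((137,(178141,[(178155,[178139])])),[(138,(179103,[(211934,[211870])]),[179165]),
    (145,(186299,[(219123,[219059])]),[186347])]),[180059,178043],[81563,79547],([194235],[95867,
    63091,58931,26139,13854,15454,48223,48799],[81759],[180127,212894,212446,245211,243699,255923,
    223163,227195]))
theorem ctri_63_81_74_ok : chkTri 63 81 74 ctri_63_81_74 = true := by decide +kernel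
def clane_31_9_137 : TD × TU :=
    ((14045,[(14315,[14043]),(108253,[112349]),(108507,[108251,112603])]),((9,[(73,(74909,[(79019,
    [79003])])),(137,(173419,[]))]),(0,[(1,(5266,[(33930,[38026])])),(2,(6805,[(35469,[39565])])),
    (8,(8850,[(41105,[41617])])),(10,(10902,[(44183,[44182])])),(16,(21162,[(53417,[53929])])),(17,
    (21682,[(58554,[58546])])),(64,(66194,[(69777,[70289])])),(65,(66709,[(66898,[66706])])),(66,
    (68246,[(72855,[72854]),(68309,[68245])])),(72,(73898,[(74066,[73874])])),(74,(76447,[(76503,
    [76439])])),(80,(86194,[(90810,[90802]),(86378,[86186])])),(81,(87227,[(87418,[87226])])),(128,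
    (164690,[(168273,[168785])])),(129,(165203,[(165266,[165202]),(202194,[202130])])),(136,
    (172394,[(172434,[172370]),(205778,[205714])])),(144,(184690,[(189306,[189298]),(184746,
    [184682]),(218090,[218026])])),(145,(185723,[(185786,[185722]),(218610,[218546])]))]),(9245,
    [(13355,[13339]),(14045,[13853]),(14315,[22043,14043]),(108253,[112349]),(108507,[108251,
    112603]),(239083,[239595])]),(9429,[(9706,[9426]),(10973,[10965]),(21995,[21994]),(107987,
    [108242,107986])])))
theorem clane_31_9_137_ok : chkLane 31 9 137 clane_31_9_137 = true := by decide +kernel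
def clane_31_9_65 : TD × TU :=
    ((14045,[(14187,[14043]),(100061,[112349]),(100187,[100059,112475])]),((9,[(73,(74909,[(79019,
    [79003])])),(65,(74965,[(107859,[107731])]))]),(0,[(1,(5266,[(33930,[38026])])),(2,(6805,
    [(35469,[39565])])),(8,(8850,[(41105,[41617])])),(10,(10902,[(44183,[44182])])),(16,(21162,
    [(53417,[53929])])),(17,(21682,[(58554,[58546])])),(64,(66194,[(69777,[70289])])),(66,(68246,
    [(72855,[72854])])),(72,(73898,[(74066,[73874])])),(74,(76447,[(76503,[76439])])),(80,(86194,
    [(90810,[90802]),(86378,[86186])])),(81,(87227,[(87418,[87226])])),(128,(164690,[(168273,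
    [168785])])),(129,(165266,[(202194,[202130])])),(136,(172394,[(172434,[172370]),(205778,
    [205714])])),(144,(184690,[(189306,[189298]),(184746,[184682]),(218090,[218026])])),(145,
    (185723,[(185786,[185722]),(218610,[218546])])),(137,(173523,[(173546,[173522]),(185835,
    [185834])]))]),(9245,[(13355,[13339]),(14045,[13853]),(14187,[22043,14043]),(100061,[112349]),
    (66757,[100037]),(99651,[99523]),(100187,[165571,100059,112475])]),(9365,[(9578,[9362]),(10973,
    [10901]),(21867,[21866]),(66709,[74901]),(66898,[66706,75090]),(68309,[68245,76501]),(165227,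
    [165226,185707])])))
theorem clane_31_9_65_ok : chkLane 31 9 65 clane_31_9_65 = true := by decide +kernel
def clane_31_9_81 : TD × TU :=
    ((14045,[(14187,[14043]),(87931,[87915]),(108253,[112349]),(108379,[108251,112475])]),((9,[(73,
    (74909,[(79019,[79003])])),(81,(87403,[]))]),(0,[(1,(5266,[(33930,[38026])])),(2,(6805,[(35469,
    [39565])])),(8,(8850,[(41105,[41617])])),(10,(10902,[(44183,[44182])])),(16,(21162,[(53417,
    [53929])])),(17,(21682,[(58554,[58546])])),(64,(66194,[(69777,[70289])])),(65,(66709,[(66898,
    [66706])])),(66,(68246,[(72855,[72854]),(68309,[68245])])),(72,(73898,[(74066,[73874])])),(74,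
    (76447,[(76503,[76439])])),(80,(86194,[(90810,[90802]),(86378,[86186])])),(128,(164690,
    [(168273,[168785])])),(129,(165203,[(165266,[165202]),(202194,[202130])])),(136,(172394,
    [(172434,[172370]),(205778,[205714])])),(137,(173523,[(173546,[173522])])),(144,(184690,
    [(189306,[189298]),(184746,[184682]),(218090,[218026])])),(145,(185835,[(185786,[185770]),
    (218610,[222634,218602])]))]),(9245,[(13355,[13339]),(14045,[13853]),(14187,[22043,14043]),
    (87931,[87915]),(95611,[96123]),(108253,[112349]),(108379,[108251,112475])]),(9429,[(9578,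
    [9426]),(10973,[10965]),(21675,[21674]),(87227,[87211]),(87418,[95402,87402]),(107859,[108242,
    107858]),(173435,[173906,173434])])))
theorem clane_31_9_81_ok : chkLane 31 9 81 clane_31_9_81 = true := by decide +kernel
def clane_31_9_74 : TD × TU :=
    ((14045,[(14187,[14043]),(80607,[80605]),(108255,[112351]),(108379,[108251,112475])]),((9,[(73,
    (74909,[(79019,[79003])])),(74,(76509,[]))]),(0,[(1,(5266,[(33930,[38026])])),(2,(6805,[(35469,
    [39565])])),(8,(8850,[(41105,[41617])])),(10,(10902,[(44183,[44182])])),(16,(21162,[(53417,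
    [53929])])),(17,(21682,[(58554,[58546])])),(64,(66194,[(69777,[70289])])),(65,(66709,[(66898,
    [66706])])),(66,(68246,[(72855,[72854]),(68309,[68245])])),(72,(73898,[(74066,[73874])])),(80,
    (86194,[(90810,[90802]),(86378,[86186])])),(81,(87227,[(87418,[87226])])),(128,(164690,
    [(168273,[168785])])),(129,(165203,[(165266,[165202]),(202194,[202130])])),(136,(172394,
    [(172434,[172370]),(205778,[205714])])),(144,(184690,[(189306,[189298]),(184746,[184682]),
    (218090,[218026])])),(145,(185723,[(185786,[185722]),(218610,[218546])])),(137,(173523,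
    [(173546,[173522]),(185835,[185834])]))]),(9245,[(13355,[13339]),(14045,[13853]),(14187,[22043,
    14043]),(80607,[80605]),(77535,[81631]),(108255,[110303,114395]),(108379,[108251,112475])]),
    (9429,[(9578,[9426]),(10909,[10901]),(21867,[21866]),(76447,[76445]),(76503,[77461,76501]),
    (107859,[108242,107858]),(173419,[173906,173418,185707])])))
theorem clane_31_9_74_ok : chkLane 31 9 74 clane_31_9_74 = true := by decide +kernel
def clane_31_137_65 : TD × TU :=
    ((79581,[(79851,[79579]),(100061,[112349]),(100187,[100059,112475]),(174043,[173915,178139])]),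
    ((137,[(73,(173419,[])),(65,(74965,[(107859,[107731])]))]),(0,[(1,(5266,[(33930,[38026])])),(2,
    (6805,[(35469,[39565])])),(8,(8850,[(41105,[41617])])),(9,(9365,[(9386,[9362])])),(10,(10902,
    [(10909,[10901]),(44183,[44182])])),(16,(21162,[(53417,[53929])])),(17,(21675,[(21682,[21674]),
    (58554,[58546])])),(64,(66194,[(69777,[70289])])),(66,(68246,[(72855,[72854])])),(72,(73898,
    [(74066,[73874])])),(74,(76447,[(76503,[76439])])),(80,(86194,[(90810,[90802]),(86378,
    [86186])])),(81,(87227,[(87418,[87226])])),(128,(164690,[(168273,[168785])])),(129,(165266,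
    [(202194,[202130])])),(136,(172394,[(172434,[172370]),(205778,[205714])])),(144,(184690,
    [(189306,[189298]),(184746,[184682]),(218090,[218026])])),(145,(185723,[(185786,[185722]),
    (218610,[218546])]))]),(66757,[(100061,[100037]),(79581,[112349]),(79851,[79579]),(99651,
    [99523]),(100187,[165571,100059,112475]),(174043,[173915,178139]),(239083,[239595])]),(66717,
    [(79019,[79003]),(66922,[66730]),(68317,[68253]),(87531,[87722,87402]),(165203,[165202]),
    (173523,[173395]),(173546,[238930,173418,185834])])))
theorem clane_31_137_65_ok : chkLane 31 137 65 clane_31_137_65 = true := by decide +kernel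
def clane_31_137_81 : TD × TU :=
    ((79581,[(79739,[79579]),(108253,[112349]),(108507,[108251,112475]),(178155,[186203,178139])]),
    ((137,[(73,(173419,[])),(81,(87403,[]))]),(0,[(1,(5266,[(33930,[38026])])),(2,(6805,[(35469,
    [39565])])),(8,(8850,[(41105,[41617])])),(9,(9365,[(9386,[9362])])),(10,(10902,[(10909,
    [10901]),(44183,[44182])])),(16,(21162,[(53417,[53929])])),(17,(21675,[(21682,[21674]),(58554,
    [58546])])),(64,(66194,[(69777,[70289])])),(65,(66709,[(66898,[66706])])),(66,(68246,[(72855,
    [72854]),(68309,[68245])])),(72,(73898,[(74066,[73874])])),(74,(76447,[(76503,[76439])])),(80,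
    (86194,[(90810,[90802]),(86378,[86186])])),(128,(164690,[(168273,[168785])])),(129,(165203,
    [(165266,[165202]),(202194,[202130])])),(136,(172394,[(172434,[172370]),(205778,[205714])])),
    (144,(184690,[(189306,[189298]),(184746,[184682]),(218090,[218026])])),(145,(185786,[(218610,
    [218546])]))]),(79581,[(79739,[79579]),(95611,[96123]),(108253,[112349]),(108507,[108251,
    112475]),(178155,[186203,178139]),(239083,[239595])]),(74909,[(79035,[79003]),(74965,[74901]),
    (75130,[95378,74962]),(76509,[80533,76501]),(107987,[108242,107858]),(185723,[185722]),(173546,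
    [185682,173522]),(185835,[186218,185834])])))
theorem clane_31_137_81_ok : chkLane 31 137 81 clane_31_137_81 = true := by decide +kernel
def clane_31_137_74 : TD × TU :=
    ((79583,[(79851,[79579]),(108255,[112351]),(108507,[108251,112603])]),((137,[(73,(173419,[])),
    (74,(76509,[]))]),(0,[(1,(5266,[(33930,[38026])])),(2,(6805,[(35469,[39565])])),(8,(8850,
    [(41105,[41617])])),(9,(9365,[(9386,[9362])])),(10,(10902,[(10909,[10901]),(44183,[44182])])),
    (16,(21162,[(53417,[53929])])),(17,(21675,[(21682,[21674]),(58554,[58546])])),(64,(66194,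
    [(69777,[70289])])),(65,(66709,[(66898,[66706])])),(66,(68246,[(72855,[72854]),(68309,
    [68245])])),(72,(73898,[(74066,[73874])])),(80,(86194,[(90810,[90802]),(86378,[86186])])),(81,
    (87227,[(87418,[87226])])),(128,(164690,[(168273,[168785])])),(129,(165203,[(165266,[165202]),
    (202194,[202130])])),(136,(172394,[(172434,[172370]),(205778,[205714])])),(144,(184690,
    [(189306,[189298]),(184746,[184682]),(218090,[218026])])),(145,(185723,[(185786,[185722]),
    (218610,[218546])]))]),(77535,[(79583,[81631]),(79851,[79579]),(108255,[110303,114395]),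
    (108507,[108251,112603]),(239083,[239595])]),(74911,[(79019,[79003]),(74967,[74903]),(75242,
    [87186,74962]),(87531,[87722,87530]),(107987,[108242,107986])])))
theorem clane_31_137_74_ok : chkLane 31 137 74 clane_31_137_74 = true := by decide +kernel
def clane_31_65_81 : TD × TU :=
    ((79581,[(79739,[79579]),(100061,[112349]),(100187,[100059,112475])]),((65,[(73,(74965,
    [(107859,[107731])])),(81,(87403,[]))]),(0,[(1,(5266,[(33930,[38026])])),(2,(6805,[(35469,
    [39565])])),(8,(8850,[(41105,[41617])])),(9,(9365,[(9386,[9362])])),(10,(10902,[(10909,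
    [10901]),(44183,[44182])])),(16,(21162,[(53417,[53929])])),(17,(21675,[(21682,[21674]),(58554,
    [58546])])),(64,(66194,[(69777,[70289])])),(66,(68246,[(72855,[72854])])),(72,(73898,[(74066,
    [73874])])),(74,(76447,[(76503,[76439])])),(80,(86194,[(90810,[90802]),(86378,[86186])])),(128,
    (164690,[(168273,[168785])])),(129,(165266,[(202194,[202130])])),(136,(172394,[(172434,
    [172370]),(205778,[205714])])),(137,(173523,[(173546,[173522])])),(144,(184690,[(189306,
    [189298]),(184746,[184682]),(218090,[218026])])),(145,(185835,[(185786,[185770]),(218610,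
    [222634,218602])]))]),(66757,[(100061,[100037]),(79581,[112349]),(79739,[79579]),(95611,
    [96123]),(99651,[99523]),(100187,[165571,100059,112475])]),(66717,[(79035,[79003]),(66938,
    [66746]),(68317,[68253]),(165243,[165242])])))
theorem clane_31_65_81_ok : chkLane 31 65 81 clane_31_65_81 = true := by decide +kernel
def clane_31_65_74 : TD × TU :=
    ((79583,[(79723,[79579]),(100061,[112349]),(109279,[109277,113375]),(100187,[100059,112475])]),
    ((65,[(73,(74965,[(107859,[107731])])),(74,(76509,[]))]),(0,[(1,(5266,[(33930,[38026])])),(2,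
    (6805,[(35469,[39565])])),(8,(8850,[(41105,[41617])])),(9,(9365,[(9386,[9362])])),(10,(10902,
    [(10909,[10901]),(44183,[44182])])),(16,(21162,[(53417,[53929])])),(17,(21675,[(21682,[21674]),
    (58554,[58546])])),(64,(66194,[(69777,[70289])])),(66,(68246,[(72855,[72854])])),(72,(73898,
    [(74066,[73874])])),(80,(86194,[(90810,[90802]),(86378,[86186])])),(81,(87227,[(87418,
    [87226])])),(128,(164690,[(168273,[168785])])),(129,(165266,[(202194,[202130])])),(136,(172394,
    [(172434,[172370]),(205778,[205714])])),(144,(184690,[(189306,[189298]),(184746,[184682]),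
    (218090,[218026])])),(145,(185723,[(185786,[185722]),(218610,[218546])])),(137,(173523,
    [(173546,[173522]),(185835,[185834])]))]),(66757,[(100061,[100037]),(79583,[112349]),(77535,
    [81631]),(79723,[79579]),(109279,[109277,113375,114391]),(99651,[99523]),(100187,[165571,
    100059,112475])]),(66717,[(76447,[76445]),(79019,[79003]),(66922,[66730]),(68309,[68245]),
    (76503,[77461,76501]),(87403,[87722,87402]),(165227,[165226,185707])])))
theorem clane_31_65_74_ok : chkLane 31 65 74 clane_31_65_74 = true := by decide +kernel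
def clane_31_81_74 : TD × TU :=
    ((79583,[(79739,[79579]),(108255,[112351]),(108379,[108251,112475])]),((81,[(73,(87403,[])),
    (74,(76509,[]))]),(0,[(1,(5266,[(33930,[38026])])),(2,(6805,[(35469,[39565])])),(8,(8850,
    [(41105,[41617])])),(9,(9365,[(9386,[9362])])),(10,(10902,[(10909,[10901]),(44183,[44182])])),
    (16,(21162,[(53417,[53929])])),(17,(21675,[(21682,[21674]),(58554,[58546])])),(64,(66194,
    [(69777,[70289])])),(65,(66709,[(66898,[66706])])),(66,(68246,[(72855,[72854]),(68309,
    [68245])])),(72,(73898,[(74066,[73874])])),(80,(86194,[(90810,[90802]),(86378,[86186])])),(128,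
    (164690,[(168273,[168785])])),(129,(165203,[(165266,[165202]),(202194,[202130])])),(136,
    (172394,[(172434,[172370]),(205778,[205714])])),(137,(173523,[(173546,[173522])])),(144,
    (184690,[(189306,[189298]),(184746,[184682]),(218090,[218026])])),(145,(185835,[(185786,
    [185770]),(218610,[222634,218602])]))]),(77535,[(79583,[81631]),(79739,[79579]),(95611,
    [96123]),(108255,[110303,114395]),(108379,[108251,112475])]),(74911,[(79035,[79003]),(74967,
    [74903]),(75130,[95378,74962]),(107859,[108242,107858]),(173435,[173906,173434])])))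
theorem clane_31_81_74_ok : chkLane 31 81 74 clane_31_81_74 = true := by decide +kernel
def clane_51_9_137 : TD × TU :=
    ((13789,[]),((9,[(73,(74909,[])),(137,(173405,[]))]),(0,[(1,(5266,[(33930,[38026])])),(2,(6805,
    [(35469,[39565])])),(8,(8850,[(41105,[41617])])),(10,(10902,[(44183,[44182])])),(64,(66194,
    [(69777,[70289])])),(65,(66709,[(66898,[66706])])),(66,(68246,[(72855,[72854]),(68437,
    [68245])])),(72,(73882,[(74066,[73874])])),(74,(76447,[(76631,[76439])])),(128,(164690,
    [(168273,[168785])])),(129,(165205,[(165266,[165202]),(202194,[202130])])),(130,(166742,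
    [(171351,[171350]),(166805,[166741]),(203733,[203669])])),(136,(172378,[(172434,[172370]),
    (205778,[205714])])),(138,(174943,[(174999,[174935]),(207830,[207766])]))]),(9245,[(13789,
    [13341]),(239069,[243165])]),(9685,[(9690,[9682]),(11229,[11221])])))
theorem clane_51_9_137_ok : chkLane 51 9 137 clane_51_9_137 = true := by decide +kernel
def clane_51_9_72 : TD × TU :=
    ((13661,[(78170,[79194])]),((9,[(73,(74909,[])),(72,(75098,[]))]),(0,[(1,(5266,[(33930,
    [38026])])),(2,(6805,[(35469,[39565])])),(8,(8850,[(41105,[41617])])),(10,(10902,[(44183,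
    [44182])])),(64,(66194,[(69777,[70289])])),(65,(66709,[(66898,[66706])])),(66,(68246,[(72855,
    [72854]),(68437,[68245])])),(74,(76447,[(76631,[76439])])),(128,(164690,[(168273,[168785])])),
    (129,(165205,[(165266,[165202]),(202194,[202130])])),(130,(166742,[(171351,[171350]),(166805,
    [166741]),(203733,[203669])])),(136,(172434,[(205778,[205714])])),(138,(174943,[(174999,
    [174935]),(207830,[207766])])),(137,(173525,[(173530,[173522]),(175069,[175061])]))]),(9245,
    [(13661,[13341]),(78170,[79194]),(74072,[78168])]),(9557,[(9370,[9362]),(11101,[11093]),(73882,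
    [74906]),(74066,[73874,75090]),(172381,[172373,174941])])))
theorem clane_51_9_72_ok : chkLane 51 9 72 clane_51_9_72 = true := by decide +kernel
def clane_51_9_74 : TD × TU :=
    ((13661,[(80735,[80733])]),((9,[(73,(74909,[])),(74,(76637,[]))]),(0,[(1,(5266,[(33930,
    [38026])])),(2,(6805,[(35469,[39565])])),(8,(8850,[(41105,[41617])])),(10,(10902,[(44183,
    [44182])])),(64,(66194,[(69777,[70289])])),(65,(66709,[(66898,[66706])])),(66,(68246,[(72855,
    [72854]),(68437,[68245])])),(72,(73882,[(74066,[73874])])),(128,(164690,[(168273,[168785])])),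
    (129,(165205,[(165266,[165202]),(202194,[202130])])),(130,(166742,[(171351,[171350]),(166805,
    [166741]),(203733,[203669])])),(136,(172378,[(172434,[172370]),(205778,[205714])])),(137,
    (173525,[(173530,[173522])])),(138,(174999,[(175069,[174997]),(207830,[208277,207829])]))]),
    (9245,[(13661,[13341]),(80735,[80733]),(77663,[81759])]),(9557,[(9562,[9554]),(10909,[10901]),
    (76447,[76445]),(76631,[77461,76629]),(173407,[175954,173402])])))
theorem clane_51_9_74_ok : chkLane 51 9 74 clane_51_9_74 = true := by decide +kernel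
def clane_51_137_72 : TD × TU :=
    ((78173,[(177629,[177501])]),((137,[(73,(173405,[])),(72,(75098,[]))]),(0,[(1,(5266,[(33930,
    [38026])])),(2,(6805,[(35469,[39565])])),(8,(8850,[(41105,[41617])])),(9,(9365,[(9370,
    [9362])])),(10,(10902,[(10909,[10901]),(44183,[44182])])),(64,(66194,[(69777,[70289])])),(65,
    (66709,[(66898,[66706])])),(66,(68246,[(72855,[72854]),(68437,[68245])])),(74,(76447,[(76631,
    [76439])])),(128,(164690,[(168273,[168785])])),(129,(165205,[(165266,[165202]),(202194,
    [202130])])),(130,(166742,[(171351,[171350]),(166805,[166741]),(203733,[203669])])),(136,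
    (172434,[(205778,[205714])])),(138,(174943,[(174999,[174935]),(207830,[207766])]))]),(74072,
    [(78173,[78168]),(177629,[177501]),(239069,[243165])]),(73885,[(74069,[73877]),(76765,[80533,
    76629]),(172378,[172370]),(173525,[173397,175061]),(173530,[177490,173522])])))
theorem clane_51_137_72_ok : chkLane 51 137 72 clane_51_137_72 = true := by decide +kernel
def clane_51_137_74 : TD × TU :=
    ((79199,[(177629,[177501])]),((137,[(73,(173405,[])),(74,(76637,[]))]),(0,[(1,(5266,[(33930,
    [38026])])),(2,(6805,[(35469,[39565])])),(8,(8850,[(41105,[41617])])),(9,(9365,[(9370,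
    [9362])])),(10,(10902,[(10909,[10901]),(44183,[44182])])),(64,(66194,[(69777,[70289])])),(65,
    (66709,[(66898,[66706])])),(66,(68246,[(72855,[72854]),(68437,[68245])])),(72,(73882,[(74066,
    [73874])])),(128,(164690,[(168273,[168785])])),(129,(165205,[(165266,[165202]),(202194,
    [202130])])),(130,(166742,[(171351,[171350]),(166805,[166741]),(203733,[203669])])),(136,
    (172378,[(172434,[172370]),(205778,[205714])])),(138,(174999,[(207830,[207766])]))]),(77663,
    [(79199,[81759]),(177629,[177501]),(239069,[243165])]),(74911,[(75095,[74903]),(75226,[78994,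
    75090]),(174943,[174935]),(173525,[174930,173522]),(175069,[179029,175061])])))
theorem clane_51_137_74_ok : chkLane 51 137 74 clane_51_137_74 = true := by decide +kernel
def clane_51_72_74 : TD × TU :=
    ((78175,[]),((72,[(73,(75098,[])),(74,(76637,[]))]),(0,[(1,(5266,[(33930,[38026])])),(2,(6805,
    [(35469,[39565])])),(8,(8850,[(41105,[41617])])),(9,(9365,[(9370,[9362])])),(10,(10902,[(10909,
    [10901]),(44183,[44182])])),(64,(66194,[(69777,[70289])])),(65,(66709,[(66898,[66706])])),(66,
    (68246,[(72855,[72854]),(68437,[68245])])),(128,(164690,[(168273,[168785])])),(129,(165205,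
    [(165266,[165202]),(202194,[202130])])),(130,(166742,[(171351,[171350]),(166805,[166741]),
    (203733,[203669])])),(136,(172434,[(205778,[205714])])),(137,(173525,[(173530,[173522])])),
    (138,(174999,[(175069,[174997]),(207830,[208277,207829])]))]),(74072,[(78175,[78168]),(77663,
    [81759])]),(73887,[(74071,[73879]),(172383,[172375])])))
theorem clane_51_72_74_ok : chkLane 51 72 74 clane_51_72_74 = true := by decide +kernel
def clane_55_9_137 : TD × TU :=
    ((14301,[(14059,[14043]),(111851,[112363]),(112091,[111835,112603])]),((9,[(73,(74909,[(79019,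
    [79003])])),(137,(173405,[]))]),(0,[(1,(5266,[(33930,[38026])])),(2,(6805,[(35469,[39565])])),
    (8,(8850,[(41105,[41617])])),(10,(10902,[(44183,[44182])])),(16,(21162,[(53417,[53929])])),(17,
    (21682,[(58554,[58546])])),(64,(66194,[(69777,[70289])])),(65,(66709,[(66898,[66706])])),(66,
    (68246,[(72855,[72854]),(68437,[68245])])),(72,(73898,[(74066,[73874])])),(74,(76447,[(76631,
    [76439])])),(80,(86194,[(90810,[90802]),(86250,[86186])])),(81,(87227,[(87290,[87226])])),(128,
    (164690,[(168273,[168785])])),(129,(165205,[(165266,[165202]),(202194,[202130])])),(130,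
    (166742,[(171351,[171350]),(166805,[166741]),(203733,[203669])])),(136,(172378,[(172434,
    [172370]),(205778,[205714])])),(138,(174943,[(174999,[174935]),(207830,[207766])]))]),(9245,
    [(13355,[13339]),(14301,[13853]),(14059,[22043,14043]),(111851,[112363]),(112091,[111835,
    112603]),(239069,[243165])]),(9685,[(9450,[9426]),(11229,[11221]),(21739,[21738]),(107994,
    [111826,107986])])))
theorem clane_55_9_137_ok : chkLane 55 9 137 clane_55_9_137 = true := by decide +kernel
def clane_55_9_81 : TD × TU :=
    ((14173,[(14059,[14043]),(87803,[87787]),(111867,[112379]),(111963,[111835,112475])]),((9,[(73,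
    (74909,[(79019,[79003])])),(81,(87275,[]))]),(0,[(1,(5266,[(33930,[38026])])),(2,(6805,[(35469,
    [39565])])),(8,(8850,[(41105,[41617])])),(10,(10902,[(44183,[44182])])),(16,(21162,[(53417,
    [53929])])),(17,(21682,[(58554,[58546])])),(64,(66194,[(69777,[70289])])),(65,(66709,[(66898,
    [66706])])),(66,(68246,[(72855,[72854]),(68437,[68245])])),(72,(73898,[(74066,[73874])])),(74,
    (76447,[(76631,[76439])])),(80,(86194,[(90810,[90802]),(86250,[86186])])),(128,(164690,
    [(168273,[168785])])),(129,(165205,[(165266,[165202]),(202194,[202130])])),(130,(166742,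
    [(171351,[171350]),(166805,[166741]),(203733,[203669])])),(136,(172378,[(172434,[172370]),
    (205778,[205714])])),(138,(174943,[(174999,[174935]),(207830,[207766])])),(137,(173525,
    [(173530,[173522]),(175069,[175061])]))]),(9245,[(13355,[13339]),(14173,[13853]),(14059,[22043,
    14043]),(87803,[87787]),(95483,[95995]),(111867,[112379,128762]),(111963,[111835,112475])]),
    (9557,[(9450,[9426]),(11101,[11093]),(21675,[21674]),(87227,[87211]),(87290,[95402,87274]),
    (107866,[111826,107858]),(173405,[177490,173397,174941])])))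
theorem clane_55_9_81_ok : chkLane 55 9 81 clane_55_9_81 = true := by decide +kernel
def clane_55_9_72 : TD × TU :=
    ((14173,[(14059,[14043]),(110827,[112363]),(110939,[110811,112475])]),((9,[(73,(74909,[(79019,
    [79003])])),(72,(74986,[(107866,[107738])]))]),(0,[(1,(5266,[(33930,[38026])])),(2,(6805,
    [(35469,[39565])])),(8,(8850,[(41105,[41617])])),(10,(10902,[(44183,[44182])])),(16,(21162,
    [(53417,[53929])])),(17,(21682,[(58554,[58546])])),(64,(66194,[(69777,[70289])])),(65,(66709,
    [(66898,[66706])])),(66,(68246,[(72855,[72854]),(68437,[68245])])),(74,(76447,[(76631,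
    [76439])])),(80,(86194,[(90810,[90802])])),(81,(87227,[(87290,[87226])])),(128,(164690,
    [(168273,[168785])])),(129,(165205,[(165266,[165202]),(202194,[202130])])),(130,(166742,
    [(171351,[171350]),(166805,[166741]),(203733,[203669])])),(136,(172434,[(205778,[205714])])),
    (138,(174943,[(174999,[174935]),(207830,[207766])])),(137,(173525,[(173530,[173522]),(175069,
    [175061])]))]),(9245,[(13355,[13339]),(14173,[13853]),(14059,[22043,14043]),(110827,[112363]),
    (73960,[110824]),(106840,[106712]),(110939,[176344,110811,112475])]),(9557,[(9386,[9362]),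
    (11101,[11093]),(21739,[21674]),(73898,[74922]),(74066,[73874,75090]),(86250,[86186,87274]),
    (172381,[172373,174941])])))
theorem clane_55_9_72_ok : chkLane 55 9 72 clane_55_9_72 = true := by decide +kernel
def clane_55_9_74 : TD × TU :=
    ((14173,[(14059,[14043]),(80735,[80733]),(111851,[112363]),(111963,[111835,112475])]),((9,[(73,
    (74909,[(79019,[79003])])),(74,(76637,[]))]),(0,[(1,(5266,[(33930,[38026])])),(2,(6805,[(35469,
    [39565])])),(8,(8850,[(41105,[41617])])),(10,(10902,[(44183,[44182])])),(16,(21162,[(53417,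
    [53929])])),(17,(21682,[(58554,[58546])])),(64,(66194,[(69777,[70289])])),(65,(66709,[(66898,
    [66706])])),(66,(68246,[(72855,[72854]),(68437,[68245])])),(72,(73898,[(74066,[73874])])),(80,
    (86194,[(90810,[90802]),(86250,[86186])])),(81,(87227,[(87290,[87226])])),(128,(164690,
    [(168273,[168785])])),(129,(165205,[(165266,[165202]),(202194,[202130])])),(130,(166742,
    [(171351,[171350]),(166805,[166741]),(203733,[203669])])),(136,(172378,[(172434,[172370]),
    (205778,[205714])])),(137,(173525,[(173530,[173522])])),(138,(174999,[(175069,[174997]),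
    (207830,[208277,207829])]))]),(9245,[(13355,[13339]),(14173,[13853]),(14059,[22043,14043]),
    (80735,[80733]),(77663,[81759]),(111851,[112363]),(111963,[111835,112475])]),(9557,[(9450,
    [9426]),(10909,[10901]),(21739,[21738]),(76447,[76445]),(76631,[77461,76629]),(107866,[111826,
    107858]),(173407,[175954,173402])])))
theorem clane_55_9_74_ok : chkLane 55 9 74 clane_55_9_74 = true := by decide +kernel
def clane_55_137_81 : TD × TU :=
    ((79837,[(79611,[79579]),(111867,[112379]),(112091,[111835,112603])]),((137,[(73,(173405,[])),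
    (81,(87275,[]))]),(0,[(1,(5266,[(33930,[38026])])),(2,(6805,[(35469,[39565])])),(8,(8850,
    [(41105,[41617])])),(9,(9365,[(9386,[9362])])),(10,(10902,[(10909,[10901]),(44183,[44182])])),
    (16,(21162,[(53417,[53929])])),(17,(21675,[(21682,[21674]),(58554,[58546])])),(64,(66194,
    [(69777,[70289])])),(65,(66709,[(66898,[66706])])),(66,(68246,[(72855,[72854]),(68437,
    [68245])])),(72,(73898,[(74066,[73874])])),(74,(76447,[(76631,[76439])])),(80,(86194,[(90810,
    [90802]),(86250,[86186])])),(128,(164690,[(168273,[168785])])),(129,(165205,[(165266,[165202]),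
    (202194,[202130])])),(130,(166742,[(171351,[171350]),(166805,[166741]),(203733,[203669])])),
    (136,(172378,[(172434,[172370]),(205778,[205714])])),(138,(174943,[(174999,[174935]),(207830,
    [207766])]))]),(79837,[(79611,[79579]),(95483,[95995]),(111867,[112379,128762]),(112091,
    [111835,112603]),(239069,[243165])]),(74909,[(79035,[79003]),(75221,[74901]),(75002,[95378,
    74962]),(76765,[80533,76757]),(107994,[111826,107986])])))
theorem clane_55_137_81_ok : chkLane 55 137 81 clane_55_137_81 = true := by decide +kernel
def clane_55_137_72 : TD × TU :=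
    ((79837,[(79595,[79579]),(110827,[112363]),(110939,[110811,112475]),(177627,[177499,178139])]),
    ((137,[(73,(173405,[])),(72,(74986,[(107866,[107738])]))]),(0,[(1,(5266,[(33930,[38026])])),(2,
    (6805,[(35469,[39565])])),(8,(8850,[(41105,[41617])])),(9,(9365,[(9386,[9362])])),(10,(10902,
    [(10909,[10901]),(44183,[44182])])),(16,(21162,[(53417,[53929])])),(17,(21675,[(21682,[21674]),
    (58554,[58546])])),(64,(66194,[(69777,[70289])])),(65,(66709,[(66898,[66706])])),(66,(68246,
    [(72855,[72854]),(68437,[68245])])),(74,(76447,[(76631,[76439])])),(80,(86194,[(90810,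
    [90802])])),(81,(87227,[(87290,[87226])])),(128,(164690,[(168273,[168785])])),(129,(165205,
    [(165266,[165202]),(202194,[202130])])),(130,(166742,[(171351,[171350]),(166805,[166741]),
    (203733,[203669])])),(136,(172434,[(205778,[205714])])),(138,(174943,[(174999,[174935]),
    (207830,[207766])]))]),(73960,[(110827,[110824]),(79595,[112363]),(79837,[79579]),(106840,
    [106712]),(110939,[176344,110811,112475]),(177627,[177499,178139]),(239069,[243165])]),(73885,
    [(77995,[77979]),(74069,[73877]),(76765,[80533,76629]),(86251,[86187]),(172378,[172370]),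
    (173525,[173397,175061]),(173530,[177490,173522])])))
theorem clane_55_137_72_ok : chkLane 55 137 72 clane_55_137_72 = true := by decide +kernel
def clane_55_137_74 : TD × TU :=
    ((79711,[(79595,[79579]),(111851,[112363]),(112091,[111835,112475]),(178141,[179035,178139])]),
    ((137,[(73,(173405,[])),(74,(76637,[]))]),(0,[(1,(5266,[(33930,[38026])])),(2,(6805,[(35469,
    [39565])])),(8,(8850,[(41105,[41617])])),(9,(9365,[(9386,[9362])])),(10,(10902,[(10909,
    [10901]),(44183,[44182])])),(16,(21162,[(53417,[53929])])),(17,(21675,[(21682,[21674]),(58554,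
    [58546])])),(64,(66194,[(69777,[70289])])),(65,(66709,[(66898,[66706])])),(66,(68246,[(72855,
    [72854]),(68437,[68245])])),(72,(73898,[(74066,[73874])])),(80,(86194,[(90810,[90802]),(86250,
    [86186])])),(81,(87227,[(87290,[87226])])),(128,(164690,[(168273,[168785])])),(129,(165205,
    [(165266,[165202]),(202194,[202130])])),(130,(166742,[(171351,[171350]),(166805,[166741]),
    (203733,[203669])])),(136,(172378,[(172434,[172370]),(205778,[205714])])),(138,(174999,
    [(207830,[207766])]))]),(77663,[(79711,[81759]),(79595,[79579]),(111851,[112363]),(112091,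
    [111835,112475]),(178141,[179035,178139]),(239069,[243165])]),(74911,[(79019,[79003]),(75095,
    [74903]),(74986,[87186,74962]),(87275,[87722,87274]),(107994,[111826,107858]),(174943,
    [174935]),(173525,[174930,173522]),(175069,[179029,175061])])))
theorem clane_55_137_74_ok : chkLane 55 137 74 clane_55_137_74 = true := by decide +kernel
def clane_55_81_72 : TD × TU :=
    ((79709,[(79611,[79579]),(110827,[112363]),(120059,[120043,120571]),(110939,[110811,112475])]),
    ((81,[(73,(87275,[])),(72,(74986,[(107866,[107738])]))]),(0,[(1,(5266,[(33930,[38026])])),(2,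
    (6805,[(35469,[39565])])),(8,(8850,[(41105,[41617])])),(9,(9365,[(9386,[9362])])),(10,(10902,
    [(10909,[10901]),(44183,[44182])])),(16,(21162,[(53417,[53929])])),(17,(21675,[(21682,[21674]),
    (58554,[58546])])),(64,(66194,[(69777,[70289])])),(65,(66709,[(66898,[66706])])),(66,(68246,
    [(72855,[72854]),(68437,[68245])])),(74,(76447,[(76631,[76439])])),(80,(86194,[(90810,
    [90802])])),(128,(164690,[(168273,[168785])])),(129,(165205,[(165266,[165202]),(202194,
    [202130])])),(130,(166742,[(171351,[171350]),(166805,[166741]),(203733,[203669])])),(136,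
    (172434,[(205778,[205714])])),(138,(174943,[(174999,[174935]),(207830,[207766])])),(137,
    (173525,[(173530,[173522]),(175069,[175061])]))]),(73960,[(110827,[110824]),(79611,[112363]),
    (79709,[79579]),(95483,[95995]),(120059,[120043,120571,128762]),(106840,[106712]),(110939,
    [176344,110811,112475])]),(73885,[(77995,[77979]),(87227,[87211]),(74069,[73877]),(76637,
    [80533,76629]),(86250,[86186]),(87290,[95402,87274]),(172381,[172373,174941])])))
theorem clane_55_81_72_ok : chkLane 55 81 72 clane_55_81_72 = true := by decide +kernel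
def clane_55_81_74 : TD × TU :=
    ((79711,[(79611,[79579]),(111867,[112379]),(111963,[111835,112475])]),((81,[(73,(87275,[])),
    (74,(76637,[]))]),(0,[(1,(5266,[(33930,[38026])])),(2,(6805,[(35469,[39565])])),(8,(8850,
    [(41105,[41617])])),(9,(9365,[(9386,[9362])])),(10,(10902,[(10909,[10901]),(44183,[44182])])),
    (16,(21162,[(53417,[53929])])),(17,(21675,[(21682,[21674]),(58554,[58546])])),(64,(66194,
    [(69777,[70289])])),(65,(66709,[(66898,[66706])])),(66,(68246,[(72855,[72854]),(68437,
    [68245])])),(72,(73898,[(74066,[73874])])),(80,(86194,[(90810,[90802]),(86250,[86186])])),(128,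
    (164690,[(168273,[168785])])),(129,(165205,[(165266,[165202]),(202194,[202130])])),(130,
    (166742,[(171351,[171350]),(166805,[166741]),(203733,[203669])])),(136,(172378,[(172434,
    [172370]),(205778,[205714])])),(137,(173525,[(173530,[173522])])),(138,(174999,[(175069,
    [174997]),(207830,[208277,207829])]))]),(77663,[(79711,[81759]),(79611,[79579]),(95483,
    [95995]),(111867,[112379,128762]),(111963,[111835,112475])]),(74911,[(79035,[79003]),(75095,
    [74903]),(75002,[95378,74962]),(107866,[111826,107858]),(173407,[175954,173402])])))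
theorem clane_55_81_74_ok : chkLane 55 81 74 clane_55_81_74 = true := by decide +kernel
def clane_55_72_74 : TD × TU :=
    ((79711,[(79595,[79579]),(110827,[112363]),(110939,[110811,112475])]),((72,[(73,(74986,
    [(107866,[107738])])),(74,(76637,[]))]),(0,[(1,(5266,[(33930,[38026])])),(2,(6805,[(35469,
    [39565])])),(8,(8850,[(41105,[41617])])),(9,(9365,[(9386,[9362])])),(10,(10902,[(10909,
    [10901]),(44183,[44182])])),(16,(21162,[(53417,[53929])])),(17,(21675,[(21682,[21674]),(58554,
    [58546])])),(64,(66194,[(69777,[70289])])),(65,(66709,[(66898,[66706])])),(66,(68246,[(72855,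
    [72854]),(68437,[68245])])),(80,(86194,[(90810,[90802])])),(81,(87227,[(87290,[87226])])),(128,
    (164690,[(168273,[168785])])),(129,(165205,[(165266,[165202]),(202194,[202130])])),(130,
    (166742,[(171351,[171350]),(166805,[166741]),(203733,[203669])])),(136,(172434,[(205778,
    [205714])])),(137,(173525,[(173530,[173522])])),(138,(174999,[(175069,[174997]),(207830,
    [208277,207829])]))]),(73960,[(110827,[110824]),(79595,[112363]),(79711,[79579]),(77663,
    [81759]),(106840,[106712]),(110939,[176344,110811,112475])]),(73887,[(77995,[77979]),(74071,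
    [73879]),(86251,[86187]),(172383,[172375])])))
theorem clane_55_72_74_ok : chkLane 55 72 74 clane_55_72_74 = true := by decide +kernel
def clane_63_9_137 : TD × TU :=
    ((14301,[(14315,[14299])]),((9,[(73,(74909,[(79019,[79003])])),(137,(173405,[(177515,
    [177499])]))]),(0,[(1,(5266,[(33930,[38026])])),(2,(6805,[(35469,[39565])])),(8,(8850,[(41105,
    [41617])])),(10,(10902,[(44183,[44182])])),(16,(21162,[(53417,[53929])])),(17,(21682,[(58554,
    [58546])])),(64,(66194,[(69777,[70289])])),(65,(66709,[(66898,[66706])])),(66,(68246,[(72855,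
    [72854]),(68437,[68245])])),(72,(73898,[(74066,[73874])])),(74,(76447,[(76631,[76439])])),(80,
    (86194,[(90810,[90802]),(86378,[86186])])),(81,(87227,[(87418,[87226])])),(128,(164690,
    [(168273,[168785])])),(129,(165205,[(165266,[165202]),(202194,[202130])])),(130,(166742,
    [(171351,[171350]),(166805,[166741]),(203733,[203669])])),(136,(172394,[(172434,[172370]),
    (205778,[205714])])),(138,(174943,[(174999,[174935]),(207830,[207766])])),(144,(184690,
    [(189306,[189298]),(184746,[184682]),(218090,[218026])])),(145,(185723,[(185786,[185722]),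
    (218610,[218546])]))]),(9245,[(13355,[13339]),(14301,[13853]),(14315,[22043,14299]),(239069,
    [243677]),(243179,[243163,243691])]),(9685,[(9706,[9682]),(11229,[11221]),(21995,[21994])])))
theorem clane_63_9_137_ok : chkLane 63 9 137 clane_63_9_137 = true := by decide +kernel
def clane_63_9_81 : TD × TU :=
    ((14173,[(14187,[14171]),(87931,[87915])]),((9,[(73,(74909,[(79019,[79003])])),(81,(87403,
    []))]),(0,[(1,(5266,[(33930,[38026])])),(2,(6805,[(35469,[39565])])),(8,(8850,[(41105,
    [41617])])),(10,(10902,[(44183,[44182])])),(16,(21162,[(53417,[53929])])),(17,(21682,[(58554,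
    [58546])])),(64,(66194,[(69777,[70289])])),(65,(66709,[(66898,[66706])])),(66,(68246,[(72855,
    [72854]),(68437,[68245])])),(72,(73898,[(74066,[73874])])),(74,(76447,[(76631,[76439])])),(80,
    (86194,[(90810,[90802]),(86378,[86186])])),(128,(164690,[(168273,[168785])])),(129,(165205,
    [(165266,[165202]),(202194,[202130])])),(130,(166742,[(171351,[171350]),(166805,[166741]),
    (203733,[203669])])),(136,(172394,[(172434,[172370]),(205778,[205714])])),(138,(174943,
    [(174999,[174935]),(207830,[207766])])),(137,(173525,[(173546,[173522]),(175069,[175061])])),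
    (144,(184690,[(189306,[189298]),(184746,[184682]),(218090,[218026])])),(145,(185835,[(185786,
    [185770]),(218610,[222634,218602])]))]),(9245,[(13355,[13339]),(14173,[13853]),(14187,[22043,
    14171]),(87931,[87915]),(95611,[96123])]),(9557,[(9578,[9554]),(11101,[11093]),(21675,[21674]),
    (87227,[87211]),(87418,[95402,87402]),(173405,[177490,173397,174941]),(177531,[178010,
    177530])])))
theorem clane_63_9_81_ok : chkLane 63 9 81 clane_63_9_81 = true := by decide +kernel
def clane_63_9_74 : TD × TU :=
    ((14173,[(14187,[14171]),(80735,[80733])]),((9,[(73,(74909,[(79019,[79003])])),(74,(76637,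
    []))]),(0,[(1,(5266,[(33930,[38026])])),(2,(6805,[(35469,[39565])])),(8,(8850,[(41105,
    [41617])])),(10,(10902,[(44183,[44182])])),(16,(21162,[(53417,[53929])])),(17,(21682,[(58554,
    [58546])])),(64,(66194,[(69777,[70289])])),(65,(66709,[(66898,[66706])])),(66,(68246,[(72855,
    [72854]),(68437,[68245])])),(72,(73898,[(74066,[73874])])),(80,(86194,[(90810,[90802]),(86378,
    [86186])])),(81,(87227,[(87418,[87226])])),(128,(164690,[(168273,[168785])])),(129,(165205,
    [(165266,[165202]),(202194,[202130])])),(130,(166742,[(171351,[171350]),(166805,[166741]),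
    (203733,[203669])])),(136,(172394,[(172434,[172370]),(205778,[205714])])),(138,(174999,
    [(207830,[207766])])),(144,(184690,[(189306,[189298]),(184746,[184682]),(218090,[218026])])),
    (145,(185723,[(185786,[185722]),(218610,[218546])])),(137,(173525,[(173546,[173522]),(175069,
    [175061]),(185835,[185834])]))]),(9245,[(13355,[13339]),(14173,[13853]),(14187,[22043,14171]),
    (80735,[80733]),(77663,[81759])]),(9557,[(9578,[9554]),(10909,[10901]),(21867,[21866]),(76447,
    [76445]),(76631,[77461,76629]),(173407,[175954,173402]),(177515,[178010,177514,185707])])))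
theorem clane_63_9_74_ok : chkLane 63 9 74 clane_63_9_74 = true := by decide +kernel
def clane_63_137_81 : TD × TU :=
    ((79837,[(79739,[79707]),(178155,[186203,178139])]),((137,[(73,(173405,[(177515,[177499])])),
    (81,(87403,[]))]),(0,[(1,(5266,[(33930,[38026])])),(2,(6805,[(35469,[39565])])),(8,(8850,
    [(41105,[41617])])),(9,(9365,[(9386,[9362])])),(10,(10902,[(10909,[10901]),(44183,[44182])])),
    (16,(21162,[(53417,[53929])])),(17,(21675,[(21682,[21674]),(58554,[58546])])),(64,(66194,
    [(69777,[70289])])),(65,(66709,[(66898,[66706])])),(66,(68246,[(72855,[72854]),(68437,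
    [68245])])),(72,(73898,[(74066,[73874])])),(74,(76447,[(76631,[76439])])),(80,(86194,[(90810,
    [90802]),(86378,[86186])])),(128,(164690,[(168273,[168785])])),(129,(165205,[(165266,[165202]),
    (202194,[202130])])),(130,(166742,[(171351,[171350]),(166805,[166741]),(203733,[203669])])),
    (136,(172394,[(172434,[172370]),(205778,[205714])])),(138,(174943,[(174999,[174935]),(207830,
    [207766])])),(144,(184690,[(189306,[189298]),(184746,[184682]),(218090,[218026])])),(145,
    (185786,[(218610,[218546])]))]),(79837,[(79739,[79707]),(95611,[96123]),(178155,[186203,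
    178139]),(239069,[243677]),(243179,[243163,243691])]),(74909,[(79035,[79003]),(75221,[74901]),
    (75130,[95378,75090]),(76765,[80533,76757]),(185723,[185722]),(173546,[185682,173522]),(185835,
    [186218,185834])])))
theorem clane_63_137_81_ok : chkLane 63 137 81 clane_63_137_81 = true := by decide +kernel
def clane_63_137_74 : TD × TU :=
    ((79711,[(79851,[79707]),(178141,[179035,178139])]),((137,[(73,(173405,[(177515,[177499])])),
    (74,(76637,[]))]),(0,[(1,(5266,[(33930,[38026])])),(2,(6805,[(35469,[39565])])),(8,(8850,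
    [(41105,[41617])])),(9,(9365,[(9386,[9362])])),(10,(10902,[(10909,[10901]),(44183,[44182])])),
    (16,(21162,[(53417,[53929])])),(17,(21675,[(21682,[21674]),(58554,[58546])])),(64,(66194,
    [(69777,[70289])])),(65,(66709,[(66898,[66706])])),(66,(68246,[(72855,[72854]),(68437,
    [68245])])),(72,(73898,[(74066,[73874])])),(80,(86194,[(90810,[90802]),(86378,[86186])])),(81,
    (87227,[(87418,[87226])])),(128,(164690,[(168273,[168785])])),(129,(165205,[(165266,[165202]),
    (202194,[202130])])),(130,(166742,[(171351,[171350]),(166805,[166741]),(203733,[203669])])),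
    (136,(172394,[(172434,[172370]),(205778,[205714])])),(138,(174999,[(207830,[207766])])),(144,
    (184690,[(189306,[189298]),(184746,[184682]),(218090,[218026])])),(145,(185723,[(185786,
    [185722]),(218610,[218546])]))]),(77663,[(79711,[81759]),(79851,[79707]),(178141,[179035,
    178139]),(239069,[243677]),(243179,[243163,243691])]),(74911,[(79019,[79003]),(75095,[74903]),
    (75242,[87186,75090]),(87531,[87722,87530]),(174943,[174935]),(173525,[174930,173522]),(175069,
    [179029,175061])])))
theorem clane_63_137_74_ok : chkLane 63 137 74 clane_63_137_74 = true := by decide +kernel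
def clane_63_81_74 : TD × TU :=
    ((79711,[(79739,[79707])]),((81,[(73,(87403,[])),(74,(76637,[]))]),(0,[(1,(5266,[(33930,
    [38026])])),(2,(6805,[(35469,[39565])])),(8,(8850,[(41105,[41617])])),(9,(9365,[(9386,
    [9362])])),(10,(10902,[(10909,[10901]),(44183,[44182])])),(16,(21162,[(53417,[53929])])),(17,
    (21675,[(21682,[21674]),(58554,[58546])])),(64,(66194,[(69777,[70289])])),(65,(66709,[(66898,
    [66706])])),(66,(68246,[(72855,[72854]),(68437,[68245])])),(72,(73898,[(74066,[73874])])),(80,
    (86194,[(90810,[90802]),(86378,[86186])])),(128,(164690,[(168273,[168785])])),(129,(165205,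
    [(165266,[165202]),(202194,[202130])])),(130,(166742,[(171351,[171350]),(166805,[166741]),
    (203733,[203669])])),(136,(172394,[(172434,[172370]),(205778,[205714])])),(137,(173525,
    [(173546,[173522])])),(138,(174999,[(175069,[174997]),(207830,[208277,207829])])),(144,(184690,
    [(189306,[189298]),(184746,[184682]),(218090,[218026])])),(145,(185835,[(185786,[185770]),
    (218610,[222634,218602])]))]),(77663,[(79711,[81759]),(79739,[79707]),(95611,[96123])]),(74911,
    [(79035,[79003]),(75095,[74903]),(75130,[95378,75090]),(173407,[175954,173402]),(177531,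
    [178010,177530])])))
theorem clane_63_81_74_ok : chkLane 63 81 74 clane_63_81_74 = true := by decide +kernel
theorem cert_pair_31 : ∀ c ∈ dirs, ∀ d ∈ dirs, c ≠ d → port 31 c = true → port 31 d = true → PairOk 31 c d ∨ PairOk 31 d c := by
  intro c hc d hd
  simp only [dirs, List.mem_cons, List.not_mem_nil, or_false] at hc hd
  rcases hc with rfl | rfl | rfl | rfl | rfl | rfl <;> rcases hd with rfl | rfl | rfl | rfl | rfl | rfl
  · exact fun h => absurd rfl h
  · exact fun _ _ _ => Or.inl ⟨⟨_, ctri_31_9_137_ok⟩, _, clane_31_9_137_ok⟩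
  · exact fun _ _ _ => Or.inl ⟨⟨_, ctri_31_9_65_ok⟩, _, clane_31_9_65_ok⟩
  · exact fun _ _ _ => Or.inl ⟨⟨_, ctri_31_9_81_ok⟩, _, clane_31_9_81_ok⟩
  · exact fun _ _ h => absurd h (by decide +kernel)
  · exact fun _ _ _ => Or.inl ⟨⟨_, ctri_31_9_74_ok⟩, _, clane_31_9_74_ok⟩
  · exact fun _ _ _ => Or.inr ⟨⟨_, ctri_31_9_137_ok⟩, _, clane_31_9_137_ok⟩
  · exact fun h => absurd rfl h
  · exact fun _ _ _ => Or.inl ⟨⟨_, ctri_31_137_65_ok⟩, _, clane_31_137_65_ok⟩
  · exact fun _ _ _ => Or.inl ⟨⟨_, ctri_31_137_81_ok⟩, _, clane_31_137_81_ok⟩
  · exact fun _ _ h => absurd h (by decide +kernel)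
  · exact fun _ _ _ => Or.inl ⟨⟨_, ctri_31_137_74_ok⟩, _, clane_31_137_74_ok⟩
  · exact fun _ _ _ => Or.inr ⟨⟨_, ctri_31_9_65_ok⟩, _, clane_31_9_65_ok⟩
  · exact fun _ _ _ => Or.inr ⟨⟨_, ctri_31_137_65_ok⟩, _, clane_31_137_65_ok⟩
  · exact fun h => absurd rfl h
  · exact fun _ _ _ => Or.inl ⟨⟨_, ctri_31_65_81_ok⟩, _, clane_31_65_81_ok⟩
  · exact fun _ _ h => absurd h (by decide +kernel)
  · exact fun _ _ _ => Or.inl ⟨⟨_, ctri_31_65_74_ok⟩, _, clane_31_65_74_ok⟩
  · exact fun _ _ _ => Or.inr ⟨⟨_, ctri_31_9_81_ok⟩, _, clane_31_9_81_ok⟩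
  · exact fun _ _ _ => Or.inr ⟨⟨_, ctri_31_137_81_ok⟩, _, clane_31_137_81_ok⟩
  · exact fun _ _ _ => Or.inr ⟨⟨_, ctri_31_65_81_ok⟩, _, clane_31_65_81_ok⟩
  · exact fun h => absurd rfl h
  · exact fun _ _ h => absurd h (by decide +kernel)
  · exact fun _ _ _ => Or.inl ⟨⟨_, ctri_31_81_74_ok⟩, _, clane_31_81_74_ok⟩
  · exact fun _ h _ => absurd h (by decide +kernel)
  · exact fun _ h _ => absurd h (by decide +kernel)
  · exact fun _ h _ => absurd h (by decide +kernel)
  · exact fun _ h _ => absurd h (by decide +kernel)
  · exact fun h => absurd rfl h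
  · exact fun _ h _ => absurd h (by decide +kernel)
  · exact fun _ _ _ => Or.inr ⟨⟨_, ctri_31_9_74_ok⟩, _, clane_31_9_74_ok⟩
  · exact fun _ _ _ => Or.inr ⟨⟨_, ctri_31_137_74_ok⟩, _, clane_31_137_74_ok⟩
  · exact fun _ _ _ => Or.inr ⟨⟨_, ctri_31_65_74_ok⟩, _, clane_31_65_74_ok⟩
  · exact fun _ _ _ => Or.inr ⟨⟨_, ctri_31_81_74_ok⟩, _, clane_31_81_74_ok⟩
  · exact fun _ _ h => absurd h (by decide +kernel)
  · exact fun h => absurd rfl h
theorem cert_pair_51 : ∀ c ∈ dirs, ∀ d ∈ dirs, c ≠ d → port 51 c = true → port 51 d = true → PairOk 51 c d ∨ PairOk 51 d c := by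
  intro c hc d hd
  simp only [dirs, List.mem_cons, List.not_mem_nil, or_false] at hc hd
  rcases hc with rfl | rfl | rfl | rfl | rfl | rfl <;> rcases hd with rfl | rfl | rfl | rfl | rfl | rfl
  · exact fun h => absurd rfl h
  · exact fun _ _ _ => Or.inl ⟨⟨_, ctri_51_9_137_ok⟩, _, clane_51_9_137_ok⟩
  · exact fun _ _ h => absurd h (by decide +kernel)
  · exact fun _ _ h => absurd h (by decide +kernel)
  · exact fun _ _ _ => Or.inl ⟨⟨_, ctri_51_9_72_ok⟩, _, clane_51_9_72_ok⟩
  · exact fun _ _ _ => Or.inl ⟨⟨_, ctri_51_9_74_ok⟩, _, clane_51_9_74_ok⟩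
  · exact fun _ _ _ => Or.inr ⟨⟨_, ctri_51_9_137_ok⟩, _, clane_51_9_137_ok⟩
  · exact fun h => absurd rfl h
  · exact fun _ _ h => absurd h (by decide +kernel)
  · exact fun _ _ h => absurd h (by decide +kernel)
  · exact fun _ _ _ => Or.inl ⟨⟨_, ctri_51_137_72_ok⟩, _, clane_51_137_72_ok⟩
  · exact fun _ _ _ => Or.inl ⟨⟨_, ctri_51_137_74_ok⟩, _, clane_51_137_74_ok⟩
  · exact fun _ h _ => absurd h (by decide +kernel)
  · exact fun _ h _ => absurd h (by decide +kernel)
  · exact fun h => absurd rfl h
  · exact fun _ h _ => absurd h (by decide +kernel)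
  · exact fun _ h _ => absurd h (by decide +kernel)
  · exact fun _ h _ => absurd h (by decide +kernel)
  · exact fun _ h _ => absurd h (by decide +kernel)
  · exact fun _ h _ => absurd h (by decide +kernel)
  · exact fun _ h _ => absurd h (by decide +kernel)
  · exact fun h => absurd rfl h
  · exact fun _ h _ => absurd h (by decide +kernel)
  · exact fun _ h _ => absurd h (by decide +kernel)
  · exact fun _ _ _ => Or.inr ⟨⟨_, ctri_51_9_72_ok⟩, _, clane_51_9_72_ok⟩
  · exact fun _ _ _ => Or.inr ⟨⟨_, ctri_51_137_72_ok⟩, _, clane_51_137_72_ok⟩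
  · exact fun _ _ h => absurd h (by decide +kernel)
  · exact fun _ _ h => absurd h (by decide +kernel)
  · exact fun h => absurd rfl h
  · exact fun _ _ _ => Or.inl ⟨⟨_, ctri_51_72_74_ok⟩, _, clane_51_72_74_ok⟩
  · exact fun _ _ _ => Or.inr ⟨⟨_, ctri_51_9_74_ok⟩, _, clane_51_9_74_ok⟩
  · exact fun _ _ _ => Or.inr ⟨⟨_, ctri_51_137_74_ok⟩, _, clane_51_137_74_ok⟩
  · exact fun _ _ h => absurd h (by decide +kernel)
  · exact fun _ _ h => absurd h (by decide +kernel)
  · exact fun _ _ _ => Or.inr ⟨⟨_, ctri_51_72_74_ok⟩, _, clane_51_72_74_ok⟩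
  · exact fun h => absurd rfl h
theorem cert_pair_55 : ∀ c ∈ dirs, ∀ d ∈ dirs, c ≠ d → port 55 c = true → port 55 d = true → PairOk 55 c d ∨ PairOk 55 d c := by
  intro c hc d hd
  simp only [dirs, List.mem_cons, List.not_mem_nil, or_false] at hc hd
  rcases hc with rfl | rfl | rfl | rfl | rfl | rfl <;> rcases hd with rfl | rfl | rfl | rfl | rfl | rfl
  · exact fun h => absurd rfl h
  · exact fun _ _ _ => Or.inl ⟨⟨_, ctri_55_9_137_ok⟩, _, clane_55_9_137_ok⟩
  · exact fun _ _ h => absurd h (by decide +kernel)
  · exact fun _ _ _ => Or.inl ⟨⟨_, ctri_55_9_81_ok⟩, _, clane_55_9_81_ok⟩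
  · exact fun _ _ _ => Or.inl ⟨⟨_, ctri_55_9_72_ok⟩, _, clane_55_9_72_ok⟩
  · exact fun _ _ _ => Or.inl ⟨⟨_, ctri_55_9_74_ok⟩, _, clane_55_9_74_ok⟩
  · exact fun _ _ _ => Or.inr ⟨⟨_, ctri_55_9_137_ok⟩, _, clane_55_9_137_ok⟩
  · exact fun h => absurd rfl h
  · exact fun _ _ h => absurd h (by decide +kernel)
  · exact fun _ _ _ => Or.inl ⟨⟨_, ctri_55_137_81_ok⟩, _, clane_55_137_81_ok⟩
  · exact fun _ _ _ => Or.inl ⟨⟨_, ctri_55_137_72_ok⟩, _, clane_55_137_72_ok⟩
  · exact fun _ _ _ => Or.inl ⟨⟨_, ctri_55_137_74_ok⟩, _, clane_55_137_74_ok⟩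
  · exact fun _ h _ => absurd h (by decide +kernel)
  · exact fun _ h _ => absurd h (by decide +kernel)
  · exact fun h => absurd rfl h
  · exact fun _ h _ => absurd h (by decide +kernel)
  · exact fun _ h _ => absurd h (by decide +kernel)
  · exact fun _ h _ => absurd h (by decide +kernel)
  · exact fun _ _ _ => Or.inr ⟨⟨_, ctri_55_9_81_ok⟩, _, clane_55_9_81_ok⟩
  · exact fun _ _ _ => Or.inr ⟨⟨_, ctri_55_137_81_ok⟩, _, clane_55_137_81_ok⟩
  · exact fun _ _ h => absurd h (by decide +kernel)
  · exact fun h => absurd rfl h
  · exact fun _ _ _ => Or.inl ⟨⟨_, ctri_55_81_72_ok⟩, _, clane_55_81_72_ok⟩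
  · exact fun _ _ _ => Or.inl ⟨⟨_, ctri_55_81_74_ok⟩, _, clane_55_81_74_ok⟩
  · exact fun _ _ _ => Or.inr ⟨⟨_, ctri_55_9_72_ok⟩, _, clane_55_9_72_ok⟩
  · exact fun _ _ _ => Or.inr ⟨⟨_, ctri_55_137_72_ok⟩, _, clane_55_137_72_ok⟩
  · exact fun _ _ h => absurd h (by decide +kernel)
  · exact fun _ _ _ => Or.inr ⟨⟨_, ctri_55_81_72_ok⟩, _, clane_55_81_72_ok⟩
  · exact fun h => absurd rfl h
  · exact fun _ _ _ => Or.inl ⟨⟨_, ctri_55_72_74_ok⟩, _, clane_55_72_74_ok⟩
  · exact fun _ _ _ => Or.inr ⟨⟨_, ctri_55_9_74_ok⟩, _, clane_55_9_74_ok⟩
  · exact fun _ _ _ => Or.inr ⟨⟨_, ctri_55_137_74_ok⟩, _, clane_55_137_74_ok⟩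
  · exact fun _ _ h => absurd h (by decide +kernel)
  · exact fun _ _ _ => Or.inr ⟨⟨_, ctri_55_81_74_ok⟩, _, clane_55_81_74_ok⟩
  · exact fun _ _ _ => Or.inr ⟨⟨_, ctri_55_72_74_ok⟩, _, clane_55_72_74_ok⟩
  · exact fun h => absurd rfl h
theorem cert_pair_63 : ∀ c ∈ dirs, ∀ d ∈ dirs, c ≠ d → port 63 c = true → port 63 d = true → PairOk 63 c d ∨ PairOk 63 d c := by
  intro c hc d hd
  simp only [dirs, List.mem_cons, List.not_mem_nil, or_false] at hc hd
  rcases hc with rfl | rfl | rfl | rfl | rfl | rfl <;> rcases hd with rfl | rfl | rfl | rfl | rfl | rfl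
  · exact fun h => absurd rfl h
  · exact fun _ _ _ => Or.inl ⟨⟨_, ctri_63_9_137_ok⟩, _, clane_63_9_137_ok⟩
  · exact fun _ _ h => absurd h (by decide +kernel)
  · exact fun _ _ _ => Or.inl ⟨⟨_, ctri_63_9_81_ok⟩, _, clane_63_9_81_ok⟩
  · exact fun _ _ h => absurd h (by decide +kernel)
  · exact fun _ _ _ => Or.inl ⟨⟨_, ctri_63_9_74_ok⟩, _, clane_63_9_74_ok⟩
  · exact fun _ _ _ => Or.inr ⟨⟨_, ctri_63_9_137_ok⟩, _, clane_63_9_137_ok⟩
  · exact fun h => absurd rfl h
  · exact fun _ _ h => absurd h (by decide +kernel)
  · exact fun _ _ _ => Or.inl ⟨⟨_, ctri_63_137_81_ok⟩, _, clane_63_137_81_ok⟩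
  · exact fun _ _ h => absurd h (by decide +kernel)
  · exact fun _ _ _ => Or.inl ⟨⟨_, ctri_63_137_74_ok⟩, _, clane_63_137_74_ok⟩
  · exact fun _ h _ => absurd h (by decide +kernel)
  · exact fun _ h _ => absurd h (by decide +kernel)
  · exact fun h => absurd rfl h
  · exact fun _ h _ => absurd h (by decide +kernel)
  · exact fun _ h _ => absurd h (by decide +kernel)
  · exact fun _ h _ => absurd h (by decide +kernel)
  · exact fun _ _ _ => Or.inr ⟨⟨_, ctri_63_9_81_ok⟩, _, clane_63_9_81_ok⟩
  · exact fun _ _ _ => Or.inr ⟨⟨_, ctri_63_137_81_ok⟩, _, clane_63_137_81_ok⟩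
  · exact fun _ _ h => absurd h (by decide +kernel)
  · exact fun h => absurd rfl h
  · exact fun _ _ h => absurd h (by decide +kernel)
  · exact fun _ _ _ => Or.inl ⟨⟨_, ctri_63_81_74_ok⟩, _, clane_63_81_74_ok⟩
  · exact fun _ h _ => absurd h (by decide +kernel)
  · exact fun _ h _ => absurd h (by decide +kernel)
  · exact fun _ h _ => absurd h (by decide +kernel)
  · exact fun _ h _ => absurd h (by decide +kernel)
  · exact fun h => absurd rfl h
  · exact fun _ h _ => absurd h (by decide +kernel)
  · exact fun _ _ _ => Or.inr ⟨⟨_, ctri_63_9_74_ok⟩, _, clane_63_9_74_ok⟩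
  · exact fun _ _ _ => Or.inr ⟨⟨_, ctri_63_137_74_ok⟩, _, clane_63_137_74_ok⟩
  · exact fun _ _ h => absurd h (by decide +kernel)
  · exact fun _ _ _ => Or.inr ⟨⟨_, ctri_63_81_74_ok⟩, _, clane_63_81_74_ok⟩
  · exact fun _ _ h => absurd h (by decide +kernel)
  · exact fun h => absurd rfl h

end Pool.Agent.Lib.MP_b7d179_gt.M
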