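import Pool.Agent.Lib.MP_b7d179_gt.M.Lat

/-! Boolean checks of certificates in a window. -/

namespace Pool.Agent.Lib.MP_b7d179_gt.M

open C

def an (a b : ℕ) : ℕ := Nat.land a b
def un (a b : ℕ) : ℕ := Nat.lor a b
def eqb (a b : ℕ) : Bool := Nat.beq a b
/-- the mask has a cell in the window -/
def nz (a : ℕ) : Bool := !dis a mAll
def any0 : ℕ := mAny h0
def any1 : ℕ := mAny h1
def one0 : ℕ := mOne h0
def one1 : ℕ := mOne h1
def mV1 (T : ℕ) : ℕ := an (mN1 T) (mM1 T)
def mJS (T : ℕ) : ℕ := an (mN1 T) (un (mM1 T) any0)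
def mPS (T : ℕ) : ℕ := an (mN 3 T) (un (mM 3 T) any0)
def mBS (T : ℕ) : ℕ := an (mN 4 T) (un (mM 4 T) any0)
def mQ (T : ℕ) : ℕ := an (mN 4 T) (mM 4 T)
def mQp (T : ℕ) : ℕ := an (mN 3 T) (mM 3 T)
def mFt (T : ℕ) : ℕ := an any0 (mN1 T)

/-! ### empty boxes are added to a ball -/

def chainGo (k y B S : ℕ) : List (ℕ × TD) → Option (ℕ × ℕ)
  | [] => some (B, S)
  | (w, t) :: l =>
    match atoms.a3 w, atoms.evD t with
    | some (m, r), some (d, c) =>
      if eqb (an B m) d && sub d S && sub d r && dis m k && sub y (df (un S r) (df d c)) then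
        chainGo k y (un B m) (df (un S r) (df d c)) l
      else none
    | _, _ => none

abbrev TC : Type := TB × List (ℕ × TD)

def chkEqv (T B S B' S' y : ℕ) (t : TC) : Bool :=
  match atoms.evB t.1, chainGo (mK T) y B' S' t.2 with
  | some (b, s), some (b2, s2) => eqb b B' && eqb s S' && sub y S' && eqb b2 B && eqb s2 S
  | _, _ => false

def chkCube (T : ℕ) (t : TC) : Bool := chkEqv T mAll any0 (mN 3 T) (mPS T) (an any0 (mN 3 T)) t
def chkBp (T : ℕ) (t : TC) : Bool :=
  chkEqv T (mN 3 T) (mPS T) (mN1 T) (mJS T) (an (mPS T) (mN1 T)) t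

def chkShell (T : ℕ) (t : TB × TD) : Bool :=
  match atoms.evB t.1, atoms.evD t.2 with
  | some (w, sw), some (d, c) =>
    eqb d (mQp T) && eqb c (an (mQp T) any0) && eqb (an (mN 3 T) w) d && sub d (mPS T) &&
      sub d sw && eqb (mN 4 T) (un (mN 3 T) w) && eqb (mBS T) (df (un (mPS T) sw) (df d c)) &&
      dis w (mK T) && eqb (an (mBS T) w) (un (mQ T) (an (an any0 (mN 4 T)) (mM 3 T))) &&
      dis (mQ T) (mN 3 T)
  | _, _ => false

/-! ### bodies glued one after the other -/

def bA (T : ℕ) (A : List ℕ) : ℕ := mBA (mN1 T) A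
def sA (T : ℕ) (A : List ℕ) : ℕ := mSA (mN1 T) (mM1 T) A

def bldGo (T : ℕ) (A : List ℕ) : List (ℕ × TD) → Option (List ℕ)
  | [] => some A
  | (d, t) :: l =>
    match atoms.evD t with
    | some (D, c) =>
      if (codes 3).elem d && !A.elem d && eqb (an (bA T A) (bA T [d])) D && sub D (sA T A) &&
          sub D (sA T [d]) && eqb (sA T (d :: A)) (df (un (sA T A) (sA T [d])) (df D c)) &&
          nz (an D one1) && eqb (an c one1) (an (an D (mM1 T)) one1) then
        bldGo T (d :: A) l
      else none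
    | none => none

abbrev TL : Type := ℕ × List (ℕ × TD)

def bld (T : ℕ) (t : TL) : Option (List ℕ) :=
  if (codes 3).elem t.1 && nz (bA T [t.1]) then bldGo T [t.1] t.2 else none

def chkJack (T : ℕ) (t : TL) : Bool :=
  match bld T t with
  | some A => eqb (bA T A) (mN1 T) && eqb (sA T A) (mJS T)
  | none => false

def disL (A B : List ℕ) : Bool := A.all fun a => !B.elem a

abbrev TU : Type := TL × TL × TD × TD

/-- the disc that is cut off, with its rim -/
def cutf (T : ℕ) (t : TU) : Option (ℕ × ℕ) :=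
  match bld T t.1, bld T t.2.1, atoms.evD t.2.2.1, atoms.evD t.2.2.2 with
  | some L, some R, some (E, c), some (D, c') =>
    if disL L R && eqb c' c && dis c (mK T) && nz (an D one1) && eqb (an (bA T L) (mJS T)) E &&
        eqb (an (bA T L) (bA T R)) D && eqb (an D (mJS T)) c &&
        eqb (mN1 T) (un (bA T R) (bA T L)) && eqb (sA T L) (un E D) &&
        eqb (sA T R) (un (df (mJS T) E) D) then some (E, c)
    else none
  | _, _, _, _ => none

def chkBud (T : ℕ) (t : TU) : Bool :=
  match cutf T t with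
  | some (E, _) => dis E (mK T)
  | none => false

def mM2 (c d : ℕ) : ℕ := un (mSb (3 * c)) (mSb (3 * d))

def chkLane (T c d : ℕ) (t : TD × TU) : Bool :=
  match atoms.evD t.1, cutf T t.2 with
  | some (Z, z), some (E, e) =>
    sub Z (mTop T) && sub (an (mTop T) (mM2 c d)) z && sub (df Z z) (df E e) &&
      sub (an (an (mM2 c d) (mN1 T)) one1) (df E e) && sub (an (mK T) E) (mM2 c d)
  | _, _ => false

/-! ### discs built from cells -/

/-- the common arc and the new rim -/
def glu (D c E e : ℕ) (t : TA) : Option (ℕ × ℕ) :=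
  match atoms.evA t with
  | some (g, u, v) =>
    if eqb (an D E) g && sub g c && sub g e && dis (un u v) one1 then
      some (g, df (un c e) (df g (un u v)))
    else none
  | none => none

def cell (T c : ℕ) (t : TD) : Option (ℕ × ℕ) :=
  match atoms.evD t with
  | some (E, e) =>
    if (codes 3).elem c && sub E (an (mCh c) (mV1 T)) && sub (an E any1) e then some (E, e) else none
  | none => none

def celGo (T : ℕ) (A : List ℕ) (D c : ℕ) : List (ℕ × TD × TA) → Option (List ℕ × ℕ × ℕ)
  | [] => some (A, D, c)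
  | (q, t, a) :: l =>
    match cell T q t with
    | some (E, e) =>
      match glu D c E e a with
      | some (g, o) =>
        if !A.elem q && nz (an g one1) && sub (an (an D one1) (mCh q)) g &&
            sub (an (an E one1) (mU A)) g then celGo T (q :: A) (un D E) o l
        else none
      | none => none
    | none => none

abbrev TE : Type := (ℕ × TD) × List (ℕ × TD × TA)

def cel (T : ℕ) (t : TE) : Option (List ℕ × ℕ × ℕ) :=
  match cell T t.1.1 t.1.2 with
  | some (E, e) => celGo T [t.1.1] E e t.2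
  | none => none

def chkTop (T : ℕ) (t : TE) : Bool :=
  match cel T t with
  | some (_, Z, z) => eqb Z (mTop T) && sub (an (mTop T) any0) z
  | none => false

abbrev TQ : Type := TA × TA × TA × TA

def quad (t : TQ) : Option (ℕ × ℕ × ℕ × ℕ) :=
  match atoms.evA t.1, atoms.evA t.2.1, atoms.evA t.2.2.1, atoms.evA t.2.2.2 with
  | some (g, a, b), some (l, b', d), some (g', d', e), some (r, e', a') =>
    if eqb b b' && eqb d d' && eqb e e' && eqb a a' && eqb (an g l) b && eqb (an l g') d &&
        eqb (an g' r) e && eqb (an r g) a && dis g g' && dis l r then some (g, l, g', r)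
    else none
  | _, _, _, _ => none

def chkTri (T c d : ℕ) (t : TE × TE × TE × TA × TA × TQ) : Bool :=
  match cel T t.1, cel T t.2.1, cel T t.2.2.1, quad t.2.2.2.2.2 with
  | some (Al, Pl, zl), some (Am, Pm, zm), some (Ar, Pr, zr), some (g, l, g', r) =>
    match glu Pm zm Pr zr t.2.2.2.1 with
    | some (_, o) =>
      match glu (un Pm Pr) o Pl zl t.2.2.2.2.1 with
      | some (_, z) =>
        disL Am Al && disL Am Ar && eqb (mTop T) (un (un Pm Pr) Pl) &&
          eqb z (un (un (un g l) g') r) && eqb g (an (mTop T) (mSb (3 * c))) &&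
          eqb g' (an (mTop T) (mSb (3 * d))) && sub l zl && sub r (an zr o) &&
          sub (an (mTop T) (mM2 c d)) (an zm o)
      | none => false
    | none => false
  | _, _, _, _ => false

/-! ### seams -/

/-- face code, child code, seam, landing arc -/
abbrev TS : Type := ℕ × ℕ × TA × TA

def seamM (s : TS) : ℕ :=
  match atoms.evA s.2.2.1 with
  | some (g, _, _) => g
  | none => 0

def seamOk (T c1 c2 : ℕ) (s : TS) : Bool :=
  match atoms.evA s.2.2.1, atoms.evA s.2.2.2 with
  | some (g, u, v), some (J, a, b) =>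
    (codes 3).elem s.2.1 && adjC s.2.1 s.1 && sub g (an c1 c2) && eqb (an g (mFt T)) (un u v) &&
      dis (un u v) one1 && sub J g &&
      sub (df J (un a b)) (df (an (an (mSb s.1) (mV1 T)) one1) any0)
  | _, _ => false

def pairOk : List TS → Bool
  | [] => true
  | s :: l => (l.all fun r => !eqb s.1 r.1 && dis (seamM s) (seamM r)) && pairOk l

def chkSms (T : ℕ) (t : TE × TE × List TS) : Bool :=
  match cel T t.1, cel T t.2.1 with
  | some (A1, O1, c1), some (A2, O2, c2) =>
    disL A1 A2 && t.2.2.all (seamOk T c1 c2) && pairOk t.2.2 &&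
      eqb (un (un O1 O2) (mFt T)) (mJS T) && eqb (an O1 O2) (orL (t.2.2.map seamM)) &&
      sub c1 (un (orL (t.2.2.map seamM)) (mFt T)) && sub c2 (un (orL (t.2.2.map seamM)) (mFt T)) &&
      sub (an O1 (mFt T)) c1 && sub (an O2 (mFt T)) c2 &&
      dirs.all fun c => dis (mFc c) (mN 4 T) ||
        (nz (an (an (mFc c) (mN1 T)) c1) && nz (an (an (mFc c) (mN1 T)) c2))
  | _, _ => false

/-! ### faces -/

def mPh (T c : ℕ) : ℕ := an (mFc c) (mN 4 T)
def mPs (T c : ℕ) : ℕ := an (mFc c) (mN1 T)
def mOg (T c : ℕ) : ℕ := an (an (mPh T c) (mM 4 T)) one0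

def chkFace (T c : ℕ) (t : TD × TD × TA) : Bool :=
  match atoms.evD t.1, atoms.evD t.2.1, atoms.evA t.2.2 with
  | some (P, r), some (P', r'), some (a, u, v) =>
    eqb P (mPh T c) && eqb r (df (mPh T c) (an (df (mPh T c) (mM 4 T)) one0)) &&
      eqb P' (mPs T c) && eqb r' (an (mPs T c) (mM1 T)) && sub a r' &&
      eqb (an (an (mSb (lndC c)) (mV1 T)) one1) (df a (un u v))
  | _, _, _ => false

def chkStrip (T c : ℕ) (t : TD × TQ × TA × TA) : Bool :=
  match atoms.evD t.1, quad t.2.1, atoms.evA t.2.2.1, atoms.evA t.2.2.2 with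
  | some (O, o), some (g, l, g0, r), some (gm, u, v), some (gp, u', v') =>
    eqb o (un (un (un g l) g0) r) && sub gm l && sub gp r && sub (mOg T c) (df g (un l r)) &&
      sub (df O o) (an (df (df (mPh T c) (mM 4 T)) (mN 3 T)) one0) && sub O (mFc c) &&
      sub (df g0 (un l r)) (an (an (mTop T) one1) (mSb (3 * c))) &&
      sub (un (df gm (un u v)) (df gp (un u' v'))) (df (an (mTop T) one1) (mSb (3 * c)))
  | _, _, _, _ => false

def port (T c : ℕ) : Bool := !dis (mTop T) (mSb (3 * c))

def PairOk (T c d : ℕ) : Prop := (∃ t, chkTri T c d t = true) ∧ ∃ t, chkLane T c d t = true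

end Pool.Agent.Lib.MP_b7d179_gt.M
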