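import Pool.Agent.Lib.MP_b7d179_gt.M.Tw
import Pool.Agent.Lib.MP_b7d179_gt.M.Box
import Pool.Agent.Lib.MP_b7d179_gt.M.Arith
import Pool.Agent.Lib.MP_b7d179_gt.M.Lat

namespace Pool.Agent.Lib.MP_b7d179_gt.M

open Set

theorem sys_cube_Icc (n : ℕ) (p : V) :
    cube n p = Icc (fun i => (2 * (p i : ℝ) - 1) / (2 * 3 ^ n))
      (fun i => (2 * (p i : ℝ) + 1) / (2 * 3 ^ n)) := by
  have h3 : (0 : ℝ) < 2 * 3 ^ n := by positivity
  ext x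
  simp only [cube, Bx, mem_ofPred_eq, mem_Icc, Pi.le_def, ← forall_and]
  refine forall_congr' fun i => ?_
  rw [if_pos (by omega), div_le_iff₀ h3, le_div_iff₀ h3, abs_le]
  push_cast
  constructor <;> rintro ⟨a, b⟩ <;> constructor <;> linarith

theorem sys_ball (n : ℕ) (p : V) : Ball (cube n p) (cubeS n p) := by
  have h3 : (0 : ℝ) < 2 * 3 ^ n := by positivity
  have hb := ball_Icc (l := fun i => (2 * (p i : ℝ) - 1) / (2 * 3 ^ n))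
    (u := fun i => (2 * (p i : ℝ) + 1) / (2 * 3 ^ n))
    (fun i => div_lt_div_of_pos_right (by linarith) h3)
  rw [← sys_cube_Icc] at hb
  convert hb using 1
  ext x
  simp only [cubeS, mem_inter_iff, mem_ofPred_eq, AnyH]
  refine and_congr_right fun hx => exists_congr fun i => ?_
  have hi := hx i
  beta_reduce at hi
  rw [if_pos (by omega), abs_le] at hi
  push_cast at hi
  rw [eq_div_iff h3.ne', eq_div_iff h3.ne']
  constructor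
  · rintro ⟨m, hm, e⟩
    rw [e] at hi
    have a' : (2 : ℝ) * p i ≤ m + 1 := by linarith [hi.1]
    have b' : (m : ℝ) ≤ 2 * p i + 1 := by linarith [hi.2]
    have a : 2 * p i ≤ m + 1 := by exact_mod_cast a'
    have b : m ≤ 2 * p i + 1 := by exact_mod_cast b'
    have c : m = 2 * p i - 1 ∨ m = 2 * p i + 1 := by omega
    rcases c with c | c
    · left; rw [mul_comm, e, c]; push_cast; ring
    · right; rw [mul_comm, e, c]; push_cast; ring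
  · rintro (e | e)
    · exact ⟨2 * p i - 1, by omega, by push_cast; linarith⟩
    · exact ⟨2 * p i + 1, by omega, by push_cast; linarith⟩

theorem sg_ok0 : sg.Ok0 := ⟨K_closed, fun _ => sys_ball _ _⟩

theorem sg_fdj : ∀ f g, sg.lf f = sg.lf g → f ≠ g → Disjoint (sg.A f) (sg.A g) := by
  rintro ⟨⟨m, f⟩, hf⟩ ⟨⟨m', g⟩, hg⟩ e ne
  obtain rfl : m = m' := e
  refine disjoint_left.2 fun x xf xg => ne ?_
  obtain rfl : f = g := face_uniq hf.1 hg.1 xf.1 xg.1 (N_One _ xf.2)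
  rfl

/-- the centre of a small box that lies in a box two levels up -/
theorem sys_ctr {n : ℕ} {f g : V} (h : Bx (n + 2) g ⊆ Bx n f) (j : Fin 3) :
    |g j - 9 * f j| ≤ if f j % 2 = 0 then 9 else 0 := by
  have h3 : (3 : ℝ) ^ n ≠ 0 := by positivity
  have hc : (fun i => (g i : ℝ) / (2 * 3 ^ (n + 2))) ∈ Bx (n + 2) g := by
    intro i
    have : 2 * 3 ^ (n + 2) * ((g i : ℝ) / (2 * 3 ^ (n + 2))) - g i = 0 := by field_simp; ring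
    simp only [this, abs_zero]
    split_ifs <;> norm_num
  have := h hc j
  have e : 2 * 3 ^ n * ((g j : ℝ) / (2 * 3 ^ (n + 2))) = g j / 9 := by field_simp; ring
  simp only [e] at this
  rw [abs_le] at this ⊢
  split_ifs at this ⊢
  · have a : (-9 : ℝ) ≤ g j - 9 * f j := by linarith [this.1]
    have b : (g j : ℝ) - 9 * f j ≤ 9 := by linarith [this.2]
    exact ⟨by exact_mod_cast a, by exact_mod_cast b⟩
  · have a : (0 : ℝ) ≤ g j - 9 * f j := by linarith [this.1]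
    have b : (g j : ℝ) - 9 * f j ≤ 0 := by linarith [this.2]
    exact ⟨by exact_mod_cast a, by exact_mod_cast b⟩

theorem sg_sfin : ∀ f, (sg.sub f).Finite := by
  rintro ⟨⟨m, f⟩, hf⟩
  refine Finite.of_finite_image (f := fun g : sg.φ => g.1.2)
    ((finite_Icc (fun i => 9 * f i - 9) (fun i => 9 * f i + 9)).subset ?_) ?_
  · rintro _ ⟨⟨⟨m', g⟩, hg⟩, ⟨e, s⟩, rfl⟩
    obtain rfl : m' = m + 1 := e
    have k : ∀ j, |g j - 9 * f j| ≤ 9 := fun j =>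
      (sys_ctr (n := 2 * m) s j).trans (by split_ifs <;> norm_num)
    exact ⟨fun j => by have := abs_le.1 (k j); simp only; omega,
      fun j => by have := abs_le.1 (k j); simp only; omega⟩
  · rintro ⟨⟨a, g⟩, hg⟩ ⟨e, -⟩ ⟨⟨b, g'⟩, hg'⟩ ⟨e', -⟩ h
    obtain rfl : a = m + 1 := e
    obtain rfl : b = m + 1 := e'
    obtain rfl : g = g' := h
    rfl

theorem sg_stwo : ∀ f, (sg.sub f).Nontrivial := by
  rintro ⟨⟨m, f⟩, hf⟩
  obtain ⟨a, -, -, fa, -, sa, -⟩ := K_Ph2 hf.1 hf.2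
  obtain ⟨b, c, ne, fb, fc', sb', sc'⟩ := K_Ph2 fa a
  refine ⟨⟨(m + 1, mid (mid f)), fb, b⟩, ⟨rfl, sb'.trans sa⟩,
    ⟨(m + 1, land (2 * m + 1) (mid f)), fc', c⟩, ⟨rfl, sc'.trans sa⟩, fun h => ne ?_⟩
  exact congrArg (fun g : sg.φ => g.1.2) h

theorem sg_sin : ∀ f, ∀ g ∈ sg.sub f, sg.lf g = sg.lf f + 1 ∧ sg.A g ⊆ sg.A f \ sg.C f := by
  rintro ⟨⟨m, f⟩, hf⟩ ⟨⟨m', g⟩, hg⟩ ⟨e, s⟩
  obtain rfl : m' = m + 1 := e
  refine ⟨rfl, fun x hx => ?_⟩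
  have h2 : x ∈ N (2 * m + 1 + 1) := (N_succ _ hx.2).1
  have h1 := N_succ _ h2
  exact ⟨⟨s hx.1, h1.1⟩, fun h => h1.2 h.2⟩

/-- a point of a face off the dual edges of the next level lies in a subface -/
theorem sys_step {n : ℕ} {f : V} {x : X} (hf : IsFace f) (xf : x ∈ Bx n f) (h1 : x ∈ One (n + 1)) :
    ∃ g, IsFace g ∧ x ∈ Bx (n + 1) g ∧ Bx (n + 1) g ⊆ Bx n f := by
  obtain ⟨p, -, -, ap, -⟩ := face_adj hf
  obtain ⟨q, k, xq⟩ := kid_cover (ap.sub n xf)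
  have an := Bx_any hf n xf
  obtain ⟨g, ag, xg⟩ := face_of_any xq (AnyH_succ n an) h1
  rcases kid_face k ag n with ⟨_, -, -, -, d⟩ | ⟨f', af, s, -⟩
  · exact absurd an (disjoint_left.1 d ⟨xg, h1⟩)
  · obtain rfl : f = f' := face_uniq hf af.face xf (s xg) (One_succ n h1)
    exact ⟨g, ag.face, xg, s⟩

theorem sg_scov : ∀ f, sg.K ∩ sg.A f ⊆ ⋃ g ∈ sg.sub f, sg.A g := by
  rintro ⟨⟨m, f⟩, hf⟩ x ⟨xk, xf⟩
  obtain ⟨g, fg, xg, s⟩ := sys_step hf.1 xf.1 (K_One _ xk)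
  obtain ⟨g', fg', xg', s'⟩ := sys_step fg xg (K_One _ xk)
  exact mem_iUnion₂.2 ⟨⟨(m + 1, g'), fg', x, xg', K_sub_N _ xk⟩, ⟨rfl, s'.trans s⟩, xg',
    K_sub_N _ xk⟩

theorem sg_ffin : ∀ v, (sg.F v).Finite := by
  rintro ⟨⟨m, p⟩, hp⟩
  refine Finite.of_finite_image (f := fun g : sg.φ => g.1.2) ((adj_finite p).subset ?_) ?_
  · rintro _ ⟨g, hg, rfl⟩
    exact hg.2
  · rintro ⟨⟨a, g⟩, hg⟩ ⟨e, -⟩ ⟨⟨b, g'⟩, hg'⟩ ⟨e', -⟩ h
    obtain rfl : a = m := e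
    obtain rfl : b = a := e'
    obtain rfl : g = g' := h
    rfl

theorem sg_fin : ∀ v, ∀ f ∈ sg.F v, sg.lf f = sg.lv v ∧ sg.A f ⊆ sg.S v := by
  rintro ⟨⟨m, p⟩, hp⟩ ⟨⟨m', f⟩, hf⟩ ⟨e, a⟩
  obtain rfl : m' = m := e
  exact ⟨rfl, fun x hx => ⟨a.sub _ hx.1, Bx_any hf.1 _ hx.1⟩⟩

theorem sg_fcov : ∀ v, sg.K ∩ sg.S v ⊆ ⋃ f ∈ sg.F v, sg.A f := by
  rintro ⟨⟨m, p⟩, hp⟩ x ⟨xk, xc, xa⟩
  obtain ⟨f, a, xf⟩ := face_of_any xc xa (K_One _ xk)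
  exact mem_iUnion₂.2 ⟨⟨(m, f), a.face, x, xf, K_sub_N _ xk⟩, ⟨rfl, a⟩, xf, K_sub_N _ xk⟩

theorem sg_core : ∀ v, ∃ x ∈ sg.K ∩ sg.B v, ∀ f, sg.lf f = sg.lv v → x ∉ sg.A f := by
  rintro ⟨⟨m, p⟩, hp⟩
  obtain ⟨x, hx, hn⟩ := K_core hp
  refine ⟨x, hx, ?_⟩
  rintro ⟨⟨m', f⟩, hf⟩ e h
  obtain rfl : m' = m := e
  exact hn (Bx_any hf.1 _ h.1)

theorem sg_chl : ∀ v, ∀ w ∈ sg.ch v, sg.lv w = sg.lv v + 1 := fun _ _ h => h.1

theorem sg_chd : ∀ v w, sg.lv v = sg.lv w → v ≠ w → Disjoint (sg.ch v) (sg.ch w) := by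
  rintro ⟨⟨m, p⟩, hp⟩ ⟨⟨m', p'⟩, hp'⟩ e ne
  obtain rfl : m = m' := e
  refine disjoint_left.2 ?_
  rintro u ⟨-, q, k1, k2⟩ ⟨-, q', k1', k2'⟩
  obtain rfl : q = q' := k2.uniq k2'
  obtain rfl : p = p' := k1.uniq k1'
  exact ne rfl

theorem sg_mesh : ∀ ε > 0, ∃ m, (∀ v, m ≤ sg.lv v → ∀ x ∈ sg.B v, ∀ y ∈ sg.B v, dist x y < ε) ∧
    ∀ f, m ≤ sg.lf f → ∀ x ∈ sg.A f, ∀ y ∈ sg.A f, dist x y < ε := by
  intro ε hε
  obtain ⟨m, hm⟩ := exists_pow_lt_of_lt_one hε (by norm_num : (1 / 3 : ℝ) < 1)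
  have key : ∀ k, m ≤ k → ∀ p, ∀ x ∈ cube (2 * k) p, ∀ y ∈ cube (2 * k) p, dist x y < ε := by
    intro k hk p x hx y hy
    refine (cube_diam hx hy).trans_lt (lt_of_le_of_lt ?_ hm)
    rw [← one_div_pow]
    exact pow_le_pow_of_le_one (by norm_num) (by norm_num) (by omega)
  refine ⟨m, fun v hv => key _ hv _, fun f hf x hx y hy => ?_⟩
  obtain ⟨p, -, -, a, -⟩ := face_adj f.2.1
  exact key _ hf p x (a.sub _ hx.1) y (a.sub _ hy.1)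

/-- at most one coordinate of a point of the thickened sponge is deep in a middle third -/
theorem sys_deep {n : ℕ} {x : X} (hx : x ∈ N (n + 1)) {i j : Fin 3} {c d : ℤ}
    (hi : 3 * (c : ℝ) + 7 / 6 ≤ 3 ^ (n + 1) * x i ∧ 3 ^ (n + 1) * x i ≤ 3 * (c : ℝ) + 11 / 6)
    (hj : 3 * (d : ℝ) + 7 / 6 ≤ 3 ^ (n + 1) * x j ∧ 3 ^ (n + 1) * x j ≤ 3 * (d : ℝ) + 11 / 6) :
    i = j := by
  obtain ⟨a, r, h⟩ := hx
  have h3 : (0 : ℝ) < 3 ^ (n + 1) := by positivity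
  have key : ∀ (k : Fin 3) (e : ℤ), 3 * (e : ℝ) + 7 / 6 ≤ 3 ^ (n + 1) * x k →
      3 ^ (n + 1) * x k ≤ 3 * (e : ℝ) + 11 / 6 → a k % 3 = 1 := by
    intro k e l u
    obtain ⟨h1, h2⟩ := h k
    rw [be, div_le_iff₀ h3] at h1
    rw [be, le_div_iff₀ h3] at h2
    have o1 : (-1 : ℝ) ≤ o (n + 1) (a k) := by
      rcases o_cases (n + 1) (a k) with t | t <;> rw [t] <;> norm_num
    have o2 : (o (n + 1) (a k + 1) : ℝ) ≤ 1 := by
      rcases o_cases (n + 1) (a k + 1) with t | t <;> rw [t] <;> norm_num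
    push_cast at h2
    have b1 : (a k : ℝ) < 3 * e + 2 := by linarith
    have b2 : 3 * (e : ℝ) < a k := by linarith
    have c1 : a k < 3 * e + 2 := by exact_mod_cast b1
    have c2 : 3 * e < a k := by exact_mod_cast b2
    omega
  exact r.2 i j (key i c hi.1 hi.2) (key j d hj.1 hj.2)

/-- a face of a grandchild that lies in a face of the cube -/
theorem sys_out {n : ℕ} {p q r f g : V} (k1 : Kid p q) (k2 : Kid q r) (af : Adj p f) (ag : Adj r g)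
    (s : Bx (n + 2) g ⊆ Bx n f) :
    ∃ i, ((r i = 9 * p i + 4 ∧ g i = 2 * r i + 1) ∨ (r i = 9 * p i - 4 ∧ g i = 2 * r i - 1)) ∧
      ∀ j, j ≠ i → g j = 2 * r j := by
  obtain ⟨i, hi, -⟩ := af
  obtain ⟨i', hi', ho⟩ := ag
  have c := sys_ctr s i
  rw [if_neg (by omega), abs_le] at c
  have a1 := abs_le.1 (k1 i)
  have a2 := abs_le.1 (k2 i)
  obtain rfl : i = i' := by
    by_contra ne
    have := ho i ne
    omega
  exact ⟨i, by omega, ho⟩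

theorem sys_range {n : ℕ} {p r : V} {x : X} (hx : x ∈ cube (n + 2) r) {i : Fin 3}
    (h : r i = 9 * p i + 4 ∨ r i = 9 * p i - 4) :
    ∃ c : ℤ, 3 * (c : ℝ) + 7 / 6 ≤ 3 ^ (n + 1) * x i ∧ 3 ^ (n + 1) * x i ≤ 3 * (c : ℝ) + 11 / 6 := by
  have hi := hx i
  beta_reduce at hi
  rw [if_pos (by omega), abs_le] at hi
  have e : (2 : ℝ) * 3 ^ (n + 2) * x i = 6 * (3 ^ (n + 1) * x i) := by ring
  rw [e] at hi
  push_cast at hi
  rcases h with h | h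
  · have h' : (r i : ℝ) = 9 * p i + 4 := by exact_mod_cast h
    exact ⟨p i, by linarith [hi.1], by linarith [hi.2]⟩
  · have h' : (r i : ℝ) = 9 * p i - 4 := by exact_mod_cast h
    exact ⟨p i - 1, by push_cast; linarith [hi.1], by push_cast; linarith [hi.2]⟩

theorem sg_one : ∀ v, ∀ w ∈ sg.ch v, (sg.F w ∩ ⋃ f ∈ sg.F v, sg.sub f).Subsingleton := by
  rintro ⟨⟨m, p⟩, hp⟩ ⟨⟨m', r⟩, hr⟩ ⟨e, q, k1, k2⟩
  obtain rfl : m' = m + 1 := e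
  rintro ⟨⟨a, g⟩, hg⟩ ⟨⟨e1, ag⟩, h1⟩ ⟨⟨b, g'⟩, hg'⟩ ⟨⟨e2, ag'⟩, h2⟩
  obtain rfl : a = m + 1 := e1
  obtain rfl : b = m + 1 := e2
  obtain ⟨⟨⟨c, f⟩, hf⟩, ⟨e3, af⟩, -, s⟩ := mem_iUnion₂.1 h1
  obtain ⟨⟨⟨d, f'⟩, hf'⟩, ⟨e4, af'⟩, -, s'⟩ := mem_iUnion₂.1 h2
  obtain rfl : m = c := Eq.symm e3
  obtain rfl : m = d := Eq.symm e4
  obtain ⟨i, hi, ho⟩ := sys_out (n := 2 * m) k1 k2 af ag s
  obtain ⟨j, hj, ho'⟩ := sys_out (n := 2 * m) k1 k2 af' ag' s'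
  obtain ⟨x, xg, xn⟩ := hg.2
  have xc : x ∈ cube (2 * m + 2) r := Adj.sub ag _ xg
  obtain ⟨c, hc⟩ := sys_range (p := p) xc (i := i) (by simp only at hi; omega)
  obtain ⟨d, hd⟩ := sys_range (p := p) xc (i := j) (by simp only at hj; omega)
  have xn' : x ∈ N (2 * m + 1 + 1) := xn
  obtain rfl : i = j := sys_deep (N_succ _ xn').1 hc hd
  obtain rfl : g = g' := by
    funext k
    by_cases t : k = i
    · subst t; simp only at hi hj; omega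
    · exact (ho k t).trans (ho' k t).symm
  rfl

/-- a foot lies in the open part of its face region -/
theorem Ps_sub {n : ℕ} {f : V} (hf : IsFace f) : Ps n f ⊆ IPh n f := by
  have _ := hf
  exact fun x hx => ⟨⟨⟨hx.1, (N_succ n hx.2).1⟩, (N_succ n hx.2).2⟩, N_One n hx.2⟩

theorem K_Ps {n : ℕ} {f : V} : K ∩ Bx n f ⊆ Ps n f \ PsC n f :=
  fun _ hx => ⟨⟨hx.2, K_sub_N _ hx.1⟩, fun h => disjoint_left.1 (K_M _) hx.1 h.2⟩

end Pool.Agent.Lib.MP_b7d179_gt.M
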