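import Pool.Agent.Lib.MP_b7d179_gt.M.Defs2
import Pool.Agent.Lib.MP_b7d179_gt.M.Sys
import Pool.Agent.Lib.MP_b7d179_gt.U.SolB

namespace Pool.Agent.Lib.MP_b7d179_gt.M

open Set

variable {B S B' S' B'' S'' B1 S1 B2 S2 W SW D C Y Y' Xs M Λ O c A T : Set X} {k F : X → X}

theorem glues : Pool.Agent.Lib.MP_b7d179_gt.C.Glues X Ball :=
  ⟨fun ha hb h => ha.cat hb h, fun h1 h2 h3 h4 h5 h6 => h1.glue' h2 h3 h4 h5 h6,
    fun h1 h2 h3 h4 h5 h6 => Gl.ball ⟨h3, h4, h5, h6, rfl, rfl⟩ h1 h2⟩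

theorem ui_empty (h : G sg B S) : SolU sg B S ∅ := solU_empty.2 h

theorem ui_move (h : SolU sg B S Y) (hB : Ball B S) (hk : Mv K k B) :
    SolU sg (k '' B) (k '' S) (k '' Y) := h.mv' sg_ok0 hk

theorem ui_sol_move (h : Sol sg B S {(T, C)}) (hB : Ball B S) (hk : Mv K k B) :
    Sol sg (k '' B) (k '' S) {(k '' T, k '' C)} := by
  have := h.mv sg_ok0 hk
  rwa [image_singleton] at this

theorem Eqv.ball (h : Eqv B S B' S' Y) : Ball B' S' := by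
  obtain ⟨b, -, k, m, rfl, rfl, -⟩ := h
  exact b.image m.1 subset_rfl

theorem Eqv.refl (h : Ball B S) (hY : Y ⊆ S) : Eqv B S B S Y :=
  ⟨h, hY, id, ⟨emb_id B, ⟨univ, isOpen_univ, subset_univ _, fun _ _ => rfl⟩, fun _ _ m => m⟩,
    image_id _, image_id _, fun _ _ => rfl⟩

theorem Eqv.symm (h : Eqv B S B' S' Y) : Eqv B' S' B S Y := by
  have hb := h.ball
  obtain ⟨b, y, k, m, rfl, rfl, e⟩ := h
  obtain ⟨g, m', l, -, i⟩ := m.inv b.compact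
  refine ⟨hb, fun x hx => ⟨x, y hx, e hx⟩, g, m', i B subset_rfl, i S b.rim_sub, fun x hx => ?_⟩
  have := l x (b.rim_sub (y hx))
  rwa [show k x = x from e hx] at this

theorem Eqv.trans (h : Eqv B S B' S' Y) (h' : Eqv B' S' B'' S'' Y) : Eqv B S B'' S'' Y := by
  obtain ⟨b, y, k, m, rfl, rfl, e⟩ := h
  obtain ⟨-, -, k', m', rfl, rfl, e'⟩ := h'
  refine ⟨b, y, k' ∘ k, m.comp m', image_comp _ _ _, image_comp _ _ _, fun x hx => ?_⟩
  show k' (k x) = x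
  rw [show k x = x from e hx]
  exact e' hx

theorem Eqv.mono (h : Eqv B S B' S' Y) (hY : Y' ⊆ Y) : Eqv B S B' S' Y' := by
  obtain ⟨b, y, k, m, i, j, e⟩ := h
  exact ⟨b, hY.trans y, k, m, i, j, e.mono hY⟩

theorem Eqv.add (g : Gl B S B1 S1 W SW D C) (h1 : Ball B1 S1) (hW : Ball W SW) (hd : Disjoint W K)
    (hY : Y ⊆ S) (hY1 : Y ⊆ B1) : Eqv B S B1 S1 Y := by
  obtain ⟨h, m, i, j, e, -⟩ := push g h1 hW K_closed hd
  exact ⟨g.ball h1 hW, hY, h, m, i, j, e.mono (subset_inter hY hY1)⟩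

theorem Eqv.g (h : Eqv B S B' S' Y) (hg : G sg B S) : G sg B' S' := by
  obtain ⟨-, -, k, m, rfl, rfl, -⟩ := h
  exact hg.move m

theorem Eqv.solU (h : Eqv B S B' S' Y) (hY : Y' ⊆ Y) (hs : SolU sg B S Y') : SolU sg B' S' Y' := by
  obtain ⟨-, -, k, m, rfl, rfl, e⟩ := h
  have := hs.mv' sg_ok0 m
  rwa [(e.mono hY).image_eq, image_id] at this

theorem Eqv.bud (h : Eqv B S B' S' Y) (hT : T ⊆ S) (hd : Disjoint T K) (hs : Sol sg B S {(T, C)}) :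
    ∃ T' C', Disjoint T' K ∧ Sol sg B' S' {(T', C')} := by
  obtain ⟨b, -, k, m, rfl, rfl, -⟩ := h
  exact ⟨k '' T, k '' C, (m.disj (hT.trans b.rim_sub)).2 hd, ui_sol_move hs b m⟩

/-- going back along a move -/
theorem solU_back (hB : Ball B S) (hk : Mv K k B) (hY : Y ⊆ S)
    (h : SolU sg (k '' B) (k '' S) (k '' Y)) : SolU sg B S Y := (SolU.mv sg_ok0 hB hY hk).2 h

theorem solU_sup (hB : Ball B S) (hO : Disc O c) (hs : O ⊆ S) (hd : Disjoint O K) (hF : Sup F O c)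
    (hY : Y ⊆ S) (h : SolU sg B S (F '' Y)) : SolU sg B S Y :=
  (SolU.sup sg_ok0 hB hY hO hs hd hF).2 h

theorem solU_iso (hB : Ball B S) (hd : Disjoint (closure (S \ A)) K) (hF : Iso S A F) (hY : Y ⊆ S)
    (h : SolU sg B S (F '' Y)) : SolU sg B S Y := (SolU.iso sg_ok0 hB hY hF hd).2 h

end Pool.Agent.Lib.MP_b7d179_gt.M
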