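import Pool.Agent.Lib.MP_b7d179_gt.M.Brid

/-! Lattice facts on the two thickenings and on faces of consecutive levels. -/

namespace Pool.Agent.Lib.MP_b7d179_gt.M

open Set

variable {n : ℕ} {p q q' r f g : V} {x y : X}

theorem lat2_mono {s t : ℤ} (h : s ≤ t) : be n s ≤ be n t := by
  rcases h.eq_or_lt with rfl | h
  · exact le_rfl
  · have : (s : ℝ) + 1 ≤ t := by exact_mod_cast h
    have := br_o n s
    have := br_o n t
    exact div_le_div_of_nonneg_right (by linarith) (by positivity)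

theorem lat2_par {s : ℤ} {t : ℝ} (h : be (n + 1) s ≤ t ∧ t ≤ be (n + 1) (s + 1)) :
    be (n + 1) (3 * (s / 3)) ≤ t ∧ t ≤ be (n + 1) (3 * (s / 3 + 1)) :=
  ⟨(lat2_mono (by omega)).trans h.1, h.2.trans (lat2_mono (by omega))⟩

theorem lat2_gd {a b : ℤ} {t : ℝ} (h : be (n + 1) (3 * a) ≤ t ∧ t ≤ be (n + 1) (3 * (a + 1)))
    (hb : be n b ≤ t ∧ t ≤ be n (b + 1)) : ArithGd n a b := by
  obtain ⟨h1, h2⟩ := (br_Ib _ a t).1 h
  obtain ⟨h3, h4⟩ := (br_I0 _ b t).1 hb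
  have := br_o n a
  have := br_o n (a + 1)
  have := br_o n b
  have := br_o n (b + 1)
  push_cast at h2 h4
  have b1 : b ≤ a + 1 := arith_lt (by push_cast; linarith)
  have b2 : a ≤ b + 1 := arith_lt (by push_cast; linarith)
  obtain c | c | c : b = a ∨ a = b + 1 ∨ b = a + 1 := by omega
  · exact Or.inl c
  · subst c
    rcases arith_oR n (b + 1) with ⟨u, -⟩ | ⟨-, u⟩
    · exact Or.inr (Or.inl ⟨u, by ring⟩)
    · push_cast at h1
      linarith
  · subst c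
    rcases arith_oR n (a + 1) with ⟨-, u⟩ | ⟨u, -⟩
    · push_cast at h3
      linarith
    · exact Or.inr (Or.inr ⟨u, rfl⟩)

theorem lat2_cover (n : ℕ) (x : X) :
    ∃ a : V, ∀ i, be (n + 1) (3 * a i) ≤ x i ∧ x i ≤ be (n + 1) (3 * (a i + 1)) :=
  (arith_cover (n + 1) x).elim fun b h => ⟨fun i => b i / 3, fun i => lat2_par (h i)⟩

theorem lat2_kid {a : ℤ} {t : ℝ} (h : be (n + 1) (3 * a) ≤ t ∧ t ≤ be (n + 1) (3 * (a + 1))) :
    ∃ s, s / 3 = a ∧ be (n + 1) s ≤ t ∧ t ≤ be (n + 1) (s + 1) := by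
  rcases le_total t (be (n + 1) (3 * a + 1)) with c | c
  · exact ⟨3 * a, by omega, h.1, c⟩
  rcases le_total t (be (n + 1) (3 * a + 1 + 1)) with d | d
  · exact ⟨3 * a + 1, by omega, c, d⟩
  · exact ⟨3 * a + 1 + 1, by omega, d, h.2.trans (lat2_mono (by omega))⟩

theorem lat2_closed (n : ℕ) (i : Fin 3) : IsClosed {x : X | Hp n (x i)} := by
  have : {x : X | Hp n (x i)} =
      (fun x : X => 2 * 3 ^ n * x i) ⁻¹' (((↑) : ℤ → ℝ) '' {m | m % 2 = 1}) :=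
    Set.ext fun x => ⟨fun ⟨m, a, b⟩ => ⟨m, a, b.symm⟩, fun ⟨m, a, b⟩ => ⟨m, a, b.symm⟩⟩
  rw [this]
  exact (Int.isClosedEmbedding_coe_real.isClosedMap _ (isClosed_discrete _)).preimage (by fun_prop)

theorem lat2_same {i : Fin 3} (hi : g i % 2 = 1) (hx : x ∈ Bx n g) (hy : y ∈ Bx n g) :
    y i = x i :=
  mul_left_cancel₀ (by positivity : (2 * 3 ^ n : ℝ) ≠ 0) ((lat_odd hy hi).trans (lat_odd hx hi).symm)

theorem lat2_sub (hg : IsFace g) (hx : x ∈ Bx (n + 1) g) (h1 : x ∈ One (n + 1))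
    (hp : x ∈ Bx n f) : Bx (n + 1) g ⊆ Bx n f := by
  obtain ⟨i, hi, hj⟩ := hg
  have xi : Hp (n + 1) (x i) := ⟨_, hi, lat_odd hx hi⟩
  intro y hy j
  by_cases c : j = i
  · rw [c, lat2_same hi hx hy]
    exact hp i
  have nj : ¬ Hp (n + 1) (x j) := fun k => c (h1 j i k xi)
  have fe : f j % 2 = 0 := by
    by_contra k
    have k : f j % 2 = 1 := by omega
    exact nj (Hp_succ ⟨_, k, lat_odd hp k⟩)
  have ge := hj j c
  obtain ⟨a1, a2⟩ := lat_le hx j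
  obtain ⟨b1, b2⟩ := lat_le hp j
  obtain ⟨c1, c2⟩ := lat_le hy j
  have a3 := a1.lt_of_ne fun k => nj ⟨g j - 1, by omega, by push_cast; exact k.symm⟩
  have a4 := a2.lt_of_ne fun k => nj ⟨g j + 1, by omega, by push_cast; exact k⟩
  rw [lat_s] at a3 a4 c1 c2
  have d1 : g j ≤ 3 * f j + 3 := arith_lt (by push_cast; linarith)
  have d2 : 3 * f j - 3 ≤ g j := arith_lt (by push_cast; linarith)
  have d3 : (g j : ℝ) ≤ 3 * f j + 2 := by exact_mod_cast (by omega : g j ≤ 3 * f j + 2)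
  have d4 : (3 * f j - 2 : ℝ) ≤ g j := by exact_mod_cast (by omega : 3 * f j - 2 ≤ g j)
  rw [if_pos fe, abs_le]
  constructor <;> linarith

end Pool.Agent.Lib.MP_b7d179_gt.M
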