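import Pool.Agent.Lib.MP_b7d179_gt.M.Defs2
import Pool.Agent.Lib.MP_b7d179_gt.M.Sys
import Pool.Agent.Lib.MP_b7d179_gt.M.Brid
import Pool.Agent.Lib.MP_b7d179_gt.M.Lat2a

/-! Lattice facts for pieces, states and lollipops. -/

namespace Pool.Agent.Lib.MP_b7d179_gt.M

open Set

variable {n : ℕ} {p q q' r f g : V} {x y : X} {a b : Set X} {A B : Set V}

theorem N_Nb (n : ℕ) : N (n + 1) ⊆ Nb n := fun _ ⟨a, h, k⟩ =>
  ⟨fun i => a i / 3, h.1, fun i => lat2_par (k i)⟩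

theorem Nb_N (n : ℕ) : Nb n ⊆ N n := fun x ⟨_, h, k⟩ =>
  (arith_cover n x).elim fun b hb => ⟨b, arith_ret h fun i => lat2_gd (k i) (hb i), hb⟩

theorem Mm_Mb (n : ℕ) : Mm n ⊆ Mb n := fun x ⟨_, h, k⟩ =>
  (lat2_cover n x).elim fun a ha => ⟨a, fun c => h (arith_ret c fun i => lat2_gd (ha i) (k i)), ha⟩

theorem Mb_Mm (n : ℕ) : Mb n ⊆ Mm (n + 1) := fun x ⟨a, h, k⟩ => by
  choose s e hs using fun i => lat2_kid (k i)
  exact ⟨s, fun c => h (funext e ▸ c.1), hs⟩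

theorem Nb_or_Mb (n : ℕ) (x : X) : x ∈ Nb n ∨ x ∈ Mb n :=
  (lat2_cover n x).elim fun a h => (em (Ret n a)).imp (⟨a, ·, h⟩) (⟨a, ·, h⟩)

theorem One_open (n : ℕ) : IsOpen (One n) := by
  have : One n = ⋂ i, ⋂ j, {x : X | Hp n (x i)}ᶜ ∪ ({x : X | Hp n (x j)}ᶜ ∪ {_x | i = j}) := by
    ext x
    simp only [One, mem_ofPred_eq, mem_iInter, mem_union, mem_compl_iff, imp_iff_not_or]
  rw [this]
  exact isOpen_iInter_of_finite fun i => isOpen_iInter_of_finite fun j =>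
    (lat2_closed n i).isOpen_compl.union ((lat2_closed n j).isOpen_compl.union isOpen_const)

theorem AnyH_closed (n : ℕ) : IsClosed (AnyH n) := by
  have : AnyH n = ⋃ i, {x : X | Hp n (x i)} := Set.ext fun x =>
    (mem_iUnion (s := fun i => {x : X | Hp n (x i)})).symm
  rw [this]
  exact isClosed_iUnion_of_finite (lat2_closed n)

theorem three_cubes (hp : x ∈ cube n p) (hq : x ∈ cube n q) (hr : x ∈ cube n r) (h1 : x ∈ One n) :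
    p = q ∨ p = r ∨ q = r := by
  by_contra c
  simp only [not_or] at c
  obtain ⟨f, a1, a2, a3⟩ := two_cubes hp hq c.1 h1
  obtain ⟨u, v, -, -, -, k⟩ := face_adj a1.face
  have a4 := adj_of_mem a1.face a3 hr h1
  rcases k p a1 with e | e <;> rcases k q a2 with e' | e' <;> rcases k r a4 with e'' | e'' <;>
    simp_all

theorem kid_uniq_any (h : Kid p q) (h' : Kid p q') (hq : x ∈ cube (n + 1) q)
    (hq' : x ∈ cube (n + 1) q') (h1 : x ∈ One (n + 1)) (ha : x ∈ AnyH n) : q = q' := by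
  by_contra c
  obtain ⟨g, a1, a2, a3⟩ := two_cubes hq hq' c h1
  rcases kid_face h a1 n with ⟨_, -, -, -, d⟩ | ⟨_, -, -, d⟩
  · exact disjoint_left.1 d ⟨a3, h1⟩ ha
  · exact (d q' a2 (Ne.symm c) p h').1 rfl

theorem face_any (hg : IsFace g) (hx : x ∈ Bx (n + 1) g) (h1 : x ∈ One (n + 1)) (ha : x ∈ AnyH n) :
    Bx (n + 1) g ⊆ AnyH n := by
  obtain ⟨i, hi, -⟩ := hg
  obtain ⟨j, hj⟩ := ha
  obtain rfl := h1 j i (Hp_succ hj) ⟨_, hi, lat_odd hx hi⟩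
  exact fun y hy => ⟨j, (lat2_same hi hx hy).symm ▸ hj⟩

theorem face_cube (hg : IsFace g) (hx : x ∈ Bx (n + 1) g) (h1 : x ∈ One (n + 1))
    (hp : x ∈ cube n p) : Bx (n + 1) g ⊆ cube n p := lat2_sub hg hx h1 hp

theorem face_face (hf : IsFace f) (hg : IsFace g) (hx : x ∈ Bx (n + 1) g) (h1 : x ∈ One (n + 1))
    (hp : x ∈ Bx n f) : Bx (n + 1) g ⊆ Bx n f :=
  have _ := hf
  lat2_sub hg hx h1 hp

theorem exists_face (h : x ∈ AnyH n) (h1 : x ∈ One n) : ∃ f, IsFace f ∧ x ∈ Bx n f := by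
  obtain ⟨p, hp⟩ := cube_cover n x
  obtain ⟨f, a, b⟩ := face_of_any hp h h1
  exact ⟨f, a.face, b⟩

theorem face_has_adj (hf : IsFace f) : ∃ p, Adj p f :=
  (face_adj hf).imp fun _ ⟨_, _, h, _⟩ => h

theorem Ph_IPh (h : Bx (n + 1) g ⊆ Bx n f) : Ph (n + 1) g ⊆ IPh n f := fun _ k =>
  ⟨⟨⟨h k.1, (N_succ n k.2).1⟩, (N_succ n k.2).2⟩, N_One n k.2⟩

theorem K_IPh : K ∩ Bx n f ⊆ IPh n f := fun _ k =>
  ⟨⟨⟨k.2, K_sub_N n k.1⟩, disjoint_left.1 (K_M n) k.1⟩, K_One n k.1⟩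

theorem mid_sub (hf : IsFace f) : IsFace (mid f) ∧ Bx (n + 1) (mid f) ⊆ Bx n f := by
  obtain ⟨i, hi, hj⟩ := hf
  refine ⟨⟨i, by unfold mid; omega, fun j c => ?_⟩, arith_Bx fun j => ?_⟩
  · have := hj j c
    unfold mid
    omega
  · unfold mid
    omega

theorem land_sub (hf : IsFace f) : IsFace (land n f) ∧ Bx (n + 1) (land n f) ⊆ Bx n f := by
  obtain ⟨i, hi, hj⟩ := hf
  refine ⟨⟨i, ?_, fun j c => ?_⟩, arith_Bx fun j => ?_⟩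
  · unfold land
    rw [if_pos hi]
    omega
  · have := hj j c
    unfold land
    split_ifs <;> omega
  · have := o_cases n (f j / 2)
    unfold land
    split_ifs <;> omega

theorem land_ne_mid (hf : IsFace f) (g : V) : land n f ≠ mid g := fun e => by
  obtain ⟨i, -, hj⟩ := hf
  obtain ⟨j, c⟩ := exists_ne i
  have := congrFun e j
  have := hj j c
  have := o_cases n (f j / 2)
  unfold land mid at *
  split_ifs at * <;> omega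

theorem Og_Vo (hf : IsFace f) : Og n f = Vo n ∩ Bx n f := Set.ext fun _ =>
  ⟨fun h => ⟨⟨⟨⟨h.1.1.2, h.1.2⟩, Bx_any hf n h.1.1.1⟩, h.2⟩, h.1.1.1⟩,
    fun h => ⟨⟨⟨h.2, h.1.1.1.1⟩, h.1.1.1.2⟩, h.1.2⟩⟩

theorem BA_single (n : ℕ) (q : V) : BA n {q} = body n q := Set.ext fun _ =>
  ⟨fun ⟨a, _, e, b⟩ => ⟨(e : _ = q) ▸ b, a⟩, fun h => ⟨h.2, q, rfl, h.1⟩⟩

theorem SA_single (n : ℕ) (q : V) : SA n {q} = bodyS n q := Set.ext fun _ =>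
  ⟨fun ⟨a, b⟩ => have a := (BA_single n q).le a
    ⟨a, b.imp id fun ⟨_, c, d⟩ => other_any d a.1 c⟩,
   fun ⟨a, b⟩ => ⟨(BA_single n q).ge a, b.imp id (any_other a.1)⟩⟩

theorem Ends.symm (h : Ends n x y) : Ends n y x :=
  let ⟨f, g, a, b, c, d, e⟩ := h
  ⟨g, f, b, a, c.symm, e, d⟩

theorem Ends.vo (h : Ends n x y) : x ∈ Vo n ∧ y ∈ Vo n :=
  let ⟨_, _, a, b, _, d, e⟩ := h
  ⟨((Og_Vo a).le d).1, ((Og_Vo b).le e).1⟩

theorem Pc.vo (h : Pc n p a) : a ∩ AnyH n ⊆ Vo n := by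
  obtain ⟨x, y, e, -, -, k⟩ := h
  rw [k]
  exact pair_subset e.vo.1 e.vo.2

theorem Pc.face (h : Pc n p a) (hf : IsFace f) : (a ∩ Bx n f).Subsingleton := by
  obtain ⟨x, y, ⟨u, v, a1, a2, a3, a4, a5⟩, -, -, k⟩ := h
  have n2 : x ∈ Bx n f → y ∈ Bx n f → False := fun c d =>
    a3 ((face_uniq a1 hf a4.1.1.1 c a4.2).trans (face_uniq hf a2 d a5.1.1.1 a5.2))
  intro z hz w hw
  rcases k.le ⟨hz.1, Bx_any hf n hz.2⟩ with rfl | rfl <;>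
    rcases k.le ⟨hw.1, Bx_any hf n hw.2⟩ with rfl | rfl
  exacts [rfl, (n2 hz.2 hw.2).elim, (n2 hw.2 hz.2).elim, rfl]

theorem Pc.dense (h : Pc n p a) : a ⊆ closure (a ∩ IQ n p) := by
  obtain ⟨x, y, -, a1, a2, k⟩ := h
  exact (a1.dense (toFinite {x, y})).trans
    (closure_mono fun z hz => ⟨hz.1, a2 hz.1, fun c => hz.2 (k.le ⟨hz.1, c⟩)⟩)

theorem Pc.adj (h : Pc n p a) : ∃ x y f g, Adj p f ∧ Adj p g ∧ f ≠ g ∧ x ∈ Og n f ∧ y ∈ Og n g ∧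
    Arc a x y ∧ a ⊆ Q n p ∧ a ∩ AnyH n = {x, y} :=
  let ⟨x, y, ⟨f, g, a1, a2, a3, a4, a5⟩, b, c, k⟩ := h
  ⟨x, y, f, g, adj_of_mem a1 a4.1.1.1 (c b.left).1.1 a4.2,
    adj_of_mem a2 a5.1.1.1 (c b.right).1.1 a5.2, a3, a4, a5, b, c, k⟩

theorem Left.down {Λ : Set X} (h : Left (n + 1) Λ) : Left n Λ := fun f hf k =>
  (h _ (mid_sub (n := n) hf).1 (K_Ph2 hf k).1).mono fun _ z =>
    ⟨⟨z.1.1, (Ph_IPh (mid_sub hf).2 z.1.2).1.1⟩, z.2⟩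

theorem Sta.E_fin {ι : Type} [Finite ι] {a : ι → V → Set X} {E : Set X} (h : Sta n A a E) :
    E.Finite ∧ E ⊆ Vo n := by
  have s : E ⊆ ⋃ p ∈ A, ⋃ i, a i p ∩ AnyH n := fun e he => by
    obtain ⟨p, hp, k⟩ := h.cov he
    exact mem_biUnion hp ((iUnion_inter _ _).le ((h.mt p hp).ge ⟨he, k⟩))
  refine ⟨(h.fin.biUnion fun p hp => finite_iUnion fun i => ?_).subset s,
    s.trans (iUnion₂_subset fun p hp => iUnion_subset fun i => ?_)⟩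
  · rcases h.pc i p hp with e | ⟨x, y, -, -, -, e⟩ <;> simp [e]
  · rcases h.pc i p hp with e | e
    · simp [e]
    · exact e.vo

theorem kids_finite (h : A.Finite) : (kids n A).Finite :=
  (h.biUnion fun p _ => kid_finite p).subset fun _ ⟨_, _, a, b⟩ => mem_biUnion a b

/-- the feet of `p` cover the part of the next thickening on the rim of the cube -/
theorem feet_union (n : ℕ) (p : V) :
    (⋃ f ∈ feet n p, Ps n f) = cube n p ∩ AnyH n ∩ N (n + 1) := by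
  refine subset_antisymm (iUnion₂_subset fun f hf x hx =>
    ⟨⟨hf.1.sub n hx.1, Bx_any hf.1.face n hx.1⟩, hx.2⟩) fun x hx => ?_
  obtain ⟨f, a, b⟩ := face_of_any hx.1.1 hx.1.2 (N_One n hx.2)
  exact mem_biUnion (show f ∈ feet n p from ⟨a, x, b, (N_succ n hx.2).1⟩) ⟨b, hx.2⟩

variable {E : Set X} {l : X → Set X} {e : X}
theorem Lo.sub (h : Lo n E l) (hE : E ⊆ Vo n) (he : e ∈ E) :
    e ∈ l e ∧ l e ⊆ N n ∩ AnyH n ∩ One n ∧ l e ∩ Mm n = {e} ∧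
      ∀ f, IsFace f → ((l e ∩ Bx n f).Nonempty ↔ e ∈ Bx n f) ∧ (e ∈ Bx n f → l e ⊆ Bx n f) := by
  have v := hE he
  obtain ⟨g, hg, k⟩ := exists_face v.1.2 v.2
  obtain ⟨s, i, -⟩ := (h.pop e he g hg k).facts
  have m : e ∈ l e := (i.ge rfl).1
  have o1 : l e ⊆ One n := fun z hz => by
    by_contra c
    exact c ((i.le ⟨hz, s hz, fun d => c d.2⟩ : z = e) ▸ v.2)
  refine ⟨m, fun z hz => ⟨⟨(s hz).2, Bx_any hg n (s hz).1⟩, o1 hz⟩, subset_antisymm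
    (fun z hz => i.le ⟨hz.1, s hz.1, fun d => d.1.2 hz.2⟩) (singleton_subset_iff.2 ⟨m, v.1.1.2⟩),
    fun f hf => ⟨⟨fun ⟨z, a, b⟩ => face_uniq hg hf (s a).1 b (o1 a) ▸ k, fun c => ⟨e, m, c⟩⟩,
      fun c z hz => face_uniq hg hf k c v.2 ▸ (s hz).1⟩⟩

theorem Lo.in_cube (h : Lo n E l) (hE : E ⊆ Vo n) (p : V) :
    (⋃ e ∈ E, l e) ∩ cube n p = ⋃ e ∈ E ∩ cube n p, l e := by
  have key : ∀ e ∈ E, ∀ z ∈ l e, z ∈ cube n p ↔ e ∈ cube n p := fun e he z hz => by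
    obtain ⟨-, s, -, t⟩ := h.sub hE he
    obtain ⟨g, hg, k⟩ := exists_face (hE he).1.2 (hE he).2
    have kz := (t g hg).2 k hz
    exact ⟨fun c => (adj_of_mem hg kz c (s hz).2).sub n k,
      fun c => (adj_of_mem hg k c (hE he).2).sub n kz⟩
  ext z
  simp only [mem_inter_iff, mem_iUnion, exists_prop]
  exact ⟨fun ⟨⟨e, a, b⟩, c⟩ => ⟨e, ⟨a, (key e a z b).1 c⟩, b⟩,
    fun ⟨e, ⟨a, c⟩, b⟩ => ⟨⟨e, a, b⟩, (key e a z b).2 c⟩⟩

theorem Lo.up (h : Lo (n + 1) E l) (hE : E ⊆ Vo (n + 1)) (p : V) :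
    (⋃ e ∈ E, l e) ∩ cube n p ∩ AnyH n = ⋃ e ∈ E ∩ cube n p ∩ AnyH n, l e := by
  have key : ∀ e ∈ E, ∀ z ∈ l e, z ∈ cube n p ∧ z ∈ AnyH n ↔ e ∈ cube n p ∧ e ∈ AnyH n :=
    fun e he z hz => by
      obtain ⟨-, s, -, t⟩ := h.sub hE he
      obtain ⟨g, hg, k⟩ := exists_face (hE he).1.2 (hE he).2
      have kz := (t g hg).2 k hz
      exact ⟨fun c => ⟨face_cube hg kz (s hz).2 c.1 k, face_any hg kz (s hz).2 c.2 k⟩,
        fun c => ⟨face_cube hg k (hE he).2 c.1 kz, face_any hg k (hE he).2 c.2 kz⟩⟩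
  ext z
  simp only [mem_inter_iff, mem_iUnion, exists_prop, and_assoc]
  exact ⟨fun ⟨⟨e, a, b⟩, c⟩ => ⟨e, a, ((key e a z b).1 c).1, ((key e a z b).1 c).2, b⟩,
    fun ⟨e, a, c, d, b⟩ => ⟨⟨e, a, b⟩, (key e a z b).2 ⟨c, d⟩⟩⟩


end Pool.Agent.Lib.MP_b7d179_gt.M
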