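import Pool.Agent.Lib.MP_b7d179_gt.M.Chk
import Pool.Agent.Lib.MP_b7d179_gt.M.Eqv
import Pool.Agent.Lib.MP_b7d179_gt.M.Lat2

namespace Pool.Agent.Lib.MP_b7d179_gt.M

open Set C

variable {n : ℕ} {p : V} {a b c : ℕ}

theorem W_nz (h : nz a = true) : (W n p a).Nonempty := W_ne n p fun e => by
  rw [nz, dis, e] at h
  cases h
theorem W_an (n : ℕ) (p : V) (a b : ℕ) : W n p (an a b) = W n p a ∩ W n p b := (W_rl n p).and a b
theorem W_un (n : ℕ) (p : V) (a b : ℕ) : W n p (un a b) = W n p a ∪ W n p b := (W_rl n p).or a b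
theorem W_df (n : ℕ) (p : V) (a b : ℕ) : W n p (df a b) = W n p a \ W n p b := (W_rl n p).df a b
theorem eqb_eq (h : eqb a b = true) : a = b := Nat.eq_of_beq_eq_true h
theorem W_free (h : dis a (mK (ty n p)) = true) : Disjoint (W n p a) K :=
  disjoint_left.2 fun _ hx hk =>
    disjoint_left.1 ((W_rl n p).dis h) hx (K_mK n p ⟨hk, W_cube n p a hx⟩)
theorem W_a0 (n : ℕ) (p : V) : W n p any0 = cube n p ∩ AnyH n := W_any0 n p
theorem W_a1 (n : ℕ) (p : V) : W n p any1 = cube n p ∩ AnyH (n + 1) := W_any1 n p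
theorem W_o0 (n : ℕ) (p : V) : W n p one0 = cube n p ∩ One n := W_one0 n p
theorem W_o1 (n : ℕ) (p : V) : W n p one1 = cube n p ∩ One (n + 1) := W_one1 n p
theorem W_V1 (n : ℕ) (p : V) : W n p (mV1 (ty n p)) = cube n p ∩ N (n + 1) ∩ Mm (n + 1) := by
  rw [mV1, W_an, W_N1, W_M1]
  ext x
  simp only [mem_inter_iff]
  tauto
theorem W_JS (n : ℕ) (p : V) : W n p (mJS (ty n p)) = jackS n p := by
  rw [mJS, W_an, W_un, W_N1, W_M1, W_a0]
  ext x
  simp only [jackS, jack, mem_inter_iff, mem_union]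
  tauto
theorem W_PS (n : ℕ) (p : V) : W n p (mPS (ty n p)) = bpS n p := by
  rw [mPS, W_an, W_un, W_Nb, W_Mb, W_a0]
  ext x
  simp only [bpS, bp, mem_inter_iff, mem_union]
  tauto
theorem W_BS (n : ℕ) (p : V) : W n p (mBS (ty n p)) = bodyS n p := by
  rw [mBS, W_an, W_un, W_N0, W_M0, W_a0]
  ext x
  simp only [bodyS, body, mem_inter_iff, mem_union]
  tauto
theorem W_Q (n : ℕ) (p : V) : W n p (mQ (ty n p)) = Q n p := by
  rw [mQ, W_an, W_N0, W_M0]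
  ext x
  simp only [Q, mem_inter_iff]
  tauto
theorem W_Qp (n : ℕ) (p : V) : W n p (mQp (ty n p)) = Qp n p := by
  rw [mQp, W_an, W_Nb, W_Mb]
  ext x
  simp only [Qp, mem_inter_iff]
  tauto
theorem W_Ft (n : ℕ) (p : V) : W n p (mFt (ty n p)) = cube n p ∩ AnyH n ∩ N (n + 1) := by
  rw [mFt, W_an, W_a0, W_N1]
  ext x
  simp only [mem_inter_iff]
  tauto
theorem dirs_codes (h : c ∈ dirs) : c ∈ codes 3 ∧ 3 * c ∈ codes 7 ∧ lndC c ∈ codes 7 := by
  revert c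
  decide +kernel
theorem W_Ph (n : ℕ) (p : V) (h : c ∈ dirs) : W n p (mPh (ty n p) c) = Ph n (fc n p c) := by
  rw [mPh, W_an, W_fc n p (dirs_codes h).1, W_N0, ← inter_assoc,
    inter_eq_left.2 ((adj_fc n p h).sub n), Ph]
theorem W_Ps (n : ℕ) (p : V) (h : c ∈ dirs) : W n p (mPs (ty n p) c) = Ps n (fc n p c) := by
  rw [mPs, W_an, W_fc n p (dirs_codes h).1, W_N1, ← inter_assoc,
    inter_eq_left.2 ((adj_fc n p h).sub n), Ps]
theorem W_Og (n : ℕ) (p : V) (h : c ∈ dirs) : W n p (mOg (ty n p) c) = Og n (fc n p c) := by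
  rw [mOg, W_an, W_an, W_Ph n p h, W_M0, W_o0]
  have s : Ph n (fc n p c) ⊆ cube n p := inter_subset_left.trans ((adj_fc n p h).sub n)
  ext x
  exact ⟨fun k => ⟨⟨k.1.1, k.1.2.2⟩, k.2.2⟩, fun k => ⟨⟨k.1.1, s k.1.1, k.1.2⟩, s k.1.1, k.2⟩⟩
theorem W_mid (n : ℕ) (p : V) (h : c ∈ dirs) :
    W n p (mSb (3 * c)) = Bx (n + 1) (mid (fc n p c)) := by
  rw [W_sb n p (dirs_codes h).2.1, mid_fc n p h]
theorem W_U (n : ℕ) (p : V) {A : List ℕ} (hA : ∀ c ∈ A, c ∈ codes 3) :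
    W n p (mU A) = CU (n + 1) (chS n p A) := by
  ext x
  rw [br_U n p hA]
  exact ⟨fun ⟨c, hc, k⟩ => ⟨_, ⟨c, hc, rfl⟩, k⟩, fun ⟨_, ⟨c, hc, e⟩, k⟩ => ⟨c, hc, e ▸ k⟩⟩
theorem chS_kid {A : List ℕ} (hA : ∀ c ∈ A, c ∈ codes 3) : ∀ q ∈ chS n p A, Kid p q :=
  fun _ ⟨c, hc, e⟩ => e ▸ ch_kid n p (hA c hc)
theorem chS_cons (n : ℕ) (p : V) (c : ℕ) (A : List ℕ) :
    chS n p (c :: A) = insert (ch n p c) (chS n p A) := by
  ext q
  simp [chS]
theorem chS_single (n : ℕ) (p : V) (c : ℕ) : chS n p [c] = {ch n p c} := by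
  ext q
  simp [chS]
theorem chS_disj {A B : List ℕ} (hA : ∀ c ∈ A, c ∈ codes 3) (hB : ∀ c ∈ B, c ∈ codes 3)
    (h : disL A B = true) : Disjoint (chS n p A) (chS n p B) := by
  refine disjoint_left.2 fun q ⟨c, hc, e⟩ ⟨d, hd, e'⟩ => ?_
  have k := List.all_eq_true.1 h c hc
  rw [ch_inj (hA c hc) (hB d hd) (e.symm.trans e'), List.elem_eq_true_of_mem hd] at k
  cases k
theorem chS_not {A : List ℕ} (hA : ∀ c ∈ A, c ∈ codes 3) (hc : c ∈ codes 3)
    (h : A.elem c = false) : ch n p c ∉ chS n p A := fun ⟨d, hd, e⟩ => by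
  rw [ch_inj hc (hA d hd) e, List.elem_eq_true_of_mem hd] at h
  cases h
theorem sb_inj (hc : a ∈ codes 7) (hd : b ∈ codes 7) (h : sb n p a = sb n p b) : a = b := by
  have k : ∀ i, dg a i = dg b i := fun i => by
    have a := congrFun h i
    rcases win_o n (p i) with e | e <;> simp only [sb, e] at a <;> omega
  obtain ⟨d, h1, rfl⟩ := br_codes.1 hc
  obtain ⟨e, h2, rfl⟩ := br_codes.1 hd
  simp only [br_enc fun i => (h1 i).trans (by norm_num : 7 < 8),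
    br_enc fun i => (h2 i).trans (by norm_num : 7 < 8)] at k
  rw [k 0, k 1, k 2]
theorem evA_ok {t : TA} {m u v : ℕ} (n : ℕ) (p : V) (e : atoms.evA t = some (m, u, v)) :
    ∃ x y, Arc (W n p m) x y ∧ W n p u = {x} ∧ W n p v = {y} := (atoms_ok n p).evA glues e
theorem evD_ok {t : TD} {m r : ℕ} (n : ℕ) (p : V) (e : atoms.evD t = some (m, r)) :
    Disc (W n p m) (W n p r) := (atoms_ok n p).evD glues e
theorem evB_ok {t : TB} {m r : ℕ} (n : ℕ) (p : V) (e : atoms.evB t = some (m, r)) :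
    Ball (W n p m) (W n p r) := (atoms_ok n p).evB glues e
theorem chkA_chain {B0 S0 y : ℕ} (l : List (ℕ × TD)) : ∀ B S B' S' : ℕ,
    Eqv (W n p B) (W n p S) (W n p B0) (W n p S0) (W n p y) →
    chainGo (mK (ty n p)) y B S l = some (B', S') →
      Eqv (W n p B') (W n p S') (W n p B0) (W n p S0) (W n p y) := by
  induction l with
  | nil =>
    intro B S B' S' h e
    simp only [chainGo, Option.some.injEq, Prod.mk.injEq] at e
    rwa [← e.1, ← e.2]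
  | cons a l ih =>
    obtain ⟨w, t⟩ := a
    intro B S B' S' h e
    simp only [chainGo] at e
    split at e
    · rename_i m r d c e1 e2
      split at e
      · rename_i k
        simp only [Bool.and_eq_true] at k
        obtain ⟨⟨⟨⟨k1, k2⟩, k3⟩, k4⟩, k5⟩ := k
        refine ih _ _ _ _ (Eqv.trans (Eqv.add ⟨evD_ok n p e2, ?_, (W_rl n p).sub k2,
          (W_rl n p).sub k3, W_un n p B m, ?_⟩ h.1 ((atoms_ok n p).h3 _ _ _ e1) (W_free k4)
          ((W_rl n p).sub k5) (h.2.1.trans h.1.rim_sub)) h) e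
        · rw [← W_an, eqb_eq k1]
        · rw [W_df, W_un, W_df]
      · cases e
    · cases e
theorem chkEqv_ok {B S B' S' y : ℕ} {t : TC} (h : chkEqv (ty n p) B S B' S' y t = true) :
    Eqv (W n p B) (W n p S) (W n p B') (W n p S') (W n p y) := by
  unfold chkEqv at h
  split at h
  · rename_i b s b2 s2 e1 e2
    simp only [Bool.and_eq_true] at h
    obtain ⟨⟨⟨⟨h1, h2⟩, h3⟩, h4⟩, h5⟩ := h
    rw [← eqb_eq h4, ← eqb_eq h5]
    refine chkA_chain _ _ _ _ _ (Eqv.refl ?_ ((W_rl n p).sub h3)) e2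
    rw [← eqb_eq h1, ← eqb_eq h2]
    exact evB_ok n p e1
  · cases h
theorem chkShell_ok {t : TB × TD} (h : chkShell (ty n p) t = true) : ∃ W SW,
    Gl (body n p) (bodyS n p) (bp n p) (bpS n p) W SW (Qp n p) (Qp n p ∩ AnyH n) ∧ Ball W SW ∧
      Disjoint W K ∧ bodyS n p ∩ W = Osh n p ∧ Disjoint (Q n p) (Nb n) := by
  unfold chkShell at h
  split at h
  · rename_i w sw d c e1 e2
    simp only [Bool.and_eq_true] at h
    obtain ⟨⟨⟨⟨⟨⟨⟨⟨⟨h1, h2⟩, h3⟩, h4⟩, h5⟩, h6⟩, h7⟩, h8⟩, h9⟩, h10⟩ := h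
    have d1 : W n p d = Qp n p := by rw [eqb_eq h1, W_Qp]
    have c1 : W n p c = Qp n p ∩ AnyH n := by
      rw [eqb_eq h2, W_an, W_Qp, W_a0, ← inter_assoc,
        inter_eq_left.2 (show Qp n p ⊆ cube n p from fun _ k => k.1.1)]
    refine ⟨W n p w, W n p sw, ⟨c1 ▸ d1 ▸ evD_ok n p e2, ?_, ?_, d1 ▸ (W_rl n p).sub h5, ?_, ?_⟩,
      evB_ok n p e1, W_free h8, ?_, ?_⟩
    · rw [← d1, ← eqb_eq h3, W_an, W_Nb, bp]
    · rw [← d1, ← W_PS]
      exact (W_rl n p).sub h4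
    · rw [body, ← W_N0, eqb_eq h6, W_un, W_Nb, bp]
    · rw [← c1, ← d1, ← W_BS, eqb_eq h7, W_df, W_un, W_df, W_PS]
    · rw [← W_BS, ← W_an, eqb_eq h9, W_un, W_an, W_an, W_Q, W_a0, W_N0, W_Mb, Osh]
      congr 1
      ext x
      simp only [mem_inter_iff]
      tauto
    · have k := (W_rl n p).dis h10
      rw [W_Q, W_Nb] at k
      exact disjoint_left.2 fun x hx hn => disjoint_left.1 k hx ⟨hx.1.1, hn⟩
  · cases h

end Pool.Agent.Lib.MP_b7d179_gt.M
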