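import Pool.Agent.Lib.MP_b7d179_gt.M.ChkA

/-! Soundness of the checks for glued bodies, cut discs, lanes and faces. -/

namespace Pool.Agent.Lib.MP_b7d179_gt.M

open Set C

variable {n : ℕ} {p : V} {c d : ℕ}

theorem chkb_cut (a : ℕ) (S : Set X) : W n p a ∩ (cube n p ∩ S) = W n p a ∩ S :=
  Set.ext fun _ => ⟨fun h => ⟨h.1, h.2.2⟩, fun h => ⟨h.1, h.1.1, h.2⟩⟩

theorem chkb_eq {a b : ℕ} (n : ℕ) (p : V) (h : eqb a b = true) : W n p a = W n p b :=
  congrArg (W n p) (eqb_eq h)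

theorem chkb_bA {A : List ℕ} (hA : ∀ c ∈ A, c ∈ codes 3) :
    W n p (bA (ty n p) A) = BA (n + 1) (chS n p A) := W_BA n p hA

theorem chkb_sA {A : List ℕ} (hA : ∀ c ∈ A, c ∈ codes 3) :
    W n p (sA (ty n p) A) = SA (n + 1) (chS n p A) := W_SA n p hA

theorem chkb_body (hc : c ∈ codes 3) : W n p (bA (ty n p) [c]) = body (n + 1) (ch n p c) := by
  rw [chkb_bA (by simpa using hc), chS_single, BA_single]

theorem chkb_bodyS (hc : c ∈ codes 3) : W n p (sA (ty n p) [c]) = bodyS (n + 1) (ch n p c) := by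
  rw [chkb_sA (by simpa using hc), chS_single, SA_single]

theorem chkb_one (a : ℕ) : W n p (an a one1) = W n p a ∩ One (n + 1) := by
  rw [W_an, W_o1, chkb_cut]

theorem chkb_M1 (a : ℕ) : W n p (an a (mM1 (ty n p))) = W n p a ∩ Mm (n + 1) := by
  rw [W_an, W_M1, chkb_cut]

theorem chkb_N1 (a : ℕ) : W n p (an a (mN1 (ty n p))) = W n p a ∩ N (n + 1) := by
  rw [W_an, W_N1, chkb_cut]

theorem chkb_ins (n : ℕ) (A : Set V) (q : V) : BA n (insert q A) = BA n A ∪ body n q :=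
  Set.ext fun _ => ⟨fun ⟨a, r, e, b⟩ => e.elim (fun e => Or.inr ⟨e ▸ b, a⟩) fun e => Or.inl ⟨a, r, e, b⟩,
    fun h => h.elim (fun ⟨a, r, e, b⟩ => ⟨a, r, Or.inr e, b⟩) fun h => ⟨h.2, q, Or.inl rfl, h.1⟩⟩

theorem chkb_go (l : List (ℕ × TD)) : ∀ A A' : List ℕ, Bld (n + 1) (chS n p A) →
    (∀ c ∈ A, c ∈ codes 3) → bldGo (ty n p) A l = some A' →
    Bld (n + 1) (chS n p A') ∧ ∀ c ∈ A', c ∈ codes 3 := by
  induction l with
  | nil =>
    intro A A' h hA e
    simp only [bldGo, Option.some.injEq] at e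
    exact e ▸ ⟨h, hA⟩
  | cons a l ih =>
    obtain ⟨d, t⟩ := a
    intro A A' h hA e
    simp only [bldGo] at e
    split at e
    · rename_i D c e1
      split at e
      · rename_i k
        simp only [Bool.and_eq_true, Bool.not_eq_true'] at k
        obtain ⟨⟨⟨⟨⟨⟨⟨k1, k2⟩, k3⟩, k4⟩, k5⟩, k6⟩, k7⟩, k8⟩ := k
        have hd : d ∈ codes 3 := List.mem_of_elem_eq_true k1
        have hA' : ∀ c ∈ d :: A, c ∈ codes 3 := List.forall_mem_cons.2 ⟨hd, hA⟩
        refine ih _ _ ?_ hA' e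
        have a3 := chkb_eq n p k3
        have a4 := (W_rl n p).sub k4
        have a5 := (W_rl n p).sub k5
        have a6 := chkb_eq n p k6
        have a7 := W_nz (n := n) (p := p) k7
        have a8 := chkb_eq n p k8
        rw [W_an, chkb_bA hA, chkb_body hd] at a3
        rw [chkb_sA hA] at a4
        rw [chkb_bodyS hd] at a5
        rw [W_df, W_df, W_un, chkb_sA hA', chkb_sA hA, chkb_bodyS hd, chS_cons] at a6
        rw [chkb_one] at a7
        rw [chkb_one, chkb_one, chkb_M1] at a8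
        rw [chS_cons]
        exact h.add (chS_not hA hd k2) ⟨evD_ok n p e1, a3, a4, a5, chkb_ins .., a6⟩ a7 a8
      · cases e
    · cases e

theorem bld_ok {t : TL} {A : List ℕ} (h : bld (ty n p) t = some A) :
    Bld (n + 1) (chS n p A) ∧ ∀ c ∈ A, c ∈ codes 3 := by
  rw [bld] at h
  split at h
  · rename_i k
    simp only [Bool.and_eq_true] at k
    have hc : t.1 ∈ codes 3 := List.mem_of_elem_eq_true k.1
    refine chkb_go _ _ _ ?_ (by simpa using hc) h
    rw [chS_single]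
    exact .one (chkb_body (n := n) (p := p) hc ▸ W_nz k.2)
  · cases h

theorem chkJack_ok {t : TL} (h : chkJack (ty n p) t = true) : ∃ A, Bld (n + 1) A ∧
    (∀ q ∈ A, Kid p q) ∧ BA (n + 1) A = jack n p ∧ SA (n + 1) A = jackS n p := by
  rw [chkJack] at h
  split at h
  · rename_i A e
    simp only [Bool.and_eq_true] at h
    obtain ⟨a, b⟩ := bld_ok e
    exact ⟨_, a, chS_kid b, by rw [← chkb_bA b, chkb_eq n p h.1, W_N1]; rfl,
      by rw [← chkb_sA b, chkb_eq n p h.2, W_JS]⟩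
  · cases h

theorem cutf_ok {t : TU} {E e : ℕ} (h : cutf (ty n p) t = some (E, e)) :
    Cutf (n + 1) (jack n p) (jackS n p) (W n p E) (W n p e) := by
  rw [cutf] at h
  split at h
  · rename_i L R E' c D c' e1 e2 e3 e4
    split at h
    · rename_i k
      simp only [Bool.and_eq_true] at k
      obtain ⟨⟨⟨⟨⟨⟨⟨⟨⟨k1, k2⟩, k3⟩, k4⟩, k5⟩, k6⟩, k7⟩, k8⟩, k9⟩, k10⟩ := k
      simp only [Option.some.injEq, Prod.mk.injEq] at h
      obtain ⟨rfl, rfl⟩ := h
      obtain rfl := eqb_eq k2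
      obtain ⟨bL, hL⟩ := bld_ok e1
      obtain ⟨bR, hR⟩ := bld_ok e2
      have a4 := W_nz (n := n) (p := p) k4
      have a5 := chkb_eq n p k5
      have a6 := chkb_eq n p k6
      have a7 := chkb_eq n p k7
      have a8 := chkb_eq n p k8
      have a9 := chkb_eq n p k9
      have a10 := chkb_eq n p k10
      rw [chkb_one] at a4
      rw [W_an, chkb_bA hL, W_JS] at a5
      rw [W_an, chkb_bA hL, chkb_bA hR] at a6
      rw [W_an, W_JS] at a7
      rw [W_un, chkb_bA hL, chkb_bA hR, W_N1] at a8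
      rw [W_un, chkb_sA hL] at a9
      rw [W_un, W_df, chkb_sA hR, W_JS] at a10
      exact ⟨_, _, _, bL, bR, chS_disj hL hR k1, evD_ok n p e3, evD_ok n p e4, W_free k3, a4, a5, a6,
        a7, a8, a9, a10⟩
    · cases h
  · cases h

theorem chkBud_ok {t : TU} (h : chkBud (ty n p) t = true) :
    ∃ T C, Disjoint T K ∧ Cutf (n + 1) (jack n p) (jackS n p) T C := by
  rw [chkBud] at h
  split at h
  · rename_i E e k
    exact ⟨_, _, W_free h, cutf_ok k⟩
  · cases h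

theorem chkLane_ok {t : TD × TU} (hc : c ∈ dirs) (hd : d ∈ dirs)
    (h : chkLane (ty n p) c d t = true) : Lane n p (fc n p c) (fc n p d) := by
  rw [chkLane] at h
  split at h
  · rename_i Z z E e e1 e2
    simp only [Bool.and_eq_true] at h
    obtain ⟨⟨⟨⟨k1, k2⟩, k3⟩, k4⟩, k5⟩ := h
    have m : W n p (mM2 c d) = Bx (n + 1) (mid (fc n p c)) ∪ Bx (n + 1) (mid (fc n p d)) := by
      rw [mM2, W_un, W_mid n p hc, W_mid n p hd]
    have a1 := (W_rl n p).sub k1
    have a2 := (W_rl n p).sub k2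
    have a3 := (W_rl n p).sub k3
    have a4 := (W_rl n p).sub k4
    have a5 := (W_rl n p).sub k5
    rw [W_top] at a1
    rw [W_an, W_top, m] at a2
    rw [W_df, W_df] at a3
    rw [chkb_one, chkb_N1, m, W_df, union_inter_distrib_right] at a4
    rw [W_an, m] at a5
    exact ⟨_, _, _, _, evD_ok n p e1, a1, a2, a3, a4,
      fun x hx => a5 ⟨K_mK n p ⟨hx.1, hx.2.1⟩, hx.2⟩, cutf_ok e2⟩
  · cases h

theorem Lane.symm {f g : V} (h : Lane n p f g) : Lane n p g f := by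
  obtain ⟨Z, z, T, C, a, b, c, d, e, k, l⟩ := h
  exact ⟨Z, z, T, C, a, b, by rwa [union_comm], d, by rwa [union_comm], by rwa [union_comm], l⟩

theorem chkFace_ok {t : TD × TD × TA} (hc : c ∈ dirs) (h : chkFace (ty n p) c t = true) :
    Disc (Ph n (fc n p c)) (Ph n (fc n p c) \ IPh n (fc n p c)) ∧
      Disc (Ps n (fc n p c)) (PsC n (fc n p c)) ∧ ∃ a x y, Arc a x y ∧ a ⊆ PsC n (fc n p c) ∧
        Og (n + 1) (land n (fc n p c)) = a \ {x, y} := by
  rw [chkFace] at h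
  split at h
  · rename_i P r P' r' a u v e1 e2 e3
    simp only [Bool.and_eq_true] at h
    obtain ⟨⟨⟨⟨⟨k1, k2⟩, k3⟩, k4⟩, k5⟩, k6⟩ := h
    have a1 := chkb_eq n p k1
    have a2 := chkb_eq n p k2
    have a3 := chkb_eq n p k3
    have a4 := chkb_eq n p k4
    have a5 := (W_rl n p).sub k5
    have a6 := chkb_eq n p k6
    have i : W n p (an (df (mPh (ty n p) c) (mM 4 (ty n p))) one0) = IPh n (fc n p c) := by
      rw [W_an, W_o0, chkb_cut, W_df, W_M0, W_Ph n p hc]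
      exact Set.ext fun x => ⟨fun h => ⟨⟨h.1.1, fun k => h.1.2 ⟨(adj_fc n p hc).sub n h.1.1.1, k⟩⟩, h.2⟩,
        fun h => ⟨⟨h.1.1, fun k => h.1.2 k.2⟩, h.2⟩⟩
    rw [W_Ph n p hc] at a1
    rw [W_df, i, W_Ph n p hc] at a2
    rw [W_Ps n p hc] at a3
    rw [chkb_M1, W_Ps n p hc] at a4
    obtain ⟨x, y, b, hu, hv⟩ := evA_ok n p e3
    rw [chkb_one, W_an, W_V1, inter_assoc (cube n p), chkb_cut, W_sb n p (dirs_codes hc).2.2,
      ← land_fc n p hc, W_df, W_un, hu, hv, ← inter_assoc] at a6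
    have d1 := evD_ok n p e1
    have d2 := evD_ok n p e2
    rw [a1, a2] at d1
    rw [a3, a4] at d2
    exact ⟨d1, d2, _, x, y, b, a5.trans a4.le, a6⟩
  · cases h

end Pool.Agent.Lib.MP_b7d179_gt.M
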