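import Pool.Agent.Lib.MP_b7d179_gt.M.ChkA

/-! Soundness of the checks for cell structures, quadrilaterals and strips. -/

namespace Pool.Agent.Lib.MP_b7d179_gt.M

open Set C

variable {n : ℕ} {p : V} {c d : ℕ}

theorem chkC_sub {a b : ℕ} (n : ℕ) (p : V) (h : sub a b = true) : W n p a ⊆ W n p b :=
  (W_rl n p).sub h

theorem chkC_dis {a b : ℕ} (n : ℕ) (p : V) (h : dis a b = true) :
    Disjoint (W n p a) (W n p b) := (W_rl n p).dis h

theorem chkC_o1 {a : ℕ} {x : X} (h : x ∈ W n p a) (h1 : x ∈ One (n + 1)) :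
    x ∈ W n p (an a one1) := by
  rw [W_an, W_o1]
  exact ⟨h, W_cube n p a h, h1⟩

theorem chkC_open {g u v : ℕ} {x y : X} (hu : W n p u = {x}) (hv : W n p v = {y}) :
    W n p (df g (un u v)) = W n p g \ {x, y} := by
  rw [W_df, W_un, hu, hv]
  rfl

theorem glu_ok {D c E e g o : ℕ} {t : TA} (h : glu D c E e t = some (g, o)) :
    Glu (n + 1) (W n p D) (W n p c) (W n p E) (W n p e) (W n p g) (W n p (un D E)) (W n p o) := by
  unfold glu at h
  split at h
  · rename_i g' u v ev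
    split_ifs at h with k
    simp only [Option.some.injEq, Prod.mk.injEq] at h
    obtain ⟨rfl, rfl⟩ := h
    simp only [Bool.and_eq_true] at k
    obtain ⟨⟨⟨k1, k2⟩, k3⟩, k4⟩ := k
    obtain ⟨x, y, a, hu, hv⟩ := evA_ok n p ev
    have k5 := chkC_dis n p k4
    rw [W_un, W_o1, hu, hv] at k5
    have cx : x ∈ cube n p := W_cube n p u (hu.ge rfl)
    have cy : y ∈ cube n p := W_cube n p v (hv.ge rfl)
    refine ⟨⟨x, y, a, fun m => disjoint_left.1 k5 (Or.inl rfl) ⟨cx, m⟩,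
      fun m => disjoint_left.1 k5 (Or.inr rfl) ⟨cy, m⟩, ?_⟩, ?_, chkC_sub n p k2, chkC_sub n p k3,
      W_un n p D E⟩
    · rw [W_df, W_un, chkC_open hu hv]
    · rw [← W_an, eqb_eq k1]
  · cases h

theorem cell_ok {t : TD} {E e : ℕ} (h : cell (ty n p) c t = some (E, e)) :
    c ∈ codes 3 ∧ Cel (n + 1) (W n p E) (W n p e) {ch n p c} := by
  unfold cell at h
  split at h
  · rename_i E' e' ev
    split_ifs at h with k
    simp only [Option.some.injEq, Prod.mk.injEq] at h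
    obtain ⟨rfl, rfl⟩ := h
    simp only [Bool.and_eq_true] at k
    obtain ⟨⟨k1, k2⟩, k3⟩ := k
    have hc : c ∈ codes 3 := List.mem_of_elem_eq_true k1
    have k4 := chkC_sub n p k2
    have k5 := chkC_sub n p k3
    rw [W_an, W_ch n p hc, W_V1] at k4
    rw [W_an, W_a1] at k5
    exact ⟨hc, .one (evD_ok n p ev) (fun x m => ⟨⟨(k4 m).1, (k4 m).2.1.2⟩, (k4 m).2.2⟩)
      fun x m => k5 ⟨m.1, W_cube n p _ m.1, m.2⟩⟩
  · cases h

theorem chkC_go (l : List (ℕ × TD × TA)) : ∀ {A : List ℕ} {D c : ℕ} {A' : List ℕ} {Z z : ℕ},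
    Cel (n + 1) (W n p D) (W n p c) (chS n p A) → (∀ c ∈ A, c ∈ codes 3) →
    celGo (ty n p) A D c l = some (A', Z, z) →
    Cel (n + 1) (W n p Z) (W n p z) (chS n p A') ∧ ∀ c ∈ A', c ∈ codes 3 := by
  induction l with
  | nil =>
    intro A D c A' Z z h1 h2 h
    simp only [celGo, Option.some.injEq, Prod.mk.injEq] at h
    obtain ⟨rfl, rfl, rfl⟩ := h
    exact ⟨h1, h2⟩
  | cons s l ih =>
    intro A D c A' Z z h1 h2 h
    obtain ⟨q, t, a⟩ := s
    unfold celGo at h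
    split at h
    · rename_i E e ec
      split at h
      · rename_i g o eg
        split_ifs at h with k
        simp only [Bool.and_eq_true, Bool.not_eq_true'] at k
        obtain ⟨⟨⟨k1, k2⟩, k3⟩, k4⟩ := k
        obtain ⟨hq, hE⟩ := cell_ok ec
        refine ih ?_ (List.forall_mem_cons.2 ⟨hq, h2⟩) h
        rw [chS_cons, ← singleton_union, union_comm]
        have k5 := chkC_sub n p k3
        have k6 := chkC_sub n p k4
        rw [W_an, W_ch n p hq] at k5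
        rw [W_an, W_U n p h2] at k6
        refine .glue h1 hE (glu_ok eg) ?_ (disjoint_singleton_right.2 (chS_not h2 hq k1)) ?_ ?_
        · obtain ⟨x, m⟩ := W_nz (n := n) (p := p) k2
          rw [W_an, W_o1] at m
          exact ⟨x, m.1, m.2.2⟩
        · rintro x ⟨⟨m1, m2⟩, _, rfl, m3⟩
          exact k5 ⟨chkC_o1 m1 m2, m3⟩
        · rintro x ⟨⟨m1, m2⟩, m3⟩
          exact k6 ⟨chkC_o1 m1 m2, m3⟩
      · cases h
    · cases h

theorem cel_ok {t : TE} {A : List ℕ} {Z z : ℕ} (h : cel (ty n p) t = some (A, Z, z)) :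
    Cel (n + 1) (W n p Z) (W n p z) (chS n p A) ∧ ∀ c ∈ A, c ∈ codes 3 := by
  unfold cel at h
  split at h
  · rename_i E e ec
    obtain ⟨hq, hE⟩ := cell_ok ec
    exact chkC_go _ (chS_single n p _ ▸ hE) (List.forall_mem_singleton.2 hq) h
  · cases h

theorem chkTop_ok {t : TE} (h : chkTop (ty n p) t = true) :
    ∃ z A, Cel (n + 1) (Top n p) z A ∧ (∀ q ∈ A, Kid p q) ∧ Top n p ∩ AnyH n ⊆ z := by
  unfold chkTop at h
  split at h
  · rename_i A Z z ec
    simp only [Bool.and_eq_true] at h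
    obtain ⟨h1, h2⟩ := cel_ok ec
    have k := chkC_sub n p h.2
    rw [W_an, W_top, W_a0] at k
    rw [eqb_eq h.1, W_top] at h1
    exact ⟨_, _, h1, chS_kid h2, fun x m => k ⟨m.1, m.1.1, m.2⟩⟩
  · cases h

theorem quad_ok {t : TQ} {g l g' r : ℕ} (n : ℕ) (p : V) (h : quad t = some (g, l, g', r)) :
    Quad (W n p (un (un (un g l) g') r)) (W n p g) (W n p l) (W n p g') (W n p r) := by
  unfold quad at h
  split at h
  · rename_i g a b l b' d g' d' e r e' a' e1 e2 e3 e4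
    split_ifs at h with k
    simp only [Option.some.injEq, Prod.mk.injEq] at h
    obtain ⟨rfl, rfl, rfl, rfl⟩ := h
    simp only [Bool.and_eq_true] at k
    obtain ⟨⟨⟨⟨⟨⟨⟨⟨⟨k1, k2⟩, k3⟩, k4⟩, k5⟩, k6⟩, k7⟩, k8⟩, k9⟩, k10⟩ := k
    obtain rfl := eqb_eq k1
    obtain rfl := eqb_eq k2
    obtain rfl := eqb_eq k3
    obtain rfl := eqb_eq k4
    obtain ⟨x1, y1, a1, u1, v1⟩ := evA_ok n p e1
    obtain ⟨x2, y2, a2, u2, v2⟩ := evA_ok n p e2
    obtain ⟨x3, y3, a3, u3, v3⟩ := evA_ok n p e3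
    obtain ⟨x4, y4, a4, u4, v4⟩ := evA_ok n p e4
    obtain rfl := singleton_injective (v1.symm.trans u2)
    obtain rfl := singleton_injective (v2.symm.trans u3)
    obtain rfl := singleton_injective (v3.symm.trans u4)
    obtain rfl := singleton_injective (v4.symm.trans u1)
    refine ⟨⟨_, _, _, _, a1, a2, a3, a4, ?_, ?_, ?_, ?_⟩, chkC_dis n p k9, chkC_dis n p k10, ?_⟩
    · rw [← W_an, eqb_eq k5, v1]
    · rw [← W_an, eqb_eq k6, v2]
    · rw [← W_an, eqb_eq k7, v3]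
    · rw [← W_an, eqb_eq k8, v4]
    · rw [W_un, W_un, W_un]
  · cases h

theorem chkTri_ok {t : TE × TE × TE × TA × TA × TQ} (hc : c ∈ dirs) (hd : d ∈ dirs)
    (h : chkTri (ty n p) c d t = true) : Tri n p (fc n p c) (fc n p d) := by
  unfold chkTri at h
  split at h
  · rename_i Al Pl zl Am Pm zm Ar Pr zr g l g' r e1 e2 e3 e4
    split at h
    · rename_i c2 o e5
      split at h
      · rename_i c1 z e6
        simp only [Bool.and_eq_true] at h
        obtain ⟨⟨⟨⟨⟨⟨⟨⟨k1, k2⟩, k3⟩, k4⟩, k5⟩, k6⟩, k7⟩, k8⟩, k9⟩ := h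
        obtain ⟨l1, l2⟩ := cel_ok e1
        obtain ⟨m1, m2⟩ := cel_ok e2
        obtain ⟨r1, r2⟩ := cel_ok e3
        have g2 := glu_ok (n := n) (p := p) e6
        rw [← eqb_eq k3, W_top] at g2
        have q := quad_ok n p e4
        have q1 : W n p g = _ := congrArg (W n p) (eqb_eq k5)
        have q2 : W n p g' = _ := congrArg (W n p) (eqb_eq k6)
        rw [W_an, W_top, W_mid n p hc] at q1
        rw [W_an, W_top, W_mid n p hd] at q2
        rw [← eqb_eq k4, q1, q2] at q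
        have s1 := chkC_sub n p k8
        have s2 := chkC_sub n p k9
        rw [W_an] at s1
        rw [W_an, W_an, W_top, mM2, W_un, W_mid n p hc, W_mid n p hd] at s2
        refine ⟨_, _, _, _, _, _, _, _, _, _, _, _, _, _, _, _, l1, m1, r1, ?_, chS_disj m2 l2 k1,
          chS_disj m2 r2 k2, glu_ok e5, g2, q, chkC_sub n p k7, s1, s2⟩
        rintro q ((m | m) | m)
        · exact chS_kid l2 q m
        · exact chS_kid m2 q m
        · exact chS_kid r2 q m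
      · cases h
    · cases h
  · cases h

theorem Tri.symm {f g : V} (h : Tri n p f g) : Tri n p g f := by
  obtain ⟨Pl, zl, Pm, zm, Pr, zr, c1, c2, O, o, z, l, r, Al, Am, Ar, h1, h2, h3, h4, h5, h6, h7, h8,
    h9, h10, h11, h12⟩ := h
  exact ⟨Pl, zl, Pm, zm, Pr, zr, c1, c2, O, o, z, l, r, Al, Am, Ar, h1, h2, h3, h4, h5, h6, h7, h8,
    h9.rot.rot.rev, h10, h11, union_comm (Bx (n + 1) (mid f)) _ ▸ h12⟩

theorem chkStrip_ok {t : TD × TQ × TA × TA} (hc : c ∈ dirs) (h : chkStrip (ty n p) c t = true) :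
    Strip n (fc n p c) := by
  unfold chkStrip at h
  split at h
  · rename_i O o g l g0 r gm u v gp u' v' e1 e2 e3 e4
    simp only [Bool.and_eq_true] at h
    obtain ⟨⟨⟨⟨⟨⟨⟨k1, k2⟩, k3⟩, k4⟩, k5⟩, k6⟩, k7⟩, k8⟩ := h
    have q := quad_ok n p e2
    rw [← eqb_eq k1] at q
    obtain ⟨m, m', a1, u1, v1⟩ := evA_ok n p e3
    obtain ⟨k, k', a2, u2, v2⟩ := evA_ok n p e4
    have s4 := chkC_sub n p k4
    have s5 := chkC_sub n p k5
    have s6 := chkC_sub n p k6
    have s7 := chkC_sub n p k7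
    have s8 := chkC_sub n p k8
    rw [W_Og n p hc, W_df, W_un] at s4
    rw [W_df, W_an, W_df, W_df, W_Ph n p hc, W_M0, W_Nb, W_o0] at s5
    rw [W_fc n p (dirs_codes hc).1] at s6
    rw [W_df, W_un, W_an, W_an, W_top, W_o1, W_mid n p hc] at s7
    rw [W_un, chkC_open u1 v1, chkC_open u2 v2, W_df, W_an, W_top, W_o1, W_mid n p hc] at s8
    refine ⟨_, _, _, _, _, _, _, _, m, m', k, k', evD_ok n p e1, q, a1, a2, chkC_sub n p k2,
      chkC_sub n p k3, s4, fun x hx => ?_, s6, fun x hx => ?_, fun x hx => ?_⟩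
    · obtain ⟨⟨⟨b1, b2⟩, b3⟩, b4, b5⟩ := s5 hx
      exact ⟨⟨⟨b1, fun z => b2 ⟨b4, z⟩⟩, fun z => b3 ⟨b4, z⟩⟩, b5⟩
    · obtain ⟨⟨b1, b2⟩, b3⟩ := s7 hx
      exact ⟨⟨b1.2, b2.2⟩, b3⟩
    · obtain ⟨⟨b1, b2⟩, b3⟩ := s8 hx
      exact ⟨⟨b1.2, b2.2⟩, b3⟩
  · cases h

end Pool.Agent.Lib.MP_b7d179_gt.M
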