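import Pool.Agent.Lib.MP_b7d179_gt.M.Lat2

/-! Splitting systems of crosscuts along a cell structure. -/

namespace Pool.Agent.Lib.MP_b7d179_gt.M

open Set

variable {n : ℕ} {D c E e g O o Z z : Set X} {A : Set V} {ι : Type} {s : Set ι} {a : ι → Set X}
  {x y : ι → X}

theorem Glu.cut (h : Glu n D c E e g O o) (hD : Disc D c) (hE : Disc E e) :
    ∃ u v p q, Cut O o u v g D E p q ∧ c = u ∪ g ∧ e = v ∪ g ∧ p ∉ One n ∧ q ∉ One n := by
  obtain ⟨p, q, hg, hp, hq, ho⟩ := h.ex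
  obtain ⟨u, t1⟩ := hD.two_of_arc hg h.s1
  obtain ⟨v, t2⟩ := hE.two_of_arc hg h.s2
  have k := hD.glue hE t1.symm t2.symm h.i
  have e1 : o = u ∪ v := by
    rw [ho, ← t1.union, ← t2.union]
    ext w
    constructor
    · rintro ⟨h1, h2⟩
      by_cases wg : w ∈ g
      · exact Or.inl (t1.a2.ends (by by_contra hn; exact h2 ⟨wg, hn⟩))
      · rcases h1 with (h1 | h1) | (h1 | h1)
        exacts [(wg h1).elim, Or.inl h1, (wg h1).elim, Or.inr h1]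
    · rintro (h1 | h1)
      · exact ⟨Or.inl (Or.inr h1), fun m => m.2 (t1.inter ▸ ⟨m.1, h1⟩)⟩
      · exact ⟨Or.inr (Or.inr h1), fun m => m.2 (t2.inter ▸ ⟨m.1, h1⟩)⟩
  refine ⟨u, v, p, q, ?_, t1.symm.union.symm, t2.symm.union.symm, hp, hq⟩
  rw [h.u, e1]
  exact k

theorem Glu.disc (h : Glu n D c E e g O o) (hD : Disc D c) (hE : Disc E e) : Disc O o := by
  obtain ⟨u, v, p, q, k, -⟩ := h.cut hD hE
  exact k.disc

theorem Cel.disc (h : Cel n Z z A) : Disc Z z := by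
  induction h with
  | one h _ _ => exact h
  | glue _ _ h _ _ _ _ i1 i2 => exact h.disc i1 i2

theorem Cel.sub (h : Cel n Z z A) : ∀ w ∈ Z, ∃ q ∈ A, w ∈ Q n q := by
  induction h with
  | one _ h _ => exact fun w hw => ⟨_, rfl, h hw⟩
  | glue _ _ h _ _ _ _ i1 i2 =>
    intro w hw
    rw [h.u] at hw
    rcases hw with hw | hw
    · obtain ⟨q, hq, m⟩ := i1 w hw
      exact ⟨q, Or.inl hq, m⟩
    · obtain ⟨q, hq, m⟩ := i2 w hw
      exact ⟨q, Or.inr hq, m⟩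

lemma spl_off {u v : Set X} {p q w : X} (k : Cut O o u v g D E p q) (hp : p ∉ One n)
    (hq : q ∉ One n) (ho : w ∈ o) (h1 : w ∈ One n) : w ∉ g := fun m => by
  rcases k.cc.inter.le ⟨m, ho⟩ with rfl | rfl
  exacts [hp h1, hq h1]

/-- no arc crosses the cut -/
theorem split0 (h : Glu n D c E e g O o) (hD : Disc D c) (hE : Disc E e) (hs : Sys O o s a x y)
    (h1 : ∀ i ∈ s, x i ∈ One n ∧ y i ∈ One n) :
    ∃ F, Sup F O o ∧ ∀ i ∈ s, (x i ∈ c → y i ∈ c → Cc D c (F '' a i) (x i) (y i)) ∧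
      (x i ∈ e → y i ∈ e → Cc E e (F '' a i) (x i) (y i)) := by
  obtain ⟨u, v, p, q, k, rfl, rfl, hp, hq⟩ := h.cut hD hE
  have he : ∀ i ∈ s, x i ∉ g ∧ y i ∉ g := fun i m =>
    ⟨spl_off k hp hq (hs.cc i m).left (h1 i m).1, spl_off k hp hq (hs.cc i m).right (h1 i m).2⟩
  obtain ⟨F, f, t⟩ := split k k.cc.arc subset_rfl hs he
  exact ⟨F, f, fun i m =>
    ⟨fun b d => (t i m).1 (b.resolve_right (he i m).1) (d.resolve_right (he i m).2),
     fun b d => (t i m).2.1 (b.resolve_right (he i m).1) (d.resolve_right (he i m).2)⟩⟩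

lemma spl_symm {p q : X} (h : Ends n p q) : Ends n q p := by
  obtain ⟨f, f', a1, a2, a3, a4, a5⟩ := h
  exact ⟨f', f, a2, a1, a3.symm, a5, a4⟩

lemma spl_one {p q : X} (h : Ends n p q) : p ∈ One n ∧ q ∈ One n := by
  obtain ⟨f, f', -, -, -, a4, a5⟩ := h
  exact ⟨a4.2, a5.2⟩

lemma spl_any {p q : X} (h : Ends n p q) : p ∈ AnyH n ∧ q ∈ AnyH n := by
  obtain ⟨f, f', a1, a2, -, a4, a5⟩ := h
  exact ⟨Bx_any a1 n a4.1.1.1, Bx_any a2 n a5.1.1.1⟩

/-- a new end on the seam and an old end lie on different faces -/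
lemma spl_new {B : Set V} {p q w : X} (hD : Cel n D c A) (hE : Cel n E e B) (i : D ∩ E = g)
    (dj : Disjoint A B) (k : D ∩ One n ∩ CU n B ⊆ g) (h : Ends n p q) (pD : p ∈ D) (pg : p ∉ g)
    (wg : w ∈ g) (w1 : w ∈ One n) : Ends n p w := by
  obtain ⟨f, f', a1, -, -, a4, -⟩ := h
  obtain ⟨r, hr, m⟩ := hD.sub w (i.ge wg).1
  obtain ⟨r', hr', m'⟩ := hE.sub w (i.ge wg).2
  obtain ⟨l, -, l2, l3⟩ := two_cubes m.1.1 m'.1.1 (fun t => disjoint_left.1 dj hr (t ▸ hr')) w1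
  refine ⟨f, l, a1, l2.face, ?_, a4, ⟨⟨l3, m.1.2⟩, m.2⟩, w1⟩
  rintro rfl
  exact pg (k ⟨⟨pD, a4.2⟩, r', hr', l2.sub n a4.1.1.1⟩)

/-- the ends `p'`, `q'` of a half are old ends or lie in the other half -/
def SplE (g b' : Set X) (p q p' q' : X) : Prop :=
  ∀ t ∈ ({p', q'} : Set X), (t ∈ g → t ∈ b') ∧ (t ∉ g → t ∈ ({p, q} : Set X))

lemma spl_side {B : Set V} {b b' : Set X} {p q p' q' : X} (hD : Cel n D c A) (hE : Cel n E e B)
    (i : D ∩ E = g) (dj : Disjoint A B) (k : D ∩ One n ∩ CU n B ⊆ g)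
    (h : b = ∅ ∨ (Nc n A b p' q' ∧ Ends n p' q' ∧ b ⊆ D ∧ SplE g b' p q p' q')) :
    (∀ r ∈ A, b ∩ cube n r = ∅ ∨ Pc n r (b ∩ cube n r)) ∧ (∀ r ∈ B, b ∩ cube n r ⊆ b') ∧
      (∀ r, r ∉ A → r ∉ B → b ∩ cube n r ⊆ {p, q}) ∧ b ⊆ CU n A := by
  rcases h with rfl | ⟨h, he, hb, ht⟩
  · simp
  have o1 : ∀ t ∈ ({p', q'} : Set X), t ∈ One n := by
    rintro t (rfl | rfl)
    exacts [(spl_one he).1, (spl_one he).2]
  refine ⟨h.ins, fun r hr t m => ?_, fun r hr hr' t m => ?_, h.cov⟩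
  · have te := h.out r (fun w => disjoint_left.1 dj w hr) m
    exact (ht t te).1 (k ⟨⟨hb m.1, o1 t te⟩, r, hr, m.2⟩)
  · have te := h.out r hr m
    refine (ht t te).2 fun tg => ?_
    obtain ⟨r1, h1, m1⟩ := hD.sub t (i.ge tg).1
    obtain ⟨r2, h2, m2⟩ := hE.sub t (i.ge tg).2
    rcases three_cubes m.2 m1.1.1 m2.1.1 (o1 t te) with rfl | rfl | rfl
    exacts [hr h1, hr' h2, disjoint_left.1 dj h1 h2]

lemma spl_join {B : Set V} {b b' : Set X} {p q p' q' p'' q'' : X} (hD : Cel n D c A)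
    (hE : Cel n E e B) (i : D ∩ E = g) (dj : Disjoint A B) (k : D ∩ One n ∩ CU n B ⊆ g)
    (k' : E ∩ One n ∩ CU n A ⊆ g)
    (h : b = ∅ ∨ (Nc n A b p' q' ∧ Ends n p' q' ∧ b ⊆ D ∧ SplE g b' p q p' q'))
    (h' : b' = ∅ ∨ (Nc n B b' p'' q'' ∧ Ends n p'' q'' ∧ b' ⊆ E ∧ SplE g b p q p'' q'')) :
    Nc n (A ∪ B) (b ∪ b') p q := by
  obtain ⟨a1, a2, a3, a4⟩ := spl_side hD hE i dj k h
  obtain ⟨b1, b2, b3, b4⟩ := spl_side hE hD (inter_comm D E ▸ i) dj.symm k' h'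
  refine ⟨?_, fun r hr => ?_, ?_⟩
  · rintro r (hr | hr)
    · have : (b ∪ b') ∩ cube n r = b ∩ cube n r :=
        Subset.antisymm (fun t m => ⟨m.1.elim id fun w => b2 r hr ⟨w, m.2⟩, m.2⟩)
          (inter_subset_inter_left _ subset_union_left)
      rw [this]
      exact a1 r hr
    · have : (b ∪ b') ∩ cube n r = b' ∩ cube n r :=
        Subset.antisymm (fun t m => ⟨m.1.elim (fun w => a2 r hr ⟨w, m.2⟩) id, m.2⟩)
          (inter_subset_inter_left _ subset_union_right)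
      rw [this]
      exact b1 r hr
  · rintro t ⟨m | m, m'⟩
    · exact a3 r (fun w => hr (Or.inl w)) (fun w => hr (Or.inr w)) ⟨m, m'⟩
    · exact b3 r (fun w => hr (Or.inr w)) (fun w => hr (Or.inl w)) ⟨m, m'⟩
  · rintro t (m | m)
    · obtain ⟨r, hr, w⟩ := a4 m
      exact ⟨r, Or.inl hr, w⟩
    · obtain ⟨r, hr, w⟩ := b4 m
      exact ⟨r, Or.inr hr, w⟩

/-- one half of a split arc -/
def SplH (n : ℕ) (D c g b b' : Set X) (p q p' q' : X) : Prop :=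
  b = ∅ ∨ (Cc D c b p' q' ∧ Ends n p' q' ∧ SplE g b' p q p' q')

lemma spl_old {b' : Set X} {p q : X} (pg : p ∉ g) (qg : q ∉ g) : SplE g b' p q p q := by
  rintro t (rfl | rfl)
  exacts [⟨fun w => (pg w).elim, fun _ => Or.inl rfl⟩, ⟨fun w => (qg w).elim, fun _ => Or.inr rfl⟩]

lemma spl_l {b' : Set X} {p q w : X} (pg : p ∉ g) (wg : w ∈ g) (wb : w ∈ b') :
    SplE g b' p q p w := by
  rintro t (rfl | rfl)
  exacts [⟨fun m => (pg m).elim, fun _ => Or.inl rfl⟩, ⟨fun _ => wb, fun m => (m wg).elim⟩]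

lemma spl_r {b' : Set X} {p q w : X} (qg : q ∉ g) (wg : w ∈ g) (wb : w ∈ b') :
    SplE g b' p q w q := by
  rintro t (rfl | rfl)
  exacts [⟨fun _ => wb, fun m => (m wg).elim⟩, ⟨fun m => (qg m).elim, fun _ => Or.inr rfl⟩]

/-- the halves on one side, moved into position -/
lemma spl_move {b b' w : ι → Set X} {x' y' : ι → X} (hD : Disc D c)
    (ih : ∀ (s : Set ι) (a : ι → Set X) (x y : ι → X), Sys D c s a x y →
      (∀ i ∈ s, Ends n (x i) (y i)) → ∃ F, Sup F D c ∧ ∀ i ∈ s, Nc n A (F '' a i) (x i) (y i))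
    (fin : s.Finite) (dj : s.PairwiseDisjoint w) (hb : ∀ i ∈ s, b i ⊆ w i)
    (h : ∀ i ∈ s, SplH n D c g (b i) (b' i) (x i) (y i) (x' i) (y' i)) :
    ∃ F, Sup F D c ∧ ∀ i ∈ s, b i ⊆ D ∧ (F '' b i = ∅ ∨ (Nc n A (F '' b i) (x' i) (y' i) ∧
      Ends n (x' i) (y' i) ∧ F '' b i ⊆ D ∧ SplE g (b' i) (x i) (y i) (x' i) (y' i))) := by
  have r : ∀ i ∈ {i ∈ s | b i ≠ ∅}, Cc D c (b i) (x' i) (y' i) ∧ Ends n (x' i) (y' i) ∧
      SplE g (b' i) (x i) (y i) (x' i) (y' i) := fun i m => (h i m.1).resolve_left m.2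
  obtain ⟨F, f, t⟩ := ih {i ∈ s | b i ≠ ∅} b x' y'
    ⟨fin.subset (sep_subset _ _), fun i m => (r i m).1,
      fun i m j m' ne => (dj m.1 m'.1 ne).mono (hb i m.1) (hb j m'.1)⟩ fun i m => (r i m).2.1
  refine ⟨F, f, fun i m => ?_⟩
  by_cases e0 : b i = ∅
  · rw [e0]
    exact ⟨empty_subset _, Or.inl (image_empty _)⟩
  · have r' := r i ⟨m, e0⟩
    exact ⟨r'.1.sub, Or.inr ⟨t i ⟨m, e0⟩, r'.2.1, (f.cc hD r'.1).sub, r'.2.2⟩⟩

lemma spl_all (h : Cel n Z z A) : ∀ (s : Set ι) (a : ι → Set X) (x y : ι → X), Sys Z z s a x y →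
    (∀ i ∈ s, Ends n (x i) (y i)) → ∃ F, Sup F Z z ∧ ∀ i ∈ s, Nc n A (F '' a i) (x i) (y i) := by
  induction h with
  | @one q Z z hZ hq hz =>
    intro s a x y hs he
    refine ⟨id, sup_id, fun i m => ?_⟩
    have cc := hs.cc i m
    have sq : a i ⊆ cube n q := fun w hw => (hq (cc.sub hw)).1.1
    have an : a i ∩ AnyH n = {x i, y i} := by
      refine Subset.antisymm (fun w hw => cc.inter ▸ ⟨hw.1, hz ⟨cc.sub hw.1, hw.2⟩⟩) ?_
      exact subset_inter cc.arc.ends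
        (insert_subset (spl_any (he i m)).1 (singleton_subset_iff.2 (spl_any (he i m)).2))
    rw [image_id]
    refine ⟨?_, fun r hr w hw => an ▸ ⟨hw.1, other_any hw.2 (sq hw.1) hr⟩,
      fun w hw => ⟨q, rfl, sq hw⟩⟩
    rintro r rfl
    rw [inter_eq_left.2 sq]
    exact Or.inr ⟨x i, y i, he i m, cc.arc, cc.sub.trans hq, an⟩
  | @glue D c E e g O o A B hD hE h hn dj k k' i1 i2 =>
    intro s a x y hs he
    obtain ⟨u, v, p, q, ct, rfl, rfl, hp, hq⟩ := h.cut hD.disc hE.disc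
    have hg : ∀ i ∈ s, x i ∉ g ∧ y i ∉ g := fun i m =>
      ⟨spl_off ct hp hq (hs.cc i m).left (spl_one (he i m)).1,
        spl_off ct hp hq (hs.cc i m).right (spl_one (he i m)).2⟩
    obtain ⟨w, wg, w1⟩ := hn
    obtain ⟨J, j, j', hJ, Js, -⟩ := ct.cc.arc.small (x := w)
      ⟨wg, by rintro (rfl | rfl); exacts [hp w1, hq w1]⟩ ((One_open n).mem_nhds w1)
    obtain ⟨F, f, t⟩ := split ct hJ (fun _ m => (Js m).1.1) hs hg
    have i' : E ∩ D = g := inter_comm D E ▸ h.i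
    have key : ∀ i, ∃ (b b' : Set X) (p1 q1 p2 q2 : X), i ∈ s → b ∪ b' = F '' a i ∧
        SplH n D (u ∪ g) g b b' (x i) (y i) p1 q1 ∧ SplH n E (v ∪ g) g b' b (x i) (y i) p2 q2 := by
      intro i
      by_cases m : i ∈ s
      swap
      · exact ⟨∅, ∅, x i, x i, x i, x i, fun m' => (m m').elim⟩
      obtain ⟨t1, t2, t3, t4⟩ := t i m
      obtain ⟨xg, yg⟩ := hg i m
      rcases ct.two.union.ge (hs.cc i m).left with hx | hx <;>
        rcases ct.two.union.ge (hs.cc i m).right with hy | hy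
      · exact ⟨F '' a i, ∅, x i, y i, x i, y i, fun _ => ⟨union_empty _,
          Or.inr ⟨t1 hx hy, he i m, spl_old xg yg⟩, Or.inl rfl⟩⟩
      · obtain ⟨r, hr, b, b', c1, c2, e1⟩ := t3 hx hy
        have rg := (Js hr.1).1.1
        have r1 := (Js hr.1).2
        exact ⟨b, b', x i, r, r, y i, fun _ => ⟨e1,
          Or.inr ⟨c1, spl_new hD hE h.i dj k (he i m) (c1.sub c1.arc.left) xg rg r1,
            spl_l xg rg c2.arc.left⟩,
          Or.inr ⟨c2, spl_symm (spl_new hE hD i' dj.symm k' (spl_symm (he i m))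
            (c2.sub c2.arc.right) yg rg r1), spl_r yg rg c1.arc.right⟩⟩⟩
      · obtain ⟨r, hr, b, b', c1, c2, e1⟩ := t4 hx hy
        have rg := (Js hr.1).1.1
        have r1 := (Js hr.1).2
        exact ⟨b', b, r, y i, x i, r, fun _ => ⟨union_comm b b' ▸ e1,
          Or.inr ⟨c2, spl_symm (spl_new hD hE h.i dj k (spl_symm (he i m))
            (c2.sub c2.arc.right) yg rg r1), spl_r yg rg c1.arc.right⟩,
          Or.inr ⟨c1, spl_new hE hD i' dj.symm k' (he i m) (c1.sub c1.arc.left) xg rg r1,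
            spl_l xg rg c2.arc.left⟩⟩⟩
      · exact ⟨∅, F '' a i, x i, y i, x i, y i, fun _ => ⟨empty_union _, Or.inl rfl,
          Or.inr ⟨t2 hx hy, he i m, spl_old xg yg⟩⟩⟩
    choose b b' p1 q1 p2 q2 key using key
    have sy := f.sys ct.disc hs
    obtain ⟨F1, f1, t1⟩ := spl_move ct.d1 i1 hs.fin sy.disj
      (fun i m => (key i m).1 ▸ subset_union_left) fun i m => (key i m).2.1
    obtain ⟨F2, f2, t2⟩ := spl_move ct.d2 i2 hs.fin sy.disj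
      (fun i m => (key i m).1 ▸ subset_union_right) fun i m => (key i m).2.2
    refine ⟨F2 ∘ F1 ∘ F, (Sup.up ct.disc ct.d2 ct.sub2 f2).comp
      ((Sup.up ct.disc ct.d1 ct.sub1 f1).comp f), fun i m => ?_⟩
    have s1 : F1 '' b i ⊆ D := f1.img ▸ image_mono (t1 i m).1
    have e1 : (F2 ∘ F1 ∘ F) '' a i = F1 '' b i ∪ F2 '' b' i := by
      rw [image_comp, image_comp, ← (key i m).1, image_union, image_union,
        Sys_fix ct f1 (t2 i m).1, Sys_fix ct.symm f2 s1]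
    have mv : ∀ {G : X → X} {P r d : Set X} {p p' q q' : X}, Sup G P (r ∪ g) →
        SplE g d p q p' q' → SplE g (G '' d) p q p' q' := fun hG hh t ht =>
      ⟨fun tg => ⟨t, (hh t ht).1 tg, hG.fix t fun w => w.2 (Or.inr tg)⟩, (hh t ht).2⟩
    rw [e1]
    exact spl_join hD hE h.i dj k k'
      ((t1 i m).2.imp id fun r => ⟨r.1, r.2.1, r.2.2.1, mv f2 r.2.2.2⟩)
      ((t2 i m).2.imp id fun r => ⟨r.1, r.2.1, r.2.2.1, mv f1 r.2.2.2⟩)

theorem splitAll (h : Cel n Z z A) (hs : Sys Z z s a x y) (he : ∀ i ∈ s, Ends n (x i) (y i)) :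
    ∃ F, Sup F Z z ∧ ∀ i ∈ s, Nc n A (F '' a i) (x i) (y i) := spl_all h s a x y hs he

end Pool.Agent.Lib.MP_b7d179_gt.M
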