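import Pool.Agent.Lib.MP_b7d179_gt.M.ChkC
import Pool.Agent.Lib.MP_b7d179_gt.M.Spl

/-! Soundness of the check of the seams. -/

namespace Pool.Agent.Lib.MP_b7d179_gt.M

open Set C

variable {n : ℕ} {p : V}

theorem chkD_pair (n : ℕ) (p : V) {l : List TS} (h : pairOk l = true) : ∀ s ∈ l, ∀ r ∈ l, s ≠ r →
    s.1 ≠ r.1 ∧ Disjoint (W n p (seamM s)) (W n p (seamM r)) := by
  induction l with
  | nil => simp
  | cons a l ih =>
    simp only [pairOk, Bool.and_eq_true, List.all_eq_true, Bool.not_eq_true'] at h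
    have k : ∀ r ∈ l, a.1 ≠ r.1 ∧ Disjoint (W n p (seamM a)) (W n p (seamM r)) := fun r hr =>
      ⟨Nat.ne_of_beq_eq_false (h.1 r hr).1, (W_rl n p).dis (h.1 r hr).2⟩
    intro s hs r hr ne
    rcases List.mem_cons.1 hs with rfl | hs' <;> rcases List.mem_cons.1 hr with rfl | hr'
    · exact (ne rfl).elim
    · exact k r hr'
    · exact ⟨(k s hs').1.symm, (k s hs').2.symm⟩
    · exact ih h.2 s hs' r hr' ne

theorem chkD_seam {c1 c2 : ℕ} {s : TS} (h : seamOk (ty n p) c1 c2 s = true) :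
    s.1 ∈ codes 7 ∧ IsFace (sb n p s.1) ∧ W n p (seamM s) ⊆ W n p c1 ∩ W n p c2 ∧
      ∃ (J : Set X) (x y j j' : X), Arc (W n p (seamM s)) x y ∧
      W n p (seamM s) ∩ (cube n p ∩ AnyH n ∩ N (n + 1)) = {x, y} ∧ Arc J j j' ∧
      J ⊆ W n p (seamM s) ∧ J \ {j, j'} ⊆ Og (n + 1) (sb n p s.1) \ AnyH n ∧
      x ∉ One (n + 1) ∧ y ∉ One (n + 1) := by
  have r := W_rl n p
  unfold seamOk at h
  split at h
  · rename_i g u v J a b e1 e2
    have e : seamM s = g := by rw [seamM, e1]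
    simp only [Bool.and_eq_true] at h
    obtain ⟨⟨⟨⟨⟨⟨h1, h2⟩, h3⟩, h4⟩, h5⟩, h6⟩, h7⟩ := h
    obtain ⟨x, y, a1, a2, a3⟩ := evA_ok n p e1
    obtain ⟨j, j', b1, b2, b3⟩ := evA_ok n p e2
    obtain ⟨c7, ad⟩ := adjC_ok n p (List.mem_of_elem_eq_true h1) h2
    have k3 := r.sub h3
    have k4 := congrArg (W n p) (eqb_eq h4)
    have k5 := r.dis h5
    have k7 := r.sub h7
    rw [W_an] at k3
    rw [W_an, W_un, W_Ft, a2, a3] at k4
    rw [W_un, W_o1, a2, a3] at k5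
    rw [W_df, W_df, W_un, W_an, W_an, W_sb n p c7, W_V1, W_o1, W_a0, b2, b3] at k7
    rw [e]
    refine ⟨c7, ad.face, k3, W n p J, x, y, j, j', a1, k4, b1, r.sub h6, fun z hz => ?_,
      fun k => disjoint_left.1 k5 (Or.inl rfl) ⟨W_cube n p u (a2.ge rfl), k⟩,
      fun k => disjoint_left.1 k5 (Or.inr rfl) ⟨W_cube n p v (a3.ge rfl), k⟩⟩
    obtain ⟨⟨⟨d1, d2⟩, d3⟩, d4⟩ := k7 hz
    exact ⟨⟨⟨⟨d1, d2.1.2⟩, d2.2⟩, d3.2⟩, fun k => d4 ⟨d3.1, k⟩⟩
  · cases h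

theorem chkSms_ok {t : TE × TE × List TS} (hS : Sph (jackS n p))
    (hH : Holes (jackS n p) (feet n p) (Ps n) (PsC n)) (h : chkSms (ty n p) t = true) :
    Sms n p := by
  have r := W_rl n p
  unfold chkSms at h
  split at h
  · rename_i A1 O1 c1 A2 O2 c2 e1 e2
    simp only [Bool.and_eq_true, List.all_eq_true, Bool.or_eq_true] at h
    obtain ⟨⟨⟨⟨⟨⟨⟨⟨⟨h1, h2⟩, h3⟩, h4⟩, h5⟩, h6⟩, h7⟩, h8⟩, h9⟩, h10⟩ := h
    obtain ⟨a1, a2⟩ := cel_ok e1
    obtain ⟨b1, b2⟩ := cel_ok e2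
    have pr := chkD_pair n p h3
    have : Nonempty TS := ⟨(0, 0, [], [])⟩
    choose! S S1 S2 using fun (c : ℕ) (hc : c ∈ Prod.fst '' {s | s ∈ t.2.2}) => hc
    choose! J x y j j' d using fun s (hs : s ∈ t.2.2) => (chkD_seam (h2 s hs)).2.2.2
    have u : W n p (orL (t.2.2.map seamM)) =
        ⋃ i ∈ Prod.fst '' {s | s ∈ t.2.2}, W n p (seamM (S i)) := by
      rw [r.orL]
      ext z
      simp only [mem_ofPred_eq, List.mem_map, mem_iUnion₂, exists_prop]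
      constructor
      · rintro ⟨_, ⟨s, hs, rfl⟩, hz⟩
        have m : s.1 ∈ Prod.fst '' {s | s ∈ t.2.2} := ⟨s, hs, rfl⟩
        have e : S s.1 = s := by_contra fun e => (pr _ (S1 _ m) s hs e).1 (S2 _ m)
        exact ⟨s.1, m, by rwa [e]⟩
      · rintro ⟨i, hi, hz⟩
        exact ⟨_, ⟨_, S1 i hi, rfl⟩, hz⟩
    have ft : ∀ f ∈ feet n p, (Ps n f ∩ W n p c1).Nonempty ∧ (Ps n f ∩ W n p c2).Nonempty := by
      rintro f ⟨f1, f2⟩
      obtain ⟨c, hc, rfl⟩ := fc_adj f1 n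
      rcases h10 c hc with k | k
      · rw [← W_Ph n p hc, mPh, W_an, (r.dis k).inter_eq] at f2
        exact (not_nonempty_empty f2).elim
      · rw [← W_Ps n p hc, ← W_an, ← W_an]
        exact ⟨W_nz k.1, W_nz k.2⟩
    have k4 := congrArg (W n p) (eqb_eq h4)
    have k5 := congrArg (W n p) (eqb_eq h5)
    have k6 := r.sub h6
    have k7 := r.sub h7
    have k8 := r.sub h8
    have k9 := r.sub h9
    rw [W_un, W_un, W_Ft, W_JS, ← feet_union] at k4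
    rw [W_an, u] at k5
    rw [W_un, u, W_Ft, ← feet_union] at k6 k7
    rw [W_an, W_Ft, ← feet_union] at k8 k9
    refine ⟨_, _, _, _, _, _, Prod.fst '' {s | s ∈ t.2.2}, fun i => W n p (seamM (S i)),
      fun i => J (S i), fun i => x (S i), fun i => y (S i), fun i => j (S i), fun i => j' (S i),
      sb n p, ⟨hS, hH, a1.disc, b1.disc, k4, (List.finite_toSet _).image _, fun i hi => ?_,
        fun i hi i' hi' ne => ?_, k5, k6, k7, k8, k9, fun f hf => (ft f hf).1⟩, a1, b1,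
      chS_disj a2 b2 h1, fun q hq => hq.elim (chS_kid a2 q) (chS_kid b2 q), fun i hi => ?_,
      fun i hi i' hi' e => ?_, fun f hf => (ft f hf).2⟩
    · rw [feet_union]
      exact ⟨(d _ (S1 i hi)).1, (chkD_seam (h2 _ (S1 i hi))).2.2.1, (d _ (S1 i hi)).2.1⟩
    · exact (pr _ (S1 i hi) _ (S1 i' hi') fun e => ne (by rw [← S2 i hi, e, S2 i' hi'])).2
    · obtain ⟨-, -, d1, d2, d3, d4⟩ := d _ (S1 i hi)
      have d5 := (chkD_seam (h2 _ (S1 i hi))).2.1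
      rw [S2 i hi] at d3 d5
      exact ⟨d1, d2, d5, d3, d4⟩
    · have d1 := (chkD_seam (h2 _ (S1 i hi))).1
      have d2 := (chkD_seam (h2 _ (S1 i' hi'))).1
      rw [S2 i hi] at d1
      rw [S2 i' hi'] at d2
      exact sb_inj d1 d2 e
  · cases h

end Pool.Agent.Lib.MP_b7d179_gt.M
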