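import Pool.Agent.Lib.MP_b7d179_gt.C.Mask

/-! Index model of the Menger sponge: retained cubes, dual cubes, windows and bit masks. -/

namespace Pool.Agent.Lib.MP_b7d179_gt.M

open Set C

abbrev X : Type := Fin 3 → ℝ
abbrev V : Type := Fin 3 → ℤ

/-- open middle third at ternary level `n` -/
def Mid (n : ℕ) (t : ℝ) : Prop := ∃ a : ℤ, 3 * (a : ℝ) + 1 < 3 ^ (n + 1) * t ∧ 3 ^ (n + 1) * t < 3 * (a : ℝ) + 2

/-- the sponge -/
def K : Set X := {x | (∀ i, 0 ≤ x i ∧ x i ≤ 1) ∧ ∀ n i j, Mid n (x i) → Mid n (x j) → i = j}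

/-- retained cubes of level `n` -/
def Ret : ℕ → V → Prop
  | 0, a => a = 0
  | n + 1, a => Ret n (fun i => a i / 3) ∧ ∀ i j, a i % 3 = 1 → a j % 3 = 1 → i = j

/-- the bad side of the lattice point `p` of level `n` -/
def o : ℕ → ℤ → ℤ
  | 0, p => if p ≤ 0 then -1 else 1
  | n + 1, p => if p % 3 = 1 then 1 else if p % 3 = 2 then -1 else o n (p / 3)

noncomputable section

/-- the lattice point `p` of level `n`, moved a little to its bad side -/
def be (n : ℕ) (p : ℤ) : ℝ := ((p : ℝ) + (o n p : ℝ) / 12) / 3 ^ n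

def N (n : ℕ) : Set X := {x | ∃ a, Ret n a ∧ ∀ i, be n (a i) ≤ x i ∧ x i ≤ be n (a i + 1)}
def Mm (n : ℕ) : Set X := {x | ∃ a, ¬ Ret n a ∧ ∀ i, be n (a i) ≤ x i ∧ x i ≤ be n (a i + 1)}
def Nb (n : ℕ) : Set X :=
  {x | ∃ a, Ret n a ∧ ∀ i, be (n + 1) (3 * a i) ≤ x i ∧ x i ≤ be (n + 1) (3 * (a i + 1))}
def Mb (n : ℕ) : Set X :=
  {x | ∃ a, ¬ Ret n a ∧ ∀ i, be (n + 1) (3 * a i) ≤ x i ∧ x i ≤ be (n + 1) (3 * (a i + 1))}

/-- dual cube (all coordinates even) or dual face (one odd coordinate), doubled coordinates -/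
def Bx (n : ℕ) (f : V) : Set X :=
  {x | ∀ i, |2 * 3 ^ n * x i - (f i : ℝ)| ≤ if f i % 2 = 0 then 1 else 0}

/-- half integer of level `n` -/
def Hp (n : ℕ) (t : ℝ) : Prop := ∃ m : ℤ, m % 2 = 1 ∧ 2 * 3 ^ n * t = m

def One (n : ℕ) : Set X := {x | ∀ i j, Hp n (x i) → Hp n (x j) → i = j}
def AnyH (n : ℕ) : Set X := {x | ∃ i, Hp n (x i)}

def IsFace (f : V) : Prop := ∃ i, f i % 2 = 1 ∧ ∀ j, j ≠ i → f j % 2 = 0
/-- `f` is a face of the dual cube of `p` -/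
def Adj (p f : V) : Prop := ∃ i, (f i = 2 * p i + 1 ∨ f i = 2 * p i - 1) ∧ ∀ j, j ≠ i → f j = 2 * p j

def cube (n : ℕ) (p : V) : Set X := Bx n (fun i => 2 * p i)
def cubeS (n : ℕ) (p : V) : Set X := cube n p ∩ AnyH n
def body (n : ℕ) (p : V) : Set X := cube n p ∩ N n
def bodyS (n : ℕ) (p : V) : Set X := body n p ∩ (Mm n ∪ AnyH n)
def Q (n : ℕ) (p : V) : Set X := cube n p ∩ N n ∩ Mm n
def IQ (n : ℕ) (p : V) : Set X := Q n p \ AnyH n
def Ph (n : ℕ) (f : V) : Set X := Bx n f ∩ N n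
def IPh (n : ℕ) (f : V) : Set X := (Ph n f \ Mm n) ∩ One n
def gam (n : ℕ) (f : V) : Set X := Ph n f ∩ Mm n
def Og (n : ℕ) (f : V) : Set X := gam n f ∩ One n
def Ps (n : ℕ) (f : V) : Set X := Bx n f ∩ N (n + 1)
def PsC (n : ℕ) (f : V) : Set X := Ps n f ∩ Mm (n + 1)
def jack (n : ℕ) (p : V) : Set X := cube n p ∩ N (n + 1)
def jackS (n : ℕ) (p : V) : Set X := jack n p ∩ (Mm (n + 1) ∪ AnyH n)
/-- the old visible surface, pushed down, without the corners -/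
def Flat (n : ℕ) : Set X := Nb n ∩ Mb n ∩ N (n + 1)
def Top (n : ℕ) (p : V) : Set X := cube n p ∩ Flat n
/-- open strip of a face between the old and the new visible arcs -/
def IS (n : ℕ) (f : V) : Set X := ((Ph n f \ Mm n) \ Nb n) ∩ One n
/-- union of bodies, and its rim -/
def BA (n : ℕ) (A : Set V) : Set X := {x | x ∈ N n ∧ ∃ q ∈ A, x ∈ cube n q}
def SA (n : ℕ) (A : Set V) : Set X := {x | x ∈ BA n A ∧ (x ∈ Mm n ∨ ∃ q, q ∉ A ∧ x ∈ cube n q)}

/-! ### Windows -/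

def tb (k : ℕ) : ℝ := ([-18, -13, -6, 1, 3, 6, 13, 18] : List ℝ).getD k 0

def pos (s : ℝ) : ℕ :=
  if s ≤ -18 then 0 else if s < -13 then 1 else if s ≤ -13 then 2 else if s < -6 then 3 else
  if s ≤ -6 then 4 else if s < 1 then 5 else if s ≤ 1 then 6 else if s < 3 then 7 else
  if s ≤ 3 then 8 else if s < 6 then 9 else if s ≤ 6 then 10 else if s < 13 then 11 else
  if s ≤ 13 then 12 else if s < 18 then 13 else 14

def sc (n : ℕ) (p : V) (x : X) (i : Fin 3) : ℝ := 12 * (o n (p i) : ℝ) * (3 ^ (n + 1) * x i - 3 * p i)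

def ix (n : ℕ) (p : V) (x : X) : ℕ := 225 * pos (sc n p x 0) + 15 * pos (sc n p x 1) + pos (sc n p x 2)

/-- the set described by a mask -/
def W (n : ℕ) (p : V) (m : ℕ) : Set X := {x | x ∈ cube n p ∧ m.testBit (ix n p x) = true}

/-- the retained or removed cube of level `n` in octant `S` at `p` -/
def oct (n : ℕ) (p : V) (S : ℕ) : V := fun i =>
  if (S.testBit i = true ↔ o n (p i) = 1) then p i else p i - 1

open Classical in
def ty (n : ℕ) (p : V) : ℕ := ∑ S ∈ Finset.range 8, if Ret n (oct n p S) then 2 ^ S else 0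

/-- octal digit -/
def dg (c : ℕ) (i : Fin 3) : ℕ := c / 8 ^ (2 - (i : ℕ)) % 8

/-- object of level `n+1` with code `c` (digits `0..6`), doubled coordinates -/
def sb (n : ℕ) (p : V) (c : ℕ) : V := fun i => 6 * p i + o n (p i) * ((dg c i : ℤ) - 3)
/-- child with code `c` (digits `0..2`) -/
def ch (n : ℕ) (p : V) (c : ℕ) : V := fun i => 3 * p i + o n (p i) * ((dg c i : ℤ) - 1)
/-- object of level `n` with code `c` (digits `0..2`), doubled coordinates -/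
def fc (n : ℕ) (p : V) (c : ℕ) : V := fun i => 2 * p i + o n (p i) * ((dg c i : ℤ) - 1)

/-- the vertex of the window with code `P` -/
def pnt (n : ℕ) (p : V) (P : ℕ) : X := fun i =>
  ((o n (p i) : ℝ) * tb (dg P i) / 12 + 3 * p i) / 3 ^ (n + 1)

def chS (n : ℕ) (p : V) (A : List ℕ) : Set V := {q | ∃ c ∈ A, q = ch n p c}
def Kid (p q : V) : Prop := ∀ i, |q i - 3 * p i| ≤ 1
/-- the middle subface -/
def mid (f : V) : V := fun i => 3 * f i
/-- the subface that carries the landing arc -/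
def land (n : ℕ) (f : V) : V := fun i => if f i % 2 = 1 then 3 * f i else 3 * f i - 2 * o n (f i / 2)

end

/-! ### Masks -/

def downs : List ℕ := [1, 3, 5, 7, 15, 17, 19, 21, 23, 31, 51, 55, 63, 85, 87, 95, 119, 127, 255]

def geo (w a b : ℕ) : ℕ := (2 ^ (w * (2 * b + 1)) - 2 ^ (w * (2 * a))) / (2 ^ w - 1)
/-- box between the breakpoints coded by `P` and `R` -/
def bm (P R : ℕ) : ℕ :=
  geo 225 (P / 64 % 8) (R / 64 % 8) * (geo 15 (P / 8 % 8) (R / 8 % 8) * geo 1 (P % 8) (R % 8))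
def enc (a b c : ℕ) : ℕ := 64 * a + 8 * b + c
def lk (l : List ℕ) (k : ℕ) : ℕ := l.getD k 0
/-- box given by tables of lower and upper breakpoints and a code -/
def tbx (lo hi : List ℕ) (c : ℕ) : ℕ :=
  bm (enc (lk lo (c / 64 % 8)) (lk lo (c / 8 % 8)) (lk lo (c % 8)))
     (enc (lk hi (c / 64 % 8)) (lk hi (c / 8 % 8)) (lk hi (c % 8)))
def codes (k : ℕ) : List ℕ :=
  (List.range k).flatMap fun a => (List.range k).flatMap fun b => (List.range k).map fun c => enc a b c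
def mSb (c : ℕ) : ℕ := tbx [0, 0, 2, 2, 5, 5, 7] [0, 2, 2, 5, 5, 7, 7] c
def mCh (c : ℕ) : ℕ := tbx [0, 2, 5] [2, 5, 7] c
def mFc (c : ℕ) : ℕ := tbx [0, 0, 7] [0, 7, 7] c
def oc (a b c : ℕ) : ℕ := a + 2 * b + 4 * c
def ret1 (T c : ℕ) : Bool :=
  T.testBit (oc (c / 64 % 8 / 2) (c / 8 % 8 / 2) (c % 8 / 2)) &&
    Nat.ble (lk [1, 0, 0, 1] (c / 64 % 8) + lk [1, 0, 0, 1] (c / 8 % 8) + lk [1, 0, 0, 1] (c % 8)) 1
def ret0 (T c : ℕ) : Bool := T.testBit (oc (c / 64 % 8) (c / 8 % 8) (c % 8))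
def mN1 (T : ℕ) : ℕ := orL (((codes 4).filter (ret1 T)).map (tbx [0, 1, 3, 6] [1, 3, 6, 7]))
def mM1 (T : ℕ) : ℕ := orL (((codes 4).filter fun c => !ret1 T c).map (tbx [0, 1, 3, 6] [1, 3, 6, 7]))
def mN (k T : ℕ) : ℕ := orL (((codes 2).filter (ret0 T)).map (tbx [0, k] [k, 7]))
def mM (k T : ℕ) : ℕ := orL (((codes 2).filter fun c => !ret0 T c).map (tbx [0, k] [k, 7]))
def mAll : ℕ := bm 0 511
def mPl (l : List ℕ) (w : ℕ) : ℕ := orL (l.map fun k => bm (k * w) (511 - (7 - k) * w))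
def mAny (l : List ℕ) : ℕ := Nat.lor (mPl l 64) (Nat.lor (mPl l 8) (mPl l 1))
def mOne (l : List ℕ) : ℕ :=
  df mAll (Nat.lor (Nat.land (mPl l 64) (mPl l 8))
    (Nat.lor (Nat.land (mPl l 64) (mPl l 1)) (Nat.land (mPl l 8) (mPl l 1))))
def h0 : List ℕ := [0, 7]
def h1 : List ℕ := [0, 2, 5, 7]
/-- cells that can contain points of the sponge -/
def mK (T : ℕ) : ℕ := Nat.land (df (mN1 T) (mM1 T)) (mOne h1)
def mTop (T : ℕ) : ℕ := Nat.land (Nat.land (mN 3 T) (mM 3 T)) (mN1 T)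
def mU (A : List ℕ) : ℕ := orL (A.map mCh)
def mBA (n1 : ℕ) (A : List ℕ) : ℕ := Nat.land n1 (mU A)
def mSA (n1 m1 : ℕ) (A : List ℕ) : ℕ :=
  Nat.land (mBA n1 A) (Nat.lor m1 (Nat.lor (mAny h0) (mU ((codes 3).filter fun c => !A.elem c))))

/-! ### Terms -/

def nd (P R : ℕ) : ℕ :=
  (if P / 64 % 8 < R / 64 % 8 then 1 else 0) + (if P / 8 % 8 < R / 8 % 8 then 1 else 0) +
    (if P % 8 < R % 8 then 1 else 0)
def okB (P R d : ℕ) : Bool :=
  Nat.ble (P / 64 % 8) (R / 64 % 8) && Nat.ble (P / 8 % 8) (R / 8 % 8) && Nat.ble (P % 8) (R % 8) &&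
    Nat.beq (nd P R) d
def rim1 (P R w : ℕ) : ℕ :=
  if P / w % 8 < R / w % 8 then
    Nat.lor (bm P (R - (R / w % 8 - P / w % 8) * w)) (bm (P + (R / w % 8 - P / w % 8) * w) R)
  else 0
def rimB (P R : ℕ) : ℕ := Nat.lor (rim1 P R 64) (Nat.lor (rim1 P R 8) (rim1 P R 1))
def pt (P : ℕ) : ℕ := bm P P

/-- boxes as atoms: the code is `512 * P + R` -/
def atoms : Atoms where
  a1 t := if okB (min (t / 512) (t % 512)) (max (t / 512) (t % 512)) 1 && Nat.blt t 262144 then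
    some (bm (min (t / 512) (t % 512)) (max (t / 512) (t % 512)), pt (t / 512), pt (t % 512)) else none
  a2 t := if okB (t / 512) (t % 512) 2 && Nat.blt t 262144 then
    some (bm (t / 512) (t % 512), rimB (t / 512) (t % 512)) else none
  a3 t := if okB (t / 512) (t % 512) 3 && Nat.blt t 262144 then
    some (bm (t / 512) (t % 512), rimB (t / 512) (t % 512)) else none

end Pool.Agent.Lib.MP_b7d179_gt.M
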