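import Pool.Agent.Lib.MP_b7d179_gt.M.Tw
import Pool.Agent.Lib.MP_b7d179_gt.U.Req

/-! Pieces of arcs on the visible surface, cell structures, states of the routing. -/

namespace Pool.Agent.Lib.MP_b7d179_gt.M

open Set

/-- union of dual cubes -/
def CU (n : ℕ) (A : Set V) : Set X := {x | ∃ q ∈ A, x ∈ cube n q}
/-- the open visible arcs of all faces -/
def Vo (n : ℕ) : Set X := N n ∩ Mm n ∩ AnyH n ∩ One n
def bp (n : ℕ) (p : V) : Set X := cube n p ∩ Nb n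
def bpS (n : ℕ) (p : V) : Set X := bp n p ∩ (Mb n ∪ AnyH n)
def Qp (n : ℕ) (p : V) : Set X := cube n p ∩ Nb n ∩ Mb n
/-- the visible part of the shell between the two thickenings -/
def Osh (n : ℕ) (p : V) : Set X := Q n p ∪ cube n p ∩ AnyH n ∩ N n ∩ Mb n
/-- the faces of `p` that meet the thickened sponge -/
def feet (n : ℕ) (p : V) : Set V := {f | Adj p f ∧ (Ph n f).Nonempty}
/-- the nonempty children -/
def kids (n : ℕ) (A : Set V) : Set V := {q | (body (n + 1) q).Nonempty ∧ ∃ p ∈ A, Kid p q}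

/-- two points on the visible arcs of two different faces -/
def Ends (n : ℕ) (x y : X) : Prop :=
  ∃ f g, IsFace f ∧ IsFace g ∧ f ≠ g ∧ x ∈ Og n f ∧ y ∈ Og n g

/-- a piece: an arc across the visible part of the dual cube of `p` -/
def Pc (n : ℕ) (p : V) (a : Set X) : Prop :=
  ∃ x y, Ends n x y ∧ Arc a x y ∧ a ⊆ Q n p ∧ a ∩ AnyH n = {x, y}

/-- `b`, with ends `x`, `y`, consists of pieces in the cubes of `A` -/
structure Nc (n : ℕ) (A : Set V) (b : Set X) (x y : X) : Prop where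
  ins : ∀ q ∈ A, b ∩ cube n q = ∅ ∨ Pc n q (b ∩ cube n q)
  out : ∀ q, q ∉ A → b ∩ cube n q ⊆ {x, y}
  cov : b ⊆ CU n A

/-- `O` with rim `o` is glued from `D`, `E` along the arc `g`, whose ends lie on dual edges -/
structure Glu (n : ℕ) (D c E e g O o : Set X) : Prop where
  ex : ∃ x y, Arc g x y ∧ x ∉ One n ∧ y ∉ One n ∧ o = (c ∪ e) \ (g \ {x, y})
  i : D ∩ E = g
  s1 : g ⊆ c
  s2 : g ⊆ e
  u : O = D ∪ E

/-- discs built from visible cells, one cell for each cube of the set -/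
inductive Cel (n : ℕ) : Set X → Set X → Set V → Prop
  | one {q : V} {Z z : Set X} : Disc Z z → Z ⊆ Q n q → Z ∩ AnyH n ⊆ z → Cel n Z z {q}
  | glue {D c E e g O o : Set X} {A B : Set V} : Cel n D c A → Cel n E e B →
      Glu n D c E e g O o → (g ∩ One n).Nonempty → Disjoint A B → D ∩ One n ∩ CU n B ⊆ g →
      E ∩ One n ∩ CU n A ⊆ g → Cel n O o (A ∪ B)

/-- sets of bodies that can be glued one after the other -/
inductive Bld (n : ℕ) : Set V → Prop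
  | one {q : V} : (body n q).Nonempty → Bld n {q}
  | add {A : Set V} {d : V} {D C : Set X} : Bld n A → d ∉ A →
      Gl (BA n (insert d A)) (SA n (insert d A)) (BA n A) (SA n A) (body n d) (bodyS n d) D C →
      (D ∩ One n).Nonempty → C ∩ One n = D ∩ Mm n ∩ One n → Bld n (insert d A)

/-- the disc `T` is cut off by a set of bodies -/
def Cutf (n : ℕ) (B S T C : Set X) : Prop :=
  ∃ L R D, Bld n L ∧ Bld n R ∧ Disjoint L R ∧ Disc T C ∧ Disc D C ∧ Disjoint C K ∧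
    (D ∩ One n).Nonempty ∧ BA n L ∩ S = T ∧ BA n L ∩ BA n R = D ∧ D ∩ S = C ∧
    B = BA n R ∪ BA n L ∧ SA n L = T ∪ D ∧ SA n R = (S \ T) ∪ D

/-- a move from one ball onto another that fixes `Y` -/
def Eqv (B S B' S' Y : Set X) : Prop :=
  Ball B S ∧ Y ⊆ S ∧ ∃ h, Mv K h B ∧ h '' B = B' ∧ h '' S = S' ∧ EqOn h id Y

/-- access arcs from the points of `E` across the strips -/
structure Acs (n : ℕ) (E : Set X) (acc : X → Set X) (r : X → X) : Prop where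
  arc : ∀ e ∈ E, Arc (acc e) e (r e)
  sub : ∀ e ∈ E, ∀ f, IsFace f → e ∈ Bx n f → acc e \ {e, r e} ⊆ IS n f ∧ r e ∈ Bx n f
  fl : ∀ e ∈ E, r e ∈ Flat n ∩ One (n + 1)
  dj : E.PairwiseDisjoint acc

/-- disjoint lollipops in the faces -/
structure Lo (n : ℕ) (E : Set X) (l : X → Set X) : Prop where
  pop : ∀ e ∈ E, ∀ f, IsFace f → e ∈ Bx n f → Pop K (Ph n f) (Ph n f \ IPh n f) e (l e)
  dj : E.PairwiseDisjoint l

/-- every face keeps a point of the sponge -/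
def Left (n : ℕ) (Λ : Set X) : Prop :=
  ∀ f, IsFace f → (Ph n f).Nonempty → ((K ∩ Ph n f) \ Λ).Nonempty

/-- a state: labelled pieces in the active cubes, `E` the set of all ends -/
structure Sta {ι : Type} (n : ℕ) (A : Set V) (a : ι → V → Set X) (E : Set X) : Prop where
  fin : A.Finite
  ne : ∀ p ∈ A, (body n p).Nonempty
  pc : ∀ i, ∀ p ∈ A, a i p = ∅ ∨ Pc n p (a i p)
  dj : ∀ p ∈ A, Pairwise fun i j => Disjoint (a i p) (a j p)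
  mt : ∀ p ∈ A, (⋃ i, a i p) ∩ AnyH n = E ∩ cube n p
  cov : E ⊆ CU n A
  one : ∀ i f, IsFace f → (⋃ p ∈ A, a i p ∩ Bx n f).Subsingleton

/-- the state is solved -/
def Res (n : ℕ) (A : Set V) (Y : V → Set X) (E : Set X) : Prop :=
  ∃ l, Lo n E l ∧ Left n (⋃ e ∈ E, l e) ∧
    ∀ p ∈ A, SolU sg (body n p) (bodyS n p) (Y p ∪ ⋃ e ∈ E ∩ cube n p, l e)

/-- a finite disjoint union of arcs that meet the faces of level `n` exactly in their ends -/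
def Whole (n : ℕ) (Y : Set X) : Prop :=
  ∃ (ι : Type) (s : Set ι) (w : ι → Set X) (x y : ι → X),
    Arcs univ (AnyH n) s w x y ∧ Y = ⋃ i ∈ s, w i

/-- labelled sets in the cube of `p` that consist of pieces in the children -/
structure Sub1 {κ : Type} (n : ℕ) (p : V) (U : κ → Set X) (B : κ → Set V) : Prop where
  kid : ∀ j, ∀ q ∈ B j, Kid p q
  ins : ∀ j, ∀ q ∈ B j, U j ∩ cube (n + 1) q = ∅ ∨ Pc (n + 1) q (U j ∩ cube (n + 1) q)
  cov : ∀ q, Kid p q → ∀ j, ∀ e ∈ U j ∩ cube (n + 1) q, ∃ j', q ∈ B j' ∧ e ∈ U j'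
  sub : ∀ j, U j ⊆ cube n p
  dj : ∀ q j j', j ≠ j' → q ∈ B j → q ∈ B j' →
    Disjoint (U j ∩ cube (n + 1) q) (U j' ∩ cube (n + 1) q)
  wh : Whole n (⋃ j, U j)

structure Sub {κ : Type} (n : ℕ) (A : Set V) (U : κ → V → Set X) (B : κ → V → Set V) : Prop where
  fin : A.Finite
  ne : ∀ p ∈ A, (body n p).Nonempty
  loc : ∀ p ∈ A, Sub1 n p (fun j => U j p) (fun j => B j p)
  mt : ∀ p ∈ A, ∀ p' ∈ A, (⋃ j, U j p') ∩ cube n p ⊆ ⋃ j, U j p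
  one : ∀ j, ∀ p ∈ A, ∀ p' ∈ A, p ≠ p' → ∀ g, IsFace g → ∀ e ∈ U j p ∩ Bx (n + 1) g,
    ∀ e' ∈ U j p' ∩ Bx (n + 1) g, e = e'

/-- the flat top cut into a left, a middle and a right part -/
def Tri (n : ℕ) (p f g : V) : Prop :=
  ∃ (Pl zl Pm zm Pr zr c1 c2 O o z l r : Set X) (Al Am Ar : Set V),
    Cel (n + 1) Pl zl Al ∧ Cel (n + 1) Pm zm Am ∧ Cel (n + 1) Pr zr Ar ∧
    (∀ q ∈ Al ∪ Am ∪ Ar, Kid p q) ∧ Disjoint Am Al ∧ Disjoint Am Ar ∧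
    Glu (n + 1) Pm zm Pr zr c2 O o ∧ Glu (n + 1) O o Pl zl c1 (Top n p) z ∧
    Quad z (Top n p ∩ Bx (n + 1) (mid f)) l (Top n p ∩ Bx (n + 1) (mid g)) r ∧
    l ⊆ zl ∧ r ⊆ zr ∩ o ∧ Top n p ∩ (Bx (n + 1) (mid f) ∪ Bx (n + 1) (mid g)) ⊆ zm ∩ o

/-- a lane between the middle subfaces of `f` and `g` -/
def Lane (n : ℕ) (p f g : V) : Prop :=
  ∃ Z z T C : Set X, Disc Z z ∧ Z ⊆ Top n p ∧
    Top n p ∩ (Bx (n + 1) (mid f) ∪ Bx (n + 1) (mid g)) ⊆ z ∧ Z \ z ⊆ T \ C ∧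
    (Ph (n + 1) (mid f) ∪ Ph (n + 1) (mid g)) ∩ One (n + 1) ⊆ T \ C ∧
    K ∩ T ⊆ Bx (n + 1) (mid f) ∪ Bx (n + 1) (mid g) ∧ Cutf (n + 1) (jack n p) (jackS n p) T C

/-- the strip of a face with the three landing arcs -/
def Strip (n : ℕ) (f : V) : Prop :=
  ∃ (O c g l g₀ r gm gp : Set X) (m m' k k' : X), Disc O c ∧ Quad c g l g₀ r ∧ Arc gm m m' ∧
    Arc gp k k' ∧ gm ⊆ l ∧ gp ⊆ r ∧ Og n f ⊆ g \ (l ∪ r) ∧ O \ c ⊆ IS n f ∧ O ⊆ Bx n f ∧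
    g₀ \ (l ∪ r) ⊆ Flat n ∩ One (n + 1) ∩ Bx (n + 1) (mid f) ∧
    (gm \ {m, m'}) ∪ (gp \ {k, k'}) ⊆ (Flat n ∩ One (n + 1)) \ Bx (n + 1) (mid f)

/-- the visible surface of the jack as a union of two discs -/
def Sms (n : ℕ) (p : V) : Prop :=
  ∃ (O₁ O₂ c₁ c₂ : Set X) (A₁ A₂ : Set V) (k : Set ℕ) (g J : ℕ → Set X) (x y j j' : ℕ → X)
    (u : ℕ → V), Seams (jackS n p) O₁ O₂ c₁ c₂ (feet n p) (Ps n) (PsC n) k g x y ∧
    Cel (n + 1) O₁ c₁ A₁ ∧ Cel (n + 1) O₂ c₂ A₂ ∧ Disjoint A₁ A₂ ∧ (∀ q ∈ A₁ ∪ A₂, Kid p q) ∧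
    (∀ i ∈ k, Arc (J i) (j i) (j' i) ∧ J i ⊆ g i ∧ IsFace (u i) ∧
      J i \ {j i, j' i} ⊆ Og (n + 1) (u i) \ AnyH n ∧ x i ∉ One (n + 1) ∧ y i ∉ One (n + 1)) ∧
    InjOn u k ∧ ∀ f ∈ feet n p, (Ps n f ∩ c₂).Nonempty

end Pool.Agent.Lib.MP_b7d179_gt.M
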