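import Pool.Agent.Lib.MP_b7d179_gt.M.ChkB
import Pool.Agent.Lib.MP_b7d179_gt.M.ChkD
import Pool.Agent.Lib.MP_b7d179_gt.M.Cert
import Pool.Agent.Lib.MP_b7d179_gt.M.Spl

/-! The facts that the certificates give. -/

namespace Pool.Agent.Lib.MP_b7d179_gt.M

open Set

variable {n : ℕ} {p f g : V}

lemma fact_body (hq : (Q n p).Nonempty) : (body n p).Nonempty := hq.mono inter_subset_left

lemma fact_ne (hq : (Q n p).Nonempty) : ty n p ≠ 255 := fun e => by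
  rw [← W_Q, e, cert_full.2.2.1, (W_rl n p).zero] at hq
  exact not_nonempty_empty hq

lemma fact_dis {a b : ℕ} (h : (W n p a ∩ W n p b).Nonempty) : C.dis a b = false := by
  cases e : C.dis a b
  · rfl
  · exact absurd h (not_nonempty_iff_eq_empty.2 (disjoint_iff_inter_eq_empty.1 ((W_rl n p).dis e)))

lemma fact_face (hf : IsFace f) (h : (Ph n f).Nonempty) :
    ∃ p c, c ∈ dirs ∧ f = fc n p c ∧ ty n p ∈ downs := by
  obtain ⟨p, hp⟩ := face_has_adj hf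
  obtain ⟨c, hc, e⟩ := fc_adj hp n
  exact ⟨p, c, hc, e, ty_mem (h.mono fun x hx => ⟨hp.sub n hx.1, hx.2⟩)⟩

theorem eqv_cube (h : (body n p).Nonempty) :
    Eqv (cube n p) (cubeS n p) (bp n p) (bpS n p) (cube n p ∩ AnyH n ∩ Nb n) := by
  obtain ⟨t, ht⟩ := cert_cube _ (ty_mem h)
  have := chkEqv_ok ht
  rw [W_all, W_an, W_a0, W_Nb, W_PS] at this
  have e : cube n p ∩ AnyH n ∩ (cube n p ∩ Nb n) = cube n p ∩ AnyH n ∩ Nb n := by
    ext x; simp only [mem_inter_iff]; tauto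
  rwa [e] at this
theorem eqv_bp (h : (body n p).Nonempty) :
    Eqv (bp n p) (bpS n p) (jack n p) (jackS n p) (bpS n p ∩ N (n + 1)) := by
  obtain ⟨t, ht⟩ := cert_bp _ (ty_mem h)
  have := chkEqv_ok ht
  rw [W_an, W_Nb, W_PS, W_N1, W_JS] at this
  exact this.mono fun x hx => ⟨hx.1, hx.1.1.1, hx.2⟩
theorem full_fact (h : (body n p).Nonempty) (hq : Q n p = ∅) :
    body n p = bp n p ∧ bodyS n p = bpS n p := by
  have e : ty n p = 255 := by
    by_contra e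
    have := W_nz (n := n) (p := p) ((cert_vis _ (ty_mem h)).2 e)
    rw [W_Q, hq] at this
    exact not_nonempty_empty this
  refine ⟨?_, ?_⟩
  · rw [body, bp, ← W_N0, ← W_Nb, e, cert_full.1]
  · rw [← W_BS, ← W_PS, e, cert_full.2.1]
theorem shell_fact (hq : (Q n p).Nonempty) : ∃ W SW,
    Gl (body n p) (bodyS n p) (bp n p) (bpS n p) W SW (Qp n p) (Qp n p ∩ AnyH n) ∧ Ball W SW ∧
      Disjoint W K ∧ bodyS n p ∩ W = Osh n p ∧ Disjoint (Q n p) (Nb n) := by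
  obtain ⟨t, ht⟩ := cert_shell _ (ty_mem (fact_body hq)) (fact_ne hq)
  exact chkShell_ok ht
theorem bld_jack (h : (body n p).Nonempty) : ∃ A, Bld (n + 1) A ∧ (∀ q ∈ A, Kid p q) ∧
    BA (n + 1) A = jack n p ∧ SA (n + 1) A = jackS n p := by
  obtain ⟨t, ht⟩ := cert_jack _ (ty_mem h)
  exact chkJack_ok ht
theorem top_fact (hq : (Q n p).Nonempty) : ∃ z A, Cel (n + 1) (Top n p) z A ∧ (∀ q ∈ A, Kid p q) ∧
    Top n p ∩ AnyH n ⊆ z := by
  obtain ⟨t, ht⟩ := cert_top _ (ty_mem (fact_body hq)) (fact_ne hq)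
  exact chkTop_ok ht

lemma fact_pair (hf : Adj p f) (hg : Adj p g) (hne : f ≠ g)
    (h1 : (Top n p ∩ Bx (n + 1) (mid f)).Nonempty) (h2 : (Top n p ∩ Bx (n + 1) (mid g)).Nonempty) :
    Tri n p f g ∧ Lane n p f g := by
  obtain ⟨c, hc, rfl⟩ := fc_adj hf n
  obtain ⟨d, hd, rfl⟩ := fc_adj hg n
  have hb : (body n p).Nonempty := h1.mono fun x hx => ⟨hx.1.1, Nb_N n hx.1.2.1.1⟩
  have hT : ty n p ≠ 255 := fun e => by
    rw [← W_top, e, cert_full.2.2.2, (W_rl n p).zero, empty_inter] at h1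
    exact not_nonempty_empty h1
  rw [← W_top, ← W_mid n p hc] at h1
  rw [← W_top, ← W_mid n p hd] at h2
  rcases cert_pair _ (ty_mem hb) hT c hc d hd (fun e => hne (by rw [e]))
    (by rw [port, fact_dis h1]; rfl) (by rw [port, fact_dis h2]; rfl) with
    ⟨⟨t, ht⟩, u, hu⟩ | ⟨⟨t, ht⟩, u, hu⟩
  · exact ⟨chkTri_ok hc hd ht, chkLane_ok hc hd hu⟩
  · exact ⟨(chkTri_ok hd hc ht).symm, (chkLane_ok hd hc hu).symm⟩

theorem tri_fact (hf : Adj p f) (hg : Adj p g) (hne : f ≠ g)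
    (h1 : (Top n p ∩ Bx (n + 1) (mid f)).Nonempty) (h2 : (Top n p ∩ Bx (n + 1) (mid g)).Nonempty) :
    Tri n p f g := (fact_pair hf hg hne h1 h2).1
theorem lane_fact (hf : Adj p f) (hg : Adj p g) (hne : f ≠ g)
    (h1 : (Top n p ∩ Bx (n + 1) (mid f)).Nonempty) (h2 : (Top n p ∩ Bx (n + 1) (mid g)).Nonempty) :
    Lane n p f g := (fact_pair hf hg hne h1 h2).2
theorem bud_fact (hq : (Q n p).Nonempty) :
    ∃ T C, Disjoint T K ∧ Cutf (n + 1) (jack n p) (jackS n p) T C := by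
  obtain ⟨t, ht⟩ := cert_bud _ (ty_mem (fact_body hq)) (fact_ne hq)
  exact chkBud_ok ht
theorem kid_vis (h : (body n p).Nonempty) : ∃ q, Kid p q ∧ (Q (n + 1) q).Nonempty := by
  have h0 : 0 ∈ codes 3 := by decide
  have := W_nz (n := n) (p := p) (cert_vis _ (ty_mem h)).1
  rw [W_an, W_ch n p h0, W_V1] at this
  exact ⟨_, ch_kid n p h0, this.mono fun x hx => ⟨⟨hx.1, hx.2.1.2⟩, hx.2.2⟩⟩

lemma fact_disc (hf : IsFace f) (h : (Ph n f).Nonempty) : Disc (Ph n f) (Ph n f \ IPh n f) ∧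
    Disc (Ps n f) (PsC n f) ∧
      ∃ a x y, Arc a x y ∧ a ⊆ PsC n f ∧ Og (n + 1) (land n f) = a \ {x, y} := by
  obtain ⟨p, c, hc, rfl, hT⟩ := fact_face hf h
  rw [← W_Ph n p hc, mPh, W_an] at h
  obtain ⟨t, ht⟩ := cert_face _ hT c hc (fact_dis h)
  exact chkFace_ok hc ht

theorem disc_Ph (hf : IsFace f) (h : (Ph n f).Nonempty) : Disc (Ph n f) (Ph n f \ IPh n f) :=
  (fact_disc hf h).1
theorem disc_Ps (hf : IsFace f) (h : (Ph n f).Nonempty) : Disc (Ps n f) (PsC n f) :=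
  (fact_disc hf h).2.1
theorem arc_land (hf : IsFace f) (h : (Ph n f).Nonempty) :
    ∃ a x y, Arc a x y ∧ a ⊆ PsC n f ∧ Og (n + 1) (land n f) = a \ {x, y} := (fact_disc hf h).2.2
theorem sms_fact (h : (body n p).Nonempty) : Sms n p := by
  obtain ⟨t, ht⟩ := cert_sms _ (ty_mem h)
  refine chkSms_ok (eqv_bp h).ball.sph ⟨(adj_finite p).subset fun f hf => hf.1,
    fun f hf => disc_Ps hf.1.face hf.2, fun f hf x hx => ?_, fun f hf g hg hne => ?_⟩ ht
  · exact ⟨⟨hf.1.sub n hx.1, hx.2⟩, Or.inr (Bx_any hf.1.face n hx.1)⟩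
  · exact disjoint_left.2 fun x hx hy =>
      hne (face_uniq hf.1.face hg.1.face hx.1 hy.1 (N_One n hx.2))
theorem strip_fact (hf : IsFace f) (h : (Og n f).Nonempty) : Strip n f := by
  obtain ⟨p, c, hc, rfl, hT⟩ := fact_face hf (h.mono fun x hx => hx.1.1)
  have h' : (W n p (mOg (ty n p) c) ∩ W n p mAll).Nonempty := by
    rw [W_all, inter_eq_left.2 (W_cube n p _), W_Og n p hc]; exact h
  obtain ⟨t, ht⟩ := cert_strip _ hT c hc (fact_dis h')
  exact chkStrip_ok hc ht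

end Pool.Agent.Lib.MP_b7d179_gt.M
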