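import Pool.Agent.Lib.MP_b7d179_gt.M.Fact
import Pool.Agent.Lib.MP_b7d179_gt.M.BoxL

/-! Bodies and unions of bodies are good balls; buds, feet and landing arcs of the tower. -/

namespace Pool.Agent.Lib.MP_b7d179_gt.M

open Set

variable {n : ℕ} {p : V} {A : Set V} {B S T C U E : Set X} {l : X → Set X}

theorem eqv_body (h : (body n p).Nonempty) :
    Eqv (body n p) (bodyS n p) (bp n p) (bpS n p) (cube n p ∩ AnyH n ∩ Nb n) := by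
  have hb := (eqv_cube h).ball
  rcases (Q n p).eq_empty_or_nonempty with hq | hq
  · obtain ⟨e1, e2⟩ := full_fact h hq
    rw [e1, e2]
    exact Eqv.refl hb fun x hx => ⟨⟨hx.1.1, hx.2⟩, Or.inr hx.1.2⟩
  · obtain ⟨W, SW, g, hW, hd, -⟩ := shell_fact hq
    exact Eqv.add g hb hW hd (fun x hx => ⟨⟨hx.1.1, Nb_N n hx.2⟩, Or.inr hx.1.2⟩)
      fun x hx => ⟨hx.1.1, hx.2⟩

theorem eqv_jack (h : (body n p).Nonempty) :
    Eqv (cube n p) (cubeS n p) (jack n p) (jackS n p) (cube n p ∩ AnyH n ∩ N (n + 1)) :=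
  ((eqv_cube h).mono fun _ hx => ⟨hx.1, N_Nb n hx.2⟩).trans
    ((eqv_bp h).mono fun _ hx => ⟨⟨⟨hx.1.1, N_Nb n hx.2⟩, Or.inr hx.1.2⟩, hx.2⟩)

theorem G_body (h : (body n p).Nonempty) : G sg (body n p) (bodyS n p) :=
  (eqv_body h).symm.g ((eqv_cube h).g (G_cube h))

theorem Bld.ne (h : Bld n A) : ∀ q ∈ A, (body n q).Nonempty := by
  induction h with
  | one h =>
    rintro q rfl
    exact h
  | add _ _ g hD _ ih =>
    rintro q (rfl | hq)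
    · obtain ⟨x, hx, -⟩ := hD
      exact ⟨x, (g.i.ge hx).2⟩
    · exact ih q hq

/-- a point off the dual edges in two disjoint sets of bodies gives a common face -/
theorem common_face {A' : Set V} (hd : Disjoint A A') {x : X} (hx : x ∈ BA n A ∩ BA n A' ∩ One n) :
    ∃ f, IsFace f ∧ x ∈ Ph n f ∧ Ph n f ⊆ BA n A ∩ BA n A' := by
  obtain ⟨⟨⟨hN, q, hq, xq⟩, -, q', hq', xq'⟩, h1⟩ := hx
  obtain ⟨f, a, a', xf⟩ := two_cubes xq xq' (hd.ne_of_mem hq hq') h1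
  exact ⟨f, a.face, ⟨xf, hN⟩, fun y hy =>
    ⟨⟨hy.2, q, hq, a.sub n hy.1⟩, hy.2, q', hq', a'.sub n hy.1⟩⟩

theorem gb_K {A' : Set V} (hd : Disjoint A A') (h : (BA n A ∩ BA n A' ∩ One n).Nonempty) :
    (K ∩ (BA n A ∩ BA n A')).Nonempty := by
  obtain ⟨x, hx⟩ := h
  obtain ⟨f, hf, xf, s⟩ := common_face hd hx
  obtain ⟨y, hy⟩ := K_Ph hf ⟨x, xf⟩
  exact ⟨y, hy.1, s hy.2⟩

theorem Bld.g (h : Bld n A) : G sg (BA n A) (SA n A) := by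
  induction h with
  | one h =>
    rw [BA_single, SA_single]
    exact G_body h
  | @add A d D C hA hd g hD hC ih =>
    have hb : (body n d).Nonempty := let ⟨x, hx, _⟩ := hD; ⟨x, (g.i.ge hx).2⟩
    refine G.glue1 ih (G_body hb) g ⟨g.d, disjoint_left.2 fun x hx hK => ?_, ?_⟩
    · exact disjoint_left.1 (K_M n) hK (hC.le ⟨hx, K_One n hK⟩).1.2
    · rw [← g.i, ← BA_single] at hD ⊢
      exact gb_K (disjoint_singleton_right.2 hd) hD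

theorem Cutf.sol (h : Cutf n B S T C) : Sol sg B S {(T, C)} := by
  obtain ⟨L, R, D, bL, bR, hd, dT, dD, hC, hD, ls, lr, ds, u, sL, sR⟩ := h
  refine sol_one (sL ▸ bL.g) (sR ▸ bR.g) dT ⟨dD, hC, ?_⟩ ls lr ds u
  rw [← lr] at hD ⊢
  exact gb_K hd hD

theorem sg_bud : ∀ v, ∃ w ∈ sg.ch v, ∃ E C, Disjoint E sg.K ∧ Sol sg (sg.B w) (sg.S w) {(E, C)} := by
  rintro ⟨⟨m, p⟩, h⟩
  obtain ⟨q, kq, x, hx⟩ := kid_vis h
  obtain ⟨r, kr, hr⟩ := kid_vis (⟨x, hx.1⟩ : (body (2 * m + 1) q).Nonempty)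
  have hr' : (Q (2 * (m + 1)) r).Nonempty := hr
  have hb : (body (2 * (m + 1)) r).Nonempty := let ⟨y, hy⟩ := hr'; ⟨y, hy.1⟩
  obtain ⟨T, C, hT, hc⟩ := bud_fact hr'
  have hs := hc.sol
  exact ⟨⟨(m + 1, r), hb⟩, ⟨rfl, q, kq, kr⟩,
    (eqv_jack hb).symm.bud (hs.facts.2.2 _ rfl).2.1 hT hs⟩

theorem sg_foot : ∀ f, KD sg.K (sg.A f) (sg.C f) := by
  rintro ⟨⟨m, f⟩, hf, h⟩
  obtain ⟨x, hx⟩ := K_Ph hf h
  exact ⟨disc_Ps hf h, disjoint_left.2 fun y hy hK => (K_Ps ⟨hK, hy.1.1⟩).2 hy,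
    x, hx.1, (K_Ps ⟨hx.1, hx.2.1⟩).1⟩

theorem sg_land : ∀ f, ∃ a p q, Arc a p q ∧ a ⊆ sg.C f ∧ sg.J f = a \ {p, q} :=
  fun f => arc_land f.2.1 f.2.2

end Pool.Agent.Lib.MP_b7d179_gt.M
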