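import Pool.Agent.Lib.MP_b7d179_gt.M.GB

namespace Pool.Agent.Lib.MP_b7d179_gt.M

open Set

/-- splitting on both discs -/
theorem init_core {n : ℕ} {p : V} {S Φ X₀ : Set X} {O c : Bool → Set X} {A : Bool → Set V}
    {s : Bool → Set (Set X)} {x y : Set X → X} (hS : S ⊆ cube n p)
    (cel : ∀ t, Cel (n + 1) (O t) (c t) (A t)) (sys : ∀ t, Sys (O t) (c t) (s t) id x y)
    (oS : ∀ t, O t ⊆ S) (off : ∀ t, O t ∩ Φ ⊆ c t) (int : ∀ t, O t ∩ O (!t) ⊆ c t)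
    (dA : ∀ t, Disjoint (A t) (A (!t))) (kid : ∀ t, ∀ q ∈ A t, Kid p q)
    (hX : ∀ t, X₀ ∩ O t = ⋃₀ s t) (hU : ⋃₀ s false ∪ ⋃₀ s true = X₀)
    (he : ∀ t, ∀ b ∈ s t, Ends (n + 1) (x b) (y b))
    (hz : ∀ t, ∀ b ∈ s t, ∀ e ∈ ({x b, y b} : Set X), e ∈ AnyH n ∨ e ∈ O (!t)) :
    ∃ (κ : Type) (_ : Finite κ) (U : κ → Set X) (B : κ → Set V) (Ψ : X → X), Iso S Φ Ψ ∧
      (⋃ j, U j) = Ψ '' X₀ ∧ (Whole n (⋃ j, U j) → Sub1 n p U B) := by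
  choose F sup nc using fun t => splitAll (cel t) (sys t) (he t)
  have fx : ∀ t, ∀ z ∈ O (!t), F t z = z := fun t z hz =>
    (sup t).fix z fun k => k.2 (int t ⟨k.1, hz⟩)
  have bO : ∀ t, ∀ b ∈ s t, b ⊆ O t := fun t b hb => ((sys t).cc b hb).sub
  have iO : ∀ t, ∀ b ∈ s t, F t '' b ⊆ O t := fun t b hb =>
    (image_mono (bO t b hb)).trans (sup t).img.le
  have iso : ∀ t, Iso S Φ (F t) := fun t => (sup t).iso (cel t).disc (oS t)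
    (disjoint_left.2 fun z a b => a.2 (off t ⟨a.1, b⟩))
  have fin : Finite {z : Bool × Set X // z.2 ∈ s z.1} := by
    refine Finite.subset (((sys false).fin.image fun b => (false, b)).union
      ((sys true).fin.image fun b => (true, b))) (t := {z : Bool × Set X | z.2 ∈ s z.1}) ?_
    rintro ⟨_ | _, b⟩ h
    · exact Or.inl ⟨b, h, rfl⟩
    · exact Or.inr ⟨b, h, rfl⟩
  refine ⟨{z : Bool × Set X // z.2 ∈ s z.1}, fin, fun z => F z.1.1 '' z.1.2, fun z => A z.1.1,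
    F true ∘ F false, (iso true).comp (iso false), ?_,
    fun wh => ⟨fun j => kid _, fun j => (nc _ _ j.2).ins, ?_,
      fun j => (iO _ _ j.2).trans ((oS _).trans hS), ?_, wh⟩⟩
  · rw [← hU]
    ext w
    simp only [mem_iUnion]
    constructor
    · rintro ⟨⟨⟨_ | _, b⟩, hb⟩, z, hz, rfl⟩
      · exact ⟨z, Or.inl ⟨b, hb, hz⟩, fx true _ (iO false b hb ⟨z, hz, rfl⟩)⟩
      · exact ⟨z, Or.inr ⟨b, hb, hz⟩, congrArg _ (fx false _ (bO true b hb hz))⟩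
    · rintro ⟨z, ⟨b, hb, hz⟩ | ⟨b, hb, hz⟩, rfl⟩
      · exact ⟨⟨(false, b), hb⟩, z, hz, (fx true _ (iO false b hb ⟨z, hz, rfl⟩)).symm⟩
      · exact ⟨⟨(true, b), hb⟩, z, hz, congrArg _ (fx false _ (bO true b hb hz)).symm⟩
  · rintro q kq ⟨⟨t, b⟩, hb⟩ e ⟨eb, eq⟩
    by_cases hq : q ∈ A t
    · exact ⟨⟨(t, b), hb⟩, hq, eb⟩
    have ee := (nc t b hb).out q hq ⟨eb, eq⟩
    obtain ⟨q1, h1, e1⟩ := (nc t b hb).cov eb
    have one : e ∈ One (n + 1) := by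
      obtain ⟨v1, v2⟩ := (he t b hb).vo
      rcases ee with rfl | rfl
      · exact v1.2
      · exact v2.2
    rcases hz t b hb e ee with a | a
    · exact absurd (kid_uniq_any kq (kid t q1 h1) eq e1 one a ▸ h1) hq
    have e0 : e ∈ b := ((sys t).cc b hb).arc.ends ee
    have eX : e ∈ X₀ := ((hX t).ge ⟨b, hb, e0⟩).1
    obtain ⟨b', hb', e'⟩ := (hX (!t)).le ⟨eX, a⟩
    have eb' : e ∈ F (!t) '' b' := ⟨e, e', fx _ _ (by rw [Bool.not_not]; exact bO t b hb e0)⟩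
    obtain ⟨q2, h2, e2⟩ := (nc _ b' hb').cov eb'
    rcases three_cubes eq e1 e2 one with k | k | k
    · exact absurd (k ▸ h1) hq
    · exact ⟨⟨(!t, b'), hb'⟩, k ▸ h2, eb'⟩
    · exact absurd (k ▸ h2) (disjoint_left.1 (dA t) h1)
  · rintro q ⟨⟨t, b⟩, hb⟩ ⟨⟨t', b'⟩, hb'⟩ ne h1 h2
    obtain rfl : t = t' := by
      by_contra k
      obtain rfl : t' = !t := by cases t <;> cases t' <;> simp_all
      exact disjoint_left.1 (dA t) h1 h2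
    refine Disjoint.mono inter_subset_left inter_subset_left ?_
    exact disjoint_image_of_injective (iso t).injective
      ((sys t).disj hb hb' fun k => ne (by subst k; rfl))

theorem init_feet (v : sg.β) :
    (⋃ k ∈ sg.F v, sg.A k) = ⋃ f ∈ feet (2 * v.1.1) v.1.2, Ps (2 * v.1.1) f := by
  obtain ⟨⟨m, p⟩, hp⟩ := v
  ext z
  simp only [mem_iUnion]
  constructor
  · rintro ⟨⟨⟨m', f⟩, hf⟩, ⟨e, a⟩, hz⟩
    obtain rfl : m' = m := e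
    exact ⟨f, ⟨a, hf.2⟩, hz⟩
  · rintro ⟨f, hf, hz⟩
    exact ⟨⟨(m, f), hf.1.face, hf.2⟩, ⟨rfl, hf.1⟩, hz⟩

theorem init_J (k : sg.φ) : sg.J k ⊆ sg.A k := fun _ hz =>
  ⟨(land_sub k.2.1).2 hz.1.1.1, hz.1.1.2⟩

/-- an arc in one of the two discs with both ends on one foot is not essential -/
theorem init_ess {S S' Φ O c a W W₁ W₂ : Set X} {T : X → X} (kS : IsCompact S) (hT : Emb T S)
    (iT : T '' S = S') (fT : EqOn T id Φ) (sΦ : Φ ⊆ S) (hO : Disc O c) (oS : O ⊆ S')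
    (off : O ∩ Φ ⊆ c) (sW : W ⊆ Φ) (ha : T '' a ∩ O ⊆ W) (s1 : W₁ ⊆ Φ) (s2 : W₂ ⊆ Φ)
    (d1 : Disjoint W₁ W) (d2 : Disjoint W₂ W) (m1 : (W₁ ∩ c).Nonempty) (m2 : (W₂ ∩ c).Nonempty)
    (h : ∀ Y, IsPreconnected Y → Y ⊆ S \ (W ∪ a) → Disjoint Y W₁ ∨ Disjoint Y W₂) : False := by
  obtain ⟨G, eG, l, -, -⟩ := hT.inv kS
  rw [iT] at eG
  have pc : IsPreconnected (O \ (O ∩ W)) := hO.conn_diff fun z hz => off ⟨hz.1, sW hz.2⟩
  have key : ∀ W' ⊆ Φ, Disjoint W' W → (W' ∩ c).Nonempty → ¬ Disjoint (G '' (O \ (O ∩ W))) W' := by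
    rintro W' s d ⟨w, w1, w2⟩ k
    refine disjoint_left.1 k ⟨w, ⟨hO.rim_sub w2, fun e => disjoint_left.1 d w1 e.2⟩, ?_⟩ w1
    have := l w (sΦ (s w1))
    rwa [fT (s w1)] at this
  refine (h _ (pc.image _ (eG.1.mono (sdiff_subset.trans oS))) ?_).elim (key _ s1 d1 m1)
    (key _ s2 d2 m2)
  rintro _ ⟨w, hw, rfl⟩
  obtain ⟨z, hz, rfl⟩ := iT.ge (oS hw.1)
  rw [l z hz]
  refine ⟨hz, fun e => hw.2 ⟨hw.1, ?_⟩⟩
  rcases e with e | e
  · rw [fT (sW e)]; exact e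
  · exact ha ⟨⟨z, e, rfl⟩, hw.1⟩

/-- one cube: normal form of an essential system on the jack -/
theorem init1 (v : sg.β) {E : sg.φ → Set X} {Y : Set X} (h : Ess sg (sg.S v) (sg.F v) E Y) :
    ∃ (κ : Type) (_ : Finite κ) (U : κ → Set X) (B : κ → Set V), Sub1 (2 * v.1.1) v.1.2 U B ∧
      (⋃ j, U j) ∩ AnyH (2 * v.1.1) = (⋃ f ∈ sg.F v, E f) ∧
      (∀ f ∈ sg.F v, E f ⊆ sg.J f) ∧
      ∀ Λ ⊆ cube (2 * v.1.1) v.1.2 ∩ AnyH (2 * v.1.1) ∩ N (2 * v.1.1 + 1),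
        SolU sg (jack (2 * v.1.1) v.1.2) (jackS (2 * v.1.1) v.1.2) ((⋃ j, U j) ∪ Λ) →
        SolU sg (sg.B v) (sg.S v) (Y ∪ Λ) := by
  obtain ⟨ι, fι, a, P, R, f, g, ha, hd, rfl, hE⟩ := h
  have eF := init_feet v
  have lv : ∀ k ∈ sg.F v, k.1.1 = v.1.1 := fun k hk => hk.1
  have AF : ∀ k ∈ sg.F v, sg.A k = Ps (2 * v.1.1) k.1.2 := fun k hk => by rw [← lv k hk]; rfl
  have JF : ∀ k ∈ sg.F v, sg.J k = Og (2 * v.1.1 + 1) (land (2 * v.1.1) k.1.2) := fun k hk => by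
    rw [← lv k hk]; rfl
  have fF : ∀ k ∈ sg.F v, k.1.2 ∈ feet (2 * v.1.1) v.1.2 := fun k hk =>
    ⟨hk.2, lv k hk ▸ k.2.2⟩
  have same : ∀ k ∈ sg.F v, ∀ l ∈ sg.F v, k.1.2 = l.1.2 → k = l := fun k hk l hl e =>
    Subtype.ext (Prod.ext ((lv k hk).trans (lv l hl).symm) e)
  have dF : ∀ k ∈ sg.F v, ∀ l ∈ sg.F v, k ≠ l → Disjoint (sg.A k) (sg.A l) := fun k hk l hl =>
    sg_fdj k l ((lv k hk).trans (lv l hl).symm)
  have hb := v.2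
  have eB : sg.B v = cube (2 * v.1.1) v.1.2 := rfl
  have eS : sg.S v = cubeS (2 * v.1.1) v.1.2 := rfl
  rw [eB, eS]
  rw [eS, eF] at ha
  generalize 2 * v.1.1 = n at *
  generalize v.1.2 = p at *
  have eq := eqv_jack hb
  have bJ := eq.ball
  have eΦ := feet_union n p
  rw [← eΦ] at eq ⊢
  set Φ := ⋃ f ∈ feet n p, Ps n f with dΦ
  obtain ⟨bC, sΦ, k, mk, i1, i2, fk⟩ := eq
  have AΦ : ∀ l ∈ sg.F v, sg.A l ⊆ Φ := fun l hl => eF ▸ subset_biUnion_of_mem hl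
  have PΦ : ∀ i, P i ∈ Φ ∧ R i ∈ Φ := fun i =>
    ⟨((ha i).2.2.2.2.2.2.1.ge (mem_insert _ _)).2,
      ((ha i).2.2.2.2.2.2.1.ge (mem_insert_of_mem _ rfl)).2⟩
  have ek : Emb k (cubeS n p) := mk.1.mono bC.rim_sub
  have kΦ : k '' Φ = Φ := (image_congr fk).trans (image_id' _)
  have arcs : Arcs (jackS n p) Φ univ (fun i => k '' a i) P R := by
    refine ⟨finite_univ, fun i _ => ?_, fun i _ => i2 ▸ image_mono (ha i).2.1, fun i _ => ?_,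
      fun i _ j _ ne => ek.disjoint (ha i).2.1 (ha j).2.1 (hd ne)⟩
    · have := (ha i).1.image ek (ha i).2.1
      rwa [fk (PΦ i).1, fk (PΦ i).2] at this
    · rw [← kΦ, ← ek.inter (ha i).2.1 sΦ, (ha i).2.2.2.2.2.2.1, image_pair, fk (PΦ i).1,
        fk (PΦ i).2]; rfl
  have PJ : ∀ i, P i ∈ Og (n + 1) (land n (f i).1.2) ∧ R i ∈ Og (n + 1) (land n (g i).1.2) :=
    fun i => ⟨JF _ (ha i).2.2.1 ▸ (ha i).2.2.2.2.1, JF _ (ha i).2.2.2.1 ▸ (ha i).2.2.2.2.2.1⟩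
  obtain ⟨O₁, O₂, c₁, c₂, A₁, A₂, ks, γ, J, x, y, j, j', u, sm, ce1, ce2, dA, kid, hJ, iu, mt⟩ :=
    sms_fact hb
  have noend : ∀ z ∈ Φ, z ∈ One (n + 1) → z ∉ ⋃ l ∈ ks, γ l := fun z zΦ z1 hz => by
    obtain ⟨l, hl, hz⟩ := mem_iUnion₂.1 hz
    rcases (sm.arc l hl).2.2.le ⟨hz, zΦ⟩ with rfl | rfl
    · exact (hJ l hl).2.2.2.2.1 z1
    · exact (hJ l hl).2.2.2.2.2 z1
  obtain ⟨F, iF, s₁, s₂, x', y', sy1, sy2, X1, X2, XU, XJ, hp⟩ :=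
    nf2 sm (fun l hl => ⟨(hJ l hl).1, (hJ l hl).2.1⟩) arcs
      fun i _ => ⟨noend _ (PΦ i).1 (PJ i).1.2, noend _ (PΦ i).2 (PJ i).2.2⟩
  have arcs' := arcs.iso sm.sph iF
  have SC : jackS n p ⊆ cube n p ∩ N (n + 1) := inter_subset_left
  have o1 : O₁ ⊆ jackS n p := sm.union ▸ subset_union_left.trans subset_union_left
  have o2 : O₂ ⊆ jackS n p := sm.union ▸ subset_union_right.trans subset_union_left
  have γc : (⋃ l ∈ ks, γ l) ⊆ c₁ ∩ c₂ := iUnion₂_subset fun l hl => (sm.arc l hl).2.1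
  have ΦH : Φ ⊆ AnyH n := eΦ ▸ fun z hz => hz.1.2
  -- the ends of a piece
  have side : ∀ {O c O' c' : Set X} {s : Set (Set X)}, Sys O c s id x' y' → s ⊆ s₁ ∪ s₂ →
      c ⊆ (⋃ l ∈ ks, γ l) ∪ Φ → O ∩ O' ⊆ c → (⋃ l ∈ ks, γ l) ⊆ O' → Disc O' c' →
      O' ⊆ jackS n p → O' ∩ Φ ⊆ c' → (∀ f ∈ feet n p, (Ps n f ∩ c').Nonempty) →
      ∀ b ∈ s, Ends (n + 1) (x' b) (y' b) ∧
        ∀ e ∈ ({x' b, y' b} : Set X), e ∈ AnyH n ∨ e ∈ O' := by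
    intro O c O' c' s sy ss rim int γO dO oS off meet b hb
    have cc := sy.cc b hb
    obtain ⟨ns, i, -, bi, wh⟩ := hp b (ss hb)
    have ec : ∀ e ∈ ({x' b, y' b} : Set X), e ∈ b ∧ e ∈ c := fun e he => cc.inter.ge he
    refine ⟨?_, fun e he => (rim (ec e he).2).symm.imp (fun t => ΦH t) fun t => γO t⟩
    have ty : ∀ e ∈ ({x' b, y' b} : Set X),
        (∃ l ∈ ks, e ∈ γ l ∧ e ∈ Og (n + 1) (u l) ∧ e ∉ AnyH n) ∨
          (e ∈ Φ ∧ (e = P i ∨ e = R i)) := fun e he => by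
      rcases rim (ec e he).2 with t | t
      · obtain ⟨l, hl, w⟩ := mem_iUnion₂.1 (XJ ⟨mem_iUnion₂.2 ⟨i, trivial, bi (ec e he).1⟩, t⟩)
        have := (hJ l hl).2.2.2.1 w
        exact Or.inl ⟨l, hl, (hJ l hl).2.1 w.1, this.1, this.2⟩
      · exact Or.inr ⟨t, (arcs'.inter i trivial).le ⟨bi (ec e he).1, t⟩⟩
    have mix : ∀ {e e' : X} {l : ℕ}, l ∈ ks → e ∈ Og (n + 1) (u l) → e ∉ AnyH n →
        (e' = P i ∨ e' = R i) → Ends (n + 1) e e' := by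
      intro e e' l hl e1 e2 t
      have w : ∀ k : sg.φ, e' ∈ Og (n + 1) (land n k.1.2) → Ends (n + 1) e e' := fun k hk =>
        ⟨_, _, (hJ l hl).2.2.1, (land_sub k.2.1).1,
          fun q => e2 (Bx_any k.2.1 n ((land_sub k.2.1).2 (q ▸ e1.1.1.1))), e1, hk⟩
      rcases t with rfl | rfl
      · exact w _ (PJ i).1
      · exact w _ (PJ i).2
    rcases ty _ (mem_insert _ _) with ⟨l, hl, a1, a2, a3⟩ | ⟨a1, a2⟩ <;>
      rcases ty _ (mem_insert_of_mem _ rfl) with ⟨l', hl', b1, b2, b3⟩ | ⟨b1, b2⟩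
    · refine ⟨_, _, (hJ l hl).2.2.1, (hJ l' hl').2.2.1, fun q => ?_, a2, b2⟩
      obtain rfl := iu hl hl' q
      exact ns l hl ⟨a1, b1⟩
    · exact mix hl a2 a3 b2
    · exact (mix hl' b2 b3 a2).symm
    have main : Ends (n + 1) (P i) (R i) := by
      refine ⟨_, _, (land_sub (f i).2.1).1, (land_sub (g i).2.1).1, fun q => ?_, (PJ i).1, (PJ i).2⟩
      have fg : f i = g i := same _ (ha i).2.2.1 _ (ha i).2.2.2.1 <|
        face_uniq (f i).2.1 (g i).2.1 ((land_sub (f i).2.1).2 (PJ i).1.1.1.1)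
          ((land_sub (g i).2.1).2 (q ▸ (PJ i).1.1.1.1)) (One_succ n (PJ i).1.2)
      obtain ⟨k1, h1, k2, h2, n1, n2, es⟩ := (ha i).2.2.2.2.2.2.2 fg
      obtain ⟨eF1, eF2⟩ := iF.emb sm.sph
      refine init_ess (T := F ∘ k) bC.rim_compact (eF1.comp ek i2.le)
        (by rw [image_comp, i2, eF2]) (fun z hz => ?_) sΦ dO oS off (AΦ _ (ha i).2.2.1) ?_
        (AΦ _ h1) (AΦ _ h2) (dF _ h1 _ (ha i).2.2.1 n1) (dF _ h2 _ (ha i).2.2.1 n2)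
        (AF _ h1 ▸ meet _ (fF _ h1)) (AF _ h2 ▸ meet _ (fF _ h2)) es
      · rw [Function.comp, fk hz]; exact iF.fix (Or.inl hz)
      · rw [image_comp, ← wh a1 b1]
        intro z hz
        have w : ∀ e, (e = P i ∨ e = R i) → e ∈ sg.A (f i) := by
          rintro e (rfl | rfl)
          · exact init_J _ (ha i).2.2.2.2.1
          · exact fg ▸ init_J _ (ha i).2.2.2.2.2.1
        rcases cc.inter.le ⟨hz.1, int ⟨cc.sub hz.1, hz.2⟩⟩ with rfl | rfl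
        · exact w _ a2
        · exact w _ b2
    have ne := cc.arc.ne
    rcases a2 with a2 | a2 <;> rcases b2 with b2 | b2
    · exact absurd (a2.trans b2.symm) ne
    · rw [a2, b2]; exact main
    · rw [a2, b2]; exact main.symm
    · exact absurd (a2.trans b2.symm) ne
  have i12 : O₁ ∩ O₂ ⊆ c₁ ∩ c₂ := sm.inter ▸ γc
  have r1 := side sy1 subset_union_left sm.rim1 (fun z hz => (i12 hz).1)
    (fun z hz => sm.d2.rim_sub (γc hz).2) sm.d2 o2 sm.off2 mt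
  have r2 := side sy2 subset_union_right sm.rim2 (fun z hz => (i12 ⟨hz.2, hz.1⟩).2)
    (fun z hz => sm.d1.rim_sub (γc hz).1) sm.d1 o1 sm.off1 sm.meet
  obtain ⟨κ, fκ, U, B, Ψ, iΨ, eU, sub⟩ := init_core (n := n) (p := p) (S := jackS n p) (Φ := Φ)
    (X₀ := ⋃ i ∈ (univ : Set ι), F '' (k '' a i)) (O := fun t => cond t O₂ O₁)
    (c := fun t => cond t c₂ c₁) (A := fun t => cond t A₂ A₁) (s := fun t => cond t s₂ s₁)
    (x := x') (y := y') (fun z hz => (SC hz).1) (Bool.forall_bool.2 ⟨ce1, ce2⟩)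
    (Bool.forall_bool.2 ⟨sy1, sy2⟩) (Bool.forall_bool.2 ⟨o1, o2⟩)
    (Bool.forall_bool.2 ⟨sm.off1, sm.off2⟩)
    (Bool.forall_bool.2 ⟨fun z hz => (i12 hz).1, fun z hz => (i12 ⟨hz.2, hz.1⟩).2⟩)
    (Bool.forall_bool.2 ⟨dA, dA.symm⟩)
    (Bool.forall_bool.2 ⟨fun q hq => kid q (Or.inl hq), fun q hq => kid q (Or.inr hq)⟩)
    (Bool.forall_bool.2 ⟨X1, X2⟩) XU
    (Bool.forall_bool.2 ⟨fun b hb => (r1 b hb).1, fun b hb => (r2 b hb).1⟩)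
    (Bool.forall_bool.2 ⟨fun b hb => (r1 b hb).2, fun b hb => (r2 b hb).2⟩)
  have iT := iΨ.comp iF
  have arcs2 := arcs.iso sm.sph iT
  have eU' : (⋃ j, U j) = ⋃ i ∈ (univ : Set ι), (Ψ ∘ F) '' (k '' a i) := by
    rw [eU, image_iUnion₂]
    exact iUnion₂_congr fun i _ => (image_comp _ _ _).symm
  have wH : ∀ i, (Ψ ∘ F) '' (k '' a i) ∩ AnyH n = {P i, R i} := fun i => by
    rw [← arcs2.inter i trivial]
    refine Subset.antisymm (fun z hz => ⟨hz.1, ?_⟩) (inter_subset_inter_right _ ΦH)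
    have := SC (arcs2.sub i trivial hz.1)
    exact eΦ ▸ ⟨⟨this.1, hz.2⟩, this.2⟩
  refine ⟨κ, fκ, U, B, sub ⟨ι, univ, _, P, R, ⟨finite_univ, arcs2.arc, fun _ _ => subset_univ _,
    fun i _ => wH i, arcs2.disj⟩, eU'⟩, ?_, fun l hl z hz => ?_, fun Λ hΛ hs => ?_⟩
  · rw [eU', iUnion₂_congr hE, ← inter_iUnion₂, eF, biUnion_univ, iUnion_inter, iUnion_inter]
    exact iUnion_congr fun i => (wH i).trans (ha i).2.2.2.2.2.2.1.symm
  · rw [hE l hl] at hz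
    obtain ⟨i, hi⟩ := mem_iUnion.1 hz.1
    have w : ∀ k ∈ sg.F v, z ∈ sg.J k → z ∈ sg.J l := fun k hk t => by
      by_cases e : k = l
      · exact e ▸ t
      · exact absurd hz.2 (disjoint_left.1 (dF k hk l hl e) (init_J k t))
    rcases (ha i).2.2.2.2.2.2.1.le ⟨hi, AΦ l hl hz.2⟩ with rfl | rfl
    · exact w _ (ha i).2.2.1 (ha i).2.2.2.2.1
    · exact w _ (ha i).2.2.2.1 (ha i).2.2.2.2.2.1
  · have sY : (⋃ i, a i) ∪ Λ ⊆ cubeS n p :=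
      union_subset (iUnion_subset fun i => (ha i).2.1) (hΛ.trans sΦ)
    refine solU_back bC mk sY ?_
    rw [i1, i2]
    refine solU_iso bJ (clear_of_discs sm.sph (v := PsC n) (fun l hl => ⟨sm.holes.disc l hl,
      sm.holes.sub l hl, disjoint_left.2 fun z a b => disjoint_left.1 (K_M _) b a.2⟩) ?_) iT
      (i2 ▸ image_mono sY) ?_
    · rintro z ⟨zK, zj, t | t⟩
      · exact absurd t (disjoint_left.1 (K_M _) zK)
      · exact eΦ.ge ⟨⟨zj.1, t⟩, zj.2⟩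
    · have e1 : k '' Λ = Λ := (image_congr fun z hz => fk (hΛ hz)).trans (image_id' _)
      have e2 : (Ψ ∘ F) '' Λ = Λ :=
        (image_congr fun z hz => iT.fix (Or.inl (hΛ hz))).trans (image_id' _)
      rw [image_union, image_union, e1, e2, image_iUnion, image_iUnion, ← biUnion_univ, ← eU']
      exact hs

end Pool.Agent.Lib.MP_b7d179_gt.M
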