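import Pool.Agent.Lib.MP_b7d179_gt.M.Step

namespace Pool.Agent.Lib.MP_b7d179_gt.M

open Set

variable {n : ℕ} {p : V} {A : Set V} {ι : Type} [Finite ι] {E : Set X} {acc l : X → Set X}
  {r : X → X}

theorem laneR_mid {f : V} (hf : IsFace f) : IsFace (mid f) := (mid_sub (n := 0) hf).1

theorem laneR_vo (hA : Acs n E acc r) (hV : E ⊆ Vo n) : r '' E ⊆ Vo (n + 1) := by
  rintro _ ⟨e, he, rfl⟩
  exact (hA.vo hV he).1.1

theorem laneR_end {f : V} {e : X} (hA : Acs n E acc r) (hV : E ⊆ Vo n) (hl : Lo (n + 1) (r '' E) l)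
    (hf : IsFace f) (he : e ∈ E) (h0 : r e ∈ Bx (n + 1) (mid f)) :
    r e ∈ l (r e) ∧ IsConnected (l (r e)) ∧ l (r e) ⊆ Ph (n + 1) (mid f) ∩ One (n + 1) := by
  have a := hl.sub (laneR_vo hA hV) ⟨e, he, rfl⟩
  have b := (hl.pop _ ⟨e, he, rfl⟩ _ (laneR_mid hf) h0).facts
  exact ⟨a.1, b.2.2.2.1, fun w hw => ⟨b.1 hw, (a.2.1 hw).2⟩⟩

/-- one cube with one piece -/
theorem lane1 {a : Set X} (hp : Pc n p a) (hm : a ∩ AnyH n = E ∩ cube n p) (hA : Acs n E acc r)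
    (hV : E ⊆ Vo n) (h0 : ∀ e ∈ E, ∀ f, IsFace f → e ∈ Bx n f → r e ∈ Bx (n + 1) (mid f))
    (hl : Lo (n + 1) (r '' E) l)
    (hK : ∀ e ∈ E, ∀ f, IsFace f → e ∈ Bx n f → K ∩ Bx (n + 1) (mid f) ⊆ l (r e)) :
    SolU sg (body n p) (bodyS n p) (a ∪ ⋃ e ∈ E ∩ cube n p, acc e ∪ l (r e)) := by
  obtain ⟨x, y, f, g, af, ag, ne, xf, yg, arc, aq, ends⟩ := hp.adj
  have e2 : E ∩ cube n p = {x, y} := hm.symm.trans ends
  have xE : x ∈ E := (e2.ge (mem_insert _ _)).1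
  have yE : y ∈ E := (e2.ge (mem_insert_of_mem _ rfl)).1
  have rx := h0 x xE f af.face xf.1.1.1
  have ry := h0 y yE g ag.face yg.1.1.1
  have tx : r x ∈ Top n p := ⟨af.sub n ((mid_sub af.face).2 rx), (hA.fl x xE).1⟩
  have ty : r y ∈ Top n p := ⟨ag.sub n ((mid_sub ag.face).2 ry), (hA.fl y yE).1⟩
  obtain ⟨Z, z, T, C, hZ, hT, hz, hi, hP, kT, cf⟩ := lane_fact af ag ne ⟨_, tx, rx⟩ ⟨_, ty, ry⟩
  obtain ⟨x1, x2, x3⟩ := laneR_end hA hV hl af.face xE rx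
  obtain ⟨y1, y2, y3⟩ := laneR_end hA hV hl ag.face yE ry
  obtain ⟨-, b, hb, push⟩ := locPush (ι := Unit) (s := univ) (a := fun _ => a) (x := fun _ => x)
    (y := fun _ => y) ⟨x, aq arc.left⟩ ⟨finite_univ, fun _ _ => arc, fun _ _ => aq, fun _ _ => ends,
      subsingleton_univ.pairwise _⟩ hV (fun _ _ => ⟨xE, yE⟩) hA hZ hT
    fun _ _ => ⟨hz ⟨tx, .inl rx⟩, hz ⟨ty, .inr ry⟩⟩
  have cc := hb.cc () trivial
  have lx : l (r x) ⊆ T \ C := fun w hw => hP ⟨.inl (x3 hw).1, (x3 hw).2⟩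
  have ly : l (r y) ⊆ T \ C := fun w hw => hP ⟨.inr (y3 hw).1, (y3 hw).2⟩
  have sub : b () ∪ (l (r x) ∪ l (r y)) ⊆ T \ C := by
    refine union_subset (fun w hw => ?_) (union_subset lx ly)
    by_cases k : w ∈ z
    · rcases cc.inter.le ⟨hw, k⟩ with rfl | rfl
      exacts [lx x1, ly y1]
    · exact hi ⟨cc.sub hw, k⟩
  have con : IsConnected (b () ∪ (l (r x) ∪ l (r y))) := by
    rw [← union_assoc]
    exact IsConnected.union ⟨_, .inl cc.arc.right, y1⟩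
      (IsConnected.union ⟨_, cc.arc.left, x1⟩ ⟨⟨_, cc.arc.left⟩, cc.arc.conn⟩ x2) y2
  have sol := cf.sol
  obtain ⟨L, R, D, -, -, -, dT, -, dK, -, eT, -⟩ := cf
  have key := push id ⟨emb_id _, image_id _, fun _ _ => rfl⟩ (l (r x) ∪ l (r y))
    (union_subset
      (fun w hw => ⟨⟨af.sub n ((mid_sub af.face).2 (x3 hw).1.1),
        Bx_any af.face n ((mid_sub af.face).2 (x3 hw).1.1)⟩, (x3 hw).1.2⟩)
      fun w hw => ⟨⟨ag.sub n ((mid_sub ag.face).2 (y3 hw).1.1),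
        Bx_any ag.face n ((mid_sub ag.face).2 (y3 hw).1.1)⟩, (y3 hw).1.2⟩) (by
    have e : (⋃ i ∈ (univ : Set Unit), id '' b i) = b () := by
      ext w
      simp only [mem_iUnion, image_id, mem_univ, exists_const]
      exact ⟨fun ⟨_, h⟩ => h, fun h => ⟨(), h⟩⟩
    rw [e]
    refine ⟨{(T, C)}, ⟨finite_singleton _, ?_, ?_, ?_, ?_, ?_, pairwiseDisjoint_singleton _ _, ?_⟩,
      sol⟩
    · rintro _ rfl
      exact dT
    · rintro _ rfl
      exact eT.ge.trans inter_subset_right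
    · rintro _ rfl
      rwa [inter_eq_left.2 (sub.trans sdiff_subset)]
    · rintro _ rfl
      exact dK
    · rintro _ rfl w hw
      rcases kT hw with k | k
      exacts [.inr (.inl (hK x xE f af.face xf.1.1.1 ⟨hw.1, k⟩)),
        .inr (.inr (hK y yE g ag.face yg.1.1.1 ⟨hw.1, k⟩))]
    · simpa using sub)
  convert key using 1
  rw [e2, biUnion_pair]
  ext w
  simp only [mem_union, mem_iUnion, mem_univ, exists_const]
  tauto

theorem laneR_one {a : ι → V → Set X} (h : Sta n A a E)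
    (h1 : ∀ p ∈ A, ∀ i j, (a i p).Nonempty → (a j p).Nonempty → i = j) (f : V) (hf : IsFace f) :
    (E ∩ Bx n f).Subsingleton := by
  rintro e ⟨he, ef⟩ e' ⟨he', ef'⟩
  obtain ⟨p, hp, ep⟩ := h.cov he
  have ad := adj_of_mem hf ef ep (h.E_fin.2 he).2
  obtain ⟨i, hi⟩ := mem_iUnion.1 ((h.mt p hp).ge ⟨he, ep⟩).1
  obtain ⟨j, hj⟩ := mem_iUnion.1 ((h.mt p hp).ge ⟨he', ad.sub n ef'⟩).1
  obtain rfl := h1 p hp i j ⟨e, hi⟩ ⟨e', hj⟩
  rcases h.pc i p hp with k | k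
  · exact (notMem_empty e (k ▸ hi)).elim
  · exact k.face hf ⟨hi, ef⟩ ⟨hj, ef'⟩

theorem laneR_stick (m : ℕ) : ∃ l : X → Set X, ∀ e g, IsFace g → e ∈ Og m g →
    Pop K (Ph m g) (Ph m g \ IPh m g) e (l e) ∧ K ∩ Bx m g ⊆ l e := by
  have a (e : X) : ∃ Λ : Set X, ∀ g, IsFace g → e ∈ Og m g →
      Pop K (Ph m g) (Ph m g \ IPh m g) e Λ ∧ K ∩ Bx m g ⊆ Λ := by
    by_cases k : ∃ g, IsFace g ∧ e ∈ Og m g
    · obtain ⟨g, hg, eg⟩ := k
      obtain ⟨Λ, hΛ⟩ := stick hg eg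
      refine ⟨Λ, fun g' hg' eg' => ?_⟩
      obtain rfl := face_uniq hg hg' eg.1.1.1 eg'.1.1.1 eg.2
      exact hΛ
    · exact ⟨∅, fun g hg eg => (k ⟨g, hg, eg⟩).elim⟩
  exact ⟨fun e => (a e).choose, fun e => (a e).choose_spec⟩

theorem lane {a : ι → V → Set X} (h : Sta n A a E)
    (h1 : ∀ p ∈ A, ∀ i j, (a i p).Nonempty → (a j p).Nonempty → i = j) :
    Res n A (fun p => ⋃ i, a i p) E := by
  obtain ⟨fin, hV⟩ := h.E_fin
  have one := laneR_one h h1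
  obtain ⟨acc, r, hA, h0⟩ := access (E₀ := E) fin hV one
  replace h0 := fun e he f hf ef => (h0 e he f hf ef).2 he
  obtain ⟨l, hl⟩ := laneR_stick (n + 1)
  have og : ∀ e ∈ r '' E, ∀ g, IsFace g → e ∈ Bx (n + 1) g → e ∈ Og (n + 1) g :=
    fun e he g hg eg => (Og_Vo hg).ge ⟨laneR_vo hA hV he, eg⟩
  have fc : ∀ e ∈ E, ∃ f, IsFace f ∧ e ∈ Bx n f ∧ l (r e) ⊆ Ph (n + 1) (mid f) := fun e he => by
    obtain ⟨f, hf, ef⟩ := exists_face (hV he).1.2 (hV he).2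
    exact ⟨f, hf, ef, (hl _ _ (laneR_mid hf)
      (og _ ⟨e, he, rfl⟩ _ (laneR_mid hf) (h0 e he f hf ef))).1.facts.1⟩
  have lo : Lo (n + 1) (r '' E) l := ⟨fun e he g hg eg => (hl e g hg (og e he g hg eg)).1, by
    rintro _ ⟨e, he, rfl⟩ _ ⟨e', he', rfl⟩ ne
    obtain ⟨f, hf, ef, s⟩ := fc e he
    obtain ⟨f', hf', ef', s'⟩ := fc e' he'
    refine disjoint_left.2 fun w hw hw' => ne ?_
    obtain rfl := face_uniq hf hf' ((mid_sub hf).2 (s hw).1) ((mid_sub hf').2 (s' hw').1)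
      (N_One n (s hw).2)
    rw [one f hf ⟨he, ef⟩ ⟨he', ef'⟩]⟩
  obtain ⟨lo', left⟩ := lo_down hA hV subset_rfl lo
  refine ⟨_, lo', left fun f hf ne => ?_, fun p hp => ?_⟩
  · obtain ⟨-, a1, -, -, a2, -, a3⟩ := K_Ph2 hf ne
    obtain ⟨k, kK, kP⟩ := K_Ph a2 a1
    refine ⟨k, ⟨kK, a3 kP.1, K_sub_N n kK⟩, fun c => ?_⟩
    obtain ⟨_, ⟨e, he, rfl⟩, c⟩ := mem_iUnion₂.1 c
    obtain ⟨g, hg, -, s⟩ := fc e he
    exact land_ne_mid hf g (face_uniq a2 (laneR_mid hg) kP.1 (s c).1 (K_One _ kK))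
  · by_cases k : ∃ i, (a i p).Nonempty
    · obtain ⟨i, hi⟩ := k
      have e : (⋃ j, a j p) = a i p := subset_antisymm
        (iUnion_subset fun j w hw => h1 p hp j i ⟨w, hw⟩ hi ▸ hw) (subset_iUnion (a · p) i)
      have m := h.mt p hp
      beta_reduce
      rw [e] at m ⊢
      exact lane1 ((h.pc i p hp).resolve_left hi.ne_empty) m hA hV h0 lo fun e he f hf ef =>
        (hl _ _ (laneR_mid hf) (og _ ⟨e, he, rfl⟩ _ (laneR_mid hf) (h0 e he f hf ef))).2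
    · have e : (⋃ j, a j p) = ∅ :=
        iUnion_eq_empty.2 fun j => not_nonempty_iff_eq_empty.1 fun c => k ⟨j, c⟩
      have m := h.mt p hp
      beta_reduce
      rw [e, empty_inter] at m
      rw [e, ← m, biUnion_empty, empty_union]
      exact ui_empty (G_body (h.ne p hp))

theorem laneR_ind (s : Finset ι) : ∀ {n : ℕ} {A : Set V} {a : ι → V → Set X} {E : Set X},
    Sta n A a E → (∀ t, t ∉ s → ∀ p ∈ A, ∀ i, (a t p).Nonempty → (a i p).Nonempty → i = t) →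
    Res n A (fun p => ⋃ i, a i p) E := by
  classical
  induction s using Finset.induction_on with
  | empty =>
    intro n A a E h k
    exact lane h fun p hp i j hi hj => k j (Finset.notMem_empty j) p hp i hj hi
  | insert t s _ ih =>
    intro n A a E h k
    obtain ⟨a', E', h', up, al, back⟩ := step h t
    refine back (ih h' fun t' ht q hq i h1 h2 => ?_)
    by_cases e : t' = t
    · subst e
      exact al q hq i h1 h2
    · obtain ⟨-, p, hp, kid⟩ := hq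
      exact k t' (by simp [e, ht]) p hp i (up p hp q kid t' h1) (up p hp q kid i h2)

theorem res_all {a : ι → V → Set X} (h : Sta n A a E) : Res n A (fun p => ⋃ i, a i p) E :=
  have := Fintype.ofFinite ι
  laneR_ind Finset.univ h fun t ht => (ht (Finset.mem_univ t)).elim

end Pool.Agent.Lib.MP_b7d179_gt.M
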