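import Pool.Agent.Lib.MP_b7d179_gt.M.Acc
import Pool.Agent.Lib.MP_b7d179_gt.M.GB

namespace Pool.Agent.Lib.MP_b7d179_gt.M

open Set

variable {n : ℕ} {p : V} {E Z z : Set X} {acc : X → Set X} {r : X → X} {ι : Type} {s : Set ι}
  {a b : ι → Set X} {x y : ι → X} {t : ι}

theorem loc_fix {O c A : Set X} {F : X → X} (hF : Sup F O c) (h : O ∩ A ⊆ c) : F '' A = A :=
  (image_congr fun w hw => hF.fix w fun k => k.2 (h ⟨k.1, hw⟩)).trans (image_id' A)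

theorem loc_sub {O c A : Set X} {F : X → X} (hF : Sup F O c) (h : A ⊆ O) : F '' A ⊆ O :=
  (image_mono h).trans hF.img.le

theorem loc_acc (hA : Acs n E acc r) (hE : E ⊆ Vo n) {e : X} (he : e ∈ E) (hQ : e ∈ Q n p)
    (hd : Disjoint (Q n p) (Nb n)) : acc e ⊆ Osh n p ∧ acc e ∩ Nb n ⊆ {r e} := by
  obtain ⟨f, af, ef⟩ := face_of_any hQ.1.1 (hE he).1.2 (hE he).2
  refine ⟨fun w hw => ?_, fun w hw => ?_⟩
  · have k := (hA.vo hE he).2.2.2.2 f af.face ef hw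
    exact Or.inr ⟨⟨⟨af.sub n k.1.1.1, Bx_any af.face n k.1.1.1⟩, k.1.1.2⟩, k.1.2⟩
  · by_contra k
    refine ((hA.sub e he f af.face ef).1 ⟨hw.1, ?_⟩).1.2 hw.2
    rintro (rfl | k')
    · exact disjoint_left.1 hd hQ hw.2
    · exact k k'

theorem loc_sys (ha : Arcs (Q n p) (AnyH n) s a x y) (hE : E ⊆ Vo n)
    (hx : ∀ i ∈ s, x i ∈ E ∧ y i ∈ E) (hA : Acs n E acc r) (hd : Disjoint (Q n p) (Nb n))
    (hr : ∀ i ∈ s, r (x i) ∈ Qp n p ∧ r (y i) ∈ Qp n p) :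
    Sys (Osh n p) (Qp n p ∩ AnyH n) s (fun i => a i ∪ acc (x i) ∪ acc (y i)) (fun i => r (x i))
      fun i => r (y i) := by
  have k : ∀ i ∈ s, ∀ e ∈ E, ∀ w ∈ a i, w ∈ acc e → w = e := fun i hi e he w hw hw' =>
    (hA.vo hE he).2.2.1.le ⟨hw', (ha.sub i hi hw).2⟩
  refine ⟨ha.fin, fun i hi => ?_, fun i hi j hj ne => ?_⟩
  · have h := ha.arc i hi
    have ax := hA.arc _ (hx i hi).1
    have ay := hA.arc _ (hx i hi).2
    have lx := loc_acc hA hE (hx i hi).1 (ha.sub i hi h.left) hd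
    have ly := loc_acc hA hE (hx i hi).2 (ha.sub i hi h.right) hd
    have c1 := ax.symm.cat h (subset_antisymm (fun w hw => k i hi _ (hx i hi).1 w hw.2 hw.1)
      (singleton_subset_iff.2 ⟨ax.left, h.left⟩))
    have c2 := c1.cat ay (subset_antisymm (by
      rintro w ⟨hw | hw, hw'⟩
      · exact (disjoint_left.1 (hA.dj (hx i hi).1 (hx i hi).2 h.ne) hw hw').elim
      · exact k i hi _ (hx i hi).2 w hw hw') (singleton_subset_iff.2 ⟨Or.inr h.right, ay.left⟩))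
    rw [union_comm (acc (x i))] at c2
    refine ⟨c2, union_subset (union_subset (fun w hw => Or.inl (ha.sub i hi hw)) lx.1) ly.1,
      subset_antisymm ?_ (subset_inter c2.ends (insert_subset
        ⟨(hr i hi).1, (hA.vo hE (hx i hi).1).1.2⟩
        (singleton_subset_iff.2 ⟨(hr i hi).2, (hA.vo hE (hx i hi).2).1.2⟩)))⟩
    rintro w ⟨(hw | hw) | hw, hw'⟩
    · exact (disjoint_left.1 hd (ha.sub i hi hw) hw'.1.1.2).elim
    · exact Or.inl (lx.2 ⟨hw, hw'.1.1.2⟩)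
    · exact Or.inr (ly.2 ⟨hw, hw'.1.1.2⟩)
  · have d : Disjoint (a i) (a j) := ha.disj hi hj ne
    have d1 : ∀ e ∈ E, e ∈ a j → Disjoint (a i) (acc e) := fun e he m =>
      disjoint_left.2 fun w hw hw' => disjoint_left.1 d hw (k i hi e he w hw hw' ▸ m)
    have d2 : ∀ e ∈ E, e ∈ a i → Disjoint (acc e) (a j) := fun e he m =>
      disjoint_right.2 fun w hw hw' => disjoint_right.1 d hw (k j hj e he w hw hw' ▸ m)
    have d3 : ∀ e ∈ E, e ∈ a i → ∀ e' ∈ E, e' ∈ a j → Disjoint (acc e) (acc e') :=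
      fun e he m e' he' m' => hA.dj he he' fun q => disjoint_left.1 d m (q ▸ m')
    have xi := (ha.arc i hi).left
    have yi := (ha.arc i hi).right
    have xj := (ha.arc j hj).left
    have yj := (ha.arc j hj).right
    simp only [Function.onFun, disjoint_union_left, disjoint_union_right]
    exact ⟨⟨⟨⟨d, d2 _ (hx i hi).1 xi⟩, d2 _ (hx i hi).2 yi⟩,
      ⟨d1 _ (hx j hj).1 xj, d3 _ (hx i hi).1 xi _ (hx j hj).1 xj⟩,
        d3 _ (hx i hi).2 yi _ (hx j hj).1 xj⟩,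
      ⟨d1 _ (hx j hj).2 yj, d3 _ (hx i hi).1 xi _ (hx j hj).2 yj⟩,
        d3 _ (hx i hi).2 yi _ (hx j hj).2 yj⟩

theorem locPush (hq : (Q n p).Nonempty) (ha : Arcs (Q n p) (AnyH n) s a x y) (hE : E ⊆ Vo n)
    (hx : ∀ i ∈ s, x i ∈ E ∧ y i ∈ E) (hA : Acs n E acc r) (hZ : Disc Z z) (hT : Z ⊆ Top n p)
    (hr : ∀ i ∈ s, r (x i) ∈ z ∧ r (y i) ∈ z) :
    Disjoint (Z \ z) (AnyH n) ∧ ∃ b, Sys Z z s b (fun i => r (x i)) (fun i => r (y i)) ∧
      ∀ F, Sup F Z z → ∀ Y ⊆ cube n p ∩ AnyH n ∩ N (n + 1),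
        SolU sg (jack n p) (jackS n p) ((⋃ i ∈ s, F '' b i) ∪ Y) →
        SolU sg (body n p) (bodyS n p) ((⋃ i ∈ s, a i ∪ acc (x i) ∪ acc (y i)) ∪ Y) := by
  have hb : (body n p).Nonempty := hq.mono inter_subset_left
  obtain ⟨W, SW, g, hW, dW, eW, hd⟩ := shell_fact hq
  have ev := eqv_bp hb
  obtain ⟨h, mv, i1, i2, fx, i3⟩ := push g ev.1 hW K_closed dW
  have th := g.th ev.1 hW
  have hB := g.ball ev.1 hW
  have ZQ : Z ⊆ Qp n p := fun w hw => ⟨⟨(hT hw).1, (hT hw).2.1.1⟩, (hT hw).2.1.2⟩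
  have OS : Osh n p ⊆ bodyS n p := eW ▸ inter_subset_left
  have QS : Qp n p ⊆ bpS n p := g.s1
  have fC : ∀ w ∈ Qp n p ∩ AnyH n, h w = w := fun w hw =>
    fx ⟨(th.2.2.2.2.2.2.ge hw).1, ev.1.rim_sub (QS hw.1)⟩
  have sy := loc_sys ha hE hx hA hd fun i hi =>
    ⟨ZQ (hZ.rim_sub (hr i hi).1), ZQ (hZ.rim_sub (hr i hi).2)⟩
  have CO : Qp n p ∩ AnyH n ⊆ Osh n p := eW ▸ th.1.d2.rim_sub
  have sy' : Sys (Qp n p) (Qp n p ∩ AnyH n) s (fun i => h '' (a i ∪ acc (x i) ∪ acc (y i)))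
      (fun i => r (x i)) fun i => r (y i) := by
    refine ⟨ha.fin, fun i hi => ?_, fun i hi j hj ne => mv.1.disjoint
      ((sy.cc i hi).sub.trans (OS.trans hB.rim_sub)) ((sy.cc j hj).sub.trans (OS.trans hB.rim_sub))
      (sy.disj hi hj ne)⟩
    have c := (sy.cc i hi).image CO mv.1 (OS.trans hB.rim_sub)
    rwa [← eW, i3, (image_congr fC).trans (image_id' _), fC _ (sy.cc i hi).left,
      fC _ (sy.cc i hi).right] at c
  obtain ⟨G, hG, cG⟩ := retract g.d hZ ZQ sy' hr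
  refine ⟨disjoint_left.2 fun w hw k => (g.d.sub_int hZ ZQ hw).2 ⟨ZQ hw.1, k⟩, _,
    ⟨ha.fin, cG, (hG.sys g.d sy').disj⟩, fun F hF Y hY hS => ?_⟩
  have Y1 : Y ⊆ bpS n p := fun w hw => ⟨⟨(hY hw).1.1, N_Nb n (hY hw).2⟩, Or.inr (hY hw).1.2⟩
  have Y2 : Y ⊆ bodyS n p := fun w hw =>
    ⟨⟨(hY hw).1.1, (N_succ n (hY hw).2).1⟩, Or.inr (hY hw).1.2⟩
  have hFG := (hF.up g.d hZ ZQ).comp hG
  refine solU_back hB mv (union_subset (iUnion₂_subset fun i hi => (sy.cc i hi).sub.trans OS) Y2) ?_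
  rw [i1, i2, image_union, image_iUnion₂,
    (image_congr fun w hw => fx ⟨Y2 hw, ev.1.rim_sub (Y1 hw)⟩).trans (image_id Y)]
  refine solU_sup ev.1 g.d QS (dW.mono_left fun w hw => (g.i.ge hw).2) hFG
    (union_subset (iUnion₂_subset fun i hi => (sy'.cc i hi).sub.trans QS) Y1) ?_
  rw [image_union, image_iUnion₂, loc_fix hFG fun w hw => ⟨hw.1, (hY hw.2).1.2⟩]
  simp only [image_comp]
  refine ev.symm.solU (union_subset (iUnion₂_subset fun i hi w hw => ?_)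
    fun w hw => ⟨Y1 hw, (hY hw).2⟩) hS
  have m := loc_sub hF (cG i hi).sub hw
  exact ⟨QS (ZQ m), (hT m).2.2⟩

theorem route (hq : (Q n p).Nonempty) (hz : Disc (Top n p) z) (h : Sys (Top n p) z s b x y)
    (he : ∀ i ∈ s, Ends (n + 1) (x i) (y i))
    (ht : t ∈ s → ∃ f g, Adj p f ∧ Adj p g ∧ f ≠ g ∧ x t ∈ Bx (n + 1) (mid f) ∧
      y t ∈ Bx (n + 1) (mid g) ∧ ∀ i ∈ s, i ≠ t →
        Disjoint {x i, y i} (Bx (n + 1) (mid f) ∪ Bx (n + 1) (mid g))) :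
    ∃ (F : X → X) (B : ι → Set V), Sup F (Top n p) z ∧
      (∀ i ∈ s, Nc (n + 1) (B i) (F '' b i) (x i) (y i) ∧ ∀ q ∈ B i, Kid p q) ∧
      (t ∈ s → ∀ i ∈ s, i ≠ t → Disjoint (B t) (B i)) := by
  classical
  by_cases hts : t ∈ s
  swap
  · obtain ⟨z', A, c, k, -⟩ := top_fact hq
    obtain rfl := hz.rim_unique c.disc
    obtain ⟨F, hF, nc⟩ := splitAll c h he
    exact ⟨F, fun _ => A, hF, fun i hi => ⟨nc i hi, k⟩, fun k => (hts k).elim⟩
  obtain ⟨f, g, af, ag, ne, xt, yt, oth⟩ := ht hts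
  have ct := h.cc t hts
  have xT : x t ∈ Top n p ∩ Bx (n + 1) (mid f) := ⟨hz.rim_sub ct.left, xt⟩
  have yT : y t ∈ Top n p ∩ Bx (n + 1) (mid g) := ⟨hz.rim_sub ct.right, yt⟩
  obtain ⟨Pl, zl, Pm, zm, Pr, zr, c1, c2, O, o, z', l, r, Al, Am, Ar, cl, cm, cr, kid, d1, d2, g2,
    g1, qd, hl, hr, hm⟩ := tri_fact af ag ne ⟨_, xT⟩ ⟨_, yT⟩
  have hO := g2.disc cm.disc cr.disc
  obtain rfl := hz.rim_unique (g1.disc hO cl.disc)
  have one : ∀ i ∈ s, x i ∈ One (n + 1) ∧ y i ∈ One (n + 1) := fun i hi =>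
    ⟨(he i hi).vo.1.2, (he i hi).vo.2.2⟩
  have side : ∀ i ∈ s, i ≠ t → (x i ∈ l ∧ y i ∈ l) ∨ (x i ∈ r ∧ y i ∈ r) := fun i hi ne => by
    have c := h.cc i hi
    have k : ∀ w ∈ ({x i, y i} : Set X), w ∈ l ∨ w ∈ r := fun w hw => by
      rcases qd.union.ge (c.inter.ge hw).2 with ((q | q) | q) | q
      · exact (disjoint_left.1 (oth i hi ne) hw (Or.inl q.2)).elim
      · exact Or.inl q
      · exact (disjoint_left.1 (oth i hi ne) hw (Or.inr q.2)).elim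
      · exact Or.inr q
    have no : ∀ u ∈ b i, ∀ v ∈ b i, u ∈ l → v ∈ r → False := fun u hu v hv ul vr =>
      (cross4 hz qd ct xT yT c.arc.conn c.sub ⟨u, hu, ul⟩ ⟨v, hv, vr⟩).ne_empty
        (disjoint_iff_inter_eq_empty.1 (h.disj hi hts ne))
    rcases k _ (Or.inl rfl) with u | u <;> rcases k _ (Or.inr rfl) with v | v
    · exact Or.inl ⟨u, v⟩
    · exact (no _ c.arc.left _ c.arc.right u v).elim
    · exact (no _ c.arc.right _ c.arc.left v u).elim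
    · exact Or.inr ⟨u, v⟩
  obtain ⟨F1, h1, k1⟩ := split0 g1 hO cl.disc h one
  have s1 := h1.sys hz h
  let sl : Set ι := {i | i ∈ s ∧ i ≠ t ∧ x i ∈ l ∧ y i ∈ l}
  let sr : Set ι := {i | i ∈ s ∧ i ≠ t ∧ x i ∈ r ∧ y i ∈ r}
  have sub : insert t sr ⊆ s := insert_subset hts fun i hi => hi.1
  have mx := hm ⟨xT.1, Or.inl xT.2⟩
  have my := hm ⟨yT.1, Or.inr yT.2⟩
  have so : Sys O o (insert t sr) (fun i => F1 '' b i) x y := ⟨h.fin.subset sub, by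
    rintro i (hi | hi)
    · rw [hi]; exact (k1 t hts).1 mx.2 my.2
    · exact (k1 i hi.1).1 (hr hi.2.2.1).2 (hr hi.2.2.2).2, s1.disj.subset sub⟩
  obtain ⟨F2, h2, k2⟩ := split0 g2 cm.disc cr.disc so fun i hi => one i (sub hi)
  have s2 := h2.sys hO so
  have ql : ∀ i ∈ sl, Cc Pl zl (F1 '' b i) (x i) (y i) := fun i hi =>
    (k1 i hi.1).2 (hl hi.2.2.1) (hl hi.2.2.2)
  have qm : Cc Pm zm (F2 '' (F1 '' b t)) (x t) (y t) := (k2 t (mem_insert _ _)).1 mx.1 my.1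
  have qr : ∀ i ∈ sr, Cc Pr zr (F2 '' (F1 '' b i)) (x i) (y i) := fun i hi =>
    (k2 i (mem_insert_of_mem _ hi)).2 (hr hi.2.2.1).1 (hr hi.2.2.2).1
  obtain ⟨Fl, hl', nl⟩ := splitAll cl (s := sl) ⟨h.fin.subset fun i hi => hi.1, ql,
    s1.disj.subset fun i hi => hi.1⟩ fun i hi => he i hi.1
  obtain ⟨Fm, hm', nm⟩ := splitAll cm (s := {t}) (a := fun i => F2 '' (F1 '' b i)) (x := x) (y := y)
    ⟨finite_singleton t, fun i hi => by rw [mem_singleton_iff.1 hi]; exact qm,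
      pairwiseDisjoint_singleton _ _⟩ fun i hi => by rw [mem_singleton_iff.1 hi]; exact he t hts
  obtain ⟨Fr, hr', nr⟩ := splitAll cr (s := sr) ⟨h.fin.subset fun i hi => hi.1, qr,
    s2.disj.subset (subset_insert _ _)⟩ fun i hi => he i hi.1
  have mO : Pm ⊆ O := g2.u ▸ subset_union_left
  have rO : Pr ⊆ O := g2.u ▸ subset_union_right
  have ho := (hm'.up hO cm.disc mO).comp ((hr'.up hO cr.disc rO).comp h2)
  have fl : ∀ A ⊆ O, Fl '' A = A := fun A hA =>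
    loc_fix hl' fun w hw => g1.s2 (g1.i.le ⟨hA hw.2, hw.1⟩)
  refine ⟨Fl ∘ (Fm ∘ Fr ∘ F2) ∘ F1, fun i => if i = t then Am else if i ∈ sl then Al else Ar,
    (hl'.up hz cl.disc (g1.u ▸ subset_union_right)).comp
      ((ho.up hz hO (g1.u ▸ subset_union_left)).comp h1), fun i hi => ?_, fun _ i _ ne => ?_⟩
  · beta_reduce
    rw [image_comp, image_comp]
    by_cases e : i = t
    · rw [if_pos e, e, image_comp, image_comp,
        loc_fix hr' fun w hw => g2.s2 (g2.i.le ⟨qm.sub hw.2, hw.1⟩),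
        fl _ ((loc_sub hm' qm.sub).trans mO)]
      exact ⟨nm t rfl, fun q hq => kid q (Or.inl (Or.inr hq))⟩
    · rw [if_neg e]
      by_cases e' : i ∈ sl
      · rw [if_pos e', loc_fix ho fun w hw => g1.s1 (g1.i.le ⟨hw.1, (ql i e').sub hw.2⟩)]
        exact ⟨nl i e', fun q hq => kid q (Or.inl (Or.inl hq))⟩
      · have m : i ∈ sr := ⟨hi, e, (side i hi e).resolve_left fun k => e' ⟨hi, e, k⟩⟩
        have c := loc_sub hr' (qr i m).sub
        rw [if_neg e', image_comp, image_comp,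
          loc_fix hm' fun w hw => g2.s1 (g2.i.le ⟨hw.1, c hw.2⟩), fl _ (c.trans rO)]
        exact ⟨nr i m, fun q hq => kid q (Or.inr hq)⟩
  · beta_reduce
    rw [if_pos rfl, if_neg ne]
    split_ifs
    exacts [d1, d2]

end Pool.Agent.Lib.MP_b7d179_gt.M
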