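import Pool.Agent.Lib.MP_b7d179_gt.M.Root
import Pool.Agent.Lib.MP_b7d179_gt.F.Final

/-! The export of the sponge side. -/

namespace Pool.Agent.Lib.MP_b7d179_gt.M

open Set Metric

lemma mEx_ball : closedBall (fun _ => 1 / 2 : X) 1 = Icc (fun _ => -1 / 2) (fun _ => 3 / 2) := by
  rw [closedBall_pi _ zero_le_one, ← pi_univ_Icc]
  refine pi_congr rfl fun i _ => ?_
  rw [Real.closedBall_eq_Icc]
  norm_num

theorem mEx : F.MEx := by
  obtain ⟨σ, h1, h2, h3, -⟩ := root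
  refine ⟨σ, h1, h2, ?_⟩
  rw [← frontier_closedBall _ one_ne_zero, mEx_ball]
  exact h3

end Pool.Agent.Lib.MP_b7d179_gt.M
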