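import Pool.Agent.Lib.MP_b7d179_gt.M.S5
import Pool.Agent.Lib.MP_b7d179_gt.M.Cap

namespace Pool.Agent.Lib.MP_b7d179_gt.M

open Set

theorem sg_ok : sg.Ok :=
  { toOk0 := sg_ok0, foot := sg_foot, land := sg_land, fdj := sg_fdj, sfin := sg_sfin,
    stwo := sg_stwo, sin := sg_sin, scov := sg_scov, ffin := sg_ffin, fin := sg_fin,
    fcov := sg_fcov, core := sg_core, chl := sg_chl, chd := sg_chd, mesh := sg_mesh, s2 := sg_s2,
    one := sg_one, cap := fun _ w _ g hg => sg_cap' w g hg.1, bud := sg_bud, s5 := sg_s5 }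

end Pool.Agent.Lib.MP_b7d179_gt.M
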