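import Pool.Agent.Lib.MP_b7d179_gt.M.Ok

/-! The root ball of the sponge. -/

namespace Pool.Agent.Lib.MP_b7d179_gt.M

open Set

lemma root_box : Box 0 0 1 = Icc (fun _ => -1 / 2) (fun _ => 3 / 2) := by
  ext x
  simp only [Box, mem_setOf_eq, mem_Icc, Pi.le_def, Pi.zero_apply, Pi.one_apply, pow_zero,
    Int.cast_zero, Int.cast_one]
  exact ⟨fun h => ⟨fun i => by linarith [(h i).1], fun i => by linarith [(h i).2]⟩,
    fun h i => ⟨by linarith [h.1 i], by linarith [h.2 i]⟩⟩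

lemma root_rim : BoxS 0 0 1 = frontier (Icc (fun _ => -1 / 2) (fun _ => 3 / 2) : Set X) := by
  rw [isClosed_Icc.frontier_eq, ← pi_univ_Icc, interior_pi_set finite_univ, pi_univ_Icc]
  ext x
  simp only [BoxS, root_box, mem_setOf_eq, mem_diff, mem_univ_pi, interior_Icc, mem_Ioo,
    Pi.zero_apply, Pi.one_apply, pow_zero, Int.cast_zero, Int.cast_one, mem_Icc, Pi.le_def]
  refine and_congr_right fun h => ⟨?_, fun hn => ?_⟩
  · rintro ⟨i, hi | hi⟩ hn <;> linarith [(hn i).1, (hn i).2]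
  · by_contra hc
    push Not at hc
    exact hn fun i => ⟨lt_of_le_of_ne (h.1 i) fun e => (hc i).1 (by linarith),
      lt_of_le_of_ne (h.2 i) fun e => (hc i).2 (by linarith)⟩

theorem root : ∃ σ : Tw (Fin 3 → ℝ), σ.K = Stmt.sponge ∧ σ.Ok ∧
    G σ (Icc (fun _ => -1 / 2) (fun _ => 3 / 2))
      (frontier (Icc (fun _ => -1 / 2) (fun _ => 3 / 2))) ∧
    Disjoint Stmt.sponge (frontier (Icc (fun _ => -1 / 2) (fun _ => 3 / 2))) ∧
    Stmt.sponge ⊆ Icc (fun _ => 0) (fun _ => 1) := by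
  refine ⟨sg, K_eq, sg_ok, ?_, ?_, ?_⟩
  · rw [← root_rim, ← root_box]; exact G_big
  · rw [← root_rim, ← K_eq]
    refine disjoint_left.2 ?_
    rintro x hx ⟨-, i, hi | hi⟩ <;>
      simp only [Pi.zero_apply, Pi.one_apply, pow_zero, Int.cast_zero, Int.cast_one] at hi <;>
      linarith [(hx.1 i).1, (hx.1 i).2]
  · rw [← K_eq]
    exact fun x hx => ⟨fun i => (hx.1 i).1, fun i => (hx.1 i).2⟩

end Pool.Agent.Lib.MP_b7d179_gt.M
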