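import Pool.Agent.Lib.MP_b7d179_gt.M.Init
import Pool.Agent.Lib.MP_b7d179_gt.M.LaneR

/-! Essential systems of arcs on finitely many leaves are solved. -/

namespace Pool.Agent.Lib.MP_b7d179_gt.M

open Set

variable {n : ℕ} {f : V} {E E' : Set X} {l : X → Set X}

theorem s5_lols (hf : IsFace f) (h0 : (Ph n f).Nonempty) (hl : Lo (n + 1) E' l)
    (hL : Left (n + 1) (⋃ e ∈ E', l e)) (hfin : E'.Finite) (hV : E' ⊆ Vo (n + 1)) (hE : E ⊆ E')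
    (hJ : E ⊆ Og (n + 1) (land n f)) :
    Lols K (Ps n f) (PsC n f) univ E (⋃ e ∈ E, l e) := by
  obtain ⟨g1, g2⟩ := land_sub (n := n) hf
  have hC : E ⊆ PsC n f := fun e he => ⟨⟨g2 (hJ he).1.1.1, (hJ he).1.1.2⟩, (hJ he).1.2⟩
  choose! η W w x h1 h2 h3 h4 h5 _ h7 using fun e (he : e ∈ E) =>
    (hl.pop e (hE he) _ g1 (hJ he).1.1.1).2
  refine ⟨hfin.subset hE, hC, W, w, η, x, fun e he => ⟨h1 e he, h2 e he, fun y hy => ?_, h4 e he,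
    fun y hy => ⟨g2 (h5 e he hy).1, (h5 e he hy).2⟩, ?_⟩, fun e he e' he' ne => ?_,
    iUnion₂_congr h7, ?_⟩
  · obtain ⟨a, b⟩ := h3 e he hy
    have c : y ∈ IPh (n + 1) (land n f) := by_contra fun c => b ⟨a, c⟩
    exact ⟨trivial, ⟨g2 a.1, a.2⟩, fun d => c.1.2 d.2⟩
  · refine Subset.antisymm (fun y hy => ?_) ?_
    · refine (hl.sub hV (hE he)).2.2.1.le ⟨?_, hy.2.2⟩
      rw [h7 e he]
      exact Or.inr hy.1
    · rintro _ rfl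
      exact ⟨(h1 _ he).arc.left, hC he⟩
  · have := hl.dj (hE he) (hE he') ne
    simp only [Function.onFun] at this ⊢
    rwa [← h7 e he, ← h7 e' he']
  · obtain ⟨y, a, b⟩ := hL.down f hf h0
    exact ⟨y, ⟨a.1, a.2.1, K_sub_N _ a.1⟩, fun c => b (biUnion_subset_biUnion_left hE c)⟩

section
variable {α : Type} {κ : α → Type} (P : α → V)

/-- labelled sets of several cubes with one common label set -/
def s5U {γ : Type} (U : ∀ v, κ v → Set γ) (j : Σ v, κ v) (p : V) : Set γ :=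
  {x | P j.1 = p ∧ x ∈ U j.1 j.2}

variable {P}

theorem s5U_self {γ : Type} (U : ∀ v, κ v → Set γ) (v : α) (i : κ v) :
    s5U P U ⟨v, i⟩ (P v) = U v i := by
  ext x
  simp [s5U]

theorem s5U_union {γ : Type} (hP : Function.Injective P) (U : ∀ v, κ v → Set γ) (v : α) :
    (⋃ j, s5U P U j (P v)) = ⋃ i, U v i := by
  refine Subset.antisymm (iUnion_subset ?_) (iUnion_subset fun i => ?_)
  · rintro ⟨w, i⟩ x ⟨a, b⟩
    obtain rfl : w = v := hP a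
    exact mem_iUnion.2 ⟨i, b⟩
  · exact subset_iUnion_of_subset ⟨v, i⟩ (s5U_self U v i).ge

theorem s5_sub1 (hP : Function.Injective P) {U : ∀ v, κ v → Set X} {B : ∀ v, κ v → Set V} {v : α}
    (h : Sub1 n (P v) (U v) (B v)) :
    Sub1 n (P v) (fun j => s5U P U j (P v)) fun j => s5U P B j (P v) := by
  refine ⟨?_, ?_, ?_, ?_, ?_, ?_⟩
  · rintro ⟨w, i⟩ q ⟨a, b⟩
    obtain rfl : w = v := hP a
    exact h.kid i q b
  · rintro ⟨w, i⟩ q ⟨a, b⟩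
    obtain rfl : w = v := hP a
    rw [s5U_self]
    exact h.ins i q b
  · rintro q hq ⟨w, i⟩ e ⟨⟨a, b⟩, c⟩
    obtain rfl : w = v := hP a
    obtain ⟨i', d, d'⟩ := h.cov q hq i e ⟨b, c⟩
    exact ⟨⟨w, i'⟩, ⟨rfl, d⟩, rfl, d'⟩
  · rintro ⟨w, i⟩ x ⟨a, b⟩
    obtain rfl : w = v := hP a
    exact h.sub i b
  · rintro q ⟨w, i⟩ ⟨w', i'⟩ ne ⟨a, b⟩ ⟨a', b'⟩
    obtain rfl : w = v := hP a
    obtain rfl : w' = w := hP a'
    rw [s5U_self, s5U_self]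
    exact h.dj q i i' (fun e => ne (by rw [e])) b b'
  · rw [s5U_union hP]
    exact h.wh

end

theorem sg_s5 : ∀ (m : ℕ) (A : Set sg.β) (E : sg.φ → Set X) (Y : sg.β → Set X), A.Finite →
    (∀ v ∈ A, sg.lv v = m ∧ Ess sg (sg.S v) (sg.F v) E (Y v)) →
    ∃ Λ : sg.φ → Set X, (∀ v ∈ A, ∀ f ∈ sg.F v, Lols sg.K (sg.A f) (sg.C f) univ (E f) (Λ f)) ∧
      ∀ v ∈ A, SolU sg (sg.B v) (sg.S v) (Y v ∪ ⋃ f ∈ sg.F v, Λ f) := by
  intro m A E Y hA h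
  have : Finite A := hA
  have lv : ∀ v : A, v.1.1.1 = m := fun v => (h v.1 v.2).1
  let P : A → V := fun v => v.1.1.2
  have hP : Function.Injective P := fun v w e =>
    Subtype.ext (Subtype.ext (Prod.ext ((lv v).trans (lv w).symm) e))
  have H : ∀ v : A, ∃ (κ : Type) (_ : Finite κ) (U : κ → Set X) (B : κ → Set V),
      Sub1 (2 * m) (P v) U B ∧ (⋃ j, U j) ∩ AnyH (2 * m) = (⋃ f ∈ sg.F v, E f) ∧
      (∀ f ∈ sg.F v, E f ⊆ sg.J f) ∧ ∀ Λ ⊆ cube (2 * m) (P v) ∩ AnyH (2 * m) ∩ N (2 * m + 1),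
        SolU sg (jack (2 * m) (P v)) (jackS (2 * m) (P v)) ((⋃ j, U j) ∪ Λ) →
        SolU sg (sg.B v) (sg.S v) (Y v ∪ Λ) := fun v => by
    have := init1 v.1 (h v.1 v.2).2
    rwa [lv v] at this
  choose κ _ U B h1 h2 h3 h4 using H
  have lf : ∀ v : A, ∀ f ∈ sg.F v, f.1.1 = m := fun v f hf => hf.1.trans (lv v)
  have hJ : ∀ v : A, ∀ f ∈ sg.F v, E f ⊆ Og (2 * m + 1) (land (2 * m) f.1.2) := fun v f hf => by
    rw [← lf v f hf]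
    exact h3 v f hf
  have hS : Sub (2 * m) (range P) (s5U P U) (s5U P B) := by
    refine ⟨finite_range P, ?_, ?_, ?_, ?_⟩
    · rintro _ ⟨v, rfl⟩
      rw [← lv v]
      exact v.1.2
    · rintro _ ⟨v, rfl⟩
      exact s5_sub1 hP (h1 v)
    · rintro _ ⟨v, rfl⟩ _ ⟨w, rfl⟩
      rw [s5U_union hP, s5U_union hP]
      rintro x ⟨a, b⟩
      by_cases e : w = v
      · rwa [← e]
      · have c : x ∈ cube (2 * m) (P w) := iUnion_subset (h1 w).sub a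
        obtain ⟨f, hf, d⟩ := mem_iUnion₂.1
          ((h2 w).le ⟨a, other_any c b fun e' => e (hP e')⟩)
        have d' := hJ w f hf d
        refine ((h2 v).ge (mem_iUnion₂.2 ⟨f, ⟨(lf w f hf).trans (lv v).symm, ?_⟩, d⟩)).1
        exact adj_of_mem f.2.1 ((land_sub f.2.1).2 d'.1.1.1) b (One_succ _ d'.2)
    · rintro j p - p' - ne g - e a e' a'
      exact (ne (a.1.1.symm.trans a'.1.1)).elim
  obtain ⟨a, E', s1, -, s3, s4⟩ := hS.res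
  obtain ⟨l, l1, l2, l3⟩ := s4 (res_all s1)
  obtain ⟨e1, e2⟩ := s1.E_fin
  have e3 : ∀ v : A, E' ∩ cube (2 * m) (P v) ∩ AnyH (2 * m) = ⋃ f ∈ sg.F v, E f := fun v => by
    rw [s3 _ ⟨v, rfl⟩, s5U_union hP, h2]
  have e4 : ∀ v : A, ∀ f ∈ sg.F v, E f ⊆ E' := fun v f hf x hx =>
    ((e3 v).ge (mem_iUnion₂.2 ⟨f, hf, hx⟩)).1.1
  refine ⟨fun f => ⋃ e ∈ E f, l e, fun v hv f hf => ?_, fun v hv => h4 ⟨v, hv⟩ _ ?_ ?_⟩
  · have := s5_lols f.2.1 (lf ⟨v, hv⟩ f hf ▸ f.2.2) l1 l2 e1 e2 (e4 ⟨v, hv⟩ f hf) (hJ ⟨v, hv⟩ f hf)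
    rw [← lf ⟨v, hv⟩ f hf] at this
    exact this
  · refine iUnion₂_subset fun f hf => iUnion₂_subset fun e he x hx => ?_
    obtain ⟨-, a1, -, a2⟩ := l1.sub e2 (e4 ⟨v, hv⟩ f hf he)
    obtain ⟨g1, g2⟩ := land_sub (n := 2 * m) f.2.1
    have b := g2 ((a2 _ g1).2 (hJ ⟨v, hv⟩ f hf he).1.1.1 hx)
    exact ⟨⟨hf.2.sub _ b, Bx_any f.2.1 _ b⟩, (a1 hx).1.1⟩
  · have := l3 _ ⟨⟨v, hv⟩, rfl⟩
    rwa [s5U_union hP, e3, biUnion_iUnion, iUnion_congr fun f => biUnion_iUnion _ _] at this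

end Pool.Agent.Lib.MP_b7d179_gt.M
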