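import Pool.Agent.Lib.MP_b7d179_gt.M.SubR
import Pool.Agent.Lib.MP_b7d179_gt.M.Loc

/-! One step of the routing: the pieces of level `n` are pushed to pieces of level `n + 1`. -/

namespace Pool.Agent.Lib.MP_b7d179_gt.M

open Set

variable {n : ℕ} {p : V} {A : Set V} {ι : Type} [Finite ι] {E E₀ : Set X} {acc : X → Set X}
  {r : X → X}

/-- the landing points of two ends on different faces are ends again -/
theorem step_ends {x y : X} {f g : V} (hA : Acs n E acc r) (hV : E ⊆ Vo n) (hx : x ∈ E)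
    (hy : y ∈ E) (hf : IsFace f) (hg : IsFace g) (hne : f ≠ g) (xf : x ∈ Bx n f)
    (yg : y ∈ Bx n g) : Ends (n + 1) (r x) (r y) := by
  have vx := (hA.vo hV hx).1.1
  have vy := (hA.vo hV hy).1.1
  obtain ⟨f', a1, a2⟩ := exists_face vx.1.2 vx.2
  obtain ⟨g', b1, b2⟩ := exists_face vy.1.2 vy.2
  refine ⟨f', g', a1, b1, fun e => hne ?_, (Og_Vo a1).ge ⟨vx, a2⟩, (Og_Vo b1).ge ⟨vy, b2⟩⟩
  subst e
  have := face_face hf a1 a2 vx.2 ((hA.face hV hx hf).2 xf) b2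
  exact face_uniq hf hg ((hA.face hV hy hf).1 this) yg (hV hy).2

/-- one cube -/
theorem step1 {a : ι → Set X} (t : ι) (hb : (body n p).Nonempty)
    (hp : ∀ i, a i = ∅ ∨ Pc n p (a i)) (hd : Pairwise fun i j => Disjoint (a i) (a j))
    (hm : (⋃ i, a i) ∩ AnyH n = E ∩ cube n p) (hA : Acs n E acc r) (hV : E ⊆ Vo n)
    (h0 : ∀ e ∈ E, ∀ f, IsFace f → e ∈ Bx n f → (r e ∈ Bx (n + 1) (mid f) ↔ e ∈ E₀))
    (h1 : ∀ f, IsFace f → (E₀ ∩ Bx n f).Subsingleton) (ht : a t ∩ AnyH n ⊆ E₀) :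
    ∃ (U : ι → Set X) (B : ι → Set V), Sub1 n p U B ∧
      (∀ i, U i ∩ AnyH n = r '' (a i ∩ AnyH n)) ∧ (∀ i, (U i).Nonempty → (a i).Nonempty) ∧
      ((U t).Nonempty → ∀ i, i ≠ t → (U i).Nonempty → Disjoint (B t) (B i)) ∧
      ∀ l : X → Set X, (∀ e ∈ E ∩ cube n p, l e ⊆ cube n p ∩ AnyH n ∩ N (n + 1)) →
        SolU sg (jack n p) (jackS n p) ((⋃ i, U i) ∪ ⋃ e ∈ E ∩ cube n p, l e) →
        SolU sg (body n p) (bodyS n p) ((⋃ i, a i) ∪ ⋃ e ∈ E ∩ cube n p, acc e ∪ l e) := by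
  by_cases hs : ∀ i, a i = ∅
  · have e0 : (⋃ i, a i) = ∅ := iUnion_eq_empty.2 hs
    have e1 : E ∩ cube n p = ∅ := by rw [← hm, e0, empty_inter]
    refine ⟨fun _ => ∅, fun _ => ∅, ⟨fun _ _ h => h.elim, fun _ _ h => h.elim,
      fun _ _ _ _ h => h.1.elim, fun _ => empty_subset _, fun _ _ _ _ h => h.elim,
      ι, ∅, fun _ => ∅, fun _ => 0, fun _ => 0, ⟨finite_empty, fun _ h => h.elim,
        fun _ h => h.elim, fun _ h => h.elim, pairwiseDisjoint_empty⟩, by simp⟩,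
      fun i => by simp [hs i], fun _ h => h.elim fun _ h => h.elim,
      fun h => h.elim fun _ h => h.elim, fun l _ _ => ?_⟩
    rw [e0, e1]
    simpa using ui_empty (G_body hb)
  obtain ⟨i₀, hi₀⟩ := not_forall.1 hs
  obtain ⟨s, hs⟩ : ∃ s : Set ι, ∀ i, i ∈ s ↔ (a i).Nonempty := ⟨{i | (a i).Nonempty}, fun _ => .rfl⟩
  have pc : ∀ i ∈ s, Pc n p (a i) := fun i hi => (hp i).resolve_left ((hs i).1 hi).ne_empty
  choose! x y f g af ag fg xf yg arc sub int using fun i (hi : i ∈ s) => (pc i hi).adj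
  have hq : (Q n p).Nonempty :=
    (nonempty_iff_ne_empty.2 hi₀).mono (sub i₀ ((hs i₀).2 (nonempty_iff_ne_empty.2 hi₀)))
  have hE : ∀ i, a i ∩ AnyH n ⊆ E ∩ cube n p := fun i =>
    (inter_subset_inter_left _ (subset_iUnion a i)).trans hm.le
  have ex : ∀ i ∈ s, x i ∈ a i ∩ AnyH n := fun i hi => (int i hi).ge (mem_insert _ _)
  have ey : ∀ i ∈ s, y i ∈ a i ∩ AnyH n := fun i hi => (int i hi).ge (mem_insert_of_mem _ rfl)
  obtain ⟨z, A', hC, -, hz⟩ := top_fact hq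
  have rz : ∀ e ∈ E ∩ cube n p, r e ∈ z := fun e he =>
    hz ⟨⟨(hA.in_cube hV he.1 p).2 he.2, (hA.fl e he.1).1⟩, (hA.vo hV he.1).1.2⟩
  obtain ⟨-, b, hS, hP⟩ := locPush (s := s) hq
    ⟨toFinite s, arc, sub, int, fun _ _ _ _ hij => hd hij⟩ hV
    (fun i hi => ⟨(hE i (ex i hi)).1, (hE i (ey i hi)).1⟩) hA hC.disc subset_rfl
    fun i hi => ⟨rz _ (hE i (ex i hi)), rz _ (hE i (ey i hi))⟩
  have key : ∀ i, i ≠ t → ∀ e ∈ a i ∩ AnyH n, ∀ e' ∈ a t ∩ AnyH n, ∀ φ, IsFace φ → e' ∈ Bx n φ →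
      r e ∉ Bx (n + 1) (mid φ) := fun i hi e he e' he' φ hφ h2 h3 => by
    have h4 := (hA.face hV (hE i he).1 hφ).1 ((mid_sub hφ).2 h3)
    have h5 : e = e' := h1 φ hφ ⟨(h0 e (hE i he).1 φ hφ h4).1 h3, h4⟩ ⟨ht he', h2⟩
    exact disjoint_left.1 (hd hi) he.1 (h5 ▸ he'.1)
  obtain ⟨F, B, hF, hN, hB⟩ := route (t := t) hq hC.disc hS
    (fun i hi => step_ends hA hV (hE i (ex i hi)).1 (hE i (ey i hi)).1 (af i hi).face
      (ag i hi).face (fg i hi) (xf i hi).1.1.1 (yg i hi).1.1.1)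
    fun hi => ⟨f t, g t, af t hi, ag t hi, fg t hi,
      (h0 _ (hE t (ex t hi)).1 _ (af t hi).face (xf t hi).1.1.1).2 (ht (ex t hi)),
      (h0 _ (hE t (ey t hi)).1 _ (ag t hi).face (yg t hi).1.1.1).2 (ht (ey t hi)),
      fun i hi' hne => disjoint_left.2 (by
        rintro _ (rfl | rfl) (h | h)
        exacts [key i hne _ (ex i hi') _ (ex t hi) _ (af t hi).face (xf t hi).1.1.1 h,
          key i hne _ (ex i hi') _ (ey t hi) _ (ag t hi).face (yg t hi).1.1.1 h,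
          key i hne _ (ey i hi') _ (ex t hi) _ (af t hi).face (xf t hi).1.1.1 h,
          key i hne _ (ey i hi') _ (ey t hi) _ (ag t hi).face (yg t hi).1.1.1 h])⟩
  have S' := hF.sys hC.disc hS
  have ends : ∀ i ∈ s, ∀ w ∈ ({r (x i), r (y i)} : Set X), w ∈ One (n + 1) ∩ AnyH n := by
    rintro i hi _ (rfl | rfl)
    exacts [⟨(hA.fl _ (hE i (ex i hi)).1).2, (hA.vo hV (hE i (ex i hi)).1).1.2⟩,
      ⟨(hA.fl _ (hE i (ey i hi)).1).2, (hA.vo hV (hE i (ey i hi)).1).1.2⟩]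
  have int' : ∀ i ∈ s, F '' b i ∩ AnyH n = {r (x i), r (y i)} := fun i hi =>
    subset_antisymm (fun w hw => (S'.cc i hi).inter.le ⟨hw.1, hz ⟨(S'.cc i hi).sub hw.1, hw.2⟩⟩)
      (subset_inter (S'.cc i hi).arc.ends fun w hw => (ends i hi w hw).2)
  obtain ⟨U, hU⟩ : ∃ U : ι → Set X, ∀ i w, w ∈ U i ↔ i ∈ s ∧ w ∈ F '' b i :=
    ⟨fun i => {w | i ∈ s ∧ w ∈ F '' b i}, fun _ _ => .rfl⟩
  have eU : ∀ i ∈ s, U i = F '' b i := fun i hi => by ext w; simp only [hU, hi, true_and]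
  have eS : ∀ i, (U i).Nonempty → i ∈ s := fun i ⟨w, hw⟩ => ((hU i w).1 hw).1
  have uU : (⋃ i, U i) = ⋃ i ∈ s, F '' b i := by
    ext w; simp only [mem_iUnion, hU, exists_prop]
  refine ⟨U, fun i => {q | i ∈ s ∧ q ∈ B i}, ⟨fun j q h => (hN j h.1).2 q h.2,
    fun j q h => eU j h.1 ▸ (hN j h.1).1.ins q h.2, fun q hq j e he => ?_,
    fun j w hw => (((S'.cc j ((hU j w).1 hw).1).sub ((hU j w).1 hw).2)).1,
    fun q j j' hne h h' => ?_, ι, s, fun i => F '' b i, _, _,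
      ⟨S'.fin, fun i hi => (S'.cc i hi).arc, fun _ _ => subset_univ _, int', S'.disj⟩, uU⟩,
    fun i => ?_, fun i h => (hs i).1 (eS i h), fun h i hne h' => ?_, fun l hl h => ?_⟩
  · obtain ⟨hj, hw⟩ := (hU j e).1 he.1
    refine ⟨j, ⟨hj, by_contra fun c => c ?_⟩, he.1⟩
    obtain ⟨q', c1, c2⟩ := (hN j hj).1.cov hw
    have := ends j hj e ((hN j hj).1.out q c ⟨hw, he.2⟩)
    rwa [kid_uniq_any hq ((hN j hj).2 q' c1) he.2 c2 this.1 this.2]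
  · rw [eU j h.1, eU j' h'.1]
    exact (S'.disj h.1 h'.1 hne).mono inter_subset_left inter_subset_left
  · by_cases hi : i ∈ s
    · rw [eU i hi, int' i hi, int i hi, image_pair]
    · rw [not_nonempty_iff_eq_empty.1 fun h => hi (eS i h),
        not_nonempty_iff_eq_empty.1 fun h => hi ((hs i).2 h), empty_inter, image_empty]
  · exact (hB (eS t h) i (eS i h') hne).mono (fun _ h => h.2) fun _ h => h.2
  · rw [uU] at h
    have := hP F hF _ (iUnion₂_subset hl) h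
    convert this using 1
    ext w
    simp only [mem_union, mem_iUnion, exists_prop]
    constructor
    · rintro (⟨i, hi⟩ | ⟨e, he, hw | hw⟩)
      · exact Or.inl ⟨i, (hs i).2 ⟨w, hi⟩, Or.inl (Or.inl hi)⟩
      · obtain ⟨c1, c2⟩ := hm.ge he
        obtain ⟨i, hi⟩ := mem_iUnion.1 c1
        have hi' := (hs i).2 ⟨e, hi⟩
        rcases (int i hi').le ⟨hi, c2⟩ with rfl | rfl
        exacts [Or.inl ⟨i, hi', Or.inl (Or.inr hw)⟩, Or.inl ⟨i, hi', Or.inr hw⟩]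
      · exact Or.inr ⟨e, he, hw⟩
    · rintro (⟨i, hi, (hw | hw) | hw⟩ | ⟨e, he, hw⟩)
      exacts [Or.inl ⟨i, hw⟩, Or.inr ⟨_, hE i (ex i hi), Or.inl hw⟩,
        Or.inr ⟨_, hE i (ey i hi), Or.inl hw⟩, Or.inr ⟨e, he, Or.inr hw⟩]

theorem step {a : ι → V → Set X} (h : Sta n A a E) (t : ι) :
    ∃ (a' : ι → V → Set X) (E' : Set X), Sta (n + 1) (kids n A) a' E' ∧
      (∀ p ∈ A, ∀ q, Kid p q → ∀ i, (a' i q).Nonempty → (a i p).Nonempty) ∧
      (∀ q ∈ kids n A, ∀ i, (a' t q).Nonempty → (a' i q).Nonempty → i = t) ∧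
      (Res (n + 1) (kids n A) (fun q => ⋃ i, a' i q) E' → Res n A (fun p => ⋃ i, a i p) E) := by
  obtain ⟨hEf, hV⟩ := h.E_fin
  have h1 : ∀ f, IsFace f → ((⋃ p ∈ A, a t p ∩ AnyH n) ∩ Bx n f).Subsingleton := fun f hf =>
    (h.one t f hf).anti fun e he => by
      obtain ⟨p, hp, c⟩ := mem_iUnion₂.1 he.1
      exact mem_iUnion₂.2 ⟨p, hp, c.1, he.2⟩
  obtain ⟨acc, r, hA, h0⟩ := access hEf hV h1
  choose! U B u1 u2 u3 u4 u5 using fun p (hp : p ∈ A) =>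
    step1 (a := fun i => a i p) t (h.ne p hp) (fun i => h.pc i p hp) (h.dj p hp) (h.mt p hp) hA hV
      h0 h1 (subset_biUnion_of_mem (u := fun p => a t p ∩ AnyH n) hp)
  have hE : ∀ p ∈ A, ∀ i, a i p ∩ AnyH n ⊆ E ∩ cube n p := fun p hp i =>
    (inter_subset_inter_left _ (subset_iUnion (fun i => a i p) i)).trans (h.mt p hp).le
  have eU : ∀ p ∈ A, (⋃ j, U p j) ∩ AnyH n = r '' (E ∩ cube n p) := fun p hp => by
    rw [← h.mt p hp, iUnion_inter, iUnion_inter, image_iUnion]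
    exact iUnion_congr (u2 p hp)
  have hS : Sub n A (fun j p => U p j) (fun j p => B p j) := by
    refine ⟨h.fin, h.ne, u1, fun p hp p' hp' w hw => ?_, fun j p hp p' hp' hne g hg e he e' he' => ?_⟩
    · by_cases c : p' = p
      · exact c ▸ hw.1
      obtain ⟨j, hj⟩ := mem_iUnion.1 hw.1
      obtain ⟨e, he, rfl⟩ := (eU p' hp').le ⟨hw.1, other_any ((u1 p' hp').sub j hj) hw.2 c⟩
      exact ((eU p hp).ge ⟨e, ⟨he.1, (hA.in_cube hV he.1 p).1 hw.2⟩, rfl⟩).1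
    · have o1 := (((u1 p hp).vis j).2 ⟨he.1, Bx_any hg _ he.2⟩).2
      have o2 := (((u1 p' hp').vis j).2 ⟨he'.1, Bx_any hg _ he'.2⟩).2
      have c1 := face_cube hg he.2 o1 ((u1 p hp).sub j he.1)
      have c2 := face_cube hg he'.2 o2 ((u1 p' hp').sub j he'.1)
      have a1 := other_any (c1 he.2) (c2 he.2) hne
      obtain ⟨f, hf, ef⟩ := exists_face a1 (One_succ n o1)
      have ef' := face_face hf hg he.2 o1 ef he'.2
      obtain ⟨e₁, d1, rfl⟩ := (u2 p hp j).le ⟨he.1, a1⟩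
      obtain ⟨e₂, d2, rfl⟩ := (u2 p' hp' j).le ⟨he'.1, Bx_any hf _ ef'⟩
      exact congrArg r (h.one j f hf
        (mem_iUnion₂.2 ⟨p, hp, d1.1, (hA.face hV (hE p hp j d1).1 hf).1 ef⟩)
        (mem_iUnion₂.2 ⟨p', hp', d2.1, (hA.face hV (hE p' hp' j d2).1 hf).1 ef'⟩))
  obtain ⟨a', E', hT, hc, hE', hR⟩ := hS.res
  refine ⟨a', E', hT, fun p hp q hq i hi => u3 p hp i (hc p hp q hq i hi).2, ?_, fun hres => ?_⟩
  · rintro q ⟨-, p, hp, hq⟩ i c1 c2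
    by_contra hne
    exact disjoint_left.1 (u4 p hp (hc p hp q hq t c1).2 i hne (hc p hp q hq i c2).2)
      (hc p hp q hq t c1).1 (hc p hp q hq i c2).1
  obtain ⟨l, hl, hL, hJ⟩ := hR hres
  have hV' := hT.E_fin.2
  have eE : ∀ p ∈ A, E' ∩ cube n p ∩ AnyH n = r '' (E ∩ cube n p) := fun p hp =>
    (hE' p hp).trans (eU p hp)
  have hr : r '' E ⊆ E' := by
    rintro _ ⟨e, he, rfl⟩
    obtain ⟨p, hp, c⟩ := h.cov he
    exact ((eE p hp).ge ⟨e, ⟨he, c⟩, rfl⟩).1.1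
  obtain ⟨k1, k2⟩ := lo_down hA hV hr hl
  refine ⟨_, k1, k2 hL.down, fun p hp => u5 p hp (fun e => l (r e)) (fun e he w hw => ?_) ?_⟩
  · have c := (eE p hp).ge ⟨e, he, rfl⟩
    have d := (hl.up hV' p).ge (mem_iUnion₂.2 ⟨r e, c, hw⟩)
    exact ⟨⟨d.1.2, d.2⟩, ((hl.sub hV' c.1.1).2.1 hw).1.1⟩
  · have := hJ p hp
    rwa [eE p hp, biUnion_image] at this

end Pool.Agent.Lib.MP_b7d179_gt.M
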