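import Pool.Agent.Lib.MP_b7d179_gt.M.Surg

namespace Pool.Agent.Lib.MP_b7d179_gt.M

open Set

variable {n : ℕ} {A : Set V} {κ : Type} [Finite κ] {U : κ → V → Set X} {B : κ → V → Set V}

omit [Finite κ] in
/-- every point in the cube of a child lies on a piece of that child -/
theorem subR_pc {p q : V} {U : κ → Set X} {B : κ → Set V} (h : Sub1 n p U B) (hq : Kid p q) {j : κ}
    {e : X} (he : e ∈ U j) (hc : e ∈ cube (n + 1) q) :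
    ∃ j', q ∈ B j' ∧ e ∈ U j' ∧ Pc (n + 1) q (U j' ∩ cube (n + 1) q) := by
  obtain ⟨j', h1, h2⟩ := h.cov q hq j e ⟨he, hc⟩
  exact ⟨j', h1, h2, (h.ins j' q h1).resolve_left (Nonempty.ne_empty ⟨e, h2, hc⟩)⟩

theorem Sub1.vis {p : V} {U : κ → Set X} {B : κ → Set V} (h : Sub1 n p U B) (j : κ) :
    U j ⊆ N (n + 1) ∩ Mm (n + 1) ∧ U j ∩ AnyH (n + 1) ⊆ Vo (n + 1) := by
  refine ⟨fun e he => ?_, fun e he => ?_⟩
  · obtain ⟨q, hq, hc⟩ := kid_cover (h.sub j he)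
    obtain ⟨j', -, h2, x, y, -, -, h3, -⟩ := subR_pc h hq he hc
    exact ⟨(h3 ⟨h2, hc⟩).1.2, (h3 ⟨h2, hc⟩).2⟩
  · obtain ⟨q, hq, hc⟩ := kid_cover (h.sub j he.1)
    obtain ⟨j', -, h2, h3⟩ := subR_pc h hq he.1 hc
    exact h3.vo ⟨⟨h2, hc⟩, he.2⟩

theorem Sub.sta (h : Sub n A U B) : ∃ a : κ → V → Set X,
    Sta (n + 1) (kids n A) a (⋃ p ∈ A, ⋃ j, U j p ∩ AnyH (n + 1)) ∧
      ∀ p ∈ A, ∀ q, Kid p q → (⋃ j, a j q) = (⋃ j, U j p) ∩ cube (n + 1) q ∧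
        ∀ j, (a j q).Nonempty → q ∈ B j p ∧ (U j p).Nonempty := by
  obtain ⟨a, ea⟩ : ∃ a : κ → V → Set X, ∀ p ∈ A, ∀ q, Kid p q → ∀ j x,
      x ∈ a j q ↔ q ∈ B j p ∧ x ∈ U j p ∧ x ∈ cube (n + 1) q :=
    ⟨fun j q => {x | ∃ p ∈ A, Kid p q ∧ q ∈ B j p ∧ x ∈ U j p ∧ x ∈ cube (n + 1) q},
      fun p hp q hq j x => ⟨fun ⟨p', _, k, r⟩ => hq.uniq k ▸ r, fun r => ⟨p, hp, hq, r⟩⟩⟩
  have eu : ∀ p ∈ A, ∀ q, Kid p q → (⋃ j, a j q) = (⋃ j, U j p) ∩ cube (n + 1) q :=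
    fun p hp q hq => by
    refine Subset.antisymm (iUnion_subset fun j x hx => ?_) fun x hx => ?_
    · have := (ea p hp q hq j x).1 hx
      exact ⟨mem_iUnion.2 ⟨j, this.2.1⟩, this.2.2⟩
    · obtain ⟨j, hj⟩ := mem_iUnion.1 hx.1
      obtain ⟨j', h1, h2⟩ := (h.loc p hp).cov q hq j x ⟨hj, hx.2⟩
      exact mem_iUnion.2 ⟨j', (ea p hp q hq j' x).2 ⟨h1, h2, hx.2⟩⟩
  refine ⟨a, ⟨kids_finite h.fin, fun q hq => hq.1, ?_, ?_, ?_, ?_, ?_⟩, fun p hp q hq =>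
    ⟨eu p hp q hq, fun j ⟨x, hx⟩ => ⟨((ea p hp q hq j x).1 hx).1, x, ((ea p hp q hq j x).1 hx).2.1⟩⟩⟩
  · rintro j q ⟨-, p, hp, hq⟩
    by_cases m : q ∈ B j p
    · rw [show a j q = U j p ∩ cube (n + 1) q from
        Set.ext fun x => (ea p hp q hq j x).trans (and_iff_right m)]
      exact (h.loc p hp).ins j q m
    · exact Or.inl (eq_empty_of_forall_notMem fun x hx => m ((ea p hp q hq j x).1 hx).1)
  · rintro q ⟨-, p, hp, hq⟩ i j ne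
    refine disjoint_left.2 fun x hi hj => ?_
    have hi := (ea p hp q hq i x).1 hi
    have hj := (ea p hp q hq j x).1 hj
    exact disjoint_left.1 ((h.loc p hp).dj q i j ne hi.1 hj.1) hi.2 hj.2
  · rintro q ⟨-, p, hp, hq⟩
    rw [eu p hp q hq]
    refine Subset.antisymm (fun x hx => ?_) fun x hx => ?_
    · obtain ⟨j, hj⟩ := mem_iUnion.1 hx.1.1
      exact ⟨mem_biUnion hp (mem_iUnion.2 ⟨j, hj, hx.2⟩), hx.1.2⟩
    · obtain ⟨p', hp', m⟩ := mem_iUnion₂.1 hx.1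
      obtain ⟨j, hj⟩ := mem_iUnion.1 m
      exact ⟨⟨h.mt p hp p' hp' ⟨mem_iUnion.2 ⟨j, hj.1⟩, hq.sub n hx.2⟩, hx.2⟩, hj.2⟩
  · intro x hx
    obtain ⟨p, hp, m⟩ := mem_iUnion₂.1 hx
    obtain ⟨j, hj⟩ := mem_iUnion.1 m
    obtain ⟨q, hq, hc⟩ := kid_cover ((h.loc p hp).sub j hj.1)
    exact ⟨q, ⟨⟨x, hc, (((h.loc p hp).vis j).1 hj.1).1⟩, p, hp, hq⟩, hc⟩
  · intro i f hf x hx y hy
    obtain ⟨q, ⟨-, p, hp, hq⟩, hx, xf⟩ := mem_iUnion₂.1 hx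
    obtain ⟨q', ⟨-, p', hp', hq'⟩, hy, yf⟩ := mem_iUnion₂.1 hy
    have hx := (ea p hp q hq i x).1 hx
    have hy := (ea p' hp' q' hq' i y).1 hy
    by_cases e : p = p'
    · subst e
      have h1 := (((h.loc p hp).vis i).2 ⟨hx.2.1, Bx_any hf _ xf⟩).2
      have pc := ((h.loc p hp).ins i q hx.1).resolve_left (Nonempty.ne_empty ⟨x, hx.2⟩)
      exact pc.face hf ⟨hx.2, xf⟩ ⟨⟨hy.2.1, (adj_of_mem hf xf hx.2.2 h1).sub _ yf⟩, yf⟩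
    · exact h.one i p hp p' hp' e f hf x ⟨hx.2.1, xf⟩ y ⟨hy.2.1, yf⟩

theorem Sub.res (h : Sub n A U B) : ∃ (a : κ → V → Set X) (E : Set X),
    Sta (n + 1) (kids n A) a E ∧
    (∀ p ∈ A, ∀ q, Kid p q → ∀ j, (a j q).Nonempty → q ∈ B j p ∧ (U j p).Nonempty) ∧
    (∀ p ∈ A, E ∩ cube n p ∩ AnyH n = (⋃ j, U j p) ∩ AnyH n) ∧
    (Res (n + 1) (kids n A) (fun q => ⋃ j, a j q) E →
      ∃ l, Lo (n + 1) E l ∧ Left (n + 1) (⋃ e ∈ E, l e) ∧ ∀ p ∈ A,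
        SolU sg (jack n p) (jackS n p) ((⋃ j, U j p) ∪ ⋃ e ∈ E ∩ cube n p ∩ AnyH n, l e)) := by
  obtain ⟨a, st, ha⟩ := h.sta
  obtain ⟨hE, hV⟩ := st.E_fin
  generalize eE : (⋃ p ∈ A, ⋃ j, U j p ∩ AnyH (n + 1)) = E at st hE hV
  have e1 : ∀ p ∈ A, E ∩ cube n p ⊆ ⋃ j, U j p := fun p hp x hx => by
    obtain ⟨p', hp', m⟩ := mem_iUnion₂.1 (eE.ge hx.1)
    obtain ⟨j, hj⟩ := mem_iUnion.1 m
    exact h.mt p hp p' hp' ⟨mem_iUnion.2 ⟨j, hj.1⟩, hx.2⟩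
  have e2 : ∀ p ∈ A, (⋃ j, U j p) ∩ AnyH (n + 1) ⊆ E := fun p hp x hx => by
    obtain ⟨j, hj⟩ := mem_iUnion.1 hx.1
    exact eE.le (mem_biUnion hp (mem_iUnion.2 ⟨j, hj, hx.2⟩))
  have e3 : ∀ p ∈ A, E ∩ cube n p ∩ AnyH n = (⋃ j, U j p) ∩ AnyH n := fun p hp =>
    Subset.antisymm (inter_subset_inter_left _ (e1 p hp)) fun x hx =>
      ⟨⟨e2 p hp ⟨hx.1, AnyH_succ n hx.2⟩, iUnion_subset (h.loc p hp).sub hx.1⟩, hx.2⟩
  refine ⟨a, E, st, fun p hp q hq => (ha p hp q hq).2, e3, fun ⟨l, hL, hK, hS⟩ =>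
    ⟨l, hL, hK, fun p hp => ?_⟩⟩
  have s := h.loc p hp
  obtain ⟨A', bl, kd, eB, eS⟩ := bld_jack (h.ne p hp)
  have vis : (⋃ j, U j p) ⊆ N (n + 1) ∩ Mm (n + 1) := iUnion_subset fun j => (s.vis j).1
  have u1 : (⋃ j, U j p) ⊆ jackS n p := fun x hx =>
    ⟨⟨iUnion_subset s.sub hx, (vis hx).1⟩, Or.inl (vis hx).2⟩
  have u2 : ∀ e ∈ E ∩ cube n p ∩ AnyH n, l e ⊆ jackS n p ∩ AnyH n := fun e he x hx => by
    have m := (hL.up hV p).ge (mem_biUnion he hx)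
    exact ⟨⟨⟨m.1.2, ((hL.sub hV he.1.1).2.1 hx).1.1⟩, Or.inr m.2⟩, m.2⟩
  have key : ((⋃ j, U j p) ∪ ⋃ e ∈ E, l e) ∩ jackS n p =
      (⋃ j, U j p) ∪ ⋃ e ∈ E ∩ cube n p ∩ AnyH n, l e := by
    refine Subset.antisymm ?_ (union_subset (subset_inter subset_union_left u1)
      (iUnion₂_subset fun e he x hx => ⟨Or.inr (mem_biUnion he.1.1 hx), (u2 e he hx).1⟩))
    rintro x ⟨hx | hx, hj, hm | hm⟩
    · exact Or.inl hx
    · exact Or.inl hx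
    · obtain ⟨e, he, m⟩ := mem_iUnion₂.1 hx
      obtain rfl : x = e := (hL.sub hV he).2.2.1.le ⟨m, hm⟩
      exact Or.inl (e1 p hp ⟨he, hj.1⟩)
    · exact Or.inr ((hL.up hV p).le ⟨⟨hx, hj.1⟩, hm⟩)
  rw [← key, ← eB, ← eS]
  refine surgAll bl hL hK hE hV (e2 p hp) (fun q hq e he => ?_) ?_ fun q hq => ?_
  · obtain ⟨j, hj⟩ := mem_iUnion.1 (e1 p hp ⟨he.1, (kd q hq).sub n he.2⟩)
    obtain ⟨j', -, h2, h3⟩ := subR_pc s (kd q hq) hj he.2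
    exact closure_mono (inter_subset_inter_left _ (inter_subset_left.trans
      (subset_iUnion (fun j => U j p) j'))) (h3.dense ⟨h2, he.2⟩)
  · obtain ⟨ι, t, w, x, y, ar, e⟩ := s.wh
    have sw : ∀ i ∈ t, w i ⊆ ⋃ j, U j p := fun i hi z hz => e.ge (mem_biUnion hi hz)
    rw [eS, key, e]
    refine mkDumb (H := AnyH n) ⟨ar.fin, ar.arc, fun i hi => (sw i hi).trans u1, ar.inter, ar.disj⟩
      (fun i hi => ((K_M (n + 1)).mono_right ((sw i hi).trans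
        (vis.trans inter_subset_right))).symm) ((e3 p hp).trans (by rw [e]))
      (fun z hz => ⟨u2 z hz, ?_⟩) (hL.dj.subset fun z hz => hz.1.1)
    obtain ⟨f, hf, m⟩ := exists_face (hV hz.1.1).1.2 (hV hz.1.1).2
    refine ⟨_, _, hL.pop z hz.1.1 f hf m, fun v hv => ?_⟩
    have : v ∈ IPh (n + 1) f := by_contra fun c => hv.2 ⟨hv.1, c⟩
    exact ⟨this.2, this.1.2⟩
  · have k := hS q ⟨bl.ne q hq, p, hp, kd q hq⟩
    have eq := (ha p hp q (kd q hq)).1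
    convert k using 1
    refine Subset.antisymm ?_ (subset_inter (union_subset_union (eq.le.trans inter_subset_left)
      (biUnion_subset_biUnion_left inter_subset_left)) k.sub)
    rintro x ⟨hx | hx, hb⟩
    · exact Or.inl (eq.ge ⟨hx, hb.1.1⟩)
    · exact Or.inr ((hL.in_cube hV q).le ⟨hx, hb.1.1⟩)

end Pool.Agent.Lib.MP_b7d179_gt.M
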