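import Pool.Agent.Lib.MP_b7d179_gt.M.GB
import Pool.Agent.Lib.MP_b7d179_gt.U.Surg

/-! Dumbbells from arcs and lollipops; surgery along a sequence of glued bodies. -/

namespace Pool.Agent.Lib.MP_b7d179_gt.M

open Set

variable {n : ℕ} {p : V} {A : Set V} {S M U E : Set X} {l : X → Set X}

/-- arcs with a lollipop at each end are dumbbells -/
theorem mkDumb {ι : Type} {s : Set ι} {w : ι → Set X} {x y : ι → X} {H : Set X}
    (h : Arcs S H s w x y) (hK : ∀ i ∈ s, Disjoint (w i) K) (hE : E = (⋃ i ∈ s, w i) ∩ H)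
    (hl : ∀ e ∈ E, l e ⊆ S ∩ H ∧ ∃ D C, Pop K D C e (l e) ∧ D \ C ⊆ M) (hd : E.PairwiseDisjoint l) :
    Dumb K S M ((⋃ i ∈ s, w i) ∪ ⋃ e ∈ E, l e) := by
  have self : ∀ e ∈ E, e ∈ l e := fun e he => by
    obtain ⟨-, D, C, c, -⟩ := hl e he
    exact (c.facts.2.1.ge rfl).1
  have uniq : ∀ e ∈ E, ∀ e' ∈ E, ∀ z ∈ l e, z ∈ l e' → e = e' := fun e he e' he' z a b =>
    hd.elim he he' (not_disjoint_iff.2 ⟨z, a, b⟩)
  have mem : ∀ i ∈ s, ∀ z ∈ w i, z ∈ H → z ∈ E := fun i hi z a b => hE ▸ ⟨mem_biUnion hi a, b⟩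
  have hit : ∀ i ∈ s, ∀ e ∈ E, ∀ z ∈ w i, z ∈ l e → z = e := fun i hi e he z a b =>
    have c := mem i hi z a ((hl e he).1 b).2
    uniq z c e he z (self z c) b
  have hx : ∀ i ∈ s, x i ∈ E := fun i hi =>
    mem i hi _ (h.arc i hi).left ((h.inter i hi).ge (mem_insert _ _)).2
  have hy : ∀ i ∈ s, y i ∈ E := fun i hi =>
    mem i hi _ (h.arc i hi).right ((h.inter i hi).ge (mem_insert_of_mem _ rfl)).2
  have one : ∀ i ∈ s, ∀ e ∈ E, e ∈ w i → w i ∩ l e = {e} := fun i hi e he a =>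
    Subset.antisymm (fun z b => hit i hi e he z b.1 b.2) (singleton_subset_iff.2 ⟨a, self e he⟩)
  have cas : ∀ i ∈ s, ∀ z ∈ l (x i) ∪ w i ∪ l (y i), z ∈ w i ∨ ∃ e ∈ E, e ∈ w i ∧ z ∈ l e := by
    rintro i hi z ((a | a) | a)
    exacts [Or.inr ⟨_, hx i hi, (h.arc i hi).left, a⟩, Or.inl a,
      Or.inr ⟨_, hy i hi, (h.arc i hi).right, a⟩]
  have := jp_intro (K := K) (M := M) (S := S) (P := fun i => l (x i) ∪ w i ∪ l (y i)) h.fin
    (fun i hi => ?_) (fun i hi => union_subset (union_subset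
      (fun z a => ((hl _ (hx i hi)).1 a).1) (h.sub i hi)) fun z a => ((hl _ (hy i hi)).1 a).1)
    fun i hi j hj c => disjoint_left.2 fun z a b => ?_
  · rwa [show (⋃ i ∈ s, l (x i) ∪ w i ∪ l (y i)) = (⋃ i ∈ s, w i) ∪ ⋃ e ∈ E, l e from ?_] at this
    refine Subset.antisymm (iUnion₂_subset fun i hi z a => ?_) (union_subset
      (iUnion₂_mono fun i _ z a => Or.inl (Or.inr a)) (iUnion₂_subset fun e he z a => ?_))
    · rcases cas i hi z a with b | ⟨e, he, -, b⟩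
      exacts [Or.inl (mem_biUnion hi b), Or.inr (mem_biUnion he b)]
    · rw [hE] at he
      obtain ⟨i, hi, b⟩ := mem_iUnion₂.1 he.1
      rcases (h.inter i hi).le ⟨b, he.2⟩ with rfl | rfl
      exacts [mem_biUnion hi (Or.inl (Or.inl a)), mem_biUnion hi (Or.inr a)]
  · obtain ⟨-, D, C, c, c'⟩ := hl _ (hx i hi)
    obtain ⟨-, D', C', d, d'⟩ := hl _ (hy i hi)
    obtain ⟨W, v, W', v', b, r, t, e1, e2, e3, -, -, e4⟩ := c.bell d (h.arc i hi) (hK i hi)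
      (one i hi _ (hx i hi) (h.arc i hi).left) (one i hi _ (hy i hi) (h.arc i hi).right)
      (hd (hx i hi) (hy i hi) (h.arc i hi).ne)
    exact ⟨W, v, W', v', b, r, t, e1, e4, union_subset (e2.trans c') (e3.trans d')⟩
  · have d := disjoint_left.1 (h.disj hi hj c)
    rcases cas i hi z a with a | ⟨e, he, a, a'⟩ <;> rcases cas j hj z b with b | ⟨e', he', b, b'⟩
    · exact d a b
    · exact d a (hit i hi e' he' z a b' ▸ b)
    · exact d (hit j hj e he z b a' ▸ a) b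
    · exact d a (uniq e he e' he' z a' b' ▸ b)

theorem surgAll (h : Bld n A) (hL : Lo n E l) (hK : Left n (⋃ e ∈ E, l e)) (hE : E.Finite)
    (hV : E ⊆ Vo n) (hU : U ∩ AnyH n ⊆ E)
    (hc : ∀ q ∈ A, ∀ e ∈ E ∩ cube n q, e ∈ closure (U ∩ IQ n q))
    (hD : Dumb K (SA n A) (Safe n) ((U ∪ ⋃ e ∈ E, l e) ∩ SA n A))
    (hS : ∀ q ∈ A, SolU sg (body n q) (bodyS n q) ((U ∪ ⋃ e ∈ E, l e) ∩ bodyS n q)) :
    SolU sg (BA n A) (SA n A) ((U ∪ ⋃ e ∈ E, l e) ∩ SA n A) := by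
  induction h with
  | one _ =>
    rw [BA_single, SA_single]
    exact hS _ rfl
  | @add A d D C hB hd g hn hC ih =>
    have s2 := hS d (mem_insert _ _)
    have h1 := hB.g.ball sg_ok0
    have h2 := s2.good.ball sg_ok0
    obtain ⟨-, -, e1, e2, -, -, e3⟩ := g.th h1 h2
    have cD : C ⊆ D := g.d.rim_sub
    have cS : C ⊆ SA n (insert d A) := fun z a => (e3.ge a).1
    have cM : ∀ z ∈ C, z ∈ One n → z ∈ Mm n := fun z a b => (hC.le ⟨a, b⟩).1.2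
    have dA : D ⊆ AnyH n := fun z a => by
      obtain ⟨⟨-, q, hq, b⟩, c, -⟩ := g.i.ge a
      exact other_any b c fun e => hd (e ▸ hq)
    have face : ∀ z ∈ D, z ∈ One n → ∃ f, IsFace f ∧ z ∈ Ph n f ∧ Ph n f ⊆ D := fun z a b => by
      have := common_face (n := n) (disjoint_singleton_right.2 hd) (x := z)
      rw [BA_single, g.i] at this
      exact this ⟨a, b⟩
    have key : ∀ e ∈ E, ∀ z ∈ l e, z ∈ D →
        e ∈ C ∧ l e ⊆ D ∧ ∃ f, IsFace f ∧ e ∈ Bx n f ∧ Ph n f ⊆ D := fun e he z a b => by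
      obtain ⟨c0, c1, -, c3⟩ := hL.sub hV he
      obtain ⟨f, f1, f2, f3⟩ := face z b (c1 a).2
      have m := (c3 f f1).1.1 ⟨z, a, f2.1⟩
      have s : l e ⊆ D := fun u hu => f3 ⟨(c3 f f1).2 m hu, (c1 hu).1.1⟩
      exact ⟨(hC.ge ⟨⟨s c0, (hV he).1.1.2⟩, (hV he).2⟩).1, s, f, f1, m, f3⟩
    have rim : ∀ e ∈ E, ∀ z ∈ l e, z ∈ C → z = e := fun e he z a b =>
      have c := hL.sub hV he
      c.2.2.1.le ⟨a, cM z b (c.2.1 a).2⟩
    have xc : (U ∪ ⋃ e ∈ E, l e) ∩ SA n (insert d A) ∩ C = E ∩ C := by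
      refine Subset.antisymm ?_ fun e he =>
        ⟨⟨Or.inr (mem_biUnion he.1 (hL.sub hV he.1).1), cS he.2⟩, he.2⟩
      rintro z ⟨⟨a | a, -⟩, b⟩
      · exact ⟨hU ⟨a, dA (cD b)⟩, b⟩
      · obtain ⟨e, he, a⟩ := mem_iUnion₂.1 a
        exact ⟨rim e he z a b ▸ he, b⟩
    have lol : Lols K D C (Safe n) ((U ∪ ⋃ e ∈ E, l e) ∩ SA n (insert d A) ∩ C)
        (⋃ e ∈ E ∩ C, l e) := by
      rw [xc]
      have : ∀ e ∈ E ∩ C, ∃ W w η x, (Lol η W w e x ∧ KD K W w ∧ W ⊆ Safe n ∩ (D \ C) ∧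
          Disjoint η K ∧ η ⊆ D ∧ η ∩ C = {e}) ∧ W ∪ η = l e := fun e he => by
        obtain ⟨-, s, f, f1, f2, f3⟩ := key e he.1 e (hL.sub hV he.1).1 (cD he.2)
        obtain ⟨-, η, W, w, x, a1, a2, a3, a4, a5, -, a7⟩ := hL.pop e he.1 f f1 f2
        refine ⟨W, w, η, x, ⟨a1, a2, fun z a => ?_, a4, a5.trans f3, Subset.antisymm
          (fun z a => rim e he.1 z (a7 ▸ Or.inr a.1) a.2)
          (singleton_subset_iff.2 ⟨a1.arc.left, he.2⟩)⟩, a7.symm⟩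
        have b : z ∈ IPh n f := not_not.1 fun c => (a3 a).2 ⟨(a3 a).1, c⟩
        exact ⟨⟨b.2, b.1.2⟩, f3 (a3 a).1, fun c => b.1.2 (cM z c b.2)⟩
      choose! W w η x a b using this
      refine ⟨hE.inter_of_left _, inter_subset_right, W, w, η, x, a, fun e he e' he' c => ?_,
        iUnion₂_congr fun e he => (b e he).symm, ?_⟩
      · simp only [Function.onFun, b e he, b e' he']
        exact hL.dj he.1 he'.1 c
      · obtain ⟨z, z1, z2⟩ := hn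
        obtain ⟨f, f1, f2, f3⟩ := face z z1 z2
        obtain ⟨u, u1, u2⟩ := hK f f1 ⟨z, f2⟩
        exact ⟨u, ⟨u1.1, f3 u1.2⟩, fun c => u2 (biUnion_subset_biUnion_left inter_subset_left c)⟩
    have crs : Crs (SA n A) (bodyS n d) D C ((U ∪ ⋃ e ∈ E, l e) ∩ SA n (insert d A)) := by
      rw [Crs, xc]
      refine ⟨hE.inter_of_left _, fun e he => ?_⟩
      obtain ⟨⟨-, q, hq, b⟩, c, -⟩ := g.i.ge (cD he.2)
      refine ⟨closure_mono ?_ (hc q (mem_insert_of_mem _ hq) e ⟨he.1, b⟩),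
        closure_mono ?_ (hc d (mem_insert _ _) e ⟨he.1, c⟩)⟩
      · rintro z ⟨u, ⟨⟨z1, z2⟩, z3⟩, z4⟩
        exact ⟨⟨⟨Or.inl u, ⟨z2, q, mem_insert_of_mem _ hq, z1⟩, Or.inl z3⟩, ⟨z2, q, hq, z1⟩,
          Or.inl z3⟩, fun a => z4 (dA a)⟩
      · rintro z ⟨u, ⟨⟨z1, z2⟩, z3⟩, z4⟩
        exact ⟨⟨⟨Or.inl u, ⟨z2, d, mem_insert _ _, z1⟩, Or.inl z3⟩, ⟨z1, z2⟩, Or.inl z3⟩,
          fun a => z4 (dA a)⟩
    have side : ∀ B' S' : Set X, S' = SA n (insert d A) ∩ B' ∪ D →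
        ((U ∪ ⋃ e ∈ E, l e) ∩ SA n (insert d A) ∩ S' ∪ ⋃ e ∈ E ∩ C, l e) =
          (U ∪ ⋃ e ∈ E, l e) ∩ S' := fun B' S' e => by
      refine Subset.antisymm (union_subset (fun z a => ⟨a.1.1, a.2⟩)
        (iUnion₂_subset fun u hu z a => ⟨Or.inr (mem_biUnion hu.1 a), e.ge (Or.inr
          ((key u hu.1 u (hL.sub hV hu.1).1 (cD hu.2)).2.1 a))⟩)) fun z a => ?_
      rcases e.le a.2 with b | b
      · exact Or.inl ⟨⟨a.1, b.1⟩, a.2⟩
      have : ∃ u ∈ E, z ∈ l u := by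
        rcases a.1 with c | c
        · exact ⟨z, hU ⟨c, dA b⟩, (hL.sub hV (hU ⟨c, dA b⟩)).1⟩
        · simpa only [mem_iUnion, exists_prop] using c
      obtain ⟨u, hu, c⟩ := this
      exact Or.inr (mem_biUnion ⟨hu, (key u hu z c b).1⟩ c)
    have hM : Disjoint (Safe n) C := disjoint_left.2 fun z a b => a.2 (cM z b a.1)
    have hCK : Disjoint C K := disjoint_left.2 fun z a b =>
      disjoint_left.1 (K_M n) b (cM z a (K_One n b))
    have d1 := (surg_dumb g h1 h2 hD hM crs lol).1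
    rw [side _ _ e1] at d1
    have s1 := ih (fun q hq => hc q (mem_insert_of_mem _ hq)) d1
      fun q hq => hS q (mem_insert_of_mem _ hq)
    rw [← side _ _ e1] at s1
    rw [← side _ _ e2] at s2
    exact surg sg_ok0 g hCK hD hM crs lol s1 s2

end Pool.Agent.Lib.MP_b7d179_gt.M
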