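import Pool.Agent.Lib.MP_b7d179_gt.M.Defs
import Pool.Agent.Lib.MP_b7d179_gt.U.Defs

/-! The tower of dual cubes of the sponge (even ternary levels). -/

namespace Pool.Agent.Lib.MP_b7d179_gt.M

open Set

/-- feet: faces of even level that meet the thickened sponge; leaves: dual cubes -/
def sg : Tw X where
  K := K
  φ := {f : ℕ × V // IsFace f.2 ∧ (Ph (2 * f.1) f.2).Nonempty}
  β := {v : ℕ × V // (body (2 * v.1) v.2).Nonempty}
  lf f := f.1.1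
  A f := Ps (2 * f.1.1) f.1.2
  C f := PsC (2 * f.1.1) f.1.2
  J f := Og (2 * f.1.1 + 1) (land (2 * f.1.1) f.1.2)
  sub f := {g | g.1.1 = f.1.1 + 1 ∧ Bx (2 * g.1.1) g.1.2 ⊆ Bx (2 * f.1.1) f.1.2}
  lv v := v.1.1
  B v := cube (2 * v.1.1) v.1.2
  S v := cubeS (2 * v.1.1) v.1.2
  F v := {f | f.1.1 = v.1.1 ∧ Adj v.1.2 f.1.2}
  ch v := {w | w.1.1 = v.1.1 + 1 ∧ ∃ q, Kid v.1.2 q ∧ Kid q w.1.2}

/-- union of the dual cubes of an integer box, and its rim -/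
def Box (n : ℕ) (l u : V) : Set X :=
  {x | ∀ i, 2 * (l i : ℝ) - 1 ≤ 2 * 3 ^ n * x i ∧ 2 * 3 ^ n * x i ≤ 2 * (u i : ℝ) + 1}
def BoxS (n : ℕ) (l u : V) : Set X :=
  {x | x ∈ Box n l u ∧ ∃ i, 2 * 3 ^ n * x i = 2 * (l i : ℝ) - 1 ∨ 2 * 3 ^ n * x i = 2 * (u i : ℝ) + 1}

/-- where the discs of lollipops live: off the visible surface and off the dual edges -/
def Safe (n : ℕ) : Set X := One n \ Mm n

/-- lollipops in the face `f` -/
def LolF (n : ℕ) (f : V) (E Λ : Set X) : Prop :=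
  Lols K (Ph n f) (Ph n f \ IPh n f) univ E Λ

end Pool.Agent.Lib.MP_b7d179_gt.M
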