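import Pool.Agent.Lib.MP_b7d179_gt.M.Defs

/-! Windows: masks as unions of cells. -/

namespace Pool.Agent.Lib.MP_b7d179_gt.M

open Set C

theorem win_o (n : ℕ) (q : ℤ) : o n q = 1 ∨ o n q = -1 := by
  induction n generalizing q with
  | zero => unfold o; split_ifs <;> simp
  | succ n ih => unfold o; split_ifs <;> simp [ih]

theorem win_geo (w a b : ℕ) (hw : 0 < w) (h : a ≤ b) :
    geo w a b = ∑ i ∈ Finset.Icc (2 * a) (2 * b), 2 ^ (w * i) := by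
  have h1 : 1 < 2 ^ w := Nat.one_lt_two_pow hw.ne'
  have := Nat.geomSum_eq (m := 2 ^ w) h1
  have e : ∀ k, (∑ i ∈ Finset.Ico (2 * a) (2 * a + k), 2 ^ (w * i)) * (2 ^ w - 1) + 2 ^ (w * (2 * a)) =
      2 ^ (w * (2 * a + k)) := fun k => by
    induction k with
    | zero => simp
    | succ k ih =>
      rw [← add_assoc, Finset.sum_Ico_succ_top (by omega), add_mul, add_right_comm, ih, mul_add w _ 1,
        mul_one, pow_add, Nat.mul_sub_one,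
        Nat.add_sub_cancel' (Nat.le_mul_of_pos_right _ (by omega))]
  have e2 := e (2 * b + 1 - 2 * a)
  rw [show 2 * a + (2 * b + 1 - 2 * a) = 2 * b + 1 by omega] at e2
  rw [geo, ← e2, Nat.add_sub_cancel, Nat.mul_div_cancel _ (by omega), ← Finset.Ico_add_one_right_eq_Icc]

theorem win_bit {P R : ℕ} (h : ∀ i, dg P i ≤ dg R i) (t : ℕ) : (bm P R).testBit t = true ↔
    ∃ a b c, (2 * dg P 0 ≤ a ∧ a ≤ 2 * dg R 0) ∧ (2 * dg P 1 ≤ b ∧ b ≤ 2 * dg R 1) ∧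
      (2 * dg P 2 ≤ c ∧ c ≤ 2 * dg R 2) ∧ t = 225 * a + 15 * b + c := by
  have d : ∀ P, dg P 0 = P / 64 % 8 ∧ dg P 1 = P / 8 % 8 ∧ dg P 2 = P % 8 := fun P => by
    simp [dg]
  have l : ∀ i, dg R i < 8 := fun i => Nat.mod_lt _ (by norm_num)
  rw [bm, ← (d P).1, ← (d P).2.1, ← (d P).2.2, ← (d R).1, ← (d R).2.1, ← (d R).2.2,
    win_geo _ _ _ (by norm_num) (h 0), win_geo _ _ _ (by norm_num) (h 1),
    win_geo _ _ _ (by norm_num) (h 2)]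
  have l0 := l 0
  have l1 := l 1
  have l2 := l 2
  generalize dg P 0 = a0, dg P 1 = a1, dg P 2 = a2, dg R 0 = b0, dg R 1 = b1, dg R 2 = b2 at *
  have e : (∑ i ∈ Finset.Icc (2 * a0) (2 * b0), 2 ^ (225 * i)) *
      ((∑ i ∈ Finset.Icc (2 * a1) (2 * b1), 2 ^ (15 * i)) *
        ∑ i ∈ Finset.Icc (2 * a2) (2 * b2), 2 ^ (1 * i)) =
      ∑ t ∈ (Finset.Icc (2 * a0) (2 * b0) ×ˢ Finset.Icc (2 * a1) (2 * b1) ×ˢ
        Finset.Icc (2 * a2) (2 * b2)).image (fun q => 225 * q.1 + 15 * q.2.1 + q.2.2), 2 ^ t := by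
    rw [Finset.sum_image, Finset.sum_mul_sum, Finset.sum_mul]
    · simp only [Finset.sum_product, Finset.mul_sum, pow_add, one_mul, mul_assoc]
    · rintro ⟨a, b, c⟩ h1 ⟨a', b', c'⟩ h2 e
      simp only [Finset.coe_product, Finset.coe_Icc, mem_prod, mem_Icc, Prod.mk.injEq] at *
      omega
  rw [e, ← Nat.mem_bitIndices, ← List.mem_toFinset, Finset.toFinset_bitIndices_sum_two_pow]
  simp only [Finset.mem_image, Finset.mem_product, Finset.mem_Icc, Prod.exists]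
  exact ⟨fun ⟨a, b, c, h1, h2⟩ => ⟨a, b, c, h1.1, h1.2.1, h1.2.2, h2.symm⟩,
    fun ⟨a, b, c, h1, h2, h3, h4⟩ => ⟨a, b, c, ⟨h1, h2, h3⟩, h4.symm⟩⟩

theorem win_cases (s : ℝ) : s ≤ -18 ∧ pos s = 0 ∨ (-18 < s ∧ s < -13) ∧ pos s = 1 ∨
    s = -13 ∧ pos s = 2 ∨ (-13 < s ∧ s < -6) ∧ pos s = 3 ∨
    s = -6 ∧ pos s = 4 ∨ (-6 < s ∧ s < 1) ∧ pos s = 5 ∨
    s = 1 ∧ pos s = 6 ∨ (1 < s ∧ s < 3) ∧ pos s = 7 ∨
    s = 3 ∧ pos s = 8 ∨ (3 < s ∧ s < 6) ∧ pos s = 9 ∨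
    s = 6 ∧ pos s = 10 ∨ (6 < s ∧ s < 13) ∧ pos s = 11 ∨
    s = 13 ∧ pos s = 12 ∨ (13 < s ∧ s < 18) ∧ pos s = 13 ∨
    18 ≤ s ∧ pos s = 14 := by
  unfold pos
  by_cases h0 : s ≤ -18
  · rw [if_pos h0]; exact .inl ⟨h0, rfl⟩
  rw [if_neg h0]; right
  by_cases h1 : s < -13
  · rw [if_pos h1]; exact .inl ⟨⟨not_le.1 h0, h1⟩, rfl⟩
  rw [if_neg h1]; right
  by_cases h2 : s ≤ -13
  · rw [if_pos h2]; exact .inl ⟨le_antisymm h2 (not_lt.1 h1), rfl⟩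
  rw [if_neg h2]; right
  by_cases h3 : s < -6
  · rw [if_pos h3]; exact .inl ⟨⟨not_le.1 h2, h3⟩, rfl⟩
  rw [if_neg h3]; right
  by_cases h4 : s ≤ -6
  · rw [if_pos h4]; exact .inl ⟨le_antisymm h4 (not_lt.1 h3), rfl⟩
  rw [if_neg h4]; right
  by_cases h5 : s < 1
  · rw [if_pos h5]; exact .inl ⟨⟨not_le.1 h4, h5⟩, rfl⟩
  rw [if_neg h5]; right
  by_cases h6 : s ≤ 1
  · rw [if_pos h6]; exact .inl ⟨le_antisymm h6 (not_lt.1 h5), rfl⟩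
  rw [if_neg h6]; right
  by_cases h7 : s < 3
  · rw [if_pos h7]; exact .inl ⟨⟨not_le.1 h6, h7⟩, rfl⟩
  rw [if_neg h7]; right
  by_cases h8 : s ≤ 3
  · rw [if_pos h8]; exact .inl ⟨le_antisymm h8 (not_lt.1 h7), rfl⟩
  rw [if_neg h8]; right
  by_cases h9 : s < 6
  · rw [if_pos h9]; exact .inl ⟨⟨not_le.1 h8, h9⟩, rfl⟩
  rw [if_neg h9]; right
  by_cases h10 : s ≤ 6
  · rw [if_pos h10]; exact .inl ⟨le_antisymm h10 (not_lt.1 h9), rfl⟩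
  rw [if_neg h10]; right
  by_cases h11 : s < 13
  · rw [if_pos h11]; exact .inl ⟨⟨not_le.1 h10, h11⟩, rfl⟩
  rw [if_neg h11]; right
  by_cases h12 : s ≤ 13
  · rw [if_pos h12]; exact .inl ⟨le_antisymm h12 (not_lt.1 h11), rfl⟩
  rw [if_neg h12]; right
  by_cases h13 : s < 18
  · rw [if_pos h13]; exact .inl ⟨⟨not_le.1 h12, h13⟩, rfl⟩
  rw [if_neg h13]; right
  exact ⟨not_lt.1 h13, rfl⟩

theorem win_lt (s : ℝ) : pos s < 15 := by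
  rcases win_cases s with ⟨-, e⟩ | ⟨-, e⟩ | ⟨-, e⟩ | ⟨-, e⟩ | ⟨-, e⟩ |
    ⟨-, e⟩ | ⟨-, e⟩ | ⟨-, e⟩ | ⟨-, e⟩ | ⟨-, e⟩ |
    ⟨-, e⟩ | ⟨-, e⟩ | ⟨-, e⟩ | ⟨-, e⟩ | ⟨-, e⟩ <;> omega

theorem win_pos {s : ℝ} (h1 : -18 ≤ s) (h2 : s ≤ 18) {a : ℕ} (ha : a < 8) :
    (2 * a ≤ pos s ↔ tb a ≤ s) ∧ (pos s ≤ 2 * a ↔ s ≤ tb a) := by
  rcases win_cases s with ⟨h, e⟩ | ⟨⟨h, h'⟩, e⟩ | ⟨h, e⟩ | ⟨⟨h, h'⟩, e⟩ | ⟨h, e⟩ |
    ⟨⟨h, h'⟩, e⟩ | ⟨h, e⟩ | ⟨⟨h, h'⟩, e⟩ | ⟨h, e⟩ | ⟨⟨h, h'⟩, e⟩ |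
    ⟨h, e⟩ | ⟨⟨h, h'⟩, e⟩ | ⟨h, e⟩ | ⟨⟨h, h'⟩, e⟩ | ⟨h, e⟩ <;> rw [e] <;>
    interval_cases a <;> simp only [tb, List.getD_cons_zero, List.getD_cons_succ] <;>
    (constructor <;> constructor <;> intro <;> first | omega | linarith | (exfalso; linarith))

theorem win_tb {a : ℕ} (ha : a < 8) : -18 ≤ tb a ∧ tb a ≤ 18 := by
  interval_cases a <;> norm_num [tb]

theorem win_sur {k : ℕ} (hk : k < 15) : ∃ s : ℝ, -18 ≤ s ∧ s ≤ 18 ∧ pos s = k := by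
  refine ⟨([-18, -15, -13, -10, -6, 0, 1, 2, 3, 4, 6, 10, 13, 15, 18] : List ℝ).getD k 0, ?_⟩
  interval_cases k <;> norm_num [pos]

variable (n : ℕ) (p : V)

theorem win_cube (x : X) : x ∈ cube n p ↔ ∀ i, -18 ≤ sc n p x i ∧ sc n p x i ≤ 18 := by
  refine forall_congr' fun i => ?_
  rw [if_pos (by beta_reduce; omega), abs_le, sc, pow_succ]
  push_cast
  rcases win_o n (p i) with e | e <;> rw [e] <;> push_cast <;> constructor <;> intro h <;>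
    constructor <;> linarith [h.1, h.2]

theorem win_sc (x : X) (s : Fin 3 → ℝ) :
    (∀ i, sc n p x i = s i) ↔ x = fun i => ((o n (p i) : ℝ) * s i / 12 + 3 * p i) / 3 ^ (n + 1) := by
  rw [funext_iff]
  refine forall_congr' fun i => ?_
  rw [eq_div_iff (by positivity), sc]
  rcases win_o n (p i) with e | e <;> rw [e] <;> push_cast <;> constructor <;> intro h <;> linarith

theorem W_rl : Rl (W n p) := by
  refine ⟨fun a b => ?_, fun a b => ?_, fun a b => ?_⟩ <;> ext x <;>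
    simp only [W, mem_ofPred_eq, mem_inter_iff, mem_union, mem_sdiff, bit_and, bit_or, bit_df,
      Bool.and_eq_true, Bool.or_eq_true, Bool.not_eq_true', Bool.eq_false_iff] <;> tauto

theorem W_cube (a : ℕ) : W n p a ⊆ cube n p := fun _ h => h.1

theorem mem_bm {P R : ℕ} (h : ∀ i, dg P i ≤ dg R i) (x : X) :
    x ∈ W n p (bm P R) ↔ ∀ i, tb (dg P i) ≤ sc n p x i ∧ sc n p x i ≤ tb (dg R i) := by
  have l : ∀ R i, dg R i < 8 := fun R i => Nat.mod_lt _ (by norm_num)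
  have key : x ∈ cube n p → ((bm P R).testBit (ix n p x) = true ↔
      ∀ i, tb (dg P i) ≤ sc n p x i ∧ sc n p x i ≤ tb (dg R i)) := fun hx => by
    have c := (win_cube n p x).1 hx
    simp only [← fun i => (win_pos (c i).1 (c i).2 (l P i)).1,
      ← fun i => (win_pos (c i).1 (c i).2 (l R i)).2]
    rw [win_bit h, ix, Fin.forall_fin_succ, Fin.forall_fin_two]
    refine ⟨fun ⟨a, b, c, h1, h2, h3, e⟩ => ?_, fun k => ⟨_, _, _, k.1, k.2.1, k.2.2, rfl⟩⟩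
    have := win_lt (sc n p x 0)
    have := win_lt (sc n p x 1)
    have := win_lt (sc n p x 2)
    have := l R 0
    have := l R 1
    have := l R 2
    obtain ⟨e0, e1, e2⟩ : pos (sc n p x 0) = a ∧ pos (sc n p x 1) = b ∧ pos (sc n p x 2) = c := by
      omega
    exact ⟨e0 ▸ h1, e1 ▸ h2, e2 ▸ h3⟩
  refine ⟨fun k => (key k.1).1 k.2, fun k => ?_⟩
  have hx := (win_cube n p x).2 fun i =>
    ⟨(win_tb (l P i)).1.trans (k i).1, (k i).2.trans (win_tb (l R i)).2⟩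
  exact ⟨hx, (key hx).2 k⟩

theorem W_all : W n p mAll = cube n p := by
  ext x
  have a : ∀ i, dg 0 i = 0 := by decide
  have b : ∀ i, dg 511 i = 7 := by decide
  rw [mAll, mem_bm n p (fun i => by rw [a]; exact Nat.zero_le _), win_cube]
  simp [a, b, tb]

theorem W_ne {a : ℕ} (h : Nat.land a mAll ≠ 0) : (W n p a).Nonempty := by
  obtain ⟨t, ht⟩ := Nat.exists_testBit_of_ne_zero h
  rw [bit_and, Bool.and_eq_true, mAll, win_bit (by decide)] at ht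
  obtain ⟨h1, a, b, c, h2, h3, h4, rfl⟩ := ht
  have e : ∀ i, dg 511 i = 7 := by decide
  rw [e] at h2 h3 h4
  obtain ⟨s0, a1, a2, a3⟩ := win_sur (k := a) (by omega)
  obtain ⟨s1, b1, b2, b3⟩ := win_sur (k := b) (by omega)
  obtain ⟨s2, c1, c2, c3⟩ := win_sur (k := c) (by omega)
  have k := (win_sc n p _ ![s0, s1, s2]).2 rfl
  refine ⟨_, (win_cube n p _).2 fun i => ?_, by rw [ix, k, k, k]; simpa [a3, b3, c3] using h1⟩
  rw [k]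
  fin_cases i
  exacts [⟨a1, a2⟩, ⟨b1, b2⟩, ⟨c1, c2⟩]

theorem W_pt (P : ℕ) : W n p (pt P) = {pnt n p P} := by
  ext x
  rw [pt, mem_bm n p fun _ => le_rfl]
  simp only [← le_antisymm_iff, eq_comm (b := sc n p x _)]
  exact win_sc n p x _

end Pool.Agent.Lib.MP_b7d179_gt.M
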